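import Mathlib

set_option autoImplicit false

/-! Strong recursion on codes: polynomials with rational coefficients and their values. -/

namespace Pool.Agent.Helper967.AD

section SR

variable {α σ : Type*}

/-- list of the first `n` values of a function defined by strong recursion -/
def srl (g : α → List σ → σ) (a : α) : ℕ → List σ
  | 0 => []
  | n + 1 => srl g a n ++ [g a (srl g a n)]

/-- function defined by strong recursion -/
def sr (g : α → List σ → σ) (a : α) (n : ℕ) : σ := g a (srl g a n)

theorem srl_length (g : α → List σ → σ) (a : α) (n : ℕ) : (srl g a n).length = n := by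
  induction n with
  | zero => rfl
  | succ n ih => simp [srl, ih]

theorem srl_getD (g : α → List σ → σ) (a : α) (n m : ℕ) (d : σ) (h : m < n) :
    (srl g a n).getD m d = sr g a m := by
  induction n with
  | zero => omega
  | succ n ih =>
    rw [srl]
    rcases Nat.lt_succ_iff_lt_or_eq.1 h with h | rfl
    · rw [List.getD_append _ _ _ _ (by rw [srl_length]; exact h), ih h]
    · rw [List.getD_append_right _ _ _ _ (by rw [srl_length])]
      simp [srl_length, sr]

theorem srl_primrec {α σ : Type*} [Primcodable α] [Primcodable σ] {g : α → List σ → σ}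
    (hg : Primrec₂ g) : Primrec₂ (srl g) := by
  have h : Primrec₂ (fun (a : α) (n : ℕ) =>
      (Nat.rec (motive := fun _ => List σ) [] (fun _ l => l ++ [g a l]) n : List σ)) :=
    Primrec.nat_rec (f := fun _ : α => ([] : List σ)) (g := fun a p => p.2 ++ [g a p.2])
      (Primrec.const _)
      (Primrec.list_concat.comp (Primrec.snd.comp Primrec.snd)
        (hg.comp Primrec.fst (Primrec.snd.comp Primrec.snd)))
  refine h.of_eq fun a n => ?_
  induction n with
  | zero => rfl
  | succ n ih => simp only [srl, ih]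

theorem sr_primrec {α σ : Type*} [Primcodable α] [Primcodable σ] {g : α → List σ → σ}
    (hg : Primrec₂ g) : Primrec₂ (sr g) :=
  hg.comp Primrec.fst (srl_primrec hg)

end SR

theorem lt_pair {t r : ℕ} (h : 0 < t) : r < Nat.pair t r :=
  lt_of_le_of_lt (Nat.right_le_pair 0 r) (Nat.pair_lt_pair_left r h)

theorem lt_pair_left {t a b : ℕ} (h : 0 < t) : a < Nat.pair t (Nat.pair a b) :=
  lt_of_le_of_lt (Nat.left_le_pair a b) (lt_pair h)

theorem lt_pair_right {t a b : ℕ} (h : 0 < t) : b < Nat.pair t (Nat.pair a b) :=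
  lt_of_le_of_lt (Nat.right_le_pair a b) (lt_pair h)

section rec5

variable {α σ : Type*}

/-- one step of the recursion on codes of terms -/
def step5 (v : α → ℕ → σ) (z o : σ) (ad mu : σ → σ → σ) (cs : ℕ → σ) (a : α) (l : List σ) : σ :=
  if l.length.unpair.1 = 0 then v a l.length.unpair.2
  else if l.length.unpair.1 = 1 then z
  else if l.length.unpair.1 = 2 then o
  else if l.length.unpair.1 = 3 then
    ad (l.getD l.length.unpair.2.unpair.1 z) (l.getD l.length.unpair.2.unpair.2 z)
  else if l.length.unpair.1 = 4 then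
    mu (l.getD l.length.unpair.2.unpair.1 z) (l.getD l.length.unpair.2.unpair.2 z)
  else cs l.length.unpair.2

/-- recursion on codes of terms -/
def rec5 (v : α → ℕ → σ) (z o : σ) (ad mu : σ → σ → σ) (cs : ℕ → σ) (a : α) (n : ℕ) : σ :=
  sr (step5 v z o ad mu cs) a n

variable (v : α → ℕ → σ) (z o : σ) (ad mu : σ → σ → σ) (cs : ℕ → σ) (a : α)

theorem rec5_var (i : ℕ) : rec5 v z o ad mu cs a (Nat.pair 0 i) = v a i := by
  simp [rec5, sr, step5, srl_length]

theorem rec5_zero (i : ℕ) : rec5 v z o ad mu cs a (Nat.pair 1 i) = z := by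
  simp [rec5, sr, step5, srl_length]

theorem rec5_one (i : ℕ) : rec5 v z o ad mu cs a (Nat.pair 2 i) = o := by
  simp [rec5, sr, step5, srl_length]

theorem rec5_add (s t : ℕ) : rec5 v z o ad mu cs a (Nat.pair 3 (Nat.pair s t)) =
    ad (rec5 v z o ad mu cs a s) (rec5 v z o ad mu cs a t) := by
  rw [rec5, sr, step5]
  simp only [srl_length, Nat.unpair_pair]
  rw [srl_getD _ _ _ _ _ (lt_pair_left (by norm_num)),
    srl_getD _ _ _ _ _ (lt_pair_right (by norm_num))]
  simp [rec5]

theorem rec5_mul (s t : ℕ) : rec5 v z o ad mu cs a (Nat.pair 4 (Nat.pair s t)) =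
    mu (rec5 v z o ad mu cs a s) (rec5 v z o ad mu cs a t) := by
  rw [rec5, sr, step5]
  simp only [srl_length, Nat.unpair_pair]
  rw [srl_getD _ _ _ _ _ (lt_pair_left (by norm_num)),
    srl_getD _ _ _ _ _ (lt_pair_right (by norm_num))]
  simp [rec5]

theorem rec5_cst (k r : ℕ) : rec5 v z o ad mu cs a (Nat.pair (k + 5) r) = cs r := by
  simp [rec5, sr, step5, srl_length]

/-- induction on codes of terms -/
theorem ind5 {P : ℕ → Prop} (hv : ∀ i, P (Nat.pair 0 i)) (hz : ∀ i, P (Nat.pair 1 i))
    (ho : ∀ i, P (Nat.pair 2 i))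
    (had : ∀ s t, P s → P t → P (Nat.pair 3 (Nat.pair s t)))
    (hmu : ∀ s t, P s → P t → P (Nat.pair 4 (Nat.pair s t)))
    (hcs : ∀ k r, P (Nat.pair (k + 5) r)) : ∀ n, P n := by
  intro n
  induction n using Nat.strong_induction_on with
  | _ n ih =>
    obtain ⟨t, r, rfl⟩ : ∃ t r, n = Nat.pair t r := ⟨n.unpair.1, n.unpair.2, (Nat.pair_unpair n).symm⟩
    rcases t with _ | _ | _ | _ | _ | t
    · exact hv r
    · exact hz r
    · exact ho r
    · obtain ⟨a, b, rfl⟩ : ∃ a b, r = Nat.pair a b := ⟨r.unpair.1, r.unpair.2, (Nat.pair_unpair r).symm⟩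
      exact had a b (ih a (lt_pair_left (by norm_num))) (ih b (lt_pair_right (by norm_num)))
    · obtain ⟨a, b, rfl⟩ : ∃ a b, r = Nat.pair a b := ⟨r.unpair.1, r.unpair.2, (Nat.pair_unpair r).symm⟩
      exact hmu a b (ih a (lt_pair_left (by norm_num))) (ih b (lt_pair_right (by norm_num)))
    · exact hcs t r

theorem rec5_primrec {α σ : Type*} [Primcodable α] [Primcodable σ] {v : α → ℕ → σ} {z o : σ}
    {ad mu : σ → σ → σ} {cs : ℕ → σ} (hv : Primrec₂ v) (had : Primrec₂ ad) (hmu : Primrec₂ mu)
    (hcs : Primrec cs) : Primrec₂ (rec5 v z o ad mu cs) := by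
  apply sr_primrec
  have hL : Primrec fun p : α × List σ => p.2.length.unpair :=
    Primrec.unpair.comp (Primrec.list_length.comp Primrec.snd)
  have hT : Primrec fun p : α × List σ => p.2.length.unpair.1 := Primrec.fst.comp hL
  have hR : Primrec fun p : α × List σ => p.2.length.unpair.2 := Primrec.snd.comp hL
  have hU : Primrec fun p : α × List σ => p.2.length.unpair.2.unpair := Primrec.unpair.comp hR
  have hA : Primrec fun p : α × List σ => p.2.getD p.2.length.unpair.2.unpair.1 z :=
    (Primrec.list_getD z).comp Primrec.snd (Primrec.fst.comp hU)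
  have hB : Primrec fun p : α × List σ => p.2.getD p.2.length.unpair.2.unpair.2 z :=
    (Primrec.list_getD z).comp Primrec.snd (Primrec.snd.comp hU)
  have e : ∀ k : ℕ, PrimrecPred fun p : α × List σ => p.2.length.unpair.1 = k := fun k =>
    Primrec.eq.comp hT (Primrec.const k)
  refine Primrec.ite (e 0) (hv.comp Primrec.fst hR) ?_
  refine Primrec.ite (e 1) (Primrec.const z) ?_
  refine Primrec.ite (e 2) (Primrec.const o) ?_
  refine Primrec.ite (e 3) (had.comp hA hB) ?_
  refine Primrec.ite (e 4) (hmu.comp hA hB) ?_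
  exact hcs.comp hR

end rec5

/-- the rational number with code `r` -/
def rat (r : ℕ) : ℚ := ((r.unpair.1 : ℚ) - r.unpair.2.unpair.1) / (r.unpair.2.unpair.2 + 1)

theorem rat_surj (q : ℚ) : ∃ r, rat r = q := by
  refine ⟨Nat.pair q.num.toNat (Nat.pair (-q.num).toNat (q.den - 1)), ?_⟩
  simp only [rat, Nat.unpair_pair]
  have h1 : ((q.num.toNat : ℚ) - ((-q.num).toNat : ℚ)) = q.num := by
    have : ((q.num.toNat : ℤ) - ((-q.num).toNat : ℤ)) = q.num := by omega
    exact_mod_cast this
  have h2 : (((q.den - 1 : ℕ) : ℚ) + 1) = q.den := by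
    have := q.den_pos
    rw [Nat.cast_sub (by omega)]
    push_cast; ring
  rw [h1, h2, Rat.num_div_den]

open MvPolynomial in
/-- the polynomial with code `n` -/
noncomputable def pol (n : ℕ) : MvPolynomial ℕ ℚ :=
  rec5 (fun (_ : Unit) i => X i) 0 1 (· + ·) (· * ·) (fun r => C (rat r)) () n

section pol

open MvPolynomial

theorem pol_var (i : ℕ) : pol (Nat.pair 0 i) = X i := rec5_var ..
theorem pol_zero (i : ℕ) : pol (Nat.pair 1 i) = 0 := rec5_zero ..
theorem pol_one (i : ℕ) : pol (Nat.pair 2 i) = 1 := rec5_one ..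
theorem pol_add (s t : ℕ) : pol (Nat.pair 3 (Nat.pair s t)) = pol s + pol t := rec5_add ..
theorem pol_mul (s t : ℕ) : pol (Nat.pair 4 (Nat.pair s t)) = pol s * pol t := rec5_mul ..
theorem pol_cst (k r : ℕ) : pol (Nat.pair (k + 5) r) = C (rat r) := rec5_cst ..

theorem pol_surj (p : MvPolynomial ℕ ℚ) : ∃ n, pol n = p := by
  induction p using MvPolynomial.induction_on with
  | C a =>
    obtain ⟨r, hr⟩ := rat_surj a
    exact ⟨Nat.pair 5 r, by rw [pol_cst 0, hr]⟩
  | add p q hp hq =>
    obtain ⟨s, rfl⟩ := hp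
    obtain ⟨t, rfl⟩ := hq
    exact ⟨_, pol_add s t⟩
  | mul_X p i hp =>
    obtain ⟨s, rfl⟩ := hp
    exact ⟨_, by rw [pol_mul s (Nat.pair 0 i), pol_var]⟩

theorem pol_vars (n : ℕ) : ∀ i ∈ (pol n).vars, i ≤ n := by
  induction n using ind5 with
  | hv j =>
    intro i hi
    rw [pol_var] at hi
    simp only [vars_X, Finset.mem_singleton] at hi
    rw [hi]; exact Nat.right_le_pair 0 j
  | hz j => intro i hi; rw [pol_zero] at hi; simp at hi
  | ho j => intro i hi; rw [pol_one] at hi; simp at hi
  | had s t hs ht =>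
    intro i hi
    rw [pol_add] at hi
    classical
    rcases Finset.mem_union.1 (vars_add_subset _ _ hi) with h | h
    · exact (hs i h).trans (lt_pair_left (by norm_num)).le
    · exact (ht i h).trans (lt_pair_right (by norm_num)).le
  | hmu s t hs ht =>
    intro i hi
    rw [pol_mul] at hi
    classical
    rcases Finset.mem_union.1 (vars_mul _ _ hi) with h | h
    · exact (hs i h).trans (lt_pair_left (by norm_num)).le
    · exact (ht i h).trans (lt_pair_right (by norm_num)).le
  | hcs k r => intro i hi; rw [pol_cst] at hi; simp at hi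

theorem add_le_pair (s t : ℕ) : s + t ≤ Nat.pair s t := by
  unfold Nat.pair
  split_ifs with h
  · nlinarith
  · nlinarith

theorem add_two_le_pair {k : ℕ} (hk : 2 ≤ k) (r : ℕ) : r + 2 ≤ Nat.pair k r :=
  le_trans (by omega) (add_le_pair k r)

theorem pol_degree (n : ℕ) : (pol n).totalDegree ≤ n + 1 := by
  induction n using ind5 with
  | hv j => rw [pol_var, totalDegree_X]; omega
  | hz j => rw [pol_zero]; simp
  | ho j => rw [pol_one]; simp
  | had s t hs ht =>
    rw [pol_add]
    refine (totalDegree_add _ _).trans (max_le (hs.trans ?_) (ht.trans ?_))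
    · have := lt_pair_left (t := 3) (a := s) (b := t) (by norm_num); omega
    · have := lt_pair_right (t := 3) (a := s) (b := t) (by norm_num); omega
  | hmu s t hs ht =>
    rw [pol_mul]
    refine (totalDegree_mul _ _).trans ?_
    have h1 := add_le_pair s t
    have h2 := add_two_le_pair (k := 4) (by norm_num) (Nat.pair s t)
    omega
  | hcs k r => rw [pol_cst, totalDegree_C]; omega

end pol

end Pool.Agent.Helper967.AD
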