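import Pool.Agent.Helper967.AD1

set_option autoImplicit false

/-! A primitive recursive test for equality of polynomials given by codes. -/

namespace Pool.Agent.Helper967.AD

theorem primrec_pow : Primrec₂ (fun a b : ℕ => a ^ b) := by
  have h : Primrec₂ (fun (a n : ℕ) =>
      (Nat.rec (motive := fun _ => ℕ) 1 (fun _ l => l * a) n : ℕ)) :=
    Primrec.nat_rec (f := fun _ : ℕ => (1 : ℕ)) (g := fun a p => p.2 * a)
      (Primrec.const _) (Primrec.nat_mul.comp (Primrec.snd.comp Primrec.snd) Primrec.fst)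
  refine h.of_eq fun a n => ?_
  induction n with
  | zero => rfl
  | succ n ih => simp only [pow_succ, ← ih]

/-- value of a triple -/
def toQ (x : ℕ × ℕ × ℕ) : ℚ := ((x.1 : ℚ) - x.2.1) / (x.2.2 + 1)

def addT (x y : ℕ × ℕ × ℕ) : ℕ × ℕ × ℕ :=
  (x.1 * (y.2.2 + 1) + y.1 * (x.2.2 + 1), x.2.1 * (y.2.2 + 1) + y.2.1 * (x.2.2 + 1),
    x.2.2 * y.2.2 + x.2.2 + y.2.2)

def mulT (x y : ℕ × ℕ × ℕ) : ℕ × ℕ × ℕ :=
  (x.1 * y.1 + x.2.1 * y.2.1, x.1 * y.2.1 + x.2.1 * y.1, x.2.2 * y.2.2 + x.2.2 + y.2.2)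

def cstT (r : ℕ) : ℕ × ℕ × ℕ := (r.unpair.1, r.unpair.2.unpair.1, r.unpair.2.unpair.2)

theorem toQ_add (x y : ℕ × ℕ × ℕ) : toQ (addT x y) = toQ x + toQ y := by
  simp only [toQ, addT]
  push_cast
  have h1 : (x.2.2 : ℚ) + 1 ≠ 0 := by positivity
  have h2 : (y.2.2 : ℚ) + 1 ≠ 0 := by positivity
  have h3 : (x.2.2 : ℚ) * y.2.2 + x.2.2 + y.2.2 + 1 = (x.2.2 + 1) * (y.2.2 + 1) := by ring
  rw [h3]
  field_simp
  ring

theorem toQ_mul (x y : ℕ × ℕ × ℕ) : toQ (mulT x y) = toQ x * toQ y := by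
  simp only [toQ, mulT]
  push_cast
  have h1 : (x.2.2 : ℚ) + 1 ≠ 0 := by positivity
  have h2 : (y.2.2 : ℚ) + 1 ≠ 0 := by positivity
  have h3 : (x.2.2 : ℚ) * y.2.2 + x.2.2 + y.2.2 + 1 = (x.2.2 + 1) * (y.2.2 + 1) := by ring
  rw [h3]
  field_simp
  ring

/-- equality of the values of triples -/
def eqT (x y : ℕ × ℕ × ℕ) : Prop :=
  x.1 * (y.2.2 + 1) + y.2.1 * (x.2.2 + 1) = y.1 * (x.2.2 + 1) + x.2.1 * (y.2.2 + 1)

theorem eqT_iff (x y : ℕ × ℕ × ℕ) : eqT x y ↔ toQ x = toQ y := by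
  simp only [toQ, eqT]
  have h1 : (x.2.2 : ℚ) + 1 ≠ 0 := by positivity
  have h2 : (y.2.2 : ℚ) + 1 ≠ 0 := by positivity
  rw [div_eq_div_iff h1 h2]
  rw [← Nat.cast_inj (R := ℚ)]
  push_cast
  constructor
  · intro h; linear_combination h
  · intro h; linear_combination h

section prim

open Primrec

private theorem pp1 {α : Type*} [Primcodable α] {f g : α → ℕ} (hf : Primrec f) (hg : Primrec g) :
    Primrec fun a => f a + g a := Primrec.nat_add.comp hf hg
private theorem pm1 {α : Type*} [Primcodable α] {f g : α → ℕ} (hf : Primrec f) (hg : Primrec g) :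
    Primrec fun a => f a * g a := Primrec.nat_mul.comp hf hg

theorem addT_primrec : Primrec₂ addT := by
  have a1 : Primrec fun p : (ℕ × ℕ × ℕ) × (ℕ × ℕ × ℕ) => p.1.1 := fst.comp fst
  have a2 : Primrec fun p : (ℕ × ℕ × ℕ) × (ℕ × ℕ × ℕ) => p.1.2.1 := fst.comp (snd.comp fst)
  have a3 : Primrec fun p : (ℕ × ℕ × ℕ) × (ℕ × ℕ × ℕ) => p.1.2.2 := snd.comp (snd.comp fst)
  have b1 : Primrec fun p : (ℕ × ℕ × ℕ) × (ℕ × ℕ × ℕ) => p.2.1 := fst.comp snd
  have b2 : Primrec fun p : (ℕ × ℕ × ℕ) × (ℕ × ℕ × ℕ) => p.2.2.1 := fst.comp (snd.comp snd)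
  have b3 : Primrec fun p : (ℕ × ℕ × ℕ) × (ℕ × ℕ × ℕ) => p.2.2.2 := snd.comp (snd.comp snd)
  have o : Primrec fun p : (ℕ × ℕ × ℕ) × (ℕ × ℕ × ℕ) => (1 : ℕ) := const 1
  exact Primrec.pair (pp1 (pm1 a1 (pp1 b3 o)) (pm1 b1 (pp1 a3 o)))
    (Primrec.pair (pp1 (pm1 a2 (pp1 b3 o)) (pm1 b2 (pp1 a3 o))) (pp1 (pp1 (pm1 a3 b3) a3) b3))

theorem mulT_primrec : Primrec₂ mulT := by
  have a1 : Primrec fun p : (ℕ × ℕ × ℕ) × (ℕ × ℕ × ℕ) => p.1.1 := fst.comp fst
  have a2 : Primrec fun p : (ℕ × ℕ × ℕ) × (ℕ × ℕ × ℕ) => p.1.2.1 := fst.comp (snd.comp fst)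
  have a3 : Primrec fun p : (ℕ × ℕ × ℕ) × (ℕ × ℕ × ℕ) => p.1.2.2 := snd.comp (snd.comp fst)
  have b1 : Primrec fun p : (ℕ × ℕ × ℕ) × (ℕ × ℕ × ℕ) => p.2.1 := fst.comp snd
  have b2 : Primrec fun p : (ℕ × ℕ × ℕ) × (ℕ × ℕ × ℕ) => p.2.2.1 := fst.comp (snd.comp snd)
  have b3 : Primrec fun p : (ℕ × ℕ × ℕ) × (ℕ × ℕ × ℕ) => p.2.2.2 := snd.comp (snd.comp snd)
  exact Primrec.pair (pp1 (pm1 a1 b1) (pm1 a2 b2))
    (Primrec.pair (pp1 (pm1 a1 b2) (pm1 a2 b1)) (pp1 (pp1 (pm1 a3 b3) a3) b3))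

theorem eqT_primrec : PrimrecRel eqT := by
  have a1 : Primrec fun p : (ℕ × ℕ × ℕ) × (ℕ × ℕ × ℕ) => p.1.1 := fst.comp fst
  have a2 : Primrec fun p : (ℕ × ℕ × ℕ) × (ℕ × ℕ × ℕ) => p.1.2.1 := fst.comp (snd.comp fst)
  have a3 : Primrec fun p : (ℕ × ℕ × ℕ) × (ℕ × ℕ × ℕ) => p.1.2.2 := snd.comp (snd.comp fst)
  have b1 : Primrec fun p : (ℕ × ℕ × ℕ) × (ℕ × ℕ × ℕ) => p.2.1 := fst.comp snd
  have b2 : Primrec fun p : (ℕ × ℕ × ℕ) × (ℕ × ℕ × ℕ) => p.2.2.1 := fst.comp (snd.comp snd)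
  have b3 : Primrec fun p : (ℕ × ℕ × ℕ) × (ℕ × ℕ × ℕ) => p.2.2.2 := snd.comp (snd.comp snd)
  have o : Primrec fun p : (ℕ × ℕ × ℕ) × (ℕ × ℕ × ℕ) => (1 : ℕ) := const 1
  exact Primrec.eq.comp (pp1 (pm1 a1 (pp1 b3 o)) (pm1 b2 (pp1 a3 o)))
    (pp1 (pm1 b1 (pp1 a3 o)) (pm1 a2 (pp1 b3 o)))

theorem cstT_primrec : Primrec cstT := by
  have h1 : Primrec fun r : ℕ => r.unpair := Primrec.unpair
  have h2 : Primrec fun r : ℕ => r.unpair.2.unpair := Primrec.unpair.comp (snd.comp h1)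
  exact Primrec.pair (fst.comp h1) (Primrec.pair (fst.comp h2) (snd.comp h2))

/-- coordinate `i` of the point number `p.2` of the grid of size `p.1` -/
def coord (p : ℕ × ℕ) (i : ℕ) : ℕ := p.2 / p.1 ^ i % p.1

theorem coord_primrec : Primrec₂ coord := by
  have h1 : Primrec fun q : (ℕ × ℕ) × ℕ => q.1.1 ^ q.2 :=
    primrec_pow.comp (fst.comp fst) snd
  exact Primrec.nat_mod.comp (Primrec.nat_div.comp (snd.comp fst) h1) (fst.comp fst)

/-- the value of the polynomial with code `n` at the grid point `p` -/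
def ev (p : ℕ × ℕ) (n : ℕ) : ℕ × ℕ × ℕ :=
  rec5 (fun (p : ℕ × ℕ) i => (coord p i, 0, 0)) (0, 0, 0) (1, 0, 0) addT mulT cstT p n

theorem ev_primrec : Primrec₂ ev :=
  rec5_primrec (Primrec.pair coord_primrec (const (0, 0))) addT_primrec mulT_primrec cstT_primrec

end prim

theorem toQ_ev (p : ℕ × ℕ) (n : ℕ) :
    toQ (ev p n) = MvPolynomial.eval (fun i => (coord p i : ℚ)) (pol n) := by
  induction n using ind5 with
  | hv j => rw [pol_var, ev, rec5_var]; simp [toQ]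
  | hz j => rw [pol_zero, ev, rec5_zero]; simp [toQ]
  | ho j => rw [pol_one, ev, rec5_one]; simp [toQ]
  | had s t hs ht => rw [pol_add, map_add, ← hs, ← ht, ← toQ_add, ev, rec5_add]; rfl
  | hmu s t hs ht => rw [pol_mul, map_mul, ← hs, ← ht, ← toQ_mul, ev, rec5_mul]; rfl
  | hcs k r => rw [pol_cst, ev, rec5_cst]; simp [toQ, cstT, rat]

/-- test for equality of polynomials -/
def polEq (s t : ℕ) : Prop :=
  ∀ k ∈ List.range ((s + t + 3) ^ (s + t + 3)), eqT (ev (s + t + 3, k) s) (ev (s + t + 3, k) t)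

theorem polEq_primrec : PrimrecRel polEq := by
  have hR : PrimrecRel fun (k : ℕ) (q : ℕ × ℕ) =>
      eqT (ev (q.1 + q.2 + 3, k) q.1) (ev (q.1 + q.2 + 3, k) q.2) := by
    have hs : Primrec fun w : ℕ × (ℕ × ℕ) => w.2.1 := Primrec.fst.comp Primrec.snd
    have ht : Primrec fun w : ℕ × (ℕ × ℕ) => w.2.2 := Primrec.snd.comp Primrec.snd
    have hN : Primrec fun w : ℕ × (ℕ × ℕ) => w.2.1 + w.2.2 + 3 :=
      Primrec.nat_add.comp (Primrec.nat_add.comp hs ht) (Primrec.const 3)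
    have hp : Primrec fun w : ℕ × (ℕ × ℕ) => (w.2.1 + w.2.2 + 3, w.1) :=
      Primrec.pair hN Primrec.fst
    exact eqT_primrec.comp (ev_primrec.comp hp hs) (ev_primrec.comp hp ht)
  have h := hR.forall_mem_list
  have hN : Primrec fun q : ℕ × ℕ => q.1 + q.2 + 3 :=
    Primrec.nat_add.comp (Primrec.nat_add.comp Primrec.fst Primrec.snd) (Primrec.const 3)
  exact h.comp (f := fun q : ℕ × ℕ => List.range ((q.1 + q.2 + 3) ^ (q.1 + q.2 + 3)))
    (g := fun q : ℕ × ℕ => q) (Primrec.list_range.comp (primrec_pow.comp hN hN)) Primrec.id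

open MvPolynomial in
theorem polEq_iff (s t : ℕ) : polEq s t ↔ pol s = pol t := by
  constructor
  · intro h
    set N := s + t + 3 with hN
    have hvars : ∀ i ∈ (pol s - pol t).vars, i < N := by
      intro i hi
      classical
      have h1 := vars_sub_subset (p := pol s) (q := pol t) hi
      rcases Finset.mem_union.1 h1 with h2 | h2
      · have := pol_vars s i h2; omega
      · have := pol_vars t i h2; omega
    have hdeg : (pol s - pol t).totalDegree < N := by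
      have h1 := totalDegree_sub (pol s) (pol t)
      have h2 := pol_degree s
      have h3 := pol_degree t
      have h4 : max (pol s).totalDegree (pol t).totalDegree ≤ s + t + 1 :=
        max_le (by omega) (by omega)
      omega
    obtain ⟨q, hq⟩ := exists_rename_eq_of_vars_subset_range (pol s - pol t)
      (Fin.val : Fin N → ℕ) Fin.val_injective (by
        intro i hi
        exact ⟨⟨i, hvars i hi⟩, rfl⟩)
    have hq0 : q = 0 := by
      apply eq_zero_of_eval_zero_at_prod_finset q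
        (fun _ => (Finset.range N).map ⟨(Nat.cast : ℕ → ℚ), Nat.cast_injective⟩)
      · intro i
        rw [Finset.card_map, Finset.card_range]
        rw [← degreeOf_rename_of_injective Fin.val_injective i, hq]
        exact lt_of_le_of_lt (degreeOf_le_totalDegree _ _) hdeg
      · intro x hx
        have hx' : ∀ i, ∃ d : Fin N, (d : ℕ) = x i := by
          intro i
          have := hx i
          simp only [Finset.mem_map, Finset.mem_range, Function.Embedding.coeFn_mk] at this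
          obtain ⟨d, hd, hd2⟩ := this
          exact ⟨⟨d, hd⟩, hd2⟩
        choose d hd using hx'
        have hk : (finFunctionFinEquiv d : ℕ) < N ^ N := (finFunctionFinEquiv d).2
        have hc : ∀ i : Fin N, coord (N, (finFunctionFinEquiv d : ℕ)) i = d i := by
          intro i
          have h1 := congrFun (finFunctionFinEquiv.symm_apply_apply d) i
          have h2 := congrArg Fin.val h1
          exact h2
        have h1 := h _ (List.mem_range.2 hk)
        rw [eqT_iff, toQ_ev, toQ_ev, ← sub_eq_zero, ← map_sub, ← hq, eval_rename] at h1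
        have h2 : (fun i => (coord (N, (finFunctionFinEquiv d : ℕ)) i : ℚ)) ∘ Fin.val = x := by
          funext i
          rw [← hd i]
          simp only [Function.comp_apply]
          rw [hc i]
        rw [h2] at h1
        exact h1
    rw [hq0, map_zero] at hq
    exact (sub_eq_zero.1 hq.symm)
  · intro h k _
    rw [eqT_iff, toQ_ev, toQ_ev, h]

end Pool.Agent.Helper967.AD
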