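import Pool.Agent.Helper967.AD2

set_option autoImplicit false

/-! Codes of polynomials and formulas, and the two checks. -/

namespace Pool.Agent.Helper967.AD

open Primrec

def addC (s t : ℕ) : ℕ := Nat.pair 3 (Nat.pair s t)
def mulC (s t : ℕ) : ℕ := Nat.pair 4 (Nat.pair s t)
def varC (i : ℕ) : ℕ := Nat.pair 0 i
def cstC (r : ℕ) : ℕ := Nat.pair 5 r
def zeroC : ℕ := Nat.pair 1 0
def oneC : ℕ := Nat.pair 2 0
def subC (s t : ℕ) : ℕ := addC s (mulC (cstC (Nat.pair 0 (Nat.pair 1 0))) t)
def atomC (c : ℕ) : ℕ := subC c.unpair.1 c.unpair.2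
def powC (s : ℕ) (n : ℕ) : ℕ := Nat.rec (motive := fun _ => ℕ) oneC (fun _ acc => mulC acc s) n

theorem pol_addC (s t : ℕ) : pol (addC s t) = pol s + pol t := pol_add s t
theorem pol_mulC (s t : ℕ) : pol (mulC s t) = pol s * pol t := pol_mul s t
theorem pol_varC (i : ℕ) : pol (varC i) = MvPolynomial.X i := pol_var i
theorem pol_cstC (r : ℕ) : pol (cstC r) = MvPolynomial.C (rat r) := pol_cst 0 r
theorem pol_zeroC : pol zeroC = 0 := pol_zero 0
theorem pol_oneC : pol oneC = 1 := pol_one 0

theorem pol_subC (s t : ℕ) : pol (subC s t) = pol s - pol t := by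
  rw [subC, pol_addC, pol_mulC, pol_cstC]
  have : rat (Nat.pair 0 (Nat.pair 1 0)) = -1 := by simp [rat]
  rw [this, map_neg, map_one]
  ring

theorem pol_powC (s n : ℕ) : pol (powC s n) = pol s ^ n := by
  induction n with
  | zero => exact pol_oneC.trans (pow_zero _).symm
  | succ n ih => rw [pow_succ, ← ih]; exact pol_mulC _ _

/-- difference polynomial of the atomic formula with code `c` -/
noncomputable def P (c : ℕ) : MvPolynomial ℕ ℚ := pol c.unpair.1 - pol c.unpair.2

theorem pol_atomC (c : ℕ) : pol (atomC c) = P c := pol_subC _ _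

theorem P_vars (c : ℕ) : ∀ i ∈ (P c).vars, i ≤ c := by
  intro i hi
  classical
  rcases Finset.mem_union.1 (MvPolynomial.vars_sub_subset _ hi) with h | h
  · exact (pol_vars _ i h).trans (Nat.unpair_left_le c)
  · exact (pol_vars _ i h).trans (Nat.unpair_right_le c)

theorem addC_primrec : Primrec₂ addC :=
  Primrec₂.natPair.comp (const 3) (Primrec₂.natPair.comp fst snd)
theorem mulC_primrec : Primrec₂ mulC :=
  Primrec₂.natPair.comp (const 4) (Primrec₂.natPair.comp fst snd)
theorem varC_primrec : Primrec varC := Primrec₂.natPair.comp (const 0) Primrec.id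
theorem cstC_primrec : Primrec cstC := Primrec₂.natPair.comp (const 5) Primrec.id
theorem subC_primrec : Primrec₂ subC :=
  addC_primrec.comp fst (mulC_primrec.comp (const _) snd)
theorem atomC_primrec : Primrec atomC :=
  subC_primrec.comp (fst.comp Primrec.unpair) (snd.comp Primrec.unpair)
theorem powC_primrec : Primrec₂ powC :=
  Primrec.nat_rec (f := fun _ : ℕ => oneC) (g := fun a p => mulC p.2 a)
      (Primrec.const _) (mulC_primrec.comp (Primrec.snd.comp Primrec.snd) Primrec.fst)

/-- code of a univariate polynomial in the variable `v` with given list of coefficients -/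
def upC (v : ℕ) (l : List ℕ) : ℕ :=
  l.foldr (fun c acc => addC (cstC c) (mulC (varC v) acc)) zeroC

/-- univariate polynomial with given list of coefficients -/
noncomputable def up (l : List ℕ) : Polynomial ℚ :=
  l.foldr (fun c acc => Polynomial.C (rat c) + Polynomial.X * acc) 0

theorem pol_upC (v : ℕ) (l : List ℕ) :
    pol (upC v l) = Polynomial.aeval (MvPolynomial.X v : MvPolynomial ℕ ℚ) (up l) := by
  induction l with
  | nil => rw [upC, up, List.foldr_nil, List.foldr_nil, pol_zeroC, map_zero]
  | cons c l ih =>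
    have h1 : up (c :: l) = Polynomial.C (rat c) + Polynomial.X * up l := rfl
    rw [upC, List.foldr_cons, ← upC, pol_addC, pol_mulC, pol_cstC, pol_varC, ih, h1, map_add,
      map_mul, Polynomial.aeval_C, Polynomial.aeval_X]
    rfl

theorem up_degree (l : List ℕ) : (up l).degree < l.length := by
  induction l with
  | nil => rw [up, List.foldr_nil, Polynomial.degree_zero]; exact WithBot.bot_lt_coe _
  | cons c l ih =>
    rw [up, List.foldr_cons, ← up]
    refine lt_of_le_of_lt (Polynomial.degree_add_le _ _) (max_lt ?_ ?_)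
    · refine lt_of_le_of_lt Polynomial.degree_C_le ?_
      simp only [List.length_cons]; exact_mod_cast Nat.succ_pos _
    · rw [mul_comm]
      by_cases h0 : up l = 0
      · rw [h0, zero_mul, Polynomial.degree_zero]; exact WithBot.bot_lt_coe _
      · rw [Polynomial.degree_mul_X, Polynomial.degree_eq_natDegree h0]
        rw [Polynomial.degree_eq_natDegree h0] at ih
        simp only [List.length_cons]
        have : (up l).natDegree < l.length := by exact_mod_cast ih
        exact_mod_cast Nat.succ_lt_succ this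

theorem up_surj (p : Polynomial ℚ) (n : ℕ) (hp : p.degree < n) : ∃ l : List ℕ, l.length = n ∧ up l = p := by
  induction n generalizing p with
  | zero =>
    refine ⟨[], rfl, ?_⟩
    have : p = 0 := by
      by_contra h
      rw [Polynomial.degree_eq_natDegree h] at hp
      have : p.natDegree < 0 := by exact_mod_cast hp
      omega
    rw [this]; rfl
  | succ n ih =>
    have h1 : p.divX.degree < n := by
      by_cases h0 : p.divX = 0
      · rw [h0, Polynomial.degree_zero]; exact WithBot.bot_lt_coe _
      · rw [Polynomial.degree_eq_natDegree h0]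
        have hp0 : p ≠ 0 := by rintro rfl; simp at h0
        rw [Polynomial.degree_eq_natDegree hp0] at hp
        have h2 : p.natDegree < n + 1 := by exact_mod_cast hp
        have h3 := Polynomial.natDegree_divX_eq_natDegree_tsub_one (p := p)
        have h4 : p.natDegree ≠ 0 := by
          intro h
          apply h0
          rw [Polynomial.eq_C_of_natDegree_eq_zero h]
          simp
        have : p.divX.natDegree < n := by omega
        exact_mod_cast this
    obtain ⟨l, hl, hu⟩ := ih _ h1
    obtain ⟨r, hr⟩ := rat_surj (p.coeff 0)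
    refine ⟨r :: l, by simp [hl], ?_⟩
    rw [up, List.foldr_cons, ← up, hu, hr, mul_comm, add_comm]
    exact p.divX_mul_X_add

theorem upC_primrec : Primrec₂ upC := by
  have h : Primrec fun q : ℕ × List ℕ => q.2.foldr
      (fun c acc => addC (cstC c) (mulC (varC q.1) acc)) zeroC := by
    refine Primrec.list_foldr (h := fun (q : ℕ × List ℕ) (w : ℕ × ℕ) =>
      addC (cstC w.1) (mulC (varC q.1) w.2)) snd (const _) ?_
    exact addC_primrec.comp (cstC_primrec.comp (fst.comp snd))
      (mulC_primrec.comp (varC_primrec.comp (fst.comp fst)) (snd.comp snd))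
  exact h

/-- code of the linear combination of the polynomials in `G` with coefficients in `h` -/
def combC (G h : List ℕ) : ℕ :=
  (List.range G.length).foldr (fun j acc => addC (mulC (G.getD j 0) (h.getD j 0)) acc) zeroC

theorem pol_combC (G h : List ℕ) :
    pol (combC G h) = ∑ j ∈ Finset.range G.length, pol (G.getD j 0) * pol (h.getD j 0) := by
  have key : ∀ L : List ℕ, pol (L.foldr (fun j acc => addC (mulC (G.getD j 0) (h.getD j 0)) acc)
      zeroC) = (L.map fun j => pol (G.getD j 0) * pol (h.getD j 0)).sum := by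
    intro L
    induction L with
    | nil => rw [List.foldr_nil, pol_zeroC]; rfl
    | cons c l ih => rw [List.foldr_cons, pol_addC, pol_mulC, ih, List.map_cons, List.sum_cons]
  rw [combC, key]
  rfl

theorem combC_primrec : Primrec₂ combC := by
  have h : Primrec fun q : List ℕ × List ℕ => (List.range q.1.length).foldr
      (fun j acc => addC (mulC (q.1.getD j 0) (q.2.getD j 0)) acc) zeroC := by
    refine Primrec.list_foldr (h := fun (q : List ℕ × List ℕ) (w : ℕ × ℕ) =>
      addC (mulC (q.1.getD w.1 0) (q.2.getD w.1 0)) w.2)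
      (Primrec.list_range.comp (Primrec.list_length.comp fst)) (const _) ?_
    exact addC_primrec.comp
      (mulC_primrec.comp ((Primrec.list_getD 0).comp (fst.comp fst) (fst.comp snd))
        ((Primrec.list_getD 0).comp (snd.comp fst) (fst.comp snd))) (snd.comp snd)
  exact h

/-- digit `c` of the pattern `τ` -/
def tb (τ c : ℕ) : Bool := decide (τ / 2 ^ c % 2 = 1)

theorem tb_primrec : Primrec₂ tb := by
  have h : PrimrecRel fun τ c : ℕ => τ / 2 ^ c % 2 = 1 :=
    Primrec.eq.comp (Primrec.nat_mod.comp (Primrec.nat_div.comp fst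
      (primrec_pow.comp (const 2) snd)) (const 2)) (const 1)
  exact h.decide

theorem exists_tb (T : ℕ → Bool) (N : ℕ) : ∃ τ, τ < 2 ^ N ∧ ∀ c < N, tb τ c = T c := by
  let d : Fin N → Fin 2 := fun i => if T i then 1 else 0
  refine ⟨(finFunctionFinEquiv d : ℕ), (finFunctionFinEquiv d).2, fun c hc => ?_⟩
  have h1 := congrFun (finFunctionFinEquiv.symm_apply_apply d) ⟨c, hc⟩
  have h2 : (finFunctionFinEquiv d : ℕ) / 2 ^ c % 2 = d ⟨c, hc⟩ := congrArg Fin.val h1
  have h3 : ((d ⟨c, hc⟩ : Fin 2) : ℕ) = if T c = true then 1 else 0 := by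
    simp only [d]; split_ifs <;> rfl
  rw [h3] at h2
  have h4 : tb (finFunctionFinEquiv d : ℕ) c = decide ((if T c = true then 1 else 0) = 1) := by
    rw [tb]; simp only [h2]
  rw [h4]
  rcases Bool.eq_false_or_eq_true (T c) with hT | hT <;> rw [hT] <;> rfl

/-- product of the difference polynomials of the atoms false in the pattern -/
def prodC (n τ : ℕ) : ℕ :=
  (List.range (n + 1)).foldr (fun c acc => if tb τ c = true then acc else mulC (atomC c) acc) oneC

theorem pol_prodC (n τ : ℕ) :
    pol (prodC n τ) = ∏ c ∈ Finset.range (n + 1), if tb τ c = true then 1 else P c := by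
  have key : ∀ L : List ℕ, pol (L.foldr (fun c acc => if tb τ c = true then acc
      else mulC (atomC c) acc) oneC) = (L.map fun c => if tb τ c = true then 1 else P c).prod := by
    intro L
    induction L with
    | nil => rw [List.foldr_nil, pol_oneC]; rfl
    | cons c l ih =>
      rw [List.foldr_cons, List.map_cons, List.prod_cons, ← ih]
      split_ifs
      · rw [one_mul]
      · rw [pol_mulC, pol_atomC]
  rw [prodC, key]
  rfl

theorem prodC_primrec : Primrec₂ prodC := by
  have h : Primrec fun q : ℕ × ℕ => (List.range (q.1 + 1)).foldr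
      (fun c acc => if tb q.2 c = true then acc else mulC (atomC c) acc) oneC := by
    refine Primrec.list_foldr (h := fun (q : ℕ × ℕ) (w : ℕ × ℕ) =>
      if tb q.2 w.1 = true then w.2 else mulC (atomC w.1) w.2)
      (Primrec.list_range.comp (Primrec.succ.comp fst)) (const _) ?_
    refine Primrec.ite ?_ (snd.comp snd)
      (mulC_primrec.comp (atomC_primrec.comp (fst.comp snd)) (snd.comp snd))
    exact Primrec.eq.comp (tb_primrec.comp (snd.comp fst) (fst.comp snd)) (const true)
  exact h

/-- list of the difference polynomials of the atoms true in the pattern -/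
def zeroL (n τ : ℕ) : List ℕ :=
  (List.range (n + 1)).map fun c => if tb τ c = true then atomC c else zeroC

theorem zeroL_primrec : Primrec₂ zeroL := by
  have h : Primrec fun q : ℕ × ℕ => (List.range (q.1 + 1)).map
      (fun c => if tb q.2 c = true then atomC c else zeroC) := by
    refine Primrec.list_map (g := fun (q : ℕ × ℕ) (c : ℕ) =>
      if tb q.2 c = true then atomC c else zeroC)
      (Primrec.list_range.comp (Primrec.succ.comp fst)) ?_
    refine Primrec.ite ?_ (atomC_primrec.comp snd) (const _)
    exact Primrec.eq.comp (tb_primrec.comp (snd.comp fst) snd) (const true)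
  exact h

theorem zeroL_length (n τ : ℕ) : (zeroL n τ).length = n + 1 := by simp [zeroL]

theorem zeroL_getD (n τ c : ℕ) (hc : c < n + 1) :
    pol ((zeroL n τ).getD c 0) = if tb τ c = true then P c else 0 := by
  rw [zeroL, List.getD_eq_getElem _ _ (by simpa using hc)]
  simp only [List.getElem_map, List.getElem_range]
  split_ifs
  · exact pol_atomC c
  · exact pol_zeroC

/-- one step of the evaluation of a formula at a pattern of its atoms -/
def stepB {α : Type*} (T : α → ℕ → Bool) (a : α) (l : List Bool) : Bool :=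
  if l.length.unpair.1 = 0 then T a l.length.unpair.2
  else if l.length.unpair.1 = 1 then !(l.getD l.length.unpair.2 true)
  else if l.length.unpair.1 = 2 then
    (l.getD l.length.unpair.2.unpair.1 true && l.getD l.length.unpair.2.unpair.2 true)
  else (l.getD l.length.unpair.2.unpair.1 true || l.getD l.length.unpair.2.unpair.2 true)

/-- truth value of the formula with code `n`, when the atom with code `c` has truth value `T c` -/
def bevG {α : Type*} (T : α → ℕ → Bool) (a : α) (n : ℕ) : Bool := sr (stepB T) a n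

section bev

variable {α : Type*} (T : α → ℕ → Bool) (a : α)

theorem bevG_atom (i : ℕ) : bevG T a (Nat.pair 0 i) = T a i := by
  simp [bevG, sr, stepB, srl_length]

theorem bevG_not (s : ℕ) : bevG T a (Nat.pair 1 s) = !(bevG T a s) := by
  rw [bevG, sr, stepB]
  simp only [srl_length, Nat.unpair_pair]
  rw [srl_getD _ _ _ _ _ (lt_pair (by norm_num))]
  simp [bevG]

theorem bevG_and (s t : ℕ) : bevG T a (Nat.pair 2 (Nat.pair s t)) =
    (bevG T a s && bevG T a t) := by
  rw [bevG, sr, stepB]
  simp only [srl_length, Nat.unpair_pair]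
  rw [srl_getD _ _ _ _ _ (lt_pair_left (by norm_num)),
    srl_getD _ _ _ _ _ (lt_pair_right (by norm_num))]
  simp [bevG]

theorem bevG_or (k s t : ℕ) : bevG T a (Nat.pair (k + 3) (Nat.pair s t)) =
    (bevG T a s || bevG T a t) := by
  rw [bevG, sr, stepB]
  simp only [srl_length, Nat.unpair_pair]
  rw [srl_getD _ _ _ _ _ (lt_pair_left (by omega)),
    srl_getD _ _ _ _ _ (lt_pair_right (by omega))]
  simp [bevG]

/-- induction on codes of formulas -/
theorem indB {Q : ℕ → Prop} (h0 : ∀ i, Q (Nat.pair 0 i)) (h1 : ∀ s, Q s → Q (Nat.pair 1 s))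
    (h2 : ∀ s t, Q s → Q t → Q (Nat.pair 2 (Nat.pair s t)))
    (h3 : ∀ k s t, Q s → Q t → Q (Nat.pair (k + 3) (Nat.pair s t))) : ∀ n, Q n := by
  intro n
  induction n using Nat.strong_induction_on with
  | _ n ih =>
    obtain ⟨t, r, rfl⟩ : ∃ t r, n = Nat.pair t r := ⟨n.unpair.1, n.unpair.2, (Nat.pair_unpair n).symm⟩
    rcases t with _ | _ | _ | t
    · exact h0 r
    · exact h1 r (ih r (lt_pair (by norm_num)))
    · obtain ⟨a, b, rfl⟩ : ∃ a b, r = Nat.pair a b := ⟨r.unpair.1, r.unpair.2, (Nat.pair_unpair r).symm⟩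
      exact h2 a b (ih a (lt_pair_left (by norm_num))) (ih b (lt_pair_right (by norm_num)))
    · obtain ⟨a, b, rfl⟩ : ∃ a b, r = Nat.pair a b := ⟨r.unpair.1, r.unpair.2, (Nat.pair_unpair r).symm⟩
      exact h3 t a b (ih a (lt_pair_left (by omega))) (ih b (lt_pair_right (by omega)))

/-- the truth value only depends on the truth values of the atoms with codes up to `n` -/
theorem bevG_congr {β : Type*} (T' : β → ℕ → Bool) (b : β) (n : ℕ)
    (h : ∀ c ≤ n, T a c = T' b c) : bevG T a n = bevG T' b n := by
  induction n using indB with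
  | h0 i => rw [bevG_atom, bevG_atom]; exact h i (Nat.right_le_pair 0 i)
  | h1 s hs =>
    rw [bevG_not, bevG_not, hs fun c hc => h c (hc.trans (lt_pair (by norm_num)).le)]
  | h2 s t hs ht =>
    rw [bevG_and, bevG_and, hs fun c hc => h c (hc.trans (lt_pair_left (by norm_num)).le),
      ht fun c hc => h c (hc.trans (lt_pair_right (by norm_num)).le)]
  | h3 k s t hs ht =>
    rw [bevG_or, bevG_or, hs fun c hc => h c (hc.trans (lt_pair_left (by omega)).le),
      ht fun c hc => h c (hc.trans (lt_pair_right (by omega)).le)]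

theorem bevG_primrec {α : Type*} [Primcodable α] {T : α → ℕ → Bool} (hT : Primrec₂ T) :
    Primrec₂ (bevG T) := by
  apply sr_primrec
  have hL : Primrec fun p : α × List Bool => p.2.length.unpair :=
    Primrec.unpair.comp (Primrec.list_length.comp Primrec.snd)
  have h1 : Primrec fun p : α × List Bool => p.2.length.unpair.1 := Primrec.fst.comp hL
  have hR : Primrec fun p : α × List Bool => p.2.length.unpair.2 := Primrec.snd.comp hL
  have hU : Primrec fun p : α × List Bool => p.2.length.unpair.2.unpair := Primrec.unpair.comp hR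
  have hR' : Primrec fun p : α × List Bool => p.2.getD p.2.length.unpair.2 true :=
    (Primrec.list_getD true).comp Primrec.snd hR
  have hA : Primrec fun p : α × List Bool => p.2.getD p.2.length.unpair.2.unpair.1 true :=
    (Primrec.list_getD true).comp Primrec.snd (Primrec.fst.comp hU)
  have hB : Primrec fun p : α × List Bool => p.2.getD p.2.length.unpair.2.unpair.2 true :=
    (Primrec.list_getD true).comp Primrec.snd (Primrec.snd.comp hU)
  have e : ∀ k : ℕ, PrimrecPred fun p : α × List Bool => p.2.length.unpair.1 = k := fun k =>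
    Primrec.eq.comp h1 (Primrec.const k)
  refine Primrec.ite (e 0) (hT.comp Primrec.fst hR) ?_
  refine Primrec.ite (e 1) (Primrec.not.comp hR') ?_
  refine Primrec.ite (e 2) (Primrec.and.comp hA hB) ?_
  exact Primrec.or.comp hA hB

end bev

/-- truth value of the formula with code `n` at the pattern `τ` -/
def bev (τ n : ℕ) : Bool := bevG tb τ n

theorem bev_primrec : Primrec₂ bev := bevG_primrec tb_primrec

/-- check of a certificate of truth -/
def chkT (n : ℕ) (K : List (ℕ × List ℕ)) : Prop :=
  ∀ τ ∈ List.range (2 ^ (n + 1)), bev τ n = true ∨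
    polEq (powC (prodC n τ) (K.getD τ (0, [])).1) (combC (zeroL n τ) (K.getD τ (0, [])).2)

theorem chkT_primrec : PrimrecRel chkT := by
  have hR : PrimrecRel fun (τ : ℕ) (q : ℕ × List (ℕ × List ℕ)) => bev τ q.1 = true ∨
      polEq (powC (prodC q.1 τ) (q.2.getD τ (0, [])).1)
        (combC (zeroL q.1 τ) (q.2.getD τ (0, [])).2) := by
    have hτ : Primrec fun w : ℕ × (ℕ × List (ℕ × List ℕ)) => w.1 := fst
    have hn : Primrec fun w : ℕ × (ℕ × List (ℕ × List ℕ)) => w.2.1 := fst.comp snd
    have hK : Primrec fun w : ℕ × (ℕ × List (ℕ × List ℕ)) => w.2.2.getD w.1 (0, []) :=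
      (Primrec.list_getD (0, [])).comp (snd.comp snd) fst
    refine PrimrecPred.or (Primrec.eq.comp (bev_primrec.comp hτ hn) (const true)) ?_
    exact polEq_primrec.comp (powC_primrec.comp (prodC_primrec.comp hn hτ) (fst.comp hK))
      (combC_primrec.comp (zeroL_primrec.comp hn hτ) (snd.comp hK))
  have h := hR.forall_mem_list
  exact h.comp (f := fun q : ℕ × List (ℕ × List ℕ) => List.range (2 ^ (q.1 + 1)))
    (g := fun q : ℕ × List (ℕ × List ℕ) => q)
    (Primrec.list_range.comp (primrec_pow.comp (const 2) (Primrec.succ.comp fst))) Primrec.id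

/-- generators of the ideal of a point: `x_i - β_i(t)` for `i ≤ n`, and a monic `m(t)`, where `t`
is the variable number `n + 1` -/
def gens (n : ℕ) (β : List (List ℕ)) (m : ℕ × List ℕ) : List ℕ :=
  (List.range (n + 1)).map (fun i => subC (varC i) (upC (n + 1) (β.getD i []))) ++
    [addC (powC (varC (n + 1)) (m.2.length + 1)) (upC (n + 1) (m.1 :: m.2))]

theorem gens_primrec :
    Primrec₂ fun (n : ℕ) (q : List (List ℕ) × (ℕ × List ℕ)) => gens n q.1 q.2 := by
  have hn : Primrec fun q : ℕ × List (List ℕ) × (ℕ × List ℕ) => q.1 := fst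
  have hm : Primrec fun q : ℕ × List (List ℕ) × (ℕ × List ℕ) => q.2.2 := snd.comp snd
  have h1 : Primrec fun q : ℕ × List (List ℕ) × (ℕ × List ℕ) => (List.range (q.1 + 1)).map
      (fun i => subC (varC i) (upC (q.1 + 1) (q.2.1.getD i []))) := by
    refine Primrec.list_map (g := fun (q : ℕ × List (List ℕ) × (ℕ × List ℕ)) (i : ℕ) =>
      subC (varC i) (upC (q.1 + 1) (q.2.1.getD i [])))
      (Primrec.list_range.comp (Primrec.succ.comp fst)) ?_
    refine subC_primrec.comp (varC_primrec.comp snd) (upC_primrec.comp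
      (Primrec.succ.comp (fst.comp fst)) ?_)
    exact (Primrec.list_getD []).comp (fst.comp (snd.comp fst)) snd
  have h2 : Primrec fun q : ℕ × List (List ℕ) × (ℕ × List ℕ) =>
      addC (powC (varC (q.1 + 1)) (q.2.2.2.length + 1)) (upC (q.1 + 1) (q.2.2.1 :: q.2.2.2)) := by
    refine addC_primrec.comp (powC_primrec.comp (varC_primrec.comp (Primrec.succ.comp hn))
      (Primrec.succ.comp (Primrec.list_length.comp (snd.comp hm)))) ?_
    exact upC_primrec.comp (Primrec.succ.comp hn)
      (Primrec.list_cons.comp (fst.comp hm) (snd.comp hm))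
  exact Primrec.list_append.comp h1 (Primrec.list_cons.comp h2 (const []))

/-- certificates of falsity: a pattern, a point (given by `β` and `m`), and cofactors -/
abbrev CF : Type := ℕ × (List (List ℕ) × (ℕ × List ℕ)) × (List (List ℕ) × List ℕ)

/-- check of a certificate of falsity -/
def chkF (n : ℕ) (K : CF) : Prop :=
  bev K.1 n = false ∧ ∀ c ∈ List.range (n + 1),
    (tb K.1 c = true ∧
      polEq (atomC c) (combC (gens n K.2.1.1 K.2.1.2) (K.2.2.1.getD c []))) ∨
    (tb K.1 c = false ∧
      polEq (mulC (atomC c) (K.2.2.2.getD c 0))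
        (addC oneC (combC (gens n K.2.1.1 K.2.1.2) (K.2.2.1.getD c []))))

theorem chkF_primrec : PrimrecRel chkF := by
  have hR : PrimrecRel fun (c : ℕ) (q : ℕ × CF) =>
      (tb q.2.1 c = true ∧
        polEq (atomC c) (combC (gens q.1 q.2.2.1.1 q.2.2.1.2) (q.2.2.2.1.getD c []))) ∨
      (tb q.2.1 c = false ∧
        polEq (mulC (atomC c) (q.2.2.2.2.getD c 0))
          (addC oneC (combC (gens q.1 q.2.2.1.1 q.2.2.1.2) (q.2.2.2.1.getD c [])))) := by
    have hc : Primrec fun w : ℕ × (ℕ × CF) => w.1 := fst
    have hq : Primrec fun w : ℕ × (ℕ × CF) => w.2 := snd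
    have hn : Primrec fun w : ℕ × (ℕ × CF) => w.2.1 := fst.comp hq
    have hK : Primrec fun w : ℕ × (ℕ × CF) => w.2.2 := snd.comp hq
    have hτ : Primrec fun w : ℕ × (ℕ × CF) => w.2.2.1 := fst.comp hK
    have hK2 : Primrec fun w : ℕ × (ℕ × CF) => w.2.2.2 := snd.comp hK
    have hP : Primrec fun w : ℕ × (ℕ × CF) => w.2.2.2.1 := fst.comp hK2
    have hHW : Primrec fun w : ℕ × (ℕ × CF) => w.2.2.2.2 := snd.comp hK2
    have hH1 : Primrec fun w : ℕ × (ℕ × CF) => w.2.2.2.2.1 := fst.comp hHW
    have hW1 : Primrec fun w : ℕ × (ℕ × CF) => w.2.2.2.2.2 := snd.comp hHW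
    have hg : Primrec fun w : ℕ × (ℕ × CF) => gens w.2.1 w.2.2.2.1.1 w.2.2.2.1.2 :=
      gens_primrec.comp hn hP
    have hH : Primrec fun w : ℕ × (ℕ × CF) => w.2.2.2.2.1.getD w.1 [] :=
      (Primrec.list_getD []).comp hH1 hc
    have hW : Primrec fun w : ℕ × (ℕ × CF) => w.2.2.2.2.2.getD w.1 0 :=
      (Primrec.list_getD 0).comp hW1 hc
    have hcomb := combC_primrec.comp hg hH
    have ht := tb_primrec.comp hτ hc
    refine PrimrecPred.or (PrimrecPred.and (Primrec.eq.comp ht (const true)) ?_)
      (PrimrecPred.and (Primrec.eq.comp ht (const false)) ?_)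
    · exact polEq_primrec.comp (atomC_primrec.comp hc) hcomb
    · exact polEq_primrec.comp (mulC_primrec.comp (atomC_primrec.comp hc) hW)
        (addC_primrec.comp (const _) hcomb)
  have h := hR.forall_mem_list
  refine PrimrecPred.and (Primrec.eq.comp (bev_primrec.comp (fst.comp snd) fst) (const false)) ?_
  exact h.comp (f := fun q : ℕ × CF => List.range (q.1 + 1))
    (g := fun q : ℕ × CF => q) (Primrec.list_range.comp (Primrec.succ.comp fst)) Primrec.id

end Pool.Agent.Helper967.AD
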