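import Mathlib

set_option autoImplicit false

/-! Definitions: quantifier-free formulas over a field and over a two-sorted structure
(Lie algebra, field), Gödel numbers, and decidability of universal theories. -/

namespace Pool.Agent.Helper967.FL

/-- Terms of the field sort, in the signature `+, ·, 0, 1`; `var i` is the `i`-th variable of the
field sort. -/
inductive FTerm
  | var (i : ℕ)
  | zero
  | one
  | add (s t : FTerm)
  | mul (s t : FTerm)

/-- Terms of the algebra sort, in the signature `+, 0, [·,·]` and scalar multiplication (a term of
the field sort times a term of the algebra sort); `var i` is the `i`-th variable of the algebra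
sort. -/
inductive LTerm
  | var (i : ℕ)
  | zero
  | add (s t : LTerm)
  | lie (s t : LTerm)
  | smul (c : FTerm) (t : LTerm)

/-- Quantifier-free formulas in the language of rings `+, ·, 0, 1`. -/
inductive FForm
  | eq (s t : FTerm)
  | not (p : FForm)
  | and (p q : FForm)
  | or (p q : FForm)

/-- Quantifier-free formulas in the two-sorted language of Lie algebras over fields. -/
inductive LForm
  | eqF (s t : FTerm)
  | eqL (s t : LTerm)
  | not (p : LForm)
  | and (p q : LForm)
  | or (p q : LForm)

/-- Value of a term of the field sort, when the variables have the values `e`. -/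
def FTerm.val {F : Type*} [Field F] (e : ℕ → F) : FTerm → F
  | var i => e i
  | zero => 0
  | one => 1
  | add s t => s.val e + t.val e
  | mul s t => s.val e * t.val e

/-- Value of a term of the algebra sort, when the field variables have the values `e` and the
algebra variables have the values `g`. -/
def LTerm.val {F L : Type*} [Field F] [LieRing L] [LieAlgebra F L] (e : ℕ → F) (g : ℕ → L) :
    LTerm → L
  | var i => g i
  | zero => 0
  | add s t => s.val e g + t.val e g
  | lie s t => ⁅s.val e g, t.val e g⁆
  | smul c t => c.val e • t.val e g

/-- Truth of a quantifier-free formula in the field `F`. -/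
def FForm.Holds {F : Type*} [Field F] (e : ℕ → F) : FForm → Prop
  | eq s t => s.val e = t.val e
  | not p => ¬ p.Holds e
  | and p q => p.Holds e ∧ q.Holds e
  | or p q => p.Holds e ∨ q.Holds e

/-- Truth of a quantifier-free formula in the two-sorted structure `(L, F)`. -/
def LForm.Holds {F L : Type*} [Field F] [LieRing L] [LieAlgebra F L] (e : ℕ → F) (g : ℕ → L) :
    LForm → Prop
  | eqF s t => s.val e = t.val e
  | eqL s t => s.val e g = t.val e g
  | not p => ¬ p.Holds e g
  | and p q => p.Holds e g ∧ q.Holds e g
  | or p q => p.Holds e g ∨ q.Holds e g

/-- Gödel numbers of terms of the field sort. -/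
def FTerm.code : FTerm → ℕ
  | var i => Nat.pair 0 i
  | zero => Nat.pair 1 0
  | one => Nat.pair 2 0
  | add s t => Nat.pair 3 (Nat.pair s.code t.code)
  | mul s t => Nat.pair 4 (Nat.pair s.code t.code)

/-- Gödel numbers of terms of the algebra sort. -/
def LTerm.code : LTerm → ℕ
  | var i => Nat.pair 0 i
  | zero => Nat.pair 1 0
  | add s t => Nat.pair 2 (Nat.pair s.code t.code)
  | lie s t => Nat.pair 3 (Nat.pair s.code t.code)
  | smul c t => Nat.pair 4 (Nat.pair c.code t.code)

/-- Gödel numbers of quantifier-free formulas in the language of rings. -/
def FForm.code : FForm → ℕ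
  | eq s t => Nat.pair 0 (Nat.pair s.code t.code)
  | not p => Nat.pair 1 p.code
  | and p q => Nat.pair 2 (Nat.pair p.code q.code)
  | or p q => Nat.pair 3 (Nat.pair p.code q.code)

/-- Gödel numbers of quantifier-free formulas in the two-sorted language. -/
def LForm.code : LForm → ℕ
  | eqF s t => Nat.pair 0 (Nat.pair s.code t.code)
  | eqL s t => Nat.pair 1 (Nat.pair s.code t.code)
  | not p => Nat.pair 2 p.code
  | and p q => Nat.pair 3 (Nat.pair p.code q.code)
  | or p q => Nat.pair 4 (Nat.pair p.code q.code)

/-- The universal theory `Th_∀(F)` of the field `F` is decidable: some algorithm, given the Gödel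
number of a quantifier-free formula `φ`, decides whether the sentence `∀ x̄ φ(x̄)` is true in
`F`. -/
def FieldUniversalTheoryDecidable (F : Type*) [Field F] : Prop :=
  ∃ f : ℕ → Bool, Computable f ∧ ∀ φ : FForm, f φ.code = true ↔ ∀ e : ℕ → F, φ.Holds e

/-- The universal theory `Th_∀(L)` of the Lie algebra `L` over `F`, as a two-sorted structure
`(L, F)`, is decidable: some algorithm, given the Gödel number of a quantifier-free formula `φ`,
decides whether the sentence `∀ x̄ φ(x̄)` (universally quantified over all variables of both sorts)
is true in `(L, F)`. -/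
def LieUniversalTheoryDecidable (F L : Type*) [Field F] [LieRing L] [LieAlgebra F L] : Prop :=
  ∃ f : ℕ → Bool, Computable f ∧
    ∀ φ : LForm, f φ.code = true ↔ ∀ (e : ℕ → F) (g : ℕ → L), φ.Holds e g

end Pool.Agent.Helper967.FL
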