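import Pool.Agent.Helper967.AD3
import Pool.Agent.Helper967.FLDefs

set_option autoImplicit false

/-! Soundness of the two checks. -/

namespace Pool.Agent.Helper967.AD

open MvPolynomial Pool.Agent.Helper967.FL

section sem

variable {F : Type*} [Field F] [CharZero F]

theorem aeval_pol_code (e : ℕ → F) (t : FTerm) : aeval e (pol t.code) = t.val e := by
  induction t with
  | var i => rw [FTerm.code, pol_var, aeval_X]; rfl
  | zero => rw [FTerm.code, pol_zero, map_zero]; rfl
  | one => rw [FTerm.code, pol_one, map_one]; rfl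
  | add s t hs ht => rw [FTerm.code, pol_add, map_add, hs, ht]; rfl
  | mul s t hs ht => rw [FTerm.code, pol_mul, map_mul, hs, ht]; rfl

open Classical in
/-- truth value of the atom with code `c` at `e` -/
noncomputable def TF (e : ℕ → F) (c : ℕ) : Bool := decide (aeval e (P c) = 0)

theorem TF_iff (e : ℕ → F) (c : ℕ) : TF e c = true ↔ aeval e (P c) = 0 := by
  simp [TF]

theorem holds_iff (e : ℕ → F) (φ : FForm) : bevG TF e φ.code = true ↔ φ.Holds e := by
  induction φ with
  | eq s t =>
    rw [FForm.code, bevG_atom, TF_iff, P, Nat.unpair_pair, map_sub, aeval_pol_code,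
      aeval_pol_code, sub_eq_zero]
    rfl
  | not p hp =>
    rw [FForm.code, bevG_not, FForm.Holds, ← hp]
    simp
  | and p q hp hq =>
    rw [FForm.code, bevG_and, FForm.Holds, ← hp, ← hq]
    simp
  | or p q hp hq =>
    have h0 := bevG_or (α := ℕ → F) TF e 0 p.code q.code
    rw [zero_add] at h0
    rw [FForm.code, h0, FForm.Holds, ← hp, ← hq]
    simp

theorem soundT {n : ℕ} {K : List (ℕ × List ℕ)} (h : chkT n K) (e : ℕ → F) :
    bevG TF e n = true := by
  obtain ⟨τ, hτ, hc⟩ := exists_tb (TF e) (n + 1)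
  have hb : bev τ n = bevG TF e n := bevG_congr _ _ _ _ _ fun c hcn => hc c (by omega)
  rw [← hb]
  rcases h τ (List.mem_range.2 hτ) with h | h
  · exact h
  · exfalso
    rw [polEq_iff, pol_powC, pol_prodC, pol_combC, zeroL_length] at h
    have h1 := congrArg (aeval e) h
    rw [map_pow, map_prod, map_sum] at h1
    have h2 : (∑ j ∈ Finset.range (n + 1), aeval e (pol ((zeroL n τ).getD j 0) *
        pol (List.getD (K.getD τ (0, [])).2 j 0))) = 0 := by
      apply Finset.sum_eq_zero
      intro j hj
      have hj' : j < n + 1 := Finset.mem_range.1 hj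
      rw [map_mul, zeroL_getD _ _ _ hj']
      split_ifs with ht
      · rw [hc j hj', TF_iff] at ht
        rw [ht, zero_mul]
      · rw [map_zero, zero_mul]
    rw [h2] at h1
    have h3 : (∏ x ∈ Finset.range (n + 1), aeval e (if tb τ x = true then 1 else P x)) ≠ 0 := by
      apply Finset.prod_ne_zero_iff.2
      intro j hj
      have hj' : j < n + 1 := Finset.mem_range.1 hj
      split_ifs with ht
      · rw [map_one]; exact one_ne_zero
      · rw [hc j hj', TF_iff] at ht
        exact ht
    exact pow_ne_zero _ h3 h1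

theorem gens_length (n : ℕ) (β : List (List ℕ)) (m : ℕ × List ℕ) :
    (gens n β m).length = n + 2 := by simp [gens]

theorem gens_getD_lt (n : ℕ) (β : List (List ℕ)) (m : ℕ × List ℕ) (j : ℕ) (hj : j < n + 1) :
    pol ((gens n β m).getD j 0) =
      X j - Polynomial.aeval (X (n + 1) : MvPolynomial ℕ ℚ) (up (β.getD j [])) := by
  rw [gens, List.getD_append _ _ _ _ (by simpa using hj),
    List.getD_eq_getElem _ _ (by simpa using hj)]
  simp only [List.getElem_map, List.getElem_range]
  rw [pol_subC, pol_varC, pol_upC]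

theorem gens_getD_last (n : ℕ) (β : List (List ℕ)) (m : ℕ × List ℕ) :
    pol ((gens n β m).getD (n + 1) 0) =
      Polynomial.aeval (X (n + 1) : MvPolynomial ℕ ℚ)
        (Polynomial.X ^ (m.2.length + 1) + up (m.1 :: m.2)) := by
  rw [gens, List.getD_append_right _ _ _ _ (by simp)]
  simp only [List.length_map, List.length_range, Nat.sub_self]
  rw [List.getD_cons_zero, pol_addC, pol_powC, pol_varC, pol_upC, map_add, map_pow,
    Polynomial.aeval_X]

theorem monic_degree (a : ℕ) (l : List ℕ) :
    (Polynomial.X ^ (l.length + 1) + up (a :: l)).degree ≠ 0 := by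
  have h1 : (up (a :: l)).degree < (Polynomial.X ^ (l.length + 1) : Polynomial ℚ).degree := by
    rw [Polynomial.degree_X_pow]
    exact up_degree (a :: l)
  rw [Polynomial.degree_add_eq_left_of_degree_lt h1, Polynomial.degree_X_pow]
  exact_mod_cast Nat.succ_ne_zero l.length

theorem soundF [IsAlgClosed F] {n : ℕ} {K : CF} (h : chkF n K) :
    ∃ e : ℕ → F, bevG TF e n = false := by
  obtain ⟨τ, ⟨β, m⟩, H, W⟩ := K
  obtain ⟨hb, h⟩ := h
  obtain ⟨θ, hθ⟩ := IsAlgClosed.exists_aeval_eq_zero F _ (monic_degree m.1 m.2)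
  let e : ℕ → F := fun i => if i = n + 1 then θ else Polynomial.aeval θ (up (β.getD i []))
  have he : e (n + 1) = θ := by simp [e]
  have hcomb : ∀ p : Polynomial ℚ, aeval e (Polynomial.aeval (X (n + 1) : MvPolynomial ℕ ℚ) p) =
      Polynomial.aeval θ p := by
    intro p
    have h1 := Polynomial.aeval_algHom_apply (aeval e : MvPolynomial ℕ ℚ →ₐ[ℚ] F)
      (X (n + 1) : MvPolynomial ℕ ℚ) p
    rw [← h1, aeval_X, he]
  have hG : ∀ h' : List ℕ, aeval e (pol (combC (gens n β m) h')) = 0 := by
    intro h'
    rw [pol_combC, gens_length, map_sum]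
    apply Finset.sum_eq_zero
    intro j hj
    have hj' : j < n + 2 := Finset.mem_range.1 hj
    rw [map_mul]
    rcases Nat.lt_succ_iff_lt_or_eq.1 hj' with hj2 | rfl
    · rw [gens_getD_lt _ _ _ _ hj2, map_sub, aeval_X, hcomb]
      have : e j = Polynomial.aeval θ (up (β.getD j [])) := by
        simp only [e]; rw [if_neg (by omega)]
      rw [this, sub_self, zero_mul]
    · rw [gens_getD_last, hcomb, hθ, zero_mul]
  refine ⟨e, ?_⟩
  rw [← hb]
  apply bevG_congr
  intro c hc
  rcases h c (List.mem_range.2 (by omega)) with ⟨ht, hp⟩ | ⟨ht, hp⟩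
  · show TF e c = tb τ c
    have ht' : tb τ c = true := ht
    rw [ht', TF_iff]
    rw [polEq_iff, pol_atomC] at hp
    rw [hp]
    exact hG _
  · show TF e c = tb τ c
    have ht' : tb τ c = false := ht
    rw [ht', ← Bool.not_eq_true, TF_iff]
    rw [polEq_iff, pol_mulC, pol_addC, pol_atomC, pol_oneC] at hp
    have h1 := congrArg (aeval e) hp
    rw [map_mul, map_add, map_one] at h1
    intro h0
    rw [h0, zero_mul, hG, add_zero] at h1
    exact zero_ne_one h1

end sem

end Pool.Agent.Helper967.AD
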