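import Pool.Agent.Helper967.AD4

set_option autoImplicit false

/-! Completeness of the two checks. -/

namespace Pool.Agent.Helper967.AD

open MvPolynomial Pool.Agent.Helper967.FL

theorem comb_of_mem (G : List ℕ) (p : MvPolynomial ℕ ℚ)
    (hp : p ∈ Ideal.span (Set.range fun j : Fin G.length => pol (G.getD j 0))) :
    ∃ h, pol (combC G h) = p := by
  rw [Ideal.mem_span_range_iff_exists_fun] at hp
  obtain ⟨c, hc⟩ := hp
  choose k hk using fun j => pol_surj (c j)
  refine ⟨List.ofFn k, ?_⟩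
  rw [pol_combC, Finset.sum_range, ← hc]
  refine Finset.sum_congr rfl fun j _ => ?_
  have : (List.ofFn k).getD j 0 = k j := by
    rw [List.getD_eq_getElem _ _ (by simp)]; simp
  rw [this, hk, mul_comm]

theorem exists_point (n τ : ℕ)
    (h : ∀ M : ℕ, (∏ c ∈ Finset.range (n + 1), if tb τ c = true then 1 else P c) ^ M ∉
      Ideal.span (Set.range fun j : Fin (zeroL n τ).length => pol ((zeroL n τ).getD j 0))) :
    ∃ (K : Type) (_ : Field K) (_ : Algebra ℚ K) (_ : FiniteDimensional ℚ K) (e : ℕ → K),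
      ∀ c < n + 1, (tb τ c = true ↔ aeval e (P c) = 0) := by
  classical
  set N := n + 1 with hN
  have hP' : ∀ c, ∃ q : MvPolynomial (Fin N) ℚ, c < N → rename Fin.val q = P c := by
    intro c
    by_cases hc : c < N
    · obtain ⟨q, hq⟩ := exists_rename_eq_of_vars_subset_range (P c)
        (Fin.val : Fin N → ℕ) Fin.val_injective (by
          intro i hi
          have := P_vars c i hi
          exact ⟨⟨i, by omega⟩, rfl⟩)
      exact ⟨q, fun _ => hq⟩
    · exact ⟨0, fun h => absurd h hc⟩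
  choose P' hP' using hP'
  let I' : Ideal (MvPolynomial (Fin N) ℚ) :=
    Ideal.span (Set.range fun j : Fin N => if tb τ j = true then P' j else 0)
  let g' : MvPolynomial (Fin N) ℚ := ∏ c ∈ Finset.range N, if tb τ c = true then 1 else P' c
  have hrad : g' ∉ I'.radical := by
    rintro ⟨M, hM⟩
    apply h M
    have h1 : (rename Fin.val : MvPolynomial (Fin N) ℚ →ₐ[ℚ] MvPolynomial ℕ ℚ) (g' ^ M) ∈
        I'.map (rename Fin.val : MvPolynomial (Fin N) ℚ →ₐ[ℚ] MvPolynomial ℕ ℚ) :=
      Ideal.mem_map_of_mem _ hM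
    have h2 : (rename Fin.val : MvPolynomial (Fin N) ℚ →ₐ[ℚ] MvPolynomial ℕ ℚ) (g' ^ M) =
        (∏ c ∈ Finset.range N, if tb τ c = true then 1 else P c) ^ M := by
      rw [map_pow, map_prod]
      congr 1
      refine Finset.prod_congr rfl fun c hc => ?_
      split_ifs
      · rw [map_one]
      · exact hP' c (Finset.mem_range.1 hc)
    rw [h2] at h1
    refine (?_ : I'.map (rename Fin.val : MvPolynomial (Fin N) ℚ →ₐ[ℚ] MvPolynomial ℕ ℚ) ≤ _) h1
    rw [Ideal.map_span, Ideal.span_le]
    rintro _ ⟨_, ⟨j, rfl⟩, rfl⟩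
    apply Ideal.subset_span
    refine ⟨⟨j, by rw [zeroL_length]; exact j.2⟩, ?_⟩
    dsimp only
    rw [zeroL_getD _ _ _ j.2]
    split_ifs
    · exact (hP' j j.2).symm
    · exact (map_zero _).symm
  rw [Ideal.radical_eq_jacobson, Ideal.jacobson, Submodule.mem_sInf] at hrad
  push Not at hrad
  obtain ⟨J, ⟨hIJ, hJ⟩, hgJ⟩ := hrad
  letI : Field (MvPolynomial (Fin N) ℚ ⧸ J) := Ideal.Quotient.field J
  have hfin : Module.Finite ℚ (MvPolynomial (Fin N) ℚ ⧸ J) :=
    finite_of_finite_type_of_isJacobsonRing ℚ (MvPolynomial (Fin N) ℚ ⧸ J)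
  refine ⟨MvPolynomial (Fin N) ℚ ⧸ J, inferInstance, inferInstance, hfin,
    fun i => if hi : i < N then Ideal.Quotient.mkₐ ℚ J (X ⟨i, hi⟩) else 0, ?_⟩
  intro c hc
  rw [← hP' c hc, aeval_rename]
  have h3 : ((fun i => if hi : i < N then Ideal.Quotient.mkₐ ℚ J (X ⟨i, hi⟩) else 0) ∘ Fin.val :
      Fin N → MvPolynomial (Fin N) ℚ ⧸ J) = fun i => Ideal.Quotient.mkₐ ℚ J (X i) := by
    funext i
    simp only [Function.comp_apply]
    rw [dif_pos i.2]
  rw [h3]
  have h4 : aeval (fun i => Ideal.Quotient.mkₐ ℚ J (X i)) (P' c) = Ideal.Quotient.mkₐ ℚ J (P' c) := by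
    have h5 := DFunLike.congr_fun (aeval_unique (Ideal.Quotient.mkₐ ℚ J)) (P' c)
    exact h5.symm
  rw [h4, Ideal.Quotient.mkₐ_eq_mk, Ideal.Quotient.eq_zero_iff_mem]
  constructor
  · intro ht
    apply hIJ
    apply Ideal.subset_span
    refine ⟨⟨c, hc⟩, ?_⟩
    dsimp only
    rw [if_pos ht]
  · intro hPJ
    by_contra ht
    apply hgJ
    have : P' c ∣ g' := by
      have h5 := Finset.dvd_prod_of_mem (fun c => if tb τ c = true then 1 else P' c)
        (Finset.mem_range.2 hc)
      rw [if_neg ht] at h5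
      exact h5
    obtain ⟨w, hw⟩ := this
    rw [hw]
    exact Ideal.mul_mem_right _ _ hPJ

theorem exists_cert {K : Type*} [Field K] [Algebra ℚ K] [FiniteDimensional ℚ K] (n : ℕ)
    (e : ℕ → K) : ∃ β m, ∀ c < n + 1,
      (aeval e (P c) = 0 → ∃ h, pol (atomC c) = pol (combC (gens n β m) h)) ∧
      (aeval e (P c) ≠ 0 → ∃ w h,
        pol (mulC (atomC c) w) = pol (addC oneC (combC (gens n β m) h))) := by
  classical
  let pb := Field.powerBasisOfFiniteOfSeparable ℚ K
  have hα : ∀ x : K, ∃ p : Polynomial ℚ, Polynomial.aeval pb.gen p = x := fun x => by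
    obtain ⟨f, hf⟩ := pb.exists_eq_aeval' x
    exact ⟨f, hf.symm⟩
  generalize pb.gen = α at hα
  have hint : IsIntegral ℚ α := IsIntegral.of_finite ℚ α
  choose b hb using fun i => hα (e i)
  -- codes of the polynomials b i
  have hbl : ∀ i, ∃ l : List ℕ, up l = b i := fun i => by
    obtain ⟨l, -, hl⟩ := up_surj (b i) ((b i).natDegree + 1)
      (lt_of_le_of_lt Polynomial.degree_le_natDegree (by exact_mod_cast Nat.lt_succ_self _))
    exact ⟨l, hl⟩
  choose bl hbl using hbl
  -- the minimal polynomial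
  obtain ⟨m, hm⟩ : ∃ m : ℕ × List ℕ,
      (Polynomial.X ^ (m.2.length + 1) + up (m.1 :: m.2) : Polynomial ℚ) = minpoly ℚ α := by
    have hmon := minpoly.monic hint
    have hpos := minpoly.natDegree_pos hint
    have hdeg : (minpoly ℚ α).degree = (minpoly ℚ α).natDegree :=
      Polynomial.degree_eq_natDegree hmon.ne_zero
    have hlt : (minpoly ℚ α - Polynomial.X ^ (minpoly ℚ α).natDegree).degree <
        ((minpoly ℚ α).natDegree : WithBot ℕ) := by
      rw [← hdeg]
      apply Polynomial.degree_sub_lt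
      · rw [Polynomial.degree_X_pow, hdeg]
      · exact hmon.ne_zero
      · rw [hmon.leadingCoeff, Polynomial.leadingCoeff_X_pow]
    obtain ⟨l, hl, hu⟩ := up_surj _ _ hlt
    rcases l with _ | ⟨a, l⟩
    · simp only [List.length_nil] at hl; omega
    · refine ⟨(a, l), ?_⟩
      dsimp only
      rw [hu]
      rw [List.length_cons] at hl
      rw [hl]
      ring
  let β : List (List ℕ) := (List.range (n + 1)).map bl
  have hβ : ∀ j < n + 1, up (β.getD j []) = b j := by
    intro j hj
    simp only [β]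
    rw [List.getD_eq_getElem _ _ (by simpa using hj)]
    simp only [List.getElem_map, List.getElem_range]
    exact hbl j
  refine ⟨β, m, ?_⟩
  let I : Ideal (MvPolynomial ℕ ℚ) :=
    Ideal.span (Set.range fun j : Fin (gens n β m).length => pol ((gens n β m).getD j 0))
  let Q := MvPolynomial ℕ ℚ ⧸ I
  let mk : MvPolynomial ℕ ℚ →ₐ[ℚ] Q := Ideal.Quotient.mkₐ ℚ I
  let t : Q := mk (X (n + 1))
  have hmk0 : ∀ j < n + 2, mk (pol ((gens n β m).getD j 0)) = 0 := by
    intro j hj
    show Ideal.Quotient.mk I _ = 0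
    rw [Ideal.Quotient.eq_zero_iff_mem]
    apply Ideal.subset_span
    exact ⟨⟨j, by rw [gens_length]; exact hj⟩, rfl⟩
  have hmkt : ∀ p : Polynomial ℚ, mk (Polynomial.aeval (X (n + 1) : MvPolynomial ℕ ℚ) p) =
      Polynomial.aeval t p := fun p =>
    (Polynomial.aeval_algHom_apply mk (X (n + 1) : MvPolynomial ℕ ℚ) p).symm
  have hX : ∀ j < n + 1, mk (X j) = Polynomial.aeval t (b j) := by
    intro j hj
    have h1 := hmk0 j (by omega)
    rw [gens_getD_lt _ _ _ _ hj, map_sub, hmkt, hβ j hj, sub_eq_zero] at h1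
    exact h1
  have hmin : Polynomial.aeval t (minpoly ℚ α) = 0 := by
    have h1 := hmk0 (n + 1) (by omega)
    rw [gens_getD_last, hmkt, hm] at h1
    exact h1
  intro c hc
  -- the polynomial in one variable
  let p : Polynomial ℚ := aeval b (P c)
  have hmkP : mk (P c) = Polynomial.aeval t p := by
    have h1 : mk (P c) = aeval (fun i => mk (X i)) (P c) := by
      conv_lhs => rw [aeval_unique mk]
      rfl
    have h2 : aeval (fun i => mk (X i)) (P c) =
        aeval (fun i => Polynomial.aeval t (b i)) (P c) := by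
      apply eval₂Hom_congr' rfl _ rfl
      intro i hi _
      exact hX i (lt_of_le_of_lt (P_vars c i hi) hc)
    rw [h1, h2]
    exact comp_aeval_apply b (Polynomial.aeval t) (P c) |>.symm
  have hαP : Polynomial.aeval α p = aeval e (P c) := by
    have h2 : aeval e (P c) = aeval (fun i => Polynomial.aeval α (b i)) (P c) := by
      congr 2
      funext i
      rw [hb]
    rw [h2]
    exact comp_aeval_apply b (Polynomial.aeval α) (P c)
  constructor
  · intro h0
    have hdvd : minpoly ℚ α ∣ p := minpoly.dvd ℚ α (by rw [hαP, h0])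
    obtain ⟨q, hq⟩ := hdvd
    have h1 : mk (P c) = 0 := by rw [hmkP, hq, map_mul, hmin, zero_mul]
    have h2 : P c ∈ I := Ideal.Quotient.eq_zero_iff_mem.1 h1
    obtain ⟨h, hh⟩ := comb_of_mem _ _ h2
    exact ⟨h, by rw [pol_atomC, hh]⟩
  · intro h0
    have hnd : ¬ minpoly ℚ α ∣ p := by
      rintro ⟨q, hq⟩
      apply h0
      rw [← hαP, hq, map_mul, minpoly.aeval, zero_mul]
    have hcop : IsCoprime (minpoly ℚ α) p :=
      (minpoly.irreducible hint).coprime_iff_not_dvd.2 hnd
    obtain ⟨u, v, huv⟩ := hcop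
    have h1 : Polynomial.aeval t v * Polynomial.aeval t p = 1 := by
      have := congrArg (Polynomial.aeval t) huv
      rw [map_add, map_mul, map_mul, hmin, mul_zero, zero_add, map_one] at this
      exact this
    obtain ⟨w, hw⟩ := pol_surj (Polynomial.aeval (X (n + 1) : MvPolynomial ℕ ℚ) v)
    have h2 : P c * pol w - 1 ∈ I := by
      rw [← Ideal.Quotient.eq_zero_iff_mem]
      show mk (P c * pol w - 1) = 0
      rw [map_sub, map_mul, map_one, hmkP, hw, hmkt, mul_comm, h1, sub_self]
    obtain ⟨h, hh⟩ := comb_of_mem _ _ h2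
    refine ⟨w, h, ?_⟩
    rw [pol_mulC, pol_addC, pol_oneC, pol_atomC, hh]
    ring

/-- one of the two certificates exists -/
theorem complete (n : ℕ) : (∃ K, chkT n K) ∨ ∃ K, chkF n K := by
  classical
  by_cases h : ∀ τ < 2 ^ (n + 1), bev τ n = true ∨ ∃ (M : ℕ) (h : List ℕ),
      polEq (powC (prodC n τ) M) (combC (zeroL n τ) h)
  · left
    have h' : ∀ τ, ∃ w : ℕ × List ℕ, τ < 2 ^ (n + 1) → (bev τ n = true ∨
        polEq (powC (prodC n τ) w.1) (combC (zeroL n τ) w.2)) := by
      intro τ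
      by_cases hτ : τ < 2 ^ (n + 1)
      · rcases h τ hτ with h1 | ⟨M, h, h1⟩
        · exact ⟨(0, []), fun _ => Or.inl h1⟩
        · exact ⟨(M, h), fun _ => Or.inr h1⟩
      · exact ⟨(0, []), fun h => absurd h hτ⟩
    choose w hw using h'
    refine ⟨(List.range (2 ^ (n + 1))).map w, fun τ hτ => ?_⟩
    have hτ' := List.mem_range.1 hτ
    have : ((List.range (2 ^ (n + 1))).map w).getD τ (0, []) = w τ := by
      rw [List.getD_eq_getElem _ _ (by simpa using hτ')]
      simp
    rw [this]
    exact hw τ hτ'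
  · right
    push Not at h
    obtain ⟨τ, -, hb, h⟩ := h
    have hb' : bev τ n = false := by simpa using hb
    obtain ⟨K, _, _, _, e, he⟩ := exists_point n τ (by
      intro M hM
      obtain ⟨h', hh'⟩ := comb_of_mem _ _ hM
      apply h M h'
      rw [polEq_iff, pol_powC, pol_prodC, hh'])
    obtain ⟨β, m, hc⟩ := exists_cert n e
    have hc' : ∀ c, ∃ w : ℕ × List ℕ, c < n + 1 →
        (tb τ c = true ∧ polEq (atomC c) (combC (gens n β m) w.2)) ∨
        (tb τ c = false ∧ polEq (mulC (atomC c) w.1) (addC oneC (combC (gens n β m) w.2))) := by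
      intro c
      by_cases hcn : c < n + 1
      · by_cases h0 : aeval e (P c) = 0
        · obtain ⟨h, hh⟩ := (hc c hcn).1 h0
          exact ⟨(0, h), fun _ => Or.inl ⟨(he c hcn).2 h0, (polEq_iff _ _).2 hh⟩⟩
        · obtain ⟨w, h, hh⟩ := (hc c hcn).2 h0
          refine ⟨(w, h), fun _ => Or.inr ⟨?_, (polEq_iff _ _).2 hh⟩⟩
          rw [← Bool.not_eq_true, he c hcn]
          exact h0
      · exact ⟨(0, []), fun h => absurd h hcn⟩
    choose w hw using hc'
    refine ⟨(τ, (β, m), ((List.range (n + 1)).map fun c => (w c).2,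
      (List.range (n + 1)).map fun c => (w c).1)), hb', fun c hc => ?_⟩
    have hcn := List.mem_range.1 hc
    have e1 : ((List.range (n + 1)).map fun c => (w c).2).getD c [] = (w c).2 := by
      rw [List.getD_eq_getElem _ _ (by simpa using hcn)]
      simp
    have e2 : ((List.range (n + 1)).map fun c => (w c).1).getD c 0 = (w c).1 := by
      rw [List.getD_eq_getElem _ _ (by simpa using hcn)]
      simp
    dsimp only
    rw [e1, e2]
    exact hw c hcn

end Pool.Agent.Helper967.AD
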