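import Pool.Agent.Helper967.AD5

set_option autoImplicit false

/-! The universal theory of an algebraically closed field of characteristic zero is decidable. -/

namespace Pool.Agent.Helper967.AD

open Pool.Agent.Helper967.FL

/-- The universal theory of every algebraically closed field of characteristic zero is
decidable. -/
theorem field_decidable (F : Type*) [Field F] [CharZero F] [IsAlgClosed F] :
    FieldUniversalTheoryDecidable F := by
  classical
  let D : ℕ → List (ℕ × List ℕ) := fun k => (Encodable.decode k).getD []
  let z : CF := (0, ([], (0, [])), ([], []))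
  let D' : ℕ → CF := fun k => (Encodable.decode k).getD z
  have hD : Primrec D := Primrec.option_getD.comp Primrec.decode (Primrec.const _)
  have hD' : Primrec D' := Primrec.option_getD.comp Primrec.decode (Primrec.const _)
  have hex : ∀ n : ℕ, ∃ k : ℕ, chkT n (D k) ∨ chkF n (D' k) := by
    intro n
    rcases complete n with ⟨K, hK⟩ | ⟨K, hK⟩
    · refine ⟨Encodable.encode K, Or.inl ?_⟩
      simp only [D, Encodable.encodek, Option.getD_some]
      exact hK
    · refine ⟨Encodable.encode K, Or.inr ?_⟩
      simp only [D', Encodable.encodek, Option.getD_some]
      exact hK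
  have hT : PrimrecPred fun q : ℕ × ℕ => chkT q.1 (D q.2) :=
    chkT_primrec.comp Primrec.fst (hD.comp Primrec.snd)
  have hF : PrimrecPred fun q : ℕ × ℕ => chkF q.1 (D' q.2) :=
    chkF_primrec.comp Primrec.fst (hD'.comp Primrec.snd)
  have hfind : Computable fun n => Nat.find (hex n) :=
    Computable.find (P := fun n k => chkT n (D k) ∨ chkF n (D' k))
      (hT.or hF).computablePred hex
  refine ⟨fun n => decide (chkT n (D (Nat.find (hex n)))), ?_, ?_⟩
  · exact hT.computablePred.decide.comp (Computable.pair Computable.id hfind)
  · intro φ
    have hs : (∀ e : ℕ → F, φ.Holds e) ↔ ∀ e : ℕ → F, bevG TF e φ.code = true :=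
      forall_congr' fun e => (holds_iff e φ).symm
    rw [hs, decide_eq_true_iff]
    constructor
    · intro h e
      exact soundT h e
    · intro h
      rcases Nat.find_spec (hex φ.code) with h1 | h1
      · exact h1
      · exfalso
        obtain ⟨e, he⟩ := soundF (F := F) h1
        rw [h e] at he
        exact Bool.noConfusion he

end Pool.Agent.Helper967.AD
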