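import Mathlib

set_option autoImplicit false

namespace Pool.Agent.Helper967.Dio

open Dioph Function

/-- existential quantifier closure in a semantic form -/
theorem ex_dioph' {α : Type} (S : ℕ → (α → ℕ) → Prop)
    (h : Dioph {w : Option α → ℕ | S (w none) (w ∘ some)}) :
    Dioph {v : α → ℕ | ∃ x, S x v} := by
  refine Dioph.ext (Dioph.ex1_dioph h) fun v => ?_
  exact exists_congr fun x => Iff.rfl

theorem fn_lift {α : Type} {f : (α → ℕ) → ℕ} (d : DiophFn f) :
    DiophFn (fun w : Option α → ℕ => f (w ∘ some)) := reindex_diophFn some d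

theorem fn_none {α : Type} : DiophFn (fun w : Option α → ℕ => w none) := proj_dioph none

theorem and_dioph {α : Type} {P Q : (α → ℕ) → Prop} (hP : Dioph {v | P v})
    (hQ : Dioph {v | Q v}) : Dioph {v | P v ∧ Q v} := Dioph.inter hP hQ

theorem or_dioph {α : Type} {P Q : (α → ℕ) → Prop} (hP : Dioph {v | P v})
    (hQ : Dioph {v | Q v}) : Dioph {v | P v ∨ Q v} := Dioph.union hP hQ

theorem congr_fn {α : Type} {f g : (α → ℕ) → ℕ} (d : DiophFn f) (h : ∀ v, f v = g v) :
    DiophFn g := by
  have : f = g := funext h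
  rwa [← this]

theorem const' {α : Type} (n : ℕ) : DiophFn (fun _ : α → ℕ => n) := const_dioph n

theorem desc_bound (r : ℕ) : ∀ n ≤ r, r * r ^ n ≤ r * r.descFactorial n + n ^ 2 * r ^ n := by
  intro n
  induction n with
  | zero => intro _; simp
  | succ n ih =>
    intro hn
    have ih' := ih (by omega)
    have hD : r.descFactorial (n + 1) = (r - n) * r.descFactorial n := Nat.descFactorial_succ r n
    have hle : r.descFactorial n ≤ r ^ n := Nat.descFactorial_le_pow r n
    obtain ⟨m, hm⟩ : ∃ m, r = m + n := ⟨r - n, by omega⟩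
    have hrn : r - n = m := by omega
    rw [hD, hrn]
    set D := r.descFactorial n
    have e1 : r * r ^ (n + 1) = r * (r * r ^ n) := by ring
    have e2 : r * (r * r ^ n) ≤ r * (r * D + n ^ 2 * r ^ n) := Nat.mul_le_mul_left _ ih'
    have e3 : r * (r * D + n ^ 2 * r ^ n) = r * (m * D) + r * (n * D) + n ^ 2 * r ^ (n + 1) := by
      have : r * (r * D) = r * ((m + n) * D) := by rw [← hm]
      rw [mul_add, this]; ring
    have e4 : r * (n * D) ≤ n * r ^ (n + 1) := by
      calc r * (n * D) ≤ r * (n * r ^ n) := by gcongr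
        _ = n * r ^ (n + 1) := by ring
    have e5 : (n + 1) ^ 2 * r ^ (n + 1) = n ^ 2 * r ^ (n + 1) + n * r ^ (n + 1) + (n + 1) * r ^ (n + 1) := by ring
    rw [e1, e5]
    calc r * (r * r ^ n) ≤ _ := e2
      _ = _ := e3
      _ ≤ r * (m * D) + (n ^ 2 * r ^ (n + 1) + n * r ^ (n + 1) + (n + 1) * r ^ (n + 1)) := by
        have := Nat.zero_le ((n + 1) * r ^ (n + 1))
        omega

theorem factorial_formula (n : ℕ) :
    (2 * (n + 1) ^ (n + 2) + 1) ^ n / Nat.choose (2 * (n + 1) ^ (n + 2) + 1) n = Nat.factorial n := by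
  set r := 2 * (n + 1) ^ (n + 2) + 1 with hr
  have hfac : n.factorial ≤ (n + 1) ^ n := le_trans (Nat.factorial_le_pow n) (Nat.pow_le_pow_left (by omega) n)
  have h1 : 1 ≤ (n + 1) ^ n := Nat.one_le_pow _ _ (by omega)
  have hrbig : n ^ 2 * (n.factorial + 1) < r := by
    have : n ^ 2 * (n.factorial + 1) ≤ (n + 1) ^ 2 * ((n + 1) ^ n + (n + 1) ^ n) := by
      gcongr
      · omega
    have e : (n + 1) ^ 2 * ((n + 1) ^ n + (n + 1) ^ n) = 2 * (n + 1) ^ (n + 2) := by ring
    omega
  have hnr : n ≤ r := by
    have : n + 1 ≤ (n + 1) ^ (n + 2) := Nat.le_self_pow (by omega) _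
    omega
  have hb := desc_bound r n hnr
  have hD : r.descFactorial n = n.factorial * r.choose n := Nat.descFactorial_eq_factorial_mul_choose r n
  have hle : r.descFactorial n ≤ r ^ n := Nat.descFactorial_le_pow r n
  have hCpos : 0 < r.choose n := Nat.choose_pos hnr
  have hrpos : 0 < r := by omega
  have hpow : 0 < r ^ n := by positivity
  have hFpos : 0 < n.factorial := Nat.factorial_pos n
  rw [Nat.div_eq_iff hCpos]
  set D := r.descFactorial n
  set C := r.choose n
  set F := n.factorial
  constructor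
  · rw [← hD]; exact hle
  · -- r ^ n < D + C
    have key : F * (n ^ 2 * r ^ n) < r * D := by
      have h2 : r ^ n * (n ^ 2 * (F + 1)) < r ^ n * r := Nat.mul_lt_mul_of_pos_left hrbig hpow
      have h3 : r ^ n * (n ^ 2 * (F + 1)) = F * (n ^ 2 * r ^ n) + n ^ 2 * r ^ n := by ring
      have h4 : r ^ n * r = r * r ^ n := by ring
      omega
    have h5 : F * (r * r ^ n) < F * (r * D) + r * D := by
      calc F * (r * r ^ n) ≤ F * (r * D + n ^ 2 * r ^ n) := Nat.mul_le_mul_left _ hb
        _ = F * (r * D) + F * (n ^ 2 * r ^ n) := by ring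
        _ < _ := by omega
    have h6 : F * (r * D) + r * D = F * (r * (D + C)) := by
      have : r * D = F * (r * C) := by rw [hD]; ring
      rw [mul_add r D C, mul_add F, ← this]
    rw [h6] at h5
    have h7 : r * r ^ n < r * (D + C) := lt_of_mul_lt_mul_left h5 (Nat.zero_le _)
    have h8 : r ^ n < D + C := lt_of_mul_lt_mul_left h7 (Nat.zero_le _)
    rw [hD] at h8
    omega


theorem prod_formula (T Y : ℕ) (hT : 1 ≤ T) :
    (T ^ Y * (Y.factorial * ((T * (1 + T * Y) ^ Y + 1 - (1 + T * Y) ^ Y) + Y).choose Y))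
      % (T * (1 + T * Y) ^ Y + 1) = ∏ k ∈ Finset.range Y, (1 + (k + 1) * T) := by
  set P := (1 + T * Y) ^ Y with hP
  set M := T * P + 1 with hM
  set q := M - P with hq
  have hPM : P ≤ M := by nlinarith
  have hTq : T * q = (T - 1) * M + 1 := by
    obtain ⟨s, rfl⟩ : ∃ s, T = s + 1 := ⟨T - 1, by omega⟩
    have : q + P = M := by omega
    have h2 : (s + 1) * q + (s + 1) * P = (s + 1) * M := by rw [← mul_add, this]
    have h3 : (s + 1 - 1) * M = s * M := by simp
    rw [h3]
    have h4 : (s + 1) * M = s * M + M := by ring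
    omega
  have hcong : T * q ≡ 1 [MOD M] := by
    rw [hTq]
    unfold Nat.ModEq
    rw [Nat.add_comm, Nat.add_mul_mod_self_right]
  have hprod : ∏ k ∈ Finset.range Y, (1 + (k + 1) * T) ≡ T ^ Y * (q + 1).ascFactorial Y [MOD M] := by
    have : ∀ n, ∏ k ∈ Finset.range n, (1 + (k + 1) * T) ≡ T ^ n * (q + 1).ascFactorial n [MOD M] := by
      intro n
      induction n with
      | zero => simp; rfl
      | succ n ih =>
        rw [Finset.prod_range_succ, Nat.ascFactorial_succ]
        have e : T ^ (n + 1) * ((q + 1 + n) * (q + 1).ascFactorial n)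
            = (T ^ n * (q + 1).ascFactorial n) * (T * q + (n + 1) * T) := by ring
        rw [e]
        exact ih.mul (Nat.ModEq.add_right _ hcong.symm)
    exact this Y
  rw [← Nat.ascFactorial_eq_factorial_mul_choose]
  have hlt : ∏ k ∈ Finset.range Y, (1 + (k + 1) * T) < M := by
    have : ∏ k ∈ Finset.range Y, (1 + (k + 1) * T) ≤ P := by
      calc _ ≤ ∏ k ∈ Finset.range Y, (1 + T * Y) := by
            apply Finset.prod_le_prod' 
            intro k hk
            have := Finset.mem_range.1 hk
            nlinarith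
        _ = P := by simp [hP]
    nlinarith
  rw [← Nat.mod_eq_of_lt hlt]
  exact hprod.symm

section
variable {α : Type} {f g h : (α → ℕ) → ℕ}

theorem choose_formula (n k : ℕ) :
    ((2 ^ n + 1 + 1) ^ n / (2 ^ n + 1) ^ k) % (2 ^ n + 1) = Nat.choose n k := by
  set u := 2 ^ n + 1 with hu
  have hu0 : 0 < u := by positivity
  rcases lt_or_ge n k with hk | hk
  · rw [Nat.choose_eq_zero_of_lt hk]
    have : (u + 1) ^ n < u ^ k := by
      -- (u+1)^n ≤ 2^n * u^n < u^(n+1)
      have h1 : (u + 1) ^ n ≤ (2 * u) ^ n := Nat.pow_le_pow_left (by omega) n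
      have h2 : (2 * u) ^ n = 2 ^ n * u ^ n := by rw [mul_pow]
      have h3 : 2 ^ n * u ^ n < u * u ^ n := by
        apply Nat.mul_lt_mul_of_pos_right _ (by positivity)
        omega
      have h4 : u * u ^ n ≤ u ^ k := by
        rw [← pow_succ']
        exact Nat.pow_le_pow_right hu0 hk
      omega
    rw [Nat.div_eq_of_lt this]
    simp
  · -- split the binomial sum
    have hsum : (u + 1) ^ n = ∑ i ∈ Finset.range (n + 1), u ^ i * Nat.choose n i := by
      rw [add_pow]
      apply Finset.sum_congr rfl
      intro i _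
      simp
    have hsplit : (u + 1) ^ n = (∑ i ∈ Finset.range k, u ^ i * Nat.choose n i)
        + u ^ k * (Nat.choose n k + u * ∑ i ∈ Finset.range (n - k), u ^ i * Nat.choose n (k + 1 + i)) := by
      rw [hsum]
      have : n + 1 = k + (1 + (n - k)) := by omega
      rw [this, Finset.sum_range_add, Finset.sum_range_add]
      simp only [Finset.sum_range_one, add_zero]
      congr 1
      rw [mul_add, Finset.mul_sum, Finset.mul_sum]
      congr 1
      apply Finset.sum_congr rfl
      intro i _
      rw [show k + (1 + i) = k + 1 + i by ring]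
      ring
    have hlow : (∑ i ∈ Finset.range k, u ^ i * Nat.choose n i) < u ^ k := by
      have h1 : ∀ i ∈ Finset.range k, u ^ i * Nat.choose n i ≤ u ^ (k - 1) * Nat.choose n i := by
        intro i hi
        apply Nat.mul_le_mul_right
        apply Nat.pow_le_pow_right hu0
        have := Finset.mem_range.1 hi
        omega
      rcases Nat.eq_zero_or_pos k with rfl | hkpos
      · simp
      calc (∑ i ∈ Finset.range k, u ^ i * Nat.choose n i)
          ≤ ∑ i ∈ Finset.range k, u ^ (k - 1) * Nat.choose n i := Finset.sum_le_sum h1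
        _ = u ^ (k - 1) * ∑ i ∈ Finset.range k, Nat.choose n i := by rw [Finset.mul_sum]
        _ ≤ u ^ (k - 1) * 2 ^ n := by
            apply Nat.mul_le_mul_left
            rw [← Nat.sum_range_choose]
            apply Finset.sum_le_sum_of_subset
            intro i hi
            simp only [Finset.mem_range] at *
            omega
        _ < u ^ (k - 1) * u := by
            apply Nat.mul_lt_mul_of_pos_left _ (by positivity)
            omega
        _ = u ^ k := by rw [← pow_succ, Nat.sub_add_cancel hkpos]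
    rw [hsplit, Nat.add_mul_div_left _ _ (by positivity), Nat.div_eq_of_lt hlow, zero_add,
      Nat.add_mul_mod_self_left]
    apply Nat.mod_eq_of_lt
    have := Nat.choose_le_two_pow n k
    omega

theorem choose_dioph (df : DiophFn f) (dg : DiophFn g) :
    DiophFn fun v => Nat.choose (f v) (g v) := by
  have d1 : DiophFn fun v => 2 ^ (f v) + 1 := add_dioph (pow_dioph (const' 2) df) (const' 1)
  refine congr_fn (f := fun v => ((2 ^ f v + 1 + 1) ^ f v / (2 ^ f v + 1) ^ g v) % (2 ^ f v + 1)) ?_
    (fun v => choose_formula _ _)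
  exact mod_dioph (div_dioph (pow_dioph (add_dioph d1 (const' 1)) df) (pow_dioph d1 dg)) d1

theorem factorial_dioph (df : DiophFn f) : DiophFn fun v => Nat.factorial (f v) := by
  have d1 : DiophFn fun v => 2 * (f v + 1) ^ (f v + 2) + 1 :=
    add_dioph (mul_dioph (const' 2) (pow_dioph (add_dioph df (const' 1)) (add_dioph df (const' 2))))
      (const' 1)
  exact congr_fn (div_dioph (pow_dioph d1 df) (choose_dioph d1 df)) fun v => factorial_formula _

/-- the product of the moduli `1 + (k+1) T`, `k < Y` -/
def mprod (T Y : ℕ) : ℕ := ∏ k ∈ Finset.range Y, (1 + (k + 1) * T)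

/-- for positive `T` -/
theorem mprod_dioph (df : DiophFn f) (dg : DiophFn g) (hpos : ∀ v, 1 ≤ f v) :
    DiophFn fun v => mprod (f v) (g v) := by
  have dP : DiophFn fun v => (1 + f v * g v) ^ g v :=
    pow_dioph (add_dioph (const' 1) (mul_dioph df dg)) dg
  have dM : DiophFn fun v => f v * (1 + f v * g v) ^ g v + 1 :=
    add_dioph (mul_dioph df dP) (const' 1)
  have dq := sub_dioph dM dP
  exact congr_fn (mod_dioph (mul_dioph (pow_dioph df dg) (mul_dioph (factorial_dioph dg)
    (choose_dioph (add_dioph dq dg) dg))) dM) fun v => prod_formula _ _ (hpos v)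

theorem descFactorial_dioph (df : DiophFn f) (dg : DiophFn g) :
    DiophFn fun v => Nat.descFactorial (f v) (g v) :=
  congr_fn (mul_dioph (factorial_dioph dg) (choose_dioph df dg)) fun v =>
    (Nat.descFactorial_eq_factorial_mul_choose _ _).symm

end

end Pool.Agent.Helper967.Dio

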