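import Mathlib

set_option autoImplicit false

/-! Free associative algebras: words, grading, right cofactors and the weak algorithm. -/

namespace Pool.Agent.Helper967.FL

/-- the free associative algebra -/
abbrev FA (F : Type*) [Field F] (X : Type*) := MonoidAlgebra F (FreeMonoid X)

variable {F : Type*} [Field F] {X : Type*}

/-- the monomial of a word -/
noncomputable def wd (w : FreeMonoid X) : FA F X := MonoidAlgebra.single w 1

/-- a letter -/
noncomputable def lt (x : X) : FA F X := wd (FreeMonoid.of x)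

theorem wd_one : (wd 1 : FA F X) = 1 := rfl

theorem wd_mul (u v : FreeMonoid X) : (wd (u * v) : FA F X) = wd u * wd v := by
  simp [wd, MonoidAlgebra.single_mul_single]

theorem wd_of_mul (x : X) (w : FreeMonoid X) :
    (wd (FreeMonoid.of x * w) : FA F X) = lt x * wd w := wd_mul _ _

theorem wd_coeff (u v : FreeMonoid X) [Decidable (u = v)] :
    (wd u : FA F X).coeff v = if u = v then 1 else 0 := by
  rw [wd, MonoidAlgebra.coeff_single, Finsupp.single_apply]

/-- induction principle -/
theorem FA.ind {p : FA F X → Prop} (a : FA F X) (h1 : ∀ w, p (wd w)) (h2 : ∀ a b, p a → p b → p (a + b))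
    (h3 : ∀ (c : F) a, p a → p (c • a)) : p a := by
  induction a using MonoidAlgebra.induction_on with
  | of g => exact h1 g
  | add f g hf hg => exact h2 f g hf hg
  | smul r f hf => exact h3 r f hf

theorem FA.lext {M : Type*} [AddCommMonoid M] [Module F M] {f g : FA F X →ₗ[F] M}
    (h : ∀ w, f (wd w) = g (wd w)) : f = g := by
  refine LinearMap.ext fun a => ?_
  induction a using FA.ind with
  | h1 w => exact h w
  | h2 a b ha hb => rw [map_add, map_add, ha, hb]
  | h3 c a ha => rw [map_smul, map_smul, ha]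

/-- linear maps are determined by arbitrary values on words -/
noncomputable def lin {M : Type*} [AddCommMonoid M] [Module F M] (f : FreeMonoid X → M) :
    FA F X →ₗ[F] M :=
  Finsupp.linearCombination F f ∘ₗ (MonoidAlgebra.coeffLinearEquiv F).toLinearMap

@[simp]
theorem lin_wd {M : Type*} [AddCommMonoid M] [Module F M] (f : FreeMonoid X → M)
    (w : FreeMonoid X) : lin f (wd w : FA F X) = f w := by
  simp only [lin, LinearMap.comp_apply, LinearEquiv.coe_coe]
  change Finsupp.linearCombination F f (Finsupp.single w 1) = f w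
  simp

/-- the grading homomorphism -/
noncomputable def gam : FA F X →ₐ[F] Polynomial (FA F X) :=
  MonoidAlgebra.lift F _ _ (FreeMonoid.lift (fun x => Polynomial.C (lt x) * Polynomial.X))

theorem gam_wd (w : FreeMonoid X) : gam (wd w : FA F X) =
    Polynomial.C (wd w) * Polynomial.X ^ w.length := by
  induction w using FreeMonoid.inductionOn' with
  | one => simp [wd_one]
  | of_mul x w ih =>
    rw [wd_mul, map_mul, ih]
    have : gam (wd (FreeMonoid.of x) : FA F X) = Polynomial.C (lt x) * Polynomial.X := by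
      simp [gam, wd]
    rw [this, FreeMonoid.length_mul, FreeMonoid.length_of, map_mul, pow_add, pow_one]
    change _ = Polynomial.C (lt x) * Polynomial.C (wd w) * (Polynomial.X * Polynomial.X ^ w.length)
    rw [mul_assoc, ← mul_assoc Polynomial.X (Polynomial.C (wd w)), Polynomial.X_mul_C, mul_assoc,
      mul_assoc]

/-- homogeneous components -/
noncomputable def cmp (n : ℕ) : FA F X →ₗ[F] FA F X :=
  ((Polynomial.lcoeff (FA F X) n).restrictScalars F) ∘ₗ gam.toLinearMap

theorem cmp_def (n : ℕ) (a : FA F X) : cmp n a = (gam a).coeff n := rfl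

theorem cmp_wd (n : ℕ) (w : FreeMonoid X) :
    cmp n (wd w : FA F X) = if w.length = n then wd w else 0 := by
  rw [cmp_def, gam_wd, Polynomial.coeff_C_mul, Polynomial.coeff_X_pow]
  by_cases h : w.length = n
  · simp [h]
  · simp [h, Ne.symm h]

theorem cmp_coeff (n : ℕ) (a : FA F X) (w : FreeMonoid X) :
    (cmp n a).coeff w = if w.length = n then a.coeff w else 0 := by
  classical
  induction a using FA.ind with
  | h1 u =>
    rw [cmp_wd]
    by_cases h : u = w
    · subst h; split_ifs <;> simp
    · split_ifs with h1 h2 <;> simp [wd_coeff, h]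
  | h2 a b ha hb =>
    rw [map_add, MonoidAlgebra.coeff_add, Finsupp.add_apply, ha, hb, MonoidAlgebra.coeff_add,
      Finsupp.add_apply]
    split_ifs <;> simp
  | h3 c a ha =>
    rw [map_smul, MonoidAlgebra.coeff_smul, Finsupp.smul_apply, ha, MonoidAlgebra.coeff_smul,
      Finsupp.smul_apply]
    split_ifs <;> simp

theorem FA.ext' {a b : FA F X} (h : ∀ w, a.coeff w = b.coeff w) : a = b :=
  MonoidAlgebra.ext (Finsupp.ext h)

theorem cmp_cmp (n m : ℕ) (a : FA F X) : cmp n (cmp m a) = if n = m then cmp m a else 0 := by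
  refine FA.ext' fun w => ?_
  rw [cmp_coeff, cmp_coeff]
  by_cases h : n = m
  · subst h; rw [if_pos rfl, cmp_coeff]; split_ifs <;> rfl
  · rw [if_neg h]
    by_cases h1 : w.length = n
    · by_cases h2 : w.length = m
      · exact absurd (h1.symm.trans h2) h
      · rw [if_neg h2]; split_ifs <;> rfl
    · rw [if_neg h1]; rfl

theorem cmp_mul (n : ℕ) (a b : FA F X) :
    cmp n (a * b) = ∑ p ∈ Finset.HasAntidiagonal.antidiagonal n, cmp p.1 a * cmp p.2 b := by
  rw [cmp_def, map_mul, Polynomial.coeff_mul]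
  rfl

/-- homogeneous elements -/
def Hm (n : ℕ) (a : FA F X) : Prop := cmp n a = a

theorem hm_cmp (n : ℕ) (a : FA F X) : Hm n (cmp n a) := by
  unfold Hm; rw [cmp_cmp, if_pos rfl]

theorem Hm.cmp_ne {n m : ℕ} {a : FA F X} (h : Hm n a) (hne : m ≠ n) : cmp m a = 0 := by
  rw [← h, cmp_cmp, if_neg hne]

theorem hm_iff {n : ℕ} {a : FA F X} : Hm n a ↔ ∀ w, a.coeff w ≠ 0 → w.length = n := by
  constructor
  · intro h w hw
    by_contra hne
    rw [← h, cmp_coeff, if_neg hne] at hw
    exact hw rfl
  · intro h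
    refine FA.ext' fun w => ?_
    rw [cmp_coeff]
    split_ifs with h1
    · rfl
    · by_contra h2
      exact h1 (h w (Ne.symm h2))

theorem hm_zero (n : ℕ) : Hm n (0 : FA F X) := by simp [Hm]

theorem Hm.add {n : ℕ} {a b : FA F X} (ha : Hm n a) (hb : Hm n b) : Hm n (a + b) := by
  unfold Hm at *; rw [map_add, ha, hb]

theorem Hm.neg {n : ℕ} {a : FA F X} (ha : Hm n a) : Hm n (-a) := by
  unfold Hm at *; rw [map_neg, ha]

theorem Hm.sub {n : ℕ} {a b : FA F X} (ha : Hm n a) (hb : Hm n b) : Hm n (a - b) := by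
  unfold Hm at *; rw [map_sub, ha, hb]

theorem Hm.smul {n : ℕ} {a : FA F X} (c : F) (ha : Hm n a) : Hm n (c • a) := by
  unfold Hm at *; rw [map_smul, ha]

theorem Hm.cmp_mul_left {d n : ℕ} {a : FA F X} (ha : Hm d a) (b : FA F X) :
    cmp (d + n) (a * b) = a * cmp n b := by
  rw [cmp_mul, Finset.sum_eq_single (d, n)]
  · rw [ha]
  · rintro ⟨i, j⟩ hp hne
    rw [Finset.HasAntidiagonal.mem_antidiagonal] at hp
    have : i ≠ d := by
      rintro rfl
      apply hne
      simp only at hp
      rw [Prod.mk.injEq]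
      exact ⟨rfl, by omega⟩
    simp only
    rw [ha.cmp_ne this, zero_mul]
  · intro h
    exact absurd (by rw [Finset.HasAntidiagonal.mem_antidiagonal]) h

theorem Hm.cmp_mul_left_lt {d n : ℕ} {a : FA F X} (ha : Hm d a) (b : FA F X) (h : n < d) :
    cmp n (a * b) = 0 := by
  rw [cmp_mul]
  refine Finset.sum_eq_zero ?_
  rintro ⟨i, j⟩ hp
  rw [Finset.HasAntidiagonal.mem_antidiagonal] at hp
  simp only at hp ⊢
  rw [ha.cmp_ne (by omega), zero_mul]

theorem Hm.cmp_mul_right {d n : ℕ} {b : FA F X} (hb : Hm d b) (a : FA F X) :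
    cmp (n + d) (a * b) = cmp n a * b := by
  rw [cmp_mul, Finset.sum_eq_single (n, d)]
  · rw [hb]
  · rintro ⟨i, j⟩ hp hne
    rw [Finset.HasAntidiagonal.mem_antidiagonal] at hp
    have : j ≠ d := by
      rintro rfl
      apply hne
      simp only at hp
      rw [Prod.mk.injEq]
      exact ⟨by omega, rfl⟩
    simp only
    rw [hb.cmp_ne this, mul_zero]
  · intro h
    exact absurd (by rw [Finset.HasAntidiagonal.mem_antidiagonal]) h

theorem Hm.cmp_mul_right_lt {d n : ℕ} {b : FA F X} (hb : Hm d b) (a : FA F X) (h : n < d) :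
    cmp n (a * b) = 0 := by
  rw [cmp_mul]
  refine Finset.sum_eq_zero ?_
  rintro ⟨i, j⟩ hp
  rw [Finset.HasAntidiagonal.mem_antidiagonal] at hp
  simp only at hp ⊢
  rw [hb.cmp_ne (by omega), mul_zero]

theorem Hm.mul {d n : ℕ} {a b : FA F X} (ha : Hm d a) (hb : Hm n b) : Hm (d + n) (a * b) := by
  unfold Hm
  rw [ha.cmp_mul_left, hb]

theorem hm_wd (w : FreeMonoid X) : Hm w.length (wd w : FA F X) := by
  unfold Hm; rw [cmp_wd, if_pos rfl]

theorem hm_lt (x : X) : Hm 1 (lt x : FA F X) := hm_wd _

theorem hm_one : Hm 0 (1 : FA F X) := hm_wd 1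

theorem Hm.eq_zero_of {n m : ℕ} {a : FA F X} (h : Hm n a) (h' : Hm m a) (hne : n ≠ m) : a = 0 := by
  rw [← h, h'.cmp_ne hne]

/-- an element all of whose components vanish is zero -/
theorem eq_zero_of_cmp {a : FA F X} (h : ∀ n, cmp n a = 0) : a = 0 := by
  refine FA.ext' fun w => ?_
  have := congrArg (fun b => b.coeff w) (h w.length)
  simp only [cmp_coeff, if_pos] at this
  exact this

theorem exists_cmp_ne {a : FA F X} (h : a ≠ 0) : ∃ n, cmp n a ≠ 0 := by
  by_contra hc
  push Not at hc
  exact h (eq_zero_of_cmp hc)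

/-- augmentation -/
noncomputable def aug : FA F X →ₐ[F] F := MonoidAlgebra.lift F _ _ (FreeMonoid.lift (fun _ => 0))

theorem aug_lt (x : X) : aug (lt x : FA F X) = 0 := by simp [aug, lt, wd]

theorem aug_wd (w : FreeMonoid X) :
    aug (wd w : FA F X) = if w.length = 0 then 1 else 0 := by
  induction w using FreeMonoid.inductionOn' with
  | one => simp [wd_one]
  | of_mul x w ih =>
    rw [wd_of_mul, map_mul, aug_lt, zero_mul, FreeMonoid.length_mul, FreeMonoid.length_of,
      if_neg (by omega)]

theorem aug_eq (a : FA F X) : aug a = a.coeff 1 := by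
  classical
  induction a using FA.ind with
  | h1 u =>
    rw [aug_wd, wd_coeff]
    by_cases h : u = 1
    · subst h; simp
    · rw [if_neg h, if_neg (fun h' => h (FreeMonoid.length_eq_zero.1 h'))]
  | h2 a b ha hb => rw [map_add, MonoidAlgebra.coeff_add, Finsupp.add_apply, ha, hb]
  | h3 c a ha => rw [map_smul, MonoidAlgebra.coeff_smul, Finsupp.smul_apply, ha]

theorem Hm.aug_eq_zero {n : ℕ} {a : FA F X} (h : Hm n a) (hn : n ≠ 0) : aug a = 0 := by
  rw [aug_eq]
  by_contra hc
  exact hn ((hm_iff.1 h) _ hc).symm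

theorem Hm.scalar {a : FA F X} (h : Hm 0 a) : a = algebraMap F _ (aug a) := by
  classical
  refine FA.ext' fun w => ?_
  rw [aug_eq, Algebra.algebraMap_eq_smul_one, MonoidAlgebra.coeff_smul, Finsupp.smul_apply,
    ← wd_one, wd_coeff]
  by_cases hw : 1 = w
  · subst hw; simp
  · rw [if_neg hw, smul_zero]
    by_contra hc
    exact hw (FreeMonoid.length_eq_zero.1 ((hm_iff.1 h) _ hc)).symm

/-- right cofactors -/
noncomputable def rho (x : X) : FA F X →ₗ[F] FA F X :=
  lin (fun w => by
    classical
    exact if h : ∃ v, w = v * FreeMonoid.of x then wd h.choose else 0)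

theorem rho_wd_mul (x : X) (v : FreeMonoid X) :
    rho x (wd (v * FreeMonoid.of x) : FA F X) = wd v := by
  rw [rho, lin_wd]
  have h : ∃ v', v * FreeMonoid.of x = v' * FreeMonoid.of x := ⟨v, rfl⟩
  rw [dif_pos h]
  have := h.choose_spec
  rw [← mul_right_cancel this]

theorem rho_wd_ne {x : X} {w : FreeMonoid X} (h : ¬ ∃ v, w = v * FreeMonoid.of x) :
    rho x (wd w : FA F X) = 0 := by
  rw [rho, lin_wd, dif_neg h]

theorem rho_coeff (x : X) (a : FA F X) (v : FreeMonoid X) :
    (rho x a).coeff v = a.coeff (v * FreeMonoid.of x) := by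
  classical
  induction a using FA.ind with
  | h1 w =>
    by_cases h : ∃ v', w = v' * FreeMonoid.of x
    · obtain ⟨v', rfl⟩ := h
      rw [rho_wd_mul, wd_coeff, wd_coeff]
      by_cases hv : v' = v
      · simp [hv]
      · rw [if_neg hv, if_neg (fun h => hv (mul_right_cancel h))]
    · rw [rho_wd_ne h, wd_coeff, if_neg (fun h' => h ⟨v, h'⟩)]
      rfl
  | h2 a b ha hb =>
    rw [map_add, MonoidAlgebra.coeff_add, Finsupp.add_apply, ha, hb, MonoidAlgebra.coeff_add,
      Finsupp.add_apply]
  | h3 c a ha =>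
    rw [map_smul, MonoidAlgebra.coeff_smul, Finsupp.smul_apply, ha, MonoidAlgebra.coeff_smul,
      Finsupp.smul_apply]

theorem rho_mul_aux (x : X) (a b : FA F X) :
    rho x (a * b) = a * rho x b + aug b • rho x a := by
  classical
  induction b using FA.ind with
  | h1 w =>
    induction a using FA.ind with
    | h1 u =>
      rw [← wd_mul]
      by_cases h : ∃ v, w = v * FreeMonoid.of x
      · obtain ⟨v, rfl⟩ := h
        have : aug (wd (v * FreeMonoid.of x) : FA F X) = 0 := by
          rw [aug_wd, if_neg]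
          rw [FreeMonoid.length_mul, FreeMonoid.length_of]; omega
        rw [← mul_assoc, rho_wd_mul, rho_wd_mul, this, zero_smul, add_zero, wd_mul]
      · rw [rho_wd_ne h, mul_zero, zero_add]
        by_cases hw : w = 1
        · subst hw; simp [wd_one]
        · rw [aug_wd, if_neg (fun h' => hw (FreeMonoid.length_eq_zero.1 h')), zero_smul]
          apply rho_wd_ne
          rintro ⟨v', hv'⟩
          rcases List.eq_nil_or_concat w.toList with h1 | ⟨l, y, hl⟩
          · exact hw h1
          · apply h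
            have h2 : w.toList = l ++ [y] := by simpa using hl
            have h3 : u.toList ++ w.toList = v'.toList ++ [x] := hv'
            rw [h2, ← List.append_assoc] at h3
            have h4 := List.append_inj_right' h3 rfl
            simp only [List.cons.injEq, and_true] at h4
            refine ⟨FreeMonoid.ofList l, ?_⟩
            change w.toList = l ++ [x]
            rw [h2, h4]
    | h2 a b ha hb => rw [add_mul, map_add, ha, hb, map_add, add_mul, smul_add]; abel
    | h3 c a ha => rw [smul_mul_assoc, map_smul, ha, map_smul, smul_mul_assoc, smul_add, smul_comm c]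
  | h2 b c hb hc => rw [mul_add, map_add, hb, hc, map_add, mul_add, map_add, add_smul]; abel
  | h3 c b hb =>
    rw [mul_smul_comm, map_smul, hb, map_smul, mul_smul_comm, map_smul, smul_add, smul_smul]
    simp

theorem rho_mul (x : X) (a b : FA F X) (hb : aug b = 0) : rho x (a * b) = a * rho x b := by
  rw [rho_mul_aux, hb, zero_smul, add_zero]

theorem Hm.rho {n : ℕ} {a : FA F X} (h : Hm (n + 1) a) (x : X) : Hm n (rho x a) := by
  rw [hm_iff] at *
  intro w hw
  rw [rho_coeff] at hw
  have := h _ hw
  rw [FreeMonoid.length_mul, FreeMonoid.length_of] at this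
  omega

theorem exists_rho_ne {n : ℕ} {a : FA F X} (h : Hm (n + 1) a) (h0 : a ≠ 0) :
    ∃ x, rho x a ≠ 0 := by
  have : ∃ w, a.coeff w ≠ 0 := by
    by_contra hc
    push Not at hc
    exact h0 (FA.ext' (by simpa using hc))
  obtain ⟨w, hw⟩ := this
  have hl := (hm_iff.1 h) w hw
  rcases List.eq_nil_or_concat w.toList with h1 | ⟨l, y, hl'⟩
  · exfalso
    have : w.length = 0 := by
      change w.toList.length = 0
      rw [h1]; rfl
    omega
  · refine ⟨y, fun hc => hw ?_⟩
    have h3 : w = FreeMonoid.ofList l * FreeMonoid.of y := by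
      change w.toList = l ++ [y]
      simpa using hl'
    have := rho_coeff y a (FreeMonoid.ofList l)
    rw [hc] at this
    rw [h3, ← this]
    rfl

/-- the weak algorithm for homogeneous cofactors -/
theorem weak_alg {ι : Type*} [Fintype ι] (q : ℕ) :
    ∀ (a0 b0 : FA F X) (a b : ι → FA F X) (r : ι → ℕ), Hm q b0 → b0 ≠ 0 →
      (∀ j, Hm (r j + q) (b j)) → a0 * b0 + ∑ j, a j * b j = 0 →
      ∃ c : ι → FA F X, (∀ j, Hm (r j) (c j)) ∧ a0 = ∑ j, a j * c j := by
  induction q with
  | zero =>
    intro a0 b0 a b r hb0 hne hb h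
    have hs := hb0.scalar
    have hs0 : aug b0 ≠ 0 := by
      intro h0
      rw [h0, map_zero] at hs
      exact hne hs
    refine ⟨fun j => (-(aug b0)⁻¹) • b j, fun j => (hb j).smul _, ?_⟩
    rw [hs, Algebra.algebraMap_eq_smul_one, mul_smul_comm, mul_one] at h
    have h1 : aug b0 • a0 = -∑ j, a j * b j := eq_neg_of_add_eq_zero_left h
    have h2 : a0 = (aug b0)⁻¹ • (aug b0 • a0) := by
      rw [smul_smul, inv_mul_cancel₀ hs0, one_smul]
    rw [h2, h1, smul_neg, Finset.smul_sum, ← Finset.sum_neg_distrib]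
    refine Finset.sum_congr rfl fun j _ => ?_
    rw [mul_smul_comm, neg_smul]
  | succ q ih =>
    intro a0 b0 a b r hb0 hne hb h
    obtain ⟨x, hx⟩ := exists_rho_ne hb0 hne
    refine ih a0 (rho x b0) a (fun j => rho x (b j)) r (hb0.rho x) hx (fun j => ?_) ?_
    · exact Hm.rho (hb j) x
    · have := congrArg (rho x) h
      rw [map_add, map_sum, map_zero, rho_mul x a0 b0 (hb0.aug_eq_zero (by omega))] at this
      rw [← this]
      congr 1
      refine Finset.sum_congr rfl fun j _ => ?_
      rw [rho_mul x _ _ ((hb j).aug_eq_zero (by omega))]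

end Pool.Agent.Helper967.FL
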