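import Mathlib
import Pool.Agent.Helper967.FL1

set_option autoImplicit false

/-! Coproduct, primitive elements and the subalgebra generated by independent primitive
elements. -/

namespace Pool.Agent.Helper967.FL

open TensorProduct

variable {F : Type*} [Field F] {X : Type*}

variable (F X) in
/-- the coproduct -/
noncomputable def cop : FA F X →ₐ[F] (FA F X ⊗[F] FA F X) :=
  MonoidAlgebra.lift F _ _ (FreeMonoid.lift (fun x => lt x ⊗ₜ 1 + 1 ⊗ₜ lt x))

theorem cop_lt (x : X) : cop F X (lt x) = lt x ⊗ₜ 1 + 1 ⊗ₜ lt x := by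
  simp [cop, lt, wd]

/-- primitive elements -/
def Prim (z : FA F X) : Prop := cop F X z = z ⊗ₜ[F] 1 + 1 ⊗ₜ[F] z

theorem prim_lt (x : X) : Prim (lt x : FA F X) := cop_lt x

theorem Prim.add {a b : FA F X} (ha : Prim a) (hb : Prim b) : Prim (a + b) := by
  unfold Prim at *
  rw [map_add, ha, hb, add_tmul, tmul_add]; abel

theorem Prim.smul {a : FA F X} (c : F) (ha : Prim a) : Prim (c • a) := by
  unfold Prim at *
  rw [map_smul, ha, smul_add, smul_tmul', tmul_smul]

theorem Prim.comm {a b : FA F X} (ha : Prim a) (hb : Prim b) : Prim (a * b - b * a) := by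
  unfold Prim at *
  rw [map_sub, map_mul, map_mul, ha, hb]
  simp only [add_mul, mul_add, Algebra.TensorProduct.tmul_mul_tmul, one_mul, mul_one, sub_tmul,
    tmul_sub]
  abel

/-- slice by a functional in the second factor -/
noncomputable def slice (φ : FA F X →ₗ[F] F) : (FA F X ⊗[F] FA F X) →ₗ[F] FA F X :=
  (TensorProduct.rid F (FA F X)).toLinearMap ∘ₗ LinearMap.lTensor (FA F X) φ

theorem slice_tmul (φ : FA F X →ₗ[F] F) (a b : FA F X) : slice φ (a ⊗ₜ b) = φ b • a := by
  simp [slice]

theorem slice_left (φ : FA F X →ₗ[F] F) (x : FA F X) (t : FA F X ⊗[F] FA F X) :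
    slice φ ((x ⊗ₜ 1) * t) = x * slice φ t := by
  induction t using TensorProduct.induction_on with
  | zero => simp
  | tmul a b => rw [Algebra.TensorProduct.tmul_mul_tmul, slice_tmul, slice_tmul, one_mul,
      mul_smul_comm]
  | add s t hs ht => rw [mul_add, map_add, hs, ht, map_add, mul_add]

theorem slice_right (φ : FA F X →ₗ[F] F) (x : FA F X) (t : FA F X ⊗[F] FA F X) :
    slice φ ((1 ⊗ₜ x) * t) = slice (φ ∘ₗ LinearMap.mulLeft F x) t := by
  induction t using TensorProduct.induction_on with
  | zero => simp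
  | tmul a b => rw [Algebra.TensorProduct.tmul_mul_tmul, slice_tmul, slice_tmul, one_mul]; rfl
  | add s t hs ht => rw [mul_add, map_add, hs, ht, map_add]

/-- the translation operators -/
noncomputable def tr (φ : FA F X →ₗ[F] F) : FA F X →ₗ[F] FA F X := slice φ ∘ₗ (cop F X).toLinearMap

theorem tr_mul (φ : FA F X →ₗ[F] F) {x : FA F X} (hx : Prim x) (p : FA F X) :
    tr φ (x * p) = x * tr φ p + tr (φ ∘ₗ LinearMap.mulLeft F x) p := by
  simp only [tr, LinearMap.comp_apply, AlgHom.toLinearMap_apply]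
  rw [map_mul, hx, add_mul, map_add, slice_left, slice_right]

theorem tr_prim (φ : FA F X →ₗ[F] F) {u : FA F X} (hu : Prim u) :
    tr φ u = φ 1 • u + φ u • 1 := by
  simp only [tr, LinearMap.comp_apply, AlgHom.toLinearMap_apply]
  rw [hu, map_add, slice_tmul, slice_tmul]

theorem tr_zero (p : FA F X) : tr (0 : FA F X →ₗ[F] F) p = 0 := by
  simp only [tr, LinearMap.comp_apply, AlgHom.toLinearMap_apply]
  generalize cop F X p = t
  induction t using TensorProduct.induction_on with
  | zero => simp
  | tmul a b => rw [slice_tmul]; simp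
  | add s t hs ht => rw [map_add, hs, ht, add_zero]

theorem tr_one (φ : FA F X →ₗ[F] F) : tr φ (1 : FA F X) = φ 1 • 1 := by
  simp only [tr, LinearMap.comp_apply, AlgHom.toLinearMap_apply]
  rw [map_one, Algebra.TensorProduct.one_def, slice_tmul]

theorem tr_aug (p : FA F X) : tr (aug.toLinearMap : FA F X →ₗ[F] F) p = p := by
  have : (tr (aug.toLinearMap : FA F X →ₗ[F] F)) = LinearMap.id := by
    refine FA.lext fun w => ?_
    induction w using FreeMonoid.inductionOn' with
    | one => rw [wd_one, tr_one]; simp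
    | of_mul x w ih =>
      rw [wd_of_mul, tr_mul _ (prim_lt x), ih]
      have : (aug.toLinearMap : FA F X →ₗ[F] F) ∘ₗ LinearMap.mulLeft F (lt x) = 0 := by
        refine LinearMap.ext fun a => ?_
        simp [aug_lt]
      rw [this, tr_zero]
      simp
  rw [this]; rfl

theorem exists_bound (a : FA F X) : ∃ n, ∀ m, n < m → cmp m a = 0 :=
  ⟨(gam a).natDegree, fun m hm => Polynomial.coeff_eq_zero_of_natDegree_lt hm⟩

/-- substitution homomorphism -/
noncomputable def sub {κ : Type*} (x : κ → FA F X) : FA F κ →ₐ[F] FA F X :=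
  MonoidAlgebra.lift F _ _ (FreeMonoid.lift x)

theorem sub_lt {κ : Type*} (x : κ → FA F X) (i : κ) : sub x (lt i) = x i := by
  simp [sub, lt, wd]

theorem sub_one {κ : Type*} (x : κ → FA F X) : sub x (wd 1) = 1 := by
  rw [wd_one, map_one]

theorem sub_of_mul {κ : Type*} (x : κ → FA F X) (i : κ) (w : FreeMonoid κ) :
    sub x (wd (FreeMonoid.of i * w)) = x i * sub x (wd w) := by
  rw [wd_of_mul, map_mul, sub_lt]

/-- data witnessing right independence of homogeneous elements of positive degree -/
structure Indep {κ : Type*} [DecidableEq κ] (x : κ → FA F X) where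
  d : κ → ℕ
  E : κ → (FA F X →ₗ[F] FA F X)
  hd : ∀ i, 0 < d i
  hx : ∀ i, Hm (d i) (x i)
  hE : ∀ i j p, E j (x i * p) = if i = j then p else 0
  hE1 : ∀ j, E j 1 = 0

section
variable {κ : Type*} [Fintype κ] [DecidableEq κ] {x : κ → FA F X}

theorem Indep.deg (I : Indep x) {q : κ → FA F X} {n : ℕ}
    (h : ∀ m, n < m → cmp m (∑ i, x i * q i) = 0) (i : κ) (r : ℕ) (hr : n < r + I.d i) :
    cmp r (q i) = 0 := by
  have h1 := h _ hr
  rw [map_sum] at h1
  have h2 : ∀ j, cmp (r + I.d i) (x j * q j) =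
      x j * (if I.d j ≤ r + I.d i then cmp (r + I.d i - I.d j) (q j) else 0) := by
    intro j
    split_ifs with hj
    · rw [← (I.hx j).cmp_mul_left, Nat.add_sub_cancel' hj]
    · rw [(I.hx j).cmp_mul_left_lt _ (by omega), mul_zero]
  simp only [h2] at h1
  have h3 := congrArg (I.E i) h1
  rw [map_sum, map_zero] at h3
  simp only [I.hE] at h3
  rw [Finset.sum_ite_eq' Finset.univ i, if_pos (Finset.mem_univ _), if_pos (by omega),
    Nat.add_sub_cancel] at h3
  exact h3

theorem Indep.tr_eq (I : Indep x) (hx : ∀ i, Prim (x i)) {p : κ → FA F X}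
    (hu : Prim (∑ i, x i * p i)) (ψ : FA F X →ₗ[F] F) (j : κ) :
    tr ψ (p j) = ψ (p j) • 1 - ∑ i, x i * tr (ψ ∘ₗ I.E j) (p i) := by
  have h1 := tr_prim (ψ ∘ₗ I.E j) hu
  rw [map_sum] at h1
  simp only [fun i => tr_mul (ψ ∘ₗ I.E j) (hx i) (p i)] at h1
  rw [Finset.sum_add_distrib] at h1
  have h2 : ∀ i, tr ((ψ ∘ₗ I.E j) ∘ₗ LinearMap.mulLeft F (x i)) (p i) =
      if i = j then tr ψ (p i) else 0 := by
    intro i
    have : (ψ ∘ₗ I.E j) ∘ₗ LinearMap.mulLeft F (x i) = if i = j then ψ else 0 := by
      refine LinearMap.ext fun a => ?_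
      simp only [LinearMap.comp_apply, LinearMap.mulLeft_apply, I.hE]
      split_ifs <;> simp
    rw [this]
    split_ifs
    · rfl
    · exact tr_zero _
  simp only [h2] at h1
  rw [Finset.sum_ite_eq' Finset.univ j, if_pos (Finset.mem_univ _)] at h1
  have h3 : (ψ ∘ₗ I.E j) 1 = 0 := by simp [I.hE1]
  have h4 : (ψ ∘ₗ I.E j) (∑ i, x i * p i) = ψ (p j) := by
    rw [LinearMap.comp_apply, map_sum]
    simp only [I.hE]
    rw [Finset.sum_ite_eq' Finset.univ j, if_pos (Finset.mem_univ _)]
  rw [h3, zero_smul, zero_add, h4] at h1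
  rw [← h1]
  abel

theorem Indep.mem_range_aux (I : Indep x) (hx : ∀ i, Prim (x i)) {p : κ → FA F X}
    (hu : Prim (∑ i, x i * p i)) (n : ℕ) : ∀ (ψ : FA F X →ₗ[F] F) (j : κ),
    (∀ m, n < m → cmp m (tr ψ (p j)) = 0) → tr ψ (p j) ∈ (sub x).range := by
  induction n using Nat.strong_induction_on with
  | _ n ih =>
    intro ψ j h
    have h0 := I.tr_eq hx hu ψ j
    have h1 : ∀ m, n < m → cmp m (∑ i, x i * tr (ψ ∘ₗ I.E j) (p i)) = 0 := by
      intro m hm
      have : ∑ i, x i * tr (ψ ∘ₗ I.E j) (p i) = ψ (p j) • 1 - tr ψ (p j) := by rw [h0]; abel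
      rw [this, map_sub, h m hm, map_smul, hm_one.cmp_ne (by omega)]
      simp
    have h2 : ∀ i, tr (ψ ∘ₗ I.E j) (p i) ∈ (sub x).range := by
      intro i
      have h3 := I.deg h1 i
      by_cases hn : n < I.d i
      · have : tr (ψ ∘ₗ I.E j) (p i) = 0 := eq_zero_of_cmp fun r => h3 r (by omega)
        rw [this]; exact Subalgebra.zero_mem _
      · refine ih (n - I.d i) (by have := I.hd i; omega) _ i fun m hm => h3 m (by omega)
    rw [h0]
    refine Subalgebra.sub_mem _ (Subalgebra.smul_mem _ (Subalgebra.one_mem _) _) ?_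
    refine Subalgebra.sum_mem _ fun i _ => Subalgebra.mul_mem _ ?_ (h2 i)
    exact ⟨lt i, sub_lt x i⟩

/-- primitive elements in the right ideal generated by independent primitive elements lie in the
subalgebra generated by them -/
theorem Indep.mem_range (I : Indep x) (hx : ∀ i, Prim (x i)) {p : κ → FA F X}
    (hu : Prim (∑ i, x i * p i)) : ∑ i, x i * p i ∈ (sub x).range := by
  refine Subalgebra.sum_mem _ fun i _ => Subalgebra.mul_mem _ ⟨lt i, sub_lt x i⟩ ?_
  obtain ⟨n, hn⟩ := exists_bound (p i)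
  have := I.mem_range_aux hx hu n aug.toLinearMap i
  rw [tr_aug] at this
  exact this hn

end

/-- left cofactors -/
noncomputable def lam (x : X) : FA F X →ₗ[F] FA F X :=
  lin (fun w => by
    classical
    exact if h : ∃ v, w = FreeMonoid.of x * v then wd h.choose else 0)

theorem lam_wd_mul (x : X) (v : FreeMonoid X) :
    lam x (wd (FreeMonoid.of x * v) : FA F X) = wd v := by
  rw [lam, lin_wd]
  have h : ∃ v', FreeMonoid.of x * v = FreeMonoid.of x * v' := ⟨v, rfl⟩
  rw [dif_pos h]
  have := h.choose_spec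
  rw [← mul_left_cancel this]

theorem lam_wd_ne {x : X} {w : FreeMonoid X} (h : ¬ ∃ v, w = FreeMonoid.of x * v) :
    lam x (wd w : FA F X) = 0 := by
  rw [lam, lin_wd, dif_neg h]

theorem lam_coeff (x : X) (a : FA F X) (v : FreeMonoid X) :
    (lam x a).coeff v = a.coeff (FreeMonoid.of x * v) := by
  classical
  induction a using FA.ind with
  | h1 w =>
    by_cases h : ∃ v', w = FreeMonoid.of x * v'
    · obtain ⟨v', rfl⟩ := h
      rw [lam_wd_mul, wd_coeff, wd_coeff]
      by_cases hv : v' = v
      · simp [hv]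
      · rw [if_neg hv, if_neg (fun h => hv (mul_left_cancel h))]
    · rw [lam_wd_ne h, wd_coeff, if_neg (fun h' => h ⟨v, h'⟩)]
      rfl
  | h2 a b ha hb =>
    rw [map_add, MonoidAlgebra.coeff_add, Finsupp.add_apply, ha, hb, MonoidAlgebra.coeff_add,
      Finsupp.add_apply]
  | h3 c a ha =>
    rw [map_smul, MonoidAlgebra.coeff_smul, Finsupp.smul_apply, ha, MonoidAlgebra.coeff_smul,
      Finsupp.smul_apply]

theorem of_mul_inj {x y : X} {u v : FreeMonoid X}
    (h : FreeMonoid.of x * u = FreeMonoid.of y * v) : x = y ∧ u = v := by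
  have : x :: u.toList = y :: v.toList := h
  simp only [List.cons.injEq] at this
  exact this

section
variable {κ : Type*} [DecidableEq κ] {x : κ → FA F X}

theorem Indep.E_sub (I : Indep x) (j : κ) (P : FA F κ) : I.E j (sub x P) = sub x (lam j P) := by
  have : I.E j ∘ₗ (sub x).toLinearMap = (sub x).toLinearMap ∘ₗ lam j := by
    refine FA.lext fun w => ?_
    simp only [LinearMap.comp_apply, AlgHom.toLinearMap_apply]
    induction w using FreeMonoid.inductionOn' with
    | one =>
      rw [sub_one, I.hE1, lam_wd_ne, map_zero]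
      rintro ⟨v, hv⟩
      have := congrArg FreeMonoid.length hv
      rw [FreeMonoid.length_mul, FreeMonoid.length_of, FreeMonoid.length_one] at this
      omega
    | of_mul i w ih =>
      rw [sub_of_mul, I.hE]
      split_ifs with h
      · subst h; rw [lam_wd_mul]
      · rw [lam_wd_ne, map_zero]
        rintro ⟨v, hv⟩
        exact h (of_mul_inj hv).1
  exact LinearMap.congr_fun this P

theorem Indep.aug_sub (I : Indep x) (P : FA F κ) : aug (sub x P) = aug P := by
  have : (aug : FA F X →ₐ[F] F).toLinearMap ∘ₗ (sub x).toLinearMap = aug.toLinearMap := by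
    refine FA.lext fun w => ?_
    change aug (sub x (wd w)) = aug (wd w)
    induction w using FreeMonoid.inductionOn' with
    | one => rw [sub_one, wd_one, map_one, map_one]
    | of_mul i w ih =>
      have h1 : aug (x i) = 0 := (I.hx i).aug_eq_zero (by have := I.hd i; omega)
      rw [sub_of_mul, map_mul, wd_of_mul, map_mul, h1, aug_lt, zero_mul, zero_mul]
  exact LinearMap.congr_fun this P

theorem Indep.sub_injective (I : Indep x) : Function.Injective (sub x) := by
  rw [injective_iff_map_eq_zero]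
  intro P hP
  refine FA.ext' fun w => ?_
  have : ∀ (w : FreeMonoid κ) (P : FA F κ), sub x P = 0 → P.coeff w = 0 := by
    intro w
    induction w using FreeMonoid.inductionOn' with
    | one =>
      intro P hP
      rw [← aug_eq, ← I.aug_sub, hP, map_zero]
    | of_mul i w ih =>
      intro P hP
      rw [← lam_coeff]
      apply ih
      rw [← I.E_sub, hP, map_zero]
  exact this w P hP

end

end Pool.Agent.Helper967.FL
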