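import Mathlib
import Pool.Agent.Helper967.FL2

set_option autoImplicit false

/-! Lie elements: embedding of the free Lie algebra in the free associative algebra in
characteristic zero, via the bracketing operator. -/

namespace Pool.Agent.Helper967.FL

open TensorProduct MulOpposite

variable {F : Type*} [Field F] {X : Type*}

/-- induction principle for free Lie algebras -/
theorem fl_ind {p : FreeLieAlgebra F X → Prop} (h0 : p 0) (hof : ∀ x, p (FreeLieAlgebra.of F x))
    (hadd : ∀ a b, p a → p b → p (a + b)) (hsmul : ∀ (c : F) a, p a → p (c • a))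
    (hbr : ∀ a b, p a → p b → p ⁅a, b⁆) (u : FreeLieAlgebra F X) : p u := by
  let S : LieSubalgebra F (FreeLieAlgebra F X) :=
    { carrier := {u | p u}
      add_mem' := fun {a b} ha hb => hadd a b ha hb
      zero_mem' := h0
      smul_mem' := fun c a ha => hsmul c a ha
      lie_mem' := fun {a b} ha hb => hbr a b ha hb }
  let f : X → S := fun x => ⟨FreeLieAlgebra.of F x, hof x⟩
  have h : S.incl.comp (FreeLieAlgebra.lift F f) = LieHom.id := by
    apply FreeLieAlgebra.hom_ext
    intro x
    simp [f]
  have h2 := LieHom.congr_fun h u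
  rw [LieHom.comp_apply] at h2
  have h3 : u = (FreeLieAlgebra.lift F f u : S) := by
    exact h2.symm
  rw [h3]
  exact (FreeLieAlgebra.lift F f u : S).2

section
attribute [local instance 100] LieRing.ofAssociativeRing

/-- the canonical map to the free associative algebra, as a homomorphism of Lie algebras -/
noncomputable def iotaL : FreeLieAlgebra F X →ₗ⁅F⁆ FA F X := FreeLieAlgebra.lift F lt

/-- the canonical map to the free associative algebra -/
noncomputable def iota : FreeLieAlgebra F X →ₗ[F] FA F X := (iotaL : _ →ₗ⁅F⁆ _).toLinearMap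

theorem iota_of (x : X) : iota (FreeLieAlgebra.of F x) = (lt x : FA F X) := by
  change iotaL _ = _
  simp [iotaL]

theorem iota_lie (a b : FreeLieAlgebra F X) :
    iota ⁅a, b⁆ = (iota a * iota b - iota b * iota a : FA F X) := by
  change iotaL _ = _
  rw [LieHom.map_lie]; rfl

end

theorem prim_iota (u : FreeLieAlgebra F X) : Prim (iota u : FA F X) := by
  induction u using fl_ind with
  | h0 => unfold Prim; simp
  | hof x => rw [iota_of]; exact prim_lt x
  | hadd a b ha hb => rw [map_add]; exact ha.add hb
  | hsmul c a ha => rw [map_smul]; exact ha.smul c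
  | hbr a b ha hb => rw [iota_lie]; exact ha.comm hb

theorem aug_iota (u : FreeLieAlgebra F X) : aug (iota u : FA F X) = 0 := by
  induction u using fl_ind with
  | h0 => simp
  | hof x => rw [iota_of]; exact aug_lt x
  | hadd a b ha hb => rw [map_add, map_add, ha, hb, add_zero]
  | hsmul c a ha => rw [map_smul, map_smul, ha, smul_zero]
  | hbr a b ha hb => rw [iota_lie, map_sub, map_mul, map_mul, ha, hb]; simp

/-- signed reversal, as a homomorphism to the opposite algebra -/
noncomputable def revop : FA F X →ₐ[F] (FA F X)ᵐᵒᵖ :=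
  MonoidAlgebra.lift F _ _ (FreeMonoid.lift (fun x => op (-lt x)))

/-- signed reversal -/
noncomputable def rev (a : FA F X) : FA F X := unop (revop a)

theorem rev_mul (a b : FA F X) : rev (a * b) = rev b * rev a := by simp [rev]

theorem rev_lt (x : X) : rev (lt x : FA F X) = -lt x := by simp [rev, revop, lt, wd]

theorem rev_iota (u : FreeLieAlgebra F X) : rev (iota u : FA F X) = -iota u := by
  induction u using fl_ind with
  | h0 => simp [rev]
  | hof x => rw [iota_of]; exact rev_lt x
  | hadd a b ha hb =>
    have : ∀ a b : FA F X, rev (a + b) = rev a + rev b := fun a b => by simp [rev]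
    rw [map_add, this, ha, hb]; abel
  | hsmul c a ha =>
    have : ∀ (c : F) (a : FA F X), rev (c • a) = c • rev a := fun a b => by simp [rev]
    rw [map_smul, this, ha, smul_neg]
  | hbr a b ha hb =>
    have : ∀ a b : FA F X, rev (a - b) = rev a - rev b := fun a b => by simp [rev]
    rw [iota_lie, this, rev_mul, rev_mul, ha, hb]
    simp

section
variable {L : Type*} [LieRing L] [LieAlgebra F L]

/-- right bracketing -/
noncomputable def rb (z : L) : Module.End F L := -(LieAlgebra.ad F L z)

theorem rb_apply (z l : L) : rb (F := F) z l = ⁅l, z⁆ := by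
  simp [rb, LieAlgebra.ad_apply]

/-- the right adjoint action of the free associative algebra -/
noncomputable def adr (f : X → L) : FA F X →ₐ[F] (Module.End F L)ᵐᵒᵖ :=
  MonoidAlgebra.lift F _ _ (FreeMonoid.lift (fun x => op (rb (f x))))

theorem adr_lt (f : X → L) (x : X) : adr f (lt x : FA F X) = op (rb (f x)) := by
  simp [adr, lt, wd]

theorem adr_iota (u : FreeLieAlgebra F X) :
    adr (FreeLieAlgebra.of F) (iota u : FA F X) = op (rb u) := by
  induction u using fl_ind with
  | h0 => simp [rb]
  | hof x => rw [iota_of]; exact adr_lt _ x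
  | hadd a b ha hb => rw [map_add, map_add, ha, hb]; simp [rb]; abel
  | hsmul c a ha => rw [map_smul, map_smul, ha]; simp [rb]
  | hbr a b ha hb =>
    rw [iota_lie, map_sub, map_mul, map_mul, ha, hb, ← op_mul, ← op_mul, ← op_sub]
    congr 1
    refine LinearMap.ext fun l => ?_
    simp only [LinearMap.sub_apply, Module.End.mul_apply, rb_apply]
    rw [leibniz_lie l a b, ← lie_skew ⁅l, b⁆ a]
    abel

end

/-- the bracketing operator on words -/
noncomputable def dynw (w : FreeMonoid X) : FreeLieAlgebra F X :=
  match w.toList with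
  | [] => 0
  | x :: l => (unop (adr (FreeLieAlgebra.of F) (wd (FreeMonoid.ofList l) : FA F X)))
      (FreeLieAlgebra.of F x)

/-- the bracketing operator -/
noncomputable def dyn : FA F X →ₗ[F] FreeLieAlgebra F X := lin dynw

theorem dyn_one : dyn (1 : FA F X) = 0 := by
  rw [← wd_one, dyn, lin_wd]; rfl

theorem dyn_lt_mul (x : X) (a : FA F X) :
    dyn (lt x * a) = (unop (adr (FreeLieAlgebra.of F) a)) (FreeLieAlgebra.of F x) := by
  induction a using FA.ind with
  | h1 w => rw [← wd_of_mul, dyn, lin_wd]; rfl
  | h2 a b ha hb => rw [mul_add, map_add, ha, hb, map_add, unop_add, LinearMap.add_apply]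
  | h3 c a ha => rw [mul_smul_comm, map_smul, ha, map_smul, unop_smul, LinearMap.smul_apply]

theorem dyn_lt (x : X) : dyn (lt x : FA F X) = FreeLieAlgebra.of F x := by
  have := dyn_lt_mul (F := F) x 1
  rw [mul_one, map_one] at this
  rw [this]; rfl

theorem dyn_mul (a b : FA F X) :
    dyn (a * b) = (unop (adr (FreeLieAlgebra.of F) b)) (dyn a) + aug a • dyn b := by
  induction a using FA.ind with
  | h1 w =>
    induction w using FreeMonoid.inductionOn' with
    | one => rw [wd_one, one_mul, dyn_one, map_zero, map_one, one_smul, zero_add]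
    | of_mul x w ih =>
      rw [wd_of_mul, mul_assoc, dyn_lt_mul, dyn_lt_mul, map_mul, map_mul, unop_mul,
        Module.End.mul_apply, aug_lt, zero_mul, zero_smul, add_zero]
  | h2 a c ha hc =>
    rw [add_mul, map_add, ha, hc, map_add, map_add, map_add, add_smul]; abel
  | h3 c a ha =>
    rw [smul_mul_assoc, map_smul, ha, map_smul, map_smul, map_smul, smul_add, smul_eq_mul,
      mul_smul]

theorem dyn_mul_iota {a : FA F X} (ha : aug a = 0) (v : FreeLieAlgebra F X) :
    dyn (a * iota v) = ⁅dyn a, v⁆ := by
  rw [dyn_mul, ha, zero_smul, add_zero, adr_iota, unop_op, rb_apply]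

/-- the Euler operator -/
noncomputable def eul : FreeLieAlgebra F X →ₗ[F] FreeLieAlgebra F X :=
  dyn ∘ₗ iota

theorem eul_def (u : FreeLieAlgebra F X) : eul u = dyn (iota u : FA F X) := rfl

theorem eul_of (x : X) : eul (FreeLieAlgebra.of F x) = FreeLieAlgebra.of F x := by
  rw [eul_def, iota_of, dyn_lt]

theorem eul_lie (u v : FreeLieAlgebra F X) : eul ⁅u, v⁆ = ⁅eul u, v⁆ + ⁅u, eul v⁆ := by
  rw [eul_def, iota_lie, map_sub, dyn_mul_iota (aug_iota u), dyn_mul_iota (aug_iota v),
    ← eul_def, ← eul_def, ← lie_skew u (eul v)]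
  abel

theorem eul_eig {n m : ℕ} {u v : FreeLieAlgebra F X} (hu : eul u = (n : F) • u)
    (hv : eul v = (m : F) • v) : eul ⁅u, v⁆ = ((n + m : ℕ) : F) • ⁅u, v⁆ := by
  rw [eul_lie, hu, hv, smul_lie, lie_smul, ← add_smul]; push_cast; rfl

/-- every homogeneous component of a Lie element is a Lie element -/
theorem exists_cmp (u : FreeLieAlgebra F X) (n : ℕ) :
    ∃ v : FreeLieAlgebra F X, iota v = (cmp n (iota u) : FA F X) ∧ eul v = (n : F) • v := by
  revert n
  induction u using fl_ind with
  | h0 => intro n; exact ⟨0, by simp⟩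
  | hof x =>
    intro n
    by_cases hn : n = 1
    · subst hn
      refine ⟨FreeLieAlgebra.of F x, ?_, by rw [eul_of]; simp⟩
      rw [iota_of, (hm_lt x : Hm 1 (lt x : FA F X))]
    · refine ⟨0, ?_, by simp⟩
      rw [iota_of, (hm_lt x).cmp_ne hn, map_zero]
  | hadd a b ha hb =>
    intro n
    obtain ⟨v, hv, hv'⟩ := ha n
    obtain ⟨w, hw, hw'⟩ := hb n
    exact ⟨v + w, by rw [map_add, map_add, map_add, hv, hw], by rw [map_add, hv', hw', smul_add]⟩
  | hsmul c a ha =>
    intro n
    obtain ⟨v, hv, hv'⟩ := ha n
    exact ⟨c • v, by rw [map_smul, map_smul, map_smul, hv], by rw [map_smul, hv', smul_comm]⟩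
  | hbr a b ha hb =>
    intro n
    choose f hf hf' using ha
    choose g hg hg' using hb
    refine ⟨∑ p ∈ Finset.HasAntidiagonal.antidiagonal n, ⁅f p.1, g p.2⁆, ?_, ?_⟩
    · rw [map_sum, iota_lie, map_sub, cmp_mul, cmp_mul]
      have : ∀ p : ℕ × ℕ, (iota ⁅f p.1, g p.2⁆ : FA F X) =
          cmp p.1 (iota a) * cmp p.2 (iota b) - cmp p.2 (iota b) * cmp p.1 (iota a) := by
        intro p
        rw [iota_lie, hf, hg]
      simp only [this]
      rw [Finset.sum_sub_distrib]
      congr 1
      exact (Finset.Nat.sum_antidiagonal_swap (f := fun p : ℕ × ℕ =>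
        cmp p.1 (iota b : FA F X) * cmp p.2 (iota a)))
    · rw [map_sum, Finset.smul_sum]
      refine Finset.sum_congr rfl fun p hp => ?_
      rw [Finset.HasAntidiagonal.mem_antidiagonal] at hp
      rw [eul_eig (hf' p.1) (hg' p.2), hp]

variable [CharZero F]

theorem iota_injective : Function.Injective (iota : FreeLieAlgebra F X →ₗ[F] FA F X) := by
  rw [injective_iff_map_eq_zero]
  intro u hu
  let E : Module.End F (FreeLieAlgebra F X) := eul
  have h1 : u ∈ Module.End.eigenspace E (0 : F) := by
    rw [Module.End.mem_eigenspace_iff]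
    change eul u = _
    rw [eul_def, hu, map_zero, zero_smul]
  have h2 : u ∈ ⨆ (c : F) (_ : c ≠ 0), Module.End.eigenspace E c := by
    clear hu h1
    have key : ∀ u : FreeLieAlgebra F X, ∃ (s : Finset ℕ) (f : ℕ → FreeLieAlgebra F X),
        u = ∑ n ∈ s, f n ∧ ∀ n ∈ s, 0 < n ∧ eul (f n) = (n : F) • f n := by
      intro u
      induction u using fl_ind with
      | h0 => exact ⟨∅, fun _ => 0, by simp, by simp⟩
      | hof x => exact ⟨{1}, fun _ => FreeLieAlgebra.of F x, by simp, by simp [eul_of]⟩
      | hadd a b ha hb =>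
        obtain ⟨s, f, hf, hf'⟩ := ha
        obtain ⟨t, g, hg, hg'⟩ := hb
        classical
        refine ⟨s ∪ t, fun n => (if n ∈ s then f n else 0) + (if n ∈ t then g n else 0), ?_, ?_⟩
        · rw [Finset.sum_add_distrib, hf, hg]
          congr 1
          · rw [← Finset.sum_filter]
            congr 1
            ext n; simp
          · rw [← Finset.sum_filter]
            congr 1
            ext n; simp
        · intro n hn
          rw [Finset.mem_union] at hn
          constructor
          · rcases hn with h | h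
            · exact (hf' n h).1
            · exact (hg' n h).1
          · rw [map_add, smul_add]
            congr 1
            · split_ifs with h
              · exact (hf' n h).2
              · simp
            · split_ifs with h
              · exact (hg' n h).2
              · simp
      | hsmul c a ha =>
        obtain ⟨s, f, hf, hf'⟩ := ha
        refine ⟨s, fun n => c • f n, by rw [hf, Finset.smul_sum], fun n hn => ⟨(hf' n hn).1, ?_⟩⟩
        rw [map_smul, (hf' n hn).2, smul_comm]
      | hbr a b ha hb =>
        obtain ⟨s, f, hf, hf'⟩ := ha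
        obtain ⟨t, g, hg, hg'⟩ := hb
        classical
        refine ⟨(s ×ˢ t).image (fun p => p.1 + p.2), fun n => ∑ p ∈ (s ×ˢ t).filter
          (fun p => p.1 + p.2 = n), ⁅f p.1, g p.2⁆, ?_, ?_⟩
        · rw [Finset.sum_fiberwise_of_maps_to (g := fun p : ℕ × ℕ => p.1 + p.2)
            (fun p hp => Finset.mem_image_of_mem _ hp), hf, hg, _root_.sum_lie]
          rw [Finset.sum_product]
          refine Finset.sum_congr rfl fun n _ => ?_
          rw [_root_.lie_sum]
        · intro n hn
          rw [Finset.mem_image] at hn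
          obtain ⟨p, hp, rfl⟩ := hn
          rw [Finset.mem_product] at hp
          refine ⟨by have := (hf' _ hp.1).1; omega, ?_⟩
          rw [map_sum, Finset.smul_sum]
          refine Finset.sum_congr rfl fun q hq => ?_
          rw [Finset.mem_filter, Finset.mem_product] at hq
          rw [← hq.2, eul_eig (hf' _ hq.1.1).2 (hg' _ hq.1.2).2]
    obtain ⟨s, f, hf, hf'⟩ := key u
    rw [hf]
    refine Submodule.sum_mem _ fun n hn => ?_
    refine Submodule.mem_iSup_of_mem (n : F) (Submodule.mem_iSup_of_mem ?_ ?_)
    · have := (hf' n hn).1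
      exact_mod_cast this.ne'
    · rw [Module.End.mem_eigenspace_iff]
      exact (hf' n hn).2
  have h3 := (Module.End.eigenspaces_iSupIndep E) 0
  exact (Submodule.disjoint_def.1 h3) u h1 h2

theorem eul_hm {n : ℕ} {z : FreeLieAlgebra F X} (h : Hm n (iota z : FA F X)) :
    eul z = (n : F) • z := by
  obtain ⟨v, hv, hv'⟩ := exists_cmp z n
  rw [h] at hv
  have := iota_injective hv
  rw [← this]; exact hv'

end Pool.Agent.Helper967.FL
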