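import Mathlib
import Pool.Agent.Helper967.FL1

set_option autoImplicit false

/-! Path representations of the free algebra in two letters. -/

namespace Pool.Agent.Helper967.FL

variable {F : Type*} [Field F]

section
variable {K : Type*} [CommRing K] [Algebra F K]

/-- multiplication by a sequence -/
noncomputable def opx (μ : ℕ → K) : Module.End K (ℕ → K) where
  toFun φ := fun i => μ i * φ i
  map_add' a b := by funext i; simp [mul_add]
  map_smul' c a := by funext i; simp [mul_left_comm]

/-- the shift -/
noncomputable def opy : Module.End K (ℕ → K) where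
  toFun φ := fun i => φ (i + 1)
  map_add' a b := by funext i; simp
  map_smul' c a := by funext i; simp

/-- the path representation: `true` acts diagonally, `false` shifts -/
noncomputable def theta (μ : ℕ → K) : FA F Bool →ₐ[F] Module.End K (ℕ → K) :=
  MonoidAlgebra.lift F _ _ (FreeMonoid.lift (fun b => if b then opx μ else opy))

theorem theta_true (μ : ℕ → K) : theta μ (lt true : FA F Bool) = opx μ := by
  simp [theta, lt, wd]

theorem theta_false (μ : ℕ → K) : theta μ (lt false : FA F Bool) = opy := by
  simp [theta, lt, wd]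

theorem theta_true_mul (μ : ℕ → K) (a : FA F Bool) (φ : ℕ → K) (i : ℕ) :
    theta μ (lt true * a) φ i = μ i * theta μ a φ i := by
  rw [map_mul, theta_true, Module.End.mul_apply]; rfl

theorem theta_false_mul (μ : ℕ → K) (a : FA F Bool) (φ : ℕ → K) (i : ℕ) :
    theta μ (lt false * a) φ i = theta μ a φ (i + 1) := by
  rw [map_mul, theta_false, Module.End.mul_apply]; rfl

/-- delta functions -/
noncomputable def del (n : ℕ) : ℕ → K := Pi.single n 1

theorem opx_del (μ : ℕ → K) (n : ℕ) : opx μ (del n) = μ n • del n := by
  funext i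
  change μ i * (Pi.single n 1 : ℕ → K) i = μ n * (Pi.single n 1 : ℕ → K) i
  by_cases h : i = n
  · subst h; rfl
  · simp [h]

theorem opy_del (n : ℕ) : opy (del (n + 1) : ℕ → K) = del n := by
  funext i
  change (Pi.single (n + 1) 1 : ℕ → K) (i + 1) = (Pi.single n 1 : ℕ → K) i
  by_cases h : i = n
  · subst h; simp
  · rw [Pi.single_eq_of_ne h, Pi.single_eq_of_ne (by omega)]

theorem theta_mul_true (μ : ℕ → K) (a : FA F Bool) (n : ℕ) :
    theta μ (a * lt true) (del n) = μ n • theta μ a (del n) := by
  rw [map_mul, theta_true, Module.End.mul_apply, opx_del, map_smul]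

theorem theta_mul_false (μ : ℕ → K) (a : FA F Bool) (n : ℕ) :
    theta μ (a * lt false) (del (n + 1)) = theta μ a (del n) := by
  rw [map_mul, theta_false, Module.End.mul_apply, opy_del]

/-- iterated right brackets of `y` with `x` -/
noncomputable def brk : ℕ → FA F Bool
  | 0 => lt false
  | n + 1 => brk n * lt true - lt true * brk n

theorem theta_brk (μ : ℕ → K) (n : ℕ) (φ : ℕ → K) (i : ℕ) :
    theta μ (brk n : FA F Bool) φ i = (μ (i + 1) - μ i) ^ n * φ (i + 1) := by
  induction n generalizing φ with
  | zero => rw [brk, theta_false, pow_zero, one_mul]; rfl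
  | succ n ih =>
    rw [brk, map_sub, LinearMap.sub_apply, Pi.sub_apply, theta_true_mul, ih, map_mul,
      Module.End.mul_apply, ih, theta_true]
    change (μ (i + 1) - μ i) ^ n * (μ (i + 1) * φ (i + 1)) - _ = _
    ring

theorem theta_mul_brk (μ : ℕ → K) (a : FA F Bool) (n l : ℕ) :
    theta μ (a * brk n) (del (l + 1)) = (μ (l + 1) - μ l) ^ n • theta μ a (del l) := by
  rw [map_mul, Module.End.mul_apply]
  have : theta μ (brk n : FA F Bool) (del (l + 1)) = (μ (l + 1) - μ l) ^ n • del l := by
    funext i
    rw [theta_brk]
    change (μ (i + 1) - μ i) ^ n * (Pi.single (l + 1) 1 : ℕ → K) (i + 1) =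
      (μ (l + 1) - μ l) ^ n * (Pi.single l 1 : ℕ → K) i
    by_cases h : i = l
    · subst h; simp
    · rw [Pi.single_eq_of_ne h, Pi.single_eq_of_ne (by omega), mul_zero, mul_zero]
  rw [this, map_smul]

/-- the diagonal entry of a commutator with `x` vanishes when the end weights agree -/
theorem theta_comm_zero (μ : ℕ → K) (a : FA F Bool) (n : ℕ) (h : μ n = μ 0) :
    theta μ (a * lt true - lt true * a) (del n) 0 = 0 := by
  rw [map_sub, LinearMap.sub_apply, Pi.sub_apply, theta_mul_true, theta_true_mul, Pi.smul_apply, h,
    smul_eq_mul, sub_self]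

end

/-- number of occurrences of `false` -/
def ny (w : FreeMonoid Bool) : ℕ := w.toList.count false

theorem ny_one : ny 1 = 0 := rfl
theorem ny_true (w : FreeMonoid Bool) : ny (FreeMonoid.of true * w) = ny w := by
  change (true :: w.toList).count false = w.toList.count false
  simp
theorem ny_false (w : FreeMonoid Bool) : ny (FreeMonoid.of false * w) = ny w + 1 := by
  change (false :: w.toList).count false = w.toList.count false + 1
  simp

/-- exponent vectors -/
noncomputable def ex (w : FreeMonoid Bool) : ℕ → (ℕ →₀ ℕ) :=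
  FreeMonoid.recOn w (fun _ => 0) (fun b _ r => fun i => if b then Finsupp.single i 1 + r i else r (i + 1))

theorem ex_one (i : ℕ) : ex 1 i = 0 := rfl
theorem ex_true (w : FreeMonoid Bool) (i : ℕ) :
    ex (FreeMonoid.of true * w) i = Finsupp.single i 1 + ex w i := rfl
theorem ex_false (w : FreeMonoid Bool) (i : ℕ) :
    ex (FreeMonoid.of false * w) i = ex w (i + 1) := rfl

theorem ex_lt (w : FreeMonoid Bool) : ∀ i j, j < i → ex w i j = 0 := by
  induction w using FreeMonoid.inductionOn' with
  | one => intro i j _; rfl
  | of_mul b w ih =>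
    intro i j h
    cases b
    · rw [ex_false]; exact ih _ _ (by omega)
    · rw [ex_true, Finsupp.add_apply, ih _ _ h, Finsupp.single_eq_of_ne (by omega)]

theorem ex_injective (w : FreeMonoid Bool) : ∀ w' i, ny w = ny w' → ex w i = ex w' i → w = w' := by
  induction w using FreeMonoid.inductionOn' with
  | one =>
    intro w' i h1 h2
    induction w' using FreeMonoid.inductionOn' with
    | one => rfl
    | of_mul b w' _ =>
      cases b
      · rw [ny_false, ny_one] at h1; omega
      · rw [ex_true, ex_one] at h2
        have := DFunLike.congr_fun h2 i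
        rw [Finsupp.add_apply, Finsupp.single_eq_same, Finsupp.zero_apply] at this
        omega
  | of_mul b w ih =>
    intro w' i h1 h2
    induction w' using FreeMonoid.inductionOn' with
    | one =>
      cases b
      · rw [ny_false, ny_one] at h1; omega
      · rw [ex_true, ex_one] at h2
        have := DFunLike.congr_fun h2 i
        rw [Finsupp.add_apply, Finsupp.single_eq_same, Finsupp.zero_apply] at this
        omega
    | of_mul b' w' _ =>
      cases b <;> cases b'
      · rw [ny_false, ny_false] at h1
        rw [ex_false, ex_false] at h2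
        rw [ih w' (i + 1) (by omega) h2]
      · exfalso
        rw [ex_true, ex_false] at h2
        have := DFunLike.congr_fun h2 i
        rw [Finsupp.add_apply, Finsupp.single_eq_same, ex_lt _ _ _ (Nat.lt_succ_self i)] at this
        omega
      · exfalso
        rw [ex_true, ex_false] at h2
        have := DFunLike.congr_fun h2 i
        rw [Finsupp.add_apply, Finsupp.single_eq_same, ex_lt _ _ _ (Nat.lt_succ_self i)] at this
        omega
      · rw [ny_true, ny_true] at h1
        rw [ex_true, ex_true] at h2
        rw [ih w' i h1 (add_left_cancel h2)]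

open MvPolynomial in
theorem theta_wd {l : ℕ} {μ : ℕ → MvPolynomial ℕ F} (hμ : ∀ i ≤ l, μ i = X i) (w : FreeMonoid Bool) :
    ∀ i, i ≤ l → theta μ (wd w : FA F Bool) (del l) i =
      if ny w + i = l then monomial (ex w i) 1 else 0 := by
  induction w using FreeMonoid.inductionOn' with
  | one =>
    intro i hi
    rw [wd_one, map_one, ny_one, ex_one, zero_add]
    change (Pi.single l 1 : ℕ → MvPolynomial ℕ F) i = _
    by_cases h : i = l
    · subst h; simp
    · rw [Pi.single_eq_of_ne h, if_neg h]
  | of_mul b w ih =>
    intro i hi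
    rw [wd_of_mul]
    cases b
    · rw [theta_false_mul, ny_false, ex_false]
      by_cases h : i + 1 ≤ l
      · rw [ih _ h]
        by_cases h2 : ny w + (i + 1) = l
        · rw [if_pos h2, if_pos (by omega)]
        · rw [if_neg h2, if_neg (by omega)]
      · rw [if_neg (by omega)]
        have hil : i = l := by omega
        subst hil
        have hz : ∀ (a : FA F Bool) (j : ℕ), i < j → theta μ a (del i) j = 0 := by
          intro a
          induction a using FA.ind with
          | h1 w =>
            induction w using FreeMonoid.inductionOn' with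
            | one =>
              intro j hj
              rw [wd_one, map_one]
              exact Pi.single_eq_of_ne (by omega) _
            | of_mul b w ih =>
              intro j hj
              rw [wd_of_mul]
              cases b
              · rw [theta_false_mul]; exact ih _ (by omega)
              · rw [theta_true_mul, ih _ hj, mul_zero]
          | h2 a b ha hb =>
            intro j hj
            rw [map_add, LinearMap.add_apply, Pi.add_apply, ha j hj, hb j hj, add_zero]
          | h3 c a ha =>
            intro j hj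
            rw [map_smul, LinearMap.smul_apply, Pi.smul_apply, ha j hj, smul_zero]
        exact hz _ _ (by omega)
    · rw [theta_true_mul, ny_true, ex_true, ih _ hi, hμ i hi]
      split_ifs
      · rw [X, monomial_mul, one_mul]
      · rw [mul_zero]

open MvPolynomial in
theorem coeff_theta {l : ℕ} {μ : ℕ → MvPolynomial ℕ F} (hμ : ∀ i ≤ l, μ i = X i) (P : FA F Bool)
    (w0 : FreeMonoid Bool) (h0 : ny w0 = l) :
    coeff (ex w0 0) (theta μ P (del l) 0) = P.coeff w0 := by
  classical
  induction P using FA.ind with
  | h1 w =>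
    rw [theta_wd hμ w 0 (Nat.zero_le _), wd_coeff]
    by_cases h : ny w + 0 = l
    · rw [if_pos h, coeff_monomial]
      by_cases h2 : w = w0
      · subst h2; simp
      · rw [if_neg h2, if_neg]
        intro h3
        exact h2 (ex_injective w w0 0 (by omega) h3)
    · rw [if_neg h, if_neg, coeff_zero]
      rintro rfl
      exact h (by omega)
  | h2 a b ha hb =>
    rw [map_add, LinearMap.add_apply, Pi.add_apply, coeff_add, ha, hb, MonoidAlgebra.coeff_add,
      Finsupp.add_apply]
  | h3 c a ha =>
    rw [map_smul, LinearMap.smul_apply, Pi.smul_apply, coeff_smul, ha, MonoidAlgebra.coeff_smul,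
      Finsupp.smul_apply]

/-- weights: free up to `l`, closing up at `l + 1` -/
noncomputable def wt (F : Type*) [Field F] (l : ℕ) (i : ℕ) : MvPolynomial ℕ F :=
  if i = l + 1 then MvPolynomial.X 0 else MvPolynomial.X i

theorem wt_le {l i : ℕ} (h : i ≤ l) : wt F l i = MvPolynomial.X i := by
  rw [wt, if_neg (by omega)]

theorem wt_succ (l : ℕ) : wt F l (l + 1) = MvPolynomial.X 0 := by rw [wt, if_pos rfl]

theorem X_sub_ne {i j : ℕ} (h : i ≠ j) : (MvPolynomial.X i - MvPolynomial.X j : MvPolynomial ℕ F) ≠ 0 := by
  intro h'
  exact h (MvPolynomial.X_injective (sub_eq_zero.1 h'))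

/-- the two commutator equations force the coefficients with at least two `y`s to vanish -/
theorem coeff_eq_zero {P Q R : FA F Bool} (h1 : P * brk 0 - brk 0 * P = Q * lt true - lt true * Q)
    (h2 : P * brk 2 - brk 2 * P = R * lt true - lt true * R) (w : FreeMonoid Bool)
    (hw : 2 ≤ ny w) : P.coeff w = 0 := by
  obtain ⟨l, hl⟩ : ∃ l, ny w = l := ⟨_, rfl⟩
  set μ := wt F l with hμ
  have e0 : μ (l + 1) = μ 0 := by rw [hμ, wt_succ, wt_le (Nat.zero_le _)]
  have c1 := theta_comm_zero μ Q (l + 1) e0
  have c2 := theta_comm_zero μ R (l + 1) e0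
  rw [← h1, map_sub, LinearMap.sub_apply, Pi.sub_apply, theta_mul_brk, map_mul,
    Module.End.mul_apply, theta_brk] at c1
  rw [← h2, map_sub, LinearMap.sub_apply, Pi.sub_apply, theta_mul_brk, map_mul,
    Module.End.mul_apply, theta_brk] at c2
  set f := theta μ P (del l) 0 with hf
  set g := theta μ P (del (l + 1)) (0 + 1) with hg
  rw [Pi.smul_apply, ← hf, smul_eq_mul, pow_zero, pow_zero, one_mul, one_mul] at c1
  rw [Pi.smul_apply, ← hf, smul_eq_mul] at c2
  have hfg : f = g := sub_eq_zero.1 c1
  rw [← hfg, hμ, wt_succ, wt_le (le_refl l), wt_le (Nat.zero_le _), wt_le (by omega), zero_add] at c2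
  have c3 : (MvPolynomial.X 1 - MvPolynomial.X l : MvPolynomial ℕ F) *
      ((MvPolynomial.X 0 - MvPolynomial.X l) + (MvPolynomial.X 0 - MvPolynomial.X 1)) * f = 0 := by
    linear_combination c2
  have n1 : (MvPolynomial.X 1 - MvPolynomial.X l : MvPolynomial ℕ F) ≠ 0 := X_sub_ne (by omega)
  have n2 : ((MvPolynomial.X 0 - MvPolynomial.X l) + (MvPolynomial.X 0 - MvPolynomial.X 1) :
      MvPolynomial ℕ F) ≠ 0 := by
    intro h
    have := congrArg (MvPolynomial.coeff (Finsupp.single 1 1)) h
    rw [MvPolynomial.coeff_add, MvPolynomial.coeff_sub, MvPolynomial.coeff_sub,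
      MvPolynomial.coeff_zero, MvPolynomial.coeff_X, MvPolynomial.coeff_X,
      MvPolynomial.coeff_X, if_neg, if_neg, if_pos rfl] at this
    · norm_num at this
    · intro h
      have := (Finsupp.single_left_inj one_ne_zero).1 h
      omega
    · intro h
      have := (Finsupp.single_left_inj one_ne_zero).1 h
      omega
  have hf0 : f = 0 := by
    rcases mul_eq_zero.1 c3 with h | h
    · rcases mul_eq_zero.1 h with h | h
      · exact absurd h n1
      · exact absurd h n2
    · exact h
  rw [← coeff_theta (μ := μ) (fun i hi => wt_le hi) P w hl, ← hf, hf0, MvPolynomial.coeff_zero]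

/-- parity: an odd iterated bracket does not satisfy the first equation -/
theorem even_of_comm [CharZero F] {n : ℕ} {c : F} {Q : FA F Bool} (hn : ¬ Even n)
    (h1 : (c • brk n) * brk 0 - brk 0 * (c • brk n) = Q * lt true - lt true * Q) : c = 0 := by
  set μ := wt F 1 with hμ
  have e0 : μ (1 + 1) = μ 0 := by rw [hμ, wt_succ, wt_le (Nat.zero_le _)]
  have c1 := theta_comm_zero μ Q (1 + 1) e0
  rw [← h1, map_sub, LinearMap.sub_apply, Pi.sub_apply, theta_mul_brk, map_mul,
    Module.End.mul_apply, theta_brk, map_smul, LinearMap.smul_apply, LinearMap.smul_apply,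
    Pi.smul_apply, Pi.smul_apply, Pi.smul_apply, theta_brk, theta_brk, pow_zero, pow_zero,
    one_smul, one_mul] at c1
  have d1 : (del 1 : ℕ → MvPolynomial ℕ F) (0 + 1) = 1 := by simp [del]
  have d2 : (del (1 + 1) : ℕ → MvPolynomial ℕ F) (0 + 1 + 1) = 1 := by simp [del]
  rw [d1, d2, mul_one, mul_one, zero_add, e0, hμ, wt_le (Nat.zero_le _), wt_le (le_refl _)] at c1
  rw [Nat.not_even_iff_odd] at hn
  have c2 : (MvPolynomial.X 0 - MvPolynomial.X 1 : MvPolynomial ℕ F) ^ n =
      -(MvPolynomial.X 1 - MvPolynomial.X 0) ^ n := by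
    rw [← hn.neg_pow, neg_sub]
  rw [c2, smul_neg, sub_neg_eq_add, ← two_smul ℕ, smul_comm, ← Nat.cast_smul_eq_nsmul F,
    smul_smul] at c1
  rcases smul_eq_zero.1 c1 with h | h
  · rcases mul_eq_zero.1 h with h | h
    · exact h
    · norm_num at h
  · exact absurd h (pow_ne_zero _ (X_sub_ne (by omega)))

end Pool.Agent.Helper967.FL
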