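import Mathlib
import Pool.Agent.Helper967.FL3
import Pool.Agent.Helper967.FL4

set_option autoImplicit false

/-! The homogeneous structure theorem. -/

namespace Pool.Agent.Helper967.FL

open MulOpposite

variable {F : Type*} [Field F] {X : Type*}

/-- independence data from injectivity -/
theorem exists_indep {κ : Type*} [Fintype κ] [DecidableEq κ] {x : κ → FA F X} {d : κ → ℕ}
    (hd : ∀ i, 0 < d i) (hx : ∀ i, Hm (d i) (x i))
    (hinj : ∀ p : κ → FA F X, ∑ i, x i * p i = 0 → ∀ i, p i = 0) : Nonempty (Indep x) := by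
  let Ψ : ((κ → FA F X) × F) →ₗ[F] FA F X :=
    { toFun := fun q => ∑ i, x i * q.1 i + q.2 • 1
      map_add' := by
        intro a b
        simp only [Prod.fst_add, Prod.snd_add, Pi.add_apply, mul_add, Finset.sum_add_distrib,
          add_smul]
        abel
      map_smul' := by
        intro c a
        simp only [Prod.smul_fst, Prod.smul_snd, Pi.smul_apply, mul_smul_comm, RingHom.id_apply,
          smul_add, Finset.smul_sum, smul_eq_mul, mul_smul] }
  have haug : ∀ p : κ → FA F X, aug (∑ i, x i * p i) = 0 := by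
    intro p
    rw [map_sum]
    refine Finset.sum_eq_zero fun i _ => ?_
    rw [map_mul, (hx i).aug_eq_zero (by have := hd i; omega), zero_mul]
  have hΨ : LinearMap.ker Ψ = ⊥ := by
    rw [LinearMap.ker_eq_bot']
    rintro ⟨p, c⟩ h
    change ∑ i, x i * p i + c • 1 = 0 at h
    have h1 := congrArg aug h
    rw [map_add, haug, map_smul, map_one, map_zero, zero_add, smul_eq_mul, mul_one] at h1
    subst h1
    rw [zero_smul, add_zero] at h
    have h2 := hinj p h
    exact Prod.ext (funext h2) rfl
  obtain ⟨G, hG⟩ := LinearMap.exists_leftInverse_of_injective Ψ hΨ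
  refine ⟨⟨d, fun j => (LinearMap.proj j) ∘ₗ (LinearMap.fst F _ _) ∘ₗ G, hd, hx, ?_, ?_⟩⟩
  · intro i j p
    have h1 : x i * p = Ψ (Pi.single i p, 0) := by
      change _ = ∑ k, x k * (Pi.single i p : κ → FA F X) k + (0 : F) • 1
      rw [Finset.sum_eq_single i]
      · simp
      · intro k _ hk
        rw [Pi.single_eq_of_ne hk, mul_zero]
      · intro h; exact absurd (Finset.mem_univ i) h
    have h2 : G (x i * p) = (Pi.single i p, 0) := by
      rw [h1]; exact LinearMap.congr_fun hG _
    simp only [LinearMap.comp_apply, h2, LinearMap.fst_apply, LinearMap.proj_apply]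
    by_cases h : i = j
    · subst h; simp
    · rw [if_neg h, Pi.single_eq_of_ne (Ne.symm h)]
  · intro j
    have h1 : (1 : FA F X) = Ψ (0, 1) := by
      change _ = ∑ k, x k * (0 : κ → FA F X) k + (1 : F) • 1
      simp
    have h2 : G 1 = (0, 1) := by
      rw [h1]; exact LinearMap.congr_fun hG _
    simp only [LinearMap.comp_apply, h2, LinearMap.fst_apply, LinearMap.proj_apply, Pi.zero_apply]

section
variable [CharZero F]

theorem eq_zero_of_hm_zero {z : FreeLieAlgebra F X} (h : Hm 0 (iota z : FA F X)) : z = 0 := by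
  apply iota_injective
  rw [h.scalar, aug_iota]; simp

theorem hm_pos {z : FreeLieAlgebra F X} {n : ℕ} (h : Hm n (iota z : FA F X)) (hz : z ≠ 0) :
    0 < n := by
  rcases Nat.eq_zero_or_pos n with h0 | h0
  · subst h0; exact absurd (eq_zero_of_hm_zero h) hz
  · exact h0

theorem iota_ne {z : FreeLieAlgebra F X} (hz : z ≠ 0) : (iota z : FA F X) ≠ 0 := by
  intro h
  apply hz
  apply iota_injective
  rw [h, map_zero]

/-- words applied to Lie elements under the bracketing operator -/
theorem dyn_iota_mul {x : FreeLieAlgebra F X} {d : ℕ} (hx : Hm d (iota x : FA F X)) (q : FA F X) :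
    dyn (iota x * q) = (d : F) • (unop (adr (FreeLieAlgebra.of F) q)) x := by
  rw [dyn_mul, aug_iota, zero_smul, add_zero, ← eul_def, eul_hm hx, map_smul]

omit [CharZero F] in
theorem adr_iota_mul (x : FreeLieAlgebra F X) (q : FA F X) (l : FreeLieAlgebra F X) :
    (unop (adr (FreeLieAlgebra.of F) (iota x * q))) l =
      (unop (adr (FreeLieAlgebra.of F) q)) ⁅l, x⁆ := by
  rw [map_mul, unop_mul, Module.End.mul_apply, adr_iota, unop_op, rb_apply]

/-- a homogeneous Lie element right divisible by a homogeneous Lie element is a multiple of it -/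
theorem left_mult {x z : FreeLieAlgebra F X} {d n : ℕ} (hx : Hm d (iota x : FA F X)) (hx0 : x ≠ 0)
    (hz : Hm n (iota z : FA F X)) {p : FA F X} (h : iota z = iota x * p) : ∃ c : F, z = c • x := by
  by_cases hz0 : z = 0
  · exact ⟨0, by rw [hz0, zero_smul]⟩
  have hd := hm_pos hx hx0
  have hn := hm_pos hz hz0
  obtain ⟨I⟩ := exists_indep (κ := Unit) (x := fun _ => iota x) (d := fun _ => d) (fun _ => hd)
    (fun _ => hx) (by
      intro q hq i
      simp only [Finset.univ_unique, Finset.sum_singleton] at hq
      rcases mul_eq_zero.1 hq with h | h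
      · exact absurd h (iota_ne hx0)
      · exact h)
  have h1 := I.mem_range (fun _ => prim_iota x) (p := fun _ => p) (by
    simp only [Finset.univ_unique, Finset.sum_singleton]
    rw [← h]; exact prim_iota z)
  simp only [Finset.univ_unique, Finset.sum_singleton, ← h] at h1
  obtain ⟨P, hP⟩ := h1
  have h2 : ∀ P : FA F Unit, ∃ c : F, dyn (sub (fun _ => (iota x : FA F X)) P) = c • x := by
    intro P
    induction P using FA.ind with
    | h1 w =>
      induction w using FreeMonoid.inductionOn' with
      | one => exact ⟨0, by rw [sub_one, dyn_one, zero_smul]⟩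
      | of_mul i w _ =>
        rw [sub_of_mul, dyn_iota_mul hx]
        induction w using FreeMonoid.inductionOn' with
        | one => exact ⟨d, by rw [sub_one, map_one]; rfl⟩
        | of_mul j w _ =>
          refine ⟨0, ?_⟩
          rw [sub_of_mul, adr_iota_mul, lie_self, map_zero, smul_zero, zero_smul]
    | h2 a b ha hb =>
      obtain ⟨c, hc⟩ := ha
      obtain ⟨c', hc'⟩ := hb
      exact ⟨c + c', by rw [map_add, map_add, hc, hc', add_smul]⟩
    | h3 c a ha =>
      obtain ⟨c', hc'⟩ := ha
      exact ⟨c * c', by rw [map_smul, map_smul, hc', mul_smul]⟩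
  obtain ⟨c, hc⟩ := h2 P
  have h3 : (sub (fun _ => (iota x : FA F X)) P) = iota z := hP
  rw [h3, ← eul_def, eul_hm hz] at hc
  have hn' : (n : F) ≠ 0 := by exact_mod_cast hn.ne'
  refine ⟨(n : F)⁻¹ * c, ?_⟩
  rw [mul_smul, ← hc, smul_smul, inv_mul_cancel₀ hn', one_smul]

/-- centralizers of homogeneous elements -/
theorem centr_hom {x z : FreeLieAlgebra F X} {d n : ℕ} (hx : Hm d (iota x : FA F X)) (hx0 : x ≠ 0)
    (hz : Hm n (iota z : FA F X)) (h : ⁅z, x⁆ = 0) : ∃ c : F, z = c • x := by
  by_cases hz0 : z = 0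
  · exact ⟨0, by rw [hz0, zero_smul]⟩
  have h1 : (iota z : FA F X) * iota x - iota x * iota z = 0 := by
    rw [← iota_lie, h, map_zero]
  rcases le_total d n with hdn | hdn
  · obtain ⟨c, -, hc⟩ := weak_alg d (iota z : FA F X) (iota x) (fun _ : Unit => iota x)
      (fun _ => -iota z) (fun _ => n - d) hx (iota_ne hx0) (fun _ => by
        rw [Nat.sub_add_cancel hdn]; exact hz.neg) (by
        simp only [Finset.univ_unique, Finset.sum_singleton, mul_neg]
        rw [← sub_eq_add_neg, h1])
    simp only [Finset.univ_unique, Finset.sum_singleton] at hc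
    exact left_mult hx hx0 hz hc
  · obtain ⟨c, -, hc⟩ := weak_alg n (iota x : FA F X) (iota z) (fun _ : Unit => iota z)
      (fun _ => -iota x) (fun _ => d - n) hz (iota_ne hz0) (fun _ => by
        rw [Nat.sub_add_cancel hdn]; exact hx.neg) (by
        simp only [Finset.univ_unique, Finset.sum_singleton, mul_neg]
        rw [← sub_eq_add_neg, ← neg_eq_zero, neg_sub, h1])
    simp only [Finset.univ_unique, Finset.sum_singleton] at hc
    obtain ⟨c', hc'⟩ := left_mult hz hz0 hx hc
    have : c' ≠ 0 := by
      rintro rfl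
      rw [zero_smul] at hc'
      exact hx0 hc'
    exact ⟨c'⁻¹, by rw [hc', smul_smul, inv_mul_cancel₀ this, one_smul]⟩

/-- right independence of two homogeneous Lie elements of distinct degrees -/
theorem indep_two {x y : FreeLieAlgebra F X} {d k : ℕ} (hx : Hm d (iota x : FA F X)) (hx0 : x ≠ 0)
    (hy : Hm k (iota y : FA F X)) (hy0 : y ≠ 0) (hdk : d < k) {p q : FA F X}
    (h : iota x * p + iota y * q = 0) : p = 0 ∧ q = 0 := by
  have hq : q = 0 := by
    apply eq_zero_of_cmp
    intro n
    by_contra hne
    have h1 := congrArg (cmp (k + n)) h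
    rw [map_add, map_zero, hy.cmp_mul_left] at h1
    have h2 : k + n = d + (k - d + n) := by omega
    rw [h2, hx.cmp_mul_left, add_comm] at h1
    obtain ⟨c, -, hc⟩ := weak_alg n (iota y : FA F X) (cmp n q) (fun _ : Unit => iota x)
      (fun _ => cmp (k - d + n) p) (fun _ => k - d) (hm_cmp _ _) hne (fun _ => hm_cmp _ _) (by
        simp only [Finset.univ_unique, Finset.sum_singleton]
        exact h1)
    simp only [Finset.univ_unique, Finset.sum_singleton] at hc
    obtain ⟨c', hc'⟩ := left_mult hx hx0 hy hc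
    have h3 : Hm d (iota y : FA F X) := by rw [hc', map_smul]; exact hx.smul c'
    exact iota_ne hy0 (h3.eq_zero_of hy (by omega))
  subst hq
  rw [mul_zero, add_zero] at h
  rcases mul_eq_zero.1 h with h | h
  · exact absurd h (iota_ne hx0)
  · exact ⟨h, rfl⟩

end

end Pool.Agent.Helper967.FL
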