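import Mathlib
import Pool.Agent.Helper967.FL5

set_option autoImplicit false

/-! The homogeneous structure theorem: main statement. -/

namespace Pool.Agent.Helper967.FL

open MulOpposite

variable {F : Type*} [Field F] {X : Type*}

theorem weak2 (q : ℕ) {a0 b0 a1 b1 a2 b2 : FA F X} {r1 r2 : ℕ} (hb0 : Hm q b0) (hne : b0 ≠ 0)
    (hb1 : Hm (r1 + q) b1) (hb2 : Hm (r2 + q) b2) (h : a0 * b0 + (a1 * b1 + a2 * b2) = 0) :
    ∃ c1 c2, Hm r1 c1 ∧ Hm r2 c2 ∧ a0 = a1 * c1 + a2 * c2 := by
  obtain ⟨c, hc, hc'⟩ := weak_alg q a0 b0 (fun b : Bool => if b then a1 else a2)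
    (fun b => if b then b1 else b2) (fun b => if b then r1 else r2) hb0 hne (by
      intro j; cases j
      · exact hb2
      · exact hb1) (by rw [Fintype.sum_bool]; exact h)
  rw [Fintype.sum_bool] at hc'
  exact ⟨c true, c false, hc true, hc false, hc'⟩

theorem weak3 (q : ℕ) {a0 b0 a1 b1 a2 b2 a3 b3 : FA F X} {r1 r2 r3 : ℕ} (hb0 : Hm q b0)
    (hne : b0 ≠ 0) (hb1 : Hm (r1 + q) b1) (hb2 : Hm (r2 + q) b2) (hb3 : Hm (r3 + q) b3)
    (h : a0 * b0 + (a1 * b1 + a2 * b2 + a3 * b3) = 0) :
    ∃ c1 c2 c3, Hm r1 c1 ∧ Hm r2 c2 ∧ Hm r3 c3 ∧ a0 = a1 * c1 + a2 * c2 + a3 * c3 := by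
  obtain ⟨c, hc, hc'⟩ := weak_alg q a0 b0 (fun b : Option Bool => match b with
      | some true => a1 | some false => a2 | none => a3)
    (fun b => match b with
      | some true => b1 | some false => b2 | none => b3) (fun b => match b with
      | some true => r1 | some false => r2 | none => r3) hb0 hne (by
      intro j; rcases j with _ | _ | _
      · exact hb3
      · exact hb2
      · exact hb1) (by rw [Fintype.sum_option, Fintype.sum_bool, add_comm (a3 * b3)]; exact h)
  rw [Fintype.sum_option, Fintype.sum_bool, add_comm] at hc'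
  exact ⟨c (some true), c (some false), c none, hc (some true), hc (some false), hc none, hc'⟩

/-- the pair of substituted elements -/
noncomputable def two (x y : FreeLieAlgebra F X) : Bool → FA F X :=
  fun b => if b then iota x else iota y

theorem two_true (x y : FreeLieAlgebra F X) : two x y true = iota x := rfl
theorem two_false (x y : FreeLieAlgebra F X) : two x y false = iota y := rfl

theorem sub_brk (x y : FreeLieAlgebra F X) (n : ℕ) :
    sub (two x y) (brk n) = iota (((rb (F := F) x) ^ n) y) := by
  induction n with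
  | zero => rw [brk, sub_lt, two_false, pow_zero]; rfl
  | succ n ih =>
    rw [brk, map_sub, map_mul, map_mul, ih, sub_lt, two_true, pow_succ', Module.End.mul_apply,
      rb_apply, iota_lie]

theorem hm_rb_pow {x y : FreeLieAlgebra F X} {d k : ℕ} (hx : Hm d (iota x : FA F X))
    (hy : Hm k (iota y : FA F X)) (n : ℕ) :
    Hm (k + n * d) (iota (((rb (F := F) x) ^ n) y) : FA F X) := by
  induction n with
  | zero => simpa using hy
  | succ n ih =>
    rw [pow_succ', Module.End.mul_apply, rb_apply, iota_lie]
    have e1 : k + (n + 1) * d = (k + n * d) + d := by ring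
    rw [e1]
    refine Hm.sub (ih.mul hx) ?_
    rw [add_comm]
    exact hx.mul ih

section
variable [CharZero F]

/-- `dyn` of a two-letter word with at most one `y` -/
theorem dyn_word {x y : FreeLieAlgebra F X} {d k : ℕ} (hx : Hm d (iota x : FA F X))
    (hy : Hm k (iota y : FA F X)) (w : FreeMonoid Bool) (hw : ny w < 2) :
    (∃ c : F, dyn (sub (two x y) (wd w)) = c • x) ∨
      ∃ (c : F) (n : ℕ), dyn (sub (two x y) (wd w)) = c • ((rb (F := F) x) ^ n) y := by
  have key : ∀ (w : FreeMonoid Bool) (l : FreeLieAlgebra F X), ny w = 0 →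
      (unop (adr (FreeLieAlgebra.of F) (sub (two x y) (wd w)))) l =
        ((rb (F := F) x) ^ w.length) l := by
    intro w
    induction w using FreeMonoid.inductionOn' with
    | one => intro l _; rw [sub_one, map_one]; rfl
    | of_mul b w ih =>
      intro l hl
      cases b
      · rw [ny_false] at hl; omega
      · rw [ny_true] at hl
        rw [sub_of_mul, two_true, adr_iota_mul, ih _ hl, FreeMonoid.length_mul,
          FreeMonoid.length_of, add_comm, pow_succ, Module.End.mul_apply, rb_apply]
  induction w using FreeMonoid.inductionOn' with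
  | one => left; exact ⟨0, by rw [sub_one, dyn_one, zero_smul]⟩
  | of_mul b w _ =>
    cases b
    · right
      rw [ny_false] at hw
      refine ⟨k, w.length, ?_⟩
      rw [sub_of_mul, two_false, dyn_iota_mul hy, key w y (by omega)]
    · rw [ny_true] at hw
      rw [sub_of_mul, two_true, dyn_iota_mul hx]
      induction w using FreeMonoid.inductionOn' with
      | one => left; exact ⟨d, by rw [sub_one, map_one]; rfl⟩
      | of_mul b w _ =>
        cases b
        · right
          rw [ny_false] at hw
          refine ⟨-(d : F), w.length + 1, ?_⟩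
          rw [sub_of_mul, two_false, adr_iota_mul, key w _ (by omega), pow_succ,
            Module.End.mul_apply, rb_apply, ← lie_skew y x, map_neg, neg_smul, smul_neg, neg_neg]
        · left
          refine ⟨0, ?_⟩
          rw [sub_of_mul, two_true, adr_iota_mul, lie_self, map_zero, smul_zero, zero_smul]

set_option maxHeartbeats 2000000 in
/-- the homogeneous structure theorem -/
theorem main_hom {x y u v w : FreeLieAlgebra F X} {d k m e e' : ℕ}
    (hx : Hm d (iota x : FA F X)) (hy : Hm k (iota y : FA F X)) (hu : Hm m (iota u : FA F X))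
    (hv : Hm e (iota v : FA F X)) (hw : Hm e' (iota w : FA F X)) (he : e + d = m + k)
    (he' : e' + d = m + k + 2 * d) (x0 : x ≠ 0) (y0 : y ≠ 0) (hdk : d < k) (hkm : k ≤ m)
    (h1 : ⁅u, y⁆ = ⁅v, x⁆) (h2 : ⁅u, ⁅⁅y, x⁆, x⁆⁆ = ⁅w, x⁆) :
    ∃ (c : F) (j : ℕ), u = c • ((rb (F := F) x) ^ (2 * j)) y ∧ (c ≠ 0 → m = k + 2 * j * d) := by
  by_cases hu0 : u = 0
  · exact ⟨0, 0, by rw [hu0, zero_smul], fun h => absurd rfl h⟩
  have hd := hm_pos hx x0
  have ex0 := iota_ne x0
  set A := (iota x : FA F X) with hA
  set B := (iota y : FA F X) with hB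
  set U := (iota u : FA F X) with hU
  set V := (iota v : FA F X) with hV
  set W := (iota w : FA F X) with hW
  have r1 : U * B - B * U = V * A - A * V := by rw [hU, hB, ← iota_lie, h1, iota_lie]
  set B2 := (B * A - A * B) * A - A * (B * A - A * B) with hB2
  have r2 : U * B2 - B2 * U = W * A - A * W := by
    have : B2 = iota ⁅⁅y, x⁆, x⁆ := by rw [iota_lie, iota_lie]
    rw [this, hU, ← iota_lie, h2, iota_lie]
  have hB2m : Hm (k + 2 * d) B2 := by
    have : B2 = iota (((rb (F := F) x) ^ 2) y) := by
      rw [pow_two, Module.End.mul_apply, rb_apply, rb_apply, iota_lie, iota_lie]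
    rw [this]; exact hm_rb_pow hx hy 2
  -- first elimination
  obtain ⟨α, β, γ, hα, hβ, hγ, hVe⟩ := weak3 d (a0 := V) (b0 := A) (a1 := U) (b1 := -B) (a2 := B)
    (b2 := U) (a3 := A) (b3 := -V) (r1 := k - d) (r2 := m - d) (r3 := e - d) hx ex0
    (by rw [Nat.sub_add_cancel (by omega)]; exact hy.neg)
    (by rw [Nat.sub_add_cancel (by omega)]; exact hu)
    (by rw [Nat.sub_add_cancel (by omega)]; exact hv.neg)
    (by
      have : V * A + (U * -B + B * U + A * -V) = (V * A - A * V) - (U * B - B * U) := by noncomm_ring
      rw [this, r1, sub_self])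
  -- second elimination
  have hne : α * A - B ≠ 0 := by
    intro h0
    have hBA : B = α * A := (sub_eq_zero.1 h0).symm
    have h3 := congrArg rev hBA
    rw [rev_mul, hB, hA, rev_iota, rev_iota] at h3
    have h4 : (iota y : FA F X) = iota x * rev α := by
      rw [← neg_neg (iota y : FA F X), h3, neg_mul, neg_neg]
    obtain ⟨c', hc'⟩ := left_mult hx x0 hy h4
    have h5 : Hm d (iota y : FA F X) := by rw [hc', map_smul]; exact hx.smul c'
    exact iota_ne y0 (h5.eq_zero_of hy (by omega))
  obtain ⟨α', γ', -, -, hUe⟩ := weak2 k (a0 := U) (b0 := α * A - B) (a1 := B) (b1 := β * A + U)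
    (a2 := A) (b2 := γ * A - V) (r1 := m - k) (r2 := e - k)
    (by
      refine Hm.sub ?_ hy
      have := hα.mul hx
      rwa [Nat.sub_add_cancel (by omega)] at this) hne
    (by
      rw [Nat.sub_add_cancel (by omega)]
      refine Hm.add ?_ hu
      have := hβ.mul hx
      rwa [Nat.sub_add_cancel (by omega)] at this)
    (by
      rw [Nat.sub_add_cancel (by omega)]
      refine Hm.sub ?_ hv
      have := hγ.mul hx
      rwa [Nat.sub_add_cancel (by omega)] at this)
    (by
      have : U * (α * A - B) + (B * (β * A + U) + A * (γ * A - V)) =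
          (U * α + B * β + A * γ) * A - A * V - (U * B - B * U) := by noncomm_ring
      rw [this, ← hVe, r1, sub_self])
  -- third elimination
  obtain ⟨α3, β3, γ3, -, -, -, hWe⟩ := weak3 d (a0 := W) (b0 := A) (a1 := U) (b1 := -B2) (a2 := B2)
    (b2 := U) (a3 := A) (b3 := -W) (r1 := k + d) (r2 := m - d) (r3 := e' - d) hx ex0
    (by
      have : k + d + d = k + 2 * d := by ring
      rw [this]; exact hB2m.neg)
    (by rw [Nat.sub_add_cancel (by omega)]; exact hu)
    (by rw [Nat.sub_add_cancel (by omega)]; exact hw.neg)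
    (by
      have : W * A + (U * -B2 + B2 * U + A * -W) = (W * A - A * W) - (U * B2 - B2 * U) := by
        noncomm_ring
      rw [this, r2, sub_self])
  -- membership in the subalgebra generated by x and y
  obtain ⟨I⟩ := exists_indep (κ := Bool) (x := two x y) (d := fun b => if b then d else k)
    (by intro b; cases b <;> simp <;> omega) (by
      intro b; cases b
      · exact hy
      · exact hx) (by
      intro p hp
      rw [Fintype.sum_bool] at hp
      obtain ⟨h3, h4⟩ := indep_two hx x0 hy y0 hdk hp
      intro b; cases b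
      · exact h4
      · exact h3)
  have hprim : ∀ b, Prim (two x y b) := by
    intro b; cases b
    · exact prim_iota y
    · exact prim_iota x
  have mem : ∀ (z : FreeLieAlgebra F X) (p q : FA F X), iota z = A * p + B * q →
      ∃ P : FA F Bool, sub (two x y) P = iota z := by
    intro z p q h
    have h3 := I.mem_range hprim (p := fun b => if b then p else q) (by
      rw [Fintype.sum_bool]
      change Prim (A * p + B * q)
      rw [← h]; exact prim_iota z)
    rw [Fintype.sum_bool] at h3
    obtain ⟨P, hP⟩ := h3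
    refine ⟨P, ?_⟩
    have h4 : (sub (two x y)).toRingHom P = A * p + B * q := hP
    rw [h]; exact h4
  obtain ⟨P, hP⟩ := mem u γ' α' (by rw [← hU, hUe]; abel)
  obtain ⟨Q, hQ⟩ := mem v (γ' * α + γ) (α' * α + β) (by
    rw [← hV, hVe, hUe]; noncomm_ring)
  obtain ⟨R, hR⟩ := mem w (γ' * α3 + (A * B - B * A - B * A) * β3 + γ3) (α' * α3 + A * A * β3) (by
    rw [← hW, hWe]
    conv_lhs => rw [hUe]
    rw [hB2]; noncomm_ring)
  -- transfer of the equations
  have t1 : P * brk 0 - brk 0 * P = Q * lt true - lt true * Q := by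
    apply I.sub_injective
    rw [map_sub, map_mul, map_mul, map_sub, map_mul, map_mul, hP, hQ, sub_brk, sub_lt, two_true,
      pow_zero]
    exact r1
  have t2 : P * brk 2 - brk 2 * P = R * lt true - lt true * R := by
    apply I.sub_injective
    rw [map_sub, map_mul, map_mul, map_sub, map_mul, map_mul, hP, hR, sub_brk, sub_lt, two_true,
      pow_two, Module.End.mul_apply, rb_apply, rb_apply, iota_lie, iota_lie]
    exact r2
  have hcoeff := coeff_eq_zero t1 t2
  -- the bracketing operator
  let S : Submodule F (FreeLieAlgebra F X) :=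
    Submodule.span F {z | z = x ∨ ∃ n, z = ((rb (F := F) x) ^ n) y}
  have hS : dyn (sub (two x y) P) ∈ S := by
    have hPs : P = P.coeff.sum (fun w c => c • wd w) := by
      refine FA.ext' fun w => ?_
      classical
      rw [Finsupp.sum, MonoidAlgebra.coeff_sum, Finsupp.finsetSum_apply]
      simp only [MonoidAlgebra.coeff_smul, Finsupp.smul_apply, wd_coeff, smul_eq_mul, mul_ite,
        mul_one, mul_zero]
      rw [Finset.sum_ite_eq' P.coeff.support w]
      split_ifs with h
      · rfl
      · simpa using h
    rw [hPs, Finsupp.sum, map_sum, map_sum]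
    refine Submodule.sum_mem _ fun w hw => ?_
    rw [map_smul, map_smul]
    refine Submodule.smul_mem _ _ ?_
    have hny : ny w < 2 := by
      by_contra hc
      exact (Finsupp.mem_support_iff.1 hw) (hcoeff w (by omega))
    rcases dyn_word hx hy w hny with ⟨c, hc⟩ | ⟨c, n, hc⟩
    · rw [hc]
      exact Submodule.smul_mem _ _ (Submodule.subset_span (Or.inl rfl))
    · rw [hc]
      exact Submodule.smul_mem _ _ (Submodule.subset_span (Or.inr ⟨n, rfl⟩))
  have hm0 : (m : F) ≠ 0 := by
    have := hm_pos hu hu0
    exact_mod_cast this.ne'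
  have huS : u ∈ S := by
    rw [hP, ← eul_def, eul_hm hu] at hS
    have := Submodule.smul_mem S (m : F)⁻¹ hS
    rwa [smul_smul, inv_mul_cancel₀ hm0, one_smul] at this
  -- use homogeneity
  have hgen : ∀ z ∈ S, ∃ (c : F) (n : ℕ), cmp m (iota z : FA F X) =
      c • iota (((rb (F := F) x) ^ n) y) ∧ (c ≠ 0 → m = k + n * d) := by
    by_cases hn : ∃ n, m = k + n * d
    · obtain ⟨n, hn⟩ := hn
      have : ∀ z ∈ S, ∃ c : F, cmp m (iota z : FA F X) = c • iota (((rb (F := F) x) ^ n) y) := by
        intro z hz
        induction hz using Submodule.span_induction with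
        | mem z hz =>
          rcases hz with rfl | ⟨n', rfl⟩
          · exact ⟨0, by rw [hx.cmp_ne (by omega), zero_smul]⟩
          · by_cases hnn : n' = n
            · subst hnn
              refine ⟨1, ?_⟩
              rw [one_smul, hn]
              exact hm_rb_pow hx hy n'
            · refine ⟨0, ?_⟩
              rw [zero_smul]
              refine (hm_rb_pow hx hy n').cmp_ne ?_
              intro h
              rw [hn] at h
              have h3 : n * d = n' * d := by omega
              exact hnn (Nat.eq_of_mul_eq_mul_right hd h3).symm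
        | zero => exact ⟨0, by simp⟩
        | add a b _ _ ha hb =>
          obtain ⟨c, hc⟩ := ha
          obtain ⟨c', hc'⟩ := hb
          exact ⟨c + c', by rw [map_add, map_add, hc, hc', add_smul]⟩
        | smul c a _ ha =>
          obtain ⟨c', hc'⟩ := ha
          exact ⟨c * c', by rw [map_smul, map_smul, hc', mul_smul]⟩
      intro z hz
      obtain ⟨c, hc⟩ := this z hz
      exact ⟨c, n, hc, fun _ => hn⟩
    · push Not at hn
      intro z hz
      refine ⟨0, 0, ?_, fun h => absurd rfl h⟩
      rw [zero_smul]
      induction hz using Submodule.span_induction with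
      | mem z hz =>
        rcases hz with rfl | ⟨n', rfl⟩
        · exact hx.cmp_ne (by omega)
        · exact (hm_rb_pow hx hy n').cmp_ne (hn n')
      | zero => simp
      | add a b _ _ ha hb => rw [map_add, map_add, ha, hb, add_zero]
      | smul c a _ ha => rw [map_smul, map_smul, ha, smul_zero]
  obtain ⟨c, n, hc, hcn⟩ := hgen u huS
  have hu' : cmp m (iota u : FA F X) = iota u := hu
  rw [hu', ← map_smul] at hc
  have hc2 : u = c • ((rb (F := F) x) ^ n) y := iota_injective hc
  have hc0 : c ≠ 0 := by
    rintro rfl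
    rw [zero_smul] at hc2
    exact hu0 hc2
  -- parity
  have hev : Even n := by
    by_contra hodd
    have hPe : P = c • brk n := by
      apply I.sub_injective
      rw [hP, map_smul, sub_brk, hc2, map_smul]
    rw [hPe] at t1
    exact hc0 (even_of_comm hodd t1)
  obtain ⟨j, hj⟩ := hev
  have hj2 : n = 2 * j := by omega
  subst hj2
  exact ⟨c, j, hc2, hcn⟩

end

end Pool.Agent.Helper967.FL
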