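import Mathlib
import Pool.Agent.Helper967.FL6

set_option autoImplicit false

/-! Degrees and top forms in free Lie algebras. -/

namespace Pool.Agent.Helper967.FL

variable {F : Type*} [Field F] {X : Type*}

/-- components of Lie elements -/
noncomputable def cpt (n : ℕ) (z : FreeLieAlgebra F X) : FreeLieAlgebra F X :=
  (exists_cmp z n).choose

theorem iota_cpt (n : ℕ) (z : FreeLieAlgebra F X) : iota (cpt n z) = (cmp n (iota z) : FA F X) :=
  (exists_cmp z n).choose_spec.1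

theorem hm_cpt (n : ℕ) (z : FreeLieAlgebra F X) : Hm n (iota (cpt n z) : FA F X) := by
  rw [iota_cpt]; exact hm_cmp _ _

/-- degree bound -/
def Le (p : ℕ) (z : FreeLieAlgebra F X) : Prop := ∀ n, p < n → cmp n (iota z : FA F X) = 0

theorem cmp_mul_le {p q : ℕ} {a b : FA F X} (ha : ∀ n, p < n → cmp n a = 0)
    (hb : ∀ n, q < n → cmp n b = 0) : cmp (p + q) (a * b) = cmp p a * cmp q b := by
  rw [cmp_mul, Finset.sum_eq_single (p, q)]
  · rintro ⟨i, j⟩ hp hne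
    rw [Finset.HasAntidiagonal.mem_antidiagonal] at hp
    simp only at hp ⊢
    rcases lt_trichotomy i p with h | h | h
    · rw [hb j (by omega), mul_zero]
    · exfalso; apply hne; rw [Prod.mk.injEq]; exact ⟨h, by omega⟩
    · rw [ha i h, zero_mul]
  · intro h
    exact absurd (by rw [Finset.HasAntidiagonal.mem_antidiagonal]) h

theorem cmp_mul_lt {p q n : ℕ} {a b : FA F X} (ha : ∀ n, p < n → cmp n a = 0)
    (hb : ∀ n, q < n → cmp n b = 0) (hn : p + q < n) : cmp n (a * b) = 0 := by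
  rw [cmp_mul]
  refine Finset.sum_eq_zero ?_
  rintro ⟨i, j⟩ hp
  rw [Finset.HasAntidiagonal.mem_antidiagonal] at hp
  simp only at hp ⊢
  rcases lt_or_ge p i with h | h
  · rw [ha i h, zero_mul]
  · rw [hb j (by omega), mul_zero]

theorem Le.lie {p q : ℕ} {a b : FreeLieAlgebra F X} (ha : Le p a) (hb : Le q b) :
    Le (p + q) ⁅a, b⁆ := by
  intro n hn
  rw [iota_lie, map_sub, cmp_mul_lt ha hb hn, cmp_mul_lt hb ha (by omega), sub_zero]

theorem Le.mono {p q : ℕ} {a : FreeLieAlgebra F X} (ha : Le p a) (h : p ≤ q) : Le q a :=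
  fun n hn => ha n (by omega)

theorem Le.add {p : ℕ} {a b : FreeLieAlgebra F X} (ha : Le p a) (hb : Le p b) : Le p (a + b) := by
  intro n hn
  rw [map_add, map_add, ha n hn, hb n hn, add_zero]

theorem Le.sub {p : ℕ} {a b : FreeLieAlgebra F X} (ha : Le p a) (hb : Le p b) : Le p (a - b) := by
  intro n hn
  rw [map_sub, map_sub, ha n hn, hb n hn, sub_zero]

theorem Le.smul {p : ℕ} {a : FreeLieAlgebra F X} (c : F) (ha : Le p a) : Le p (c • a) := by
  intro n hn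
  rw [map_smul, map_smul, ha n hn, smul_zero]

theorem exists_le (z : FreeLieAlgebra F X) : ∃ p, Le p z := by
  obtain ⟨n, hn⟩ := exists_bound (iota z : FA F X)
  exact ⟨n, hn⟩

section
variable [CharZero F]

theorem cpt_add (n : ℕ) (a b : FreeLieAlgebra F X) : cpt n (a + b) = cpt n a + cpt n b := by
  apply iota_injective
  rw [map_add, iota_cpt, iota_cpt, iota_cpt, map_add, map_add]

theorem cpt_sub (n : ℕ) (a b : FreeLieAlgebra F X) : cpt n (a - b) = cpt n a - cpt n b := by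
  apply iota_injective
  rw [map_sub, iota_cpt, iota_cpt, iota_cpt, map_sub, map_sub]

theorem cpt_smul (n : ℕ) (c : F) (a : FreeLieAlgebra F X) : cpt n (c • a) = c • cpt n a := by
  apply iota_injective
  rw [map_smul, iota_cpt, iota_cpt, map_smul, map_smul]

theorem cpt_eq_zero {n : ℕ} {a : FreeLieAlgebra F X} : cpt n a = 0 ↔ cmp n (iota a : FA F X) = 0 := by
  constructor
  · intro h
    rw [← iota_cpt, h, map_zero]
  · intro h
    apply iota_injective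
    rw [iota_cpt, h, map_zero]

theorem cpt_zero_eq (a : FreeLieAlgebra F X) : cpt 0 a = 0 := eq_zero_of_hm_zero (hm_cpt 0 a)

theorem cpt_lie {p q : ℕ} {a b : FreeLieAlgebra F X} (ha : Le p a) (hb : Le q b) :
    cpt (p + q) ⁅a, b⁆ = ⁅cpt p a, cpt q b⁆ := by
  apply iota_injective
  rw [iota_cpt, iota_lie, iota_lie, map_sub, cmp_mul_le ha hb, add_comm p q, cmp_mul_le hb ha,
    iota_cpt, iota_cpt]

theorem Le.eq_zero {a : FreeLieAlgebra F X} (h : Le 0 a) : a = 0 := by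
  apply iota_injective
  rw [map_zero]
  apply eq_zero_of_cmp
  intro n
  rcases Nat.eq_zero_or_pos n with h0 | h0
  · subst h0; rw [← cpt_eq_zero]; exact cpt_zero_eq a
  · exact h n h0

theorem Le.pred {p : ℕ} {a : FreeLieAlgebra F X} (h : Le (p + 1) a) (h0 : cpt (p + 1) a = 0) :
    Le p a := by
  intro n hn
  by_cases hn' : n = p + 1
  · subst hn'; exact cpt_eq_zero.1 h0
  · exact h n (by omega)

/-- `p` is the degree of `a` -/
def Dg (p : ℕ) (a : FreeLieAlgebra F X) : Prop := Le p a ∧ cpt p a ≠ 0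

theorem exists_dg {a : FreeLieAlgebra F X} (ha : a ≠ 0) : ∃ p, Dg p a := by
  have key : ∀ p, Le p a → ∃ p, Dg p a := by
    intro p
    induction p with
    | zero => intro h; exact absurd h.eq_zero ha
    | succ p ih =>
      intro h
      by_cases h0 : cpt (p + 1) a = 0
      · exact ih (h.pred h0)
      · exact ⟨p + 1, h, h0⟩
  obtain ⟨p, hp⟩ := exists_le a
  exact key p hp

theorem Dg.pos {p : ℕ} {a : FreeLieAlgebra F X} (h : Dg p a) : 0 < p := by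
  rcases Nat.eq_zero_or_pos p with h0 | h0
  · subst h0; exact absurd (cpt_zero_eq a) h.2
  · exact h0

theorem Dg.le_of {p q : ℕ} {a : FreeLieAlgebra F X} (h : Dg p a) (h' : Le q a) : p ≤ q := by
  by_contra hc
  exact h.2 (cpt_eq_zero.2 (h' p (by omega)))

theorem Dg.unique {p q : ℕ} {a : FreeLieAlgebra F X} (h : Dg p a) (h' : Dg q a) : p = q :=
  le_antisymm (h.le_of h'.1) (h'.le_of h.1)

theorem Dg.ne {p : ℕ} {a : FreeLieAlgebra F X} (h : Dg p a) : a ≠ 0 := by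
  rintro rfl
  exact h.2 (cpt_eq_zero.2 (by simp))

/-- proportional homogeneous components have equal degrees -/
theorem deg_eq_of_prop {p q : ℕ} {a b : FreeLieAlgebra F X} {c : F} (h : cpt p a = c • cpt q b)
    (h0 : cpt p a ≠ 0) : p = q := by
  by_contra hne
  have h1 := hm_cpt p a
  have h2 : Hm q (iota (cpt p a) : FA F X) := by rw [h, map_smul]; exact (hm_cpt q b).smul c
  exact iota_ne h0 (h1.eq_zero_of h2 hne)

theorem Dg.lie {p q : ℕ} {a b : FreeLieAlgebra F X} (ha : Dg p a) (hb : Dg q b) (hne : p ≠ q) :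
    Dg (p + q) ⁅a, b⁆ := by
  refine ⟨ha.1.lie hb.1, ?_⟩
  rw [cpt_lie ha.1 hb.1]
  intro h
  obtain ⟨c, hc⟩ := centr_hom (hm_cpt q b) hb.2 (hm_cpt p a) h
  exact hne (deg_eq_of_prop hc ha.2)

/-- normalising the left factor of a bracket with `x` -/
theorem reduce {d : ℕ} {x : FreeLieAlgebra F X} (hx : Dg d x) (v : FreeLieAlgebra F X)
    (hv : ⁅v, x⁆ ≠ 0) : ∃ (v1 : FreeLieAlgebra F X) (q : ℕ), ⁅v1, x⁆ = ⁅v, x⁆ ∧ Le q v1 ∧ ⁅cpt q v1, cpt d x⁆ ≠ 0 := by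
  have key : ∀ p (v1 : FreeLieAlgebra F X), ⁅v1, x⁆ = ⁅v, x⁆ → Le p v1 →
      ∃ (v1 : FreeLieAlgebra F X) (q : ℕ), ⁅v1, x⁆ = ⁅v, x⁆ ∧ Le q v1 ∧ ⁅cpt q v1, cpt d x⁆ ≠ 0 := by
    intro p
    induction p with
    | zero =>
      intro v1 h1 h2
      rw [← h1, h2.eq_zero, zero_lie] at hv
      exact absurd rfl hv
    | succ p ih =>
      intro v1 h1 h2
      by_cases h0 : ⁅cpt (p + 1) v1, cpt d x⁆ = 0
      · obtain ⟨c, hc⟩ := centr_hom (hm_cpt d x) hx.2 (hm_cpt (p + 1) v1) h0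
        by_cases hz : cpt (p + 1) v1 = 0
        · exact ih v1 h1 (h2.pred hz)
        · have hd := deg_eq_of_prop hc hz
          refine ih (v1 - c • x) ?_ ?_
          · rw [sub_lie, smul_lie, lie_self, smul_zero, sub_zero, h1]
          · refine Le.pred (h2.sub ((hx.1.mono (by omega)).smul c)) ?_
            rw [cpt_sub, cpt_smul, hd, ← hc, hd, sub_self]
      · exact ⟨v1, p + 1, h1, h2, h0⟩
  obtain ⟨p, hp⟩ := exists_le v
  exact key p v rfl hp

/-- nonzero elements of `[L, x]` have degree larger than that of `x` -/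
theorem dg_range {d m : ℕ} {x v r : FreeLieAlgebra F X} (hx : Dg d x) (hr : Dg m r)
    (h : r = ⁅v, x⁆) : d < m := by
  have hr0 := hr.ne
  obtain ⟨v1, q, h1, h2, h3⟩ := reduce hx v (by rw [← h]; exact hr0)
  have h4 : Dg (q + d) r := by
    rw [h, ← h1]
    exact ⟨h2.lie hx.1, by rw [cpt_lie h2 hx.1]; exact h3⟩
  have h5 := hr.unique h4
  have h6 : 0 < q := by
    rcases Nat.eq_zero_or_pos q with h0 | h0
    · subst h0; rw [cpt_zero_eq, zero_lie] at h3; exact absurd rfl h3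
    · exact h0
  omega

/-- the top form of an element of `[L, x]` -/
theorem top_range {d N : ℕ} {x v r : FreeLieAlgebra F X} (hx : Dg d x) (hN : Le N r) (hdN : d ≤ N)
    (h : r = ⁅v, x⁆) : ∃ (v' : FreeLieAlgebra F X) (e : ℕ), e + d = N ∧ Hm e (iota v' : FA F X) ∧
      cpt N r = ⁅v', cpt d x⁆ := by
  by_cases h0 : cpt N r = 0
  · exact ⟨0, N - d, by omega, by rw [map_zero]; exact hm_zero _, by rw [h0, zero_lie]⟩
  · have hr : Dg N r := ⟨hN, h0⟩
    obtain ⟨v1, q, h1, h2, h3⟩ := reduce hx v (by rw [← h]; exact hr.ne)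
    have h4 : Dg (q + d) r := by
      rw [h, ← h1]
      exact ⟨h2.lie hx.1, by rw [cpt_lie h2 hx.1]; exact h3⟩
    have h5 := hr.unique h4
    refine ⟨cpt q v1, q, h5.symm, hm_cpt _ _, ?_⟩
    rw [h5, h, ← h1, cpt_lie h2 hx.1]

/-- the pair of relations -/
def Rel (x u y : FreeLieAlgebra F X) : Prop :=
  (∃ v : FreeLieAlgebra F X, ⁅u, y⁆ = ⁅v, x⁆) ∧
    ∃ w : FreeLieAlgebra F X, ⁅u, ⁅⁅y, x⁆, x⁆⁆ = ⁅w, x⁆

omit [CharZero F] in
theorem Rel.symm {x u y : FreeLieAlgebra F X} (h : Rel x u y) : Rel x y u := by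
  obtain ⟨⟨v, hv⟩, w, hw⟩ := h
  refine ⟨⟨-v, ?_⟩, ⁅y, ⁅u, x⁆⁆ - ⁅⁅y, x⁆, u⁆ - w, ?_⟩
  · rw [neg_lie, ← hv, lie_skew]
  · rw [sub_lie, sub_lie, ← hw]
    have e1 : ⁅⁅y, ⁅u, x⁆⁆, x⁆ = ⁅⁅y, x⁆, ⁅u, x⁆⁆ + ⁅y, ⁅⁅u, x⁆, x⁆⁆ := by
      rw [← lie_skew, leibniz_lie, ← lie_skew x y, ← lie_skew x ⁅u, x⁆, neg_lie, lie_neg]; abel
    have e2 : ⁅⁅⁅y, x⁆, u⁆, x⁆ = ⁅⁅⁅y, x⁆, x⁆, u⁆ + ⁅⁅y, x⁆, ⁅u, x⁆⁆ := by
      rw [← lie_skew, leibniz_lie, ← lie_skew x ⁅y, x⁆, ← lie_skew x u, neg_lie, lie_neg]; abel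
    have e3 : ⁅⁅⁅y, x⁆, x⁆, u⁆ = -⁅u, ⁅⁅y, x⁆, x⁆⁆ := (lie_skew _ _).symm
    rw [e1, e2, e3]
    abel

omit [CharZero F] in
theorem Rel.add {x u u' y : FreeLieAlgebra F X} (h : Rel x u y) (h' : Rel x u' y) :
    Rel x (u + u') y := by
  obtain ⟨⟨v, hv⟩, w, hw⟩ := h
  obtain ⟨⟨v', hv'⟩, w', hw'⟩ := h'
  exact ⟨⟨v + v', by rw [add_lie, add_lie, hv, hv']⟩, w + w', by rw [add_lie, add_lie, hw, hw']⟩

omit [CharZero F] in
theorem Rel.smul {x u y : FreeLieAlgebra F X} (c : F) (h : Rel x u y) : Rel x (c • u) y := by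
  obtain ⟨⟨v, hv⟩, w, hw⟩ := h
  exact ⟨⟨c • v, by rw [smul_lie, smul_lie, hv]⟩, c • w, by rw [smul_lie, smul_lie, hw]⟩

/-- the operator `s = (ad x)^2` -/
noncomputable def sq (x : FreeLieAlgebra F X) : Module.End F (FreeLieAlgebra F X) :=
  (rb (F := F) x) ^ 2

omit [CharZero F] in
theorem sq_apply (x z : FreeLieAlgebra F X) : sq x z = ⁅⁅z, x⁆, x⁆ := by
  rw [sq, pow_two, Module.End.mul_apply, rb_apply, rb_apply]

omit [CharZero F] in
theorem lie_right_der (p q x : FreeLieAlgebra F X) : ⁅⁅p, q⁆, x⁆ = ⁅⁅p, x⁆, q⁆ + ⁅p, ⁅q, x⁆⁆ := by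
  rw [← lie_skew, leibniz_lie, ← lie_skew x p, ← lie_skew x q, neg_lie, lie_neg]; abel

omit [CharZero F] in
/-- `s` is symmetric for the bracket modulo `[L, x]` -/
theorem sq_symm (x p q : FreeLieAlgebra F X) :
    ⁅sq x p, q⁆ - ⁅p, sq x q⁆ ∈ LinearMap.range (rb (F := F) x) := by
  refine ⟨⁅⁅p, x⁆, q⁆ - ⁅p, ⁅q, x⁆⁆, ?_⟩
  rw [rb_apply, sq_apply, sq_apply, sub_lie, lie_right_der, lie_right_der p ⁅q, x⁆]
  abel

omit [CharZero F] in
theorem sq_pow_symm (x : FreeLieAlgebra F X) (j : ℕ) : ∀ (p q : FreeLieAlgebra F X),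
    ⁅(sq x ^ j) p, q⁆ - ⁅p, (sq x ^ j) q⁆ ∈ LinearMap.range (rb (F := F) x) := by
  induction j with
  | zero => intro p q; rw [pow_zero]; simp
  | succ j ih =>
    intro p q
    have h1 := ih (sq x p) q
    have h2 := sq_symm x p ((sq x ^ j) q)
    have h3 := Submodule.add_mem _ h1 h2
    rw [sub_add_sub_cancel] at h3
    have e1 : (sq x ^ (j + 1)) p = (sq x ^ j) (sq x p) := by rw [pow_succ, Module.End.mul_apply]
    have e2 : (sq x ^ (j + 1)) q = sq x ((sq x ^ j) q) := by rw [pow_succ', Module.End.mul_apply]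
    rw [e1, e2]
    exact h3

theorem lie_sq_pow (x y : FreeLieAlgebra F X) (j : ℕ) :
    ⁅(sq x ^ j) y, y⁆ ∈ LinearMap.range (rb (F := F) x) := by
  have h := sq_pow_symm x j y y
  rw [← lie_skew y, sub_neg_eq_add, ← two_smul F] at h
  have := Submodule.smul_mem _ (2 : F)⁻¹ h
  rwa [smul_smul, inv_mul_cancel₀ two_ne_zero, one_smul] at this

theorem rel_pow (x y : FreeLieAlgebra F X) (j : ℕ) : Rel x ((sq x ^ j) y) y := by
  obtain ⟨v, hv⟩ := lie_sq_pow x y j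
  obtain ⟨w, hw⟩ := lie_sq_pow x y (j + 1)
  obtain ⟨w', hw'⟩ := sq_symm x ((sq x ^ j) y) y
  rw [rb_apply] at hv hw hw'
  refine ⟨⟨v, hv.symm⟩, w - w', ?_⟩
  rw [sub_lie, hw, hw', pow_succ', Module.End.mul_apply, ← sq_apply x y]
  abel

/-- one step of the Euclidean algorithm -/
theorem step {d k m : ℕ} {x u y : FreeLieAlgebra F X} (hx : Dg d x) (hy : Dg k y) (hu : Dg m u)
    (hyN : y ∈ LinearMap.range (rb (F := F) x)) (huN : u ∈ LinearMap.range (rb (F := F) x))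
    (hkm : k ≤ m) (h : Rel x u y) : ∃ (c : F) (j : ℕ), m = k + 2 * j * d ∧
      cpt m (u - c • (sq x ^ j) y) = 0 ∧ Le m (u - c • (sq x ^ j) y) := by
  obtain ⟨y', hy'⟩ := hyN
  obtain ⟨u', hu'⟩ := huN
  rw [rb_apply] at hy' hu'
  have hdk : d < k := dg_range hx hy hy'.symm
  have hdm : d < m := dg_range hx hu hu'.symm
  obtain ⟨⟨v, hv⟩, w, hw⟩ := h
  have hs1 : Dg (k + d) ⁅y, x⁆ := hy.lie hx (by omega)
  have hs2 : Dg (k + d + d) ⁅⁅y, x⁆, x⁆ := hs1.lie hx (by omega)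
  obtain ⟨v', e, he, hv', htv⟩ := top_range hx (hu.1.lie hy.1) (by omega) hv
  obtain ⟨w', e', he', hw', htw⟩ := top_range hx (hu.1.lie hs2.1) (by omega) hw
  rw [cpt_lie hu.1 hy.1] at htv
  rw [cpt_lie hu.1 hs2.1, cpt_lie hs1.1 hx.1, cpt_lie hy.1 hx.1] at htw
  obtain ⟨c, j, hc, hcm⟩ := main_hom (hm_cpt d x) (hm_cpt k y) (hm_cpt m u) hv' hw' he
    (by omega) hx.2 hy.2 hdk hkm htv htw
  have hc0 : c ≠ 0 := by
    rintro rfl
    rw [zero_smul] at hc
    exact hu.2 hc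
  have hm := hcm hc0
  have hpow : ∀ n, Le (k + n * d) (((rb (F := F) x) ^ n) y) ∧
      cpt (k + n * d) (((rb (F := F) x) ^ n) y) = ((rb (F := F) (cpt d x)) ^ n) (cpt k y) := by
    intro n
    induction n with
    | zero => simpa using hy.1
    | succ n ih =>
      rw [pow_succ', Module.End.mul_apply, rb_apply, pow_succ', Module.End.mul_apply, rb_apply]
      have e1 : k + (n + 1) * d = k + n * d + d := by ring
      rw [e1]
      exact ⟨ih.1.lie hx.1, by rw [cpt_lie ih.1 hx.1, ih.2]⟩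
  obtain ⟨h1, h2⟩ := hpow (2 * j)
  have e2 : (sq x ^ j) y = ((rb (F := F) x) ^ (2 * j)) y := by rw [sq, ← pow_mul]
  refine ⟨c, j, hm, ?_, ?_⟩
  · rw [cpt_sub, cpt_smul, e2, hm, h2, ← hm, hc, sub_self]
  · rw [e2]
    refine hu.1.sub (Le.smul c ?_)
    rw [hm]; exact h1

end

end Pool.Agent.Helper967.FL
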