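import Mathlib
import Pool.Agent.Helper967.FL7

set_option autoImplicit false

/-! The module structure defined by the relations. -/

namespace Pool.Agent.Helper967.FL

open Polynomial

variable {F : Type*} [Field F] {V : Type*}

/-- the action of polynomials through `s = (ad x)^2` -/
noncomputable def act (x : FreeLieAlgebra F V) (f : F[X]) : Module.End F (FreeLieAlgebra F V) :=
  Polynomial.aeval (sq x) f

theorem act_add (x : FreeLieAlgebra F V) (f g : F[X]) (z : FreeLieAlgebra F V) :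
    act x (f + g) z = act x f z + act x g z := by
  rw [act, map_add]; rfl

theorem act_sub (x : FreeLieAlgebra F V) (f g : F[X]) (z : FreeLieAlgebra F V) :
    act x (f - g) z = act x f z - act x g z := by
  rw [act, map_sub]; rfl

theorem act_mul (x : FreeLieAlgebra F V) (f g : F[X]) (z : FreeLieAlgebra F V) :
    act x (f * g) z = act x f (act x g z) := by
  rw [act, map_mul]; rfl

theorem act_one (x z : FreeLieAlgebra F V) : act x 1 z = z := by
  rw [act, map_one]; rfl

theorem act_zero (x z : FreeLieAlgebra F V) : act x 0 z = 0 := by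
  rw [act, map_zero]; rfl

theorem act_C (x : FreeLieAlgebra F V) (c : F) (z : FreeLieAlgebra F V) :
    act x (C c) z = c • z := by
  rw [act, Polynomial.aeval_C]; rfl

theorem act_X (x z : FreeLieAlgebra F V) : act x X z = ⁅⁅z, x⁆, x⁆ := by
  rw [act, Polynomial.aeval_X, sq_apply]

theorem act_X_pow (x z : FreeLieAlgebra F V) (j : ℕ) : act x (X ^ j) z = (sq x ^ j) z := by
  rw [act, map_pow, Polynomial.aeval_X]

theorem act_range (x : FreeLieAlgebra F V) (f : F[X]) {z : FreeLieAlgebra F V}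
    (hz : z ∈ LinearMap.range (rb (F := F) x)) : act x f z ∈ LinearMap.range (rb (F := F) x) := by
  obtain ⟨z', rfl⟩ := hz
  refine ⟨act x f z', ?_⟩
  have h : Commute (rb (F := F) x) (act x f) := by
    have h1 : Commute (rb (F := F) x) (sq x) := (Commute.refl _).pow_right 2
    rw [act]
    induction f using Polynomial.induction_on' with
    | add p q hp hq => rw [map_add]; exact hp.add_right hq
    | monomial n c =>
      rw [Polynomial.aeval_monomial]
      exact (Algebra.commute_algebraMap_right c (rb (F := F) x)).mul_right (h1.pow_right n)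
  have := LinearMap.congr_fun h.eq z'
  simpa [Module.End.mul_apply] using this

section
variable [CharZero F]

theorem rel_act (x y : FreeLieAlgebra F V) (f : F[X]) : Rel x (act x f y) y := by
  induction f using Polynomial.induction_on' with
  | add p q hp hq => rw [act_add]; exact hp.add hq
  | monomial n c =>
    rw [← Polynomial.C_mul_X_pow_eq_monomial, act_mul, act_C, act_X_pow]
    exact (rel_pow x y n).smul c

theorem euclid {d : ℕ} {x : FreeLieAlgebra F V} (hx : Dg d x) (n : ℕ) :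
    ∀ (p q : ℕ) (u y : FreeLieAlgebra F V), p + q ≤ n → Le p u → Le q y →
      u ∈ LinearMap.range (rb (F := F) x) → y ∈ LinearMap.range (rb (F := F) x) → Rel x u y →
      ∃ f g : F[X], (f ≠ 0 ∨ g ≠ 0) ∧ act x g u = act x f y := by
  induction n using Nat.strong_induction_on with
  | _ n ih =>
    intro p q u y hpq hup hyq hu hy h
    by_cases hu0 : u = 0
    · exact ⟨0, 1, Or.inr one_ne_zero, by rw [hu0, act_zero, map_zero]⟩
    by_cases hy0 : y = 0
    · exact ⟨1, 0, Or.inl one_ne_zero, by rw [hy0, act_zero, map_zero]⟩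
    obtain ⟨m, hm⟩ := exists_dg hu0
    obtain ⟨k, hk⟩ := exists_dg hy0
    have hmp := hm.le_of hup
    have hkq := hk.le_of hyq
    have hm0 := hm.pos
    have hk0 := hk.pos
    rcases le_or_gt k m with hkm | hkm
    · obtain ⟨c, j, -, h1, h2⟩ := step hx hk hm hy hu hkm h
      obtain ⟨m', rfl⟩ : ∃ m', m = m' + 1 := ⟨m - 1, by omega⟩
      have h3 := h2.pred h1
      have hr := act_range x (X ^ j) hy
      rw [act_X_pow] at hr
      obtain ⟨f, g, hfg, he⟩ := ih (m' + k) (by omega) m' k _ y (le_refl _) h3 hk.1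
        (Submodule.sub_mem _ hu (Submodule.smul_mem _ c hr)) hy (by
          rw [sub_eq_add_neg, ← neg_smul]
          exact h.add ((rel_pow x y j).smul _))
      refine ⟨f + g * (C c * X ^ j), g, ?_, ?_⟩
      · by_cases hg : g = 0
        · left
          rcases hfg with hf | hg'
          · rw [hg, zero_mul, add_zero]; exact hf
          · exact absurd hg hg'
        · exact Or.inr hg
      · rw [act_add, ← he, act_mul, act_mul, act_C, act_X_pow, ← map_add]
        congr 1
        abel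
    · obtain ⟨c, j, -, h1, h2⟩ := step hx hm hk hu hy hkm.le h.symm
      obtain ⟨k', rfl⟩ : ∃ k', k = k' + 1 := ⟨k - 1, by omega⟩
      have h3 := h2.pred h1
      have hr := act_range x (X ^ j) hu
      rw [act_X_pow] at hr
      obtain ⟨f, g, hfg, he⟩ := ih (m + k') (by omega) m k' u _ (le_refl _) hm.1 h3 hu
        (Submodule.sub_mem _ hy (Submodule.smul_mem _ c hr)) (by
          rw [sub_eq_add_neg, ← neg_smul]
          exact (h.symm.add ((rel_pow x u j).smul _)).symm)
      refine ⟨f, g + f * (C c * X ^ j), ?_, ?_⟩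
      · by_cases hf : f = 0
        · right
          rcases hfg with hf' | hg'
          · exact absurd hf hf'
          · rw [hf, zero_mul, add_zero]; exact hg'
        · exact Or.inl hf
      · rw [act_add, he, act_mul, act_mul, act_C, act_X_pow, ← map_add]
        congr 1
        abel

/-- elements related to an element of small degree are polynomial multiples of it -/
theorem indiv {d k : ℕ} {x y : FreeLieAlgebra F V} (hx : Dg d x) (hk : Dg k y) (hkd : k < 3 * d)
    (hy : y ∈ LinearMap.range (rb (F := F) x)) (n : ℕ) :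
    ∀ u : FreeLieAlgebra F V, Le n u → u ∈ LinearMap.range (rb (F := F) x) → Rel x u y →
      ∃ f : F[X], u = act x f y := by
  induction n using Nat.strong_induction_on with
  | _ n ih =>
    intro u hun hu h
    by_cases hu0 : u = 0
    · exact ⟨0, by rw [hu0, act_zero]⟩
    obtain ⟨m, hm⟩ := exists_dg hu0
    have hmn := hm.le_of hun
    have hm0 := hm.pos
    rcases le_or_gt k m with hkm | hkm
    · obtain ⟨c, j, -, h1, h2⟩ := step hx hk hm hy hu hkm h
      obtain ⟨m', rfl⟩ : ∃ m', m = m' + 1 := ⟨m - 1, by omega⟩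
      have h3 := h2.pred h1
      have hr := act_range x (X ^ j) hy
      rw [act_X_pow] at hr
      obtain ⟨f, hf⟩ := ih m' (by omega) _ h3
        (Submodule.sub_mem _ hu (Submodule.smul_mem _ c hr)) (by
          rw [sub_eq_add_neg, ← neg_smul]
          exact h.add ((rel_pow x y j).smul _))
      refine ⟨f + C c * X ^ j, ?_⟩
      rw [act_add, ← hf, act_mul, act_C, act_X_pow]
      abel
    · exfalso
      obtain ⟨c, j, hj, -, -⟩ := step hx hm hk hu hy hkm.le h.symm
      obtain ⟨u', hu'⟩ := hu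
      rw [rb_apply] at hu'
      have hdm : d < m := dg_range hx hm hu'.symm
      rcases Nat.eq_zero_or_pos j with h0 | h0
      · subst h0; omega
      · have : d ≤ j * d := Nat.le_mul_of_pos_left d h0
        have : 2 * j * d = 2 * (j * d) := by ring
        omega

/-- iterated brackets with `x` -/
theorem rb_pow_dg {d m : ℕ} {x z : FreeLieAlgebra F V} (hx : Dg d x) (hz : Dg m z) (hdm : d < m)
    (n : ℕ) : Dg (m + n * d) (((rb (F := F) x) ^ n) z) ∧
      cpt (m + n * d) (((rb (F := F) x) ^ n) z) = ((rb (F := F) (cpt d x)) ^ n) (cpt m z) := by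
  induction n with
  | zero => simpa using hz
  | succ n ih =>
    rw [pow_succ', Module.End.mul_apply, rb_apply, pow_succ', Module.End.mul_apply, rb_apply]
    have e1 : m + (n + 1) * d = m + n * d + d := by ring
    rw [e1]
    exact ⟨ih.1.lie hx (by omega), by rw [cpt_lie ih.1.1 hx.1, ih.2]⟩

theorem act_dg {d m : ℕ} {x z : FreeLieAlgebra F V} (hx : Dg d x) (hz : Dg m z) (hdm : d < m)
    {f : F[X]} (hf : f ≠ 0) : Dg (m + 2 * f.natDegree * d) (act x f z) ∧
      cpt (m + 2 * f.natDegree * d) (act x f z) =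
        f.leadingCoeff • ((rb (F := F) (cpt d x)) ^ (2 * f.natDegree)) (cpt m z) := by
  have hd := hx.pos
  have hs : ∀ i, (sq x ^ i) z = ((rb (F := F) x) ^ (2 * i)) z := by
    intro i; rw [sq, ← pow_mul]
  have e : act x f z = ∑ i ∈ Finset.range (f.natDegree + 1), f.coeff i • (sq x ^ i) z := by
    rw [act, Polynomial.aeval_eq_sum_range, LinearMap.sum_apply]
    rfl
  have hterm : ∀ i, Le (m + 2 * i * d) (f.coeff i • (sq x ^ i) z) := by
    intro i
    rw [hs]
    exact ((rb_pow_dg hx hz hdm (2 * i)).1.1).smul _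
  have hc : cpt (m + 2 * f.natDegree * d) (act x f z) =
        f.leadingCoeff • ((rb (F := F) (cpt d x)) ^ (2 * f.natDegree)) (cpt m z) := by
    apply iota_injective
    rw [iota_cpt, e, map_sum, map_sum, Finset.sum_range_succ, Finset.sum_eq_zero, zero_add,
      ← iota_cpt, cpt_smul, hs, (rb_pow_dg hx hz hdm _).2]
    · rfl
    · intro i hi
      rw [Finset.mem_range] at hi
      refine hterm i _ ?_
      have : i * d < f.natDegree * d := Nat.mul_lt_mul_of_pos_right hi hd
      have e1 : 2 * i * d = 2 * (i * d) := by ring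
      have e2 : 2 * f.natDegree * d = 2 * (f.natDegree * d) := by ring
      omega
  refine ⟨⟨?_, ?_⟩, hc⟩
  · intro n hn
    rw [e, map_sum, map_sum]
    refine Finset.sum_eq_zero fun i hi => ?_
    rw [Finset.mem_range] at hi
    refine hterm i n ?_
    have : i * d ≤ f.natDegree * d := Nat.mul_le_mul_right d (by omega)
    have e1 : 2 * i * d = 2 * (i * d) := by ring
    have e2 : 2 * f.natDegree * d = 2 * (f.natDegree * d) := by ring
    omega
  · rw [hc, ← (rb_pow_dg hx hz hdm _).2]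
    exact smul_ne_zero (Polynomial.leadingCoeff_ne_zero.2 hf) (rb_pow_dg hx hz hdm _).1.2

theorem hm_inj {d m : ℕ} {x z : FreeLieAlgebra F V} (hx : Hm d (iota x : FA F V)) (hx0 : x ≠ 0)
    (hz : Hm m (iota z : FA F V)) (hdm : d ≠ m) (h : ⁅z, x⁆ = 0) : z = 0 := by
  obtain ⟨c, hc⟩ := centr_hom hx hx0 hz h
  apply iota_injective
  rw [map_zero]
  refine hz.eq_zero_of (m := d) ?_ (Ne.symm hdm)
  rw [hc, map_smul]; exact hx.smul c

theorem hm_inj_pow {d m : ℕ} {x z : FreeLieAlgebra F V} (hx : Hm d (iota x : FA F V)) (hx0 : x ≠ 0)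
    (hz : Hm m (iota z : FA F V)) (hdm : d < m) (n : ℕ) (h : ((rb (F := F) x) ^ n) z = 0) :
    z = 0 := by
  induction n with
  | zero => simpa using h
  | succ n ih =>
    apply ih
    rw [pow_succ', Module.End.mul_apply, rb_apply] at h
    exact hm_inj hx hx0 (hm_rb_pow hx hz n) (by omega) h

/-- normal position of a noncommuting pair -/
theorem normal_pair {a b : FreeLieAlgebra F V} (hab : ⁅a, b⁆ ≠ 0) :
    ∃ (p q q' d : ℕ) (c : F), Dg p a ∧ Dg q b ∧ Dg q' (b - c • a) ∧ Dg d ⁅a, b⁆ ∧ d = p + q' ∧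
      p < d ∧ q < d ∧ ⁅cpt p a, cpt q' (b - c • a)⁆ ≠ 0 := by
  have ha : a ≠ 0 := by rintro rfl; exact hab (zero_lie _)
  have hb : b ≠ 0 := by rintro rfl; exact hab (lie_zero _)
  obtain ⟨p, hp⟩ := exists_dg ha
  obtain ⟨q, hq⟩ := exists_dg hb
  have hp0 := hp.pos
  have hq0 := hq.pos
  by_cases h : ⁅cpt p a, cpt q b⁆ = 0
  · have h' : ⁅cpt q b, cpt p a⁆ = 0 := by rw [← lie_skew, h, neg_zero]
    obtain ⟨c, hc⟩ := centr_hom (hm_cpt p a) hp.2 (hm_cpt q b) h'
    have hqp := deg_eq_of_prop hc hq.2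
    subst hqp
    have hx : ⁅a, b - c • a⁆ = ⁅a, b⁆ := by rw [lie_sub, lie_smul, lie_self, smul_zero, sub_zero]
    have hb' : b - c • a ≠ 0 := by
      intro h0
      rw [h0, lie_zero] at hx
      exact hab hx.symm
    obtain ⟨q', hq'⟩ := exists_dg hb'
    have h1 : Le q (b - c • a) := hq.1.sub (hp.1.smul c)
    have h2 : cpt q (b - c • a) = 0 := by rw [cpt_sub, cpt_smul, ← hc, sub_self]
    obtain ⟨r, rfl⟩ : ∃ r, q = r + 1 := ⟨q - 1, by omega⟩
    have h3 := hq'.le_of (h1.pred h2)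
    have h4 := hp.lie hq' (by omega)
    rw [hx] at h4
    have h5 := h4.2
    rw [← hx, cpt_lie hp.1 hq'.1] at h5
    have := hq'.pos
    exact ⟨r + 1, r + 1, q', r + 1 + q', c, hp, hq, hq', h4, rfl, by omega, by omega, h5⟩
  · refine ⟨p, q, q, p + q, 0, hp, hq, ?_, ?_, rfl, by omega, by omega, ?_⟩
    · rw [zero_smul, sub_zero]; exact hq
    · exact ⟨hp.1.lie hq.1, by rw [cpt_lie hp.1 hq.1]; exact h⟩
    · rw [zero_smul, sub_zero]; exact h

/-- independence of the two basic elements -/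
theorem indep_yz {a b : FreeLieAlgebra F V} (hab : ⁅a, b⁆ ≠ 0) {f g : F[X]}
    (h : act ⁅a, b⁆ f ⁅a, ⁅a, b⁆⁆ + act ⁅a, b⁆ g ⁅b, ⁅a, b⁆⁆ = 0) : f = 0 ∧ g = 0 := by
  obtain ⟨p, q, q', d, c, hp, hq, hq', hd, hdpq, hpd, hqd, hne⟩ := normal_pair hab
  set x := ⁅a, b⁆ with hx
  set b' := b - c • a with hb'
  have hq'd : q' < d := by have := hp.pos; omega
  have e1 : ⁅b, x⁆ = ⁅b', x⁆ + c • ⁅a, x⁆ := by
    rw [hb', sub_lie, smul_lie]; abel
  have e2 : act x (f + g * C c) ⁅a, x⁆ + act x g ⁅b', x⁆ = 0 := by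
    rw [← h, e1, map_add, act_add, act_mul, act_C]; abel
  have hy : Dg (p + d) ⁅a, x⁆ := hp.lie hd (by omega)
  have hz : Dg (q' + d) ⁅b', x⁆ := hq'.lie hd (by omega)
  have hp0 := hp.pos
  have hq0 := hq'.pos
  have hd0 := hd.pos
  have key : f + g * C c = 0 ∧ g = 0 := by
    set f' := f + g * C c
    by_cases hf : f' = 0
    · refine ⟨hf, ?_⟩
      by_contra hg
      rw [hf, act_zero, zero_add] at e2
      exact (act_dg hd hz (by omega) hg).1.ne e2
    by_cases hg : g = 0
    · exfalso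
      rw [hg, act_zero, add_zero] at e2
      exact (act_dg hd hy (by omega) hf).1.ne e2
    exfalso
    obtain ⟨h1, h2⟩ := act_dg hd hy (by omega) hf
    obtain ⟨h3, h4⟩ := act_dg hd hz (by omega) hg
    have e3 : act x f' ⁅a, x⁆ = (-1 : F) • act x g ⁅b', x⁆ := by
      rw [neg_one_smul]; exact eq_neg_of_add_eq_zero_left e2
    have h5 : Dg (q' + d + 2 * g.natDegree * d) (act x f' ⁅a, x⁆) := by
      rw [e3]
      refine ⟨h3.1.smul _, ?_⟩
      rw [cpt_smul]
      exact smul_ne_zero (by norm_num) h3.2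
    have h6 := h1.unique h5
    have h7 : f'.natDegree = g.natDegree := by
      rcases lt_trichotomy f'.natDegree g.natDegree with hlt | heq | hlt
      · exfalso
        have h8 : (f'.natDegree + 1) * d ≤ g.natDegree * d := Nat.mul_le_mul_right d hlt
        have e4 : (f'.natDegree + 1) * d = f'.natDegree * d + d := by ring
        have e5 : 2 * f'.natDegree * d = 2 * (f'.natDegree * d) := by ring
        have e6 : 2 * g.natDegree * d = 2 * (g.natDegree * d) := by ring
        omega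
      · exact heq
      · exfalso
        have h8 : (g.natDegree + 1) * d ≤ f'.natDegree * d := Nat.mul_le_mul_right d hlt
        have e4 : (g.natDegree + 1) * d = g.natDegree * d + d := by ring
        have e5 : 2 * f'.natDegree * d = 2 * (f'.natDegree * d) := by ring
        have e6 : 2 * g.natDegree * d = 2 * (g.natDegree * d) := by ring
        omega
    rw [h7] at h6 h2
    have h8 : p = q' := by omega
    rw [← h8] at h4 hne hz hq'
    have h9 : cpt (p + d + 2 * g.natDegree * d) (act x f' ⁅a, x⁆) +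
        cpt (p + d + 2 * g.natDegree * d) (act x g ⁅b', x⁆) = 0 := by
      rw [← cpt_add, e2]
      exact cpt_eq_zero.2 (by simp)
    rw [h2, h4, ← map_smul, ← map_smul, ← map_add] at h9
    have h10 := hm_inj_pow (hm_cpt d x) hd.2 (m := p + d) (by
      rw [map_add, map_smul, map_smul]
      exact ((hm_cpt _ _).smul _).add ((hm_cpt _ _).smul _)) (by omega) _ h9
    rw [cpt_lie hp.1 hd.1, cpt_lie hq'.1 hd.1, ← smul_lie, ← smul_lie, ← add_lie] at h10
    have h11 := hm_inj (hm_cpt d x) hd.2 (m := p) (by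
      rw [map_add, map_smul, map_smul]
      exact ((hm_cpt _ _).smul _).add ((hm_cpt _ _).smul _)) (by omega) h10
    have hl : f'.leadingCoeff ≠ 0 := Polynomial.leadingCoeff_ne_zero.2 hf
    apply hne
    have h12 : f'.leadingCoeff • ⁅cpt p a, cpt p b'⁆ = 0 := by
      rw [← smul_lie, eq_neg_of_add_eq_zero_left h11, neg_lie, smul_lie, lie_self, smul_zero,
        neg_zero]
    exact (smul_eq_zero.1 h12).resolve_left hl
  obtain ⟨k1, k2⟩ := key
  rw [k2, zero_mul, add_zero] at k1
  exact ⟨k1, k2⟩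

/-- the definable relation -/
def EE (x u y : FreeLieAlgebra F V) : Prop := (∃ u' : FreeLieAlgebra F V, u = ⁅u', x⁆) ∧ Rel x u y

theorem ee_act {x y : FreeLieAlgebra F V} (hy : ∃ y' : FreeLieAlgebra F V, y = ⁅y', x⁆)
    (f : F[X]) : EE x (act x f y) y := by
  refine ⟨?_, rel_act x y f⟩
  obtain ⟨y', hy'⟩ := hy
  obtain ⟨v, hv⟩ := act_range x f (z := y) ⟨y', by rw [rb_apply, hy']⟩
  exact ⟨v, by rw [← hv, rb_apply]⟩

theorem ee_left {a b u : FreeLieAlgebra F V} (hab : ⁅a, b⁆ ≠ 0) (h : EE ⁅a, b⁆ u ⁅a, ⁅a, b⁆⁆) :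
    ∃ f : F[X], u = act ⁅a, b⁆ f ⁅a, ⁅a, b⁆⁆ := by
  obtain ⟨p, q, q', d, c, hp, hq, hq', hd, hdpq, hpd, hqd, hne⟩ := normal_pair hab
  obtain ⟨⟨u', hu'⟩, hr⟩ := h
  obtain ⟨n, hn⟩ := exists_le u
  exact indiv hd (hp.lie hd (by omega)) (by omega) ⟨a, by rw [rb_apply]⟩ n u hn
    ⟨u', by rw [rb_apply, hu']⟩ hr

theorem ee_right {a b u : FreeLieAlgebra F V} (hab : ⁅a, b⁆ ≠ 0) (h : EE ⁅a, b⁆ u ⁅b, ⁅a, b⁆⁆) :
    ∃ f : F[X], u = act ⁅a, b⁆ f ⁅b, ⁅a, b⁆⁆ := by
  obtain ⟨p, q, q', d, c, hp, hq, hq', hd, hdpq, hpd, hqd, hne⟩ := normal_pair hab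
  obtain ⟨⟨u', hu'⟩, hr⟩ := h
  obtain ⟨n, hn⟩ := exists_le u
  exact indiv hd (hq.lie hd (by omega)) (by omega) ⟨b, by rw [rb_apply]⟩ n u hn
    ⟨u', by rw [rb_apply, hu']⟩ hr

/-- multiplication is definable -/
theorem ee_mul {a b : FreeLieAlgebra F V} (hab : ⁅a, b⁆ ≠ 0) (f g h : F[X]) :
    EE ⁅a, b⁆ (act ⁅a, b⁆ h ⁅a, ⁅a, b⁆⁆ + act ⁅a, b⁆ g ⁅b, ⁅a, b⁆⁆)
      (act ⁅a, b⁆ f ⁅a, ⁅a, b⁆⁆ + ⁅b, ⁅a, b⁆⁆) ↔ h = f * g := by
  obtain ⟨p, q, q', d, c, hp, hq, hq', hd, hdpq, hpd, hqd, hne⟩ := normal_pair hab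
  set x := ⁅a, b⁆ with hx
  have hyN : ⁅a, x⁆ ∈ LinearMap.range (rb (F := F) x) := ⟨a, by rw [rb_apply]⟩
  have hzN : ⁅b, x⁆ ∈ LinearMap.range (rb (F := F) x) := ⟨b, by rw [rb_apply]⟩
  constructor
  · rintro ⟨-, hr⟩
    obtain ⟨n, hn⟩ := exists_le (act x h ⁅a, x⁆ + act x g ⁅b, x⁆)
    obtain ⟨n', hn'⟩ := exists_le (act x f ⁅a, x⁆ + ⁅b, x⁆)
    obtain ⟨G, H, hGH, he⟩ := euclid hd (n + n') n n' _ _ (le_refl _) hn hn'
      (Submodule.add_mem _ (act_range x h hyN) (act_range x g hzN))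
      (Submodule.add_mem _ (act_range x f hyN) hzN) hr
    have h1 : act x (H * h - G * f) ⁅a, x⁆ + act x (H * g - G) ⁅b, x⁆ = 0 := by
      rw [act_sub, act_sub, act_mul, act_mul, act_mul]
      rw [map_add, map_add] at he
      have : act x H (act x h ⁅a, x⁆) - act x G (act x f ⁅a, x⁆) +
          (act x H (act x g ⁅b, x⁆) - act x G ⁅b, x⁆) =
          (act x H (act x h ⁅a, x⁆) + act x H (act x g ⁅b, x⁆)) -
          (act x G (act x f ⁅a, x⁆) + act x G ⁅b, x⁆) := by abel
      rw [this, he, sub_self]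
    obtain ⟨h2, h3⟩ := indep_yz hab h1
    have h4 : G = H * g := (sub_eq_zero.1 h3).symm
    rw [h4] at h2
    have hH : H ≠ 0 := by
      rintro rfl
      rw [zero_mul] at h4
      rcases hGH with h5 | h5
      · exact h5 h4
      · exact h5 rfl
    have h5 : H * (h - f * g) = 0 := by rw [← h2]; ring
    exact sub_eq_zero.1 ((mul_eq_zero.1 h5).resolve_left hH)
  · rintro rfl
    have h1 : act x (f * g) ⁅a, x⁆ + act x g ⁅b, x⁆ = act x g (act x f ⁅a, x⁆ + ⁅b, x⁆) := by
      rw [map_add, ← act_mul, mul_comm g f]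
    rw [h1]
    apply ee_act
    obtain ⟨v, hv⟩ := Submodule.add_mem _ (act_range x f hyN) hzN
    exact ⟨v, by rw [← hv, rb_apply]⟩

end

end Pool.Agent.Helper967.FL
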