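import Mathlib
import Pool.Agent.Helper967.FL8

set_option autoImplicit false

/-! The Pell equation over `F[s]` and the definition of the integers. -/

namespace Pool.Agent.Helper967.FL

open Polynomial

variable {F : Type*} [Field F] [CharZero F]

theorem pell_int (n : ℕ) : ∀ P Q : F[X], Q.natDegree ≤ n → P ^ 2 - (X ^ 2 - 1) * Q ^ 2 = 1 →
    ∃ m : ℤ, Q.eval 1 = m := by
  induction n using Nat.strong_induction_on with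
  | _ n ih =>
    intro P Q hn h
    by_cases hQ : Q = 0
    · exact ⟨0, by rw [hQ]; simp⟩
    have hP1 : P.eval 1 ^ 2 = 1 := by
      have := congrArg (Polynomial.eval 1) h
      simpa using this
    have hP1' : P.eval 1 = 1 ∨ P.eval 1 = -1 := by
      have h0 : (P.eval 1 - 1) * (P.eval 1 + 1) = 0 := by linear_combination hP1
      rcases mul_eq_zero.1 h0 with h0 | h0
      · exact Or.inl (sub_eq_zero.1 h0)
      · exact Or.inr (eq_neg_of_add_eq_zero_left h0)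
    -- at least one of X * Q + P, X * Q - P has degree at least one more than Q
    have hprod : (X * Q - P) * (X * Q + P) = Q ^ 2 - 1 := by linear_combination -h
    have hsum : (X * Q - P) + (X * Q + P) = C 2 * (X * Q) := by
      rw [show (C 2 : F[X]) = 2 from rfl]; ring
    have hdX : (C (2 : F) * (X * Q)).natDegree = Q.natDegree + 1 := by
      rw [Polynomial.natDegree_C_mul two_ne_zero, Polynomial.natDegree_X_mul hQ]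
    have key : ∀ (A B : F[X]), A * B = Q ^ 2 - 1 → Q.natDegree + 1 ≤ B.natDegree →
        A = 0 ∨ A.natDegree < Q.natDegree := by
      intro A B hAB hB
      by_cases hA : A = 0
      · exact Or.inl hA
      right
      have hB0 : B ≠ 0 := by
        rintro rfl
        rw [Polynomial.natDegree_zero] at hB
        omega
      have h1 := Polynomial.natDegree_mul hA hB0
      have h2 : (Q ^ 2 - 1 : F[X]).natDegree ≤ 2 * Q.natDegree := by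
        refine (Polynomial.natDegree_sub_le _ _).trans ?_
        rw [Polynomial.natDegree_pow, Polynomial.natDegree_one]
        simp
      rw [hAB] at h1
      omega
    have hor : Q.natDegree + 1 ≤ (X * Q + P).natDegree ∨
        Q.natDegree + 1 ≤ (X * Q - P).natDegree := by
      by_contra hc
      push Not at hc
      have := Polynomial.natDegree_add_le (X * Q - P) (X * Q + P)
      rw [hsum, hdX] at this
      have h3 := le_max_iff.1 this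
      omega
    have fin : ∀ A : F[X], (A = 0 ∨ A.natDegree < Q.natDegree) →
        (∃ B, B ^ 2 - (X ^ 2 - 1) * A ^ 2 = 1) → ∃ m : ℤ, A.eval 1 = m := by
      intro A hA hB
      obtain ⟨B, hB⟩ := hB
      rcases hA with hA | hA
      · exact ⟨0, by rw [hA]; simp⟩
      · exact ih A.natDegree (by omega) B A (le_refl _) hB
    rcases hor with h1 | h1
    · obtain ⟨m, hm⟩ := fin (X * Q - P) (key _ _ hprod h1) ⟨X * P - (X ^ 2 - 1) * Q, by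
        linear_combination h⟩
      rw [eval_sub, eval_mul, eval_X, one_mul] at hm
      rcases hP1' with h2 | h2
      · exact ⟨m + 1, by push_cast; rw [← hm, h2]; ring⟩
      · exact ⟨m - 1, by push_cast; rw [← hm, h2]; ring⟩
    · obtain ⟨m, hm⟩ := fin (X * Q + P) (key _ _ (by rw [mul_comm]; exact hprod) h1)
        ⟨X * P + (X ^ 2 - 1) * Q, by linear_combination h⟩
      rw [eval_add, eval_mul, eval_X, one_mul] at hm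
      rcases hP1' with h2 | h2
      · exact ⟨m - 1, by push_cast; rw [← hm, h2]; ring⟩
      · exact ⟨m + 1, by push_cast; rw [← hm, h2]; ring⟩

theorem pell_nat (n : ℕ) : ∃ P Q : F[X], P ^ 2 - (X ^ 2 - 1) * Q ^ 2 = 1 ∧ Q.eval 1 = n ∧
    P.eval 1 = 1 := by
  induction n with
  | zero => exact ⟨1, 0, by ring, by simp, by simp⟩
  | succ n ih =>
    obtain ⟨P, Q, h1, h2, h3⟩ := ih
    refine ⟨X * P + (X ^ 2 - 1) * Q, X * Q + P, by linear_combination h1, ?_, ?_⟩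
    · simp [h2, h3]
    · simp [h3]

theorem exists_pell (n : ℤ) : ∃ P Q : F[X], P ^ 2 - (X ^ 2 - 1) * Q ^ 2 = 1 ∧ Q.eval 1 = n := by
  rcases Int.eq_nat_or_neg n with ⟨m, rfl | rfl⟩
  · obtain ⟨P, Q, h1, h2, -⟩ := pell_nat (F := F) m
    exact ⟨P, Q, h1, by rw [h2]; simp⟩
  · obtain ⟨P, Q, h1, h2, -⟩ := pell_nat (F := F) m
    exact ⟨P, -Q, by linear_combination h1, by simp [h2]⟩

variable {V : Type*}

/-- the three equations of the relation, with explicit witnesses -/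
def E3 (x u y u' v w : FreeLieAlgebra F V) : Prop :=
  u = ⁅u', x⁆ ∧ ⁅u, y⁆ = ⁅v, x⁆ ∧ ⁅u, ⁅⁅y, x⁆, x⁆⁆ = ⁅w, x⁆

omit [CharZero F] in
theorem ee_iff (x u y : FreeLieAlgebra F V) : EE x u y ↔ ∃ u' v w, E3 x u y u' v w := by
  constructor
  · rintro ⟨⟨u', h1⟩, ⟨v, h2⟩, w, h3⟩
    exact ⟨u', v, w, h1, h2, h3⟩
  · rintro ⟨u', v, w, h1, h2, h3⟩
    exact ⟨⟨u', h1⟩, ⟨v, h2⟩, w, h3⟩

/-- the block of equations expressing that `c` is an integer; `W` lists the witnesses -/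
def Blk (a b : FreeLieAlgebra F V) (c : F) (W : ℕ → FreeLieAlgebra F V) : Prop :=
  E3 ⁅a, b⁆ (W 0) ⁅a, ⁅a, b⁆⁆ (W 7) (W 8) (W 9) ∧
  E3 ⁅a, b⁆ (W 1) ⁅b, ⁅a, b⁆⁆ (W 10) (W 11) (W 12) ∧
  E3 ⁅a, b⁆ (W 0 + W 1) (⁅a, ⁅a, b⁆⁆ + ⁅b, ⁅a, b⁆⁆) (W 13) (W 14) (W 15) ∧
  E3 ⁅a, b⁆ (W 2) ⁅a, ⁅a, b⁆⁆ (W 16) (W 17) (W 18) ∧
  E3 ⁅a, b⁆ (W 3) ⁅b, ⁅a, b⁆⁆ (W 19) (W 20) (W 21) ∧
  E3 ⁅a, b⁆ (W 2 + W 3) (⁅a, ⁅a, b⁆⁆ + ⁅b, ⁅a, b⁆⁆) (W 22) (W 23) (W 24) ∧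
  E3 ⁅a, b⁆ (W 4) ⁅a, ⁅a, b⁆⁆ (W 25) (W 26) (W 27) ∧
  E3 ⁅a, b⁆ (W 4 + W 1) (W 0 + ⁅b, ⁅a, b⁆⁆) (W 28) (W 29) (W 30) ∧
  E3 ⁅a, b⁆ (W 5) ⁅a, ⁅a, b⁆⁆ (W 31) (W 32) (W 33) ∧
  E3 ⁅a, b⁆ (W 5 + W 3) (W 2 + ⁅b, ⁅a, b⁆⁆) (W 34) (W 35) (W 36) ∧
  E3 ⁅a, b⁆ (W 6) ⁅a, ⁅a, b⁆⁆ (W 37) (W 38) (W 39) ∧
  W 4 + W 5 = ⁅a, ⁅a, b⁆⁆ + ⁅⁅⁅⁅W 5, ⁅a, b⁆⁆, ⁅a, b⁆⁆, ⁅a, b⁆⁆, ⁅a, b⁆⁆ ∧
  W 2 + W 6 = c • ⁅a, ⁅a, b⁆⁆ + ⁅⁅W 6, ⁅a, b⁆⁆, ⁅a, b⁆⁆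

theorem act_inj {a b : FreeLieAlgebra F V} (hab : ⁅a, b⁆ ≠ 0) {f g : F[X]}
    (h : act ⁅a, b⁆ f ⁅a, ⁅a, b⁆⁆ = act ⁅a, b⁆ g ⁅a, ⁅a, b⁆⁆) : f = g := by
  have h1 : act ⁅a, b⁆ (f - g) ⁅a, ⁅a, b⁆⁆ + act ⁅a, b⁆ 0 ⁅b, ⁅a, b⁆⁆ = 0 := by
    rw [act_sub, act_zero, h, sub_self, add_zero]
  exact sub_eq_zero.1 (indep_yz hab h1).1

theorem blk_int {a b : FreeLieAlgebra F V} (hab : ⁅a, b⁆ ≠ 0) {c : F}
    {W : ℕ → FreeLieAlgebra F V} (h : Blk a b c W) : ∃ n : ℤ, c = n := by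
  obtain ⟨h1, h2, h3, h4, h5, h6, h7, h8, h9, h10, h11, h12, h13⟩ := h
  obtain ⟨P, hP⟩ := ee_left hab ((ee_iff _ _ _).2 ⟨_, _, _, h1⟩)
  obtain ⟨P', hP'⟩ := ee_right hab ((ee_iff _ _ _).2 ⟨_, _, _, h2⟩)
  obtain ⟨Q, hQ⟩ := ee_left hab ((ee_iff _ _ _).2 ⟨_, _, _, h4⟩)
  obtain ⟨Q', hQ'⟩ := ee_right hab ((ee_iff _ _ _).2 ⟨_, _, _, h5⟩)
  obtain ⟨R, hR⟩ := ee_left hab ((ee_iff _ _ _).2 ⟨_, _, _, h7⟩)
  obtain ⟨T, hT⟩ := ee_left hab ((ee_iff _ _ _).2 ⟨_, _, _, h9⟩)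
  obtain ⟨Z, hZ⟩ := ee_left hab ((ee_iff _ _ _).2 ⟨_, _, _, h11⟩)
  have e3 := (ee_iff _ _ _).2 ⟨_, _, _, h3⟩
  rw [hP, hP', show ⁅a, ⁅a, b⁆⁆ + ⁅b, ⁅a, b⁆⁆ = act ⁅a, b⁆ 1 ⁅a, ⁅a, b⁆⁆ + ⁅b, ⁅a, b⁆⁆ by
    rw [act_one], ee_mul hab, one_mul] at e3
  have e6 := (ee_iff _ _ _).2 ⟨_, _, _, h6⟩
  rw [hQ, hQ', show ⁅a, ⁅a, b⁆⁆ + ⁅b, ⁅a, b⁆⁆ = act ⁅a, b⁆ 1 ⁅a, ⁅a, b⁆⁆ + ⁅b, ⁅a, b⁆⁆ by
    rw [act_one], ee_mul hab, one_mul] at e6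
  have e8 := (ee_iff _ _ _).2 ⟨_, _, _, h8⟩
  rw [hR, hP', hP, ee_mul hab] at e8
  have e10 := (ee_iff _ _ _).2 ⟨_, _, _, h10⟩
  rw [hT, hQ', hQ, ee_mul hab] at e10
  subst e3 e6
  have e12 : R + T = 1 + X ^ 2 * T := by
    apply act_inj hab
    rw [act_add, ← hR, ← hT, h12, act_add, act_one, act_mul, ← hT, pow_two, act_mul, act_X, act_X]
  have e13 : Q + Z = C c + X * Z := by
    apply act_inj hab
    rw [act_add, ← hQ, ← hZ, h13, act_add, act_C, act_mul, ← hZ, act_X]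
  have hpell : P ^ 2 - (X ^ 2 - 1) * Q ^ 2 = 1 := by
    rw [e8, e10] at e12
    linear_combination e12
  obtain ⟨n, hn⟩ := pell_int _ P Q (le_refl _) hpell
  refine ⟨n, ?_⟩
  have := congrArg (Polynomial.eval 1) e13
  simp only [eval_add, eval_mul, eval_C, eval_X, one_mul] at this
  rw [hn] at this
  exact (add_right_cancel this).symm

theorem int_blk {a b : FreeLieAlgebra F V} (hab : ⁅a, b⁆ ≠ 0) (n : ℤ) :
    ∃ W : ℕ → FreeLieAlgebra F V, Blk a b (n : F) W := by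
  obtain ⟨P, Q, hPQ, hQ1⟩ := exists_pell (F := F) n
  obtain ⟨Z, hZ⟩ : ∃ Z : F[X], Q - C (n : F) = (X - 1) * Z := by
    have : (X - C (1 : F)) ∣ Q - C (n : F) := by
      rw [Polynomial.dvd_iff_isRoot, Polynomial.IsRoot, eval_sub, eval_C, hQ1, sub_self]
    obtain ⟨Z, hZ⟩ := this
    exact ⟨Z, by rw [hZ, map_one]⟩
  set x := ⁅a, b⁆ with hx
  have hy : ∃ y' : FreeLieAlgebra F V, ⁅a, x⁆ = ⁅y', x⁆ := ⟨a, rfl⟩
  have hz : ∃ y' : FreeLieAlgebra F V, ⁅b, x⁆ = ⁅y', x⁆ := ⟨b, rfl⟩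
  have f1 : EE x (act x P ⁅a, x⁆) ⁅a, x⁆ := ee_act hy P
  have f2 : EE x (act x P ⁅b, x⁆) ⁅b, x⁆ := ee_act hz P
  have f3 : EE x (act x P ⁅a, x⁆ + act x P ⁅b, x⁆) (⁅a, x⁆ + ⁅b, x⁆) := by
    have := (ee_mul hab 1 P P).2 (by rw [one_mul])
    rwa [act_one] at this
  have f4 : EE x (act x Q ⁅a, x⁆) ⁅a, x⁆ := ee_act hy Q
  have f5 : EE x (act x Q ⁅b, x⁆) ⁅b, x⁆ := ee_act hz Q
  have f6 : EE x (act x Q ⁅a, x⁆ + act x Q ⁅b, x⁆) (⁅a, x⁆ + ⁅b, x⁆) := by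
    have := (ee_mul hab 1 Q Q).2 (by rw [one_mul])
    rwa [act_one] at this
  have f7 : EE x (act x (P * P) ⁅a, x⁆) ⁅a, x⁆ := ee_act hy _
  have f8 : EE x (act x (P * P) ⁅a, x⁆ + act x P ⁅b, x⁆) (act x P ⁅a, x⁆ + ⁅b, x⁆) :=
    (ee_mul hab P P (P * P)).2 rfl
  have f9 : EE x (act x (Q * Q) ⁅a, x⁆) ⁅a, x⁆ := ee_act hy _
  have f10 : EE x (act x (Q * Q) ⁅a, x⁆ + act x Q ⁅b, x⁆) (act x Q ⁅a, x⁆ + ⁅b, x⁆) :=
    (ee_mul hab Q Q (Q * Q)).2 rfl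
  have f11 : EE x (act x Z ⁅a, x⁆) ⁅a, x⁆ := ee_act hy _
  rw [ee_iff] at f1 f2 f3 f4 f5 f6 f7 f8 f9 f10 f11
  obtain ⟨w7, w8, w9, g1⟩ := f1
  obtain ⟨w10, w11, w12, g2⟩ := f2
  obtain ⟨w13, w14, w15, g3⟩ := f3
  obtain ⟨w16, w17, w18, g4⟩ := f4
  obtain ⟨w19, w20, w21, g5⟩ := f5
  obtain ⟨w22, w23, w24, g6⟩ := f6
  obtain ⟨w25, w26, w27, g7⟩ := f7
  obtain ⟨w28, w29, w30, g8⟩ := f8
  obtain ⟨w31, w32, w33, g9⟩ := f9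
  obtain ⟨w34, w35, w36, g10⟩ := f10
  obtain ⟨w37, w38, w39, g11⟩ := f11
  refine ⟨fun j => [act x P ⁅a, x⁆, act x P ⁅b, x⁆, act x Q ⁅a, x⁆, act x Q ⁅b, x⁆,
    act x (P * P) ⁅a, x⁆, act x (Q * Q) ⁅a, x⁆, act x Z ⁅a, x⁆, w7, w8, w9, w10, w11, w12, w13,
    w14, w15, w16, w17, w18, w19, w20, w21, w22, w23, w24, w25, w26, w27, w28, w29, w30, w31, w32,
    w33, w34, w35, w36, w37, w38, w39].getD j 0, g1, g2, g3, g4, g5, g6, g7, g8, g9, g10, g11,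
    ?_, ?_⟩
  · change act x (P * P) ⁅a, x⁆ + act x (Q * Q) ⁅a, x⁆ =
      ⁅a, x⁆ + ⁅⁅⁅⁅act x (Q * Q) ⁅a, x⁆, x⁆, x⁆, x⁆, x⁆
    rw [← act_X, ← act_X, ← act_mul, ← act_mul, ← act_add]
    have : P * P + Q * Q = 1 + X * X * (Q * Q) := by linear_combination hPQ
    rw [this, act_add, act_one]
  · change act x Q ⁅a, x⁆ + act x Z ⁅a, x⁆ = (n : F) • ⁅a, x⁆ + ⁅⁅act x Z ⁅a, x⁆, x⁆, x⁆
    rw [← act_X, ← act_mul, ← act_C, ← act_add, ← act_add]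
    have : Q + Z = C (n : F) + X * Z := by linear_combination hZ
    rw [this]

end Pool.Agent.Helper967.FL
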