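import Mathlib
import Pool.Agent.Helper967.FL9
import Pool.Agent.Helper967.FLDefs
import Pool.Agent.Helper967.DxSys

set_option autoImplicit false

/-! Undecidability of the universal theory of free Lie algebras in characteristic zero. -/

namespace Pool.Agent.Helper967.FL

open Pool.Agent.Helper967.Dio Pool.Agent.Helper967.Dio.Sys

/-- numerals -/
def num : ℕ → FTerm
  | 0 => FTerm.zero
  | n + 1 => FTerm.add (num n) FTerm.one

theorem num_val {F : Type*} [Field F] (e : ℕ → F) (n : ℕ) : (num n).val e = n := by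
  induction n with
  | zero => simp [num, FTerm.val]
  | succ n ih => simp [num, FTerm.val, ih]

/-- the three equations of the relation -/
def e3f (x u y u' v w : LTerm) : LForm :=
  .and (.eqL u (.lie u' x)) (.and (.eqL (.lie u y) (.lie v x))
    (.eqL (.lie u (.lie (.lie y x) x)) (.lie w x)))

/-- the block formula -/
def blkf (a b : LTerm) (c : FTerm) (W : ℕ → LTerm) : LForm :=
  .and (e3f (.lie a b) (W 0) (.lie a (.lie a b)) (W 7) (W 8) (W 9)) <|
  .and (e3f (.lie a b) (W 1) (.lie b (.lie a b)) (W 10) (W 11) (W 12)) <|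
  .and (e3f (.lie a b) (.add (W 0) (W 1)) (.add (.lie a (.lie a b)) (.lie b (.lie a b)))
    (W 13) (W 14) (W 15)) <|
  .and (e3f (.lie a b) (W 2) (.lie a (.lie a b)) (W 16) (W 17) (W 18)) <|
  .and (e3f (.lie a b) (W 3) (.lie b (.lie a b)) (W 19) (W 20) (W 21)) <|
  .and (e3f (.lie a b) (.add (W 2) (W 3)) (.add (.lie a (.lie a b)) (.lie b (.lie a b)))
    (W 22) (W 23) (W 24)) <|
  .and (e3f (.lie a b) (W 4) (.lie a (.lie a b)) (W 25) (W 26) (W 27)) <|
  .and (e3f (.lie a b) (.add (W 4) (W 1)) (.add (W 0) (.lie b (.lie a b)))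
    (W 28) (W 29) (W 30)) <|
  .and (e3f (.lie a b) (W 5) (.lie a (.lie a b)) (W 31) (W 32) (W 33)) <|
  .and (e3f (.lie a b) (.add (W 5) (W 3)) (.add (W 2) (.lie b (.lie a b)))
    (W 34) (W 35) (W 36)) <|
  .and (e3f (.lie a b) (W 6) (.lie a (.lie a b)) (W 37) (W 38) (W 39)) <|
  .and (.eqL (.add (W 4) (W 5)) (.add (.lie a (.lie a b))
    (.lie (.lie (.lie (.lie (W 5) (.lie a b)) (.lie a b)) (.lie a b)) (.lie a b))))
  (.eqL (.add (W 2) (W 6)) (.add (.smul c (.lie a (.lie a b)))
    (.lie (.lie (W 6) (.lie a b)) (.lie a b))))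

theorem blkf_holds {F : Type*} [Field F] {V : Type*} (e : ℕ → F) (g : ℕ → FreeLieAlgebra F V)
    (a b : LTerm) (c : FTerm) (W : ℕ → LTerm) :
    (blkf a b c W).Holds e g ↔ Blk (a.val e g) (b.val e g) (c.val e) (fun j => (W j).val e g) :=
  Iff.rfl

/-- conjunction of a list -/
def conj : List LForm → LForm
  | [] => .eqF .zero .zero
  | p :: l => .and p (conj l)

theorem conj_holds {F L : Type*} [Field F] [LieRing L] [LieAlgebra F L] (e : ℕ → F) (g : ℕ → L)
    (l : List LForm) : (conj l).Holds e g ↔ ∀ p ∈ l, p.Holds e g := by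
  induction l with
  | nil => simp [conj, LForm.Holds]
  | cons p l ih => simp [conj, LForm.Holds, ih]

/-- side of an integral quadratic equation -/
def side (i j k l m : ℕ) (e a b c d : ℤ) : FTerm :=
  .add (.mul (num e.toNat) (.mul (.var i) (.var j))) (.add (.mul (num a.toNat) (.var k))
    (.add (.mul (num b.toNat) (.var l)) (.add (.mul (num c.toNat) (.var m)) (num d.toNat))))

/-- the formula of an integral quadratic equation -/
def eqnf {V : Type} (ix : V → ℕ) (q : Eqn V) : LForm :=
  .eqF (side (ix q.i) (ix q.j) (ix q.k) (ix q.l) (ix q.m) q.e q.a q.b q.c q.d)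
    (side (ix q.i) (ix q.j) (ix q.k) (ix q.l) (ix q.m) (-q.e) (-q.a) (-q.b) (-q.c) (-q.d))

theorem eqnf_holds {F L : Type*} [Field F] [CharZero F] [LieRing L] [LieAlgebra F L] (e : ℕ → F)
    (g : ℕ → L) {V : Type} (ix : V → ℕ) (x : V → ℤ) (hx : ∀ v, e (ix v) = (x v : F)) (q : Eqn V) :
    (eqnf ix q).Holds e g ↔ q.Holds x := by
  have h : ∀ n : ℤ, ((n.toNat : ℕ) : F) - (((-n).toNat : ℕ) : F) = (n : F) := by
    intro n
    have h1 : ((n.toNat : ℤ) - ((-n).toNat : ℤ) : ℤ) = n := Int.toNat_sub_toNat_neg n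
    have h2 : (((n.toNat : ℤ) - ((-n).toNat : ℤ) : ℤ) : F) = (n : F) := by rw [h1]
    push_cast at h2
    exact h2
  simp only [eqnf, LForm.Holds, side, FTerm.val, num_val, hx, Eqn.Holds]
  rw [← sub_eq_zero, ← Int.cast_inj (α := F)]
  push_cast
  rw [← h q.e, ← h q.a, ← h q.b, ← h q.c, ← h q.d]
  constructor
  · intro h'; linear_combination h'
  · intro h'; linear_combination h'

/-- two distinct letters do not commute -/
theorem exists_noncomm (F : Type*) [Field F] (V : Type*) [Nontrivial V] :
    ∃ a b : FreeLieAlgebra F V, ⁅a, b⁆ ≠ 0 := by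
  classical
  obtain ⟨x, y, hxy⟩ := exists_pair_ne V
  refine ⟨FreeLieAlgebra.of F x, FreeLieAlgebra.of F y, fun h => ?_⟩
  have h1 := congrArg (iota (F := F)) h
  rw [iota_lie, map_zero, iota_of, iota_of, sub_eq_zero] at h1
  have h2 : (wd (FreeMonoid.of x * FreeMonoid.of y) : FA F V) =
      wd (FreeMonoid.of y * FreeMonoid.of x) := by
    rw [wd_mul, wd_mul]; exact h1
  have h3 := congrArg (fun a : FA F V => a.coeff (FreeMonoid.of x * FreeMonoid.of y)) h2
  simp only [wd_coeff, if_true] at h3
  rw [if_neg] at h3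
  · exact one_ne_zero h3
  · intro h4
    exact hxy (of_mul_inj h4).1.symm

/-- the fixed part of the formula -/
noncomputable def fixedf {V : Type} [Fintype V] (ix : V → ℕ) (L : List (Eqn V)) : LForm :=
  .and (.not (.eqL (.lie (.var (Nat.pair 0 0)) (.var (Nat.pair 0 1))) .zero))
    (.and (conj (Finset.univ.toList.map fun v : V => blkf (.var (Nat.pair 0 0))
      (.var (Nat.pair 0 1)) (.var (ix v)) (fun j => .var (Nat.pair (ix v + 1) j))))
      (conj (L.map (eqnf ix))))

/-- the parametrised formula -/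
noncomputable def paramf {V : Type} [Fintype V] (ix : V → ℕ) (f : V) (L : List (Eqn V)) (n : ℕ) :
    LForm :=
  .and (fixedf ix L) (.eqF (.add (num (4 * n)) (.var (ix f))) .one)

theorem paramf_sat {F : Type*} [Field F] [CharZero F] {X : Type*} [Nontrivial X] {V : Type}
    [Fintype V] (ix : V → ℕ) (hix : Function.Injective ix) (f : V) (L : List (Eqn V)) (n : ℕ) :
    (∃ (e : ℕ → F) (g : ℕ → FreeLieAlgebra F X), (paramf ix f L n).Holds e g) ↔
      ∃ x : V → ℤ, x f = 1 - 4 * n ∧ ∀ q ∈ L, q.Holds x := by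
  constructor
  · rintro ⟨e, g, ⟨h1, h2, h3⟩, h4⟩
    rw [conj_holds] at h2 h3
    have h5 : ∀ v : V, ∃ m : ℤ, e (ix v) = m := by
      intro v
      have := h2 _ (List.mem_map_of_mem (Finset.mem_toList.2 (Finset.mem_univ v)))
      rw [blkf_holds] at this
      exact blk_int h1 this
    choose x hx using h5
    refine ⟨x, ?_, ?_⟩
    · have h6 : ((4 * n : ℕ) : F) + e (ix f) = 1 := by
        rw [← num_val e]; exact h4
      rw [hx f] at h6
      have h7 : (((4 * n : ℕ) : ℤ) + x f : ℤ) = 1 := by
        have : (((((4 * n : ℕ) : ℤ) + x f : ℤ)) : F) = ((1 : ℤ) : F) := by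
          push_cast
          push_cast at h6
          exact h6
        exact_mod_cast this
      push_cast at h7
      linarith
    · intro q hq
      rw [← eqnf_holds e g ix x hx q]
      exact h3 _ (List.mem_map_of_mem hq)
  · rintro ⟨x, hf, hx⟩
    obtain ⟨a, b, hab⟩ := exists_noncomm F X
    choose W hW using fun n : ℤ => int_blk (F := F) hab n
    classical
    have hex : ∃ e : ℕ → F, ∀ v, e (ix v) = (x v : F) :=
      ⟨Function.extend ix (fun v => (x v : F)) 0, fun v => hix.extend_apply _ _ _⟩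
    obtain ⟨e, he⟩ := hex
    have hexg : ∃ G : ℕ → ℕ → FreeLieAlgebra F X, ∀ v, G (ix v) = W (x v) :=
      ⟨Function.extend ix (fun v => W (x v)) 0, fun v => hix.extend_apply _ _ _⟩
    obtain ⟨G, hG⟩ := hexg
    let g : ℕ → FreeLieAlgebra F X := fun m =>
      match m.unpair.1 with
      | 0 => if m.unpair.2 = 0 then a else b
      | i + 1 => G i m.unpair.2
    have g00 : g (Nat.pair 0 0) = a := by simp [g]
    have g01 : g (Nat.pair 0 1) = b := by simp [g]
    have gij : ∀ i j, g (Nat.pair (i + 1) j) = G i j := by intro i j; simp [g]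
    refine ⟨e, g, ⟨?_, ?_, ?_⟩, ?_⟩
    · change ¬ (⁅g (Nat.pair 0 0), g (Nat.pair 0 1)⁆ = 0)
      rw [g00, g01]; exact hab
    · rw [conj_holds]
      intro p hp
      rw [List.mem_map] at hp
      obtain ⟨v, -, rfl⟩ := hp
      rw [blkf_holds]
      change Blk (g (Nat.pair 0 0)) (g (Nat.pair 0 1)) (e (ix v))
        (fun j => g (Nat.pair (ix v + 1) j))
      rw [g00, g01, he]
      simp only [gij, hG]
      exact hW (x v)
    · rw [conj_holds]
      intro p hp
      rw [List.mem_map] at hp
      obtain ⟨q, hq, rfl⟩ := hp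
      rw [eqnf_holds e g ix x he q]
      exact hx q hq
    · change (num (4 * n)).val e + e (ix f) = 1
      rw [num_val, he, hf]
      push_cast
      ring

/-- codes of numerals -/
theorem primrec_num : Primrec fun n => (num n).code := by
  have h : Primrec (Nat.rec (motive := fun _ => ℕ) (Nat.pair 1 0)
      (fun _ c => Nat.pair 3 (Nat.pair c (Nat.pair 2 0)))) := by
    refine Primrec.nat_rec₁ _ ?_
    exact Primrec₂.natPair.comp₂ (Primrec₂.const 3)
      (Primrec₂.natPair.comp₂ Primrec₂.right (Primrec₂.const (Nat.pair 2 0)))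
  refine h.of_eq fun n => ?_
  induction n with
  | zero => rfl
  | succ n ih =>
    change Nat.pair 3 (Nat.pair _ (Nat.pair 2 0)) = _
    rw [ih]; rfl

theorem primrec_param {V : Type} [Fintype V] (ix : V → ℕ) (f : V) (L : List (Eqn V)) :
    Primrec fun n => (LForm.not (paramf ix f L n)).code := by
  have h : Primrec fun n : ℕ => Nat.pair 2 (Nat.pair 3 (Nat.pair (fixedf ix L).code
      (Nat.pair 0 (Nat.pair (Nat.pair 3 (Nat.pair (num (4 * n)).code (FTerm.var (ix f)).code))
        FTerm.one.code)))) := by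
    have h1 : Primrec fun n : ℕ => (num (4 * n)).code :=
      primrec_num.comp (Primrec.nat_mul.comp (Primrec.const 4) Primrec.id)
    refine Primrec₂.natPair.comp (Primrec.const _) ?_
    refine Primrec₂.natPair.comp (Primrec.const _) ?_
    refine Primrec₂.natPair.comp (Primrec.const _) ?_
    refine Primrec₂.natPair.comp (Primrec.const _) ?_
    refine Primrec₂.natPair.comp ?_ (Primrec.const _)
    refine Primrec₂.natPair.comp (Primrec.const _) ?_
    exact Primrec₂.natPair.comp h1 (Primrec.const _)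
  exact h

/-- The universal theory of a noncommutative free Lie algebra over a field of characteristic zero
is undecidable. -/
theorem lie_undecidable (F : Type*) [Field F] [CharZero F] (X : Type*) [Nontrivial X] :
    ¬ LieUniversalTheoryDecidable F (FreeLieAlgebra F X) := by
  rintro ⟨dec, hdec, hspec⟩
  -- an undecidable recursively enumerable set of natural numbers
  obtain ⟨S, hre, hnc⟩ : ∃ S : ℕ → Prop, REPred S ∧ ¬ ComputablePred S := by
    refine ⟨fun n => ∃ c : Nat.Partrec.Code, Encodable.decode (α := Nat.Partrec.Code) n = some c ∧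
      (c.eval 0).Dom, ?_, ?_⟩
    · have h := ComputablePred.halting_problem_re 0
      have h2 : Partrec fun n : ℕ => (Part.ofOption (Encodable.decode (α := Nat.Partrec.Code) n)).bind
          (fun c => Part.assert (c.eval 0).Dom fun _ => Part.some ()) :=
        (Computable.decode.ofOption).bind (Partrec.comp h Computable.snd).to₂
      refine h2.of_eq fun n => ?_
      ext u
      simp
    · intro hc
      apply ComputablePred.halting_problem 0
      obtain ⟨hd, hcomp⟩ := hc
      have h3 : ComputablePred fun c : Nat.Partrec.Code =>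
          ∃ c' : Nat.Partrec.Code, Encodable.decode (α := Nat.Partrec.Code) (Encodable.encode c) =
            some c' ∧ (c'.eval 0).Dom := ⟨fun c => hd _, hcomp.comp Computable.encode⟩
      refine h3.of_eq fun c => ?_
      simp
  obtain ⟨V, hV, f, L, hL⟩ := exists_system S (dprm hre)
  let ix : V → ℕ := fun v => (Fintype.equivFin V v : ℕ)
  have hix : Function.Injective ix := fun a b h =>
    (Fintype.equivFin V).injective (Fin.ext h)
  have key : ∀ n, S n ↔ ¬ (dec (LForm.not (paramf ix f L n)).code = true) := by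
    intro n
    rw [hspec]
    constructor
    · intro hn h
      obtain ⟨x, hx1, hx2⟩ := (hL (1 - 4 * n)).2 ⟨n, hn, rfl⟩
      obtain ⟨e, g, heg⟩ := (paramf_sat (F := F) (X := X) ix hix f L n).2 ⟨x, hx1, hx2⟩
      exact h e g heg
    · intro h
      push Not at h
      obtain ⟨e, g, heg⟩ := h
      have heg' : (paramf ix f L n).Holds e g := not_not.1 heg
      obtain ⟨x, hx1, hx2⟩ := (paramf_sat (F := F) (X := X) ix hix f L n).1 ⟨e, g, heg'⟩
      obtain ⟨n', hn', he⟩ := (hL (1 - 4 * n)).1 ⟨x, hx1, hx2⟩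
      have : (n : ℤ) = n' := by linarith
      rw [Nat.cast_inj.1 this]
      exact hn'
  apply hnc
  classical
  refine ComputablePred.computable_iff.2 ⟨fun n => !(dec (LForm.not (paramf ix f L n)).code), ?_, ?_⟩
  · exact Primrec.not.to_comp.comp (hdec.comp (primrec_param ix f L).to_comp)
  · funext n
    rw [key]
    simp

end Pool.Agent.Helper967.FL
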