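import Mathlib

set_option autoImplicit false

/-! Portraits of automorphisms of the rooted binary tree. -/

namespace Pool.Agent.Helper967.GG

/-- portraits: the bit at a vertex says whether the automorphism swaps its two children -/
def Port : Type := List Bool → Bool

namespace Port

/-- section at a child of the root -/
def sec (i : Bool) (P : Port) : Port := fun w => P (i :: w)

/-- the swap bit at the root -/
def ep (P : Port) : Bool := P []

@[ext] theorem ext {P Q : Port} (h : ∀ w, P w = Q w) : P = Q := funext h

theorem ext' {P Q : Port} (h : P.ep = Q.ep) (h0 : P.sec false = Q.sec false)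
    (h1 : P.sec true = Q.sec true) : P = Q := by
  apply funext
  intro w
  match w with
  | [] => exact h
  | false :: w => exact congrFun h0 w
  | true :: w => exact congrFun h1 w

/-- the portrait with given swap bit and sections -/
def mk (e : Bool) (P Q : Port) : Port
  | [] => e
  | false :: w => P w
  | true :: w => Q w

@[simp] theorem ep_mk (e : Bool) (P Q : Port) : (mk e P Q).ep = e := rfl
@[simp] theorem sec0_mk (e : Bool) (P Q : Port) : (mk e P Q).sec false = P := rfl
@[simp] theorem sec1_mk (e : Bool) (P Q : Port) : (mk e P Q).sec true = Q := rfl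

theorem eta (P : Port) : mk P.ep (P.sec false) (P.sec true) = P := ext' rfl rfl rfl

/-- action on vertices -/
def act (P : Port) : List Bool → List Bool
  | [] => []
  | i :: w => xor i P.ep :: act (P.sec i) w

/-- inverse action -/
def ica (P : Port) : List Bool → List Bool
  | [] => []
  | i :: w => xor i P.ep :: ica (P.sec (xor i P.ep)) w

theorem ica_act (P : Port) (w : List Bool) : P.ica (P.act w) = w := by
  induction w generalizing P with
  | nil => rfl
  | cons i w ih =>
    simp only [act, ica]
    rw [Bool.xor_assoc, Bool.xor_self, Bool.xor_false, ih]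

theorem act_ica (P : Port) (w : List Bool) : P.act (P.ica w) = w := by
  induction w generalizing P with
  | nil => rfl
  | cons i w ih =>
    simp only [act, ica]
    rw [Bool.xor_assoc, Bool.xor_self, Bool.xor_false, ih]

/-- composition -/
def mulP (P Q : Port) : Port := fun w => xor (P (Q.act w)) (Q w)

theorem act_mulP (P Q : Port) (w : List Bool) : (mulP P Q).act w = P.act (Q.act w) := by
  induction w generalizing P Q with
  | nil => rfl
  | cons i w ih =>
    have h2 : (mulP P Q).sec i = mulP (P.sec (xor i Q.ep)) (Q.sec i) := rfl
    simp only [act]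
    rw [h2, ih]
    have h1 : (mulP P Q).ep = xor P.ep Q.ep := rfl
    rw [h1]
    congr 1
    cases i <;> cases P.ep <;> cases Q.ep <;> rfl

instance : Mul Port := ⟨mulP⟩
instance : One Port := ⟨fun _ => false⟩
instance : Inv Port := ⟨fun P w => P (P.ica w)⟩

theorem mul_apply (P Q : Port) (w : List Bool) : (P * Q) w = xor (P (Q.act w)) (Q w) := rfl
theorem one_apply (w : List Bool) : (1 : Port) w = false := rfl
theorem inv_apply (P : Port) (w : List Bool) : P⁻¹ w = P (P.ica w) := rfl
theorem act_mul (P Q : Port) (w : List Bool) : (P * Q).act w = P.act (Q.act w) := act_mulP P Q w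

@[simp] theorem sec_one (i : Bool) : (1 : Port).sec i = 1 := rfl
@[simp] theorem ep_one : (1 : Port).ep = false := rfl
@[simp] theorem act_nil (P : Port) : P.act [] = [] := rfl
theorem act_cons (P : Port) (i : Bool) (w : List Bool) :
    P.act (i :: w) = xor i P.ep :: (P.sec i).act w := rfl

@[simp] theorem act_one (w : List Bool) : (1 : Port).act w = w := by
  induction w with
  | nil => rfl
  | cons i w ih => simp [act_cons, ih]

instance : Group Port where
  mul_assoc P Q R := by
    funext w
    simp only [mul_apply, act_mul, Bool.xor_assoc]
  one_mul P := by funext w; simp [mul_apply, one_apply]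
  mul_one P := by funext w; simp [mul_apply, one_apply]
  inv_mul_cancel P := by
    funext w
    rw [mul_apply, inv_apply, ica_act, Bool.xor_self]
    rfl

@[simp] theorem ep_mul (P Q : Port) : (P * Q).ep = xor P.ep Q.ep := rfl
theorem sec_mul (i : Bool) (P Q : Port) : (P * Q).sec i = P.sec (xor i Q.ep) * Q.sec i := rfl

@[simp] theorem ep_inv (P : Port) : (P⁻¹).ep = P.ep := rfl

theorem sec_inv (i : Bool) (P : Port) : (P⁻¹).sec i = (P.sec (xor i P.ep))⁻¹ := rfl

theorem act_inv (P : Port) (w : List Bool) : (P⁻¹).act w = P.ica w := by
  have h : P.act ((P⁻¹).act w) = w := by rw [← act_mul, mul_inv_cancel, act_one]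
  have := P.ica_act ((P⁻¹).act w)
  rw [h] at this
  exact this.symm

theorem act_injective (P : Port) : Function.Injective P.act := by
  intro v w h
  have := congrArg P.ica h
  rwa [ica_act, ica_act] at this

theorem act_length (P : Port) (w : List Bool) : (P.act w).length = w.length := by
  induction w generalizing P with
  | nil => rfl
  | cons i w ih => simp [act_cons, ih]

theorem eq_of_act {P Q : Port} (h : ∀ w, P.act w = Q.act w) : P = Q := by
  have key : ∀ (w : List Bool) (P Q : Port), (∀ w, P.act w = Q.act w) → P w = Q w := by
    intro w
    induction w with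
    | nil =>
      intro P Q h
      have := h [false]
      simp [act_cons] at this
      exact this
    | cons i w ih =>
      intro P Q h
      have h1 : ∀ w, (P.sec i).act w = (Q.sec i).act w := by
        intro w
        have := h (i :: w)
        rw [act_cons, act_cons] at this
        exact (List.cons.inj this).2
      exact ih (P.sec i) (Q.sec i) h1
  exact funext fun w => key w P Q h

/-- iterated section -/
def secs : List Bool → Port → Port
  | [], P => P
  | i :: w, P => secs w (P.sec i)

@[simp] theorem secs_nil (P : Port) : secs [] P = P := rfl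
@[simp] theorem secs_cons (i : Bool) (w : List Bool) (P : Port) :
    secs (i :: w) P = secs w (P.sec i) := rfl

theorem secs_mul (w : List Bool) (P Q : Port) :
    secs w (P * Q) = secs (Q.act w) P * secs w Q := by
  induction w generalizing P Q with
  | nil => rfl
  | cons i w ih => rw [secs_cons, sec_mul, ih, act_cons, secs_cons, secs_cons]

theorem secs_one (w : List Bool) : secs w 1 = 1 := by
  induction w with
  | nil => rfl
  | cons i w ih => rw [secs_cons, sec_one, ih]

/-- the pair `(P, Q)` -/
def pr (P Q : Port) : Port := mk false P Q

@[simp] theorem ep_pr (P Q : Port) : (pr P Q).ep = false := rfl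
@[simp] theorem sec0_pr (P Q : Port) : (pr P Q).sec false = P := rfl
@[simp] theorem sec1_pr (P Q : Port) : (pr P Q).sec true = Q := rfl

theorem pr_mul (P Q P' Q' : Port) : pr P Q * pr P' Q' = pr (P * P') (Q * Q') :=
  ext' rfl rfl rfl

theorem pr_one : pr 1 1 = 1 := ext' rfl rfl rfl

theorem pr_inv (P Q : Port) : (pr P Q)⁻¹ = pr P⁻¹ Q⁻¹ := ext' rfl rfl rfl

theorem mk_mul (e e' : Bool) (P Q P' Q' : Port) : mk e P Q * mk e' P' Q' =
    mk (xor e e') ((if e' then Q else P) * P') ((if e' then P else Q) * Q') := by
  cases e' <;> exact ext' (by simp) rfl rfl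

theorem eta_even {P : Port} (h : P.ep = false) : P = pr (P.sec false) (P.sec true) :=
  ext' h rfl rfl

/-- `atv u P` acts as `P` on the subtree at `u` and trivially elsewhere -/
def atv : List Bool → Port → Port
  | [], P => P
  | false :: u, P => pr (atv u P) 1
  | true :: u, P => pr 1 (atv u P)

@[simp] theorem atv_nil (P : Port) : atv [] P = P := rfl
theorem atv_f (u : List Bool) (P : Port) : atv (false :: u) P = pr (atv u P) 1 := rfl
theorem atv_t (u : List Bool) (P : Port) : atv (true :: u) P = pr 1 (atv u P) := rfl

theorem atv_append (u v : List Bool) (P : Port) : atv (u ++ v) P = atv u (atv v P) := by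
  induction u with
  | nil => rfl
  | cons i u ih => cases i <;> simp [atv_f, atv_t, ih]

theorem atv_mul (u : List Bool) (P Q : Port) : atv u (P * Q) = atv u P * atv u Q := by
  induction u with
  | nil => rfl
  | cons i u ih => cases i <;> simp [atv_f, atv_t, ih, pr_mul]

theorem atv_one (u : List Bool) : atv u 1 = 1 := by
  induction u with
  | nil => rfl
  | cons i u ih => cases i <;> simp [atv_f, atv_t, ih, pr_one]

/-- `atv u` as a homomorphism -/
def atvHom (u : List Bool) : Port →* Port where
  toFun := atv u
  map_one' := atv_one u
  map_mul' := atv_mul u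

theorem atv_inv (u : List Bool) (P : Port) : atv u P⁻¹ = (atv u P)⁻¹ :=
  map_inv (atvHom u) P

theorem atv_injective (u : List Bool) : Function.Injective (atv u) := by
  induction u with
  | nil => exact fun _ _ h => h
  | cons i u ih =>
    cases i
    · intro P Q h
      exact ih (congrArg (sec false) h)
    · intro P Q h
      exact ih (congrArg (sec true) h)

theorem ep_atv_cons (i : Bool) (u : List Bool) (P : Port) : (atv (i :: u) P).ep = false := by
  cases i <;> rfl

/-- conjugation of `atv u P` -/
theorem conj_atv (g : Port) (u : List Bool) (P : Port) :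
    g * atv u P * g⁻¹ = atv (g.act u) (secs u g * P * (secs u g)⁻¹) := by
  rw [mul_inv_eq_iff_eq_mul]
  induction u generalizing g with
  | nil => simp
  | cons i u ih =>
    have ih' := ih (g.sec i)
    rw [act_cons]
    cases i <;> cases hg : g.ep <;>
    · apply ext'
      · simp [atv_f, atv_t, hg]
      · simp [atv_f, atv_t, sec_mul, hg, ih']
      · simp [atv_f, atv_t, sec_mul, hg, ih']

theorem atv_comm_of_ne {u v : List Bool} (hl : u.length = v.length) (h : u ≠ v) (P Q : Port) :
    atv u P * atv v Q = atv v Q * atv u P := by
  induction u generalizing v with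
  | nil =>
    cases v with
    | nil => exact absurd rfl h
    | cons _ _ => simp at hl
  | cons i u ih =>
    cases v with
    | nil => simp at hl
    | cons j v =>
      have hl' : u.length = v.length := by simpa using hl
      by_cases hij : i = j
      · subst hij
        have h' : u ≠ v := fun e => h (by rw [e])
        cases i <;> simp [atv_f, atv_t, pr_mul, ih hl' h']
      · cases i <;> cases j <;> first | exact absurd rfl hij | simp [atv_f, atv_t, pr_mul]

end Port

end Pool.Agent.Helper967.GG
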