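import Pool.Agent.Helper967.GG7

set_option autoImplicit false

/-! A finite stack machine with undecidable halting problem. -/

namespace Pool.Agent.Helper967.GG

open Turing Turing.PartrecToTM2 StateTransition

/-- programs halting on input `0` -/
def Halt (n : ℕ) : Prop := (Nat.Partrec.Code.eval (Denumerable.ofNat Nat.Partrec.Code n) 0).Dom

theorem halt_not_computable : ¬ ComputablePred Halt := by
  intro hc
  apply ComputablePred.halting_problem 0
  have := ComputablePred.computable_iff.1 hc
  obtain ⟨f, hf, hfe⟩ := this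
  refine ComputablePred.computable_iff.2 ⟨fun c => f (Encodable.encode c),
    hf.comp Computable.encode, ?_⟩
  funext c
  have := congrFun hfe (Encodable.encode c)
  simp only [Halt, Denumerable.ofNat_encode] at this
  exact this

theorem exists_universal : ∃ c : ToPartrec.Code, ∀ n, (c.eval [n]).Dom ↔ Halt n := by
  have hp : Partrec (fun n : ℕ => Nat.Partrec.Code.eval
      (Denumerable.ofNat Nat.Partrec.Code n) 0) :=
    Nat.Partrec.Code.eval_part.comp (Computable.ofNat _) (Computable.const 0)
  have h1 := Nat.Partrec'.part_iff₁.2 hp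
  obtain ⟨c, hc⟩ := ToPartrec.Code.exists_code h1
  refine ⟨c, fun n => ?_⟩
  have h2 := hc ⟨[n], rfl⟩
  change c.eval [n] = _ at h2
  rw [h2]
  rfl

abbrev Stm := TM2.Stmt (fun _ : K' => Γ') Λ' (Option Γ')

/-- states of the small-step machine -/
abbrev Q0 := (Option Λ' ⊕ Stm) × Option Γ'

def δ0 : Q0 → Option (K' × (Option Γ' → Q0 × List Γ'))
  | (Sum.inl none, _) => none
  | (Sum.inl (some l), v) => some (K'.main, fun x => ((Sum.inr (tr l), v), x.toList))
  | (Sum.inr (.push k f q), v) => some (k, fun x => ((Sum.inr q, v), f v :: x.toList))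
  | (Sum.inr (.peek k f q), v) => some (k, fun x => ((Sum.inr q, f v x), x.toList))
  | (Sum.inr (.pop k f q), v) => some (k, fun x => ((Sum.inr q, f v x), []))
  | (Sum.inr (.load a q), v) => some (K'.main, fun x => ((Sum.inr q, a v), x.toList))
  | (Sum.inr (.branch p q₁ q₂), v) => some (K'.main, fun x =>
      ((Sum.inr (if p v then q₁ else q₂), v), x.toList))
  | (Sum.inr (.goto l), v) => some (K'.main, fun x => ((Sum.inl (some (l v)), v), x.toList))
  | (Sum.inr .halt, v) => some (K'.main, fun x => ((Sum.inl none, v), x.toList))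

/-- a finite closed set of states -/
structure Closed (M : Set Q0) : Prop where
  fin : M.Finite
  cl : ∀ q ∈ M, ∀ k g, δ0 q = some (k, g) → ∀ x, (g x).1 ∈ M

theorem exists_closed (c : ToPartrec.Code) : ∃ M : Set Q0, Closed M ∧
    (Sum.inl (some (trNormal c Cont'.halt)), none) ∈ M := by
  classical
  letI : Inhabited Λ' := ⟨trNormal c Cont'.halt⟩
  set S := codeSupp c Cont'.halt with hS
  have hsup : TM2.Supports tr S := tr_supports c Cont'.halt
  let M1 : Set (Option Λ' ⊕ Stm) := Sum.inl '' {o | ∀ l, o = some l → l ∈ S} ∪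
    Sum.inr '' {q | some q ∈ TM2.stmts tr S}
  have hfin1 : M1.Finite := by
    apply Set.Finite.union
    · apply Set.Finite.image
      refine (Set.Finite.subset (Finset.insertNone S).finite_toSet ?_)
      intro o ho
      rw [Finset.mem_coe, Finset.mem_insertNone]
      intro a ha
      exact ho a ha
    · apply Set.Finite.image
      have : {q : Stm | some q ∈ TM2.stmts tr S} = some ⁻¹' (TM2.stmts tr S : Set (Option Stm)) :=
        rfl
      rw [this]
      exact Set.Finite.preimage (Function.Injective.injOn (Option.some_injective _))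
        (TM2.stmts tr S).finite_toSet
  have hl : ∀ l, l ∈ S → (Sum.inl (some l) : Option Λ' ⊕ Stm) ∈ M1 := by
    intro l h
    exact Or.inl ⟨some l, fun l' e => by rw [← Option.some.inj e]; exact h, rfl⟩
  have hn : (Sum.inl none : Option Λ' ⊕ Stm) ∈ M1 := Or.inl ⟨none, fun l' e => by simp at e, rfl⟩
  have hq : ∀ q : Stm, (Sum.inr q : Option Λ' ⊕ Stm) ∈ M1 ↔ some q ∈ TM2.stmts tr S := by
    intro q
    constructor
    · rintro (⟨o, -, h⟩ | ⟨q', h, h'⟩)
      · exact absurd h (by simp)
      · rw [← Sum.inr.inj h']; exact h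
    · intro h; exact Or.inr ⟨q, h, rfl⟩
  refine ⟨M1 ×ˢ Set.univ, ⟨hfin1.prod Set.finite_univ, ?_⟩, ?_⟩
  · rintro ⟨q, v⟩ ⟨hqM, -⟩ k g hδ x
    refine ⟨?_, trivial⟩
    change q ∈ M1 at hqM
    rcases q with o | q
    · cases o with
      | none => simp [δ0] at hδ
      | some l =>
        simp only [δ0, Option.some.injEq, Prod.mk.injEq] at hδ
        obtain ⟨-, rfl⟩ := hδ
        refine (hq _).2 ?_
        have hlS : l ∈ S := by
          rcases hqM with ⟨o, ho, h⟩ | ⟨q', -, h⟩
          · exact ho l (Sum.inl.inj h)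
          · exact absurd h (by simp)
        unfold TM2.stmts
        rw [Finset.mem_insertNone]
        intro a ha
        have ha : tr l = a := Option.some.inj ha
        subst ha
        exact Finset.mem_biUnion.2 ⟨l, hlS, TM2.stmts₁_self⟩
    · rw [hq] at hqM
      have htr : ∀ q' : Stm, q' ∈ TM2.stmts₁ q → some q' ∈ TM2.stmts tr S :=
        fun q' h => TM2.stmts_trans h hqM
      cases q with
      | push k f q =>
        simp only [δ0, Option.some.injEq, Prod.mk.injEq] at hδ
        obtain ⟨-, rfl⟩ := hδ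
        refine (hq _).2 ?_
        apply htr
        simp only [TM2.stmts₁]
        exact Finset.mem_insert_of_mem TM2.stmts₁_self
      | peek k f q =>
        simp only [δ0, Option.some.injEq, Prod.mk.injEq] at hδ
        obtain ⟨-, rfl⟩ := hδ
        refine (hq _).2 ?_
        apply htr
        simp only [TM2.stmts₁]
        exact Finset.mem_insert_of_mem TM2.stmts₁_self
      | pop k f q =>
        simp only [δ0, Option.some.injEq, Prod.mk.injEq] at hδ
        obtain ⟨-, rfl⟩ := hδ
        refine (hq _).2 ?_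
        apply htr
        simp only [TM2.stmts₁]
        exact Finset.mem_insert_of_mem TM2.stmts₁_self
      | load a q =>
        simp only [δ0, Option.some.injEq, Prod.mk.injEq] at hδ
        obtain ⟨-, rfl⟩ := hδ
        refine (hq _).2 ?_
        apply htr
        simp only [TM2.stmts₁]
        exact Finset.mem_insert_of_mem TM2.stmts₁_self
      | branch p q₁ q₂ =>
        simp only [δ0, Option.some.injEq, Prod.mk.injEq] at hδ
        obtain ⟨-, rfl⟩ := hδ
        refine (hq _).2 ?_
        apply htr
        simp only [TM2.stmts₁]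
        split_ifs
        · exact Finset.mem_insert_of_mem (Finset.mem_union_left _ TM2.stmts₁_self)
        · exact Finset.mem_insert_of_mem (Finset.mem_union_right _ TM2.stmts₁_self)
      | goto l =>
        simp only [δ0, Option.some.injEq, Prod.mk.injEq] at hδ
        obtain ⟨-, rfl⟩ := hδ
        have := TM2.stmts_supportsStmt hsup hqM
        exact hl _ (this v)
      | halt =>
        simp only [δ0, Option.some.injEq, Prod.mk.injEq] at hδ
        obtain ⟨-, rfl⟩ := hδ
        exact hn
  · exact ⟨hl _ hsup.1, trivial⟩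

/-- the machine on a closed set of states -/
def δM {M : Set Q0} (hM : Closed M) (q : M) : Option (K' × (Option Γ' → M × List Γ')) :=
  match h : δ0 q.1 with
  | none => none
  | some (k, g) => some (k, fun x => (⟨(g x).1, hM.cl q.1 q.2 k g h x⟩, (g x).2))

theorem δM_none {M : Set Q0} (hM : Closed M) (q : M) (h : δ0 q.1 = none) : δM hM q = none := by
  unfold δM
  split
  · rfl
  · rename_i k g h'
    rw [h] at h'
    exact absurd h' (by simp)

theorem δM_some {M : Set Q0} (hM : Closed M) (q : M) {k : K'} {g : Option Γ' → Q0 × List Γ'}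
    (h : δ0 q.1 = some (k, g)) :
    δM hM q = some (k, fun x => (⟨(g x).1, hM.cl q.1 q.2 k g h x⟩, (g x).2)) := by
  unfold δM
  split
  · rename_i h'
    rw [h] at h'
    exact absurd h' (by simp)
  · rename_i k' g' h'
    rw [h] at h'
    simp only [Option.some.injEq, Prod.mk.injEq] at h'
    obtain ⟨rfl, rfl⟩ := h'
    rfl

theorem mstep_some {M : Set Q0} (hM : Closed M) (q : M) {k : K'}
    {g : Option Γ' → Q0 × List Γ'} (h : δ0 q.1 = some (k, g)) (S : K' → List Γ') :
    mstep (δM hM) (q, S) = some (⟨(g (S k).head?).1, hM.cl q.1 q.2 k g h _⟩,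
      Function.update S k ((g (S k).head?).2 ++ (S k).tail)) := by
  unfold mstep
  rw [δM_some hM q h]

def TrR {M : Set Q0} (c : TM2.Cfg (fun _ : K' => Γ') Λ' (Option Γ'))
    (c' : M × (K' → List Γ')) : Prop := c'.1.1 = (Sum.inl c.l, c.var) ∧ c'.2 = c.stk

theorem upd_self (S : K' → List Γ') (k : K') :
    Function.update S k ((S k).head?.toList ++ (S k).tail) = S := by
  have : (S k).head?.toList ++ (S k).tail = S k := by
    cases S k <;> rfl
  rw [this, Function.update_eq_self]

theorem stm_reach {M : Set Q0} (hM : Closed M) (q : Stm) : ∀ (v : Option Γ') (S : K' → List Γ')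
    (h : (Sum.inr q, v) ∈ M), ∃ b, TrR (TM2.stepAux q v S) b ∧
      Reaches₁ (mstep (δM hM)) (⟨(Sum.inr q, v), h⟩, S) b := by
  induction q with
  | push k f q ih =>
    intro v S h
    have hs := mstep_some hM ⟨(Sum.inr (.push k f q), v), h⟩ rfl S
    obtain ⟨b, hb1, hb2⟩ := ih v (Function.update S k (f v :: S k)) (hM.cl _ h _ _ rfl none)
    refine ⟨b, hb1, Relation.TransGen.head ?_ hb2⟩
    rw [hs, Option.mem_def]
    have : f v :: (S k).head?.toList ++ (S k).tail = f v :: S k := by
      cases S k <;> rfl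
    simp only [this]
  | peek k f q ih =>
    intro v S h
    have hs := mstep_some hM ⟨(Sum.inr (.peek k f q), v), h⟩ rfl S
    obtain ⟨b, hb1, hb2⟩ := ih (f v (S k).head?) S (hM.cl _ h _ _ rfl (S k).head?)
    refine ⟨b, hb1, Relation.TransGen.head ?_ hb2⟩
    rw [hs, Option.mem_def]
    simp only [upd_self]
  | pop k f q ih =>
    intro v S h
    have hs := mstep_some hM ⟨(Sum.inr (.pop k f q), v), h⟩ rfl S
    obtain ⟨b, hb1, hb2⟩ := ih (f v (S k).head?) (Function.update S k (S k).tail)
      (hM.cl _ h _ _ rfl (S k).head?)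
    refine ⟨b, hb1, Relation.TransGen.head ?_ hb2⟩
    rw [hs, Option.mem_def]
    simp only [List.nil_append]
  | load a q ih =>
    intro v S h
    have hs := mstep_some hM ⟨(Sum.inr (.load a q), v), h⟩ rfl S
    obtain ⟨b, hb1, hb2⟩ := ih (a v) S (hM.cl _ h _ _ rfl none)
    refine ⟨b, hb1, Relation.TransGen.head ?_ hb2⟩
    rw [hs, Option.mem_def]
    simp only [upd_self]
  | branch p q₁ q₂ ih₁ ih₂ =>
    intro v S h
    have hs := mstep_some hM ⟨(Sum.inr (.branch p q₁ q₂), v), h⟩ rfl S
    have hmem := hM.cl _ h _ _ rfl none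
    rw [TM2.stepAux]
    cases hp : p v with
    | true =>
      simp only [hp, if_true] at hmem
      obtain ⟨b, hb1, hb2⟩ := ih₁ v S hmem
      refine ⟨b, hb1, Relation.TransGen.head ?_ hb2⟩
      rw [hs, Option.mem_def]
      simp only [upd_self, hp, if_true]
    | false =>
      simp only [hp, Bool.false_eq_true, if_false] at hmem
      obtain ⟨b, hb1, hb2⟩ := ih₂ v S hmem
      refine ⟨b, hb1, Relation.TransGen.head ?_ hb2⟩
      rw [hs, Option.mem_def]
      simp only [upd_self, hp, Bool.false_eq_true, if_false]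
  | goto l =>
    intro v S h
    have hs := mstep_some hM ⟨(Sum.inr (.goto l), v), h⟩ rfl S
    refine ⟨_, ?_, Relation.TransGen.single hs⟩
    exact ⟨rfl, upd_self _ _⟩
  | halt =>
    intro v S h
    have hs := mstep_some hM ⟨(Sum.inr .halt, v), h⟩ rfl S
    refine ⟨_, ?_, Relation.TransGen.single hs⟩
    exact ⟨rfl, upd_self _ _⟩

theorem respects {M : Set Q0} (hM : Closed M) :
    Respects (TM2.step tr) (mstep (δM hM)) (TrR (M := M)) := by
  rintro ⟨l, v, S⟩ ⟨⟨q, hq⟩, S'⟩ ⟨h1, h2⟩
  change q = _ at h1
  change S' = S at h2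
  subst h2
  subst h1
  cases l with
  | none =>
    change mstep (δM hM) _ = none
    unfold mstep
    rw [δM_none hM _ rfl]
  | some l =>
    change ∃ b₂, TrR (TM2.stepAux (tr l) v S') b₂ ∧ _
    have hs := mstep_some hM ⟨(Sum.inl (some l), v), hq⟩ rfl S'
    obtain ⟨b, hb1, hb2⟩ := stm_reach hM (tr l) v S' (hM.cl _ hq _ _ rfl none)
    refine ⟨b, hb1, Relation.TransGen.head ?_ hb2⟩
    rw [hs, Option.mem_def]
    simp only [upd_self]

/-- the base machine -/
theorem base : ∃ (Q : Type) (_ : Finite Q) (δ : Q → Option (K' × (Option Γ' → Q × List Γ')))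
    (q0 : Q), ∀ n, Halt n ↔ (eval (mstep δ) (q0, K'.elim (trList [n]) [] [] [])).Dom := by
  obtain ⟨c, hc⟩ := exists_universal
  obtain ⟨M, hM, hm⟩ := exists_closed c
  refine ⟨M, hM.fin, δM hM, ⟨_, hm⟩, fun n => ?_⟩
  have h1 := PartrecToTM2.tr_eval c [n]
  have h2 : (eval (TM2.step tr) (init c [n])).Dom ↔ (c.eval [n]).Dom := by
    rw [h1]; rfl
  rw [← hc n, ← h2]
  exact (tr_eval_dom (respects hM) (a₁ := init c [n]) ⟨rfl, rfl⟩).symm

end Pool.Agent.Helper967.GG
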