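import Mathlib

set_option autoImplicit false

/-! Statement: systems of equations over the first Grigorchuk group. -/

namespace Pool.Agent.Helper967.GrigEq

/-- the action of `a` on finite words; `false` is the letter `0` and `true` is the letter `1` -/
def actA : List Bool → List Bool
  | [] => []
  | false :: w => true :: w
  | true :: w => false :: w

mutual

/-- the action of `b` on finite words -/
def actB : List Bool → List Bool
  | [] => []
  | false :: w => false :: actA w
  | true :: w => true :: actC w

/-- the action of `c` on finite words -/
def actC : List Bool → List Bool
  | [] => []
  | false :: w => false :: actA w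
  | true :: w => true :: actD w

/-- the action of `d` on finite words -/
def actD : List Bool → List Bool
  | [] => []
  | false :: w => false :: w
  | true :: w => true :: actB w

end

theorem actA_invol : Function.Involutive actA := by
  intro w
  match w with
  | [] => rfl
  | false :: w => rfl
  | true :: w => rfl

theorem actBCD_invol (w : List Bool) :
    actB (actB w) = w ∧ actC (actC w) = w ∧ actD (actD w) = w := by
  induction w with
  | nil => simp [actB, actC, actD]
  | cons i w ih => cases i <;> simp [actB, actC, actD, actA_invol w, ih]

/-- the generator `a` of the Grigorchuk group -/
def a : Equiv.Perm (List Bool) := Function.Involutive.toPerm actA actA_invol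
/-- the generator `b` of the Grigorchuk group -/
def b : Equiv.Perm (List Bool) := Function.Involutive.toPerm actB (fun w => (actBCD_invol w).1)
/-- the generator `c` of the Grigorchuk group -/
def c : Equiv.Perm (List Bool) := Function.Involutive.toPerm actC (fun w => (actBCD_invol w).2.1)
/-- the generator `d` of the Grigorchuk group -/
def d : Equiv.Perm (List Bool) := Function.Involutive.toPerm actD (fun w => (actBCD_invol w).2.2)

/-- the first Grigorchuk group -/
def Grig : Subgroup (Equiv.Perm (List Bool)) := Subgroup.closure {a, b, c, d}

/-- the constants: `0, 1, 2, 3` stand for `a, b, c, d` -/
def const (i : Fin 4) : Equiv.Perm (List Bool) :=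
  if i = 0 then a else if i = 1 then b else if i = 2 then c else d

/-- letters of the words occurring in equations: one of the four constants `a, b, c, d`,
or the variable `x n` (written `Sum.inr (n, true)`), or its inverse
(written `Sum.inr (n, false)`) -/
abbrev Letter := Fin 4 ⊕ (ℕ × Bool)

/-- value of a letter under an assignment of values to the variables -/
def letterVal (x : ℕ → Equiv.Perm (List Bool)) : Letter → Equiv.Perm (List Bool)
  | Sum.inl i => const i
  | Sum.inr (n, true) => x n
  | Sum.inr (n, false) => (x n)⁻¹

/-- value of a word under an assignment: the product of the values of its letters -/
def wordVal (x : ℕ → Equiv.Perm (List Bool)) (w : List Letter) : Equiv.Perm (List Bool) :=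
  (w.map (letterVal x)).prod

/-- A finite system of equations is a finite list of words; the word `w` stands for the equation
`w = 1`. The system is solvable if some assignment of elements of the Grigorchuk group to the
variables makes all its words equal to `1`. -/
def Solvable (S : List (List Letter)) : Prop :=
  ∃ x : ℕ → Equiv.Perm (List Bool), (∀ n, x n ∈ Grig) ∧ ∀ w ∈ S, wordVal x w = 1

end Pool.Agent.Helper967.GrigEq
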