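import Pool.Agent.Helper967.GG6
import Pool.Agent.Helper967.GGDefs

set_option autoImplicit false

/-! Transfer between the two descriptions of the Grigorchuk group, and definability by systems. -/

namespace Pool.Agent.Helper967.GG

open Port Pool.Agent.Helper967.GrigEq

/-- the action as a homomorphism -/
def actHom : Port →* Equiv.Perm (List Bool) where
  toFun P := ⟨P.act, P.ica, P.ica_act, P.act_ica⟩
  map_one' := by
    apply Equiv.ext; intro w; exact act_one w
  map_mul' P Q := by
    apply Equiv.ext; intro w; exact act_mul P Q w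

theorem actHom_apply (P : Port) (w : List Bool) : actHom P w = P.act w := rfl

theorem actHom_inj : Function.Injective actHom := by
  intro P Q h
  apply eq_of_act
  intro w
  have := congrArg (fun e : Equiv.Perm (List Bool) => e w) h
  exact this

theorem hom_A : actHom A = GrigEq.a := by
  apply Equiv.ext
  intro w
  change A.act w = actA w
  match w with
  | [] => rfl
  | false :: w => simp [act_cons, actA]
  | true :: w => simp [act_cons, actA]

theorem hom_BCD (w : List Bool) : B.act w = actB w ∧ C.act w = actC w ∧ D.act w = actD w := by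
  have hA : ∀ w, A.act w = actA w := fun w =>
    congrArg (fun e : Equiv.Perm (List Bool) => e w) hom_A
  induction w with
  | nil => simp [actB, actC, actD]
  | cons i w ih =>
    cases i
    · simp [act_cons, actB, actC, actD, hA]
    · simp [act_cons, actB, actC, actD, ih]

theorem hom_B : actHom B = GrigEq.b := Equiv.ext fun w => (hom_BCD w).1
theorem hom_C : actHom C = GrigEq.c := Equiv.ext fun w => (hom_BCD w).2.1
theorem hom_D : actHom D = GrigEq.d := Equiv.ext fun w => (hom_BCD w).2.2

theorem map_G : G.map actHom = Grig := by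
  rw [G, Grig, MonoidHom.map_closure]
  congr 1
  simp only [Set.image_insert_eq, Set.image_singleton, hom_A, hom_B, hom_C, hom_D]

/-- the constants -/
def pc : Fin 4 → Port
  | 0 => A
  | 1 => B
  | 2 => C
  | 3 => D

def pv (x : ℕ → Port) : Letter → Port
  | Sum.inl i => pc i
  | Sum.inr (n, true) => x n
  | Sum.inr (n, false) => (x n)⁻¹

def pw (x : ℕ → Port) (w : List Letter) : Port := (w.map (pv x)).prod

theorem pw_nil (x : ℕ → Port) : pw x [] = 1 := rfl
theorem pw_cons (x : ℕ → Port) (l : Letter) (w : List Letter) :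
    pw x (l :: w) = pv x l * pw x w := by simp [pw]
theorem pw_append (x : ℕ → Port) (v w : List Letter) : pw x (v ++ w) = pw x v * pw x w := by
  simp [pw]

theorem const_eq (i : Fin 4) : const i = actHom (pc i) := by
  fin_cases i
  · exact hom_A.symm
  · exact hom_B.symm
  · exact hom_C.symm
  · exact hom_D.symm

theorem val_transfer (x : ℕ → Port) (y : ℕ → Equiv.Perm (List Bool))
    (h : ∀ n, y n = actHom (x n)) (w : List Letter) :
    wordVal y w = actHom (pw x w) := by
  induction w with
  | nil => simp [wordVal, pw]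
  | cons l w ih =>
    have h1 : wordVal y (l :: w) = letterVal y l * wordVal y w := by simp [wordVal]
    rw [h1, pw_cons, map_mul, ih]
    congr 1
    rcases l with i | ⟨n, e⟩
    · exact const_eq i
    · cases e
      · change (y n)⁻¹ = actHom (x n)⁻¹
        rw [map_inv, ← h n]
      · exact h n

theorem solvable_iff (Sy : List (List Letter)) :
    Solvable Sy ↔ ∃ x : ℕ → Port, (∀ n, x n ∈ G) ∧ ∀ w ∈ Sy, pw x w = 1 := by
  constructor
  · rintro ⟨y, hyG, hy⟩
    have h1 : ∀ n, ∃ P ∈ G, actHom P = y n := by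
      intro n
      have := hyG n
      rw [← map_G, Subgroup.mem_map] at this
      exact this
    choose x hxG hx using h1
    refine ⟨x, hxG, fun w hw => ?_⟩
    have h2 := val_transfer x y (fun n => (hx n).symm) w
    rw [hy w hw] at h2
    apply actHom_inj
    rw [← h2, map_one]
  · rintro ⟨x, hxG, hx⟩
    refine ⟨fun n => actHom (x n), fun n => ?_, fun w hw => ?_⟩
    · rw [← map_G]
      exact Subgroup.mem_map_of_mem _ (hxG n)
    · rw [val_transfer x (fun n => actHom (x n)) (fun n => rfl) w, hx w hw, map_one]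

/-- terms -/
def IsTm (f : (ℕ → Port) → Port) : Prop := ∃ w : List Letter, ∀ x, pw x w = f x

theorem IsTm.var (n : ℕ) : IsTm (fun x => x n) :=
  ⟨[Sum.inr (n, true)], fun x => by rw [pw_cons, pw_nil, mul_one]; rfl⟩

theorem IsTm.mul {f g : (ℕ → Port) → Port} (hf : IsTm f) (hg : IsTm g) :
    IsTm (fun x => f x * g x) := by
  obtain ⟨v, hv⟩ := hf
  obtain ⟨w, hw⟩ := hg
  exact ⟨v ++ w, fun x => by rw [pw_append, hv, hw]⟩

/-- inverse of a letter -/
def linv : Letter → Letter
  | Sum.inl i => Sum.inl i
  | Sum.inr (n, e) => Sum.inr (n, !e)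

theorem pv_linv (x : ℕ → Port) (l : Letter) : pv x (linv l) = (pv x l)⁻¹ := by
  rcases l with i | ⟨n, e⟩
  · change pc i = (pc i)⁻¹
    fin_cases i
    · exact Ainv.symm
    · exact Binv.symm
    · exact Cinv.symm
    · exact Dinv.symm
  · cases e
    · exact (inv_inv (x n)).symm
    · rfl

theorem IsTm.inv {f : (ℕ → Port) → Port} (hf : IsTm f) : IsTm (fun x => (f x)⁻¹) := by
  obtain ⟨v, hv⟩ := hf
  refine ⟨(v.map linv).reverse, fun x => ?_⟩
  change _ = (f x)⁻¹
  rw [← hv x]
  clear hv
  induction v with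
  | nil => simp [pw]
  | cons l v ih =>
    rw [List.map_cons, List.reverse_cons, pw_append, ih, pw_cons, pw_cons, pw_nil, mul_one,
      pv_linv, mul_inv_rev]

theorem IsTm.con {g : Port} (hg : g ∈ G) : IsTm (fun _ => g) := by
  obtain ⟨w, rfl⟩ := exists_word hg
  clear hg
  refine ⟨w.map (fun g => Sum.inl (match g with | .a => 0 | .b => 1 | .c => 2 | .d => 3)), ?_⟩
  intro x
  induction w with
  | nil => rfl
  | cons g w ih =>
    rw [List.map_cons, pw_cons, ih, ev_cons]
    congr 1
    cases g <;> rfl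

/-- conditions expressed by a finite system without auxiliary variables -/
def Dfb (R : (ℕ → Port) → Prop) : Prop :=
  ∃ S : List (List Letter), ∀ x, R x ↔ ∀ w ∈ S, pw x w = 1

theorem Dfb.iff {R R' : (ℕ → Port) → Prop} (h : ∀ x, R' x ↔ R x) (hR : Dfb R) : Dfb R' := by
  obtain ⟨S, hS⟩ := hR
  exact ⟨S, fun x => (h x).trans (hS x)⟩

theorem Dfb.eq {f g : (ℕ → Port) → Port} (hf : IsTm f) (hg : IsTm g) :
    Dfb (fun x => f x = g x) := by
  obtain ⟨w, hw⟩ := hf.mul hg.inv
  refine ⟨[w], fun x => ?_⟩
  simp only [List.mem_singleton, forall_eq, hw x]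
  exact mul_inv_eq_one.symm

theorem Dfb.true : Dfb (fun _ => True) := ⟨[], fun x => by simp⟩

theorem Dfb.and {R R' : (ℕ → Port) → Prop} (h : Dfb R) (h' : Dfb R') :
    Dfb (fun x => R x ∧ R' x) := by
  obtain ⟨S, hS⟩ := h
  obtain ⟨S', hS'⟩ := h'
  refine ⟨S ++ S', fun x => ?_⟩
  change R x ∧ R' x ↔ _
  rw [hS, hS']
  simp only [List.mem_append]
  constructor
  · rintro ⟨h1, h2⟩ w (hw | hw)
    · exact h1 w hw
    · exact h2 w hw
  · intro h
    exact ⟨fun w hw => h w (Or.inl hw), fun w hw => h w (Or.inr hw)⟩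

theorem Dfb.all {ι : Type} [Finite ι] {R : ι → (ℕ → Port) → Prop} (h : ∀ i, Dfb (R i)) :
    Dfb (fun x => ∀ i, R i x) := by
  choose S hS using h
  cases nonempty_fintype ι
  refine ⟨(Finset.univ : Finset ι).toList.flatMap S, fun x => ?_⟩
  constructor
  · intro hx w hw
    rw [List.mem_flatMap] at hw
    obtain ⟨i, -, hw⟩ := hw
    exact (hS i x).1 (hx i) w hw
  · intro hx i
    rw [hS i x]
    intro w hw
    exact hx w (List.mem_flatMap.2 ⟨i, by simp, hw⟩)

theorem Dfb.imp {p : Prop} {R : (ℕ → Port) → Prop} (h : p → Dfb R) :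
    Dfb (fun x => p → R x) := by
  by_cases hp : p
  · exact (h hp).iff (fun x => ⟨fun hx => hx hp, fun hx _ => hx⟩)
  · exact Dfb.true.iff (fun x => ⟨fun _ => trivial, fun _ h => absurd h hp⟩)

theorem Dfb.comm {f g : (ℕ → Port) → Port} (hf : IsTm f) (hg : IsTm g) :
    Dfb (fun x => Commute (f x) (g x)) :=
  Dfb.eq (hf.mul hg) (hg.mul hf)

/-- torsion: `2^k`-th powers act trivially on the level `k` -/
theorem pow_level (k : ℕ) : ∀ (P : Port) (w : List Bool), w.length ≤ k →
    (P ^ 2 ^ k).act w = w := by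
  have hpow : ∀ (Q : Port), Q.ep = false → ∀ n i, (Q ^ n).ep = false ∧
      (Q ^ n).sec i = (Q.sec i) ^ n := by
    intro Q hQ n i
    induction n with
    | zero => exact ⟨rfl, rfl⟩
    | succ n ih =>
      refine ⟨?_, ?_⟩
      · rw [pow_succ, ep_mul, ih.1, hQ]; rfl
      · rw [pow_succ, sec_mul, hQ, Bool.xor_false, ih.2, pow_succ]
  induction k with
  | zero =>
    intro P w hw
    have : w = [] := List.length_eq_zero_iff.1 (by omega)
    subst this; rfl
  | succ k ih =>
    intro P w hw
    cases w with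
    | nil => rfl
    | cons i w =>
      have h2 : (P ^ 2).ep = false := by rw [pow_two, ep_mul]; exact Bool.xor_self _
      have e : P ^ 2 ^ (k + 1) = (P ^ 2) ^ 2 ^ k := by rw [← pow_mul, pow_succ']
      rw [e, act_cons, (hpow _ h2 _ i).1, (hpow _ h2 _ i).2, ih _ w (by simpa using hw)]
      simp

end Pool.Agent.Helper967.GG
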