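import Pool.Agent.Helper967.GG9
import Pool.Agent.Helper967.GG10
import Pool.Agent.Helper967.GG11

set_option autoImplicit false

/-! The reduction. -/

namespace Pool.Agent.Helper967.GG

open Port Pool.Agent.Helper967.GrigEq Turing.PartrecToTM2 StateTransition

instance : Finite K' := by
  let f : K' → Fin 4 := fun k => match k with | .main => 0 | .rev => 1 | .aux => 2 | .stack => 3
  refine Finite.of_injective f ?_
  intro x y h
  cases x <;> cases y <;> simp_all [f]

def ks : List K' := [.main, .rev, .aux, .stack]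

theorem ks_nodup : ks.Nodup := by decide
theorem ks_all (k : K') : k ∈ ks := by cases k <;> simp [ks]

section

variable {Q : Type} (δ : Q → Option (K' × (Option Γ' → Q × List Γ'))) (code : Ltr Q K' Γ' → ℕ)

def hc (l : Ltr Q K' Γ') : ℕ := 10 + 2 * code l
def sc (l : Ltr Q K' Γ') : ℕ := 11 + 2 * code l

/-- the auxiliary system without the membership conditions -/
def AuxE (W V U om : Port) : Prop :=
  Commute U B ∧ Commute V C ∧ Commute W D ∧
  Commute (Xs⁻¹ * (W * V * U)) (atv [false, false, false] T2) ∧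
  Commute (Xs⁻¹ * (W * V * U)) (atv [false, true, false] T2) ∧
  Commute (Xs⁻¹ * (W * V * U)) (atv [true, false, false] T2) ∧
  Rr (W * V * U) B = om ∧ Rr (W * V * U) C = om ∧ Rr (W * V * U) D = 1

/-- the fixed part of the system -/
def Rfix (x : ℕ → Port) : Prop :=
  Forc (x 0) (x 1) (x 2) (fun l => x (hc code l)) (fun l => x (sc code l)) ∧
  (∀ a b : Ltr Q K' Γ', cm a b → Commute (x (hc code a)) (x (hc code b))) ∧
  (∀ q, ∀ kg : K' × (Option Γ' → Q × List Γ'), δ q = some kg → ∀ o,
    evw (x 0) (fun l => x (hc code l)) (lhs q kg.1 o) =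
    evw (x 0) (fun l => x (hc code l)) (rhs kg.1 kg.2 o)) ∧
  AuxE (x 6) (x 7) (x 8) (om (x 9) (x 3) (x 4) (x 5))

theorem tm_evw (w : List (Ltr Q K' Γ')) :
    IsTm (fun x => evw (x 0) (fun l => x (hc code l)) w) := by
  induction w using List.reverseRecOn with
  | nil => exact IsTm.var 0
  | append_singleton w l ih =>
    have h1 : (fun x : ℕ → Port => evw (x 0) (fun l => x (hc code l)) (w ++ [l])) =
        fun x => evw (x 0) (fun l => x (hc code l)) w *
          (x (hc code l) * evw (x 0) (fun l => x (hc code l)) w * (x (hc code l))⁻¹) := by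
      funext x
      unfold evw
      rw [List.foldl_append]
      rfl
    rw [h1]
    exact ih.mul (((IsTm.var _).mul ih).mul (IsTm.var _).inv)

theorem tm_Rr {f g : (ℕ → Port) → Port} (hf : IsTm f) (hg : IsTm g) :
    IsTm (fun x => Rr (f x) (g x)) :=
  IsTm.mul (((((hg.mul hf).mul hf).mul hg).mul hf.inv).mul hf.inv)
    (((((hg.mul hf).mul hf).mul hg).mul hf.inv).mul hf.inv)

theorem tm_om : IsTm (fun x => om (x 9) (x 3) (x 4) (x 5)) := by
  have h1 : IsTm (fun x => x 9 * x 3 * (x 9)⁻¹ * (x 3)⁻¹) :=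
    (((IsTm.var 9).mul (IsTm.var 3)).mul (IsTm.var 9).inv).mul (IsTm.var 3).inv
  exact ((IsTm.var 5).mul (((h1.mul (IsTm.var 4)).mul h1.inv).mul (IsTm.var 4).inv)).mul
    (IsTm.var 5).inv

theorem dfb_fix [Finite Q] : Dfb (Rfix δ code) := by
  unfold Rfix
  refine Dfb.and ?_ (Dfb.and ?_ (Dfb.and ?_ ?_))
  · refine Dfb.iff (R := fun x => (∀ a b : Ltr Q K' Γ', Commute (x (hc code a)) (x (sc code b))) ∧
      (∀ a : Ltr Q K' Γ', Commute (x 1) (x (sc code a))) ∧
      (∀ a : Ltr Q K' Γ', x (sc code a) * x 0 * (x (sc code a))⁻¹ =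
        x (hc code a) * x 0 * (x (hc code a))⁻¹) ∧
      Commute (x 0) (x 1) ∧ (∀ a : Ltr Q K' Γ', Commute (x 2) (x (hc code a))) ∧
      Commute (x 2) (x 0) ∧ x 2 * x 1 * (x 2)⁻¹ = x 1 * x 0 ∧ x 0 * x 0 = 1) ?_ ?_
    · intro x
      constructor
      · intro h; exact ⟨h.hs, h.Fs, h.Es, h.EF, h.lh, h.lE, h.lF, h.E2⟩
      · rintro ⟨h1, h2, h3, h4, h5, h6, h7, h8⟩; exact ⟨h1, h2, h3, h4, h5, h6, h7, h8⟩
    · have hv := IsTm.var
      refine Dfb.and (Dfb.all fun a => Dfb.all fun b => Dfb.comm (hv _) (hv _)) ?_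
      refine Dfb.and (Dfb.all fun a => Dfb.comm (hv _) (hv _)) ?_
      refine Dfb.and (Dfb.all fun a => Dfb.eq (((hv _).mul (hv _)).mul (hv _).inv)
        (((hv _).mul (hv _)).mul (hv _).inv)) ?_
      refine Dfb.and (Dfb.comm (hv _) (hv _)) ?_
      refine Dfb.and (Dfb.all fun a => Dfb.comm (hv _) (hv _)) ?_
      refine Dfb.and (Dfb.comm (hv _) (hv _)) ?_
      refine Dfb.and (Dfb.eq (((hv _).mul (hv _)).mul (hv _).inv) ((hv _).mul (hv _))) ?_
      exact Dfb.eq ((hv _).mul (hv _)) (IsTm.con G.one_mem)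
  · exact Dfb.all fun a => Dfb.all fun b => Dfb.imp fun _ => Dfb.comm (IsTm.var _) (IsTm.var _)
  · refine Dfb.all fun q => ?_
    cases hδ : δ q with
    | none => exact Dfb.true.iff (fun x => ⟨fun _ => trivial, fun _ kg h => by simp at h⟩)
    | some kg =>
      refine Dfb.iff (R := fun x => ∀ o, evw (x 0) (fun l => x (hc code l)) (lhs q kg.1 o) =
        evw (x 0) (fun l => x (hc code l)) (rhs kg.1 kg.2 o)) ?_ ?_
      · intro x
        constructor
        · intro h o; exact h kg rfl o
        · intro h kg' e o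
          rw [← Option.some.inj e]; exact h o
      · exact Dfb.all fun o => Dfb.eq (tm_evw code _) (tm_evw code _)
  · have hx : IsTm (fun x => x 6 * x 7 * x 8) :=
      ((IsTm.var 6).mul (IsTm.var 7)).mul (IsTm.var 8)
    have hg : IsTm (fun x => Xs⁻¹ * (x 6 * x 7 * x 8)) := (IsTm.con (G.inv_mem Xs_mem)).mul hx
    have hk : ∀ u, IsTm (fun _ => atv u T2) := fun u => IsTm.con (K_le (K_atv T2_mem u))
    refine Dfb.and (Dfb.comm (IsTm.var 8) (IsTm.con B_mem)) ?_
    refine Dfb.and (Dfb.comm (IsTm.var 7) (IsTm.con C_mem)) ?_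
    refine Dfb.and (Dfb.comm (IsTm.var 6) (IsTm.con D_mem)) ?_
    refine Dfb.and (Dfb.comm hg (hk _)) ?_
    refine Dfb.and (Dfb.comm hg (hk _)) ?_
    refine Dfb.and (Dfb.comm hg (hk _)) ?_
    refine Dfb.and (Dfb.eq (tm_Rr hx (IsTm.con B_mem)) tm_om) ?_
    refine Dfb.and (Dfb.eq (tm_Rr hx (IsTm.con C_mem)) tm_om) ?_
    exact Dfb.eq (tm_Rr hx (IsTm.con D_mem)) (IsTm.con G.one_mem)

theorem nst_snoc {n : ℕ} {c c' c'' : Q × (K' → List Γ')} (h : Nst δ n c c')
    (h' : mstep δ c' = some c'') : Nst δ (n + 1) c c'' := by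
  induction n generalizing c with
  | zero =>
    have : c = c' := h
    subst this
    exact ⟨c'', h', rfl⟩
  | succ n ih =>
    obtain ⟨c1, h1, h2⟩ := h
    exact ⟨c1, h1, ih h2⟩

/-- soundness of the reduction -/
theorem sound {x : ℕ → Port} (hx : ∀ n, x n ∈ G) (hR : Rfix δ code x)
    {c0 : Q × (K' → List Γ')} (h9 : evw (x 0) (fun l => x (hc code l)) (cw ks c0) = x 9) :
    ∃ T cT, Nst δ T c0 cT ∧ mstep δ cT = none := by
  by_contra hcon
  push Not at hcon
  obtain ⟨hF, hcm, hr, hA⟩ := hR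
  have hrun : ∀ t, ∃ c, Nst δ t c0 c := by
    intro t
    induction t with
    | zero => exact ⟨c0, rfl⟩
    | succ t ih =>
      obtain ⟨c, h⟩ := ih
      obtain ⟨c', h'⟩ := Option.ne_none_iff_exists'.1 (hcon t c h)
      exact ⟨c', nst_snoc δ h h'⟩
  have hev : ∀ (t : ℕ) (c0 c : Q × (K' → List Γ')), Nst δ t c0 c →
      evw (x 0) (fun l => x (hc code l)) (cw ks c0) =
      (Dh (x (hc code Ltr.tm)))^[t] (evw (x 0) (fun l => x (hc code l)) (cw ks c)) := by
    intro t
    induction t with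
    | zero => intro c0 c h; rw [show c0 = c from h]; rfl
    | succ t ih =>
      rintro c0 c ⟨c1, h1, h2⟩
      rw [Function.iterate_succ_apply', ← ih c1 c h2]
      exact run_step hF hcm (fun q k g h o => hr q (k, g) h o) ks_nodup ks_all h1
  -- the element is trivial on every level
  have hlev : ∀ (k : ℕ) (w : List Bool), w.length ≤ k → (x 9).act w = w := by
    intro k w hw
    obtain ⟨c, h⟩ := hrun (2 ^ k)
    have h1 := hev _ _ _ h
    have hm : evw (x 0) (fun l => x (hc code l)) (cw ks c) ∈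
        Mod (x 0) (fun l => x (hc code l)) := mod_foldl mod_E _
    rw [h9, hF.Dh_pow (mem_h _) hm k] at h1
    set m := evw (x 0) (fun l => x (hc code l)) (cw ks c) with hmd
    set g := x (hc code Ltr.tm) ^ 2 ^ k with hg
    have hgl : ∀ v : List Bool, v.length ≤ k → g.act v = v := pow_level k _
    have hgl' : (g⁻¹).act w = w := by
      apply g.act_injective
      rw [← act_mul, mul_inv_cancel, act_one, hgl w hw]
    rw [h1]
    unfold Dh
    rw [act_mul, act_mul, act_mul, hgl', hgl _ (by rw [act_length]; exact hw), ← act_mul,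
      hF.sq hm, act_one]
  have h9' : x 9 = 1 := eq_of_act fun w => by rw [hlev w.length w le_rfl, act_one]
  obtain ⟨a1, a2, a3, a4, a5, a6, a7, a8, a9⟩ := hA
  rw [h9', om_one] at a7 a8
  exact Aux.contra (W := x 6) (V := x 7) (U := x 8)
    ⟨hx 8, hx 7, hx 6, a1, a2, a3, a4, a5, a6, a7, a8, a9⟩

/-- completeness of the reduction -/
theorem complete [Finite Q] (hcode : Function.Injective code) {c0 cT : Q × (K' → List Γ')} {T : ℕ}
    (h : Nst δ T c0 cT) (hT : mstep δ cT = none) :
    ∃ x : ℕ → Port, (∀ n, x n ∈ G) ∧ Rfix δ code x ∧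
      evw (x 0) (fun l => x (hc code l)) (cw ks c0) = x 9 := by
  obtain ⟨Γ, i1, i2, i3, E, F, lam, h', s, hF, hcm, hr, hne⟩ :=
    halting_model ks_nodup ks_all h hT
  obtain ⟨f, hinj, hfK⟩ := emb i3
  have hfG : ∀ g, f g ∈ G := fun g => K_le (hfK g)
  set X := f (evw E h' (cw ks c0)) with hX
  have hX1 : X ≠ 1 := by
    intro e
    apply hne
    apply hinj
    rw [map_one]; exact e
  obtain ⟨y, z, g, W, V, U, hy, hz, hg, hAux⟩ := (nontriv_iff X).2 hX1
  let H : ℕ → Port := Function.extend code (fun l => f (h' l)) (fun _ => 1)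
  let Sg : ℕ → Port := Function.extend code (fun l => f (s l)) (fun _ => 1)
  have hH : ∀ l, H (code l) = f (h' l) := fun l => hcode.extend_apply _ _ _
  have hS : ∀ l, Sg (code l) = f (s l) := fun l => hcode.extend_apply _ _ _
  have hHG : ∀ n, H n ∈ G := by
    intro n
    by_cases hn : ∃ l, code l = n
    · obtain ⟨l, rfl⟩ := hn
      rw [hH]; exact hfG _
    · change Function.extend code (fun l => f (h' l)) (fun _ => 1) n ∈ G
      rw [Function.extend_apply' _ _ _ hn]; exact G.one_mem
  have hSG : ∀ n, Sg n ∈ G := by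
    intro n
    by_cases hn : ∃ l, code l = n
    · obtain ⟨l, rfl⟩ := hn
      rw [hS]; exact hfG _
    · change Function.extend code (fun l => f (s l)) (fun _ => 1) n ∈ G
      rw [Function.extend_apply' _ _ _ hn]; exact G.one_mem
  let x : ℕ → Port := fun n => match n with
    | 0 => f E
    | 1 => f F
    | 2 => f lam
    | 3 => y
    | 4 => z
    | 5 => g
    | 6 => W
    | 7 => V
    | 8 => U
    | 9 => X
    | n + 10 => if n % 2 = 0 then H (n / 2) else Sg (n / 2)
  have xh : ∀ l, x (hc code l) = f (h' l) := by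
    intro l
    have e1 : hc code l = 2 * code l + 10 := by unfold hc; ring
    rw [e1]
    change (if (2 * code l) % 2 = 0 then H (2 * code l / 2) else Sg (2 * code l / 2)) = _
    rw [if_pos (by omega), Nat.mul_div_cancel_left _ (by norm_num), hH]
  have xs : ∀ l, x (sc code l) = f (s l) := by
    intro l
    have e1 : sc code l = (2 * code l + 1) + 10 := by unfold sc; ring
    rw [e1]
    change (if (2 * code l + 1) % 2 = 0 then H ((2 * code l + 1) / 2)
      else Sg ((2 * code l + 1) / 2)) = _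
    rw [if_neg (by omega), show (2 * code l + 1) / 2 = code l by omega, hS]
  have xh' : (fun l => x (hc code l)) = fun l => f (h' l) := funext xh
  have xs' : (fun l => x (sc code l)) = fun l => f (s l) := funext xs
  have hevf : ∀ w : List (Ltr Q K' Γ'), evw (f E) (fun l => f (h' l)) w = f (evw E h' w) := by
    intro w
    induction w using List.reverseRecOn with
    | nil => rfl
    | append_singleton w l ih =>
      have e1 : evw (f E) (fun l => f (h' l)) (w ++ [l]) =
          Dh (f (h' l)) (evw (f E) (fun l => f (h' l)) w) := by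
        unfold evw; rw [List.foldl_append]; rfl
      have e2 : evw E h' (w ++ [l]) = Dh (h' l) (evw E h' w) := by
        unfold evw; rw [List.foldl_append]; rfl
      rw [e1, e2, ih]
      simp only [Dh, map_mul, map_inv]
  refine ⟨x, ?_, ⟨?_, ?_, ?_, ?_⟩, ?_⟩
  · intro n
    match n with
    | 0 => exact hfG _
    | 1 => exact hfG _
    | 2 => exact hfG _
    | 3 => exact hy
    | 4 => exact hz
    | 5 => exact hg
    | 6 => exact hAux.mW
    | 7 => exact hAux.mV
    | 8 => exact hAux.mU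
    | 9 => exact hfG _
    | n + 10 =>
      change (if n % 2 = 0 then H (n / 2) else Sg (n / 2)) ∈ G
      split_ifs
      · exact hHG _
      · exact hSG _
  · rw [xh', xs']
    refine ⟨fun a b => (hF.hs a b).map f, fun a => (hF.Fs a).map f, fun a => ?_, hF.EF.map f,
      fun a => (hF.lh a).map f, hF.lE.map f, ?_, ?_⟩
    · change f (s a) * f E * (f (s a))⁻¹ = f (h' a) * f E * (f (h' a))⁻¹
      rw [← map_inv, ← map_inv, ← map_mul, ← map_mul, ← map_mul, ← map_mul, hF.Es]
    · change f lam * f F * (f lam)⁻¹ = f F * f E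
      rw [← map_inv, ← map_mul, ← map_mul, ← map_mul, hF.lF]
    · change f E * f E = 1
      rw [← map_mul, hF.E2, map_one]
  · intro a b hab
    rw [xh, xh]
    exact (hcm a b hab).map f
  · rintro q ⟨k, g'⟩ hδ o
    rw [xh']
    change evw (f E) _ _ = evw (f E) _ _
    rw [hevf, hevf, hr q k g' hδ o]
  · exact ⟨hAux.cU, hAux.cV, hAux.cW, hAux.k1, hAux.k2, hAux.k3, hAux.rB, hAux.rC, hAux.rD⟩
  · rw [xh']
    change evw (f E) _ _ = X
    rw [hevf]

end

end Pool.Agent.Helper967.GG
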