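import Pool.Agent.Helper967.GG12

set_option autoImplicit false

/-! Computability of the reduction and the conclusion. -/

namespace Pool.Agent.Helper967.GG

open Port Pool.Agent.Helper967.GrigEq Turing.PartrecToTM2 StateTransition

/-- binary digits, with chosen codes -/
def tn (p q : ℕ) : ℕ → List ℕ
  | 0 => []
  | n + 1 => (if (n + 1) % 2 = 0 then p else q) :: tn p q ((n + 1) / 2)
decreasing_by omega

theorem tn_pos (p q : ℕ) {n : ℕ} (hn : n ≠ 0) :
    tn p q n = (if n % 2 = 0 then p else q) :: tn p q (n / 2) := by
  obtain ⟨m, rfl⟩ := Nat.exists_eq_succ_of_ne_zero hn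
  rw [tn]

theorem tn_primrec (p q : ℕ) : Primrec (tn p q) := by
  have h : Primrec₂ (fun (_ : Unit) n => tn p q n) := by
    refine Primrec.nat_strong_rec (fun _ n => tn p q n)
      (g := fun _ L => if L.length = 0 then some [] else
        (L[L.length / 2]?).map (fun t => (if L.length % 2 = 0 then p else q) :: t)) ?_ ?_
    · have hlen : Primrec (fun a : Unit × List (List ℕ) => a.2.length) :=
        Primrec.list_length.comp Primrec.snd
      refine Primrec.ite (PrimrecRel.comp Primrec.eq hlen (Primrec.const 0))
        (Primrec.const _) ?_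
      refine Primrec.option_map ?_ ?_
      · exact Primrec.list_getElem?.comp Primrec.snd
          (Primrec.nat_div.comp hlen (Primrec.const 2))
      · refine Primrec.list_cons.comp ?_ Primrec.snd
        refine Primrec.ite (PrimrecRel.comp Primrec.eq
          (Primrec.nat_mod.comp (hlen.comp Primrec.fst) (Primrec.const 2)) (Primrec.const 0))
          (Primrec.const _) (Primrec.const _)
    · intro _ n
      by_cases hn : n = 0
      · subst hn; simp [tn]
      · have h2 : n / 2 < n := Nat.div_lt_self (Nat.pos_of_ne_zero hn) (by norm_num)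
        simp only [List.length_map, List.length_range, hn, if_false]
        rw [List.getElem?_map, List.getElem?_range h2, tn_pos p q hn]
        rfl
  exact h.comp (Primrec.const ()) Primrec.id

theorem trNat_bit0 {m : ℕ} (hm : m ≠ 0) : trNat (2 * m) = Γ'.bit0 :: trNat m := by
  have h1 : ((2 * m : ℕ) : Num) = Num.bit0 (m : Num) := by
    rw [← Num.ofNat'_eq, ← Num.ofNat'_eq]
    have := Num.ofNat'_bit false m
    rwa [Nat.bit_false] at this
  unfold trNat
  rw [h1]
  cases hN : (m : Num) with
  | zero =>
    exfalso
    apply hm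
    have h2 : ((m : Num) : ℕ) = m := Num.to_of_nat m
    rw [hN] at h2
    exact h2.symm
  | pos p => rfl

theorem trNat_bit1 (m : ℕ) : trNat (2 * m + 1) = Γ'.bit1 :: trNat m := by
  have h1 : ((2 * m + 1 : ℕ) : Num) = Num.bit1 (m : Num) := by
    rw [← Num.ofNat'_eq, ← Num.ofNat'_eq]
    have := Num.ofNat'_bit true m
    rwa [Nat.bit_true] at this
  unfold trNat
  rw [h1]
  cases hN : (m : Num) with
  | zero => rfl
  | pos p => rfl

theorem trNat_map (cc : Γ' → ℕ) (n : ℕ) :
    (trNat n).map cc = tn (cc Γ'.bit0) (cc Γ'.bit1) n := by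
  induction n using Nat.strong_induction_on with
  | _ n ih =>
    by_cases hn : n = 0
    · subst hn; rw [trNat_zero]; simp [tn]
    · rw [tn_pos _ _ hn, ← ih (n / 2) (Nat.div_lt_self (Nat.pos_of_ne_zero hn) (by norm_num))]
      rcases Nat.mod_two_eq_zero_or_one n with h | h
      · rw [if_pos h]
        have e : n = 2 * (n / 2) := by omega
        have e0 : n / 2 ≠ 0 := by omega
        conv_lhs => rw [e]
        rw [trNat_bit0 e0, List.map_cons]
      · rw [if_neg (by omega)]
        have e : n = 2 * (n / 2) + 1 := by omega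
        conv_lhs => rw [e]
        rw [trNat_bit1, List.map_cons]

/-- the word computing the value of a list of letters -/
def dbl (l : List ℕ) : List Letter :=
  l.foldl (fun acc m => acc ++ (Sum.inr (m, true) :: acc) ++ [Sum.inr (m, false)])
    [Sum.inr (0, true)]

theorem dbl_primrec : Primrec dbl := by
  unfold dbl
  refine Primrec.list_foldl (f := fun l : List ℕ => l)
    (g := fun _ => ([Sum.inr (0, true)] : List Letter))
    (h := fun _ (s : List Letter × ℕ) => s.1 ++ (Sum.inr (s.2, true) :: s.1) ++
      [Sum.inr (s.2, false)]) Primrec.id (Primrec.const _) ?_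
  have hs : Primrec (fun a : List ℕ × (List Letter × ℕ) => a.2.1) :=
    Primrec.fst.comp Primrec.snd
  have hm : Primrec (fun a : List ℕ × (List Letter × ℕ) => a.2.2) :=
    Primrec.snd.comp Primrec.snd
  have hl : ∀ e : Bool, Primrec (fun a : List ℕ × (List Letter × ℕ) =>
      (Sum.inr (a.2.2, e) : Letter)) := fun e =>
    Primrec.sumInr.comp (Primrec.pair hm (Primrec.const e))
  exact Primrec.list_append.comp
    (Primrec.list_append.comp hs (Primrec.list_cons.comp (hl true) hs))
    (Primrec.list_cons.comp (hl false) (Primrec.const []))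

theorem dbl_val (x : ℕ → Port) {L : Type} (hh : L → ℕ) (w : List L) :
    pw x (dbl (w.map hh)) = evw (x 0) (fun l => x (hh l)) w := by
  induction w using List.reverseRecOn with
  | nil => change pw x [Sum.inr (0, true)] = x 0; rw [pw_cons, pw_nil, mul_one]; rfl
  | append_singleton w l ih =>
    have e1 : evw (x 0) (fun l => x (hh l)) (w ++ [l]) =
        Dh (x (hh l)) (evw (x 0) (fun l => x (hh l)) w) := by
      unfold evw; rw [List.foldl_append]; rfl
    have e2 : dbl ((w ++ [l]).map hh) = dbl (w.map hh) ++
        (Sum.inr (hh l, true) :: dbl (w.map hh)) ++ [Sum.inr (hh l, false)] := by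
      unfold dbl; rw [List.map_append, List.foldl_append]; rfl
    rw [e1, e2, pw_append, pw_append, pw_cons, pw_cons, pw_nil, ih]
    change _ * (x (hh l) * _) * ((x (hh l))⁻¹ * 1) = _
    unfold Dh
    group

theorem undecidable : ¬ ComputablePred Solvable := by
  intro hcomp
  obtain ⟨Q, hQ, δ, q0, hbase⟩ := base
  haveI := hQ
  obtain ⟨code, hcode⟩ : ∃ code : Ltr Q K' Γ' → ℕ, Function.Injective code := by
    haveI : Countable (Ltr Q K' Γ') := Finite.to_countable
    exact exists_injective_nat _
  obtain ⟨S0, hS0⟩ := dfb_fix δ code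
  let c0 : ℕ → Q × (K' → List Γ') := fun n => (q0, K'.elim (trList [n]) [] [] [])
  let cc : Γ' → ℕ := fun a => hc code (Ltr.sy K'.main (some a))
  let codes : ℕ → List ℕ := fun n => hc code (Ltr.st q0) ::
    (tn (cc Γ'.bit0) (cc Γ'.bit1) n ++ [cc Γ'.cons, hc code (Ltr.sy K'.main none),
      hc code (Ltr.sy K'.rev none), hc code (Ltr.sy K'.aux none), hc code (Ltr.sy K'.stack none)])
  have hcodes : ∀ n, codes n = (cw ks (c0 n)).map (hc code) := by
    intro n
    change hc code (Ltr.st q0) :: _ = _
    rw [← trNat_map]
    simp [cw, ks, blk, c0, cc, Function.comp_def]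
  have hcp : Primrec codes := by
    refine Primrec.list_cons.comp (Primrec.const _) ?_
    exact Primrec.list_append.comp (tn_primrec _ _) (Primrec.const _)
  let f : ℕ → List (List Letter) := fun n => S0 ++ [dbl (codes n) ++ [Sum.inr (9, false)]]
  have hf : Computable f := by
    have : Primrec f := by
      refine Primrec.list_append.comp (Primrec.const _) ?_
      refine Primrec.list_cons.comp ?_ (Primrec.const [])
      exact Primrec.list_append.comp (dbl_primrec.comp hcp) (Primrec.const _)
    exact this.to_comp
  have key : ∀ n, Halt n ↔ Solvable (f n) := by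
    intro n
    rw [solvable_iff]
    have hdom : (eval (mstep δ) (c0 n)).Dom ↔ ∃ T cT, Nst δ T (c0 n) cT ∧ mstep δ cT = none := by
      have hreach : ∀ a b, Reaches (mstep δ) a b ↔ ∃ T, Nst δ T a b := by
        intro a b
        constructor
        · intro h
          induction h with
          | refl => exact ⟨0, rfl⟩
          | tail _ h1 ih =>
            obtain ⟨T, hT⟩ := ih
            exact ⟨T + 1, nst_snoc δ hT h1⟩
        · rintro ⟨T, h⟩
          induction T generalizing a with
          | zero => rw [show a = b from h]; exact Relation.ReflTransGen.refl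
          | succ T ih =>
            obtain ⟨c1, h1, h2⟩ := h
            exact Relation.ReflTransGen.head h1 (ih _ h2)
      constructor
      · intro h
        have hm := mem_eval.1 (Part.get_mem h)
        obtain ⟨T, hT⟩ := (hreach _ _).1 hm.1
        exact ⟨T, _, hT, hm.2⟩
      · rintro ⟨T, cT, h1, h2⟩
        exact Part.dom_iff_mem.2 ⟨cT, mem_eval.2 ⟨(hreach _ _).2 ⟨T, h1⟩, h2⟩⟩
    rw [hbase n]
    refine Iff.trans hdom ?_
    have hlast : ∀ x : ℕ → Port, pw x (dbl (codes n) ++ [Sum.inr (9, false)]) = 1 ↔
        evw (x 0) (fun l => x (hc code l)) (cw ks (c0 n)) = x 9 := by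
      intro x
      rw [pw_append, hcodes, dbl_val, pw_cons, pw_nil, mul_one]
      exact mul_inv_eq_one
    constructor
    · rintro ⟨T, cT, h1, h2⟩
      obtain ⟨x, hx1, hx2, hx3⟩ := complete δ code hcode h1 h2
      refine ⟨x, hx1, fun w hw => ?_⟩
      rw [List.mem_append, List.mem_singleton] at hw
      rcases hw with hw | rfl
      · exact (hS0 x).1 hx2 w hw
      · exact (hlast x).2 hx3
    · rintro ⟨x, hx1, hx2⟩
      refine sound δ code hx1 ((hS0 x).2 fun w hw => hx2 w (List.mem_append_left _ hw)) ?_
      exact (hlast x).1 (hx2 _ (List.mem_append_right _ (List.mem_singleton.2 rfl)))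
  exact halt_not_computable (ComputablePred.computable_of_manyOneReducible ⟨f, hf, key⟩ hcomp)

end Pool.Agent.Helper967.GG
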