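import Pool.Agent.Helper967.GG1

set_option autoImplicit false

/-! The generators of the Grigorchuk group and words in them. -/

namespace Pool.Agent.Helper967.GG

/-- the four generators -/
inductive Gen | a | b | c | d
deriving DecidableEq

/-- portraits of the generators -/
def gp : Gen → List Bool → Bool
  | .a, [] => true
  | .a, _ :: _ => false
  | .b, [] => false
  | .b, false :: w => gp .a w
  | .b, true :: w => gp .c w
  | .c, [] => false
  | .c, false :: w => gp .a w
  | .c, true :: w => gp .d w
  | .d, [] => false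
  | .d, false :: _ => false
  | .d, true :: w => gp .b w

open Port

def A : Port := gp .a
def B : Port := gp .b
def C : Port := gp .c
def D : Port := gp .d

@[simp] theorem ep_A : A.ep = true := rfl
@[simp] theorem ep_B : B.ep = false := rfl
@[simp] theorem ep_C : C.ep = false := rfl
@[simp] theorem ep_D : D.ep = false := rfl
@[simp] theorem sec_A (i : Bool) : A.sec i = 1 := by
  apply ext; intro w; rfl
@[simp] theorem sec0_B : B.sec false = A := by
  apply ext; intro w; rfl
@[simp] theorem sec1_B : B.sec true = C := by
  apply ext; intro w; rfl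
@[simp] theorem sec0_C : C.sec false = A := by
  apply ext; intro w; rfl
@[simp] theorem sec1_C : C.sec true = D := by
  apply ext; intro w; rfl
@[simp] theorem sec0_D : D.sec false = 1 := by
  apply ext; intro w; rfl
@[simp] theorem sec1_D : D.sec true = B := by
  apply ext; intro w; rfl

theorem AA : A * A = 1 := by
  apply ext' <;> simp [sec_mul]

theorem B_eq : B = pr A C := ext' (by simp) (by simp) (by simp)
theorem C_eq : C = pr A D := ext' (by simp) (by simp) (by simp)
theorem D_eq : D = pr 1 B := ext' (by simp) (by simp) (by simp)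
theorem A_eq : A = mk true 1 1 := ext' (by simp) (by simp) (by simp)

theorem sq_aux (w : List Bool) : (B * B) w = false ∧ (C * C) w = false ∧ (D * D) w = false := by
  induction w with
  | nil => exact ⟨rfl, rfl, rfl⟩
  | cons i w ih =>
    obtain ⟨hb, hc, hd⟩ := ih
    change ((B * B).sec i) w = false ∧ ((C * C).sec i) w = false ∧ ((D * D).sec i) w = false
    rw [sec_mul, sec_mul, sec_mul]
    cases i
    · simp only [ep_B, ep_C, ep_D, Bool.xor_false, sec0_B, sec0_C, sec0_D, AA, mul_one]
      exact ⟨rfl, rfl, rfl⟩
    · simp only [ep_B, ep_C, ep_D, Bool.xor_false, sec1_B, sec1_C, sec1_D]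
      exact ⟨hc, hd, hb⟩

theorem BB : B * B = 1 := ext fun w => (sq_aux w).1
theorem CC : C * C = 1 := ext fun w => (sq_aux w).2.1
theorem DD : D * D = 1 := ext fun w => (sq_aux w).2.2

theorem v4_aux (w : List Bool) : (B * C) w = D w ∧ (C * D) w = B w ∧ (D * B) w = C w := by
  induction w with
  | nil => exact ⟨rfl, rfl, rfl⟩
  | cons i w ih =>
    obtain ⟨hb, hc, hd⟩ := ih
    change ((B * C).sec i) w = (D.sec i) w ∧ ((C * D).sec i) w = (B.sec i) w ∧
      ((D * B).sec i) w = (C.sec i) w
    rw [sec_mul, sec_mul, sec_mul]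
    cases i
    · simp [AA]
    · simp only [ep_B, ep_C, ep_D, Bool.xor_false, sec1_B, sec1_C, sec1_D]
      exact ⟨hc, hd, hb⟩

theorem BC : B * C = D := ext fun w => (v4_aux w).1
theorem CD : C * D = B := ext fun w => (v4_aux w).2.1
theorem DB : D * B = C := ext fun w => (v4_aux w).2.2

theorem Ainv : A⁻¹ = A := inv_eq_of_mul_eq_one_left AA
theorem Binv : B⁻¹ = B := inv_eq_of_mul_eq_one_left BB
theorem Cinv : C⁻¹ = C := inv_eq_of_mul_eq_one_left CC
theorem Dinv : D⁻¹ = D := inv_eq_of_mul_eq_one_left DD
theorem CB : C * B = D := by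
  have := congrArg (·⁻¹) BC
  simpa [Binv, Cinv, Dinv] using this
theorem DC : D * C = B := by
  have := congrArg (·⁻¹) CD
  simpa [Binv, Cinv, Dinv] using this
theorem BD : B * D = C := by
  have := congrArg (·⁻¹) DB
  simpa [Binv, Cinv, Dinv] using this

/-- value of a generator -/
def gv : Gen → Port := gp

/-- value of a word -/
def ev (w : List Gen) : Port := (w.map gv).prod

@[simp] theorem ev_nil : ev [] = 1 := rfl
theorem ev_cons (g : Gen) (w : List Gen) : ev (g :: w) = gv g * ev w := by
  simp [ev]
theorem ev_append (v w : List Gen) : ev (v ++ w) = ev v * ev w := by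
  simp [ev]

theorem gv_mul_self (g : Gen) : gv g * gv g = 1 := by
  cases g
  · exact AA
  · exact BB
  · exact CC
  · exact DD

theorem gv_inv (g : Gen) : (gv g)⁻¹ = gv g := inv_eq_of_mul_eq_one_left (gv_mul_self g)

theorem ev_reverse (w : List Gen) : ev w.reverse = (ev w)⁻¹ := by
  induction w with
  | nil => simp
  | cons g w ih =>
    rw [List.reverse_cons, ev_append, ih, ev_cons, ev_cons, ev_nil, mul_one, mul_inv_rev, gv_inv]

/-- parity of the number of letters `a` -/
def par : List Gen → Bool
  | [] => false
  | .a :: w => !par w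
  | _ :: w => par w

def secL : Bool → Gen → List Gen
  | _, .a => []
  | false, .b => [.a]
  | true, .b => [.c]
  | false, .c => [.a]
  | true, .c => [.d]
  | false, .d => []
  | true, .d => [.b]

def secW (i : Bool) : List Gen → List Gen
  | [] => []
  | g :: w => secL (xor i (par w)) g ++ secW i w

/-- multiply a reduced word by a letter -/
def redc (g : Gen) : List Gen → List Gen
  | [] => [g]
  | h :: t =>
    match g, h with
    | .a, .a => t
    | .b, .b => t
    | .c, .c => t
    | .d, .d => t
    | .b, .c => .d :: t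
    | .c, .b => .d :: t
    | .b, .d => .c :: t
    | .d, .b => .c :: t
    | .c, .d => .b :: t
    | .d, .c => .b :: t
    | g, h => g :: h :: t

def red : List Gen → List Gen
  | [] => []
  | g :: w => redc g (red w)

/-- a test for triviality -/
def isOne : ℕ → List Gen → Bool
  | 0, w => w.isEmpty
  | n + 1, w => w.isEmpty || (!par w && (isOne n (red (secW false w)) && isOne n (red (secW true w))))

theorem ep_ev (w : List Gen) : (ev w).ep = par w := by
  induction w with
  | nil => rfl
  | cons g w ih =>
    rw [ev_cons, ep_mul, ih]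
    cases g
    · exact Bool.true_xor _
    · exact Bool.false_xor _
    · exact Bool.false_xor _
    · exact Bool.false_xor _

theorem sec_gv (i : Bool) (g : Gen) : (gv g).sec i = ev (secL i g) := by
  cases g <;> cases i <;> simp only [secL, ev_cons, ev_nil, mul_one]
  · exact sec_A _
  · exact sec_A _
  · exact sec0_B
  · exact sec1_B
  · exact sec0_C
  · exact sec1_C
  · exact sec0_D
  · exact sec1_D

theorem sec_ev (i : Bool) (w : List Gen) : (ev w).sec i = ev (secW i w) := by
  induction w with
  | nil => rfl
  | cons g w ih => rw [ev_cons, sec_mul, ih, ep_ev, sec_gv, secW, ev_append]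

theorem ev_redc (g : Gen) (w : List Gen) : ev (redc g w) = gv g * ev w := by
  cases w with
  | nil => simp [redc, ev_cons]
  | cons h t =>
    have key : ∀ x y z : Port, x * y = z → z * ev t = x * (y * ev t) := by
      intro x y z hz; rw [← hz, mul_assoc]
    cases g <;> cases h <;> simp only [redc, ev_cons]
    · exact (one_mul _).symm.trans (key _ _ _ AA)
    · exact (one_mul _).symm.trans (key _ _ _ BB)
    · exact key _ _ _ BC
    · exact key _ _ _ BD
    · exact key _ _ _ CB
    · exact (one_mul _).symm.trans (key _ _ _ CC)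
    · exact key _ _ _ CD
    · exact key _ _ _ DB
    · exact key _ _ _ DC
    · exact (one_mul _).symm.trans (key _ _ _ DD)

theorem ev_red (w : List Gen) : ev (red w) = ev w := by
  induction w with
  | nil => rfl
  | cons g w ih => rw [red, ev_redc, ih, ev_cons]

theorem isOne_sound (n : ℕ) (w : List Gen) (h : isOne n w = true) : ev w = 1 := by
  induction n generalizing w with
  | zero =>
    have : w = [] := by simpa [isOne] using h
    rw [this]; rfl
  | succ n ih =>
    simp only [isOne, Bool.or_eq_true, Bool.and_eq_true] at h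
    rcases h with h | ⟨h1, h2, h3⟩
    · have : w = [] := by simpa using h
      rw [this]; rfl
    · apply ext'
      · rw [ep_ev]; simpa using h1
      · rw [sec_ev, ← ev_red, ih _ h2]; rfl
      · rw [sec_ev, ← ev_red, ih _ h3]; rfl

theorem ev_eq_of (n : ℕ) (v w : List Gen) (h : isOne n (red (v ++ w.reverse)) = true) :
    ev v = ev w := by
  have := isOne_sound n _ h
  rw [ev_red, ev_append, ev_reverse] at this
  exact mul_inv_eq_one.1 this

/-- the Grigorchuk group, as a group of portraits -/
def G : Subgroup Port := Subgroup.closure {A, B, C, D}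

theorem gv_mem (g : Gen) : gv g ∈ G := by
  apply Subgroup.subset_closure
  cases g
  · exact Or.inl rfl
  · exact Or.inr (Or.inl rfl)
  · exact Or.inr (Or.inr (Or.inl rfl))
  · exact Or.inr (Or.inr (Or.inr rfl))

theorem A_mem : A ∈ G := gv_mem .a
theorem B_mem : B ∈ G := gv_mem .b
theorem C_mem : C ∈ G := gv_mem .c
theorem D_mem : D ∈ G := gv_mem .d

theorem ev_mem (w : List Gen) : ev w ∈ G := by
  induction w with
  | nil => exact G.one_mem
  | cons g w ih => rw [ev_cons]; exact G.mul_mem (gv_mem g) ih

theorem exists_word {x : Port} (hx : x ∈ G) : ∃ w, ev w = x := by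
  induction hx using Subgroup.closure_induction with
  | mem x hx =>
    rcases hx with h | h | h | h
    · exact ⟨[.a], by rw [ev_cons, ev_nil, mul_one]; exact h.symm⟩
    · exact ⟨[.b], by rw [ev_cons, ev_nil, mul_one]; exact h.symm⟩
    · exact ⟨[.c], by rw [ev_cons, ev_nil, mul_one]; exact h.symm⟩
    · exact ⟨[.d], by rw [ev_cons, ev_nil, mul_one]; exact h.symm⟩
  | one => exact ⟨[], rfl⟩
  | mul x y _ _ hx hy =>
    obtain ⟨v, rfl⟩ := hx
    obtain ⟨w, rfl⟩ := hy
    exact ⟨v ++ w, ev_append v w⟩
  | inv x _ hx =>
    obtain ⟨v, rfl⟩ := hx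
    exact ⟨v.reverse, ev_reverse v⟩

theorem sec_mem {x : Port} (hx : x ∈ G) (i : Bool) : x.sec i ∈ G := by
  obtain ⟨w, rfl⟩ := exists_word hx
  rw [sec_ev]
  exact ev_mem _

theorem secs_mem {x : Port} (hx : x ∈ G) (u : List Bool) : secs u x ∈ G := by
  induction u generalizing x with
  | nil => exact hx
  | cons i u ih => exact ih (sec_mem hx i)

/-- the nucleus -/
def Nuc (x : Port) : Prop := x = 1 ∨ x = A ∨ x = B ∨ x = C ∨ x = D

theorem Nuc.sec {x : Port} (h : Nuc x) (i : Bool) : Nuc (x.sec i) := by
  rcases h with h | h | h | h | h <;> rw [h] <;> cases i <;> simp [Nuc]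

theorem Nuc.secs {x : Port} (h : Nuc x) (u : List Bool) : Nuc (secs u x) := by
  induction u generalizing x with
  | nil => exact h
  | cons i u ih => exact ih (h.sec i)

theorem Nuc.mul_sec {x y : Port} (hx : Nuc x) (hy : Nuc y) (i : Bool) : Nuc ((x * y).sec i) := by
  rcases hx with h | h | h | h | h <;> rcases hy with h' | h' | h' | h' | h' <;> rw [h, h'] <;>
    cases i <;> simp [Nuc, sec_mul, AA, BB, CC, DD, BC, CD, DB, CB, DC, BD]

theorem contract {x : Port} (hx : x ∈ G) : ∃ n, ∀ w : List Bool, w.length = n → Nuc (secs w x) := by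
  obtain ⟨v, rfl⟩ := exists_word hx
  induction v with
  | nil => exact ⟨0, fun w _ => by rw [ev_nil, secs_one]; exact Or.inl rfl⟩
  | cons g v ih =>
    obtain ⟨n, hn⟩ := ih (ev_mem v)
    have hg : Nuc (gv g) := by
      cases g
      · exact Or.inr (Or.inl rfl)
      · exact Or.inr (Or.inr (Or.inl rfl))
      · exact Or.inr (Or.inr (Or.inr (Or.inl rfl)))
      · exact Or.inr (Or.inr (Or.inr (Or.inr rfl)))
    refine ⟨n + 1, fun w hw => ?_⟩
    -- split off the last letter
    have hne : w ≠ [] := by rintro rfl; simp at hw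
    obtain ⟨w', i, rfl⟩ : ∃ w' i, w = w' ++ [i] :=
      ⟨w.dropLast, w.getLast hne, (List.dropLast_append_getLast hne).symm⟩
    have hw' : w'.length = n := by simpa using hw
    have happ : ∀ (u : List Bool) (P : Port), Port.secs (u ++ [i]) P = (Port.secs u P).sec i := by
      intro u
      induction u with
      | nil => intro P; rfl
      | cons j u ihu => intro P; exact ihu _
    rw [happ, ev_cons, secs_mul]
    exact (hg.secs _).mul_sec (hn w' hw') i

end Pool.Agent.Helper967.GG
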