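import Pool.Agent.Helper967.GG2

set_option autoImplicit false

/-! The branching subgroup and self-replication. -/

namespace Pool.Agent.Helper967.GG

open Port

/-- `(ab)^2` -/
def T2 : Port := ev [.a, .b, .a, .b]

/-- the branching subgroup: the normal closure of `(ab)^2` -/
def K : Subgroup Port := Subgroup.closure {x | ∃ g ∈ G, x = g * T2 * g⁻¹}

theorem T2_mem : T2 ∈ K := Subgroup.subset_closure ⟨1, G.one_mem, by simp⟩

theorem K_le : K ≤ G := by
  rw [K, Subgroup.closure_le]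
  rintro x ⟨g, hg, rfl⟩
  exact G.mul_mem (G.mul_mem hg (ev_mem _)) (G.inv_mem hg)

theorem K_conj {g k : Port} (hg : g ∈ G) (hk : k ∈ K) : g * k * g⁻¹ ∈ K := by
  induction hk using Subgroup.closure_induction with
  | mem x hx =>
    obtain ⟨h, hh, rfl⟩ := hx
    exact Subgroup.subset_closure ⟨g * h, G.mul_mem hg hh, by group⟩
  | one => simp [K.one_mem]
  | mul x y _ _ hx hy =>
    have : g * (x * y) * g⁻¹ = (g * x * g⁻¹) * (g * y * g⁻¹) := by group
    rw [this]; exact K.mul_mem hx hy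
  | inv x _ hx =>
    have : g * x⁻¹ * g⁻¹ = (g * x * g⁻¹)⁻¹ := by group
    rw [this]; exact K.inv_mem hx

/-- self-replication at the vertex 0 -/
theorem repl0 {g : Port} (hg : g ∈ G) : ∃ h ∈ G, h.ep = false ∧ h.sec false = g := by
  obtain ⟨w, rfl⟩ := exists_word hg
  clear hg
  induction w with
  | nil => exact ⟨1, G.one_mem, rfl, rfl⟩
  | cons x w ih =>
    obtain ⟨h, hh, he, hs⟩ := ih
    have key : ∀ v : List Gen, par v = false → ev (secW false v) = gv x →
        ∃ h ∈ G, h.ep = false ∧ h.sec false = ev (x :: w) := by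
      intro v hv1 hv2
      refine ⟨ev v * h, G.mul_mem (ev_mem v) hh, ?_, ?_⟩
      · rw [ep_mul, ep_ev, hv1, he]; rfl
      · rw [sec_mul, he, Bool.xor_false, sec_ev, hv2, hs, ev_cons]
    cases x
    · exact key [.b] rfl (by simp [secW, secL, par, ev_cons])
    · exact key [.a, .d, .a] rfl (by simp [secW, secL, par, ev_cons])
    · exact key [.a, .b, .a] rfl (by simp [secW, secL, par, ev_cons])
    · exact key [.a, .c, .a] rfl (by simp [secW, secL, par, ev_cons])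

theorem repl (i j : Bool) {g : Port} (hg : g ∈ G) :
    ∃ h ∈ G, xor i h.ep = j ∧ h.sec i = g := by
  obtain ⟨h, hh, he, hs⟩ := repl0 hg
  cases i <;> cases j
  · exact ⟨h, hh, by rw [he]; rfl, hs⟩
  · exact ⟨A * h, G.mul_mem A_mem hh, by rw [ep_mul, he]; rfl, by rw [sec_mul, sec_A, hs, one_mul]⟩
  · refine ⟨h * A, G.mul_mem hh A_mem, by rw [ep_mul, he]; rfl, ?_⟩
    rw [sec_mul, sec_A, mul_one]; exact hs
  · refine ⟨A * h * A, G.mul_mem (G.mul_mem A_mem hh) A_mem, by rw [ep_mul, ep_mul, he]; rfl, ?_⟩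
    simpa [sec_mul] using hs

theorem trans_sec (v v' : List Bool) (hl : v.length = v'.length) {h : Port} (hh : h ∈ G) :
    ∃ g ∈ G, g.act v = v' ∧ secs v g = h := by
  induction v generalizing v' with
  | nil =>
    have : v' = [] := by
      cases v' with
      | nil => rfl
      | cons _ _ => simp at hl
    subst this
    exact ⟨h, hh, rfl, rfl⟩
  | cons i v ih =>
    cases v' with
    | nil => simp at hl
    | cons j v' =>
      obtain ⟨g', hg', ha, hs⟩ := ih v' (by simpa using hl)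
      obtain ⟨g, hg, hx, hs'⟩ := repl i j hg'
      exact ⟨g, hg, by rw [act_cons, hx, hs', ha], by rw [secs_cons, hs', hs]⟩

theorem T2_0 : pr T2 1 ∈ K := by
  have h1 : ev [.a, .b, .a] * (T2 * (ev [.a, .d, .a] * T2⁻¹ * (ev [.a, .d, .a])⁻¹)) *
      (ev [.a, .b, .a])⁻¹ ∈ K :=
    K_conj (ev_mem _) (K.mul_mem T2_mem (K_conj (ev_mem _) (K.inv_mem T2_mem)))
  have h2 : ev [.a, .b, .a] * (T2 * (ev [.a, .d, .a] * T2⁻¹ * (ev [.a, .d, .a])⁻¹)) *
      (ev [.a, .b, .a])⁻¹ = pr T2 1 := by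
    unfold T2
    rw [← ev_reverse, ← ev_reverse, ← ev_reverse, ← ev_append, ← ev_append, ← ev_append,
      ← ev_append, ← ev_append]
    apply ext'
    · rw [ep_ev]; rfl
    · rw [sec_ev, sec0_pr]
      apply ev_eq_of 8
      decide +kernel
    · rw [sec_ev, sec1_pr]
      apply isOne_sound 8
      decide +kernel
  rw [← h2]; exact h1

theorem K0 {k : Port} (hk : k ∈ K) : pr k 1 ∈ K := by
  induction hk using Subgroup.closure_induction with
  | mem x hx =>
    obtain ⟨g, hg, rfl⟩ := hx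
    obtain ⟨h, hh, he, hs⟩ := repl0 hg
    have : pr (g * T2 * g⁻¹) 1 = h * pr T2 1 * h⁻¹ := by
      apply ext'
      · simp [he]
      · simp [sec_mul, sec_inv, he, hs]
      · simp [sec_mul, sec_inv, he]
    rw [this]
    exact K_conj hh T2_0
  | one => rw [pr_one]; exact K.one_mem
  | mul x y _ _ hx hy =>
    have : pr (x * y) 1 = pr x 1 * pr y 1 := by rw [pr_mul, one_mul]
    rw [this]; exact K.mul_mem hx hy
  | inv x _ hx =>
    have : pr x⁻¹ 1 = (pr x 1)⁻¹ := by rw [pr_inv, inv_one]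
    rw [this]; exact K.inv_mem hx

theorem K1 {k : Port} (hk : k ∈ K) : pr 1 k ∈ K := by
  have : pr 1 k = A * pr k 1 * A⁻¹ := by
    apply ext' <;> simp [sec_mul, sec_inv]
  rw [this]
  exact K_conj A_mem (K0 hk)

theorem K_atv {k : Port} (hk : k ∈ K) (u : List Bool) : atv u k ∈ K := by
  induction u with
  | nil => exact hk
  | cons i u ih => cases i
                   · exact K0 ih
                   · exact K1 ih

/-- `(ac)^4` -/
def Zt : Port := ev [.a, .c, .a, .c, .a, .c, .a, .c]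

theorem Zt_aux {x y z s : Port} (hx : x ∈ G) (hy : y ∈ G) (hz : z ∈ G) (hs : s ∈ G) :
    T2 * (x * T2 * x⁻¹) * (y * T2 * y⁻¹) * (z * T2 * z⁻¹) * (T2⁻¹ * (s * T2⁻¹ * s⁻¹)) ∈ K := by
  have h1 := K_conj hx T2_mem
  have h2 := K_conj hy T2_mem
  have h3 := K_conj hz T2_mem
  have h4 := K_conj hs (K.inv_mem T2_mem)
  exact K.mul_mem (K.mul_mem (K.mul_mem (K.mul_mem T2_mem h1) h2) h3)
      (K.mul_mem (K.inv_mem T2_mem) h4)

theorem Zt_mem : Zt ∈ K := by
  have h1 := Zt_aux (ev_mem [.b,.a,.d]) (ev_mem [.b,.a,.d,.b,.a,.d])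
    (ev_mem [.b,.a,.d,.b,.a,.d,.b,.a,.d]) (ev_mem [.a,.d,.a,.d])
  have h2 : T2 * (ev [.b,.a,.d] * T2 * (ev [.b,.a,.d])⁻¹) *
      (ev [.b,.a,.d,.b,.a,.d] * T2 * (ev [.b,.a,.d,.b,.a,.d])⁻¹) *
      (ev [.b,.a,.d,.b,.a,.d,.b,.a,.d] * T2 * (ev [.b,.a,.d,.b,.a,.d,.b,.a,.d])⁻¹) *
      (T2⁻¹ * (ev [.a,.d,.a,.d] * T2⁻¹ * (ev [.a,.d,.a,.d])⁻¹)) = Zt := by
    unfold T2 Zt
    simp only [← ev_reverse, ← ev_append]
    apply ev_eq_of 8
    decide +kernel
  rw [← h2]; exact h1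

end Pool.Agent.Helper967.GG
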