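import Pool.Agent.Helper967.GG3

set_option autoImplicit false

/-! The system that has no solution: infinite descent. -/

namespace Pool.Agent.Helper967.GG

open Port

def be (P : Port) : Bool := xor (P.sec false).ep (P.sec true).ep
def x0 (P : Port) : Bool := xor (be (P.sec false)) (P.sec true).ep
def x1 (P : Port) : Bool := xor (be (P.sec true)) (P.sec false).ep
def sx (P : Port) : Bool := xor (x0 P) (x1 P)

theorem be_mul (P Q : Port) : be (P * Q) = xor (be P) (be Q) := by
  unfold be
  rw [sec_mul, sec_mul, ep_mul, ep_mul]
  cases Q.ep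
  · simp only [Bool.xor_false]; simp only [Bool.xor_assoc, Bool.xor_comm, Bool.xor_left_comm]
  · simp only [Bool.xor_true, Bool.not_true, Bool.not_false]; simp only [Bool.xor_assoc, Bool.xor_comm, Bool.xor_left_comm]

theorem x0_mul (P Q : Port) : x0 (P * Q) = xor (if Q.ep then x1 P else x0 P) (x0 Q) := by
  unfold x0 x1
  rw [sec_mul, sec_mul, be_mul, ep_mul]
  cases Q.ep
  · simp only [Bool.xor_false, Bool.false_eq_true, if_false]; simp only [Bool.xor_assoc, Bool.xor_comm, Bool.xor_left_comm]
  · simp only [Bool.xor_true, Bool.not_true, Bool.not_false, if_true]; simp only [Bool.xor_assoc, Bool.xor_comm, Bool.xor_left_comm]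

theorem x1_mul (P Q : Port) : x1 (P * Q) = xor (if Q.ep then x0 P else x1 P) (x1 Q) := by
  unfold x0 x1
  rw [sec_mul, sec_mul, be_mul, ep_mul]
  cases Q.ep
  · simp only [Bool.xor_false, Bool.false_eq_true, if_false]; simp only [Bool.xor_assoc, Bool.xor_comm, Bool.xor_left_comm]
  · simp only [Bool.xor_true, Bool.not_true, Bool.not_false, if_true]; simp only [Bool.xor_assoc, Bool.xor_comm, Bool.xor_left_comm]

theorem sx_mul (P Q : Port) : sx (P * Q) = xor (sx P) (sx Q) := by
  unfold sx
  rw [x0_mul, x1_mul]
  cases Q.ep
  · simp only [Bool.false_eq_true, if_false]; simp only [Bool.xor_assoc, Bool.xor_comm, Bool.xor_left_comm]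
  · simp only [if_true]; simp only [Bool.xor_assoc, Bool.xor_comm, Bool.xor_left_comm]

theorem be_inv (P : Port) : be P⁻¹ = be P := by
  have h := be_mul P⁻¹ P
  rw [inv_mul_cancel] at h
  have h1 : be 1 = false := rfl
  rw [h1] at h
  cases h2 : be P⁻¹ <;> cases h3 : be P <;> simp_all

theorem sx_inv (P : Port) : sx P⁻¹ = sx P := by
  have h := sx_mul P⁻¹ P
  rw [inv_mul_cancel] at h
  have h1 : sx 1 = false := rfl
  rw [h1] at h
  cases h2 : sx P⁻¹ <;> cases h3 : sx P <;> simp_all

/-- compatibility of the two sections -/
def Good2 (p q : Port) : Prop :=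
  q.ep = sx p ∧ p.ep = sx q ∧ x0 q = xor (x0 p) (p.ep && q.ep)

theorem Good2.symm {p q : Port} (h : Good2 p q) : Good2 q p := by
  obtain ⟨h1, h2, h3⟩ := h
  refine ⟨h2, h1, ?_⟩
  rw [h3]
  cases x0 p <;> cases p.ep <;> cases q.ep <;> rfl

theorem Good2.mul {p q p' q' : Port} (h : Good2 p q) (h' : Good2 p' q') :
    Good2 (p * p') (q * q') := by
  obtain ⟨h1, h2, h3⟩ := h
  obtain ⟨h1', h2', h3'⟩ := h'
  refine ⟨?_, ?_, ?_⟩
  · rw [ep_mul, sx_mul, h1, h1']
  · rw [ep_mul, sx_mul, h2, h2']
  · rw [x0_mul, x0_mul, ep_mul, ep_mul]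
    have e1 : x1 p = xor (x0 p) q.ep := by
      rw [h1]; unfold sx; cases x0 p <;> cases x1 p <;> rfl
    have e2 : x1 q = xor (x0 q) p.ep := by
      rw [h2]; unfold sx; cases x0 q <;> cases x1 q <;> rfl
    rw [e1, e2, h3, h3']
    cases x0 p <;> cases x0 p' <;> cases p.ep <;> cases q.ep <;> cases p'.ep <;> cases q'.ep <;> rfl

def Good (P : Port) : Prop := Good2 (P.sec false) (P.sec true)

theorem Good.mul {P Q : Port} (h : Good P) (h' : Good Q) : Good (P * Q) := by
  unfold Good at *
  rw [sec_mul, sec_mul]
  cases Q.ep
  · exact Good2.mul h h'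
  · exact Good2.mul h.symm h'

theorem good_gen (g : Gen) : Good (gv g) := by
  cases g
  · change Good2 (A.sec false) (A.sec true)
    simp [Good2, sx, x0, x1, be]
  · change Good2 (B.sec false) (B.sec true)
    simp [Good2, sx, x0, x1, be]
  · change Good2 (C.sec false) (C.sec true)
    simp [Good2, sx, x0, x1, be]
  · change Good2 (D.sec false) (D.sec true)
    simp [Good2, sx, x0, x1, be]

theorem good {x : Port} (hx : x ∈ G) : Good x := by
  obtain ⟨w, rfl⟩ := exists_word hx
  clear hx
  induction w with
  | nil => rw [ev_nil]; simp [Good, Good2, sx, x0, x1, be]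
  | cons g w ih => rw [ev_cons]; exact (good_gen g).mul ih

/-- the relator -/
def Rr (x t : Port) : Port := (t * x * x * t * x⁻¹ * x⁻¹) * (t * x * x * t * x⁻¹ * x⁻¹)

theorem sec_Rr {x t : Port} (hx : x.ep = false) (ht : t.ep = false) (i : Bool) :
    (Rr x t).sec i = Rr (x.sec i) (t.sec i) := by
  simp [Rr, sec_mul, sec_inv, hx, ht]

theorem ep_Rr {x t : Port} : (Rr x t).ep = false := by
  unfold Rr; simp only [ep_mul, ep_inv]
  cases x.ep <;> cases t.ep <;> rfl

theorem L2 {s f : Port} (hf : f ∈ G) (es : s.ep = true) (ef : f.ep = false)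
    (bf : be f = true) (h : (s * f * s⁻¹ * f⁻¹) * (s * f * s⁻¹ * f⁻¹) = 1) : False := by
  have hm : (s * f * s⁻¹ * f⁻¹).sec false =
      s.sec true * f.sec true * (s.sec true)⁻¹ * (f.sec false)⁻¹ := by
    simp [sec_mul, sec_inv, es, ef]
  have he : (s * f * s⁻¹ * f⁻¹).ep = false := by
    simp [es, ef]
  have h0 := congrArg (sec false) h
  rw [sec_mul, he, Bool.xor_false, sec_one, hm] at h0
  have hg := good hf
  obtain ⟨g1, g2, -⟩ := hg
  set m := s.sec true * f.sec true * (s.sec true)⁻¹ * (f.sec false)⁻¹ with hmd
  have em : m.ep = true := by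
    have : m.ep = xor (f.sec false).ep (f.sec true).ep := by
      rw [hmd]; simp only [ep_mul, ep_inv]
      cases (s.sec true).ep <;> cases (f.sec true).ep <;> cases (f.sec false).ep <;> rfl
    rw [this]; exact bf
  have sm : sx m = true := by
    have : sx m = xor (f.sec false).ep (f.sec true).ep := by
      rw [hmd, g1, g2]; simp only [sx_mul, sx_inv]
      cases sx (s.sec true) <;> cases sx (f.sec true) <;> cases sx (f.sec false) <;> rfl
    rw [this]; exact bf
  have h2 := congrArg x0 h0
  rw [x0_mul, em, if_pos rfl] at h2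
  have h3 : x0 1 = false := rfl
  rw [h3] at h2
  unfold sx at sm
  cases h4 : x0 m <;> cases h5 : x1 m <;> simp_all

theorem L1 {p : Port} (hp : p ∈ G) (ep : p.ep = true) (bp : be p = true) (h0 : x0 p = false)
    (h1 : x1 p = false) (h : Rr p A = 1) : False := by
  have hs := congrArg (sec false) h
  have hR : (Rr p A).sec false = (p.sec false * p.sec true * (p.sec false)⁻¹ * (p.sec true)⁻¹) *
      (p.sec false * p.sec true * (p.sec false)⁻¹ * (p.sec true)⁻¹) := by
    simp only [Rr, sec_mul, sec_inv, ep_mul, ep_inv, ep, ep_A, sec_A]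
    simp [mul_assoc]
  rw [hR, sec_one] at hs
  unfold be at bp
  unfold x0 at h0
  unfold x1 at h1
  cases e0 : (p.sec false).ep
  · cases e1 : (p.sec true).ep
    · rw [e0, e1] at bp; simp at bp
    · rw [e1] at h0
      have hb : be (p.sec false) = true := by simpa using h0
      refine L2 (s := p.sec true) (f := p.sec false) (sec_mem hp _) e1 e0 hb ?_
      have := congrArg (·⁻¹) hs
      simpa [mul_assoc] using this
  · cases e1 : (p.sec true).ep
    · rw [e0] at h1
      have hb : be (p.sec true) = true := by simpa using h1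
      exact L2 (s := p.sec false) (f := p.sec true) (sec_mem hp _) e0 e1 hb hs
    · rw [e0, e1] at bp; simp at bp

/-- fixes the rightmost ray -/
def Ray (x : Port) : Prop := ∀ n, (secs (List.replicate n true) x).ep = false

theorem Ray.ep {x : Port} (h : Ray x) : x.ep = false := h 0

theorem Ray.sec {x : Port} (h : Ray x) : Ray (x.sec true) := fun n => h (n + 1)

theorem act_rep {x : Port} (h : Ray x) (n : ℕ) :
    x.act (List.replicate n true) = List.replicate n true := by
  induction n generalizing x with
  | zero => rfl
  | succ n ih => rw [List.replicate_succ, act_cons, h.ep, ih h.sec]; rfl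

theorem Ray.mul {x y : Port} (hx : Ray x) (hy : Ray y) : Ray (x * y) := by
  intro n
  rw [secs_mul, act_rep hy, ep_mul, hx n, hy n]; rfl

theorem Ray.inv {x : Port} (hx : Ray x) : Ray x⁻¹ := by
  intro n
  have h1 : secs (List.replicate n true) (x * x⁻¹) = 1 := by rw [mul_inv_cancel, secs_one]
  have h2 : x⁻¹.act (List.replicate n true) = List.replicate n true := by
    apply x.act_injective
    rw [← act_mul, mul_inv_cancel, act_one, act_rep hx]
  rw [secs_mul, h2] at h1
  have h3 := congrArg Port.ep h1
  rw [ep_mul, hx n] at h3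
  simpa using h3

theorem ray_of_comm_aux (n : ℕ) : ∀ g : Port,
    ((Commute g B → (secs (List.replicate n true) g).ep = false) ∧
    (Commute g C → (secs (List.replicate n true) g).ep = false)) ∧
    (Commute g D → (secs (List.replicate n true) g).ep = false) := by
  have hB : ∀ g : Port, Commute g B → g.ep = false := by
    intro g h
    by_contra hg
    have hg : g.ep = true := by simpa using hg
    have := congrArg Port.ep (congrArg (sec false) h.eq)
    rw [sec_mul, sec_mul, hg] at this
    simp at this
  have hC : ∀ g : Port, Commute g C → g.ep = false := by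
    intro g h
    by_contra hg
    have hg : g.ep = true := by simpa using hg
    have := congrArg Port.ep (congrArg (sec false) h.eq)
    rw [sec_mul, sec_mul, hg] at this
    simp at this
  have hD : ∀ g : Port, Commute g D → g.ep = false := by
    intro g h
    by_contra hg
    have hg : g.ep = true := by simpa using hg
    have h1 := congrArg (sec false) h.eq
    rw [sec_mul, sec_mul, hg] at h1
    simp at h1
    have h2 := congrArg Port.ep (congrArg (sec false) h1)
    simp at h2
  induction n with
  | zero => exact fun g => ⟨⟨hB g, hC g⟩, hD g⟩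
  | succ n ih =>
    intro g
    refine ⟨⟨fun h => ?_, fun h => ?_⟩, fun h => ?_⟩
    · have h1 := congrArg (sec true) h.eq
      rw [sec_mul, sec_mul, hB g h] at h1
      exact (ih (g.sec true)).1.2 (by simpa [Commute, SemiconjBy] using h1)
    · have h1 := congrArg (sec true) h.eq
      rw [sec_mul, sec_mul, hC g h] at h1
      exact (ih (g.sec true)).2 (by simpa [Commute, SemiconjBy] using h1)
    · have h1 := congrArg (sec true) h.eq
      rw [sec_mul, sec_mul, hD g h] at h1
      exact (ih (g.sec true)).1.1 (by simpa [Commute, SemiconjBy] using h1)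

theorem ray_B {g : Port} (h : Commute g B) : Ray g := fun n => (ray_of_comm_aux n g).1.1 h
theorem ray_C {g : Port} (h : Commute g C) : Ray g := fun n => (ray_of_comm_aux n g).1.2 h
theorem ray_D {g : Port} (h : Commute g D) : Ray g := fun n => (ray_of_comm_aux n g).2 h

/-- the hypotheses of the descent -/
structure Des (x : Port) : Prop where
  mem : x ∈ G
  ray : Ray x
  b1 : be x = true
  c0 : x0 x = true
  c1 : x1 x = false
  rB : Rr x B = 1
  rC : Rr x C = 1
  rD : Rr x D = 1

theorem Des.step {y : Port} (h : Des y) : Des (y.sec true) := by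
  obtain ⟨hm, hr, hb, h0, h1, rB, rC, rD⟩ := h
  have ey := hr.ep
  have eq : (y.sec true).ep = false := hr.sec.ep
  have ep : (y.sec false).ep = true := by
    unfold be at hb; rw [eq] at hb; simpa using hb
  obtain ⟨g1, g2, g3⟩ := good hm
  rw [eq] at g1 g3
  rw [ep] at g2 g3
  have hbp : be (y.sec false) = true := by
    unfold x0 at h0; rw [eq] at h0; simpa using h0
  have hbq : be (y.sec true) = true := by
    unfold x1 at h1; rw [ep] at h1; simpa using h1
  have sB := congrArg (sec false) rB
  rw [sec_Rr ey ep_B, sec0_B, sec_one] at sB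
  have tB := congrArg (sec true) rB
  have tC := congrArg (sec true) rC
  have tD := congrArg (sec true) rD
  rw [sec_Rr ey ep_B, sec1_B, sec_one] at tB
  rw [sec_Rr ey ep_C, sec1_C, sec_one] at tC
  rw [sec_Rr ey ep_D, sec1_D, sec_one] at tD
  have hx0 : x0 (y.sec false) = true := by
    by_contra hc
    have hc : x0 (y.sec false) = false := by simpa using hc
    have hc1 : x1 (y.sec false) = false := by
      unfold sx at g1; rw [hc] at g1; simpa using g1.symm
    exact L1 (sec_mem hm _) ep hbp hc hc1 sB
  have hq0 : x0 (y.sec true) = true := by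
    rw [g3, hx0]; rfl
  have hq1 : x1 (y.sec true) = false := by
    unfold sx at g2; rw [hq0] at g2; simpa using g2
  exact ⟨sec_mem hm _, hr.sec, hbq, hq0, hq1, tD, tB, tC⟩

theorem Des.false {x : Port} (h : Des x) : False := by
  obtain ⟨n, hn⟩ := contract h.mem
  have key : ∀ (n : ℕ) (x : Port), Des x → Des (secs (List.replicate n true) x) := by
    intro n
    induction n with
    | zero => exact fun x h => h
    | succ n ih => exact fun x h => ih _ h.step
  have h1 := key n x h
  have h2 := hn (List.replicate n true) (by simp)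
  have h3 := h1.c0
  rcases h2 with h2 | h2 | h2 | h2 | h2 <;> rw [h2] at h3 <;> simp [x0, be] at h3

theorem atv_eq {u v : List Bool} (hl : u.length = v.length) (h : u ≠ v) {P Q : Port}
    (he : atv u P = atv v Q) : Q = 1 := by
  induction u generalizing v with
  | nil =>
    cases v with
    | nil => exact absurd rfl h
    | cons _ _ => simp at hl
  | cons i u ih =>
    cases v with
    | nil => simp at hl
    | cons j v =>
      have hl' : u.length = v.length := by simpa using hl
      by_cases hij : i = j
      · subst hij
        have h' : u ≠ v := fun e => h (by rw [e])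
        cases i
        · exact ih hl' h' (congrArg (sec false) he)
        · exact ih hl' h' (congrArg (sec true) he)
      · cases i <;> cases j
        · exact absurd rfl hij
        · have := congrArg (sec true) he
          simp [atv_f, atv_t] at this
          rw [← atv_one v] at this
          exact (atv_injective v this).symm
        · have := congrArg (sec false) he
          simp [atv_f, atv_t] at this
          rw [← atv_one v] at this
          exact (atv_injective v this).symm
        · exact absurd rfl hij

theorem fix_of_comm {g k : Port} {v : List Bool} (hk : k ≠ 1) (h : Commute g (atv v k)) :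
    g.act v = v := by
  by_contra hne
  have h1 : g * atv v k * g⁻¹ = atv v k := by rw [h.eq, mul_inv_cancel_right]
  rw [conj_atv] at h1
  exact hk (atv_eq (act_length g v) hne h1)

theorem T2_ne : T2 ≠ 1 := by
  intro h
  have := congrArg Port.ep (congrArg (sec false) h)
  revert this
  unfold T2
  rw [sec_ev, ep_ev]
  decide

/-- elements commuting with three test elements have trivial class -/
theorem class_triv {g : Port} (hr : Ray g) (h1 : Commute g (atv [false, false, false] T2))
    (h2 : Commute g (atv [false, true, false] T2)) (h3 : Commute g (atv [true, false, false] T2)) :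
    be g = false ∧ x0 g = false ∧ x1 g = false := by
  have f1 := fix_of_comm T2_ne h1
  have f2 := fix_of_comm T2_ne h2
  have f3 := fix_of_comm T2_ne h3
  have e0 := hr.ep
  have e1 := hr.sec.ep
  have e11 := hr.sec.sec.ep
  simp only [act_cons, act_nil, e0, e1, List.cons.injEq, Bool.xor_false, Bool.false_xor,
    true_and, and_true] at f1 f2 f3
  obtain ⟨a1, a2⟩ := f1
  obtain ⟨b1, b2⟩ := f2
  refine ⟨?_, ?_, ?_⟩
  · unfold be; rw [a1, e1]; rfl
  · unfold x0 be; rw [a2, b2, e1]; rfl
  · unfold x1 be; rw [f3, e11, a1]; rfl

end Pool.Agent.Helper967.GG
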