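import Pool.Agent.Helper967.GG4

set_option autoImplicit false

/-! Solutions of the system with a nontrivial right-hand side. -/

namespace Pool.Agent.Helper967.GG

open Port

def bp (e : Bool) : Port := if e then B else 1

def tt (e x y : Bool) : Port :=
  if e then mk (xor x y) (bp y) (bp !y) else mk (xor x y) (bp x) (bp x)

theorem tt_mul (e x y e' x' y' : Bool) :
    tt (xor e e') (xor (if e' then y else x) x') (xor (if e' then x else y) y') =
      tt e x y * tt e' x' y' := by
  cases e <;> cases x <;> cases y <;> cases e' <;> cases x' <;> cases y' <;>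
    simp [tt, bp, mk_mul, BB]

def th (P : Port) : Port := tt P.ep (x0 P) (x1 P)

theorem th_mul (P Q : Port) : th (P * Q) = th P * th Q := by
  unfold th
  rw [ep_mul, x0_mul, x1_mul, tt_mul]

theorem th_A : th A = D := by
  have : th A = tt true false false := by simp [th, x0, x1, be]
  rw [this]
  apply ext' <;> simp [tt, bp]
theorem th_B : th B = 1 := by
  have : th B = tt false false false := by simp [th, x0, x1, be]
  rw [this]
  apply ext' <;> simp [tt, bp]
theorem th_C : th C = A := by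
  have : th C = tt false false true := by simp [th, x0, x1, be]
  rw [this]
  apply ext' <;> simp [tt, bp]
theorem th_D : th D = A := by
  have : th D = tt false false true := by simp [th, x0, x1, be]
  rw [this]
  apply ext' <;> simp [tt, bp]

theorem th_one : th 1 = 1 := by
  have := th_mul 1 1
  rw [mul_one] at this
  exact (left_eq_mul.1 this)

theorem sig_mem {x : Port} (hx : x ∈ G) : pr (th x) x ∈ G := by
  obtain ⟨w, rfl⟩ := exists_word hx
  clear hx
  induction w with
  | nil => rw [ev_nil, th_one, pr_one]; exact G.one_mem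
  | cons g w ih =>
    rw [ev_cons, th_mul, ← pr_mul]
    refine G.mul_mem ?_ ih
    cases g
    · change pr (th A) A ∈ G
      have : pr (th A) A = A * C * A := by
        rw [th_A]; apply ext' <;> simp [sec_mul]
      rw [this]; exact G.mul_mem (G.mul_mem A_mem C_mem) A_mem
    · change pr (th B) B ∈ G
      have : pr (th B) B = D := by rw [th_B]; exact D_eq.symm
      rw [this]; exact D_mem
    · change pr (th C) C ∈ G
      have : pr (th C) C = B := by rw [th_C]; exact B_eq.symm
      rw [this]; exact B_mem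
    · change pr (th D) D ∈ G
      have : pr (th D) D = C := by rw [th_D]; exact C_eq.symm
      rw [this]; exact C_mem

/-- class data of an even element -/
structure Cls (P : Port) (x y b : Bool) : Prop where
  e : P.ep = false
  x : x0 P = x
  y : x1 P = y
  b : be P = b

theorem Cls.th {P : Port} {x y b : Bool} (h : Cls P x y b) : th P = tt false x y := by
  rw [GG.th, h.e, h.x, h.y]

structure Tri (e : Bool) (u v w : Port) : Prop where
  mu : u ∈ G
  mv : v ∈ G
  mw : w ∈ G
  cu : Commute u B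
  cv : Commute v C
  cw : Commute w D
  ku : Cls u false false e
  kv : Cls v false (!e) (!e)
  kw : Cls w true (!e) false

theorem pr_comm {P Q P' Q' : Port} (h : Commute P P') (h' : Commute Q Q') :
    Commute (pr P Q) (pr P' Q') := by
  change pr P Q * pr P' Q' = pr P' Q' * pr P Q
  rw [pr_mul, pr_mul, h.eq, h'.eq]

theorem tt000 : tt false false false = 1 := by
  apply ext' <;> simp [tt, bp]

theorem Tri.step {e : Bool} {u v w : Port} (h : Tri e u v w) :
    Tri (!e) (pr (th v) v) (pr (th w) w) (pr B u) := by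
  obtain ⟨mu, mv, mw, cu, cv, cw, ku, kv, kw⟩ := h
  have tv : th v = tt false false (!e) := kv.th
  have tw : th w = tt false true (!e) := kw.th
  have tu : th u = 1 := by rw [ku.th, tt000]
  refine ⟨sig_mem mv, sig_mem mw, ?_, ?_, ?_, ?_, ?_, ?_, ?_⟩
  · have h1 := sig_mem mu
    rw [tu] at h1
    have h2 : pr B u = (A * D * A) * pr 1 u := by
      apply ext' <;> simp [sec_mul]
    rw [h2]
    exact G.mul_mem (G.mul_mem (G.mul_mem A_mem D_mem) A_mem) h1
  · rw [B_eq]
    refine pr_comm ?_ cv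
    rw [tv]
    cases e
    · have : tt false false (!false) = A := by apply ext' <;> simp [tt, bp]
      rw [this]
    · have : tt false false (!true) = 1 := by apply ext' <;> simp [tt, bp]
      rw [this]; exact Commute.one_left _
  · rw [C_eq]
    refine pr_comm ?_ cw
    rw [tw]
    cases e
    · change _ * _ = _ * _
      rw [A_eq]; simp [tt, bp, mk_mul]
    · change _ * _ = _ * _
      rw [A_eq]; simp [tt, bp, mk_mul]
  · rw [D_eq]
    exact pr_comm (Commute.one_right _) cu
  · refine ⟨rfl, ?_, ?_, ?_⟩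
    · simp only [x0, sec0_pr, sec1_pr, kv.e, tv]
      cases e <;> simp [tt, bp, be]
    · simp only [x1, sec0_pr, sec1_pr, kv.b, tv]
      cases e <;> simp [tt, bp]
    · simp only [be, sec0_pr, sec1_pr, kv.e, tv]
      cases e <;> simp [tt, bp]
  · refine ⟨rfl, ?_, ?_, ?_⟩
    · simp only [x0, sec0_pr, sec1_pr, kw.e, tw]
      cases e <;> simp [tt, bp, be]
    · simp only [x1, sec0_pr, sec1_pr, kw.b, tw]
      cases e <;> simp [tt, bp]
    · simp only [be, sec0_pr, sec1_pr, kw.e, tw]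
      cases e <;> simp [tt, bp]
  · refine ⟨rfl, ?_, ?_, ?_⟩
    · simp only [x0, sec0_pr, sec1_pr, ku.e]
      simp [be]
    · simp only [x1, sec0_pr, sec1_pr, ku.b]
      simp
    · simp only [be, sec0_pr, sec1_pr, ku.e]
      simp

theorem Tri.base : Tri true B 1 (pr B 1) := by
  refine ⟨B_mem, G.one_mem, ?_, Commute.refl _, Commute.one_left _, ?_, ?_, ?_, ?_⟩
  · have h2 : pr B 1 = A * D * A := by
      apply ext' <;> simp [sec_mul]
    rw [h2]
    exact G.mul_mem (G.mul_mem A_mem D_mem) A_mem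
  · rw [D_eq]
    exact pr_comm (Commute.one_right _) (Commute.one_left _)
  · refine ⟨rfl, ?_, ?_, ?_⟩ <;> simp [x0, x1, be]
  · refine ⟨rfl, ?_, ?_, ?_⟩ <;> simp [x0, x1, be]
  · refine ⟨rfl, ?_, ?_, ?_⟩ <;> simp [x0, x1, be]

def stp (s : Port × Port × Port) : Port × Port × Port :=
  (pr (th s.2.1) s.2.1, pr (th s.2.2) s.2.2, pr B s.1)

def S : ℕ → Port × Port × Port
  | 0 => (B, 1, pr B 1)
  | n + 1 => stp (S n)

def parN : ℕ → Bool
  | 0 => true
  | n + 1 => !parN n

theorem tri (n : ℕ) : Tri (parN n) (S n).1 (S n).2.1 (S n).2.2 := by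
  induction n with
  | zero => exact Tri.base
  | succ n ih => exact ih.step

def X0 (s : Port × Port × Port) : Port := s.2.2 * s.2.1 * s.1
def X1 (s : Port × Port × Port) : Port := s.1 * s.2.2 * s.2.1
def X2 (s : Port × Port × Port) : Port := s.2.1 * s.1 * s.2.2

/-- `(ab)^8` -/
def Et : Port := ev [.a,.b,.a,.b,.a,.b,.a,.b,.a,.b,.a,.b,.a,.b,.a,.b]

def val : ℕ → Port × Port × Port
  | 0 => (pr Et 1, pr Et 1, 1)
  | n + 1 => (pr 1 (val n).2.1, pr 1 (val n).2.2, pr 1 (val n).1)

def RV (n : ℕ) (x : Port) : Prop :=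
  Rr x B = (val n).1 ∧ Rr x C = (val n).2.1 ∧ Rr x D = (val n).2.2

theorem Rr_one (x : Port) : Rr x 1 = 1 := by
  unfold Rr; group

theorem RV.step {n : ℕ} {h y : Port} (hy : RV n y) (hh : Rr h A = 1) : RV (n + 1) (pr h y) := by
  obtain ⟨h1, h2, h3⟩ := hy
  refine ⟨?_, ?_, ?_⟩
  · apply ext'
    · exact ep_Rr
    · rw [sec_Rr rfl ep_B, sec0_B, sec0_pr, hh]; rfl
    · rw [sec_Rr rfl ep_B, sec1_B, sec1_pr, h2]; rfl
  · apply ext'
    · exact ep_Rr
    · rw [sec_Rr rfl ep_C, sec0_C, sec0_pr, hh]; rfl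
    · rw [sec_Rr rfl ep_C, sec1_C, sec1_pr, h3]; rfl
  · apply ext'
    · exact ep_Rr
    · rw [sec_Rr rfl ep_D, sec0_D, sec0_pr, Rr_one]; rfl
    · rw [sec_Rr rfl ep_D, sec1_D, sec1_pr, h1]; rfl

def RrW (x t : List Gen) : List Gen :=
  t ++ x ++ x ++ t ++ x.reverse ++ x.reverse ++ (t ++ x ++ x ++ t ++ x.reverse ++ x.reverse)

theorem Rr_ev (x t : List Gen) : Rr (ev x) (ev t) = ev (RrW x t) := by
  simp [Rr, RrW, ev_append, ev_reverse, mul_assoc]

theorem ev1 (g : Gen) : ev [g] = gv g := by rw [ev_cons, ev_nil, mul_one]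

theorem hair1 : Rr (ev [.c, .a, .d]) A = 1 := by
  have : A = ev [.a] := (ev1 .a).symm
  rw [this, Rr_ev]
  apply isOne_sound 8
  decide +kernel
theorem hair2 : Rr (ev [.a, .c, .a, .d, .a]) A = 1 := by
  have : A = ev [.a] := (ev1 .a).symm
  rw [this, Rr_ev]
  apply isOne_sound 8
  decide +kernel
theorem hair3 : Rr (ev [.d, .a, .c]) A = 1 := by
  have : A = ev [.a] := (ev1 .a).symm
  rw [this, Rr_ev]
  apply isOne_sound 8
  decide +kernel

theorem hairBA : Rr (B * A) A = Et := by
  have h1 : A = ev [.a] := (ev1 .a).symm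
  have h2 : B * A = ev [.b, .a] := by rw [ev_cons, ev1]; rfl
  rw [h2, h1, Rr_ev]
  apply ev_eq_of 8
  decide +kernel
theorem hairAB : Rr (A * B) A = Et := by
  have h1 : A = ev [.a] := (ev1 .a).symm
  have h2 : A * B = ev [.a, .b] := by rw [ev_cons, ev1]; rfl
  rw [h2, h1, Rr_ev]
  apply ev_eq_of 8
  decide +kernel

/-- hair values -/
theorem hv_odd : tt false false (!true) = 1 ∧ tt false true (!true) = ev [.d, .a, .d] := by
  have h : ev [.d, .a, .d] = D * A * D := by rw [ev_cons, ev_cons, ev1, mul_assoc]; rfl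
  constructor
  · apply ext' <;> simp [tt, bp]
  · rw [h]; apply ext' <;> simp [tt, bp, sec_mul]
theorem hv_even : tt false false (!false) = A ∧ tt false true (!false) = ev [.d, .a, .d, .a] := by
  have h : ev [.d, .a, .d, .a] = D * A * D * A := by
    rw [ev_cons, ev_cons, ev_cons, ev1, mul_assoc, mul_assoc]; rfl
  constructor
  · apply ext' <;> simp [tt, bp]
  · rw [h]; apply ext' <;> simp [tt, bp, sec_mul]

theorem sec_h {s : Port × Port × Port} {e : Bool} (h : Tri e s.1 s.2.1 s.2.2) :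
    X0 (stp s) = pr (ev [.c, .a, .d]) (X1 s) ∧
    X1 (stp s) = pr (if e then ev [.c, .a, .d] else ev [.a, .c, .a, .d, .a]) (X2 s) ∧
    X2 (stp s) = pr (ev [.d, .a, .c]) (X0 s) := by
  have tv : th s.2.1 = tt false false (!e) := h.kv.th
  have tw : th s.2.2 = tt false true (!e) := h.kw.th
  have eA : A = ev [.a] := (ev1 .a).symm
  have eB : B = ev [.b] := (ev1 .b).symm
  cases e
  · rw [hv_even.1] at tv
    rw [hv_even.2] at tw
    refine ⟨?_, ?_, ?_⟩
    · simp only [X0, X1, stp, pr_mul, tv, tw]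
      congr 1
      rw [eA, eB, ← ev_append, ← ev_append]
      apply ev_eq_of 8
      decide +kernel
    · simp only [X1, X2, stp, pr_mul, tv, tw]
      congr 1
      rw [eA, eB, ← ev_append, ← ev_append]
      apply ev_eq_of 8
      decide +kernel
    · simp only [X0, X2, stp, pr_mul, tv, tw]
      congr 1
      rw [eA, eB, ← ev_append, ← ev_append]
      apply ev_eq_of 8
      decide +kernel
  · rw [hv_odd.1] at tv
    rw [hv_odd.2] at tw
    refine ⟨?_, ?_, ?_⟩
    · simp only [X0, X1, stp, pr_mul, tv, tw]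
      congr 1
      rw [eB, mul_one, ← ev_append]
      apply ev_eq_of 8
      decide +kernel
    · simp only [X1, X2, stp, pr_mul, tv, tw]
      congr 1
      rw [eB, one_mul, ← ev_append]
      apply ev_eq_of 8
      decide +kernel
    · simp only [X0, X2, stp, pr_mul, tv, tw]
      congr 1
      rw [eB, mul_one, ← ev_append]
      apply ev_eq_of 8
      decide +kernel

theorem rv_all (n : ℕ) : RV n (X0 (S n)) ∧ RV n (X1 (S n)) ∧ RV n (X2 (S n)) := by
  induction n with
  | zero =>
    have key : ∀ z : Port, Rr z A = Et → RV 0 (pr z C) := by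
      intro z hz
      have hC : ∀ t : Port, t * t = 1 → Rr C t = 1 := by
        intro t ht
        unfold Rr
        simp [mul_assoc, CC, ht, Cinv]
      refine ⟨?_, ?_, ?_⟩
      · apply ext'
        · exact ep_Rr
        · rw [sec_Rr rfl ep_B, sec0_B, sec0_pr, hz]; rfl
        · rw [sec_Rr rfl ep_B, sec1_B, sec1_pr, hC _ CC]; rfl
      · apply ext'
        · exact ep_Rr
        · rw [sec_Rr rfl ep_C, sec0_C, sec0_pr, hz]; rfl
        · rw [sec_Rr rfl ep_C, sec1_C, sec1_pr, hC _ DD]; rfl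
      · apply ext'
        · exact ep_Rr
        · rw [sec_Rr rfl ep_D, sec0_D, sec0_pr, Rr_one]; rfl
        · rw [sec_Rr rfl ep_D, sec1_D, sec1_pr, hC _ BB]; rfl
    have e1 : X0 (S 0) = pr (B * A) C := by
      apply ext' <;> simp [X0, S, sec_mul]
    have e2 : X1 (S 0) = pr (A * B) C := by
      apply ext' <;> simp [X1, S, sec_mul]
    have e3 : X2 (S 0) = pr (A * B) C := by
      apply ext' <;> simp [X2, S, sec_mul]
    rw [e1, e2, e3]
    exact ⟨key _ hairBA, key _ hairAB, key _ hairAB⟩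
  | succ n ih =>
    obtain ⟨i0, i1, i2⟩ := ih
    obtain ⟨s0, s1, s2⟩ := sec_h (tri n)
    have hs : S (n + 1) = stp (S n) := rfl
    rw [hs, s0, s1, s2]
    refine ⟨i1.step hair1, i2.step ?_, i0.step hair3⟩
    cases parN n
    · exact hair2
    · exact hair1

theorem val3 (k : ℕ) : val (3 * k) = (atv (List.replicate (3 * k) true ++ [false]) Et,
    atv (List.replicate (3 * k) true ++ [false]) Et, 1) := by
  induction k with
  | zero => rfl
  | succ k ih =>
    have : 3 * (k + 1) = 3 * k + 1 + 1 + 1 := by ring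
    rw [this]
    simp only [val, ih, List.replicate_succ, List.cons_append, atv_t, pr_one]

theorem parN_add2 (n : ℕ) : parN (n + 2) = parN n := by simp [parN]

theorem parN_odd (k : ℕ) : parN (1 + 6 * k) = false := by
  induction k with
  | zero => rfl
  | succ k ih =>
    have : 1 + 6 * (k + 1) = 1 + 6 * k + 2 + 2 + 2 := by ring
    rw [this, parN_add2, parN_add2, parN_add2, ih]

theorem X0_eq (k : ℕ) : X0 (S (3 + 6 * k)) =
    pr (ev [.c, .a, .d]) (pr (ev [.a, .c, .a, .d, .a]) (X2 (S (1 + 6 * k)))) := by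
  have e : 3 + 6 * k = (1 + 6 * k) + 1 + 1 := by ring
  rw [e]
  have h1 := (sec_h (tri (1 + 6 * k + 1))).1
  have h2 := (sec_h (tri (1 + 6 * k))).2.1
  rw [parN_odd] at h2
  change X0 (stp (S (1 + 6 * k + 1))) = _
  rw [h1]
  change pr _ (X1 (stp (S (1 + 6 * k)))) = _
  rw [h2]
  rfl

/-- the fixed reference element -/
def Xs : Port := X0 (S 3)

theorem parN3 : parN 3 = false := rfl

theorem Tri.X0cls {u v w : Port} (h : Tri false u v w) :
    be (w * v * u) = true ∧ x0 (w * v * u) = true ∧ x1 (w * v * u) = false := by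
  obtain ⟨mu, mv, mw, cu, cv, cw, ku, kv, kw⟩ := h
  refine ⟨?_, ?_, ?_⟩
  · rw [be_mul, be_mul, ku.b, kv.b, kw.b]; rfl
  · rw [x0_mul, x0_mul, ku.e, kv.e, ku.x, kv.x, kw.x]; rfl
  · rw [x1_mul, x1_mul, ku.e, kv.e, ku.y, kv.y, kw.y]; rfl

theorem Xs_mem : Xs ∈ G := G.mul_mem (G.mul_mem (tri 3).mw (tri 3).mv) (tri 3).mu
theorem Xs_ray : Ray Xs := ((ray_D (tri 3).cw).mul (ray_C (tri 3).cv)).mul (ray_B (tri 3).cu)
theorem Xs_cls : be Xs = true ∧ x0 Xs = true ∧ x1 Xs = false := (tri 3).X0cls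

/-- the auxiliary system -/
structure Aux (W V U om : Port) : Prop where
  mU : U ∈ G
  mV : V ∈ G
  mW : W ∈ G
  cU : Commute U B
  cV : Commute V C
  cW : Commute W D
  k1 : Commute (Xs⁻¹ * (W * V * U)) (atv [false, false, false] T2)
  k2 : Commute (Xs⁻¹ * (W * V * U)) (atv [false, true, false] T2)
  k3 : Commute (Xs⁻¹ * (W * V * U)) (atv [true, false, false] T2)
  rB : Rr (W * V * U) B = om
  rC : Rr (W * V * U) C = om
  rD : Rr (W * V * U) D = 1

theorem Aux.contra {W V U : Port} (h : Aux W V U 1) : False := by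
  have hr : Ray (W * V * U) := ((ray_D h.cW).mul (ray_C h.cV)).mul (ray_B h.cU)
  have hx : W * V * U ∈ G := G.mul_mem (G.mul_mem h.mW h.mV) h.mU
  have hg : Ray (Xs⁻¹ * (W * V * U)) := Xs_ray.inv.mul hr
  obtain ⟨c1, c2, c3⟩ := class_triv hg h.k1 h.k2 h.k3
  obtain ⟨d1, d2, d3⟩ := Xs_cls
  have e : W * V * U = Xs * (Xs⁻¹ * (W * V * U)) := by group
  refine Des.false (x := W * V * U) ⟨hx, hr, ?_, ?_, ?_, h.rB, h.rC, h.rD⟩
  · rw [e, be_mul, d1, c1]; rfl
  · rw [e, x0_mul, hg.ep, d2, c2]; rfl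
  · rw [e, x1_mul, hg.ep, d3, c3]; rfl

theorem Aux.exists (k : ℕ) : ∃ W V U, Aux W V U
    (atv (List.replicate (3 + 6 * k) true ++ [false]) Et) := by
  have ht := tri (3 + 6 * k)
  have hv := (rv_all (3 + 6 * k)).1
  have e3 : 3 + 6 * k = 3 * (1 + 2 * k) := by ring
  have hval : val (3 + 6 * k) = (atv (List.replicate (3 + 6 * k) true ++ [false]) Et,
      atv (List.replicate (3 + 6 * k) true ++ [false]) Et, 1) := by
    rw [e3]; exact val3 _
  rw [RV, hval] at hv
  have hX : Xs⁻¹ * X0 (S (3 + 6 * k)) = pr 1 (pr 1 ((X2 (S 1))⁻¹ * X2 (S (1 + 6 * k)))) := by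
    have h0 : Xs = pr (ev [.c, .a, .d]) (pr (ev [.a, .c, .a, .d, .a]) (X2 (S 1))) := X0_eq 0
    rw [h0, X0_eq, pr_inv, pr_inv, pr_mul, pr_mul, inv_mul_cancel, inv_mul_cancel]
  refine ⟨(S (3 + 6 * k)).2.2, (S (3 + 6 * k)).2.1, (S (3 + 6 * k)).1,
    ht.mu, ht.mv, ht.mw, ht.cu, ht.cv, ht.cw, ?_, ?_, ?_, hv.1, hv.2.1, hv.2.2⟩
  · change Commute (Xs⁻¹ * X0 (S (3 + 6 * k))) _
    rw [hX]
    exact pr_comm (Commute.one_left _) (Commute.one_right _)
  · change Commute (Xs⁻¹ * X0 (S (3 + 6 * k))) _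
    rw [hX]
    exact pr_comm (Commute.one_left _) (Commute.one_right _)
  · change Commute (Xs⁻¹ * X0 (S (3 + 6 * k))) _
    rw [hX]
    exact pr_comm (Commute.one_left _) (pr_comm (Commute.one_left _) (Commute.one_right _))

end Pool.Agent.Helper967.GG
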