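import Pool.Agent.Helper967.GG5

set_option autoImplicit false

/-! Being nontrivial is positively existentially definable; finite 2-groups embed. -/

namespace Pool.Agent.Helper967.GG

open Port

theorem act_append (v w : List Bool) (P : Port) :
    P.act (v ++ w) = P.act v ++ (secs v P).act w := by
  induction v generalizing P with
  | nil => rfl
  | cons i v ih => rw [List.cons_append, act_cons, ih, act_cons, secs_cons, List.cons_append]

/-- the double commutator -/
def om (V y z g : Port) : Port :=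
  g * ((V * y * V⁻¹ * y⁻¹) * z * (V * y * V⁻¹ * y⁻¹)⁻¹ * z⁻¹) * g⁻¹

theorem om_one (y z g : Port) : om 1 y z g = 1 := by
  unfold om; group

theorem k12 : (atv [false, false] Zt)⁻¹ * T2⁻¹ * atv [false, false] Zt * T2⁻¹⁻¹ =
    atv [false] Et := by
  have h1 : T2⁻¹ = pr (ev [.a, .c]) (ev [.c, .a]) := by
    unfold T2
    rw [← ev_reverse]
    apply ext'
    · rw [ep_ev]; rfl
    · rw [sec_ev, sec0_pr]
      apply ev_eq_of 8
      decide +kernel
    · rw [sec_ev, sec1_pr]
      apply ev_eq_of 8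
      decide +kernel
  have h2 : ev [.a, .c] = mk true A D := by
    apply ext'
    · rw [ep_ev]; rfl
    · rw [sec_ev, sec0_mk]; exact ev1 .a
    · rw [sec_ev, sec1_mk]; exact ev1 .d
  have h3 : (pr Zt 1)⁻¹ * mk true A D * pr Zt 1 * (mk true A D)⁻¹ = Et := by
    have hE0 : Et.sec false = Zt⁻¹ := by
      unfold Et Zt
      rw [sec_ev, ← ev_reverse]
      apply ev_eq_of 8
      decide +kernel
    have hE1 : Et.sec true = A * Zt * A⁻¹ := by
      have hA : A = ev [.a] := (ev1 .a).symm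
      rw [hA]
      unfold Et Zt
      rw [sec_ev, ← ev_reverse, ← ev_append, ← ev_append]
      apply ev_eq_of 8
      decide +kernel
    apply ext'
    · have : Et.ep = false := by unfold Et; rw [ep_ev]; rfl
      rw [this]; rfl
    · rw [hE0]; simp [sec_mul, sec_inv]
    · rw [hE1]; simp [sec_mul, sec_inv]
  have a2 : (1 : Port)⁻¹ * ev [.c, .a] * 1 * (ev [.c, .a])⁻¹ = 1 := by group
  rw [h1, h2]
  change (pr (pr Zt 1) 1)⁻¹ * pr (mk true A D) (ev [.c, .a]) * pr (pr Zt 1) 1 *
    (pr (mk true A D) (ev [.c, .a]))⁻¹ = pr Et 1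
  have e1 : (pr (pr Zt 1) 1)⁻¹ = pr (pr Zt 1)⁻¹ 1⁻¹ := pr_inv _ _
  have e2 : (pr (mk true A D) (ev [.c, .a]))⁻¹ = pr (mk true A D)⁻¹ (ev [.c, .a])⁻¹ := pr_inv _ _
  rw [e1, e2, pr_mul, pr_mul, pr_mul, a2, h3]

theorem nontriv {V : Port} (hV1 : V ≠ 1) :
    ∃ (k : ℕ) (y z g : Port), y ∈ G ∧ z ∈ G ∧ g ∈ G ∧
      om V y z g = atv (List.replicate (3 + 6 * k) true ++ [false]) Et := by
  obtain ⟨v, hv⟩ : ∃ v, V.act v ≠ v := by
    by_contra hc
    push Not at hc
    exact hV1 (eq_of_act fun w => by rw [hc w, act_one])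
  obtain ⟨u, hul, hu⟩ : ∃ u : List Bool, u.length = 3 + 6 * v.length ∧ V.act u ≠ u := by
    refine ⟨v ++ List.replicate (3 + 6 * v.length - v.length) false, by simp; omega, ?_⟩
    intro h
    rw [act_append] at h
    exact hv (List.append_inj h (act_length V v)).1
  obtain ⟨g, hg, ha, hs⟩ := trans_sec (u ++ [false])
    (List.replicate (3 + 6 * v.length) true ++ [false]) (by simp [hul]) G.one_mem
  refine ⟨v.length, atv u (atv [false, false] Zt), atv u T2⁻¹, g,
    K_le (K_atv (K_atv Zt_mem _) _), K_le (K_atv (K.inv_mem T2_mem) _), hg, ?_⟩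
  have hl : (V.act u).length = u.length := act_length V u
  set k1 := atv [false, false] Zt with hk1
  have e1 : V * atv u k1 * V⁻¹ = atv (V.act u) (secs u V * k1 * (secs u V)⁻¹) := conj_atv _ _ _
  set P := secs u V * k1 * (secs u V)⁻¹ with hP
  have e2 : (V * atv u k1 * V⁻¹ * (atv u k1)⁻¹) * atv u T2⁻¹ *
      (V * atv u k1 * V⁻¹ * (atv u k1)⁻¹)⁻¹ * (atv u T2⁻¹)⁻¹ =
      atv u (k1⁻¹ * T2⁻¹ * k1 * T2⁻¹⁻¹) := by
    rw [e1]
    have hc : Commute (atv (V.act u) P) (atv u (k1⁻¹ * T2⁻¹ * k1)) := atv_comm_of_ne hl hu _ _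
    calc _ = (atv (V.act u) P * ((atv u k1)⁻¹ * atv u T2⁻¹ * atv u k1)) *
          (atv (V.act u) P)⁻¹ * (atv u T2⁻¹)⁻¹ := by group
      _ = (atv (V.act u) P * atv u (k1⁻¹ * T2⁻¹ * k1)) *
          (atv (V.act u) P)⁻¹ * (atv u T2⁻¹)⁻¹ := by
          have e3 : (atv u k1)⁻¹ * atv u T2⁻¹ * atv u k1 = atv u (k1⁻¹ * T2⁻¹ * k1) := by
            rw [atv_mul u (k1⁻¹ * T2⁻¹) k1, atv_mul u k1⁻¹ T2⁻¹, atv_inv u k1]
          rw [e3]
      _ = atv u (k1⁻¹ * T2⁻¹ * k1) * (atv u T2⁻¹)⁻¹ := by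
          rw [hc.eq, mul_inv_cancel_right]
      _ = _ := by rw [← atv_inv u T2⁻¹, ← atv_mul]
  unfold om
  rw [e2, k12, ← atv_append, conj_atv, ha, hs, one_mul, inv_one, mul_one]

/-- nontriviality is positively existentially definable -/
theorem nontriv_iff (V : Port) : (∃ y z g W V' U : Port, y ∈ G ∧ z ∈ G ∧ g ∈ G ∧
    Aux W V' U (om V y z g)) ↔ V ≠ 1 := by
  constructor
  · rintro ⟨y, z, g, W, V', U, -, -, -, h⟩ rfl
    rw [om_one] at h
    exact h.contra
  · intro h
    obtain ⟨k, y, z, g, hy, hz, hg, he⟩ := nontriv h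
    obtain ⟨W, V', U, hA⟩ := Aux.exists k
    exact ⟨y, z, g, W, V', U, hy, hz, hg, by rw [he]; exact hA⟩

theorem Et_mem : Et ∈ K := by
  have : Et = T2 * T2 * T2 * T2 := by
    unfold Et T2
    rw [← ev_append, ← ev_append, ← ev_append]; rfl
  rw [this]
  exact K.mul_mem (K.mul_mem (K.mul_mem T2_mem T2_mem) T2_mem) T2_mem

theorem Et_sq : Et * Et = 1 := by
  unfold Et
  rw [← ev_append]
  apply isOne_sound 8
  decide +kernel

def u0 : List Bool := [false, false, false, false, false]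
def u1 : List Bool := [false, false, false, false, true]

theorem sec_of (i : Bool) (w v : List Gen) (h : red (secW i w) = v) : (ev w).sec i = ev v := by
  rw [sec_ev, ← ev_red, h]

theorem Et_s1 : Et.sec false = ev [.c,.a,.c,.a,.c,.a,.c,.a] := sec_of _ _ _ (by decide +kernel)
theorem Et_s2 : (ev [.c,.a,.c,.a,.c,.a,.c,.a]).sec false = ev [.a,.d,.a,.d] :=
  sec_of _ _ _ (by decide +kernel)
theorem Et_s3 : (ev [.a,.d,.a,.d]).sec false = ev [.b] := sec_of _ _ _ (by decide +kernel)

theorem Et_secs1 : (secs [false, false, false] Et) = B := by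
  rw [secs_cons, secs_cons, secs_cons, secs_nil, Et_s1, Et_s2, Et_s3]; exact ev1 .b
theorem Et_secs3 : (secs [false] Et).ep = false := by
  rw [secs_cons, secs_nil, Et_s1, ep_ev]; rfl
theorem Et_secs4 : (secs [false, false] Et).ep = false := by
  rw [secs_cons, secs_cons, secs_nil, Et_s1, Et_s2, ep_ev]; rfl
theorem Et_par : Et.ep = par [.a,.b,.a,.b,.a,.b,.a,.b,.a,.b,.a,.b,.a,.b,.a,.b] := ep_ev _
theorem Et_secs2 : Et.ep = false := Et_par.trans (by decide)

theorem Et_act0 : Et.act u0 = u1 ∧ secs u0 Et = 1 := by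
  have h1 := Et_secs1
  have h2 := Et_secs2
  have h3 := Et_secs3
  have h4 := Et_secs4
  simp only [secs_cons, secs_nil] at h1 h3 h4
  refine ⟨?_, ?_⟩
  · simp only [u0, u1, act_cons, act_nil, h1, h2, h3, h4, sec0_B, ep_B, ep_A]; rfl
  · simp only [u0, secs_cons, secs_nil, h1, sec0_B, sec_A]

theorem Et_act1 : Et.act u1 = u0 ∧ secs u1 Et = 1 := by
  have h1 := Et_secs1
  have h2 := Et_secs2
  have h3 := Et_secs3
  have h4 := Et_secs4
  simp only [secs_cons, secs_nil] at h1 h3 h4
  refine ⟨?_, ?_⟩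
  · simp only [u0, u1, act_cons, act_nil, h1, h2, h3, h4, sec0_B, ep_B, ep_A]; rfl
  · simp only [u1, secs_cons, secs_nil, h1, sec0_B, sec_A]

def P2 (x y : Port) : Port := atv u0 x * atv u1 y

theorem P2_comm (x y : Port) : atv u0 x * atv u1 y = atv u1 y * atv u0 x :=
  atv_comm_of_ne (u := u0) (v := u1) rfl (by decide) x y

theorem P2_mul (x y x' y' : Port) : P2 x y * P2 x' y' = P2 (x * x') (y * y') := by
  unfold P2
  rw [atv_mul, atv_mul]
  calc atv u0 x * atv u1 y * (atv u0 x' * atv u1 y')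
      = atv u0 x * (atv u1 y * atv u0 x') * atv u1 y' := by group
    _ = atv u0 x * (atv u0 x' * atv u1 y) * atv u1 y' := by rw [P2_comm]
    _ = _ := by group

theorem Et_P2 (x y : Port) : Et * P2 x y = P2 y x * Et := by
  have hi : Et⁻¹ = Et := inv_eq_of_mul_eq_one_left Et_sq
  have h0 := conj_atv Et u0 x
  have h1 := conj_atv Et u1 y
  rw [Et_act0.1, Et_act0.2, one_mul, inv_one, mul_one] at h0
  rw [Et_act1.1, Et_act1.2, one_mul, inv_one, mul_one] at h1
  have : Et * P2 x y * Et⁻¹ = P2 y x := by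
    unfold P2
    rw [P2_comm y x, ← h0, ← h1]; group
  rw [← this, inv_mul_cancel_right]

theorem P2_one : P2 1 1 = 1 := by unfold P2; rw [atv_one, atv_one, one_mul]

theorem secs_P2 (x y : Port) : secs u0 (P2 x y) = x := by
  unfold P2 u0 u1
  simp [atv_f, atv_t, pr_mul]

theorem act_P2 (x y : Port) : (P2 x y).act u1 = u1 := by
  unfold P2 u0 u1
  simp [atv_f, atv_t, pr_mul, act_cons]

theorem P2_mem {x y : Port} (hx : x ∈ K) (hy : y ∈ K) : P2 x y ∈ K :=
  K.mul_mem (K_atv hx _) (K_atv hy _)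

/-- `Q` embeds in `K` -/
def Emb (Q : Type) [Group Q] : Prop :=
  ∃ f : Q →* Port, Function.Injective f ∧ ∀ q, f q ∈ K

open Classical in
theorem Emb.step {Q : Type} [Group Q] (N : Subgroup Q) (hN : N.index = 2) (h : Emb N) :
    Emb Q := by
  obtain ⟨ψ, hinj, hK⟩ := h
  obtain ⟨q, hq⟩ : ∃ q, q ∉ N := by
    by_contra hc
    push Not at hc
    have : N = ⊤ := (Subgroup.eq_top_iff' N).2 hc
    rw [this, Subgroup.index_top] at hN
    exact absurd hN (by norm_num)
  have hm : ∀ a b, a * b ∈ N ↔ (a ∈ N ↔ b ∈ N) := fun a b => Subgroup.mul_mem_iff_of_index_two hN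
  have hqi : q⁻¹ ∉ N := fun h => hq (by simpa using N.inv_mem h)
  let n0 : Q → N := fun g => if hg : g ∈ N then ⟨g, hg⟩ else
    ⟨g * q⁻¹, (hm _ _).2 ⟨fun h => absurd h hg, fun h => absurd h hqi⟩⟩
  let n1 : Q → N := fun g => if hg : g ∈ N then
      ⟨q * g * q⁻¹, (hm _ _).2 ⟨fun h => absurd ((hm _ _).1 h |>.2 hg) hq, fun h => absurd h hqi⟩⟩
    else ⟨q * g, (hm _ _).2 ⟨fun h => absurd h hq, fun h => absurd h hg⟩⟩
  let e : Q → Port := fun g => if g ∈ N then 1 else Et
  have n0_in : ∀ g (hg : g ∈ N), n0 g = ⟨g, hg⟩ := fun g hg => dif_pos hg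
  have n1_in : ∀ g (hg : g ∈ N), (n1 g : Q) = q * g * q⁻¹ := fun g hg => by
    simp only [n1, dif_pos hg]
  have n0_out : ∀ g (hg : g ∉ N), (n0 g : Q) = g * q⁻¹ := fun g hg => by
    simp only [n0, dif_neg hg]
  have n1_out : ∀ g (hg : g ∉ N), (n1 g : Q) = q * g := fun g hg => by
    simp only [n1, dif_neg hg]
  let F : Q → Port := fun g => P2 (ψ (n0 g)) (ψ (n1 g)) * e g
  have hmul : ∀ g h, F (g * h) = F g * F h := by
    intro g h
    by_cases hg : g ∈ N
    · have eg : e g = 1 := if_pos hg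
      by_cases hh : h ∈ N
      · have hgh : g * h ∈ N := N.mul_mem hg hh
        have eh : e h = 1 := if_pos hh
        have egh : e (g * h) = 1 := if_pos hgh
        have a0 : n0 (g * h) = n0 g * n0 h := Subtype.ext (by
          rw [n0_in _ hgh, n0_in _ hg, n0_in _ hh]; rfl)
        have a1 : n1 (g * h) = n1 g * n1 h := Subtype.ext (by
          rw [Subgroup.coe_mul, n1_in _ hgh, n1_in _ hg, n1_in _ hh]; group)
        simp only [F, eg, eh, egh, a0, a1, map_mul, mul_one, P2_mul]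
      · have hgh : g * h ∉ N := fun hc => hh (((hm _ _).1 hc).1 hg)
        have eh : e h = Et := if_neg hh
        have egh : e (g * h) = Et := if_neg hgh
        have a0 : n0 (g * h) = n0 g * n0 h := Subtype.ext (by
          rw [Subgroup.coe_mul, n0_out _ hgh, n0_in _ hg, n0_out _ hh]; group)
        have a1 : n1 (g * h) = n1 g * n1 h := Subtype.ext (by
          rw [Subgroup.coe_mul, n1_out _ hgh, n1_in _ hg, n1_out _ hh]; group)
        simp only [F, eg, eh, egh, a0, a1, map_mul, mul_one, ← mul_assoc, P2_mul]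
    · have eg : e g = Et := if_neg hg
      by_cases hh : h ∈ N
      · have hgh : g * h ∉ N := fun hc => hg (((hm _ _).1 hc).2 hh)
        have eh : e h = 1 := if_pos hh
        have egh : e (g * h) = Et := if_neg hgh
        have a0 : n0 (g * h) = n0 g * n1 h := Subtype.ext (by
          rw [Subgroup.coe_mul, n0_out _ hgh, n0_out _ hg, n1_in _ hh]; group)
        have a1 : n1 (g * h) = n1 g * n0 h := Subtype.ext (by
          rw [Subgroup.coe_mul, n1_out _ hgh, n1_out _ hg, n0_in _ hh]; group)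
        simp only [F, eg, eh, egh, a0, a1, map_mul, mul_one]
        rw [mul_assoc, Et_P2, ← mul_assoc, P2_mul]
      · have hgh : g * h ∈ N := (hm _ _).2 ⟨fun h => absurd h hg, fun h => absurd h hh⟩
        have eh : e h = Et := if_neg hh
        have egh : e (g * h) = 1 := if_pos hgh
        have a0 : n0 (g * h) = n0 g * n1 h := Subtype.ext (by
          rw [Subgroup.coe_mul, n0_in _ hgh, n0_out _ hg, n1_out _ hh]; group)
        have a1 : n1 (g * h) = n1 g * n0 h := Subtype.ext (by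
          rw [Subgroup.coe_mul, n1_in _ hgh, n1_out _ hg, n0_out _ hh]; group)
        simp only [F, eg, eh, egh, a0, a1, map_mul, mul_one]
        calc _ = P2 (ψ (n0 g) * ψ (n1 h)) (ψ (n1 g) * ψ (n0 h)) * (Et * Et) := by
              rw [Et_sq, mul_one]
          _ = P2 (ψ (n0 g)) (ψ (n1 g)) * (P2 (ψ (n1 h)) (ψ (n0 h)) * Et) * Et := by
              rw [← P2_mul]; group
          _ = P2 (ψ (n0 g)) (ψ (n1 g)) * (Et * P2 (ψ (n0 h)) (ψ (n1 h))) * Et := by
              rw [Et_P2]
          _ = _ := by group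
  refine ⟨MonoidHom.mk' F hmul, ?_, ?_⟩
  · rw [injective_iff_map_eq_one]
    intro g hg
    change F g = 1 at hg
    by_cases hgN : g ∈ N
    · have eg : e g = 1 := if_pos hgN
      simp only [F, eg, mul_one] at hg
      have h1 := congrArg (secs u0) hg
      rw [secs_P2, secs_one] at h1
      have h2 : n0 g = 1 := hinj (by rw [h1, map_one])
      rw [n0_in _ hgN] at h2
      exact congrArg Subtype.val h2
    · exfalso
      have eg : e g = Et := if_neg hgN
      simp only [F, eg] at hg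
      have h1 := congrArg (fun P => Port.act P u0) hg
      simp only [act_mul, Et_act0.1, act_P2, act_one] at h1
      exact absurd h1 (by decide)
  · intro g
    change F g ∈ K
    refine K.mul_mem (P2_mem (hK _) (hK _)) ?_
    by_cases hg : g ∈ N
    · simp only [e, if_pos hg]; exact K.one_mem
    · simp only [e, if_neg hg]; exact Et_mem

theorem emb_card (n : ℕ) : ∀ (Q : Type) [Group Q], Nat.card Q = 2 ^ n → Emb Q := by
  induction n with
  | zero =>
    intro Q _ hc
    have : Subsingleton Q := (Nat.card_eq_one_iff_unique.1 (by simpa using hc)).1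
    exact ⟨1, fun a b _ => Subsingleton.elim a b, fun _ => K.one_mem⟩
  | succ n ih =>
    intro Q _ hc
    haveI : Fact (Nat.Prime 2) := ⟨Nat.prime_two⟩
    haveI : Finite Q := Nat.finite_of_card_ne_zero (by rw [hc]; positivity)
    obtain ⟨N, hN⟩ := Sylow.exists_subgroup_card_pow_prime (G := Q) 2 (n := n)
      (by rw [hc]; exact pow_dvd_pow 2 (Nat.le_succ n))
    have hi : N.index = 2 := by
      have := N.card_mul_index
      rw [hN, hc, pow_succ] at this
      exact Nat.eq_of_mul_eq_mul_left (by positivity) this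
    exact Emb.step N hi (ih N hN)

theorem emb {Q : Type} [Group Q] [Finite Q] (h : IsPGroup 2 Q) : Emb Q := by
  haveI : Fact (Nat.Prime 2) := ⟨Nat.prime_two⟩
  obtain ⟨n, hn⟩ := IsPGroup.iff_card.1 h
  exact emb_card n Q hn

end Pool.Agent.Helper967.GG
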