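import Mathlib

set_option autoImplicit false

/-! Forcing an infinitely generated normal subgroup to be commutative by finitely many relations,
and stack machines. -/

namespace Pool.Agent.Helper967.GG

section force

variable {Γ : Type*} [Group Γ] {L : Type*}

/-- the relations that force commutativity -/
structure Forc (E F lam : Γ) (h s : L → Γ) : Prop where
  hs : ∀ x y, Commute (h x) (s y)
  Fs : ∀ x, Commute F (s x)
  Es : ∀ x, s x * E * (s x)⁻¹ = h x * E * (h x)⁻¹
  EF : Commute E F
  lh : ∀ x, Commute lam (h x)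
  lE : Commute lam E
  lF : lam * F * lam⁻¹ = F * E
  E2 : E * E = 1

/-- `m ↦ m * m^h` -/
def Dh (h m : Γ) : Γ := m * (h * m * h⁻¹)

/-- value of a word in letters -/
def evw (E : Γ) (h : L → Γ) (w : List L) : Γ := w.foldl (fun m x => Dh (h x) m) E

/-- the normal closure -/
def Mod (E : Γ) (h : L → Γ) : Subgroup Γ :=
  Subgroup.closure {x | ∃ g ∈ Subgroup.closure (Set.range h), x = g * E * g⁻¹}

variable {E F lam : Γ} {h s : L → Γ}

theorem Forc.F_comm (H : Forc E F lam h s) {g : Γ} (hg : g ∈ Subgroup.closure (Set.range h)) :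
    Commute F (g * E * g⁻¹) := by
  have hsg : ∀ g ∈ Subgroup.closure (Set.range h), ∀ y, Commute g (s y) := by
    intro g hg y
    induction hg using Subgroup.closure_induction with
    | mem x hx => obtain ⟨a, rfl⟩ := hx; exact H.hs a y
    | one => exact Commute.one_left _
    | mul a b _ _ ha hb => exact ha.mul_left hb
    | inv a _ ha => exact ha.inv_left
  induction hg using Subgroup.closure_induction_right with
  | one => simpa using H.EF.symm
  | mul_right g hg y hy ih =>
    obtain ⟨x, rfl⟩ := hy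
    have h1 : s x * (g * E * g⁻¹) * (s x)⁻¹ = g * h x * E * (g * h x)⁻¹ := by
      have hc := hsg g hg x
      calc s x * (g * E * g⁻¹) * (s x)⁻¹ = (s x * g) * E * (s x * g)⁻¹ := by group
        _ = (g * s x) * E * (g * s x)⁻¹ := by rw [hc.eq]
        _ = g * (s x * E * (s x)⁻¹) * g⁻¹ := by group
        _ = g * (h x * E * (h x)⁻¹) * g⁻¹ := by rw [H.Es]
        _ = _ := by group
    rw [← h1]
    have h2 : F = s x * F * (s x)⁻¹ := by rw [← (H.Fs x).eq, mul_inv_cancel_right]
    rw [h2]
    exact (Commute.conj_iff (s x)).2 ih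
  | mul_inv_cancel g hg y hy ih =>
    obtain ⟨x, rfl⟩ := hy
    have h1 : (s x)⁻¹ * (g * E * g⁻¹) * (s x) = g * (h x)⁻¹ * E * (g * (h x)⁻¹)⁻¹ := by
      have hc := (hsg g hg x).inv_right
      have e1 : (s x)⁻¹ * E * s x = (h x)⁻¹ * E * h x := by
        have hc2 : (h x)⁻¹ * (s x)⁻¹ = (s x)⁻¹ * (h x)⁻¹ := ((H.hs x x).inv_inv).eq
        have := H.Es x
        calc (s x)⁻¹ * E * s x = (s x)⁻¹ * ((h x)⁻¹ * (h x * E * (h x)⁻¹) * h x) * s x := by group
          _ = (s x)⁻¹ * ((h x)⁻¹ * (s x * E * (s x)⁻¹) * h x) * s x := by rw [this]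
          _ = ((s x)⁻¹ * (h x)⁻¹) * (s x * E * (s x)⁻¹) * ((s x)⁻¹ * (h x)⁻¹)⁻¹ := by group
          _ = ((h x)⁻¹ * (s x)⁻¹) * (s x * E * (s x)⁻¹) * ((h x)⁻¹ * (s x)⁻¹)⁻¹ := by rw [hc2]
          _ = _ := by group
      calc (s x)⁻¹ * (g * E * g⁻¹) * (s x) = ((s x)⁻¹ * g) * E * ((s x)⁻¹ * g)⁻¹ := by group
        _ = (g * (s x)⁻¹) * E * (g * (s x)⁻¹)⁻¹ := by rw [hc.eq]
        _ = g * ((s x)⁻¹ * E * (s x)) * g⁻¹ := by group
        _ = g * ((h x)⁻¹ * E * (h x)) * g⁻¹ := by rw [e1]
        _ = _ := by group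
    rw [← h1]
    have h2 : F = (s x)⁻¹ * F * (s x)⁻¹⁻¹ := by
      rw [← (H.Fs x).inv_right.eq, mul_inv_cancel_right]
    rw [h2]
    have h3 := (Commute.conj_iff (s x)⁻¹).2 ih
    rwa [inv_inv (s x)] at h3 ⊢

theorem Forc.E_comm (H : Forc E F lam h s) {g : Γ} (hg : g ∈ Subgroup.closure (Set.range h)) :
    Commute E (g * E * g⁻¹) := by
  have hlg : ∀ g ∈ Subgroup.closure (Set.range h), Commute lam g := by
    intro g hg
    induction hg using Subgroup.closure_induction with
    | mem x hx => obtain ⟨a, rfl⟩ := hx; exact H.lh a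
    | one => exact Commute.one_right _
    | mul a b _ _ ha hb => exact ha.mul_right hb
    | inv a _ ha => exact ha.inv_right
  have h1 := H.F_comm hg
  have h2 := (Commute.conj_iff lam).2 h1
  have hc : Commute lam (g * E * g⁻¹) := ((hlg g hg).mul_right H.lE).mul_right (hlg g hg).inv_right
  rw [H.lF, hc.eq, mul_inv_cancel_right] at h2
  have h3 : Commute (F⁻¹ * (F * E)) (g * E * g⁻¹) := h1.inv_left.mul_left h2
  simpa using h3

theorem Forc.gen_comm (H : Forc E F lam h s) {g g' : Γ}
    (hg : g ∈ Subgroup.closure (Set.range h)) (hg' : g' ∈ Subgroup.closure (Set.range h)) :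
    Commute (g * E * g⁻¹) (g' * E * g'⁻¹) := by
  have h1 := H.E_comm (Subgroup.mul_mem _ (Subgroup.inv_mem _ hg) hg')
  have h2 := (Commute.conj_iff g).2 h1
  have : g * (g⁻¹ * g' * E * (g⁻¹ * g')⁻¹) * g⁻¹ = g' * E * g'⁻¹ := by group
  rwa [this] at h2

theorem Forc.comm (H : Forc E F lam h s) {x y : Γ} (hx : x ∈ Mod E h) (hy : y ∈ Mod E h) :
    Commute x y := by
  induction hx using Subgroup.closure_induction with
  | mem x hx =>
    obtain ⟨g, hg, rfl⟩ := hx
    induction hy using Subgroup.closure_induction with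
    | mem y hy => obtain ⟨g', hg', rfl⟩ := hy; exact H.gen_comm hg hg'
    | one => exact Commute.one_right _
    | mul a b _ _ ha hb => exact ha.mul_right hb
    | inv a _ ha => exact ha.inv_right
  | one => exact Commute.one_left _
  | mul a b _ _ ha hb => exact ha.mul_left hb
  | inv a _ ha => exact ha.inv_left

theorem mod_conj {x g : Γ} (hg : g ∈ Subgroup.closure (Set.range h)) (hx : x ∈ Mod E h) :
    g * x * g⁻¹ ∈ Mod E h := by
  induction hx using Subgroup.closure_induction with
  | mem x hx =>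
    obtain ⟨g', hg', rfl⟩ := hx
    exact Subgroup.subset_closure ⟨g * g', Subgroup.mul_mem _ hg hg', by group⟩
  | one => simp [Subgroup.one_mem]
  | mul a b _ _ ha hb =>
    have : g * (a * b) * g⁻¹ = (g * a * g⁻¹) * (g * b * g⁻¹) := by group
    rw [this]; exact Subgroup.mul_mem _ ha hb
  | inv a _ ha =>
    have : g * a⁻¹ * g⁻¹ = (g * a * g⁻¹)⁻¹ := by group
    rw [this]; exact Subgroup.inv_mem _ ha

theorem Forc.sq (H : Forc E F lam h s) {x : Γ} (hx : x ∈ Mod E h) : x * x = 1 := by
  have key : ∀ x, x ∈ Mod E h → x * x = 1 := by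
    intro x hx
    refine Subgroup.closure_induction (p := fun x _ => x * x = 1) ?_ ?_ ?_ ?_ hx
    · rintro x ⟨g, -, rfl⟩
      calc g * E * g⁻¹ * (g * E * g⁻¹) = g * (E * E) * g⁻¹ := by group
        _ = 1 := by rw [H.E2]; group
    · simp
    · intro a b ha hb h1 h2
      have hc : Commute a b := H.comm ha hb
      calc a * b * (a * b) = a * (b * a) * b := by group
        _ = a * (a * b) * b := by rw [hc.eq]
        _ = (a * a) * (b * b) := by group
        _ = 1 := by rw [h1, h2, one_mul]
    · intro a ha h1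
      have : a⁻¹ * a⁻¹ = (a * a)⁻¹ := by group
      rw [this, h1, inv_one]
  exact key x hx

theorem mod_Dh {g m : Γ} (hg : g ∈ Subgroup.closure (Set.range h)) (hm : m ∈ Mod E h) :
    Dh g m ∈ Mod E h := Subgroup.mul_mem _ hm (mod_conj hg hm)

theorem mem_h (x : L) : h x ∈ Subgroup.closure (Set.range h) :=
  Subgroup.subset_closure ⟨x, rfl⟩

theorem mod_E : E ∈ Mod E h :=
  Subgroup.subset_closure ⟨1, Subgroup.one_mem _, by simp⟩

theorem mod_foldl {m : Γ} (hm : m ∈ Mod E h) (w : List L) :
    w.foldl (fun m x => Dh (h x) m) m ∈ Mod E h := by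
  induction w generalizing m with
  | nil => exact hm
  | cons x w ih => exact ih (mod_Dh (mem_h x) hm)

theorem Forc.Dh_comm (H : Forc E F lam h s) {a b m : Γ}
    (ha : a ∈ Subgroup.closure (Set.range h)) (hb : b ∈ Subgroup.closure (Set.range h))
    (hab : Commute a b) (hm : m ∈ Mod E h) : Dh a (Dh b m) = Dh b (Dh a m) := by
  have hc : Commute (a * m * a⁻¹) (b * m * b⁻¹) := H.comm (mod_conj ha hm) (mod_conj hb hm)
  unfold Dh
  calc m * (b * m * b⁻¹) * (a * (m * (b * m * b⁻¹)) * a⁻¹)
      = m * ((b * m * b⁻¹) * (a * m * a⁻¹)) * ((a * b) * m * (a * b)⁻¹) := by group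
    _ = m * ((a * m * a⁻¹) * (b * m * b⁻¹)) * ((b * a) * m * (b * a)⁻¹) := by rw [hc.eq, hab.eq]
    _ = _ := by group

theorem Forc.foldl_move (H : Forc E F lam h s) {m : Γ} (hm : m ∈ Mod E h) (y : L) (A : List L)
    (hA : ∀ x ∈ A, Commute (h x) (h y)) :
    (A ++ [y]).foldl (fun m x => Dh (h x) m) m = (y :: A).foldl (fun m x => Dh (h x) m) m := by
  induction A generalizing m with
  | nil => rfl
  | cons x A ih =>
    rw [List.cons_append, List.foldl_cons, ih (mod_Dh (mem_h x) hm)
      (fun z hz => hA z (List.mem_cons_of_mem _ hz)), List.foldl_cons, List.foldl_cons,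
      List.foldl_cons, H.Dh_comm (mem_h y) (mem_h x) (hA x List.mem_cons_self).symm hm]

theorem Forc.foldl_block (H : Forc E F lam h s) {m : Γ} (hm : m ∈ Mod E h) (A B : List L)
    (hAB : ∀ x ∈ A, ∀ y ∈ B, Commute (h x) (h y)) :
    (A ++ B).foldl (fun m x => Dh (h x) m) m = (B ++ A).foldl (fun m x => Dh (h x) m) m := by
  induction B generalizing m with
  | nil => simp
  | cons y B ih =>
    have h1 : A ++ y :: B = (A ++ [y]) ++ B := by simp
    rw [h1, List.foldl_append, H.foldl_move hm y A
      (fun x hx => hAB x hx y List.mem_cons_self), List.foldl_cons, ← List.foldl_append,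
      ih (mod_Dh (mem_h y) hm) (fun x hx z hz => hAB x hx z (List.mem_cons_of_mem _ hz)),
      List.cons_append, List.foldl_cons]

theorem Forc.Dh_pow (H : Forc E F lam h s) {g m : Γ}
    (hg : g ∈ Subgroup.closure (Set.range h)) (hm : m ∈ Mod E h) (n : ℕ) :
    (Dh g)^[2 ^ n] m = Dh (g ^ 2 ^ n) m := by
  induction n generalizing g m with
  | zero => simp
  | succ n ih =>
    have h2 : ∀ m, (Dh g)^[2] m = Dh g (Dh g m) := fun m => rfl
    have e1 : ∀ m, m ∈ Mod E h → (Dh g)^[2] m = Dh (g ^ 2) m := by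
      intro m hm
      rw [h2]
      have hs := H.sq (mod_conj hg hm)
      unfold Dh
      calc m * (g * m * g⁻¹) * (g * (m * (g * m * g⁻¹)) * g⁻¹)
          = m * ((g * m * g⁻¹) * (g * m * g⁻¹)) * (g ^ 2 * m * (g ^ 2)⁻¹) := by group
        _ = _ := by rw [hs, mul_one]
    have e2 : ∀ k, ∀ m, m ∈ Mod E h → (Dh g)^[2 * k] m = (Dh (g ^ 2))^[k] m := by
      intro k
      induction k with
      | zero => intro m _; rfl
      | succ k ihk =>
        intro m hm
        have : 2 * (k + 1) = 2 * k + 2 := by ring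
        rw [this, Function.iterate_add_apply, e1 m hm,
          ihk _ (mod_Dh (Subgroup.pow_mem _ hg 2) hm), Function.iterate_succ_apply]
    rw [pow_succ', e2 _ m hm, ih (Subgroup.pow_mem _ hg 2) hm, ← pow_mul]

end force

/-- letters for a stack machine -/
inductive Ltr (Q K A : Type)
  | st (q : Q)
  | sy (k : K) (x : Option A)
  | tm

/-- commuting letters -/
def cm {Q K A : Type} : Ltr Q K A → Ltr Q K A → Prop
  | .sy k _, .sy k' _ => k ≠ k'
  | .sy _ _, .tm => True
  | .tm, .sy _ _ => True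
  | _, _ => False

section mach

variable {Q K A : Type} [DecidableEq K]

/-- one step of a stack machine -/
def mstep (δ : Q → Option (K × (Option A → Q × List A))) (c : Q × (K → List A)) :
    Option (Q × (K → List A)) :=
  match δ c.1 with
  | none => none
  | some (k, g) => some ((g (c.2 k).head?).1,
      Function.update c.2 k ((g (c.2 k).head?).2 ++ (c.2 k).tail))

def blk (S : K → List A) (k : K) : List (Ltr Q K A) :=
  (S k).map (fun a => Ltr.sy k (some a)) ++ [Ltr.sy k none]

def cw (ks : List K) (c : Q × (K → List A)) : List (Ltr Q K A) :=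
  Ltr.st c.1 :: ks.flatMap (blk c.2)

def lhs (q : Q) (k : K) (x : Option A) : List (Ltr Q K A) := [Ltr.st q, Ltr.sy k x]

def rhsT (k : K) (g : Option A → Q × List A) (x : Option A) : List (Ltr Q K A) :=
  (g x).2.map (fun a => Ltr.sy k (some a)) ++
    (match x with | none => [Ltr.sy k none] | some _ => [])

def rhs (k : K) (g : Option A → Q × List A) (x : Option A) : List (Ltr Q K A) :=
  Ltr.st (g x).1 :: (rhsT k g x ++ [Ltr.tm])

variable {Γ : Type*} [Group Γ] {E F lam : Γ} {h s : Ltr Q K A → Γ}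

theorem run_step (H : Forc E F lam h s) (hcm : ∀ x y, cm x y → Commute (h x) (h y))
    {δ : Q → Option (K × (Option A → Q × List A))}
    (hr : ∀ q k g, δ q = some (k, g) → ∀ x, evw E h (lhs q k x) = evw E h (rhs k g x))
    {ks : List K} (hks : ks.Nodup) (hall : ∀ k, k ∈ ks)
    {c c' : Q × (K → List A)} (hc : mstep δ c = some c') :
    evw E h (cw ks c) = Dh (h Ltr.tm) (evw E h (cw ks c')) := by
  obtain ⟨q, S⟩ := c
  unfold mstep at hc
  cases hδ : δ q with
  | none => simp [hδ] at hc
  | some kg =>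
    obtain ⟨k, g⟩ := kg
    simp only [hδ, Option.some.injEq] at hc
    subst hc
    obtain ⟨ks1, ks2, rfl⟩ := List.append_of_mem (hall k)
    have hk1 : k ∉ ks1 := by
      intro hk
      have := List.nodup_append.1 hks
      exact this.2.2 k hk k List.mem_cons_self rfl
    have hk2 : k ∉ ks2 := by
      have := (List.nodup_append.1 hks).2.1
      exact (List.nodup_cons.1 this).1
    set x := (S k).head? with hx
    set S' := Function.update S k ((g x).2 ++ (S k).tail) with hS'
    -- rest of the block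
    obtain ⟨rest, hrest, hrest'⟩ : ∃ rest : List (Ltr Q K A), blk S k = Ltr.sy k x :: rest ∧
        blk S' k = rhsT k g x ++ rest := by
      cases hSk : S k with
      | nil =>
        have hx' : x = none := by rw [hx, hSk]; rfl
        refine ⟨[], ?_, ?_⟩
        · rw [blk, hSk, hx']; rfl
        · rw [blk, hS', Function.update_self, hSk]; simp [rhsT, hx']
      | cons a l =>
        have hx' : x = some a := by rw [hx, hSk]; rfl
        refine ⟨l.map (fun a => Ltr.sy k (some a)) ++ [Ltr.sy k none], ?_, ?_⟩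
        · rw [blk, hSk, hx']; rfl
        · rw [blk, hS', Function.update_self, hSk]; simp [rhsT, hx']
    have hsy : ∀ (S : K → List A) (k : K), ∀ y ∈ (blk S k : List (Ltr Q K A)),
        ∃ a, y = Ltr.sy k a := by
      intro S k y hy
      rw [blk, List.mem_append, List.mem_map, List.mem_singleton] at hy
      rcases hy with ⟨a, -, rfl⟩ | rfl
      · exact ⟨_, rfl⟩
      · exact ⟨_, rfl⟩
    have hflat : ∀ ks' : List K, k ∉ ks' →
        ks'.flatMap (blk S' : K → List (Ltr Q K A)) = ks'.flatMap (blk S) := by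
      intro ks' hk'
      apply List.flatMap_congr
      intro k' hk''
      have hne : k' ≠ k := fun e => hk' (e ▸ hk'')
      rw [blk, blk, hS', Function.update_of_ne hne]
    set A1 : List (Ltr Q K A) := ks1.flatMap (blk S) with hA1
    set A2 : List (Ltr Q K A) := ks2.flatMap (blk S) with hA2
    have hA1sy : ∀ y ∈ A1, ∃ k' a, k' ≠ k ∧ y = Ltr.sy k' a := by
      intro y hy
      rw [hA1, List.mem_flatMap] at hy
      obtain ⟨k', hk', hy⟩ := hy
      obtain ⟨a, rfl⟩ := hsy S k' y hy
      exact ⟨k', a, fun e => hk1 (e ▸ hk'), rfl⟩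
    have hA2sy : ∀ y ∈ A2, ∃ k' a, y = Ltr.sy k' a := by
      intro y hy
      rw [hA2, List.mem_flatMap] at hy
      obtain ⟨k', hk', hy⟩ := hy
      obtain ⟨a, rfl⟩ := hsy S k' y hy
      exact ⟨k', a, rfl⟩
    have w1 : cw (ks1 ++ k :: ks2) (q, S) = Ltr.st q :: (A1 ++ blk S k ++ A2) := by
      simp [cw, hA1, hA2]
    have w2 : cw (ks1 ++ k :: ks2) ((g x).1, S') = Ltr.st (g x).1 :: (A1 ++ blk S' k ++ A2) := by
      simp only [cw, List.flatMap_append, List.flatMap_cons, hflat ks1 hk1, hflat ks2 hk2]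
      simp [hA1, hA2]
    have hm0 : ∀ q, Dh (h (Ltr.st q)) E ∈ Mod E h := fun q => mod_Dh (mem_h _) mod_E
    have hmove : ∀ (q : Q) (S : K → List A),
        evw E h (Ltr.st q :: (A1 ++ blk S k ++ A2)) =
        evw E h (Ltr.st q :: (blk S k ++ A1 ++ A2)) := by
      intro q S
      unfold evw
      rw [List.foldl_cons, List.foldl_cons, List.foldl_append, List.foldl_append (l' := A2)]
      congr 1
      apply H.foldl_block (hm0 q)
      intro y hy z hz
      obtain ⟨k', a, hne, rfl⟩ := hA1sy y hy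
      obtain ⟨b, rfl⟩ := hsy S k z hz
      exact hcm _ _ hne
    rw [w1, w2, hmove, hmove, hrest, hrest']
    have e1 : evw E h (Ltr.st q :: (Ltr.sy k x :: rest ++ A1 ++ A2)) =
        (rest ++ A1 ++ A2).foldl (fun m x => Dh (h x) m) (evw E h (lhs q k x)) := rfl
    rw [e1, hr q k g hδ x]
    have e2 : (rest ++ A1 ++ A2).foldl (fun m x => Dh (h x) m) (evw E h (rhs k g x)) =
        (Ltr.tm :: (rest ++ A1 ++ A2)).foldl (fun m x => Dh (h x) m)
          (evw E h (Ltr.st (g x).1 :: rhsT k g x)) := by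
      unfold evw rhs
      generalize rest ++ A1 ++ A2 = R
      rw [List.foldl_cons, List.foldl_append, List.foldl_cons, List.foldl_nil, List.foldl_cons,
        List.foldl_cons]
    have hm1 : evw E h (Ltr.st (g x).1 :: rhsT k g x) ∈ Mod E h := mod_foldl mod_E _
    rw [e2, ← H.foldl_move hm1, List.foldl_append, List.foldl_cons, List.foldl_nil]
    · congr 1
      unfold evw
      rw [← List.foldl_append]
      congr 1
      simp
    · intro y hy
      rw [List.mem_append, List.mem_append] at hy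
      rcases hy with (hy | hy) | hy
      · have : y ∈ (blk S k : List (Ltr Q K A)) := by
          rw [hrest]; exact List.mem_cons_of_mem _ hy
        obtain ⟨a, rfl⟩ := hsy S k y this
        exact hcm _ _ trivial
      · obtain ⟨k', a, -, rfl⟩ := hA1sy y hy
        exact hcm _ _ trivial
      · obtain ⟨k', a, rfl⟩ := hA2sy y hy
        exact hcm _ _ trivial

end mach

end Pool.Agent.Helper967.GG
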