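import Pool.Agent.Helper967.GG7

set_option autoImplicit false

/-! Finite 2-groups attached to finite languages. -/

namespace Pool.Agent.Helper967.GG

/-- a filtration of a group of exponent two -/
structure Filt (V : Type) [AddCommGroup V] where
  W : ℕ → AddSubgroup V
  n : ℕ
  mono : ∀ k, W k ≤ W (k + 1)
  bot : ∀ v ∈ W 0, v = 0
  top : ∀ v, v ∈ W n
  two : ∀ v : V, v + v = 0

section uni

variable {V : Type} [AddCommGroup V] (F : Filt V)

/-- unipotent affine-like maps -/
def IsUni (f : V → V) : Prop := ∀ k u v, u - v ∈ F.W (k + 1) → (f u - f v) - (u - v) ∈ F.W k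

def Uni : Type := {f : V → V // IsUni F f}

variable {F}

theorem IsUni.comp {f g : V → V} (hf : IsUni F f) (hg : IsUni F g) : IsUni F (f ∘ g) := by
  intro k u v h
  have h1 := hg k u v h
  have h2 : g u - g v ∈ F.W (k + 1) := by
    have := (F.W (k + 1)).add_mem (F.mono k h1) h
    simpa using this
  have h3 := hf k (g u) (g v) h2
  have h4 := (F.W k).add_mem h3 h1
  have e : f (g u) - f (g v) - (g u - g v) + (g u - g v - (u - v)) =
    (f ∘ g) u - (f ∘ g) v - (u - v) := by simp only [Function.comp]; abel
  rwa [e] at h4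

theorem IsUni.one : IsUni F (id : V → V) := by
  intro k u v _
  simp [(F.W k).zero_mem]

theorem IsUni.iter {f : V → V} (hf : IsUni F f) (n : ℕ) : IsUni F f^[n] := by
  induction n with
  | zero => exact IsUni.one
  | succ n ih => rw [Function.iterate_succ']; exact hf.comp ih

theorem IsUni.pow_aux {f : V → V} (hf : IsUni F f) (j : ℕ) (hj : j ≤ F.n) :
    ∀ u, f^[2 ^ j] u - u ∈ F.W (F.n - j) := by
  induction j with
  | zero => intro u; exact F.top _
  | succ j ih =>
    intro u
    have ih := ih (by omega)
    set g := f^[2 ^ j] with hg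
    have hgu : IsUni F g := hf.iter _
    have e1 : f^[2 ^ (j + 1)] u = g (g u) := by
      rw [pow_succ, mul_two, Function.iterate_add_apply]
    have e2 : F.n - j = (F.n - (j + 1)) + 1 := by omega
    have h1 := ih u
    rw [e2] at h1
    have h2 := hgu _ (g u) u h1
    rw [e1]
    have e3 : g (g u) - u = (g (g u) - g u - (g u - u)) + ((g u - u) + (g u - u)) := by abel
    rw [e3, F.two, add_zero]
    exact h2

theorem IsUni.pow_eq {f : V → V} (hf : IsUni F f) : f^[2 ^ F.n] = _root_.id := by
  funext u
  have h := hf.pow_aux F.n le_rfl u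
  rw [Nat.sub_self] at h
  exact sub_eq_zero.1 (F.bot _ h)

instance : Group (Uni F) where
  mul f g := ⟨f.1 ∘ g.1, f.2.comp g.2⟩
  one := ⟨id, IsUni.one⟩
  inv f := ⟨f.1^[2 ^ F.n - 1], f.2.iter _⟩
  mul_assoc f g h := rfl
  one_mul f := rfl
  mul_one f := rfl
  inv_mul_cancel f := by
    apply Subtype.ext
    change f.1^[2 ^ F.n - 1] ∘ f.1 = id
    have h1 : f.1^[2 ^ F.n - 1] ∘ f.1 = f.1^[(2 ^ F.n - 1) + 1] := rfl
    rw [h1, Nat.sub_add_cancel Nat.one_le_two_pow, f.2.pow_eq]

theorem uni_mul (f g : Uni F) : (f * g).1 = f.1 ∘ g.1 := rfl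
theorem uni_one : (1 : Uni F).1 = id := rfl

theorem uni_pow (f : Uni F) (n : ℕ) : (f ^ n).1 = f.1^[n] := by
  induction n with
  | zero => rfl
  | succ n ih => rw [pow_succ, uni_mul, ih]; rfl

theorem uni_pgroup : IsPGroup 2 (Uni F) := by
  intro f
  refine ⟨F.n, Subtype.ext ?_⟩
  rw [uni_pow, f.2.pow_eq]; rfl

/-- translation -/
def trl (c : V) : Uni F := ⟨fun v => v + c, by
  intro k u v _
  have : u + c - (v + c) - (u - v) = 0 := by abel
  rw [this]; exact (F.W k).zero_mem⟩

/-- `1 + S` -/
def lin (S : V →+ V) (hS : ∀ k, ∀ v ∈ F.W (k + 1), S v ∈ F.W k) : Uni F := ⟨fun v => v + S v, by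
  intro k u v h
  have : u + S u - (v + S v) - (u - v) = S (u - v) := by rw [map_sub]; abel
  rw [this]; exact hS k _ h⟩

theorem trl_add (c c' : V) : (trl (c + c') : Uni F) = trl c * trl c' := by
  apply Subtype.ext
  funext v
  change v + (c + c') = v + c' + c
  abel

theorem trl_zero : (trl 0 : Uni F) = 1 := by
  apply Subtype.ext
  funext v
  exact add_zero v

theorem trl_inj {c c' : V} (h : (trl c : Uni F) = trl c') : c = c' := by
  have := congrFun (congrArg Subtype.val h) 0
  change 0 + c = 0 + c' at this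
  simpa using this

theorem lin_trl (S : V →+ V) (hS : ∀ k, ∀ v ∈ F.W (k + 1), S v ∈ F.W k) (c : V) :
    lin S hS * trl c * (lin S hS)⁻¹ = trl (c + S c) := by
  rw [mul_inv_eq_iff_eq_mul]
  apply Subtype.ext
  funext v
  change (v + c) + S (v + c) = (v + S v) + (c + S c)
  rw [map_add]; abel

theorem lin_comm (S S' : V →+ V) (hS : ∀ k, ∀ v ∈ F.W (k + 1), S v ∈ F.W k)
    (hS' : ∀ k, ∀ v ∈ F.W (k + 1), S' v ∈ F.W k) (h : ∀ v, S (S' v) = S' (S v)) :
    Commute (lin S hS) (lin S' hS') := by
  apply Subtype.ext
  funext v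
  change (v + S' v) + S (v + S' v) = (v + S v) + S' (v + S v)
  rw [map_add, map_add, h]; abel

theorem trl_comm (c c' : V) : Commute (trl c : Uni F) (trl c') := by
  change trl c * trl c' = trl c' * trl c
  rw [← trl_add, ← trl_add, add_comm]

theorem lin_trl_comm (S : V →+ V) (hS : ∀ k, ∀ v ∈ F.W (k + 1), S v ∈ F.W k) (c : V)
    (h : S c = 0) : Commute (lin S hS) (trl c) := by
  have := lin_trl S hS c
  rw [h, add_zero] at this
  exact mul_inv_eq_iff_eq_mul.1 this

end uni

section lang

variable {L : Type} (X : Set (List L)) (cmm : L → L → Prop) (N : ℕ)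

/-- functions on contexts -/
def Ctx : AddSubgroup (Bool → List L → List L → ZMod 2) where
  carrier := {C | (∀ i p s, N < p.length + s.length → C i p s = 0) ∧
    ∀ i p z s x y, cmm x y → C i p (z ++ x :: y :: s) = C i p (z ++ y :: x :: s)}
  add_mem' := by
    rintro C C' ⟨h1, h2⟩ ⟨h1', h2'⟩
    refine ⟨fun i p s h => ?_, fun i p z s x y h => ?_⟩
    · change C i p s + C' i p s = 0
      rw [h1 i p s h, h1' i p s h, add_zero]
    · change C _ _ _ + C' _ _ _ = C _ _ _ + C' _ _ _
      rw [h2 i p z s x y h, h2' i p z s x y h]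
  zero_mem' := ⟨fun _ _ _ _ => rfl, fun _ _ _ _ _ _ _ => rfl⟩
  neg_mem' := by
    rintro C ⟨h1, h2⟩
    refine ⟨fun i p s h => ?_, fun i p z s x y h => ?_⟩
    · change - C i p s = 0
      rw [h1 i p s h, neg_zero]
    · change - C _ _ _ = - C _ _ _
      rw [h2 i p z s x y h]

/-- rank of an index -/
def rk (i : Bool) (p s : List L) : ℕ := 2 * (p.length + s.length) + (if i then 0 else 1)

theorem Ctx.ext {C C' : Ctx cmm N (L := L)} (h : ∀ i p s, C.1 i p s = C'.1 i p s) : C = C' :=
  Subtype.ext (funext fun i => funext fun p => funext fun s => h i p s)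

/-- the filtration by rank -/
def ctxF : Filt (Ctx cmm N (L := L)) where
  W k :=
    { carrier := {C | ∀ i p s, k ≤ rk i p s → C.1 i p s = 0}
      add_mem' := by
        intro C C' h h' i p s hk
        change C.1 i p s + C'.1 i p s = 0
        rw [h i p s hk, h' i p s hk, add_zero]
      zero_mem' := fun _ _ _ _ => rfl
      neg_mem' := by
        intro C h i p s hk
        change - C.1 i p s = 0
        rw [h i p s hk, neg_zero] }
  n := 2 * N + 2
  mono k := fun C h i p s hk => h i p s (by omega)
  bot := fun C h => Ctx.ext _ _ fun i p s => h i p s (Nat.zero_le _)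
  top := fun C i p s hk => C.2.1 i p s (by
    unfold rk at hk
    split_ifs at hk <;> omega)
  two := fun C => Ctx.ext _ _ fun i p s => CharTwo.add_self_eq_zero _

instance [Finite L] : Finite (Ctx cmm N (L := L)) := by
  have hf : {l : List L | l.length ≤ N}.Finite := List.finite_length_le L N
  haveI : Finite {l : List L | l.length ≤ N} := hf
  let f : Ctx cmm N (L := L) → (Bool × {l : List L | l.length ≤ N} × {l : List L | l.length ≤ N}) →
    ZMod 2 := fun C x => C.1 x.1 x.2.1.1 x.2.2.1
  haveI : Finite (ZMod 2) := inferInstanceAs (Finite (Fin 2))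
  refine Finite.of_injective f ?_
  intro C C' h
  apply Ctx.ext
  intro i p s
  by_cases hl : N < p.length + s.length
  · rw [C.2.1 i p s hl, C'.2.1 i p s hl]
  · have hp : p.length ≤ N := by omega
    have hs : s.length ≤ N := by omega
    exact congrFun h (i, ⟨p, hp⟩, ⟨s, hs⟩)

instance [Finite L] : Finite (Uni (ctxF cmm N (L := L))) :=
  Subtype.finite

/-- right shift -/
def Rop (x : L) : Ctx cmm N (L := L) →+ Ctx cmm N (L := L) where
  toFun C := ⟨fun i p s => C.1 i p (x :: s), by
    refine ⟨fun i p s h => C.2.1 _ _ _ ?_, fun i p z s a b h => ?_⟩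
    · rw [List.length_cons]; omega
    · exact C.2.2 i p (x :: z) s a b h⟩
  map_zero' := rfl
  map_add' _ _ := rfl

/-- left shift on the copy `true` -/
def Lop (x : L) : Ctx cmm N (L := L) →+ Ctx cmm N (L := L) where
  toFun C := ⟨fun i p s => if i then C.1 i (p ++ [x]) s else 0, by
    refine ⟨fun i p s h => ?_, fun i p z s a b h => ?_⟩
    · change (if i then C.1 i (p ++ [x]) s else 0) = 0
      split_ifs
      · apply C.2.1
        rw [List.length_append]; omega
      · rfl
    · change (if i then C.1 i (p ++ [x]) _ else 0) = (if i then C.1 i (p ++ [x]) _ else 0)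
      rw [C.2.2 i (p ++ [x]) z s a b h]⟩
  map_zero' := by
    apply Ctx.ext; intro i p s; cases i <;> rfl
  map_add' C C' := by
    apply Ctx.ext; intro i p s
    cases i
    · exact (add_zero _).symm
    · rfl

/-- from the copy `false` to the copy `true` -/
def Cop : Ctx cmm N (L := L) →+ Ctx cmm N (L := L) where
  toFun C := ⟨fun i p s => if i then C.1 false p s else 0, by
    refine ⟨fun i p s h => ?_, fun i p z s a b h => ?_⟩
    · change (if i then C.1 false p s else 0) = 0
      split_ifs
      · exact C.2.1 _ _ _ h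
      · rfl
    · change (if i then C.1 false p _ else 0) = (if i then C.1 false p _ else 0)
      rw [C.2.2 false p z s a b h]⟩
  map_zero' := by
    apply Ctx.ext; intro i p s; cases i <;> rfl
  map_add' C C' := by
    apply Ctx.ext; intro i p s
    cases i
    · exact (add_zero _).symm
    · rfl

theorem Rop_W (x : L) : ∀ k, ∀ v ∈ (ctxF cmm N).W (k + 1), Rop cmm N x v ∈ (ctxF cmm N).W k := by
  intro k C h i p s hk
  apply h
  unfold rk at *
  rw [List.length_cons]
  omega

theorem Lop_W (x : L) : ∀ k, ∀ v ∈ (ctxF cmm N).W (k + 1), Lop cmm N x v ∈ (ctxF cmm N).W k := by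
  intro k C h i p s hk
  change (if i then C.1 i (p ++ [x]) s else 0) = 0
  split_ifs with hi
  · apply h
    unfold rk at *
    rw [List.length_append, List.length_singleton]
    omega
  · rfl

theorem Cop_W : ∀ k, ∀ v ∈ (ctxF cmm N (L := L)).W (k + 1), Cop cmm N v ∈ (ctxF cmm N).W k := by
  intro k C h i p s hk
  change (if i then C.1 false p s else 0) = 0
  split_ifs with hi
  · apply h
    unfold rk at *
    simp only [hi, if_true, Bool.false_eq_true, if_false] at *
    omega
  · rfl

/-- the model: existence of a finite 2-group in which the language is visible -/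
theorem model [Finite L] (hN : ∀ w ∈ X, w.length ≤ N)
    (hsw : ∀ z s x y, cmm x y → (z ++ x :: y :: s ∈ X ↔ z ++ y :: x :: s ∈ X)) :
    ∃ (Γ : Type) (_ : Group Γ), Finite Γ ∧ IsPGroup 2 Γ ∧ ∃ (E F lam : Γ) (h s : L → Γ),
      Forc E F lam h s ∧ (∀ x y, cmm x y → Commute (h x) (h y)) ∧
      (∀ u v : List L, (∀ p r, p ++ u ++ r ∈ X ↔ p ++ v ++ r ∈ X) → evw E h u = evw E h v) ∧
      (∀ u ∈ X, evw E h u ≠ 1) := by
  classical
  -- characteristic function
  let χ : List L → ZMod 2 := fun w => if w ∈ X then 1 else 0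
  have hχsw : ∀ z s x y, cmm x y → χ (z ++ x :: y :: s) = χ (z ++ y :: x :: s) := by
    intro z s x y h
    simp only [χ, hsw z s x y h]
  have hχ0 : ∀ w, N < w.length → χ w = 0 := by
    intro w hw
    simp only [χ]
    rw [if_neg]
    intro h
    have := hN w h
    omega
  let cu : Bool → List L → Ctx cmm N (L := L) := fun j u =>
    ⟨fun i p s => if i = j then χ (p ++ u ++ s) else 0, by
      refine ⟨fun i p s h => ?_, fun i p z s a b h => ?_⟩
      · change (if i = j then χ (p ++ u ++ s) else 0) = 0
        split_ifs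
        · apply hχ0
          rw [List.length_append, List.length_append]; omega
        · rfl
      · change (if i = j then χ (p ++ u ++ (z ++ a :: b :: s)) else 0) =
          (if i = j then χ (p ++ u ++ (z ++ b :: a :: s)) else 0)
        have := hχsw (p ++ u ++ z) s a b h
        simp only [List.append_assoc] at this ⊢
        rw [this]⟩
  let E : Uni (ctxF cmm N (L := L)) := trl (cu true [])
  let F : Uni (ctxF cmm N (L := L)) := trl (cu false [])
  let lam : Uni (ctxF cmm N (L := L)) := lin (Cop cmm N) (Cop_W cmm N)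
  let h : L → Uni (ctxF cmm N (L := L)) := fun x => lin (Rop cmm N x) (Rop_W cmm N x)
  let s : L → Uni (ctxF cmm N (L := L)) := fun x => lin (Lop cmm N x) (Lop_W cmm N x)
  have hR : ∀ x u, Rop cmm N x (cu true u) = cu true (u ++ [x]) := by
    intro x u
    apply Ctx.ext
    intro i p r
    change (if i = true then χ (p ++ u ++ (x :: r)) else 0) =
      (if i = true then χ (p ++ (u ++ [x]) ++ r) else 0)
    simp
  have hEw : ∀ u, evw E h u = trl (cu true u) := by
    intro u
    induction u using List.reverseRecOn with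
    | nil => rfl
    | append_singleton u x ih =>
      have : evw E h (u ++ [x]) = Dh (h x) (evw E h u) := by
        unfold evw; rw [List.foldl_append]; rfl
      rw [this, ih]
      change trl (cu true u) * (lin (Rop cmm N x) (Rop_W cmm N x) * trl (cu true u) *
        (lin (Rop cmm N x) (Rop_W cmm N x))⁻¹) = _
      rw [lin_trl, ← trl_add, ← add_assoc, (ctxF cmm N).two, zero_add, hR]
  refine ⟨Uni (ctxF cmm N (L := L)), inferInstance, inferInstance, uni_pgroup, E, F, lam, h, s,
    ⟨?_, ?_, ?_, ?_, ?_, ?_, ?_, ?_⟩, ?_, ?_, ?_⟩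
  · intro x y
    apply lin_comm
    intro C
    rfl
  · intro x
    apply Commute.symm
    apply lin_trl_comm
    apply Ctx.ext
    intro i p r
    change (if i then (if i = false then χ ((p ++ [x]) ++ [] ++ r) else 0) else 0) = 0
    cases i <;> simp
  · intro x
    change lin _ _ * trl _ * (lin _ _)⁻¹ = lin _ _ * trl _ * (lin _ _)⁻¹
    rw [lin_trl, lin_trl]
    congr 2
    apply Ctx.ext
    intro i p r
    change (if i then (if i = true then χ ((p ++ [x]) ++ [] ++ r) else 0) else 0) =
      (if i = true then χ (p ++ [] ++ (x :: r)) else 0)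
    cases i <;> simp
  · exact trl_comm _ _
  · intro x
    apply lin_comm
    intro C
    rfl
  · apply lin_trl_comm
    apply Ctx.ext
    intro i p r
    change (if i then (if false = true then χ (p ++ [] ++ r) else 0) else 0) = 0
    cases i <;> simp
  · change lin _ _ * trl _ * (lin _ _)⁻¹ = trl _ * trl _
    rw [lin_trl, ← trl_add]
    congr 2
  · change trl _ * trl _ = 1
    rw [← trl_add, (ctxF cmm N).two, trl_zero]
  · intro x y hxy
    apply lin_comm
    intro C
    apply Ctx.ext
    intro i p r
    exact (C.2.2 i p [] r x y hxy).symm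
  · intro u v huv
    rw [hEw, hEw]
    congr 1
    apply Ctx.ext
    intro i p r
    change (if i = true then χ (p ++ u ++ r) else 0) = (if i = true then χ (p ++ v ++ r) else 0)
    simp only [χ, huv p r]
  · intro u hu h1
    rw [hEw, ← trl_zero] at h1
    have h2 := congrArg (fun C : Ctx cmm N (L := L) => C.1 true [] []) (trl_inj h1)
    change (if true = true then χ ([] ++ u ++ []) else 0) = (0 : ZMod 2) at h2
    simp [χ, hu] at h2

end lang

end Pool.Agent.Helper967.GG
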