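import Pool.Agent.Helper967.GG8

set_option autoImplicit false

/-! The language of a halting computation of a stack machine. -/

namespace Pool.Agent.Helper967.GG

section

variable {Q K A : Type} [DecidableEq K]

/-- `n` steps -/
def Nst (δ : Q → Option (K × (Option A → Q × List A))) :
    ℕ → Q × (K → List A) → Q × (K → List A) → Prop
  | 0, c, c' => c = c'
  | n + 1, c, c' => ∃ c1, mstep δ c = some c1 ∧ Nst δ n c1 c'

def parseO : List (Option A) → Option (List A)
  | [] => none
  | none :: l => (match l with | [] => some [] | _ :: _ => none)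
  | some a :: l => (parseO l).map (fun m => a :: m)

theorem parse_none (l : List (Option A)) (m : List A) :
    parseO (none :: l) = some m ↔ l = [] ∧ m = [] := by
  cases l with
  | nil => simp [parseO, eq_comm]
  | cons x l => simp [parseO]

theorem parse_some (a : A) (l : List (Option A)) (m : List A) :
    parseO (some a :: l) = some m ↔ ∃ m', parseO l = some m' ∧ m = a :: m' := by
  simp only [parseO, Option.map_eq_some_iff]
  constructor
  · rintro ⟨m', h, rfl⟩; exact ⟨m', h, rfl⟩
  · rintro ⟨m', h, rfl⟩; exact ⟨m', h, rfl⟩

theorem parse_app (l : List A) (r : List (Option A)) (m : List A) :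
    parseO (l.map some ++ r) = some m ↔ ∃ m', parseO r = some m' ∧ m = l ++ m' := by
  induction l generalizing m with
  | nil => simp [eq_comm]
  | cons a l ih =>
    rw [List.map_cons, List.cons_append, parse_some]
    constructor
    · rintro ⟨m', h, rfl⟩
      obtain ⟨m'', h', rfl⟩ := (ih m').1 h
      exact ⟨m'', h', rfl⟩
    · rintro ⟨m', h, rfl⟩
      exact ⟨l ++ m', (ih _).2 ⟨m', h, rfl⟩, rfl⟩

theorem parse_len (l : List (Option A)) (m : List A) (h : parseO l = some m) :
    l.length = m.length + 1 := by
  induction l generalizing m with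
  | nil => simp [parseO] at h
  | cons x l ih =>
    cases x with
    | none =>
      obtain ⟨rfl, rfl⟩ := (parse_none l m).1 h
      rfl
    | some a =>
      obtain ⟨m', h', rfl⟩ := (parse_some a l m).1 h
      rw [List.length_cons, List.length_cons, ih m' h']

def pj (k : K) : Ltr Q K A → Option (Option A)
  | .sy k' x => if k' = k then some x else none
  | .st _ => none
  | .tm => none

def prj (k : K) (r : List (Ltr Q K A)) : List (Option A) := r.filterMap (pj k)

theorem prj_app (k : K) (r r' : List (Ltr Q K A)) : prj k (r ++ r') = prj k r ++ prj k r' :=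
  List.filterMap_append

theorem prj_self (k : K) (x : Option A) (r : List (Ltr Q K A)) :
    prj k (.sy k x :: r) = x :: prj k r := by
  simp [prj, pj]

theorem prj_ne {k k' : K} (h : k' ≠ k) (x : Option A) (r : List (Ltr Q K A)) :
    prj k (.sy k' x :: r) = prj k r := by
  simp [prj, pj, h]

theorem prj_tm (k : K) (r : List (Ltr Q K A)) : prj k (.tm :: r) = prj k r :=
  List.filterMap_cons_none rfl

theorem prj_tm_sy (k k' : K) (b : Option A) : prj k ([.tm, .sy k' b] : List (Ltr Q K A)) =
    prj k ([.sy k' b, .tm] : List (Ltr Q K A)) := by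
  rw [prj_tm]
  by_cases h : k' = k
  · subst h; rw [prj_self, prj_self, prj_tm]
  · rw [prj_ne h, prj_ne h, prj_tm]

def tc : List (Ltr Q K A) → ℕ
  | [] => 0
  | .tm :: r => tc r + 1
  | .st _ :: r => tc r
  | .sy _ _ :: r => tc r

theorem tc_app (r r' : List (Ltr Q K A)) : tc (r ++ r') = tc r + tc r' := by
  induction r with
  | nil => simp [tc]
  | cons x r ih => cases x <;> simp [tc, ih] <;> omega

def NoSt (r : List (Ltr Q K A)) : Prop := ∀ q, Ltr.st q ∉ r

theorem NoSt.app {r r' : List (Ltr Q K A)} : NoSt (r ++ r') ↔ NoSt r ∧ NoSt r' := by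
  simp only [NoSt, List.mem_append, not_or]
  exact forall_and

/-- words of the language of a computation -/
def Lang (δ : Q → Option (K × (Option A → Q × List A))) (T : ℕ) (cT : Q × (K → List A)) :
    Set (List (Ltr Q K A)) :=
  {w | ∃ q r, ∃ S : K → List A, w = Ltr.st q :: r ∧ NoSt r ∧
    (∀ k, parseO (prj k r) = some (S k)) ∧ ∃ n, tc r + n = T ∧ Nst δ n (q, S) cT}

variable {δ : Q → Option (K × (Option A → Q × List A))} {T : ℕ} {cT : Q × (K → List A)}

theorem prj_rhsT_self (k : K) (g : Option A → Q × List A) (x : Option A) :
    prj k (rhsT k g x : List (Ltr Q K A)) = (g x).2.map some ++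
      (match x with | none => [none] | some _ => []) := by
  have h1 : ∀ l : List A, prj k (l.map (fun a => (Ltr.sy k (some a) : Ltr Q K A))) =
      l.map some := by
    intro l
    induction l with
    | nil => rfl
    | cons a l ih => rw [List.map_cons, prj_self, ih]; rfl
  unfold rhsT
  rw [prj_app, h1]
  cases x with
  | none => simp [prj, pj]
  | some a => simp [prj]

theorem prj_rhsT_ne {k k' : K} (hk : k ≠ k') (g : Option A → Q × List A) (x : Option A) :
    prj k' (rhsT k g x : List (Ltr Q K A)) = [] := by
  have h1 : ∀ l : List A, prj k' (l.map (fun a => (Ltr.sy k (some a) : Ltr Q K A))) = [] := by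
    intro l
    induction l with
    | nil => rfl
    | cons a l ih => rw [List.map_cons, prj_ne hk, ih]
  unfold rhsT
  rw [prj_app, h1]
  cases x with
  | none => simp [prj, pj, hk]
  | some a => simp [prj]

theorem noSt_rhsT (k : K) (g : Option A → Q × List A) (x : Option A) :
    NoSt (rhsT k g x : List (Ltr Q K A)) := by
  intro q h
  unfold rhsT at h
  rw [List.mem_append, List.mem_map] at h
  rcases h with ⟨a, -, h⟩ | h
  · exact absurd h (by simp)
  · cases x <;> simp at h

theorem tc_rhsT (k : K) (g : Option A → Q × List A) (x : Option A) :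
    tc (rhsT k g x : List (Ltr Q K A)) = 0 := by
  have h1 : ∀ l : List A, tc (l.map (fun a => (Ltr.sy k (some a) : Ltr Q K A))) = 0 := by
    intro l
    induction l with
    | nil => rfl
    | cons a l ih => rw [List.map_cons, tc, ih]
  unfold rhsT
  rw [tc_app, h1]
  cases x <;> rfl

theorem rel_ctx (hT : mstep δ cT = none) {q : Q} {k : K} {g : Option A → Q × List A}
    (hδ : δ q = some (k, g)) (x : Option A) (p s : List (Ltr Q K A)) :
    p ++ lhs q k x ++ s ∈ Lang δ T cT ↔ p ++ rhs k g x ++ s ∈ Lang δ T cT := by
  cases p with
  | cons l p =>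
    constructor
    · rintro ⟨q', r, S, hw, hr, -⟩
      exfalso
      have : r = p ++ lhs q k x ++ s := by
        simp only [List.cons_append, List.cons.injEq] at hw
        exact hw.2.symm
      apply hr q
      rw [this]; simp [lhs]
    · rintro ⟨q', r, S, hw, hr, -⟩
      exfalso
      have : r = p ++ rhs k g x ++ s := by
        simp only [List.cons_append, List.cons.injEq] at hw
        exact hw.2.symm
      apply hr (g x).1
      rw [this]; simp [rhs]
  | nil =>
    have hstep : ∀ S : K → List A, mstep δ (q, S) = some ((g (S k).head?).1,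
        Function.update S k ((g (S k).head?).2 ++ (S k).tail)) := by
      intro S; simp [mstep, hδ]
    constructor
    · rintro ⟨q', r, S, hw, hr, hS, n, hn, hN⟩
      simp only [lhs, List.nil_append, List.cons_append, List.cons.injEq, Ltr.st.injEq] at hw
      obtain ⟨rfl, rfl⟩ := hw
      cases n with
      | zero =>
        exfalso
        have : (q, S) = cT := hN
        rw [← this, hstep] at hT
        exact absurd hT (by simp)
      | succ n =>
        obtain ⟨c1, hc1, hN⟩ := hN
        rw [hstep] at hc1
        have hc1 := (Option.some.inj hc1).symm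
        subst hc1
        have hSk := hS k
        rw [prj_self] at hSk
        have hx : x = (S k).head? := by
          cases x with
          | none => rw [((parse_none _ _).1 hSk).2]; rfl
          | some a => obtain ⟨m', -, h⟩ := (parse_some _ _ _).1 hSk; rw [h]; rfl
        rw [← hx] at hN
        refine ⟨(g x).1, rhsT k g x ++ [Ltr.tm] ++ s, _, ?_, ?_, ?_, n, ?_, hN⟩
        · simp [rhs]
        · rw [NoSt.app, NoSt.app]
          refine ⟨⟨noSt_rhsT k g x, by simp [NoSt]⟩, ?_⟩
          intro q' hq'
          exact hr q' (List.mem_cons_of_mem _ hq')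
        · intro k'
          rw [prj_app, prj_app]
          by_cases hk : k = k'
          · subst hk
            have h2 : prj k ([Ltr.tm] : List (Ltr Q K A)) = [] := by simp [prj, pj]
            rw [Function.update_self, prj_rhsT_self, h2, List.append_nil, List.append_assoc,
              parse_app]
            refine ⟨(S k).tail, ?_, rfl⟩
            cases x with
            | none =>
              obtain ⟨h3, h4⟩ := (parse_none _ _).1 hSk
              rw [h3, h4]; rfl
            | some a =>
              obtain ⟨m', h3, h4⟩ := (parse_some _ _ _).1 hSk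
              rw [h4]; simpa using h3
          · have h2 : prj k' ([Ltr.tm] : List (Ltr Q K A)) = [] := by simp [prj, pj]
            rw [Function.update_of_ne (Ne.symm hk), prj_rhsT_ne hk, h2, ← hS k', prj_ne hk]
            rfl
        · rw [tc_app, tc_app, tc_rhsT]
          simp only [tc] at hn ⊢
          omega
    · rintro ⟨q', r, S', hw, hr, hS, n, hn, hN⟩
      simp only [rhs, List.nil_append, List.cons_append, List.cons.injEq, Ltr.st.injEq] at hw
      obtain ⟨rfl, rfl⟩ := hw
      have hSk := hS k
      have h2 : ∀ k, prj k ([Ltr.tm] : List (Ltr Q K A)) = [] := by intro k; simp [prj, pj]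
      rw [prj_app, prj_app, prj_rhsT_self, h2, List.append_nil, List.append_assoc,
        parse_app] at hSk
      obtain ⟨l, hl, hl'⟩ := hSk
      -- the old stack
      obtain ⟨o, ho, hox, hot⟩ : ∃ o : List A, parseO (x :: prj k s) = some o ∧ o.head? = x ∧
          o.tail = l := by
        cases x with
        | none =>
          have hl2 : parseO (none :: prj k s) = some l := hl
          obtain ⟨h3, h4⟩ := (parse_none _ _).1 hl2
          exact ⟨[], by rw [h3]; rfl, rfl, by rw [h4]; rfl⟩
        | some a =>
          have hl2 : parseO (prj k s) = some l := hl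
          exact ⟨a :: l, (parse_some _ _ _).2 ⟨l, hl2, rfl⟩, rfl, rfl⟩
      refine ⟨q, Ltr.sy k x :: s, Function.update S' k o, rfl, ?_, ?_, n + 1, ?_, ?_⟩
      · intro q' hq'
        rw [List.mem_cons] at hq'
        rcases hq' with hq' | hq'
        · exact absurd hq' (by simp)
        · exact hr q' (List.mem_append_right _ hq')
      · intro k'
        by_cases hk : k = k'
        · subst hk
          rw [prj_self, Function.update_self, ho]
        · rw [prj_ne hk, Function.update_of_ne (Ne.symm hk), ← hS k', prj_app, prj_app,
            prj_rhsT_ne hk, h2]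
          rfl
      · rw [tc_app, tc_app, tc_rhsT] at hn
        simp only [tc] at hn ⊢
        omega
      · refine ⟨_, hstep _, ?_⟩
        rw [Function.update_self, hox, hot]
        have : Function.update (Function.update S' k o) k ((g x).2 ++ l) = S' := by
          rw [Function.update_idem, ← hl', Function.update_eq_self]
        rw [this]
        exact hN

theorem nst_len {n : ℕ} {c c' : Q × (K → List A)} (h : Nst δ n c c') (k : K) :
    (c.2 k).length ≤ (c'.2 k).length + n := by
  induction n generalizing c with
  | zero => rw [show c = c' from h]; simp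
  | succ n ih =>
    obtain ⟨c1, h1, h2⟩ := h
    have h3 := ih h2
    obtain ⟨q, S⟩ := c
    unfold mstep at h1
    cases hδ : δ q with
    | none => simp [hδ] at h1
    | some kg =>
      obtain ⟨k1, g⟩ := kg
      simp only [hδ, Option.some.injEq] at h1
      subst h1
      by_cases hk : k = k1
      · subst hk
        simp only [Function.update_self, List.length_append, List.length_tail] at h3
        change (S k).length ≤ _
        omega
      · simp only [Function.update_of_ne hk] at h3
        change (S k).length ≤ _
        omega

theorem len_le (ks : List K) (hall : ∀ k, k ∈ ks) (r : List (Ltr Q K A)) (hr : NoSt r) :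
    r.length ≤ (ks.map (fun k => (prj k r).length)).sum + tc r := by
  induction r with
  | nil => simp
  | cons x r ih =>
    have hr' : NoSt r := fun q h => hr q (List.mem_cons_of_mem _ h)
    have ih := ih hr'
    cases x with
    | st q => exact absurd List.mem_cons_self (hr q)
    | sy k x =>
      have h1 : (ks.map (fun k' => (prj k' r).length)).sum + 1 ≤
          (ks.map (fun k' => (prj k' (Ltr.sy k x :: r : List (Ltr Q K A))).length)).sum := by
        obtain ⟨ks1, ks2, rfl⟩ := List.append_of_mem (hall k)
        have h2 : ∀ l : List K, (l.map (fun k' => (prj k' r).length)).sum ≤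
            (l.map (fun k' => (prj k' (Ltr.sy k x :: r : List (Ltr Q K A))).length)).sum := by
          intro l
          apply List.sum_le_sum
          intro k' _
          by_cases hk : k = k'
          · subst hk; rw [prj_self]; simp
          · rw [prj_ne hk]
        have h3 := h2 ks1
        have h4 := h2 ks2
        simp only [List.map_append, List.map_cons, List.sum_append, List.sum_cons, prj_self,
          List.length_cons]
        omega
      rw [List.length_cons, tc]
      omega
    | tm =>
      simp only [prj_tm, List.length_cons, tc]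
      omega

theorem lang_bdd (ks : List K) (hall : ∀ k, k ∈ ks) (w : List (Ltr Q K A))
    (hw : w ∈ Lang δ T cT) :
    w.length ≤ 1 + (ks.map (fun k => (cT.2 k).length + T + 1)).sum + T := by
  obtain ⟨q, r, S, rfl, hr, hS, n, hn, hN⟩ := hw
  have h1 := len_le ks hall r hr
  have h2 : (ks.map (fun k => (prj k r).length)).sum ≤
      (ks.map (fun k => (cT.2 k).length + T + 1)).sum := by
    apply List.sum_le_sum
    intro k _
    have h3 := parse_len _ _ (hS k)
    have h4 := nst_len hN k
    simp only at h4
    omega
  rw [List.length_cons]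
  omega

theorem lang_swap (z s : List (Ltr Q K A)) (x y : Ltr Q K A) (hxy : cm x y) :
    z ++ x :: y :: s ∈ Lang δ T cT ↔ z ++ y :: x :: s ∈ Lang δ T cT := by
  have key : ∀ (z s : List (Ltr Q K A)) (x y : Ltr Q K A), cm x y →
      z ++ x :: y :: s ∈ Lang δ T cT → z ++ y :: x :: s ∈ Lang δ T cT := by
    rintro z s x y hxy ⟨q, r, S, hw, hr, hS, n, hn, hN⟩
    have hx : ∀ q, x ≠ Ltr.st q := by
      intro q hq; subst hq; cases y <;> exact hxy
    have hy : ∀ q, y ≠ Ltr.st q := by
      intro q hq; subst hq; cases x <;> exact hxy
    cases z with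
    | nil =>
      simp only [List.nil_append, List.cons.injEq] at hw
      exact absurd hw.1 (hx q)
    | cons l z =>
      simp only [List.cons_append, List.cons.injEq] at hw
      obtain ⟨rfl, rfl⟩ := hw
      refine ⟨q, z ++ y :: x :: s, S, rfl, ?_, ?_, n, ?_, hN⟩
      · intro q' hq'
        apply hr q'
        simp only [List.mem_append, List.mem_cons] at hq' ⊢
        tauto
      · intro k
        rw [← hS k]
        have e1 : ∀ x y : Ltr Q K A, z ++ x :: y :: s = z ++ ([x, y] ++ s) := by
          intro x y; simp
        rw [e1, e1, prj_app, prj_app, prj_app, prj_app]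
        congr 3
        cases x with
        | st q' => exact absurd rfl (hx q')
        | tm =>
          cases y with
          | st q' => exact absurd rfl (hy q')
          | tm => rfl
          | sy k' b => exact (prj_tm_sy k k' b).symm
        | sy k1 a =>
          cases y with
          | st q' => exact absurd rfl (hy q')
          | tm => exact prj_tm_sy k k1 a
          | sy k2 b =>
            have hne : k1 ≠ k2 := hxy
            change prj k [Ltr.sy k2 b, Ltr.sy k1 a] = prj k [Ltr.sy k1 a, Ltr.sy k2 b]
            by_cases h1 : k1 = k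
            · have h2 : k2 ≠ k := fun e => hne (h1.trans e.symm)
              subst h1
              rw [prj_ne h2, prj_self, prj_self, prj_ne h2]
            · rw [prj_ne h1]
              by_cases h2 : k2 = k
              · subst h2; rw [prj_self, prj_self, prj_ne h1]
              · rw [prj_ne h2, prj_ne h2, prj_ne h1]
      · rw [← hn]
        have e1 : ∀ x y : Ltr Q K A, z ++ x :: y :: s = z ++ ([x, y] ++ s) := by
          intro x y; simp
        rw [e1, e1, tc_app, tc_app, tc_app, tc_app]
        cases x <;> cases y <;> simp [tc]
  refine ⟨key z s x y hxy, key z s y x ?_⟩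
  cases x <;> cases y <;> simp_all [cm]
  exact fun h => hxy h.symm

theorem cw_mem {ks : List K} (hks : ks.Nodup) (hall : ∀ k, k ∈ ks) {c0 : Q × (K → List A)}
    (h : Nst δ T c0 cT) : cw ks c0 ∈ Lang δ T cT := by
  have hblk : ∀ (S : K → List A) (k : K), prj k (blk S k : List (Ltr Q K A)) =
      (S k).map some ++ [none] := by
    intro S k
    have h1 : ∀ l : List A, prj k (l.map (fun a => (Ltr.sy k (some a) : Ltr Q K A))) =
        l.map some := by
      intro l
      induction l with
      | nil => rfl
      | cons a l ih => rw [List.map_cons, prj_self, ih]; rfl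
    rw [blk, prj_app, h1]
    simp [prj, pj]
  have hblk' : ∀ (S : K → List A) (k k' : K), k ≠ k' →
      prj k' (blk S k : List (Ltr Q K A)) = [] := by
    intro S k k' hk
    have h1 : ∀ l : List A, prj k' (l.map (fun a => (Ltr.sy k (some a) : Ltr Q K A))) = [] := by
      intro l
      induction l with
      | nil => rfl
      | cons a l ih => rw [List.map_cons, prj_ne hk, ih]
    rw [blk, prj_app, h1]
    simp [prj, pj, hk]
  have hsy : ∀ (S : K → List A) (k : K), ∀ y ∈ (blk S k : List (Ltr Q K A)),
      ∃ a, y = Ltr.sy k a := by
    intro S k y hy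
    rw [blk, List.mem_append, List.mem_map, List.mem_singleton] at hy
    rcases hy with ⟨a, -, rfl⟩ | rfl
    · exact ⟨_, rfl⟩
    · exact ⟨_, rfl⟩
  refine ⟨c0.1, ks.flatMap (blk c0.2), c0.2, rfl, ?_, ?_, T, ?_, h⟩
  · intro q hq
    rw [List.mem_flatMap] at hq
    obtain ⟨k, -, hq⟩ := hq
    obtain ⟨a, ha⟩ := hsy _ _ _ hq
    exact absurd ha (by simp)
  · intro k
    obtain ⟨ks1, ks2, rfl⟩ := List.append_of_mem (hall k)
    have hk1 : k ∉ ks1 := by
      intro hk
      exact (List.nodup_append.1 hks).2.2 k hk k List.mem_cons_self rfl
    have hk2 : k ∉ ks2 := (List.nodup_cons.1 (List.nodup_append.1 hks).2.1).1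
    have h0 : ∀ l : List K, k ∉ l → prj k (l.flatMap (blk c0.2) : List (Ltr Q K A)) = [] := by
      intro l hl
      induction l with
      | nil => rfl
      | cons k' l ih =>
        rw [List.flatMap_cons, prj_app, ih (fun h => hl (List.mem_cons_of_mem _ h)),
          hblk' _ _ _ (fun e => hl (by rw [← e]; exact List.mem_cons_self))]
        rfl
    rw [List.flatMap_append, List.flatMap_cons, prj_app, prj_app, h0 _ hk1, h0 _ hk2, hblk,
      List.append_nil, List.nil_append, parse_app]
    exact ⟨[], rfl, by simp⟩
  · have : ∀ l : List K, tc (l.flatMap (blk c0.2) : List (Ltr Q K A)) = 0 := by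
      intro l
      have h1 : ∀ r : List (Ltr Q K A), (∀ y ∈ r, ∃ k a, y = Ltr.sy k a) → tc r = 0 := by
        intro r hr
        induction r with
        | nil => rfl
        | cons y r ih =>
          obtain ⟨k, a, rfl⟩ := hr y List.mem_cons_self
          rw [tc, ih (fun z hz => hr z (List.mem_cons_of_mem _ hz))]
      apply h1
      intro y hy
      rw [List.mem_flatMap] at hy
      obtain ⟨k, -, hy⟩ := hy
      obtain ⟨a, ha⟩ := hsy _ _ _ hy
      exact ⟨k, a, ha⟩
    rw [this, zero_add]

instance [Finite Q] [Finite K] [Finite A] : Finite (Ltr Q K A) := by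
  let f : Ltr Q K A → (Q ⊕ (K × Option A)) ⊕ Unit := fun x =>
    match x with
    | .st q => Sum.inl (Sum.inl q)
    | .sy k a => Sum.inl (Sum.inr (k, a))
    | .tm => Sum.inr ()
  refine Finite.of_injective f ?_
  intro x y h
  cases x <;> cases y <;> simp_all [f]

/-- the halting computation is visible in a finite 2-group -/
theorem halting_model [Finite Q] [Finite K] [Finite A] {ks : List K} (hks : ks.Nodup)
    (hall : ∀ k, k ∈ ks) {c0 : Q × (K → List A)} (h : Nst δ T c0 cT) (hT : mstep δ cT = none) :
    ∃ (Γ : Type) (_ : Group Γ), Finite Γ ∧ IsPGroup 2 Γ ∧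
      ∃ (E F lam : Γ) (h s : Ltr Q K A → Γ),
      Forc E F lam h s ∧ (∀ x y, cm x y → Commute (h x) (h y)) ∧
      (∀ q k g, δ q = some (k, g) → ∀ x, evw E h (lhs q k x) = evw E h (rhs k g x)) ∧
      evw E h (cw ks c0) ≠ 1 := by
  obtain ⟨Γ, i1, i2, i3, E, F, lam, h', s, h1, h2, h3, h4⟩ := model (Lang δ T cT) cm _
    (lang_bdd ks hall) lang_swap
  exact ⟨Γ, i1, i2, i3, E, F, lam, h', s, h1, h2,
    fun q k g hδ x => h3 _ _ (rel_ctx hT hδ x), h4 _ (cw_mem hks hall h)⟩

end

end Pool.Agent.Helper967.GG
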