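import Mathlib
set_option autoImplicit false
open Polynomial NumberField

namespace Pool.Agent.Helper967.JR


/-- Dickson polynomials of the first kind -/
noncomputable def dk {R : Type*} [CommRing R] (c : R) : ℕ → R[X]
  | 0 => 2
  | 1 => X
  | (n+2) => X * dk c (n+1) - C c * dk c n

/-- Dickson polynomials of the second kind, shifted index -/
noncomputable def uk {R : Type*} [CommRing R] (c : R) : ℕ → R[X]
  | 0 => 0
  | 1 => 1
  | (n+2) => X * uk c (n+1) - C c * uk c n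

section basic
variable {R : Type*} [CommRing R]

@[simp] lemma dk_zero (c : R) : dk c 0 = 2 := rfl
@[simp] lemma dk_one (c : R) : dk c 1 = X := rfl
lemma dk_add_two (c : R) (n : ℕ) : dk c (n+2) = X * dk c (n+1) - C c * dk c n := rfl
@[simp] lemma uk_zero (c : R) : uk c 0 = 0 := rfl
@[simp] lemma uk_one (c : R) : uk c 1 = 1 := rfl
lemma uk_add_two (c : R) (n : ℕ) : uk c (n+2) = X * uk c (n+1) - C c * uk c n := rfl

lemma map_dk {S : Type*} [CommRing S] (f : R →+* S) (c : R) (n : ℕ) : (dk c n).map f = dk (f c) n := by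
  induction n using Nat.twoStepInduction with
  | zero => simp
  | one => simp
  | more n h1 h2 => simp [dk_add_two, h1, h2]

lemma map_uk {S : Type*} [CommRing S] (f : R →+* S) (c : R) (n : ℕ) : (uk c n).map f = uk (f c) n := by
  induction n using Nat.twoStepInduction with
  | zero => simp
  | one => simp
  | more n h1 h2 => simp [uk_add_two, h1, h2]

/-- Pell identities -/
lemma pell_triple (c : R) (n : ℕ) :
    (dk c n)^2 - (X^2 - 4 * C c) * (uk c n)^2 = 4 * (C c)^n ∧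
    (dk c (n+1))^2 - (X^2 - 4 * C c) * (uk c (n+1))^2 = 4 * (C c)^(n+1) ∧
    dk c (n+1) * dk c n - (X^2 - 4 * C c) * (uk c (n+1) * uk c n) = 2 * X * (C c)^n := by
  induction n with
  | zero => refine ⟨?_, ?_, ?_⟩ <;> simp <;> ring
  | succ n ih =>
    obtain ⟨h1, h2, h3⟩ := ih
    refine ⟨h2, ?_, ?_⟩
    · rw [dk_add_two, uk_add_two]
      linear_combination X^2 * h2 - 2 * X * C c * h3 + (C c)^2 * h1
    · rw [dk_add_two, uk_add_two]
      linear_combination X * h2 - C c * h3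

lemma pell_dk (c : R) (n : ℕ) :
    (dk c n)^2 - (X^2 - 4 * C c) * (uk c n)^2 = 4 * (C c)^n := (pell_triple c n).1

/-- the Pell identity at a point -/
lemma pell_eval (c y : R) (n : ℕ) :
    (4 * c - y^2) * ((uk c n).eval y)^2 = 4 * c^n - ((dk c n).eval y)^2 := by
  have := congrArg (fun q : R[X] => q.eval y) (pell_dk c n)
  simp only [eval_sub, eval_mul, eval_pow, eval_X, eval_C, eval_ofNat] at this
  linear_combination this

/-- evaluation at `u + v` with `u v = c` -/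
lemma dk_eval_add (c u v : R) (h : u * v = c) (n : ℕ) : (dk c n).eval (u + v) = u^n + v^n := by
  induction n using Nat.twoStepInduction with
  | zero => simp; norm_num
  | one => simp
  | more n h1 h2 =>
    rw [dk_add_two, eval_sub, eval_mul, eval_mul, eval_X, eval_C, h1, h2, ← h]
    ring

lemma dk_natDegree_le (c : R) (n : ℕ) : (dk c n).natDegree ≤ n := by
  induction n using Nat.twoStepInduction with
  | zero => simp
  | one => simpa using natDegree_X_le
  | more n h1 h2 =>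
    rw [dk_add_two]
    refine (natDegree_sub_le _ _).trans (max_le ?_ ?_)
    · refine natDegree_mul_le.trans ?_
      have := natDegree_X_le (R := R)
      omega
    · refine (natDegree_C_mul_le _ _).trans (by omega)

lemma dk_coeff (c : R) (n : ℕ) : (dk c (n+1)).coeff (n+1) = 1 := by
  induction n with
  | zero => simp
  | succ n ih =>
    rw [dk_add_two, coeff_sub, coeff_X_mul, ih, coeff_C_mul,
      coeff_eq_zero_of_natDegree_lt ((dk_natDegree_le c n).trans_lt (by omega))]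
    simp

lemma dk_monic (c : R) (n : ℕ) : (dk c (n+1)).Monic :=
  monic_of_natDegree_le_of_coeff_eq_one (n+1) (dk_natDegree_le c (n+1)) (dk_coeff c n)

lemma dk_natDegree [Nontrivial R] (c : R) (n : ℕ) : (dk c (n+1)).natDegree = n+1 :=
  le_antisymm (dk_natDegree_le c (n+1)) (le_natDegree_of_ne_zero (by rw [dk_coeff]; exact one_ne_zero))

end basic

section cheb

/-- value of Dickson polynomials on the interval -/
lemma dk_eval_cos (r φ : ℝ) (n : ℕ) : (dk (r^2) n).eval (2*r*Real.cos φ) = 2 * r^n * Real.cos (n*φ) := by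
  induction n using Nat.twoStepInduction with
  | zero => simp
  | one => simp
  | more n h1 h2 =>
    rw [dk_add_two, eval_sub, eval_mul, eval_mul, eval_X, eval_C, h1, h2]
    have h3 : Real.cos (((n+2 : ℕ):ℝ) * φ) = 2 * Real.cos φ * Real.cos (((n+1 : ℕ):ℝ) * φ) - Real.cos ((n:ℝ)*φ) := by
      have e1 : (((n+2 : ℕ):ℝ) * φ) = ((n+1 : ℕ):ℝ) * φ + φ := by push_cast; ring
      have e2 : ((n:ℝ)*φ) = ((n+1 : ℕ):ℝ) * φ - φ := by push_cast; ring
      rw [e1, e2, Real.cos_add, Real.cos_sub]; ring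
    rw [h3]; ring

/-- monic Chebyshev polynomials on `[0, 4r]` -/
noncomputable def qq (r : ℝ) (n : ℕ) : ℝ[X] := if n = 0 then 1 else (dk (r^2) n).comp (X - C (2*r))

lemma qq_monic (r : ℝ) (n : ℕ) : (qq r n).Monic := by
  unfold qq
  split_ifs with h
  · exact monic_one
  · obtain ⟨m, rfl⟩ := Nat.exists_eq_succ_of_ne_zero h
    exact (dk_monic _ m).comp_X_sub_C _

lemma qq_natDegree (r : ℝ) (n : ℕ) : (qq r n).natDegree = n := by
  unfold qq
  split_ifs with h
  · simp [h]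
  · obtain ⟨m, rfl⟩ := Nat.exists_eq_succ_of_ne_zero h
    rw [natDegree_comp, natDegree_X_sub_C, mul_one]
    exact dk_natDegree _ m

lemma qq_eval_cos (r φ : ℝ) (n : ℕ) (hn : n ≠ 0) : (qq r n).eval (2*r + 2*r*Real.cos φ) = 2 * r^n * Real.cos (n*φ) := by
  unfold qq
  rw [if_neg hn, eval_comp, eval_sub, eval_X, eval_C]
  have : 2*r + 2*r*Real.cos φ - 2*r = 2*r*Real.cos φ := by ring
  rw [this, dk_eval_cos]

lemma exists_angle (r x : ℝ) (hr : 0 < r) (h0 : 0 ≤ x) (h1 : x ≤ 4*r) : ∃ φ : ℝ, x = 2*r + 2*r*Real.cos φ := by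
  refine ⟨Real.arccos ((x - 2*r)/(2*r)), ?_⟩
  rw [Real.cos_arccos]
  · field_simp; ring
  · rw [le_div_iff₀ (by positivity)]; linarith
  · rw [div_le_iff₀ (by positivity)]; linarith

lemma qq_abs_le (r x : ℝ) (hr : 0 < r) (h0 : 0 ≤ x) (h1 : x ≤ 4*r) (n : ℕ) : |(qq r n).eval x| ≤ 2 * r^n := by
  by_cases hn : n = 0
  · subst hn; simp [qq]
  · obtain ⟨φ, rfl⟩ := exists_angle r x hr h0 h1
    rw [qq_eval_cos r φ n hn, abs_mul, abs_of_nonneg (by positivity : 0 ≤ 2 * r^n)]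
    have := Real.abs_cos_le_one (n*φ)
    nlinarith [pow_pos hr n]

/-- Fekete bound -/
lemma fekete (D : ℕ) (v : Fin D → ℝ) (r : ℝ) (hr : 0 < r) (hv : ∀ i, 0 ≤ v i ∧ v i ≤ 4*r) :
    |(Matrix.vandermonde v).det| ≤ D.factorial * (2^D * r^(D*(D-1)/2)) := by
  rw [Matrix.det_eval_matrixOfPolynomials_eq_det_vandermonde v (fun i => qq r i)
    (fun i => qq_natDegree r i) (fun i => qq_monic r i)]
  rw [Matrix.det_apply]
  refine (Finset.abs_sum_le_sum_abs _ _).trans ?_
  have hprod : ∏ i : Fin D, (2 * r^(i:ℕ)) = 2^D * r^(D*(D-1)/2) := by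
    rw [Finset.prod_mul_distrib, Finset.prod_const, Finset.card_univ, Fintype.card_fin,
      Finset.prod_pow_eq_pow_sum, Fin.sum_univ_eq_sum_range (fun i => i) D, Finset.sum_range_id]
  have hterm : ∀ σ : Equiv.Perm (Fin D),
      |Equiv.Perm.sign σ • ∏ i, (Matrix.of fun i j => (qq r (j:ℕ)).eval (v i)) (σ i) i| ≤ 2^D * r^(D*(D-1)/2) := by
    intro σ
    have h1 : |Equiv.Perm.sign σ • ∏ i, (Matrix.of fun i j => (qq r (j:ℕ)).eval (v i)) (σ i) i| =
        |∏ i, (Matrix.of fun i j => (qq r (j:ℕ)).eval (v i)) (σ i) i| := by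
      rcases Int.units_eq_one_or (Equiv.Perm.sign σ) with h | h
      · rw [h]; simp
      · rw [h]; simp
    rw [h1, Finset.abs_prod, ← hprod]
    refine Finset.prod_le_prod (fun i _ => abs_nonneg _) (fun i _ => ?_)
    exact qq_abs_le r _ hr (hv _).1 (hv _).2 _
  refine (Finset.sum_le_sum (fun σ _ => hterm σ)).trans ?_
  rw [Finset.sum_const, Finset.card_univ, Fintype.card_perm, Fintype.card_fin, nsmul_eq_mul]

end cheb



section ideals

lemma dvd_of_forall_pow {R : Type*} [CommRing R] [IsDedekindDomain R] (I J : Ideal R) (hI : I ≠ 0) (hJ : J ≠ 0)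
    (h : ∀ P : Ideal R, Prime P → ∀ n : ℕ, P^n ∣ I → P^n ∣ J) : I ∣ J := by
  classical
  rw [UniqueFactorizationMonoid.dvd_iff_normalizedFactors_le_normalizedFactors hI hJ, Multiset.le_iff_count]
  intro P
  by_cases hP : P ∈ UniqueFactorizationMonoid.normalizedFactors I
  · have hPp : Prime P := UniqueFactorizationMonoid.prime_of_normalized_factor P hP
    have hPn : normalize P = P := UniqueFactorizationMonoid.normalize_normalized_factor P hP
    have e1 := UniqueFactorizationMonoid.emultiplicity_eq_count_normalizedFactors hPp.irreducible hI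
    have e2 := UniqueFactorizationMonoid.emultiplicity_eq_count_normalizedFactors hPp.irreducible hJ
    rw [hPn] at e1 e2
    have h1 : P ^ (Multiset.count P (UniqueFactorizationMonoid.normalizedFactors I)) ∣ I := by
      rw [pow_dvd_iff_le_emultiplicity, e1]
    have h2 := h P hPp _ h1
    rw [pow_dvd_iff_le_emultiplicity, e2] at h2
    exact_mod_cast h2
  · rw [Multiset.count_eq_zero_of_notMem hP]; exact Nat.zero_le _

variable {B L : Type*} [Field B] [NumberField B] [Field L] [NumberField L] [Algebra B L]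

lemma span_dvd_different (U Δ : 𝓞 L) (N0 NB : ℕ) (hN0 : N0 ≠ 0) (h : Δ * U^2 = (N0 : 𝓞 L)) (hNB : NB ∣ N0)
    (H : ∀ l : Ideal (𝓞 B), l.IsPrime → (NB : 𝓞 B) ∈ l → (N0 : 𝓞 B) ∉ l^2) :
    Ideal.span {U, (NB : 𝓞 L)} ∣ differentIdeal (𝓞 B) (𝓞 L) := by
  have hNB0 : NB ≠ 0 := by rintro rfl; exact hN0 (Nat.eq_zero_of_zero_dvd hNB)
  have hNBL : (NB : 𝓞 L) ≠ 0 := Nat.cast_ne_zero.mpr hNB0
  have hNBB : (NB : 𝓞 B) ≠ 0 := Nat.cast_ne_zero.mpr hNB0
  apply dvd_of_forall_pow
  · intro h0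
    have : (NB : 𝓞 L) ∈ Ideal.span {U, (NB : 𝓞 L)} := Ideal.subset_span (by simp)
    rw [h0] at this
    exact hNBL (by simpa using this)
  · exact differentIdeal_ne_bot
  · intro P hP n hn
    rcases Nat.eq_zero_or_pos n with rfl | hnpos
    · simp
    have hPprime : P.IsPrime := Ideal.isPrime_of_prime hP
    have hle : Ideal.span {U, (NB : 𝓞 L)} ≤ P^n := Ideal.le_of_dvd hn
    have hU : U ∈ P^n := hle (Ideal.subset_span (by simp))
    have hNBP : (NB : 𝓞 L) ∈ P := by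
      have : (NB : 𝓞 L) ∈ P^n := hle (Ideal.subset_span (by simp))
      exact Ideal.pow_le_self (by omega) this
    set l : Ideal (𝓞 B) := P.under (𝓞 B) with hl
    have hlp : l.IsPrime := inferInstance
    have hNl : (NB : 𝓞 B) ∈ l := by
      rw [hl, Ideal.mem_comap]; simpa using hNBP
    have hl0 : l ≠ ⊥ := by
      intro h0; rw [h0] at hNl; exact hNBB (by simpa using hNl)
    have hN0l : (N0 : 𝓞 B) ∈ l := by
      obtain ⟨c, hc⟩ := hNB
      rw [hc]; push_cast; exact Ideal.mul_mem_right _ _ hNl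
    have hlmax : l.IsMaximal := hlp.isMaximal hl0
    have hlprime : Prime l := Ideal.prime_of_isPrime hl0 hlp
    have hN0P : (N0 : 𝓞 L) ∈ P^(2*n) := by
      rw [← h]
      apply Ideal.mul_mem_left
      rw [mul_comm 2 n, pow_mul]
      exact Ideal.pow_mem_pow hU 2
    obtain ⟨J, hJ⟩ : l ∣ Ideal.span {(N0 : 𝓞 B)} := by
      rw [Ideal.dvd_span_singleton]; exact hN0l
    have hlJ : ¬ l ∣ J := by
      intro hd
      apply H l hlp hNl
      rw [← Ideal.dvd_span_singleton, hJ, pow_two]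
      exact mul_dvd_mul_left l hd
    have hPJ : ¬ P ∣ J.map (algebraMap (𝓞 B) (𝓞 L)) := by
      intro hd
      apply hlJ
      rw [Ideal.dvd_iff_le] at hd ⊢
      rw [hl]
      exact Ideal.map_le_iff_le_comap.mp hd
    have hd1 : P^(2*n) ∣ l.map (algebraMap (𝓞 B) (𝓞 L)) * J.map (algebraMap (𝓞 B) (𝓞 L)) := by
      rw [← Ideal.map_mul, ← hJ, Ideal.map_span, Set.image_singleton, Ideal.dvd_span_singleton]
      simpa using hN0P
    have hd2 : P^(2*n) ∣ l.map (algebraMap (𝓞 B) (𝓞 L)) := hP.pow_dvd_of_dvd_mul_right _ hPJ hd1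
    have hd3 := pow_sub_one_dvd_differentIdeal (A := 𝓞 B) (B := 𝓞 L) P (2*n) hl0 hd2
    exact (pow_dvd_pow P (by omega : n ≤ 2*n-1)).trans hd3

end ideals



section normbound
variable {L : Type*} [Field L] [NumberField L]

lemma norm_le (U Δ : 𝓞 L) (N0 NB : ℕ) (hN0 : N0 ≠ 0) (h : Δ * U^2 = (N0 : 𝓞 L)) (hNB : NB ∣ N0) :
    NB ^ (Module.finrank ℚ L) ≤ (Algebra.norm ℤ Δ).natAbs * (Ideal.absNorm (Ideal.span {U, (NB : 𝓞 L)}))^2 := by
  have hle : Ideal.span {Δ} * (Ideal.span {U, (NB : 𝓞 L)})^2 ≤ Ideal.span {(NB : 𝓞 L)} := by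
    rw [pow_two, Ideal.span_mul_span', Ideal.span_mul_span', Ideal.span_le]
    rintro z hz
    obtain ⟨a, ha, b, hb, rfl⟩ := Set.mem_mul.mp hz
    obtain ⟨b1, hb1, b2, hb2, rfl⟩ := Set.mem_mul.mp hb
    simp only [Set.mem_singleton_iff] at ha
    subst ha
    simp only [Set.mem_insert_iff, Set.mem_singleton_iff] at hb1 hb2
    obtain ⟨c, hc⟩ := hNB
    rw [SetLike.mem_coe, Ideal.mem_span_singleton]
    rcases hb1 with rfl | rfl <;> rcases hb2 with rfl | rfl
    · refine ⟨(c : 𝓞 L), ?_⟩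
      have h3 : (N0 : 𝓞 L) = NB * c := by rw [hc]; push_cast; ring
      rw [← h3, ← h]; ring
    · exact Dvd.intro_left (a * b1) (by ring)
    · exact Dvd.intro_left (a * b2) (by ring)
    · exact Dvd.intro_left (a * NB) (by ring)
  have hdvd := Ideal.absNorm_dvd_absNorm_of_le hle
  rw [map_mul, map_pow, Ideal.absNorm_span_natCast, RingOfIntegers.rank, Ideal.absNorm_span_singleton] at hdvd
  apply Nat.le_of_dvd _ hdvd
  have hNB0 : NB ≠ 0 := by rintro rfl; exact hN0 (Nat.eq_zero_of_zero_dvd hNB)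
  have hNBL : (NB : 𝓞 L) ≠ 0 := Nat.cast_ne_zero.mpr hNB0
  have hΔ : Δ ≠ 0 := by
    rintro rfl
    rw [zero_mul] at h
    exact (Nat.cast_ne_zero.mpr hN0 : (N0 : 𝓞 L) ≠ 0) h.symm
  have h1 : Algebra.norm ℤ Δ ≠ 0 := Algebra.norm_ne_zero_iff.mpr hΔ
  have h2 : Ideal.absNorm (Ideal.span {U, (NB : 𝓞 L)}) ≠ 0 := by
    rw [Ne, Ideal.absNorm_eq_zero_iff]
    intro h0
    have : (NB : 𝓞 L) ∈ Ideal.span {U, (NB : 𝓞 L)} := Ideal.subset_span (by simp)
    rw [h0] at this
    exact hNBL (by simpa using this)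
  positivity

lemma norm_upper (z : 𝓞 L) (C : ℝ) (hz : ∀ τ : L →+* ℂ, ‖τ z‖ ≤ C) :
    ((Algebra.norm ℤ z).natAbs : ℝ) ≤ C ^ (Module.finrank ℚ L) := by
  have h1 : ((Algebra.norm ℤ z : ℤ) : ℂ) = ∏ σ : L →ₐ[ℚ] ℂ, σ (z : L) := by
    rw [← Algebra.norm_eq_prod_embeddings ℚ ℂ (z : L), ← Algebra.coe_norm_int]
    simp
  have h2 : ((Algebra.norm ℤ z).natAbs : ℝ) = ‖((Algebra.norm ℤ z : ℤ) : ℂ)‖ := by
    rw [Complex.norm_intCast, Nat.cast_natAbs, Int.cast_abs]
  rw [h2, h1, norm_prod]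
  refine (Finset.prod_le_prod (fun _ _ => norm_nonneg _) (fun σ _ => hz σ.toRingHom)).trans ?_
  rw [Finset.prod_const, Finset.card_univ, AlgHom.card]

end normbound

section fderiv
variable {B L : Type*} [Field B] [NumberField B] [Field L] [NumberField L] [Algebra B L]

/-- upper bound for the norm of `f'(x)` -/
lemma norm_deriv_upper (x : 𝓞 L) (hx : Algebra.adjoin B {(x : L)} = ⊤) (M : ℝ)
    (hb : ∀ n : ℕ, n = Module.finrank B L → ∀ v : Fin n → ℝ, (∀ i, ∃ τ : L →+* ℂ, (τ (x:L) = (v i : ℂ))) →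
      ((Matrix.vandermonde v).det)^2 ≤ M)
    (hreal : ∀ τ : L →+* ℂ, (τ (x : L)).im = 0) :
    ((Algebra.norm ℤ (aeval x (derivative (minpoly (𝓞 B) x)))).natAbs : ℝ) ≤ M ^ (Module.finrank ℚ B) := by
  have hint : IsIntegral B (x : L) := Algebra.IsIntegral.isIntegral _
  set pb := PowerBasis.ofAdjoinEqTop hint hx with hpb
  have hgen : pb.gen = (x : L) := PowerBasis.ofAdjoinEqTop_gen hint hx
  have hdim : pb.dim = Module.finrank B L := pb.finrank.symm
  set z := aeval x (derivative (minpoly (𝓞 B) x)) with hz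
  have hzL : (z : L) = aeval (x : L) (derivative (minpoly B (x : L))) := by
    have hxint : IsIntegral (𝓞 B) x := Algebra.IsIntegral.isIntegral _
    have h1 : minpoly B (x : L) = (minpoly (𝓞 B) x).map (algebraMap (𝓞 B) B) :=
      minpoly.isIntegrallyClosed_eq_field_fractions B L hxint
    rw [h1, derivative_map, aeval_map_algebraMap, hz]
    exact (aeval_algebraMap_apply L x (derivative (minpoly (𝓞 B) x))).symm
  have hnorm : Algebra.norm B (z : L) = (-1)^(Module.finrank B L * (Module.finrank B L - 1)/2) * Algebra.discr B pb.basis := by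
    have h2 := Algebra.discr_powerBasis_eq_norm B pb
    rw [hgen, ← hzL] at h2
    rw [h2, ← mul_assoc, ← mul_pow]
    simp
  have h3 : ((Algebra.norm ℤ z).natAbs : ℝ) = ‖∏ σ : B →ₐ[ℚ] ℂ, σ (Algebra.norm B (z : L))‖ := by
    rw [← Algebra.norm_eq_prod_embeddings ℚ ℂ (Algebra.norm B (z : L)), Algebra.norm_norm, ← Algebra.coe_norm_int]
    rw [Nat.cast_natAbs, Int.cast_abs]
    simp
  rw [h3, norm_prod]
  have key : ∀ σ : B →ₐ[ℚ] ℂ, ‖σ (Algebra.norm B (z : L))‖ ≤ M := by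
    intro σ
    let _ : Algebra B ℂ := (σ : B →+* ℂ).toAlgebra
    have hσ : ∀ b : B, σ b = algebraMap B ℂ b := fun b => rfl
    have e : Fin pb.dim ≃ (L →ₐ[B] ℂ) := by
      refine (Fintype.equivFinOfCardEq ?_).symm
      rw [AlgHom.card, pb.finrank]
    have h4 : σ (Algebra.discr B pb.basis) = (Matrix.vandermonde fun i => e i pb.gen).det^2 := by
      rw [hσ, Algebra.discr_eq_det_embeddingsMatrixReindex_pow_two B ℂ pb.basis e,
        Algebra.embeddingsMatrixReindex_eq_vandermonde, Matrix.det_transpose]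
    set v : Fin pb.dim → ℝ := fun i => (e i pb.gen).re with hv
    have hve : ∀ i, e i pb.gen = (v i : ℂ) := by
      intro i
      apply Complex.ext
      · simp [hv]
      · rw [hgen]
        simpa using hreal (e i : L →+* ℂ)
    have h5 : (Matrix.vandermonde fun i => e i pb.gen).det = (((Matrix.vandermonde v).det : ℝ) : ℂ) := by
      have : (Matrix.vandermonde fun i => e i pb.gen) = (Matrix.vandermonde v).map Complex.ofRealHom := by
        ext i j
        simp [Matrix.vandermonde_apply, hve i]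
      rw [this]
      exact (RingHom.map_det Complex.ofRealHom (Matrix.vandermonde v)).symm
    rw [hnorm, map_mul, h4, h5, map_pow, map_neg, map_one, norm_mul, norm_pow, norm_neg, norm_one, one_pow, one_mul,
      ← Complex.ofReal_pow, Complex.norm_real, Real.norm_eq_abs, abs_of_nonneg (sq_nonneg _)]
    apply hb _ hdim v
    intro i
    refine ⟨(e i : L →+* ℂ), ?_⟩
    rw [← hve i, hgen]
    rfl
  refine (Finset.prod_le_prod (fun _ _ => norm_nonneg _) (fun σ _ => key σ)).trans ?_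
  rw [Finset.prod_const, Finset.card_univ, AlgHom.card]

end fderiv


section main
variable {B L : Type*} [Field B] [NumberField B] [Field L] [NumberField L] [Algebra B L]

lemma pow_bound (D : ℕ) (r : ℝ) (hr : 0 < r) :
    ((D.factorial * (2^D * r^(D*(D-1)/2)) : ℝ)^2)^2 ≤ ((2*D : ℝ)^4 * r^(2*(D-1)))^D := by
  have h1 : (D.factorial : ℝ) ≤ (D:ℝ)^D := by exact_mod_cast Nat.factorial_le_pow D
  have h2 : (r^(D*(D-1)/2))^4 = (r^(2*(D-1)))^D := by
    rw [← pow_mul, ← pow_mul]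
    congr 1
    have h3 : 2 * (D*(D-1)/2) = D*(D-1) := Nat.mul_div_cancel' (Nat.even_mul_pred_self D).two_dvd
    calc D*(D-1)/2 * 4 = 2 * (2 * (D*(D-1)/2)) := by ring
      _ = 2 * (D*(D-1)) := by rw [h3]
      _ = 2*(D-1)*D := by ring
  calc ((D.factorial * (2^D * r^(D*(D-1)/2)) : ℝ)^2)^2 = (D.factorial : ℝ)^4 * (2^D)^4 * (r^(D*(D-1)/2))^4 := by ring
    _ ≤ ((D:ℝ)^D)^4 * (2^D)^4 * (r^(D*(D-1)/2))^4 := by gcongr
    _ = ((2*D : ℝ)^4 * r^(2*(D-1)))^D := by
      have h4 : ((2*D : ℝ)^4)^D = ((D:ℝ)^D)^4 * (2^D)^4 := by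
        rw [pow_right_comm, mul_pow (2:ℝ) (D:ℝ) D, mul_pow]; ring
      rw [h2, mul_pow ((2*D : ℝ)^4) _ D, h4]

/-- the main inequality -/
theorem main_ineq (x : 𝓞 L) (hx : Algebra.adjoin B {(x : L)} = ⊤) (U Δ : 𝓞 L) (N0 NB : ℕ) (hN0 : N0 ≠ 0)
    (h : Δ * U^2 = (N0 : 𝓞 L)) (hNB : NB ∣ N0)
    (H : ∀ l : Ideal (𝓞 B), l.IsPrime → (NB : 𝓞 B) ∈ l → (N0 : 𝓞 B) ∉ l^2)
    (c r : ℝ) (hc : 0 ≤ c) (hr : 0 < r)
    (hreal : ∀ τ : L →+* ℂ, (τ (x : L)).im = 0 ∧ 0 ≤ (τ (x:L)).re ∧ (τ (x:L)).re ≤ 4*r)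
    (hΔ : ∀ τ : L →+* ℂ, ‖τ (Δ : L)‖ ≤ 4*c) :
    (NB : ℝ) ≤ 4*c*((2*(Module.finrank B L : ℝ))^4 * r^(2*(Module.finrank B L - 1))) := by
  set D := Module.finrank B L with hD
  set b := Module.finrank ℚ B with hb
  have hDpos : 1 ≤ D := Module.finrank_pos
  have hbpos : 1 ≤ b := Module.finrank_pos
  have hn : Module.finrank ℚ L = D * b := by
    rw [hD, hb, mul_comm]; exact (Module.finrank_mul_finrank ℚ B L).symm
  set z := aeval x (derivative (minpoly (𝓞 B) x)) with hz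
  have hzmem : z ∈ differentIdeal (𝓞 B) (𝓞 L) :=
    aeval_derivative_mem_differentIdeal (𝓞 B) B L x hx
  have hzu : z ∈ Ideal.span {U, (NB : 𝓞 L)} :=
    Ideal.le_of_dvd (span_dvd_different U Δ N0 NB hN0 h hNB H) hzmem
  have hz0 : z ≠ 0 := by
    intro h0
    have hxint : IsIntegral (𝓞 B) x := Algebra.IsIntegral.isIntegral _
    have h1 : minpoly B (x : L) = (minpoly (𝓞 B) x).map (algebraMap (𝓞 B) B) :=
      minpoly.isIntegrallyClosed_eq_field_fractions B L hxint
    have h2 : (z : L) = aeval (x : L) (derivative (minpoly B (x : L))) := by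
      rw [h1, derivative_map, aeval_map_algebraMap, hz]
      exact (aeval_algebraMap_apply L x (derivative (minpoly (𝓞 B) x))).symm
    have h3 := (Algebra.IsSeparable.isSeparable B (x : L)).aeval_derivative_ne_zero (minpoly.aeval B (x : L))
    rw [← h2, h0] at h3
    exact h3 (by simp)
  have hA : (Ideal.absNorm (Ideal.span {U, (NB : 𝓞 L)}) : ℝ) ≤ ((Algebra.norm ℤ z).natAbs : ℝ) := by
    have h1 := Ideal.absNorm_dvd_norm_of_mem hzu
    have h2 : Algebra.norm ℤ z ≠ 0 := Algebra.norm_ne_zero_iff.mpr hz0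
    have h3 : Ideal.absNorm (Ideal.span {U, (NB : 𝓞 L)}) ∣ (Algebra.norm ℤ z).natAbs :=
      Int.natCast_dvd.mp h1
    exact_mod_cast Nat.le_of_dvd (Int.natAbs_pos.mpr h2) h3
  set M : ℝ := (D.factorial * (2^D * r^(D*(D-1)/2)) : ℝ)^2 with hM
  have hup : ((Algebra.norm ℤ z).natAbs : ℝ) ≤ M^b := by
    refine norm_deriv_upper x hx M ?_ (fun τ => (hreal τ).1)
    intro n hn v hv
    subst hn
    have h1 := fekete D v r hr (by
      intro i
      obtain ⟨τ, hτ⟩ := hv i
      have h2 := hreal τ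
      rw [hτ] at h2
      simpa using h2.2)
    rw [hM, ← sq_abs]
    exact pow_le_pow_left₀ (abs_nonneg _) h1 2
  have hup2 : ((Algebra.norm ℤ Δ).natAbs : ℝ) ≤ (4*c)^(D*b) := by
    rw [← hn]; exact norm_upper Δ (4*c) hΔ
  have hlow := norm_le U Δ N0 NB hN0 h hNB
  rw [hn] at hlow
  have hlow' : ((NB : ℝ))^(D*b) ≤ (4*c)^(D*b) * (M^b)^2 := by
    have h1 : ((NB ^ (D*b) : ℕ) : ℝ) ≤ (((Algebra.norm ℤ Δ).natAbs * (Ideal.absNorm (Ideal.span {U, (NB : 𝓞 L)}))^2 : ℕ) : ℝ) := by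
      exact_mod_cast hlow
    push_cast at h1
    rw [Nat.cast_natAbs] at *
    refine h1.trans ?_
    have h2 : (Ideal.absNorm (Ideal.span {U, (NB : 𝓞 L)}) : ℝ) ≤ M^b := hA.trans hup
    gcongr
  have hfin : ((NB : ℝ))^(D*b) ≤ (4*c*((2*(D : ℝ))^4 * r^(2*(D - 1))))^(D*b) := by
    refine hlow'.trans ?_
    have h1 : (M^b)^2 = (M^2)^b := pow_right_comm M b 2
    rw [h1, mul_pow (4*c) _ (D*b), pow_mul ((2*(D : ℝ))^4 * r^(2*(D - 1))) D b]
    have h2 := pow_bound D r hr
    have h3 : (M^2)^b ≤ (((2*(D : ℝ))^4 * r^(2*(D - 1)))^D)^b := by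
      apply pow_le_pow_left₀ (sq_nonneg _)
      exact h2
    gcongr
  have hne : D * b ≠ 0 := by positivity
  exact le_of_pow_le_pow_left₀ hne (by positivity) hfin

end main

end Pool.Agent.Helper967.JR
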