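import Pool.Agent.Helper967.JR1
set_option autoImplicit false
open Polynomial NumberField IntermediateField

namespace Pool.Agent.Helper967.JR

section irr
variable {M : Type*} [Field M] [Algebra M ℂ]

lemma tower_deg (w u : ℂ) (hw : w ∈ M⟮u⟯) :
    Module.finrank M M⟮w⟯ * Module.finrank M⟮w⟯ (IntermediateField.adjoin M⟮w⟯ {u}) = Module.finrank M M⟮u⟯ := by
  have h : M⟮w⟯ ≤ M⟮u⟯ := IntermediateField.adjoin_simple_le_iff.mpr hw
  have h2 := IntermediateField.extendScalars_adjoin h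
  rw [← h2]
  exact Module.finrank_mul_finrank M M⟮w⟯ (IntermediateField.extendScalars h)

/-- elements of `M(w)` for `w` quadratic -/
lemma mem_adjoin_quadratic (w : ℂ) (a b : M) (hw : w^2 - algebraMap M ℂ a * w + algebraMap M ℂ b = 0) (y : ℂ) (hy : y ∈ M⟮w⟯) :
    ∃ p q : M, y = algebraMap M ℂ p + algebraMap M ℂ q * w := by
  have hmon : (X^2 - C a * X + C b : M[X]).Monic := by
    have : (X^2 - C a * X + C b : M[X]) = X^2 + (C (-a) * X + C b) := by rw [C_neg]; ring
    rw [this]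
    apply monic_X_pow_add
    exact degree_linear_lt
  have hroot : aeval w (X^2 - C a * X + C b : M[X]) = 0 := by
    simp only [map_add, map_sub, map_mul, map_pow, aeval_X, aeval_C]; exact hw
  have hint : IsIntegral M w := ⟨_, hmon, by rw [← aeval_def]; exact hroot⟩
  have hy' : y ∈ Algebra.adjoin M {w} := by
    rw [← IntermediateField.adjoin_simple_toSubalgebra_of_isAlgebraic hint.isAlgebraic]
    exact hy
  rw [Algebra.adjoin_singleton_eq_range_aeval] at hy'
  obtain ⟨f, rfl⟩ := hy'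
  have hdiv := modByMonic_add_div f (X^2 - C a * X + C b : M[X])
  set r := f %ₘ (X^2 - C a * X + C b : M[X]) with hr
  have hdeg : (X^2 - C a * X + C b : M[X]).natDegree = 2 := by
    have : (X^2 - C a * X + C b : M[X]) = X^2 + (C (-a) * X + C b) := by rw [C_neg]; ring
    rw [this, natDegree_add_eq_left_of_natDegree_lt, natDegree_X_pow]
    rw [natDegree_X_pow]
    exact natDegree_linear_le.trans_lt (by norm_num)
  have hrdeg : r.natDegree ≤ 1 := by
    have := natDegree_modByMonic_lt f hmon (by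
      intro h1
      rw [h1, natDegree_one] at hdeg
      omega)
    rw [hdeg, ← hr] at this
    omega
  have hr2 : r = C (r.coeff 1) * X + C (r.coeff 0) := eq_X_add_C_of_natDegree_le_one hrdeg
  refine ⟨r.coeff 0, r.coeff 1, ?_⟩
  have : aeval w f = aeval w r := by
    conv_lhs => rw [← hdiv]
    rw [map_add, map_mul, hroot, zero_mul, add_zero]
  simp only [AlgHom.toRingHom_eq_coe, RingHom.coe_coe]
  rw [this]
  conv_lhs => rw [hr2]
  simp only [map_add, map_mul, aeval_X, aeval_C]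
  ring

lemma exists_uv (θ c : ℂ) : ∃ u v : ℂ, u + v = θ ∧ u * v = c := by
  obtain ⟨s, hs⟩ := IsAlgClosed.exists_pow_nat_eq (θ^2 - 4*c) (n := 2) (by norm_num)
  exact ⟨(θ + s)/2, (θ - s)/2, by ring, by linear_combination (-1/4) * hs⟩

lemma conj_quadratic (a : ℤ) (C0 : ℕ) (ha : (a:ℤ)^2 < 4 * (C0:ℤ)) (w : ℂ) (hw : w^2 - (a:ℂ)*w + (C0:ℂ) = 0) :
    w + (starRingEnd ℂ) w = a := by
  have hc : ((starRingEnd ℂ) w)^2 - (a:ℂ) * (starRingEnd ℂ) w + (C0:ℂ) = 0 := by
    have := congrArg (starRingEnd ℂ) hw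
    simpa using this
  have hne : w - (starRingEnd ℂ) w ≠ 0 := by
    intro h
    have him : w.im = 0 := by
      have := congrArg Complex.im h
      simp at this
      linarith
    have hwr : w = (w.re : ℂ) := by apply Complex.ext <;> simp [him]
    rw [hwr] at hw
    have h2 : (w.re)^2 - (a:ℝ) * w.re + (C0:ℝ) = 0 := by exact_mod_cast hw
    have h3 : ((a:ℝ))^2 < 4 * (C0:ℝ) := by exact_mod_cast ha
    nlinarith [sq_nonneg (2 * w.re - a)]
  have h4 : (w - (starRingEnd ℂ) w) * (w + (starRingEnd ℂ) w - a) = 0 := by linear_combination hw - hc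
  have := (mul_eq_zero.mp h4).resolve_left hne
  linear_combination this

lemma normSq_eq_of_pow (y w : ℂ) (k c : ℕ) (hk : k ≠ 0) (hy : y^k = w) (hw : w * (starRingEnd ℂ) w = (c:ℂ)^k) :
    y * (starRingEnd ℂ) y = c := by
  have h1 : (Complex.normSq y)^k = (c:ℝ)^k := by
    have : ((Complex.normSq y : ℂ))^k = (c:ℂ)^k := by
      rw [← hw, ← hy, Complex.normSq_eq_conj_mul_self, mul_pow, map_pow]; ring
    exact_mod_cast this
  have h2 : Complex.normSq y = c := by
    exact (pow_left_inj₀ (Complex.normSq_nonneg y) (by positivity) hk).mp h1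
  rw [Complex.mul_conj, h2]; simp

/-- irreducibility of `D_k - a` over real fields without a root -/
lemma deg_theta (hreal : ∀ m : M, (algebraMap M ℂ m).im = 0) (c : ℕ) (hc : 0 < c) (k : ℕ) (hk : k.Prime) (hk2 : k ≠ 2)
    (a : ℤ) (ha : (a:ℤ)^2 < 4 * (c:ℤ)^k)
    (hno : ∀ y : M, (dk ((c:ℕ) : M) k).eval y ≠ ((a : ℤ) : M)) (θ : ℂ) (hθ : (dk ((c:ℕ):ℂ) k).eval θ = ((a:ℤ) : ℂ)) :
    k ∣ Module.finrank M M⟮θ⟯ := by
  obtain ⟨u, v, huv, huv2⟩ := exists_uv θ (c:ℂ)
  have hcC : (c:ℂ) ≠ 0 := by exact_mod_cast hc.ne'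
  have hu0 : u ≠ 0 := by rintro rfl; rw [zero_mul] at huv2; exact hcC huv2.symm
  have hk0 : k ≠ 0 := hk.ne_zero
  set w := u^k with hw
  have hww : w + v^k = a := by rw [hw, ← dk_eval_add (c:ℂ) u v huv2 k, huv, hθ]
  have hwv : w * v^k = (c:ℂ)^k := by rw [hw, ← mul_pow, huv2]
  have hquad : w^2 - (a:ℂ) * w + ((c^k : ℕ) : ℂ) = 0 := by
    push_cast
    linear_combination w * hww - hwv
  have hconj : w + (starRingEnd ℂ) w = a := conj_quadratic a (c^k) (by push_cast; exact ha) w hquad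
  have hwconj : w * (starRingEnd ℂ) w = (c:ℂ)^k := by
    have : (starRingEnd ℂ) w = v^k := by linear_combination hconj - hww
    rw [this]; exact hwv
  have hmapa : algebraMap M ℂ ((a:ℤ) : M) = (a:ℂ) := by simp
  have hquadM : w^2 - algebraMap M ℂ ((a:ℤ) : M) * w + algebraMap M ℂ (((c^k : ℕ)) : M) = 0 := by
    rw [hmapa, map_natCast]; exact hquad
  have hwint : IsIntegral M w := by
    refine ⟨X^2 - C ((a:ℤ):M) * X + C (((c^k : ℕ)) : M), ?_, ?_⟩
    · have : (X^2 - C ((a:ℤ):M) * X + C (((c^k : ℕ)) : M) : M[X]) = X^2 + (C (-((a:ℤ):M)) * X + C (((c^k : ℕ)) : M)) := by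
        rw [C_neg]; ring
      rw [this]
      exact monic_X_pow_add degree_linear_lt
    · rw [← aeval_def]
      simp only [map_add, map_sub, map_mul, map_pow, aeval_X, aeval_C]; exact hquadM
  -- no k-th root
  have hnoroot : ∀ y : M⟮w⟯, y^k ≠ IntermediateField.AdjoinSimple.gen M w := by
    intro y hy
    have hyC : (y:ℂ)^k = w := by
      have := congrArg (fun z : M⟮w⟯ => (z:ℂ)) hy
      simpa using this
    obtain ⟨p, q, hpq⟩ := mem_adjoin_quadratic w ((a:ℤ):M) (((c^k : ℕ)) : M) hquadM y y.2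
    have hreal' : ∀ m : M, (starRingEnd ℂ) (algebraMap M ℂ m) = algebraMap M ℂ m := fun m =>
      Complex.conj_eq_iff_im.mpr (hreal m)
    have hyc : (starRingEnd ℂ) (y:ℂ) = algebraMap M ℂ p + algebraMap M ℂ q * (starRingEnd ℂ) w := by
      rw [hpq, map_add, map_mul, hreal', hreal']
    have hN := normSq_eq_of_pow (y:ℂ) w k c hk0 hyC hwconj
    have hsum : (y:ℂ) + (starRingEnd ℂ) (y:ℂ) = algebraMap M ℂ (2 * p + q * ((a:ℤ):M)) := by
      rw [hyc, map_add, map_mul, map_mul, hmapa]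
      conv_lhs => rw [hpq]
      rw [← hconj, map_ofNat]; ring
    apply hno (2 * p + q * ((a:ℤ):M))
    apply (algebraMap M ℂ).injective
    have h1 : algebraMap M ℂ ((dk ((c:ℕ) : M) k).eval (2 * p + q * ((a:ℤ):M))) =
        (dk ((c:ℕ):ℂ) k).eval (algebraMap M ℂ (2 * p + q * ((a:ℤ):M))) := by
      rw [← map_natCast (algebraMap M ℂ) c, ← map_dk, eval_map_algebraMap, aeval_algebraMap_apply]
      simp
    rw [h1, ← hsum, dk_eval_add (c:ℂ) _ _ hN k, ← map_pow, hyC, hconj, hmapa]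
  have hirr := X_pow_sub_C_irreducible_of_prime hk hnoroot
  have hmonic : (X^k - C (IntermediateField.AdjoinSimple.gen M w) : (M⟮w⟯)[X]).Monic := monic_X_pow_sub_C _ hk0
  have hroot : aeval u (X^k - C (IntermediateField.AdjoinSimple.gen M w) : (M⟮w⟯)[X]) = 0 := by
    simp only [map_sub, map_pow, aeval_X, aeval_C]
    rw [IntermediateField.AdjoinSimple.algebraMap_gen, hw, sub_self]
  have hmin : minpoly M⟮w⟯ u = X^k - C (IntermediateField.AdjoinSimple.gen M w) :=
    (minpoly.eq_of_irreducible_of_monic hirr hroot hmonic).symm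
  have huint : IsIntegral M⟮w⟯ u := ⟨_, hmonic, by rw [← aeval_def]; exact hroot⟩
  have hdeg1 : Module.finrank M⟮w⟯ (IntermediateField.adjoin M⟮w⟯ {u}) = k := by
    rw [IntermediateField.adjoin.finrank huint, hmin, natDegree_X_pow_sub_C]
  have ht1 := tower_deg (M := M) w u (by
    rw [hw]; exact pow_mem (IntermediateField.mem_adjoin_simple_self M u) k)
  rw [hdeg1] at ht1
  have hθmem : θ ∈ M⟮u⟯ := by
    have hu := IntermediateField.mem_adjoin_simple_self M u
    have : θ = u + (c:ℂ) * u⁻¹ := by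
      rw [← huv, ← huv2]; field_simp
    rw [this]
    exact add_mem hu (mul_mem (IntermediateField.natCast_mem _ c) (inv_mem hu))
  have ht2 := tower_deg (M := M) θ u hθmem
  set e := Module.finrank M⟮θ⟯ (IntermediateField.adjoin M⟮θ⟯ {u}) with he
  -- e is 1 or 2
  have hquadu : aeval u (X^2 - C (IntermediateField.AdjoinSimple.gen M θ) * X + C ((c:ℕ) : M⟮θ⟯)) = 0 := by
    simp only [map_add, map_sub, map_mul, map_pow, aeval_X, aeval_C]
    rw [IntermediateField.AdjoinSimple.algebraMap_gen, map_natCast]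
    linear_combination u * huv - huv2
  have hmonq : (X^2 - C (IntermediateField.AdjoinSimple.gen M θ) * X + C ((c:ℕ) : M⟮θ⟯)).Monic := by
    have : (X^2 - C (IntermediateField.AdjoinSimple.gen M θ) * X + C ((c:ℕ) : M⟮θ⟯) : (M⟮θ⟯)[X]) =
        X^2 + (C (-(IntermediateField.AdjoinSimple.gen M θ)) * X + C ((c:ℕ) : M⟮θ⟯)) := by rw [C_neg]; ring
    rw [this]
    exact monic_X_pow_add degree_linear_lt
  have huint2 : IsIntegral M⟮θ⟯ u := ⟨_, hmonq, by rw [← aeval_def]; exact hquadu⟩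
  have he2 : e ≤ 2 := by
    rw [he, IntermediateField.adjoin.finrank huint2]
    refine (natDegree_le_of_dvd (minpoly.dvd _ _ hquadu) hmonq.ne_zero).trans ?_
    have : (X^2 - C (IntermediateField.AdjoinSimple.gen M θ) * X + C ((c:ℕ) : M⟮θ⟯) : (M⟮θ⟯)[X]) =
        X^2 + (C (-(IntermediateField.AdjoinSimple.gen M θ)) * X + C ((c:ℕ) : M⟮θ⟯)) := by rw [C_neg]; ring
    rw [this]
    refine (natDegree_add_le _ _).trans (max_le (by simp) ?_)
    exact natDegree_linear_le.trans (by norm_num)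
  have he1 : 1 ≤ e := by
    rw [he, IntermediateField.adjoin.finrank huint2]
    exact minpoly.natDegree_pos huint2
  have hdvd : k ∣ Module.finrank M M⟮θ⟯ * e := by
    rw [ht2, ← ht1]; exact Dvd.intro_left _ rfl
  rcases hk.dvd_mul.mp hdvd with h | h
  · exact h
  · exfalso
    have h1 := Nat.le_of_dvd (by omega) h
    have h2 := hk.two_le
    omega

end irr

end Pool.Agent.Helper967.JR
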