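import Pool.Agent.Helper967.JR2
set_option autoImplicit false
open Polynomial NumberField

namespace Pool.Agent.Helper967.JR

lemma exists_round (r : ℝ) (n : ℕ) : ∀ p : ℝ[X], p.degree < n → ∃ g : ℤ[X], g.degree < n ∧ ∃ e : ℕ → ℝ, (∀ i, |e i| ≤ 1/2) ∧
    p = g.map (Int.castRingHom ℝ) + ∑ i ∈ Finset.range n, C (e i) * qq r i := by
  induction n with
  | zero =>
    intro p hp
    have hp0 : p = 0 := by
      rw [← Polynomial.degree_eq_bot]
      by_contra h
      have h1 := Polynomial.degree_eq_natDegree (p := p) (by rintro rfl; simp at h)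
      rw [h1] at hp
      norm_cast at hp
    refine ⟨0, by simp, fun _ => 0, by intro i; simp, ?_⟩
    simp [hp0]
  | succ n ih =>
    intro p hp
    set a := p.coeff n with ha
    set m : ℤ := round a with hm
    set t : ℝ := a - m with ht
    have hpn : p.natDegree ≤ n := by
      by_contra h
      push Not at h
      have h0 : p ≠ 0 := by rintro rfl; simp at h
      rw [Polynomial.degree_eq_natDegree h0] at hp
      norm_cast at hp
      omega
    have hq : (p - C t * qq r n - (C m * X^n : ℤ[X]).map (Int.castRingHom ℝ)).degree < n := by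
      rw [Polynomial.degree_lt_iff_coeff_zero]
      intro k hk
      rcases hk.eq_or_lt with rfl | hk
      · simp only [coeff_sub, coeff_C_mul, Polynomial.map_mul, Polynomial.map_pow, map_X, coeff_X_pow_self, map_C]
        have h1 : (qq r n).coeff n = 1 := by
          have := (qq_monic r n)
          rw [Monic, leadingCoeff, qq_natDegree] at this
          exact this
        rw [h1, ← ha]
        simp [ht]
      · have h1 : p.coeff k = 0 := coeff_eq_zero_of_natDegree_lt (by omega)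
        have h2 : (qq r n).coeff k = 0 := coeff_eq_zero_of_natDegree_lt (by rw [qq_natDegree]; omega)
        simp only [coeff_sub, coeff_C_mul, Polynomial.map_mul, Polynomial.map_pow, map_X, coeff_X_pow, map_C, h1, h2]
        simp [hk.ne']
    obtain ⟨g, hg, e, he, hpe⟩ := ih _ hq
    refine ⟨g + C m * X^n, ?_, fun i => if i = n then t else e i, ?_, ?_⟩
    · refine (degree_add_le _ _).trans_lt (max_lt (hg.trans (by exact_mod_cast Nat.lt_succ_self n)) ?_)
      refine (degree_C_mul_X_pow_le n m).trans_lt ?_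
      exact_mod_cast Nat.lt_succ_self n
    · intro i
      dsimp only
      split_ifs
      · exact abs_sub_round a
      · exact he i
    · rw [Finset.sum_range_succ]
      have h1 : ∑ x ∈ Finset.range n, C (if x = n then t else e x) * qq r x = ∑ x ∈ Finset.range n, C (e x) * qq r x := by
        apply Finset.sum_congr rfl
        intro x hx
        rw [if_neg (Finset.mem_range.mp hx).ne]
      rw [h1, Polynomial.map_add]
      simp only [if_true]
      linear_combination hpe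

lemma geom_bound (r : ℝ) (hr : 3 < r) (n : ℕ) : ∑ i ∈ Finset.range n, r^i < r^n/2 := by
  rw [geom_sum_eq (by linarith), div_lt_div_iff₀ (by linarith) (by norm_num)]
  have := pow_pos (by linarith : (0:ℝ) < r) n
  nlinarith

/-- the integer polynomial close to the Chebyshev polynomial -/
lemma exists_g (r : ℝ) (hr : 3 < r) (n : ℕ) (hn : n ≠ 0) : ∃ g : ℤ[X], g.Monic ∧ g.natDegree = n ∧
    ∀ y : ℝ, |y| ≤ (3/2) * r^n → ∀ z : ℂ, (g.map (Int.castRingHom ℂ)).eval z = (y:ℂ) →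
      z.im = 0 ∧ 0 ≤ z.re ∧ z.re ≤ 4*r := by
  have hr0 : 0 < r := by linarith
  have hrn : 0 < r^n := pow_pos hr0 n
  obtain ⟨g0, hg0, e, he, hpe⟩ := exists_round r n (qq r n - X^n) (by
    have h1 : (qq r n).degree = n := by
      rw [degree_eq_natDegree (qq_monic r n).ne_zero, qq_natDegree]
    have := degree_sub_lt_left (p := qq r n) (q := X^n) (by rw [h1, degree_X_pow]) (qq_monic r n).ne_zero
      (by rw [(qq_monic r n).leadingCoeff, (monic_X_pow n).leadingCoeff])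
    rw [h1] at this
    exact this)
  have hgm : (X^n + g0).Monic := monic_X_pow_add hg0
  have hgd : (X^n + g0).natDegree = n := by
    rw [natDegree_eq_of_degree_eq_some]
    rw [degree_add_eq_left_of_degree_lt (by rw [degree_X_pow]; exact hg0), degree_X_pow]
  refine ⟨X^n + g0, hgm, hgd, ?_⟩
  intro y hy z hz
  set G : ℝ[X] := (X^n + g0).map (Int.castRingHom ℝ) with hG
  have hGe : ∀ x : ℝ, 0 ≤ x → x ≤ 4*r → |(qq r n).eval x - G.eval x| < r^n/2 := by
    intro x h0 h1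
    have h2 : (qq r n).eval x - G.eval x = ∑ i ∈ Finset.range n, e i * (qq r i).eval x := by
      have := congrArg (fun q : ℝ[X] => q.eval x) hpe
      simp only [eval_sub, eval_add, eval_pow, eval_X, eval_finsetSum, eval_mul, eval_C] at this
      rw [hG, Polynomial.map_add, Polynomial.map_pow, map_X, eval_add, eval_pow, eval_X]
      linear_combination this
    rw [h2]
    refine (Finset.abs_sum_le_sum_abs _ _).trans_lt (lt_of_le_of_lt ?_ (geom_bound r hr n))
    apply Finset.sum_le_sum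
    intro i _
    rw [abs_mul]
    have h3 := qq_abs_le r x hr0 h0 h1 i
    have h4 := he i
    nlinarith [abs_nonneg (e i), abs_nonneg ((qq r i).eval x), pow_pos hr0 i]
  -- the nodes
  set ξ : ℕ → ℝ := fun j => 2*r + 2*r*Real.cos (Real.pi * j / n) with hξ
  have hn' : (0:ℝ) < n := by exact_mod_cast Nat.pos_of_ne_zero hn
  have hξ0 : ∀ j, 0 ≤ ξ j := by
    intro j
    have := Real.neg_one_le_cos (Real.pi * j / n)
    simp only [hξ]; nlinarith
  have hξ4 : ∀ j, ξ j ≤ 4*r := by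
    intro j
    have := Real.cos_le_one (Real.pi * j / n)
    simp only [hξ]; nlinarith
  have hξanti : ∀ i j, i ≤ j → j ≤ n → ξ j ≤ ξ i := by
    intro i j hij hjn
    have hij' : (i:ℝ) ≤ j := by exact_mod_cast hij
    have hjn' : (j:ℝ) ≤ n := by exact_mod_cast hjn
    have hcos : Real.cos (Real.pi * j / n) ≤ Real.cos (Real.pi * i / n) := by
      apply Real.cos_le_cos_of_nonneg_of_le_pi
      · positivity
      · rw [div_le_iff₀ hn']; nlinarith [Real.pi_pos]
      · apply div_le_div_of_nonneg_right _ hn'.le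
        nlinarith [Real.pi_pos]
    simp only [hξ]; nlinarith
  have hqξ : ∀ j, (qq r n).eval (ξ j) = 2 * r^n * (-1)^j := by
    intro j
    simp only [hξ]
    rw [qq_eval_cos r _ n hn]
    congr 1
    have : (n:ℝ) * (Real.pi * j / n) = j * Real.pi := by field_simp
    rw [this, Real.cos_nat_mul_pi]
  -- roots
  have hroot : ∀ j : Fin n, ∃ x : ℝ, ξ (j+1) < x ∧ x < ξ j ∧ G.eval x = y := by
    intro j
    have hle : ξ (j+1) ≤ ξ j := hξanti j (j+1) (by omega) (by omega)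
    have hcont : ContinuousOn (fun x => G.eval x) (Set.Icc (ξ (j+1)) (ξ j)) := G.continuous.continuousOn
    have h1 := hGe (ξ j) (hξ0 j) (hξ4 j)
    have h2 := hGe (ξ (j+1)) (hξ0 (j+1)) (hξ4 (j+1))
    rw [hqξ] at h1 h2
    rw [abs_lt] at h1 h2
    rw [abs_le] at hy
    rcases Nat.even_or_odd (j:ℕ) with hev | hodd
    · have e1 : (-1:ℝ)^(j:ℕ) = 1 := hev.neg_one_pow
      have e2 : (-1:ℝ)^((j:ℕ)+1) = -1 := by rw [pow_succ, e1]; ring
      rw [e1] at h1; rw [e2] at h2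
      have := intermediate_value_Ioo hle hcont
      obtain ⟨x, hx, hxy⟩ := this (show y ∈ Set.Ioo _ _ from ⟨by linarith [h2.2, h2.1], by linarith [h1.1, h1.2]⟩)
      exact ⟨x, hx.1, hx.2, hxy⟩
    · have e1 : (-1:ℝ)^(j:ℕ) = -1 := hodd.neg_one_pow
      have e2 : (-1:ℝ)^((j:ℕ)+1) = 1 := by rw [pow_succ, e1]; ring
      rw [e1] at h1; rw [e2] at h2
      have := intermediate_value_Ioo' hle hcont
      obtain ⟨x, hx, hxy⟩ := this (show y ∈ Set.Ioo _ _ from ⟨by linarith [h1.1, h1.2], by linarith [h2.2, h2.1]⟩)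
      exact ⟨x, hx.1, hx.2, hxy⟩
  choose x hx1 hx2 hx3 using hroot
  have hxinj : Function.Injective x := by
    have key : ∀ i j : Fin n, i < j → x j < x i := by
      intro i j hij
      have : ξ j ≤ ξ (i+1) := hξanti (i+1) j (by exact_mod_cast hij) j.2.le
      linarith [hx2 j, hx1 i]
    intro i j hij
    rcases lt_trichotomy i j with h | h | h
    · exact absurd hij (key i j h).ne'
    · exact h
    · exact absurd hij (key j i h).ne
  by_cases hzx : ∃ j, z = (x j : ℂ)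
  · obtain ⟨j, rfl⟩ := hzx
    refine ⟨by simp, ?_, ?_⟩
    · simp only [Complex.ofReal_re]; linarith [hx1 j, hξ0 (j+1)]
    · simp only [Complex.ofReal_re]; linarith [hx2 j, hξ4 j]
  · exfalso
    push Not at hzx
    set F : ℂ[X] := (X^n + g0).map (Int.castRingHom ℂ) - C (y:ℂ) with hF
    have hFG : ∀ t : ℝ, ((X^n + g0).map (Int.castRingHom ℂ)).eval (t:ℂ) = ((G.eval t : ℝ) : ℂ) := by
      intro t
      have h1 : (Int.castRingHom ℂ) = Complex.ofRealHom.comp (Int.castRingHom ℝ) := RingHom.ext_int _ _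
      rw [h1, ← Polynomial.map_map, ← hG, eval_map]
      exact eval₂_at_apply Complex.ofRealHom t
    have hinjx : Function.Injective (fun j => (x j : ℂ)) := by
      intro i j hij
      exact hxinj (Complex.ofReal_injective hij)
    have hF0 : F = 0 := by
      apply eq_zero_of_natDegree_lt_card_of_eval_eq_zero' F (insert z (Finset.univ.image (fun j => (x j : ℂ))))
      · intro w hw
        rw [Finset.mem_insert] at hw
        rcases hw with rfl | hw
        · rw [hF, eval_sub, eval_C, hz, sub_self]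
        · obtain ⟨j, _, rfl⟩ := Finset.mem_image.mp hw
          rw [hF, eval_sub, eval_C, hFG, hx3, sub_self]
      · rw [Finset.card_insert_of_notMem, Finset.card_image_of_injective _ hinjx, Finset.card_univ, Fintype.card_fin]
        · rw [hF, natDegree_sub_C, hgm.natDegree_map, hgd]; omega
        · intro hmem
          obtain ⟨j, _, hj⟩ := Finset.mem_image.mp hmem
          exact hzx j hj.symm
    have : ((X^n + g0).map (Int.castRingHom ℂ)).natDegree = 0 := by
      have h1 : (X^n + g0).map (Int.castRingHom ℂ) = C (y:ℂ) := by rw [← sub_eq_zero]; exact hF0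
      rw [h1, natDegree_C]
    rw [hgm.natDegree_map, hgd] at this
    exact hn this

/-- real location of the roots of `D_k - a` -/
lemma dk_real (c k : ℕ) (hc : 0 < c) (hk : k ≠ 0) (a : ℤ) (ha : (a:ℤ)^2 < 4 * (c:ℤ)^k) (θ : ℂ)
    (hθ : (dk ((c:ℕ):ℂ) k).eval θ = ((a:ℤ) : ℂ)) : θ.im = 0 ∧ θ.re^2 ≤ 4*c := by
  obtain ⟨u, v, huv, huv2⟩ := exists_uv θ (c:ℂ)
  have hcC : (c:ℂ) ≠ 0 := by exact_mod_cast hc.ne'
  have hu0 : u ≠ 0 := by rintro rfl; rw [zero_mul] at huv2; exact hcC huv2.symm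
  set w := u^k with hw
  have hww : w + v^k = a := by rw [hw, ← dk_eval_add (c:ℂ) u v huv2 k, huv, hθ]
  have hwv : w * v^k = (c:ℂ)^k := by rw [hw, ← mul_pow, huv2]
  have hquad : w^2 - (a:ℂ) * w + ((c^k : ℕ) : ℂ) = 0 := by
    push_cast
    linear_combination w * hww - hwv
  have hconj : w + (starRingEnd ℂ) w = a := conj_quadratic a (c^k) (by push_cast; exact ha) w hquad
  have hwconj : w * (starRingEnd ℂ) w = (c:ℂ)^k := by
    have : (starRingEnd ℂ) w = v^k := by linear_combination hconj - hww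
    rw [this]; exact hwv
  have hN := normSq_eq_of_pow u w k c hk hw.symm hwconj
  have hv : v = (starRingEnd ℂ) u := by
    apply mul_left_cancel₀ hu0
    rw [huv2, hN]
  have hθ2 : θ = ((2 * u.re : ℝ) : ℂ) := by
    rw [← huv, hv, Complex.add_conj]
  have hnorm : u.re^2 + u.im^2 = c := by
    rw [Complex.mul_conj] at hN
    have : Complex.normSq u = (c:ℝ) := by exact_mod_cast hN
    rw [Complex.normSq_apply] at this
    linarith [this]
  rw [hθ2]
  refine ⟨Complex.ofReal_im _, ?_⟩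
  rw [Complex.ofReal_re]
  nlinarith [sq_nonneg u.im]

lemma pi_small (ε : ℝ) (hε : 0 < ε) : ∃ N : ℕ, ∀ n : ℕ, N ≤ n → (Nat.primeCounting n : ℝ) ≤ ε * n := by
  have h1 := Chebyshev.eventually_primeCounting_le (ε := 1) one_pos
  have h2 : ∀ᶠ x : ℝ in Filter.atTop, (Real.log 4 + 1)/ε ≤ Real.log x :=
    Real.tendsto_log_atTop.eventually_ge_atTop _
  have h3 : ∀ᶠ x : ℝ in Filter.atTop, (2:ℝ) ≤ x := Filter.eventually_ge_atTop 2
  have h4 := (tendsto_natCast_atTop_atTop (R := ℝ)).eventually (h1.and (h2.and h3))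
  obtain ⟨N, hN⟩ := Filter.eventually_atTop.mp h4
  refine ⟨N, fun n hn => ?_⟩
  obtain ⟨ha, hb, hc⟩ := hN n hn
  rw [Nat.floor_natCast] at ha
  refine ha.trans ?_
  have hlog : 0 < Real.log (n:ℝ) := Real.log_pos (by linarith)
  rw [div_le_iff₀ hlog]
  rw [div_le_iff₀ hε] at hb
  have hn0 : (0:ℝ) ≤ n := by positivity
  nlinarith

lemma card_modEq_le (T m v : ℕ) (hm : 0 < m) : ((Finset.range T).filter (fun z => z ≡ v [MOD m])).card ≤ T / m + 1 := by
  rw [← Nat.count_eq_card_filter_range, Nat.count_modEq_card _ hm]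
  split_ifs <;> omega

lemma card_bad (c N T p : ℕ) (hp : p.Prime) (hp2 : p ≠ 2) (hpc : ¬ p ∣ c) (hN : ¬ p ∣ N) :
    ((Finset.range T).filter (fun z : ℕ => ((p:ℤ)^2 ∣ (N:ℤ) - (1+(c:ℤ)*z)^2))).card ≤ 2 * (T / p^2 + 1) := by
  classical
  have hpZ : Prime (p:ℤ) := Nat.prime_iff_prime_int.mp hp
  have hp0 : 0 < p^2 := by have := hp.pos; positivity
  have hcop : IsCoprime ((p:ℤ)^2) (c:ℤ) := by
    apply IsCoprime.pow_left
    rw [Nat.isCoprime_iff_coprime]
    exact (Nat.Prime.coprime_iff_not_dvd hp).mpr hpc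
  have hcong : ∀ z w : ℕ, (p:ℤ)^2 ∣ (c:ℤ) * ((z:ℤ) - w) → z ≡ w [MOD p^2] := by
    intro z w h
    have h1 := hcop.dvd_of_dvd_mul_left h
    have h2 : (w:ℤ) ≡ z [ZMOD ((p^2 : ℕ) : ℤ)] := by
      rw [Int.modEq_iff_dvd]; push_cast; exact h1
    exact (Int.natCast_modEq_iff.mp h2).symm
  set S := (Finset.range T).filter (fun z : ℕ => ((p:ℤ)^2 ∣ (N:ℤ) - (1+(c:ℤ)*z)^2)) with hS
  by_cases hne : S.Nonempty
  · obtain ⟨z0, hz0⟩ := hne
    have hz0' := (Finset.mem_filter.mp hz0).2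
    have hsplit : ∀ z ∈ S, z ≡ z0 [MOD p^2] ∨ (p:ℤ)^2 ∣ (1 + (c:ℤ)*z) + (1 + (c:ℤ)*z0) := by
      intro z hz
      have hz' := (Finset.mem_filter.mp hz).2
      have h1 : (p:ℤ)^2 ∣ ((1 + (c:ℤ)*z) - (1 + (c:ℤ)*z0)) * ((1 + (c:ℤ)*z) + (1 + (c:ℤ)*z0)) := by
        have := dvd_sub hz0' hz'
        have e : (N:ℤ) - (1+(c:ℤ)*z0)^2 - ((N:ℤ) - (1+(c:ℤ)*z)^2) = ((1 + (c:ℤ)*z) - (1 + (c:ℤ)*z0)) * ((1 + (c:ℤ)*z) + (1 + (c:ℤ)*z0)) := by ring
        rw [e] at this; exact this
      by_cases h2 : (p:ℤ) ∣ (1 + (c:ℤ)*z) - (1 + (c:ℤ)*z0)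
      · have h3 : ¬ (p:ℤ) ∣ (1 + (c:ℤ)*z) + (1 + (c:ℤ)*z0) := by
          intro h3
          have h4 : (p:ℤ) ∣ 2 * (1 + (c:ℤ)*z0) := by
            have := dvd_sub h3 h2
            have e : (1 + (c:ℤ)*z) + (1 + (c:ℤ)*z0) - ((1 + (c:ℤ)*z) - (1 + (c:ℤ)*z0)) = 2 * (1 + (c:ℤ)*z0) := by ring
            rw [e] at this; exact this
          have h5 : (p:ℤ) ∣ 1 + (c:ℤ)*z0 := by
            rcases hpZ.dvd_or_dvd h4 with h | h
            · exfalso
              have : p ∣ 2 := by exact_mod_cast h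
              exact hp2 ((Nat.prime_dvd_prime_iff_eq hp Nat.prime_two).mp this)
            · exact h
          have h6 : (p:ℤ) ∣ N := by
            have h7 : (p:ℤ) ∣ (N:ℤ) - (1+(c:ℤ)*z0)^2 := (dvd_pow_self (p:ℤ) two_ne_zero).trans hz0'
            have h8 : (p:ℤ) ∣ (1+(c:ℤ)*z0)^2 := h5.trans (dvd_pow_self _ two_ne_zero)
            have := dvd_add h7 h8
            rwa [sub_add_cancel] at this
          exact hN (by exact_mod_cast h6)
        left
        apply hcong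
        have h4 : (p:ℤ)^2 ∣ (1 + (c:ℤ)*z) - (1 + (c:ℤ)*z0) := hpZ.pow_dvd_of_dvd_mul_right 2 h3 h1
        have e : (1 + (c:ℤ)*z) - (1 + (c:ℤ)*z0) = (c:ℤ) * ((z:ℤ) - z0) := by ring
        rwa [e] at h4
      · right
        exact hpZ.pow_dvd_of_dvd_mul_left 2 h2 h1
    by_cases hex : ∃ z1 ∈ S, (p:ℤ)^2 ∣ (1 + (c:ℤ)*z1) + (1 + (c:ℤ)*z0)
    · obtain ⟨z1, hz1, hz1'⟩ := hex
      have hsub : S ⊆ (Finset.range T).filter (fun z => z ≡ z0 [MOD p^2]) ∪ (Finset.range T).filter (fun z => z ≡ z1 [MOD p^2]) := by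
        intro z hz
        have hzT := (Finset.mem_filter.mp hz).1
        rw [Finset.mem_union, Finset.mem_filter, Finset.mem_filter]
        rcases hsplit z hz with h | h
        · exact Or.inl ⟨hzT, h⟩
        · right
          refine ⟨hzT, hcong _ _ ?_⟩
          have := dvd_sub h hz1'
          have e : (1 + (c:ℤ)*z) + (1 + (c:ℤ)*z0) - ((1 + (c:ℤ)*z1) + (1 + (c:ℤ)*z0)) = (c:ℤ) * ((z:ℤ) - z1) := by ring
          rwa [e] at this
      have h1 := Finset.card_le_card hsub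
      have h2 := Finset.card_union_le ((Finset.range T).filter (fun z => z ≡ z0 [MOD p^2])) ((Finset.range T).filter (fun z => z ≡ z1 [MOD p^2]))
      have h3 := card_modEq_le T (p^2) z0 hp0
      have h4 := card_modEq_le T (p^2) z1 hp0
      omega
    · have hsub : S ⊆ (Finset.range T).filter (fun z => z ≡ z0 [MOD p^2]) := by
        intro z hz
        have hzT := (Finset.mem_filter.mp hz).1
        rw [Finset.mem_filter]
        rcases hsplit z hz with h | h
        · exact ⟨hzT, h⟩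
        · exact absurd ⟨z, hz, h⟩ hex
      have h1 := Finset.card_le_card hsub
      have h3 := card_modEq_le T (p^2) z0 hp0
      omega
  · rw [Finset.not_nonempty_iff_eq_empty.mp hne, Finset.card_empty]
    exact Nat.zero_le _

lemma sum_odd_sq (M : ℕ) : ∑ m ∈ Finset.range M, (1:ℝ)/((2*((m:ℝ)+1)+1)^2) ≤ 1/4 * (1 - 1/((M:ℝ)+1)) := by
  induction M with
  | zero => simp
  | succ M ih =>
    rw [Finset.sum_range_succ]
    have h1 : (1:ℝ)/((2*((M:ℝ)+1)+1)^2) ≤ 1/4 * (1/(M+1) - 1/(M+1+1)) := by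
      have e : 1/4 * ((1:ℝ)/(M+1) - 1/(M+1+1)) = 1/(4*(M+1)*(M+1+1)) := by
        field_simp; ring
      rw [e]
      apply one_div_le_one_div_of_le
      · positivity
      · nlinarith
    push_cast
    linarith

lemma sum_primes_sq (S : Finset ℕ) (hS : ∀ p ∈ S, p.Prime ∧ p ≠ 2) : ∑ p ∈ S, (1:ℝ)/((p:ℝ)^2) ≤ 1/4 := by
  classical
  have hodd : ∀ p ∈ S, p = 2*(p/2 - 1 + 1) + 1 := by
    intro p hp
    obtain ⟨h1, h2⟩ := hS p hp
    have h3 := h1.two_le
    have h4 := h1.eq_two_or_odd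
    omega
  have hinj : Set.InjOn (fun p : ℕ => p/2 - 1) S := by
    intro p hp q hq hpq
    rw [hodd p hp, hodd q hq]
    simp only at hpq
    rw [hpq]
  have h1 : ∑ p ∈ S, (1:ℝ)/((p:ℝ)^2) = ∑ m ∈ S.image (fun p : ℕ => p/2 - 1), (1:ℝ)/((2*((m:ℝ)+1)+1)^2) := by
    rw [Finset.sum_image hinj]
    apply Finset.sum_congr rfl
    intro p hp
    have : (p:ℝ) = 2*((((p/2 - 1 : ℕ)):ℝ)+1)+1 := by exact_mod_cast hodd p hp
    rw [← this]
  rw [h1]
  obtain ⟨M, hM⟩ : ∃ M, S.image (fun p : ℕ => p/2 - 1) ⊆ Finset.range M := Finset.exists_nat_subset_range _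
  refine (Finset.sum_le_sum_of_subset_of_nonneg hM (fun _ _ _ => by positivity)).trans ((sum_odd_sq M).trans ?_)
  have : (0:ℝ) ≤ 1/((M:ℝ)+1) := by positivity
  linarith

lemma sieve (c : ℕ) (hc : 2 ≤ c) (hce : 2 ∣ c) : ∃ K : ℕ, ∀ k : ℕ, K ≤ k → ∃ z : ℕ, (1 + c*z)^2 ≤ c^k ∧
    Squarefree (4*c^k - (1+c*z)^2) := by
  classical
  have hc0 : (0:ℝ) < c := by positivity
  obtain ⟨N, hN⟩ := pi_small (1/(16*c)) (by positivity)
  refine ⟨(N+1)^2 + 1, fun k hk => ?_⟩
  set s := Nat.sqrt (c^k) with hs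
  have hsN : N + 1 ≤ s := by
    rw [hs, Nat.le_sqrt']
    calc (N+1)^2 ≤ k := by omega
      _ ≤ 2^k := Nat.lt_two_pow_self.le
      _ ≤ c^k := Nat.pow_le_pow_left hc k
  have hss : s^2 ≤ c^k := Nat.sqrt_le' _
  have hss2 : c^k < (s+1)^2 := Nat.lt_succ_sqrt' _
  set T := (s-1)/c + 1 with hT
  have hTc : s ≤ T * c := by
    have h1 := Nat.div_add_mod (s-1) c
    have h2 := Nat.mod_lt (s-1) (by omega : 0 < c)
    rw [hT, Nat.add_mul]
    have h3 : c * ((s-1)/c) = (s-1)/c * c := Nat.mul_comm _ _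
    omega
  have hz : ∀ z < T, 1 + c*z ≤ s := by
    intro z hz
    have h1 : z ≤ (s-1)/c := by omega
    have h2 : c * z ≤ c * ((s-1)/c) := Nat.mul_le_mul_left c h1
    have h3 := Nat.mul_div_le (s-1) c
    omega
  by_contra hcon
  push Not at hcon
  have hbad : ∀ z < T, ∃ p : ℕ, p.Prime ∧ p ≤ 2*s+1 ∧ p ≠ 2 ∧ ¬ p ∣ c ∧ (p:ℤ)^2 ∣ ((4*c^k : ℕ):ℤ) - (1+(c:ℤ)*z)^2 := by
    intro z hzT
    have h1 : (1+c*z)^2 ≤ c^k := (Nat.pow_le_pow_left (hz z hzT) 2).trans hss
    have h2 := hcon z h1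
    rw [Nat.squarefree_iff_prime_squarefree] at h2
    push Not at h2
    obtain ⟨p, hp, hpd⟩ := h2
    have hle : (1+c*z)^2 ≤ 4*c^k := by omega
    have hpos : 0 < c^k := by positivity
    have hcast : (((4*c^k - (1+c*z)^2 : ℕ)) : ℤ) = ((4*c^k : ℕ):ℤ) - (1+(c:ℤ)*z)^2 := by
      rw [Nat.cast_sub hle]; push_cast; ring
    have hdvd : (p:ℤ)^2 ∣ ((4*c^k : ℕ):ℤ) - (1+(c:ℤ)*z)^2 := by
      rw [← hcast, pow_two]; exact_mod_cast hpd
    have hpc : ¬ p ∣ c := by
      intro hpc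
      have hk0 : k ≠ 0 := by omega
      have h3 : (p:ℤ) ∣ ((4*c^k : ℕ):ℤ) := by
        have : p ∣ 4*c^k := Dvd.dvd.mul_left (hpc.trans (dvd_pow_self c hk0)) 4
        exact_mod_cast this
      have h4 : (p:ℤ) ∣ (1+(c:ℤ)*z)^2 := by
        have h5 := (dvd_pow_self (p:ℤ) two_ne_zero).trans hdvd
        have := dvd_sub h3 h5
        rwa [sub_sub_cancel] at this
      have h5 := (Nat.prime_iff_prime_int.mp hp).dvd_of_dvd_pow h4
      have h6 : (p:ℤ) ∣ (c:ℤ)*z := Dvd.dvd.mul_right (by exact_mod_cast hpc) _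
      have h7 : (p:ℤ) ∣ 1 := by
        have := dvd_sub h5 h6
        rwa [add_sub_cancel_right] at this
      exact (Nat.prime_iff_prime_int.mp hp).not_dvd_one h7
    refine ⟨p, hp, ?_, ?_, hpc, hdvd⟩
    · have h3 : p * p ≤ 4*c^k - (1+c*z)^2 := Nat.le_of_dvd (by omega) hpd
      have h4 : p * p < (2*(s+1)) * (2*(s+1)) := by
        have : (2*(s+1)) * (2*(s+1)) = 4*(s+1)^2 := by ring
        omega
      have h5 := Nat.mul_self_lt_mul_self_iff.mp h4
      omega
    · rintro rfl; exact hpc hce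
  set Q := (Nat.primesLE (2*s+1)).filter (fun p => p ≠ 2 ∧ ¬ p ∣ c) with hQ
  have hsub : Finset.range T ⊆ Q.biUnion (fun p => (Finset.range T).filter (fun z : ℕ => ((p:ℤ)^2 ∣ ((4*c^k : ℕ):ℤ) - (1+(c:ℤ)*z)^2))) := by
    intro z hzT
    obtain ⟨p, hp, hps, hp2, hpc, hpd⟩ := hbad z (Finset.mem_range.mp hzT)
    rw [Finset.mem_biUnion]
    refine ⟨p, ?_, ?_⟩
    · rw [hQ, Finset.mem_filter, Nat.mem_primesLE]
      exact ⟨⟨hps, hp⟩, hp2, hpc⟩
    · rw [Finset.mem_filter]; exact ⟨hzT, hpd⟩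
  have hcard : T ≤ ∑ p ∈ Q, 2 * (T / p^2 + 1) := by
    have h1 := Finset.card_le_card hsub
    rw [Finset.card_range] at h1
    refine h1.trans (Finset.card_biUnion_le.trans ?_)
    apply Finset.sum_le_sum
    intro p hp
    rw [hQ, Finset.mem_filter, Nat.mem_primesLE] at hp
    obtain ⟨⟨hps, hpp⟩, hp2, hpc⟩ := hp
    apply card_bad c (4*c^k) T p hpp hp2 hpc
    intro h
    rcases (Nat.Prime.dvd_mul hpp).mp h with h | h
    · have : p ∣ 2^2 := h
      exact hp2 ((Nat.prime_dvd_prime_iff_eq hpp Nat.prime_two).mp (hpp.dvd_of_dvd_pow this))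
    · exact hpc (hpp.dvd_of_dvd_pow h)
  have hcardR : (T:ℝ) ≤ T/2 + 2 * (Nat.primeCounting (2*s+1) : ℝ) := by
    have h1 : (T:ℝ) ≤ ∑ p ∈ Q, (2 * ((T:ℝ) * (1/(p:ℝ)^2)) + 2) := by
      have h2 : (T:ℝ) ≤ ((∑ p ∈ Q, 2 * (T / p^2 + 1) : ℕ) : ℝ) := by exact_mod_cast hcard
      refine h2.trans ?_
      push_cast
      apply Finset.sum_le_sum
      intro p hp
      have h3 : (((T / p^2 : ℕ)) : ℝ) ≤ (T:ℝ) / ((p^2 : ℕ) : ℝ) := Nat.cast_div_le
      push_cast at h3
      have h4 : (T:ℝ) * (1/(p:ℝ)^2) = (T:ℝ)/(p:ℝ)^2 := by ring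
      rw [h4]; linarith
    rw [Finset.sum_add_distrib, ← Finset.mul_sum, ← Finset.mul_sum, Finset.sum_const, nsmul_eq_mul] at h1
    have h5 := sum_primes_sq Q (by
      intro p hp
      rw [hQ, Finset.mem_filter, Nat.mem_primesLE] at hp
      exact ⟨hp.1.2, hp.2.1⟩)
    have h6 : (Q.card : ℝ) ≤ (Nat.primeCounting (2*s+1) : ℝ) := by
      rw [← Nat.primesLE_card_eq_primeCounting]
      exact_mod_cast Finset.card_filter_le _ _
    have hT0 : (0:ℝ) ≤ T := by positivity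
    nlinarith
  have hpi := hN (2*s+1) (by omega)
  have hTcR : (s:ℝ) ≤ T * c := by exact_mod_cast hTc
  have hs1 : (1:ℝ) ≤ s := by exact_mod_cast (by omega : 1 ≤ s)
  have h7 : (T:ℝ) ≤ 4 * ((1/(16*(c:ℝ))) * ((2*s+1 : ℕ):ℝ)) := by linarith
  have h8 : (T:ℝ) * c ≤ (2*(s:ℝ)+1)/4 := by
    calc (T:ℝ) * c ≤ 4 * ((1/(16*(c:ℝ))) * ((2*s+1 : ℕ):ℝ)) * c := by gcongr
      _ = (2*(s:ℝ)+1)/4 := by push_cast; field_simp; ring
  linarith

end Pool.Agent.Helper967.JR
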