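import Pool.Agent.Helper967.JR3
set_option autoImplicit false
open Polynomial NumberField IntermediateField

namespace Pool.Agent.Helper967.JR

section embC
variable {L : Type*} [Field L] [NumberField L] [Algebra L ℂ]

lemma conj_iff (x : L) (z : ℂ) : aeval z (minpoly ℚ (algebraMap L ℂ x)) = 0 ↔ ∃ τ : L →+* ℂ, τ x = z := by
  have h1 : minpoly ℚ (algebraMap L ℂ x) = minpoly ℚ x := minpoly.algebraMap_eq (algebraMap L ℂ).injective x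
  rw [h1]
  have h2 := NumberField.Embeddings.range_eval_eq_rootSet_minpoly L ℂ x
  have h3 : z ∈ (minpoly ℚ x).rootSet ℂ ↔ aeval z (minpoly ℚ x) = 0 := by
    rw [mem_rootSet]
    simp [minpoly.ne_zero (Algebra.IsIntegral.isIntegral x)]
  rw [← h3, ← h2]; simp

end embC

/-- roots of `D_k - a` are integral -/
lemma isIntegral_theta (c k : ℕ) (hk : k ≠ 0) (a : ℤ) (θ : ℂ) (hdk : (dk (c:ℂ) k).eval θ = (a:ℂ)) : IsIntegral ℤ θ := by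
  obtain ⟨m, rfl⟩ := Nat.exists_eq_succ_of_ne_zero hk
  refine ⟨dk ((c:ℕ):ℤ) (m+1) - C (a:ℤ), ?_, ?_⟩
  · apply (dk_monic _ m).sub_of_left
    rw [degree_eq_natDegree (dk_monic _ m).ne_zero, dk_natDegree]
    exact degree_C_le.trans_lt (by exact_mod_cast Nat.succ_pos m)
  · rw [← aeval_def, map_sub, aeval_C, aeval_def, ← eval_map, map_dk]
    simp only [eq_intCast, Int.cast_natCast]
    rw [sub_eq_zero]
    exact hdk

lemma ineq {B : Type*} [Field B] [NumberField B] [Algebra B ℂ] (x θ : ℂ) (hx : IsIntegral ℤ x) (ρ : ℝ) (hρ : 0 < ρ)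
    (hxc : ∀ z : ℂ, aeval z (minpoly ℚ x) = 0 → z.im = 0 ∧ 0 ≤ z.re ∧ z.re ≤ 4*ρ)
    (hθ : θ ∈ B⟮x⟯) (c k : ℕ) (hc : 0 < c) (hk : k ≠ 0) (a : ℕ) (ha : a^2 < 4*c^k)
    (hdk : (dk (c:ℂ) k).eval θ = (a:ℂ)) (NB : ℕ) (hNB : NB ∣ 4*c^k - a^2)
    (H : ∀ l : Ideal (𝓞 B), l.IsPrime → (NB : 𝓞 B) ∈ l → ((4*c^k - a^2 : ℕ) : 𝓞 B) ∉ l^2) :
    (NB : ℝ) ≤ 4*c*((2*(Module.finrank B B⟮x⟯ : ℝ))^4 * ρ^(2*(Module.finrank B B⟮x⟯ - 1))) := by
  have hxB : IsIntegral B x := hx.tower_top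
  have : FiniteDimensional B B⟮x⟯ := adjoin.finiteDimensional hxB
  have : NumberField B⟮x⟯ := NumberField.of_module_finite B _
  have hgen : algebraMap B⟮x⟯ ℂ (AdjoinSimple.gen B x) = x := AdjoinSimple.algebraMap_gen B x
  have hinj : Function.Injective (algebraMap B⟮x⟯ ℂ) := (algebraMap B⟮x⟯ ℂ).injective
  have hxi : IsIntegral ℤ (AdjoinSimple.gen B x) := by
    rw [← isIntegral_algebraMap_iff hinj, hgen]; exact hx
  have hθi : IsIntegral ℤ (⟨θ, hθ⟩ : B⟮x⟯) := by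
    rw [← isIntegral_algebraMap_iff hinj]
    exact isIntegral_theta c k hk (a:ℤ) θ (by rw [hdk]; simp)
  set x' : 𝓞 B⟮x⟯ := ⟨AdjoinSimple.gen B x, hxi⟩ with hx'
  set θ' : 𝓞 B⟮x⟯ := ⟨⟨θ, hθ⟩, hθi⟩ with hθ'
  have hx'c : (x' : B⟮x⟯) = AdjoinSimple.gen B x := rfl
  have hθ'c : ((θ' : B⟮x⟯) : ℂ) = θ := rfl
  have htop : Algebra.adjoin B {(x' : B⟮x⟯)} = ⊤ := by
    rw [hx'c, ← IntermediateField.adjoin.powerBasis_gen hxB]
    exact (IntermediateField.adjoin.powerBasis hxB).adjoin_gen_eq_top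
  have hdk' : (dk ((c:ℕ) : B⟮x⟯) k).eval (θ' : B⟮x⟯) = (a : B⟮x⟯) := by
    apply hinj
    rw [← map_natCast (algebraMap B⟮x⟯ ℂ)] at hdk
    rw [← map_dk, eval_map_algebraMap] at hdk
    have h1 := aeval_algebraMap_apply ℂ (θ' : B⟮x⟯) (dk ((c:ℕ) : B⟮x⟯) k)
    have h2 : algebraMap B⟮x⟯ ℂ (θ' : B⟮x⟯) = θ := rfl
    rw [h2, hdk] at h1
    rw [map_natCast, h1]
    simp
  have hdk'' : (dk ((c:ℕ) : 𝓞 B⟮x⟯) k).eval θ' = (a : 𝓞 B⟮x⟯) := by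
    apply (NumberField.RingOfIntegers.coe_injective (K := B⟮x⟯))
    rw [map_natCast, ← hdk']
    have h1 := map_dk (algebraMap (𝓞 B⟮x⟯) B⟮x⟯) ((c:ℕ) : 𝓞 B⟮x⟯) k
    rw [map_natCast] at h1
    rw [← h1, eval_map_algebraMap]
    exact (aeval_algebraMap_apply B⟮x⟯ θ' (dk ((c:ℕ) : 𝓞 B⟮x⟯) k)).symm ▸ (by simp)
  have hle : a^2 ≤ 4*c^k := ha.le
  have hN0 : 4*c^k - a^2 ≠ 0 := by omega
  have hid : (4 * ((c:ℕ) : 𝓞 B⟮x⟯) - θ'^2) * ((uk ((c:ℕ) : 𝓞 B⟮x⟯) k).eval θ')^2 = ((4*c^k - a^2 : ℕ) : 𝓞 B⟮x⟯) := by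
    rw [pell_eval, hdk'', Nat.cast_sub hle]
    push_cast; ring
  have hτθ : ∀ τ : B⟮x⟯ →+* ℂ, (τ (θ' : B⟮x⟯)).im = 0 ∧ (τ (θ' : B⟮x⟯)).re^2 ≤ 4*c := by
    intro τ
    apply dk_real c k hc hk (a:ℤ) (by exact_mod_cast ha)
    have h1 := congrArg τ hdk'
    rw [map_natCast] at h1
    rw [Int.cast_natCast, ← h1]
    have h2 := map_dk τ ((c:ℕ) : B⟮x⟯) k
    rw [map_natCast] at h2
    rw [← h2, eval_map, eval₂_at_apply]
  refine main_ineq x' htop _ _ _ NB hN0 hid hNB H (c:ℝ) ρ (by positivity) hρ ?_ ?_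
  · intro τ
    apply hxc
    have h1 := (conj_iff (AdjoinSimple.gen B x) (τ (AdjoinSimple.gen B x))).mpr ⟨τ, rfl⟩
    rw [hgen] at h1
    exact h1
  · intro τ
    obtain ⟨h1, h2⟩ := hτθ τ
    have h3 : τ (θ' : B⟮x⟯) = ((τ (θ' : B⟮x⟯)).re : ℂ) := by
      apply Complex.ext <;> simp [h1]
    have h4 : ((4 * ((c:ℕ) : 𝓞 B⟮x⟯) - θ'^2 : 𝓞 B⟮x⟯) : B⟮x⟯) = 4 * ((c:ℕ) : B⟮x⟯) - (θ' : B⟮x⟯)^2 := by
      have e1 : ∀ w : 𝓞 B⟮x⟯, (w : B⟮x⟯) = algebraMap (𝓞 B⟮x⟯) B⟮x⟯ w := fun w => rfl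
      rw [e1, e1, map_sub, map_mul, map_pow, map_natCast, map_ofNat]
    rw [h4, map_sub, map_mul, map_pow, map_natCast, map_ofNat, h3]
    have h5 : (4 * (c:ℂ) - ((τ (θ' : B⟮x⟯)).re : ℂ)^2) = ((4 * (c:ℝ) - ((τ (θ' : B⟮x⟯)).re)^2 : ℝ) : ℂ) := by
      push_cast; ring
    rw [h5, Complex.norm_real, Real.norm_eq_abs, abs_le]
    constructor
    · have : (0:ℝ) ≤ c := by positivity
      linarith
    · nlinarith [sq_nonneg (τ (θ' : B⟮x⟯)).re]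

section unram

lemma exists_prime_mem {R : Type*} [CommRing R] (l : Ideal R) (hl : l.IsPrime) : ∀ n : ℕ, n ≠ 0 → (n : R) ∈ l →
    ∃ q : ℕ, q.Prime ∧ q ∣ n ∧ (q : R) ∈ l := by
  intro n
  induction n using Nat.strong_induction_on with
  | _ n ih =>
    intro hn h
    by_cases h1 : n = 1
    · exfalso
      rw [h1, Nat.cast_one] at h
      exact hl.ne_top ((Ideal.eq_top_iff_one _).mpr h)
    · have hp := Nat.minFac_prime h1
      obtain ⟨m, hm⟩ := Nat.minFac_dvd n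
      have hm0 : m ≠ 0 := by rintro rfl; rw [mul_zero] at hm; exact hn hm
      have h2 : ((n.minFac : ℕ) : R) * (m : R) ∈ l := by
        rw [← Nat.cast_mul, ← hm]; exact h
      rcases hl.mem_or_mem h2 with h3 | h3
      · exact ⟨_, hp, Nat.minFac_dvd n, h3⟩
      · have hlt : m < n := by
          have := hp.two_le
          nlinarith [Nat.pos_of_ne_zero hm0]
        obtain ⟨q, hq, hqm, hql⟩ := ih m hlt hm0 h3
        exact ⟨q, hq, hqm.trans (Dvd.intro_left _ hm.symm), hql⟩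

lemma mem_sq_of_squarefree {R : Type*} [CommRing R] (l : Ideal R) (N q : ℕ) (hN : Squarefree N) (hq : q.Prime) (hqN : q ∣ N)
    (hql : (q:R) ∈ l) (hNl : (N : R) ∈ l^2) : (q : R) ∈ l^2 := by
  obtain ⟨m, hm⟩ := hqN
  have hqm : ¬ q ∣ m := by
    rintro ⟨t, ht⟩
    have : q * q ∣ N := ⟨t, by rw [hm, ht]; ring⟩
    exact hq.one_lt.ne' (Nat.isUnit_iff.mp (hN q this))
  have hcop : IsCoprime (q:ℤ) (m:ℤ) := by
    rw [Nat.isCoprime_iff_coprime]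
    exact (Nat.Prime.coprime_iff_not_dvd hq).mpr hqm
  obtain ⟨u, v, huv⟩ := hcop
  have huv' : (u:R) * q + (v:R) * m = 1 := by exact_mod_cast congrArg (Int.cast : ℤ → R) huv
  have h1 : (q:R) = (u:R) * ((q:R)^2) + (v:R) * (N:R) := by
    rw [hm]; push_cast
    linear_combination (-(q:R)) * huv'
  rw [h1]
  exact add_mem (Ideal.mul_mem_left _ _ (Ideal.pow_mem_pow hql 2)) (Ideal.mul_mem_left _ _ hNl)

lemma dvd_of_mem {R : Type*} [CommRing R] (l : Ideal R) (hl : l.IsPrime) (q Z : ℕ) (hq : q.Prime) (hql : (q:R) ∈ l)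
    (hZ : (Z:R) ∈ l) : q ∣ Z := by
  by_contra h
  have hcop : IsCoprime (q:ℤ) (Z:ℤ) := by
    rw [Nat.isCoprime_iff_coprime]
    exact (Nat.Prime.coprime_iff_not_dvd hq).mpr h
  obtain ⟨u, v, huv⟩ := hcop
  have huv' : (u:R) * q + (v:R) * Z = 1 := by exact_mod_cast congrArg (Int.cast : ℤ → R) huv
  apply hl.ne_top
  rw [Ideal.eq_top_iff_one, ← huv']
  exact add_mem (Ideal.mul_mem_left _ _ hql) (Ideal.mul_mem_left _ _ hZ)

lemma H_base (E : Type*) [Field E] [NumberField E] (l : Ideal (𝓞 E)) (hl : l.IsPrime) (q : ℕ) (hq : q.Prime)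
    (hql : (q : 𝓞 E) ∈ l^2) : q ∣ Ideal.absNorm (differentIdeal ℤ (𝓞 E)) := by
  have hql1 : (q : 𝓞 E) ∈ l := Ideal.pow_le_self two_ne_zero hql
  have hq0 : (q:ℤ) ≠ 0 := by exact_mod_cast hq.ne_zero
  have hmax : (Ideal.span {(q:ℤ)}).IsMaximal :=
    PrincipalIdealRing.isMaximal_of_irreducible (Nat.prime_iff_prime_int.mp hq).irreducible
  have hd : l^2 ∣ (Ideal.span {(q:ℤ)}).map (algebraMap ℤ (𝓞 E)) := by
    rw [Ideal.map_span, Set.image_singleton, Ideal.dvd_span_singleton]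
    simpa using hql
  have h1 := pow_sub_one_dvd_differentIdeal (A := ℤ) (B := 𝓞 E) l 2 (by
    rw [Ne, Ideal.span_singleton_eq_bot]; exact hq0) hd
  have h2 : l ∣ differentIdeal ℤ (𝓞 E) := by simpa using h1
  have h3 := Ideal.le_of_dvd h2 (Ideal.absNorm_mem (differentIdeal ℤ (𝓞 E)))
  exact dvd_of_mem l hl q _ hq hql1 h3

lemma H_rel {B L : Type*} [Field B] [NumberField B] [Field L] [NumberField L] [Algebra B L]
    (l : Ideal (𝓞 L)) (hl : l.IsPrime) (q : ℕ) (hq : q.Prime) (hql : (q : 𝓞 L) ∈ l^2)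
    (hB : ∀ l : Ideal (𝓞 B), l.IsPrime → (q : 𝓞 B) ∉ l^2) : q ∣ Ideal.absNorm (differentIdeal (𝓞 B) (𝓞 L)) := by
  have hql1 : (q : 𝓞 L) ∈ l := Ideal.pow_le_self two_ne_zero hql
  have hq0L : (q : 𝓞 L) ≠ 0 := by exact_mod_cast hq.ne_zero
  have hq0B : (q : 𝓞 B) ≠ 0 := by exact_mod_cast hq.ne_zero
  have hl0 : l ≠ ⊥ := by rintro rfl; exact hq0L (by simpa using hql1)
  have hlp : Prime l := Ideal.prime_of_isPrime hl0 hl
  set m : Ideal (𝓞 B) := l.under (𝓞 B) with hm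
  have hmp : m.IsPrime := inferInstance
  have hqm : (q : 𝓞 B) ∈ m := by
    rw [hm, Ideal.mem_comap]; simpa using hql1
  have hm0 : m ≠ ⊥ := by
    intro h0; rw [h0] at hqm; exact hq0B (by simpa using hqm)
  have hmmax : m.IsMaximal := hmp.isMaximal hm0
  obtain ⟨J, hJ⟩ : m ∣ Ideal.span {(q : 𝓞 B)} := by
    rw [Ideal.dvd_span_singleton]; exact hqm
  have hmJ : ¬ m ∣ J := by
    intro hd
    apply hB m hmp
    rw [← Ideal.dvd_span_singleton, hJ, pow_two]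
    exact mul_dvd_mul_left m hd
  have hlJ : ¬ l ∣ J.map (algebraMap (𝓞 B) (𝓞 L)) := by
    intro hd
    apply hmJ
    rw [Ideal.dvd_iff_le] at hd ⊢
    rw [hm]
    exact Ideal.map_le_iff_le_comap.mp hd
  have hd1 : l^2 ∣ m.map (algebraMap (𝓞 B) (𝓞 L)) * J.map (algebraMap (𝓞 B) (𝓞 L)) := by
    rw [← Ideal.map_mul, ← hJ, Ideal.map_span, Set.image_singleton, Ideal.dvd_span_singleton]
    simpa using hql
  have hd2 : l^2 ∣ m.map (algebraMap (𝓞 B) (𝓞 L)) := hlp.pow_dvd_of_dvd_mul_right _ hlJ hd1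
  have h1 := pow_sub_one_dvd_differentIdeal (A := 𝓞 B) (B := 𝓞 L) l 2 hm0 hd2
  have h2 : l ∣ differentIdeal (𝓞 B) (𝓞 L) := by simpa using h1
  have h3 := Ideal.le_of_dvd h2 (Ideal.absNorm_mem (differentIdeal (𝓞 B) (𝓞 L)))
  exact dvd_of_mem l hl q _ hq hql1 h3

/-- the condition for the base field -/
lemma Hcond_base (E : Type*) [Field E] [NumberField E] (N : ℕ) (hN0 : N ≠ 0) (hN : Squarefree N)
    (hcop : ∀ q : ℕ, q.Prime → q ∣ N → ¬ q ∣ Ideal.absNorm (differentIdeal ℤ (𝓞 E))) (q : ℕ) (hq : q.Prime) (hqN : q ∣ N)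
    (l : Ideal (𝓞 E)) (hl : l.IsPrime) : (q : 𝓞 E) ∉ l^2 := fun h => hcop q hq hqN (H_base E l hl q hq h)

lemma H1 (E : Type*) [Field E] [NumberField E] (N : ℕ) (hN0 : N ≠ 0) (hN : Squarefree N)
    (hcop : ∀ q : ℕ, q.Prime → q ∣ N → ¬ q ∣ Ideal.absNorm (differentIdeal ℤ (𝓞 E)))
    (l : Ideal (𝓞 E)) (hl : l.IsPrime) (hNl : (N : 𝓞 E) ∈ l) : (N : 𝓞 E) ∉ l^2 := by
  intro h
  obtain ⟨q, hq, hqN, hql⟩ := exists_prime_mem l hl N hN0 hNl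
  exact Hcond_base E N hN0 hN hcop q hq hqN l hl (mem_sq_of_squarefree l N q hN hq hqN hql h)

lemma H2 {B L : Type*} [Field B] [NumberField B] [Field L] [NumberField L] [Algebra B L] (N : ℕ) (hN0 : N ≠ 0)
    (hN : Squarefree N)
    (hcop : ∀ q : ℕ, q.Prime → q ∣ N → ¬ q ∣ Ideal.absNorm (differentIdeal ℤ (𝓞 B)))
    (NB : ℕ) (hNB : NB ∣ N) (hNBc : ∀ q : ℕ, q.Prime → q ∣ NB → ¬ q ∣ Ideal.absNorm (differentIdeal (𝓞 B) (𝓞 L)))
    (l : Ideal (𝓞 L)) (hl : l.IsPrime) (hNl : (NB : 𝓞 L) ∈ l) : (N : 𝓞 L) ∉ l^2 := by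
  intro h
  have hNB0 : NB ≠ 0 := by rintro rfl; exact hN0 (Nat.eq_zero_of_zero_dvd hNB)
  obtain ⟨q, hq, hqN, hql⟩ := exists_prime_mem l hl NB hNB0 hNl
  have h1 := mem_sq_of_squarefree l N q hN hq (hqN.trans hNB) hql h
  exact hNBc q hq hqN (H_rel l hl q hq h1 (Hcond_base B N hN0 hN hcop q hq (hqN.trans hNB)))

/-- the divisor `N / gcd(N, Z)` -/
lemma exists_NB (N Z W : ℕ) (hN0 : N ≠ 0) (hN : Squarefree N) (hZ : Z ≠ 0) (hZW : Z ≤ W) :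
    ∃ NB : ℕ, NB ∣ N ∧ (∀ q : ℕ, q.Prime → q ∣ NB → ¬ q ∣ Z) ∧ N ≤ NB * W := by
  refine ⟨N / Nat.gcd N Z, Nat.div_dvd_of_dvd (Nat.gcd_dvd_left N Z), ?_, ?_⟩
  · intro q hq hqN hqZ
    have h1 : q ∣ N := hqN.trans (Nat.div_dvd_of_dvd (Nat.gcd_dvd_left N Z))
    have h2 : q ∣ Nat.gcd N Z := Nat.dvd_gcd h1 hqZ
    have h3 : q * q ∣ N := by
      have := mul_dvd_mul hqN h2
      rwa [Nat.div_mul_cancel (Nat.gcd_dvd_left N Z)] at this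
    exact hq.one_lt.ne' (Nat.isUnit_iff.mp (hN q h3))
  · have h1 : Nat.gcd N Z ≤ W := (Nat.le_of_dvd (Nat.pos_of_ne_zero hZ) (Nat.gcd_dvd_right N Z)).trans hZW
    calc N = N / Nat.gcd N Z * Nat.gcd N Z := (Nat.div_mul_cancel (Nat.gcd_dvd_left N Z)).symm
      _ ≤ N / Nat.gcd N Z * W := Nat.mul_le_mul_left _ h1

end unram

end Pool.Agent.Helper967.JR
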