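import Pool.Agent.Helper967.JR4
set_option autoImplicit false
open Polynomial NumberField IntermediateField

namespace Pool.Agent.Helper967.JR

section diffbound
variable {B L : Type*} [Field B] [NumberField B] [Field L] [NumberField L] [Algebra B L]

lemma diffbound (x : 𝓞 L) (hx : Algebra.adjoin B {(x : L)} = ⊤) (ρ : ℝ) (hρ : 0 < ρ)
    (hreal : ∀ τ : L →+* ℂ, (τ (x : L)).im = 0 ∧ 0 ≤ (τ (x:L)).re ∧ (τ (x:L)).re ≤ 4*ρ) (D : ℕ) (hD : Module.finrank B L = D) :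
    (Ideal.absNorm (differentIdeal (𝓞 B) (𝓞 L)) : ℝ) ≤ (((D.factorial * (2^D * ρ^(D*(D-1)/2)) : ℝ))^2)^(Module.finrank ℚ B) := by
  set z := aeval x (derivative (minpoly (𝓞 B) x)) with hz
  have hzmem : z ∈ differentIdeal (𝓞 B) (𝓞 L) :=
    aeval_derivative_mem_differentIdeal (𝓞 B) B L x hx
  have hz0 : z ≠ 0 := by
    intro h0
    have hxint : IsIntegral (𝓞 B) x := Algebra.IsIntegral.isIntegral _
    have h1 : minpoly B (x : L) = (minpoly (𝓞 B) x).map (algebraMap (𝓞 B) B) :=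
      minpoly.isIntegrallyClosed_eq_field_fractions B L hxint
    have h2 : (z : L) = aeval (x : L) (derivative (minpoly B (x : L))) := by
      rw [h1, derivative_map, aeval_map_algebraMap, hz]
      exact (aeval_algebraMap_apply L x (derivative (minpoly (𝓞 B) x))).symm
    have h3 := (Algebra.IsSeparable.isSeparable B (x : L)).aeval_derivative_ne_zero (minpoly.aeval B (x : L))
    rw [← h2, h0] at h3
    exact h3 (by simp)
  have hA : (Ideal.absNorm (differentIdeal (𝓞 B) (𝓞 L)) : ℝ) ≤ ((Algebra.norm ℤ z).natAbs : ℝ) := by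
    have h1 := Ideal.absNorm_dvd_norm_of_mem hzmem
    have h2 : Algebra.norm ℤ z ≠ 0 := Algebra.norm_ne_zero_iff.mpr hz0
    have h3 : Ideal.absNorm (differentIdeal (𝓞 B) (𝓞 L)) ∣ (Algebra.norm ℤ z).natAbs :=
      Int.natCast_dvd.mp h1
    exact_mod_cast Nat.le_of_dvd (Int.natAbs_pos.mpr h2) h3
  refine hA.trans (norm_deriv_upper x hx _ ?_ (fun τ => (hreal τ).1))
  intro n hn v hv
  rw [hD] at hn
  subst hn
  have h1 := fekete n v ρ hρ (by
    intro i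
    obtain ⟨τ, hτ⟩ := hv i
    have h2 := hreal τ
    rw [hτ] at h2
    simpa using h2.2)
  rw [← sq_abs]
  exact pow_le_pow_left₀ (abs_nonneg _) h1 2

/-- reality of a simple extension -/
lemma real_of_gen {E F : Type*} [Field E] [Field F] [Algebra E F] (x : F) (hx : Algebra.adjoin E {x} = ⊤) (τ : F →+* ℂ)
    (hE : ∀ e : E, (τ (algebraMap E F e)).im = 0) (hxr : (τ x).im = 0) (y : F) : (τ y).im = 0 := by
  have hy : y ∈ Algebra.adjoin E {x} := by rw [hx]; exact Algebra.mem_top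
  induction hy using Algebra.adjoin_induction with
  | mem z hz => rw [Set.mem_singleton_iff.mp hz]; exact hxr
  | algebraMap r => exact hE r
  | add a b _ _ ha hb => rw [map_add, Complex.add_im, ha, hb, add_zero]
  | mul a b _ _ ha hb => rw [map_mul, Complex.mul_im, ha, hb, mul_zero, zero_mul, add_zero]

end diffbound

section gens
variable {B : Type*} [Field B] [Algebra B ℂ]

lemma adjoin_gen_top (x : ℂ) (hx : IsIntegral B x) : Algebra.adjoin B {AdjoinSimple.gen B x} = ⊤ := by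
  rw [← IntermediateField.adjoin.powerBasis_gen hx]
  exact (IntermediateField.adjoin.powerBasis hx).adjoin_gen_eq_top

lemma real_adjoin (hB : ∀ b : B, (algebraMap B ℂ b).im = 0) (x : ℂ) (hx : IsIntegral B x) (hxr : x.im = 0) (m : B⟮x⟯) :
    (algebraMap B⟮x⟯ ℂ m).im = 0 := by
  apply real_of_gen (AdjoinSimple.gen B x) (adjoin_gen_top x hx) (algebraMap B⟮x⟯ ℂ)
  · intro e
    rw [← IsScalarTower.algebraMap_apply]; exact hB e
  · rw [AdjoinSimple.algebraMap_gen]; exact hxr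

end gens

section cases
variable {E : Type*} [Field E] [NumberField E] [Algebra E ℂ]

/-- Case A: no root of `D_k - a` in `E(β)` -/
lemma caseA (c k a n W : ℕ) (hc : 0 < c) (hk : k ≠ 0) (ha : a^2 < 4*c^k) (hsq : Squarefree (4*c^k - a^2))
    (hcop : ∀ q : ℕ, q.Prime → q ∣ 4*c^k - a^2 → ¬ q ∣ Ideal.absNorm (differentIdeal ℤ (𝓞 E)))
    (hW : 1 ≤ W) (hbig : 4*c*((2*(n*k))^4 * 9^(n*k)) * W < 4*c^k - a^2)
    (β : ℂ) (hβ : IsIntegral ℤ β) (hβc : ∀ z : ℂ, aeval z (minpoly ℚ β) = 0 → z.im = 0 ∧ 0 ≤ z.re ∧ z.re ≤ 12)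
    (hD : Module.finrank E E⟮β⟯ ≤ n*k) (θ0 : ℂ) (hθ0 : θ0 ∈ E⟮β⟯) : (dk (c:ℂ) k).eval θ0 ≠ (a:ℂ) := by
  intro hdk
  have h1 := ineq (B := E) β θ0 hβ 3 (by norm_num) (by
    intro z hz
    obtain ⟨h1, h2, h3⟩ := hβc z hz
    exact ⟨h1, h2, by linarith⟩) hθ0 c k hc hk a ha hdk (4*c^k - a^2) dvd_rfl
    (H1 E _ (by omega) hsq hcop)
  set D := Module.finrank E E⟮β⟯ with hDdef
  have h2 : ((4*c^k - a^2 : ℕ) : ℝ) ≤ ((4*c*((2*(n*k))^4 * 9^(n*k)) * W : ℕ) : ℝ) := by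
    refine h1.trans ?_
    push_cast
    have e1 : (3:ℝ)^(2*(D-1)) ≤ 9^(n*k) := by
      rw [pow_mul]
      norm_num
      exact pow_le_pow_right₀ (by norm_num) (by omega)
    have e2 : (D:ℝ) ≤ n*k := by exact_mod_cast hD
    have e3 : (1:ℝ) ≤ W := by exact_mod_cast hW
    calc 4*(c:ℝ)*((2*(D:ℝ))^4 * 3^(2*(D-1))) ≤ 4*(c:ℝ)*((2*((n:ℝ)*k))^4 * 9^(n*k)) * 1 := by
          rw [mul_one]; gcongr
      _ ≤ _ := by gcongr
  have h3 : 4*c^k - a^2 ≤ 4*c*((2*(n*k))^4 * 9^(n*k)) * W := by exact_mod_cast h2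
  omega

/-- Case B -/
lemma caseB (hreal : ∀ e : E, (algebraMap E ℂ e).im = 0)
    (c k a n W : ℕ) (hc : 0 < c) (hk : k.Prime) (hk2 : k ≠ 2) (ha : a^2 < 4*c^k) (hsq : Squarefree (4*c^k - a^2))
    (hcop : ∀ q : ℕ, q.Prime → q ∣ 4*c^k - a^2 → ¬ q ∣ Ideal.absNorm (differentIdeal ℤ (𝓞 E)))
    (hW : 1 ≤ W) (hWb : ∀ D ≤ n, ((D.factorial * (2^D * 3^(D*(D-1)/2)))^2)^(Module.finrank ℚ E) ≤ W)
    (hbig : 4*c*((2*(n*k))^4 * 9^(n*k)) * W < 4*c^k - a^2)
    (α : ℂ) (g : ℤ[X]) (ρ : ℝ) (hρ1 : 1 ≤ ρ) (hρ : ρ ≤ 9) (hα : IsIntegral ℤ α)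
    (hαc : ∀ z : ℂ, aeval z (minpoly ℚ α) = 0 → z.im = 0 ∧ 0 ≤ z.re ∧ z.re ≤ 4*ρ)
    (hdk : (dk (c:ℂ) k).eval (aeval α g) = (a:ℂ)) (hdeg : Module.finrank E E⟮α⟯ ≤ n*k)
    (β : ℂ) (hβmem : β ∈ E⟮α⟯) (hβ : IsIntegral ℤ β)
    (hβc : ∀ z : ℂ, aeval z (minpoly ℚ β) = 0 → z.im = 0 ∧ 0 ≤ z.re ∧ z.re ≤ 12) :
    ∃ e : E, algebraMap E ℂ e = β := by
  have hk0 : k ≠ 0 := hk.ne_zero
  have hβE : IsIntegral E β := hβ.tower_top
  have hαE : IsIntegral E α := hα.tower_top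
  have : FiniteDimensional E E⟮β⟯ := adjoin.finiteDimensional hβE
  have : FiniteDimensional E E⟮α⟯ := adjoin.finiteDimensional hαE
  have : NumberField E⟮β⟯ := NumberField.of_module_finite E _
  have hαM : IsIntegral E⟮β⟯ α := hα.tower_top
  have : FiniteDimensional E⟮β⟯ (IntermediateField.adjoin E⟮β⟯ {α}) := adjoin.finiteDimensional hαM
  have htower := tower_deg (M := E) β α hβmem
  set d := Module.finrank E E⟮β⟯ with hd
  set D' := Module.finrank E⟮β⟯ (IntermediateField.adjoin E⟮β⟯ {α}) with hD'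
  have hd1 : 1 ≤ d := Module.finrank_pos
  have hD'1 : 1 ≤ D' := Module.finrank_pos
  by_cases hd2 : d = 1
  · have h1 : E⟮β⟯ = ⊥ := IntermediateField.finrank_eq_one_iff.mp hd2
    have h2 : β ∈ E⟮β⟯ := IntermediateField.mem_adjoin_simple_self E β
    rw [h1, IntermediateField.mem_bot] at h2
    exact h2
  · exfalso
    have hd2' : 2 ≤ d := by omega
    have hdnk : d ≤ n*k := by nlinarith
    have hno : ∀ y : E⟮β⟯, (dk ((c:ℕ) : E⟮β⟯) k).eval y ≠ (((a:ℤ)) : E⟮β⟯) := by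
      intro y hy
      apply caseA (E := E) c k a n W hc hk0 ha hsq hcop hW hbig β hβ hβc hdnk (algebraMap E⟮β⟯ ℂ y) y.2
      have h1 := congrArg (algebraMap E⟮β⟯ ℂ) hy
      have h2 := map_dk (algebraMap E⟮β⟯ ℂ) ((c:ℕ) : E⟮β⟯) k
      rw [map_natCast] at h2
      rw [← h2, eval_map, eval₂_at_apply, h1]
      simp
    have hβim : β.im = 0 := (hβc β (minpoly.aeval ℚ β)).1
    have hrealM : ∀ m : E⟮β⟯, (algebraMap E⟮β⟯ ℂ m).im = 0 := real_adjoin hreal β hβE hβim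
    have hθmem : aeval α g ∈ IntermediateField.adjoin E⟮β⟯ {α} := by
      apply IntermediateField.algebra_adjoin_le_adjoin
      rw [← aeval_map_algebraMap E⟮β⟯ α g]
      exact aeval_mem_adjoin_singleton _ _
    have hdvd := deg_theta (M := E⟮β⟯) hrealM c hc k hk hk2 (a:ℤ) (by exact_mod_cast ha) hno (aeval α g) (by
      rw [hdk]; simp)
    have htower2 := tower_deg (M := E⟮β⟯) (aeval α g) α hθmem
    have hkD : k ∣ D' := by
      rw [hD', ← htower2]; exact Dvd.dvd.mul_right hdvd _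
    have hkD' : k ≤ D' := Nat.le_of_dvd (by omega) hkD
    have hkpos : 0 < k := hk.pos
    have hdn : d ≤ n := by
      have h1 : d * k ≤ n * k := by
        calc d * k ≤ d * D' := Nat.mul_le_mul_left d hkD'
          _ ≤ n*k := by rw [htower]; exact hdeg
      exact Nat.le_of_mul_le_mul_right h1 hkpos
    have hD2 : 2 * D' ≤ n*k := by
      calc 2 * D' ≤ d * D' := Nat.mul_le_mul_right D' hd2'
        _ ≤ n*k := by rw [htower]; exact hdeg
    -- the different of `E(β)/E`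
    have hinj : Function.Injective (algebraMap E⟮β⟯ ℂ) := (algebraMap E⟮β⟯ ℂ).injective
    have hgen : algebraMap E⟮β⟯ ℂ (AdjoinSimple.gen E β) = β := AdjoinSimple.algebraMap_gen E β
    have hβi : IsIntegral ℤ (AdjoinSimple.gen E β) := by
      rw [← isIntegral_algebraMap_iff hinj, hgen]; exact hβ
    have hZW := diffbound (B := E) (L := E⟮β⟯) ⟨AdjoinSimple.gen E β, hβi⟩ (adjoin_gen_top β hβE) 3 (by norm_num) (by
      intro τ
      have h1 := (conj_iff (AdjoinSimple.gen E β) (τ (AdjoinSimple.gen E β))).mpr ⟨τ, rfl⟩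
      rw [hgen] at h1
      obtain ⟨h2, h3, h4⟩ := hβc _ h1
      refine ⟨h2, h3, ?_⟩
      refine le_trans h4 (by norm_num)) d rfl
    have hZW' : Ideal.absNorm (differentIdeal (𝓞 E) (𝓞 E⟮β⟯)) ≤ W := by
      have h1 := hWb d hdn
      have h2 : (Ideal.absNorm (differentIdeal (𝓞 E) (𝓞 E⟮β⟯)) : ℝ) ≤
          ((((d.factorial * (2^d * 3^(d*(d-1)/2)))^2)^(Module.finrank ℚ E) : ℕ) : ℝ) := by
        push_cast; exact hZW
      exact le_trans (by exact_mod_cast h2) h1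
    have hZ0 : Ideal.absNorm (differentIdeal (𝓞 E) (𝓞 E⟮β⟯)) ≠ 0 := by
      rw [Ne, Ideal.absNorm_eq_zero_iff]
      exact differentIdeal_ne_bot
    have hN0 : 4*c^k - a^2 ≠ 0 := by omega
    obtain ⟨NB, hNB, hNBc, hNBW⟩ := exists_NB (4*c^k - a^2) _ W hN0 hsq hZ0 hZW'
    have h1 := ineq (B := E⟮β⟯) α (aeval α g) hα ρ (by linarith) hαc hθmem c k hc hk0 a ha hdk NB hNB
      (H2 (B := E) (4*c^k - a^2) hN0 hsq hcop NB hNB hNBc)
    rw [← hD'] at h1
    have h2 : ((4*c^k - a^2 : ℕ) : ℝ) ≤ ((4*c*((2*(n*k))^4 * 9^(n*k)) * W : ℕ) : ℝ) := by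
      have h3 : ((4*c^k - a^2 : ℕ) : ℝ) ≤ (NB : ℝ) * W := by exact_mod_cast hNBW
      refine h3.trans ?_
      push_cast
      have e1 : ρ^(2*(D'-1)) ≤ 9^(n*k) := by
        calc ρ^(2*(D'-1)) ≤ 9^(2*(D'-1)) := pow_le_pow_left₀ (by linarith) hρ _
          _ ≤ 9^(n*k) := pow_le_pow_right₀ (by norm_num) (by omega)
      have e2 : (D':ℝ) ≤ n*k := by
        have : D' ≤ n*k := by omega
        exact_mod_cast this
      have hρ0 : 0 ≤ ρ := by linarith
      calc (NB:ℝ) * W ≤ (4*(c:ℝ)*((2*(D':ℝ))^4 * ρ^(2*(D'-1)))) * W := by gcongr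
        _ ≤ _ := by gcongr
    have h3 : 4*c^k - a^2 ≤ 4*c*((2*(n*k))^4 * 9^(n*k)) * W := by exact_mod_cast h2
    omega

end cases

end Pool.Agent.Helper967.JR
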