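import Pool.Agent.Helper967.JR5
set_option autoImplicit false
open Polynomial NumberField IntermediateField

namespace Pool.Agent.Helper967.JR

lemma exists_n (Z : ℕ) (hZ : Z ≠ 0) (ρ : ℝ) (hρ : 3 < ρ) : ∃ n : ℕ, n ≠ 0 ∧ 4*((8*Z*9^n : ℕ):ℝ) ≤ ((3/2) * ρ^n)^2 := by
  have h1 : 1 < ρ^2/9 := by
    rw [lt_div_iff₀ (by norm_num)]; nlinarith
  obtain ⟨n, hn⟩ := pow_unbounded_of_one_lt (16*(Z:ℝ)) h1
  have hZ1 : (1:ℝ) ≤ Z := by exact_mod_cast Nat.one_le_iff_ne_zero.mpr hZ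
  refine ⟨n, ?_, ?_⟩
  · rintro rfl
    rw [pow_zero] at hn
    linarith
  · rw [div_pow, lt_div_iff₀ (by positivity)] at hn
    push_cast
    have e : ((3/2) * ρ^n)^2 = (9/4) * (ρ^2)^n := by rw [mul_pow, ← pow_mul, ← pow_mul, mul_comm n 2]; norm_num
    rw [e]
    have : (0:ℝ) < 9^n := by positivity
    nlinarith

lemma exists_K (C : ℕ) : ∃ K : ℕ, ∀ k : ℕ, K ≤ k → 1 ≤ k → C*k^4 < 3*8^(k-1) := by
  have h1 := tendsto_pow_const_div_const_pow_of_one_lt 4 (r := (8:ℝ)) (by norm_num)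
  have h2 : ∀ᶠ k : ℕ in Filter.atTop, (k:ℝ)^4/8^k < 3/(8*((C:ℝ)+1)) :=
    h1.eventually_lt_const (by positivity)
  obtain ⟨K, hK⟩ := Filter.eventually_atTop.mp h2
  refine ⟨K, fun k hk hk1 => ?_⟩
  have h3 := hK k hk
  rw [div_lt_div_iff₀ (by positivity) (by positivity)] at h3
  obtain ⟨m, rfl⟩ : ∃ m, k = m+1 := ⟨k-1, by omega⟩
  rw [Nat.add_sub_cancel]
  have h4 : ((m+1 : ℕ):ℝ)^4 * ((C:ℝ)+1) < 3 * 8^m := by
    rw [pow_succ (8:ℝ) m] at h3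
    linarith
  have h5 : (C:ℝ) * ((m+1 : ℕ):ℝ)^4 < 3 * 8^m := by
    have : (0:ℝ) ≤ ((m+1 : ℕ):ℝ)^4 := by positivity
    linarith
  exact_mod_cast h5

lemma big_ineq (Z n W k a c : ℕ) (hZ : Z ≠ 0) (hc : c = 8*Z*9^n) (hk : 1 ≤ k) (hC : (4*(2*n)^4*9^n*W)*k^4 < 3*8^(k-1)) (ha : a^2 ≤ c^k) :
    4*c*((2*(n*k))^4 * 9^(n*k)) * W < 4*c^k - a^2 := by
  obtain ⟨m, rfl⟩ : ∃ m, k = m+1 := ⟨k-1, by omega⟩
  rw [Nat.add_sub_cancel] at hC
  have h1 : 3*c^(m+1) ≤ 4*c^(m+1) - a^2 := by omega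
  refine lt_of_lt_of_le ?_ h1
  have hcm : 8^m * 9^(n*m) ≤ c^m := by
    have : 8*9^n ≤ c := by
      rw [hc]
      calc 8*9^n = 8*1*9^n := by ring
        _ ≤ 8*Z*9^n := by gcongr; exact Nat.one_le_iff_ne_zero.mpr hZ
    calc 8^m * 9^(n*m) = (8*9^n)^m := by rw [mul_pow, pow_mul]
      _ ≤ c^m := Nat.pow_le_pow_left this m
  have hc0 : 0 < c := by
    rw [hc]; have := Nat.pos_of_ne_zero hZ; positivity
  calc 4*c*((2*(n*(m+1)))^4 * 9^(n*(m+1))) * W = c * 9^(n*m) * ((4*(2*n)^4*9^n*W)*(m+1)^4) := by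
        rw [Nat.mul_add n m 1, pow_add]; ring
    _ < c * 9^(n*m) * (3*8^m) := by
        apply Nat.mul_lt_mul_of_pos_left hC
        positivity
    _ = 3 * c * (8^m * 9^(n*m)) := by ring
    _ ≤ 3 * c * c^m := Nat.mul_le_mul_left _ hcm
    _ = 3*c^(m+1) := by ring

lemma W_bound (n e D : ℕ) (hD : D ≤ n) : ((D.factorial * (2^D * 3^(D*(D-1)/2)))^2)^e ≤ ((n.factorial * (2^n * 3^(n*n)))^2)^e := by
  have h1 : D.factorial ≤ n.factorial := Nat.factorial_le hD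
  have h2 : 2^D ≤ 2^n := Nat.pow_le_pow_right (by norm_num) hD
  have h3 : 3^(D*(D-1)/2) ≤ 3^(n*n) := by
    apply Nat.pow_le_pow_right (by norm_num)
    calc D*(D-1)/2 ≤ D*(D-1) := Nat.div_le_self _ _
      _ ≤ n*n := Nat.mul_le_mul hD (by omega)
  gcongr

theorem core (E : Type*) [Field E] [NumberField E] [Algebra E ℂ] (hreal : ∀ e : E, (algebraMap E ℂ e).im = 0)
    (ε : ℝ) (hε : 0 < ε) (hε1 : ε ≤ 1) :
    ∃ α : ℂ, IsIntegral ℤ α ∧ (∀ z : ℂ, aeval z (minpoly ℚ α) = 0 → z.im = 0 ∧ 0 ≤ z.re ∧ z.re ≤ 12+ε) ∧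
      (∀ e : E, algebraMap E ℂ e ≠ α) ∧
      (∀ β ∈ E⟮α⟯, IsIntegral ℤ β → (∀ z : ℂ, aeval z (minpoly ℚ β) = 0 → z.im = 0 ∧ 0 ≤ z.re ∧ z.re ≤ 12) →
        ∃ e : E, algebraMap E ℂ e = β) := by
  set ρ : ℝ := (12+ε)/4 with hρdef
  have hρ3 : 3 < ρ := by rw [hρdef]; linarith
  have hρ9 : ρ ≤ 9 := by rw [hρdef]; linarith
  have h4ρ : 4*ρ = 12+ε := by rw [hρdef]; ring
  set Z := Ideal.absNorm (differentIdeal ℤ (𝓞 E)) with hZdef
  have hZ : Z ≠ 0 := by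
    rw [hZdef, Ne, Ideal.absNorm_eq_zero_iff]
    exact differentIdeal_ne_bot
  obtain ⟨n, hn0, hn⟩ := exists_n Z hZ ρ hρ3
  obtain ⟨c, hc⟩ : ∃ c, c = 8*Z*9^n := ⟨_, rfl⟩
  rw [← hc] at hn
  have hZpos := Nat.pos_of_ne_zero hZ
  have hc0 : 0 < c := by rw [hc]; positivity
  have hc2 : 2 ≤ c := by
    rw [hc]
    calc 2 ≤ 8*1*1 := by norm_num
      _ ≤ 8*Z*9^n := by
        apply Nat.mul_le_mul (Nat.mul_le_mul_left 8 hZpos)
        exact Nat.one_le_pow _ _ (by norm_num)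
  have hce : 2 ∣ c := by rw [hc]; exact ⟨4*Z*9^n, by ring⟩
  have hZc : Z ∣ c := by rw [hc]; exact ⟨8*9^n, by ring⟩
  obtain ⟨g, hgm, hgd, hg⟩ := exists_g ρ hρ3 n hn0
  set e0 := Module.finrank ℚ E with he0
  set W : ℕ := ((n.factorial * (2^n * 3^(n*n)))^2)^e0 with hW
  have hW1 : 1 ≤ W := by
    have : 0 < W := by rw [hW]; positivity
    exact this
  obtain ⟨K, hK⟩ := exists_K (4*(2*n)^4*9^n*W)
  obtain ⟨K', hK'⟩ := sieve c hc2 hce
  obtain ⟨k, hkge, hkp⟩ := Nat.exists_infinite_primes (K + K' + 3)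
  have hk2 : k ≠ 2 := by omega
  have hk0 : k ≠ 0 := by omega
  obtain ⟨z0, hz0, hsq⟩ := hK' k (by omega)
  obtain ⟨a, ha⟩ : ∃ a, a = 1 + c*z0 := ⟨_, rfl⟩
  rw [← ha] at hz0 hsq
  have hcK : 0 < c^k := by positivity
  have ha4 : a^2 < 4*c^k := by omega
  have hcop : ∀ q : ℕ, q.Prime → q ∣ 4*c^k - a^2 → ¬ q ∣ Z := by
    intro q hq hqN hqZ
    have h1 : q ∣ c := hqZ.trans hZc
    have h2 : q ∣ 4*c^k := Dvd.dvd.mul_left (h1.trans (dvd_pow_self c hk0)) 4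
    have h3 : q ∣ a^2 := (Nat.dvd_sub_iff_right ha4.le h2).mp hqN
    have h4 : q ∣ a := hq.dvd_of_dvd_pow h3
    rw [ha] at h4
    have h5 : q ∣ 1 := (Nat.dvd_add_iff_left (Dvd.dvd.mul_right h1 z0)).mpr h4
    exact hq.one_lt.ne' (Nat.dvd_one.mp h5)
  have hbig := big_ineq Z n W k a c hZ hc (by omega) (hK k (by omega) (by omega)) hz0
  -- the polynomial
  set P : ℤ[X] := (dk ((c:ℕ):ℤ) k).comp g - C ((a:ℕ):ℤ) with hP
  have hdkm : (dk ((c:ℕ):ℤ) k).Monic := by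
    obtain ⟨m, rfl⟩ := Nat.exists_eq_succ_of_ne_zero hk0
    exact dk_monic _ m
  have hdkd : (dk ((c:ℕ):ℤ) k).natDegree = k := by
    obtain ⟨m, rfl⟩ := Nat.exists_eq_succ_of_ne_zero hk0
    exact dk_natDegree _ m
  have hcompm : ((dk ((c:ℕ):ℤ) k).comp g).Monic := hdkm.comp hgm (by rw [hgd]; exact hn0)
  have hcompd : ((dk ((c:ℕ):ℤ) k).comp g).natDegree = k*n := by rw [natDegree_comp, hdkd, hgd]
  have hPm : P.Monic := by
    apply hcompm.sub_of_left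
    rw [degree_eq_natDegree hcompm.ne_zero, hcompd]
    refine degree_C_le.trans_lt ?_
    exact_mod_cast Nat.mul_pos (Nat.pos_of_ne_zero hk0) (Nat.pos_of_ne_zero hn0)
  have hPd : P.natDegree = k*n := by rw [hP, natDegree_sub_C, hcompd]
  have hPeval : ∀ z : ℂ, aeval z P = (dk ((c:ℕ):ℂ) k).eval (aeval z g) - (a:ℂ) := by
    intro z
    rw [hP, map_sub, aeval_comp, aeval_C]
    have h2 := map_dk (Int.castRingHom ℂ) ((c:ℕ):ℤ) k
    simp only [eq_intCast, Int.cast_natCast] at h2 ⊢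
    rw [← h2, eval_map]
    rfl
  obtain ⟨α, hα⟩ := IsAlgClosed.exists_aeval_eq_zero_of_injective ℂ (algebraMap ℤ ℂ).injective_int P (by
    rw [degree_eq_natDegree hPm.ne_zero, hPd]
    exact_mod_cast (Nat.mul_pos (Nat.pos_of_ne_zero hk0) (Nat.pos_of_ne_zero hn0)).ne')
  have hαi : IsIntegral ℤ α := ⟨P, hPm, by rw [← aeval_def]; exact hα⟩
  have hαc : ∀ z : ℂ, aeval z (minpoly ℚ α) = 0 → z.im = 0 ∧ 0 ≤ z.re ∧ z.re ≤ 4*ρ := by
    intro z hz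
    have h1 : minpoly ℚ α ∣ P.map (algebraMap ℤ ℚ) := by
      apply minpoly.dvd
      rw [aeval_map_algebraMap]; exact hα
    have h2 : aeval z P = 0 := by
      rw [← aeval_map_algebraMap ℚ]
      obtain ⟨Q, hQ⟩ := h1
      rw [hQ, map_mul, hz, zero_mul]
    rw [hPeval, sub_eq_zero] at h2
    obtain ⟨h3, h4⟩ := dk_real c k hc0 hk0 (a:ℤ) (by exact_mod_cast ha4) (aeval z g) (by rw [h2]; simp)
    apply hg (aeval z g).re
    · apply abs_le_of_sq_le_sq (h4.trans hn) (by positivity)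
    · have h5 : (g.map (Int.castRingHom ℂ)).eval z = aeval z g := by rw [eval_map]; rfl
      rw [h5]
      apply Complex.ext <;> simp [h3]
  have hαE : IsIntegral E α := hαi.tower_top
  have hdeg : Module.finrank E E⟮α⟯ ≤ n*k := by
    rw [adjoin.finrank hαE]
    have h1 : minpoly E α ∣ P.map (algebraMap ℤ E) := by
      apply minpoly.dvd
      rw [aeval_map_algebraMap]; exact hα
    refine (natDegree_le_of_dvd h1 (hPm.map _).ne_zero).trans ?_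
    rw [hPm.natDegree_map, hPd, mul_comm]
  have hdk : (dk (c:ℂ) k).eval (aeval α g) = (a:ℂ) := by
    rw [hPeval, sub_eq_zero] at hα; exact hα
  refine ⟨α, hαi, ?_, ?_, ?_⟩
  · intro z hz
    have := hαc z hz
    rw [h4ρ] at this; exact this
  · intro e he
    have hmem : aeval α g ∈ E⟮(0:ℂ)⟯ := by
      rw [← he]
      have : aeval (algebraMap E ℂ e) g = algebraMap E ℂ (aeval e g) := aeval_algebraMap_apply ℂ e g
      rw [this]
      exact E⟮(0:ℂ)⟯.algebraMap_mem _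
    apply caseA (E := E) c k a n W hc0 hk0 ha4 hsq hcop hW1 hbig 0 isIntegral_zero ?_ ?_ (aeval α g) hmem hdk
    · intro z hz
      rw [minpoly.zero, aeval_X] at hz
      rw [hz]; simp
    · have h1 : E⟮(0:ℂ)⟯ = ⊥ := by
        rw [IntermediateField.adjoin_simple_eq_bot_iff]; exact zero_mem _
      rw [h1, IntermediateField.finrank_bot]
      exact Nat.mul_pos (Nat.pos_of_ne_zero hn0) (Nat.pos_of_ne_zero hk0)
  · intro β hβmem hβ hβc
    exact caseB hreal c k a n W hc0 hkp hk2 ha4 hsq hcop hW1 (fun D hD => W_bound n e0 D hD) hbig α g ρ (by linarith) hρ9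
      hαi hαc hdk hdeg β hβmem hβ hβc

end Pool.Agent.Helper967.JR
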