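import Pool.Agent.Helper967.JR6
set_option autoImplicit false
open Polynomial NumberField IntermediateField

namespace Pool.Agent.Helper967.JR

/-- good subfields: totally real number fields whose only integers with conjugates in `[0,12]` are rational -/
def Good (F : Subfield ℂ) : Prop :=
  NumberField F ∧ (∀ x ∈ F, ∀ z : ℂ, aeval z (minpoly ℚ x) = 0 → z.im = 0) ∧
  (∀ x ∈ F, IsIntegral ℤ x → (∀ z : ℂ, aeval z (minpoly ℚ x) = 0 → z.im = 0 ∧ 0 ≤ z.re ∧ z.re ≤ 12) → ∃ m : ℤ, (m:ℂ) = x)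

lemma step (F : Subfield ℂ) (hF : Good F) (ε : ℝ) (hε : 0 < ε) (hε1 : ε ≤ 1) :
    ∃ F' : Subfield ℂ, F ≤ F' ∧ Good F' ∧ ∃ α ∈ F', α ∉ F ∧ IsIntegral ℤ α ∧
      (∀ z : ℂ, aeval z (minpoly ℚ α) = 0 → z.im = 0 ∧ 0 ≤ z.re ∧ z.re ≤ 12+ε) := by
  obtain ⟨hNF, hFr, hFi⟩ := hF
  have hreal : ∀ e : F, (algebraMap F ℂ e).im = 0 := fun e => hFr e e.2 e (minpoly.aeval ℚ (e:ℂ))
  obtain ⟨α, hαi, hαc, hαne, hαβ⟩ := core F hreal ε hε hε1
  have hαF : IsIntegral F α := hαi.tower_top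
  have : FiniteDimensional F F⟮α⟯ := adjoin.finiteDimensional hαF
  have hNF' : NumberField F⟮α⟯ := NumberField.of_module_finite F _
  refine ⟨F⟮α⟯.toSubfield, ?_, ⟨hNF', ?_, ?_⟩, α, ?_, ?_, hαi, hαc⟩
  · intro x hx
    exact F⟮α⟯.algebraMap_mem ⟨x, hx⟩
  · intro x hx z hz
    have hx' : x ∈ F⟮α⟯ := hx
    obtain ⟨τ, hτ⟩ := (conj_iff (L := F⟮α⟯) ⟨x, hx'⟩ z).mp hz
    rw [← hτ]
    apply real_of_gen (AdjoinSimple.gen F α) (adjoin_gen_top α hαF) τ
    · intro e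
      apply hFr (algebraMap F ℂ e) e.2
      exact (conj_iff (L := F) e _).mpr ⟨τ.comp (algebraMap F F⟮α⟯), rfl⟩
    · apply (hαc _ _).1
      have h1 := (conj_iff (AdjoinSimple.gen F α) (τ (AdjoinSimple.gen F α))).mpr ⟨τ, rfl⟩
      rw [AdjoinSimple.algebraMap_gen] at h1
      exact h1
  · intro x hx hxi hxc
    obtain ⟨e, he⟩ := hαβ x hx hxi hxc
    apply hFi x _ hxi hxc
    rw [← he]; exact e.2
  · exact IntermediateField.mem_adjoin_simple_self F α
  · intro hmem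
    exact hαne ⟨α, hmem⟩ rfl

lemma good_bot : Good (⊥ : Subfield ℂ) := by
  have hmem : ∀ x : ℂ, x ∈ (⊥ : Subfield ℂ) → ∃ q : ℚ, (q:ℂ) = x := by
    intro x hx
    rw [Subfield.bot_eq_of_charZero] at hx
    obtain ⟨q, hq⟩ := hx
    exact ⟨q, by rw [← hq]; rfl⟩
  have hconj : ∀ q : ℚ, ∀ z : ℂ, aeval z (minpoly ℚ (q:ℂ)) = 0 → z = q := by
    intro q z hz
    have h1 : minpoly ℚ (q:ℂ) = X - C q := by
      have := minpoly.eq_X_sub_C ℂ q
      simpa using this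
    rw [h1, map_sub, aeval_X, aeval_C, sub_eq_zero] at hz
    simpa using hz
  refine ⟨?_, ?_, ?_⟩
  · refine @NumberField.mk _ _ _ ?_
    apply Module.Finite.of_surjective (Algebra.linearMap ℚ (⊥ : Subfield ℂ))
    intro x
    obtain ⟨q, hq⟩ := hmem x x.2
    refine ⟨q, ?_⟩
    apply Subtype.ext
    rw [← hq]
    simp
  · intro x hx z hz
    obtain ⟨q, rfl⟩ := hmem x hx
    rw [hconj q z hz]
    exact Complex.ratCast_im q
  · intro x hx hxi hxc
    obtain ⟨q, rfl⟩ := hmem x hx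
    have h1 : IsIntegral ℤ q := by
      have h2 : (q:ℂ) = algebraMap ℚ ℂ q := by simp
      rw [h2, isIntegral_algebraMap_iff (algebraMap ℚ ℂ).injective] at hxi
      exact hxi
    obtain ⟨m, hm⟩ := IsIntegrallyClosed.isIntegral_iff.mp h1
    refine ⟨m, ?_⟩
    rw [← hm]; simp

theorem final : ∃ K : Subfield ℂ, (∀ x ∈ K, IsIntegral ℚ x ∧ ∀ z : ℂ, aeval z (minpoly ℚ x) = 0 → z.im = 0) ∧
    {s : ℝ | 0 < s ∧ {α : ℂ | α ∈ K ∧ IsIntegral ℤ α ∧ ∀ z : ℂ, aeval z (minpoly ℚ α) = 0 →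
              z.im = 0 ∧ 0 ≤ z.re ∧ z.re ≤ s}.Infinite} = Set.Ioi 12 := by
  have hstep : ∀ (F : {F : Subfield ℂ // Good F}) (n : ℕ), ∃ F' : {F : Subfield ℂ // Good F}, F.1 ≤ F'.1 ∧
      ∃ α ∈ F'.1, α ∉ F.1 ∧ IsIntegral ℤ α ∧
      (∀ z : ℂ, aeval z (minpoly ℚ α) = 0 → z.im = 0 ∧ 0 ≤ z.re ∧ z.re ≤ 12+1/((n:ℝ)+1)) := by
    intro F n
    obtain ⟨F', h1, h2, h3⟩ := step F.1 F.2 (1/((n:ℝ)+1)) (by positivity) (by
      rw [div_le_one (by positivity)]
      have : (0:ℝ) ≤ n := by positivity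
      linarith)
    exact ⟨⟨F', h2⟩, h1, h3⟩
  choose f hf α hα hαn hαi hαc using hstep
  set S : ℕ → {F : Subfield ℂ // Good F} := fun n => Nat.rec ⟨⊥, good_bot⟩ (fun n F => f F n) n with hS
  have hSsucc : ∀ n, S (n+1) = f (S n) n := fun n => rfl
  have hmono : Monotone (fun n => (S n).1) := by
    apply monotone_nat_of_le_succ
    intro n
    rw [hSsucc]
    exact hf (S n) n
  have hdir : Directed (· ≤ ·) (fun n => (S n).1) := hmono.directed_le
  have hKmem : ∀ x : ℂ, x ∈ (⨆ n, (S n).1 : Subfield ℂ) ↔ ∃ n, x ∈ (S n).1 := fun x => Subfield.mem_iSup_of_directed hdir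
  refine ⟨⨆ n, (S n).1, ?_, ?_⟩
  · intro x hx
    obtain ⟨n, hn⟩ := (hKmem x).mp hx
    obtain ⟨hNF, hFr, hFi⟩ := (S n).2
    refine ⟨?_, hFr x hn⟩
    have h1 : IsIntegral ℚ (⟨x, hn⟩ : (S n).1) := Algebra.IsIntegral.isIntegral _
    have h2 : IsIntegral ℚ (algebraMap (S n).1 ℂ ⟨x, hn⟩) := by
      rw [isIntegral_algebraMap_iff (algebraMap (S n).1 ℂ).injective]; exact h1
    exact h2
  · ext s
    rw [Set.mem_ofPred_eq, Set.mem_Ioi]
    constructor
    · rintro ⟨hs0, hinf⟩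
      by_contra hs
      push Not at hs
      apply hinf
      apply Set.Finite.subset (Set.Finite.image (fun m : ℤ => (m:ℂ)) (Set.finite_Icc (0:ℤ) 12))
      rintro x ⟨hxK, hxi, hxc⟩
      obtain ⟨n, hn⟩ := (hKmem x).mp hxK
      obtain ⟨hNF, hFr, hFi⟩ := (S n).2
      obtain ⟨m, hm⟩ := hFi x hn hxi (by
        intro z hz
        obtain ⟨h1, h2, h3⟩ := hxc z hz
        exact ⟨h1, h2, h3.trans hs⟩)
      refine ⟨m, ?_, hm⟩
      obtain ⟨h1, h2, h3⟩ := hxc x (minpoly.aeval ℚ x)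
      rw [← hm, Complex.intCast_re] at h2 h3
      rw [Set.mem_Icc]
      constructor
      · exact_mod_cast h2
      · have : (m:ℝ) ≤ 12 := h3.trans hs
        exact_mod_cast this
    · intro hs
      refine ⟨by linarith, ?_⟩
      obtain ⟨N, hN⟩ := exists_nat_one_div_lt (sub_pos.mpr hs)
      have hlt : ∀ m n : ℕ, m < n → α (S m) m ≠ α (S n) n := by
        intro m n hmn heq
        apply hαn (S n) n
        rw [← heq]
        have h1 : (S (m+1)).1 ≤ (S n).1 := hmono (show m+1 ≤ n by omega)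
        apply h1
        rw [hSsucc]
        exact hα (S m) m
      apply Set.infinite_of_injective_forall_mem (f := fun n : ℕ => α (S (N+n)) (N+n))
      · intro m n hmn
        rcases lt_trichotomy m n with h | h | h
        · exact absurd hmn (hlt (N+m) (N+n) (by omega))
        · exact h
        · exact absurd hmn.symm (hlt (N+n) (N+m) (by omega))
      · intro n
        refine ⟨?_, hαi _ _, ?_⟩
        · rw [hKmem]
          refine ⟨N+n+1, ?_⟩
          rw [hSsucc]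
          exact hα _ _
        · intro z hz
          obtain ⟨h1, h2, h3⟩ := hαc _ _ z hz
          refine ⟨h1, h2, h3.trans ?_⟩
          have h4 : 1/(((N+n : ℕ):ℝ)+1) ≤ 1/((N:ℝ)+1) := by
            apply one_div_le_one_div_of_le (by positivity)
            push_cast
            have : (0:ℝ) ≤ n := by positivity
            linarith
          linarith

end Pool.Agent.Helper967.JR
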