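import Mathlib

set_option autoImplicit false

/-! Lattice-ordered groups: prime convex subgroups (Holland). -/

namespace Pool.Agent.Helper967.LG

variable {H : Type*} [Group H] [Lattice H] [MulLeftMono H] [MulRightMono H]

/-- positive elements: `x ⊓ yz ≤ (x ⊓ y)(x ⊓ z)` -/
theorem inf_mul_le {x y z : H} (hx : 1 ≤ x) (hy : 1 ≤ y) (hz : 1 ≤ z) :
    x ⊓ (y * z) ≤ (x ⊓ y) * (x ⊓ z) := by
  rw [inf_mul, mul_inf, mul_inf]
  refine le_inf (le_inf ?_ ?_) (le_inf ?_ inf_le_right)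
  · exact inf_le_left.trans (le_mul_of_one_le_left' hx)
  · exact inf_le_left.trans (le_mul_of_one_le_right' hz)
  · exact inf_le_left.trans (le_mul_of_one_le_left' hy)

theorem one_le_mul_of {a b : H} (ha : 1 ≤ a) (hb : 1 ≤ b) : 1 ≤ a * b := by
  calc (1 : H) ≤ a := ha
    _ ≤ a * b := le_mul_of_one_le_right' hb

/-- disjointness of the positive and the negative part -/
theorem pos_inf_neg (u : H) : (u ⊔ 1) ⊓ (u⁻¹ ⊔ 1) = 1 := by
  have h1 : u⁻¹ ⊔ 1 = u⁻¹ * (u ⊔ 1) := by rw [mul_sup]; simp [sup_comm]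
  have h2 : (u ⊔ 1) ⊓ (u⁻¹ ⊔ 1) = (1 ⊓ u⁻¹) * (u ⊔ 1) := by rw [h1, inf_mul, one_mul]
  have h3 : (1 : H) ⊓ u⁻¹ = (u ⊔ 1)⁻¹ := by rw [inv_sup, inv_one, inf_comm]
  rw [h2, h3, inv_mul_cancel]

/-- convex sublattice subgroups -/
structure IsCvx (P : Subgroup H) : Prop where
  cvx : ∀ a b g : H, a ∈ P → b ∈ P → a ≤ g → g ≤ b → g ∈ P
  sup : ∀ a : H, a ∈ P → a ⊔ 1 ∈ P

/-- the convex subgroup generated by a convex subgroup and a positive element -/
def gen (P : Subgroup H) (a : H) (ha : 1 ≤ a) : Subgroup H where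
  carrier := {h | ∃ m ∈ Submonoid.closure ({p : H | p ∈ P ∧ 1 ≤ p} ∪ {a}), h ≤ m ∧ h⁻¹ ≤ m}
  one_mem' := ⟨1, Submonoid.one_mem _, le_refl _, by simp⟩
  mul_mem' := by
    have hpos : ∀ m ∈ Submonoid.closure ({p : H | p ∈ P ∧ 1 ≤ p} ∪ {a}), 1 ≤ m := by
      intro m hm
      induction hm using Submonoid.closure_induction with
      | mem x hx =>
        rcases hx with hx | hx
        · exact hx.2
        · rw [Set.mem_singleton_iff.1 hx]; exact ha
      | one => exact le_refl _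
      | mul x y _ _ h1 h2 => exact one_le_mul_of h1 h2
    rintro h k ⟨m, hm, h1, h2⟩ ⟨m', hm', h3, h4⟩
    refine ⟨m * m' * m, Submonoid.mul_mem _ (Submonoid.mul_mem _ hm hm') hm, ?_, ?_⟩
    · exact (mul_le_mul' h1 h3).trans (le_mul_of_one_le_right' (hpos m hm))
    · rw [mul_inv_rev, mul_assoc]
      exact (mul_le_mul' h4 h2).trans (le_mul_of_one_le_left' (hpos m hm))
  inv_mem' := by
    rintro h ⟨m, hm, h1, h2⟩
    exact ⟨m, hm, h2, by rwa [inv_inv]⟩

theorem closure_pos (P : Subgroup H) (a : H) (ha : 1 ≤ a) :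
    ∀ m ∈ Submonoid.closure ({p : H | p ∈ P ∧ 1 ≤ p} ∪ {a}), 1 ≤ m := by
  intro m hm
  induction hm using Submonoid.closure_induction with
  | mem x hx =>
    rcases hx with hx | hx
    · exact hx.2
    · rw [Set.mem_singleton_iff.1 hx]; exact ha
  | one => exact le_refl _
  | mul x y _ _ h1 h2 => exact one_le_mul_of h1 h2

theorem gen_cvx (P : Subgroup H) (a : H) (ha : 1 ≤ a) : IsCvx (gen P a ha) := by
  constructor
  · rintro x y g ⟨m, hm, h1, h2⟩ ⟨m', hm', h3, h4⟩ h5 h6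
    refine ⟨m * m', Submonoid.mul_mem _ hm hm', ?_, ?_⟩
    · exact (h6.trans h3).trans (le_mul_of_one_le_left' (closure_pos P a ha m hm))
    · have : g⁻¹ ≤ x⁻¹ := inv_le_inv_iff.2 h5
      exact (this.trans h2).trans (le_mul_of_one_le_right' (closure_pos P a ha m' hm'))
  · rintro x ⟨m, hm, h1, h2⟩
    have hm1 := closure_pos P a ha m hm
    refine ⟨m, hm, sup_le h1 hm1, ?_⟩
    rw [inv_sup]
    exact inf_le_left.trans h2

theorem le_gen {P : Subgroup H} (hP : IsCvx P) (a : H) (ha : 1 ≤ a) : P ≤ gen P a ha := by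
  intro p hp
  have h1 : p ⊔ 1 ∈ P := hP.sup p hp
  have h2 : p⁻¹ ⊔ 1 ∈ P := hP.sup _ (P.inv_mem hp)
  have h3 : 1 ≤ p ⊔ 1 := le_sup_right
  have h4 : 1 ≤ p⁻¹ ⊔ 1 := le_sup_right
  refine ⟨(p ⊔ 1) * (p⁻¹ ⊔ 1), ?_, ?_, ?_⟩
  · exact Submonoid.subset_closure (Or.inl ⟨P.mul_mem h1 h2, one_le_mul_of h3 h4⟩)
  · exact le_sup_left.trans (le_mul_of_one_le_right' h4)
  · exact (le_sup_left : p⁻¹ ≤ p⁻¹ ⊔ 1).trans (le_mul_of_one_le_left' h3)

theorem mem_gen (P : Subgroup H) (a : H) (ha : 1 ≤ a) : a ∈ gen P a ha :=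
  ⟨a, Submonoid.subset_closure (Or.inr rfl), le_refl _, by
    have : a⁻¹ ≤ 1 := by simpa using ha
    exact this.trans ha⟩

/-- a prime subgroup avoiding a given element -/
theorem exists_prime (g : H) (hg : g ≠ 1) :
    ∃ P : Subgroup H, IsCvx P ∧ g ∉ P ∧ ∀ a b : H, 1 ≤ a → 1 ≤ b → a ⊓ b = 1 → a ∈ P ∨ b ∈ P := by
  let S : Set (Subgroup H) := {P | IsCvx P ∧ g ∉ P}
  have hbot : (⊥ : Subgroup H) ∈ S := by
    refine ⟨⟨?_, ?_⟩, ?_⟩
    · intro a b x ha hb h1 h2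
      rw [Subgroup.mem_bot] at *
      subst ha; subst hb
      exact le_antisymm h2 h1
    · intro a ha
      rw [Subgroup.mem_bot] at *
      subst ha
      simp
    · rw [Subgroup.mem_bot]; exact hg
  obtain ⟨P, hPb, hP⟩ := zorn_le_nonempty₀ S (by
    intro c hc hchain y hy
    refine ⟨sSup c, ?_, fun z hz => le_sSup hz⟩
    have hdir : DirectedOn (· ≤ ·) c := hchain.directedOn
    have hmem : ∀ x, x ∈ sSup c ↔ ∃ K ∈ c, x ∈ K := fun x =>
      Subgroup.mem_sSup_of_directedOn ⟨y, hy⟩ hdir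
    refine ⟨⟨?_, ?_⟩, ?_⟩
    · intro a b x ha hb h1 h2
      rw [hmem] at *
      obtain ⟨K, hK, ha⟩ := ha
      obtain ⟨K', hK', hb⟩ := hb
      obtain ⟨K'', hK'', h3, h4⟩ := hdir K hK K' hK'
      exact ⟨K'', hK'', (hc hK'').1.cvx a b x (h3 ha) (h4 hb) h1 h2⟩
    · intro a ha
      rw [hmem] at *
      obtain ⟨K, hK, ha⟩ := ha
      exact ⟨K, hK, (hc hK).1.sup a ha⟩
    · rw [hmem]
      rintro ⟨K, hK, h⟩
      exact (hc hK).2 h) ⊥ hbot
  refine ⟨P, hP.prop.1, hP.prop.2, ?_⟩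
  intro a b ha hb hab
  by_contra hcon
  push Not at hcon
  obtain ⟨haP, hbP⟩ := hcon
  have key : ∀ c : H, ∀ hc : 1 ≤ c, c ∉ P → g ∈ gen P c hc := by
    intro c hc hcP
    by_contra hgc
    have h1 : gen P c hc ∈ S := ⟨gen_cvx P c hc, hgc⟩
    have h2 := hP.le_of_ge h1 (le_gen hP.prop.1 c hc)
    exact hcP (h2 (mem_gen P c hc))
  obtain ⟨m, hm, hm1, hm2⟩ := key a ha haP
  obtain ⟨m', hm', hm1', hm2'⟩ := key b hb hbP
  -- meets lie in `P`
  have cvx1 : ∀ x y : H, y ∈ P → 1 ≤ x → x ≤ y → x ∈ P := fun x y hy h1 h2 =>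
    hP.prop.1.cvx 1 y x P.one_mem hy h1 h2
  have step1 : ∀ y ∈ Submonoid.closure ({p : H | p ∈ P ∧ 1 ≤ p} ∪ {b}), a ⊓ y ∈ P := by
    intro y hy
    induction hy using Submonoid.closure_induction with
    | mem x hx =>
      rcases hx with hx | hx
      · exact cvx1 _ x hx.1 (le_inf ha hx.2) inf_le_right
      · rw [Set.mem_singleton_iff.1 hx, hab]; exact P.one_mem
    | one => rw [inf_eq_right.2 ha]; exact P.one_mem
    | mul x y hx hy h1 h2 =>
      have px := closure_pos P b hb x hx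
      have py := closure_pos P b hb y hy
      exact cvx1 _ _ (P.mul_mem h1 h2) (le_inf ha (one_le_mul_of px py)) (inf_mul_le ha px py)
  have step2 : ∀ x ∈ Submonoid.closure ({p : H | p ∈ P ∧ 1 ≤ p} ∪ {a}),
      ∀ y ∈ Submonoid.closure ({p : H | p ∈ P ∧ 1 ≤ p} ∪ {b}), y ⊓ x ∈ P := by
    intro x hx
    induction hx using Submonoid.closure_induction with
    | mem x hx =>
      intro y hy
      have py := closure_pos P b hb y hy
      rcases hx with hx | hx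
      · exact cvx1 _ x hx.1 (le_inf py hx.2) inf_le_right
      · rw [Set.mem_singleton_iff.1 hx, inf_comm]; exact step1 y hy
    | one =>
      intro y hy
      have py := closure_pos P b hb y hy
      rw [inf_eq_right.2 py]; exact P.one_mem
    | mul x x' hx hx' h1 h2 =>
      intro y hy
      have py := closure_pos P b hb y hy
      have px := closure_pos P a ha x hx
      have px' := closure_pos P a ha x' hx'
      exact cvx1 _ _ (P.mul_mem (h1 y hy) (h2 y hy)) (le_inf py (one_le_mul_of px px'))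
        (inf_mul_le py px px')
  have hq : m' ⊓ m ∈ P := step2 m hm m' hm'
  apply hP.prop.2
  refine hP.prop.1.cvx (m' ⊓ m)⁻¹ (m' ⊓ m) g (P.inv_mem hq) hq ?_ (le_inf hm1' hm1)
  have : g⁻¹ ≤ m' ⊓ m := le_inf hm2' hm2
  simpa using inv_le_inv_iff.2 this

/-- the preorder of a subgroup -/
def ple (P : Subgroup H) (a b : H) : Prop := ∃ p ∈ P, a ≤ b * p

theorem ple_refl (P : Subgroup H) (a : H) : ple P a a := ⟨1, P.one_mem, by simp⟩

theorem ple_of_le (P : Subgroup H) {a b : H} (h : a ≤ b) : ple P a b := ⟨1, P.one_mem, by simpa⟩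

theorem ple_trans {P : Subgroup H} {a b c : H} (h1 : ple P a b) (h2 : ple P b c) : ple P a c := by
  obtain ⟨p, hp, h1⟩ := h1
  obtain ⟨q, hq, h2⟩ := h2
  refine ⟨q * p, P.mul_mem hq hp, ?_⟩
  rw [← mul_assoc]
  exact h1.trans (mul_le_mul_left h2 p)

theorem ple_mul {P : Subgroup H} {a b : H} (h : H) (h1 : ple P a b) : ple P (h * a) (h * b) := by
  obtain ⟨p, hp, h1⟩ := h1
  exact ⟨p, hp, by rw [mul_assoc]; exact mul_le_mul_right h1 h⟩

theorem ple_mul_iff {P : Subgroup H} {a b : H} (h : H) : ple P (h * a) (h * b) ↔ ple P a b := by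
  refine ⟨fun h1 => ?_, ple_mul h⟩
  have := ple_mul h⁻¹ h1
  simpa using this

theorem ple_total {P : Subgroup H} (hP : IsCvx P)
    (hpr : ∀ a b : H, 1 ≤ a → 1 ≤ b → a ⊓ b = 1 → a ∈ P ∨ b ∈ P) (a b : H) :
    ple P a b ∨ ple P b a := by
  rcases hpr (b⁻¹ * a ⊔ 1) ((b⁻¹ * a)⁻¹ ⊔ 1) le_sup_right le_sup_right (pos_inf_neg _) with h | h
  · left
    refine ⟨_, h, ?_⟩
    calc a = b * (b⁻¹ * a) := by simp
      _ ≤ _ := mul_le_mul_right le_sup_left b
  · right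
    refine ⟨_, h, ?_⟩
    calc b = a * (b⁻¹ * a)⁻¹ := by simp
      _ ≤ _ := mul_le_mul_right le_sup_left a

/-- joins in the preorder -/
theorem ple_sup {P : Subgroup H} (hP : IsCvx P) {u v a : H} (h : ple P (u * a) (v * a)) :
    ple P ((u ⊔ v) * a) (v * a) ∧ ple P (v * a) ((u ⊔ v) * a) := by
  obtain ⟨p, hp, h1⟩ := h
  constructor
  · refine ⟨p ⊔ 1, hP.sup p hp, ?_⟩
    rw [sup_mul]
    refine sup_le (h1.trans (mul_le_mul_right le_sup_left _)) ?_
    exact le_mul_of_one_le_right' le_sup_right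
  · exact ple_of_le P (mul_le_mul_left le_sup_right a)

/-- meets in the preorder -/
theorem ple_inf {P : Subgroup H} (hP : IsCvx P) {u v a : H} (h : ple P (u * a) (v * a)) :
    ple P ((u ⊓ v) * a) (u * a) ∧ ple P (u * a) ((u ⊓ v) * a) := by
  obtain ⟨p, hp, h1⟩ := h
  constructor
  · exact ple_of_le P (mul_le_mul_left inf_le_left a)
  · refine ⟨p ⊔ 1, hP.sup p hp, ?_⟩
    rw [inf_mul, inf_mul]
    refine le_inf ?_ (h1.trans (mul_le_mul_right le_sup_left _))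
    exact le_mul_of_one_le_right' le_sup_right

theorem not_mem_of_ple {P : Subgroup H} (hP : IsCvx P) {g : H} (h1 : ple P g 1)
    (h2 : ple P 1 g) : g ∈ P := by
  obtain ⟨p, hp, h1⟩ := h1
  obtain ⟨q, hq, h2⟩ := h2
  refine hP.cvx q⁻¹ p g (P.inv_mem hq) hp ?_ (by simpa using h1)
  have := mul_le_mul_left h2 q⁻¹
  simpa using this

end Pool.Agent.Helper967.LG
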