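import Mathlib
import Pool.Agent.Helper967.DxDPRM

set_option autoImplicit false

/-! Recursively enumerable sets as solvability of systems of additions and multiplications of
natural numbers. -/

namespace Pool.Agent.Helper967.LG

open Pool.Agent.Helper967.Dio

/-- atomic conditions on natural numbers -/
inductive Atom (V : Type) : Type
  | cst : V → ℕ → Atom V
  | add : V → V → V → Atom V
  | mul : V → V → V → V → Atom V

/-- `mul a b s c` says `s = a + b` and `c = a * b` -/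
def Atom.Holds {V : Type} (x : V → ℕ) : Atom V → Prop
  | .cst a n => x a = n
  | .add a b s => x s = x a + x b
  | .mul a b s c => x s = x a + x b ∧ x c = x a * x b

def Atom.map {V W : Type} (f : V → W) : Atom V → Atom W
  | .cst a n => .cst (f a) n
  | .add a b s => .add (f a) (f b) (f s)
  | .mul a b s c => .mul (f a) (f b) (f s) (f c)

theorem Atom.holds_map {V W : Type} (f : V → W) (q : Atom V) (x : W → ℕ) :
    (q.map f).Holds x ↔ q.Holds (x ∘ f) := by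
  cases q <;> exact Iff.rfl

/-- straight line program for a polynomial -/
def NProg {γ : Type} (p : Poly γ) : Prop :=
  ∃ (β : Type) (_ : Fintype β) (L : List (Atom (γ ⊕ β))) (o o' : γ ⊕ β),
    (∀ x : γ ⊕ β → ℕ, (∀ q ∈ L, q.Holds x) → (x o : ℤ) - x o' = p (x ∘ Sum.inl)) ∧
    (∀ v : γ → ℕ, ∃ y : β → ℕ, ∀ q ∈ L, q.Holds (Sum.elim v y))

def jn1 {γ β₁ β₂ δ : Type} : γ ⊕ β₁ → γ ⊕ (β₁ ⊕ β₂ ⊕ δ) := Sum.map id Sum.inl
def jn2 {γ β₁ β₂ δ : Type} : γ ⊕ β₂ → γ ⊕ (β₁ ⊕ β₂ ⊕ δ) := Sum.map id (Sum.inr ∘ Sum.inl)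
def jn3 {γ β₁ β₂ δ : Type} : δ → γ ⊕ (β₁ ⊕ β₂ ⊕ δ) := fun d => Sum.inr (Sum.inr (Sum.inr d))

theorem comb {γ β₁ β₂ δ : Type} [Fintype β₁] [Fintype β₂] [Fintype δ]
    (L₁ : List (Atom (γ ⊕ β₁))) (L₂ : List (Atom (γ ⊕ β₂)))
    (L : List (Atom (γ ⊕ (β₁ ⊕ β₂ ⊕ δ)))) (o₁ o₁' : γ ⊕ β₁) (o₂ o₂' : γ ⊕ β₂)
    (o o' : γ ⊕ (β₁ ⊕ β₂ ⊕ δ)) (p1 p2 p : Poly γ)
    (s₁ : ∀ x : γ ⊕ β₁ → ℕ, (∀ q ∈ L₁, q.Holds x) → (x o₁ : ℤ) - x o₁' = p1 (x ∘ Sum.inl))
    (c₁ : ∀ v : γ → ℕ, ∃ y : β₁ → ℕ, ∀ q ∈ L₁, q.Holds (Sum.elim v y))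
    (s₂ : ∀ x : γ ⊕ β₂ → ℕ, (∀ q ∈ L₂, q.Holds x) → (x o₂ : ℤ) - x o₂' = p2 (x ∘ Sum.inl))
    (c₂ : ∀ v : γ → ℕ, ∃ y : β₂ → ℕ, ∀ q ∈ L₂, q.Holds (Sum.elim v y))
    (s : ∀ x : γ ⊕ (β₁ ⊕ β₂ ⊕ δ) → ℕ, (∀ q ∈ L, q.Holds x) →
      (x (jn1 o₁) : ℤ) - x (jn1 o₁') = p1 (x ∘ Sum.inl) →
      (x (jn2 o₂) : ℤ) - x (jn2 o₂') = p2 (x ∘ Sum.inl) → (x o : ℤ) - x o' = p (x ∘ Sum.inl))
    (c : ∀ (v : γ → ℕ) (y₁ : β₁ → ℕ) (y₂ : β₂ → ℕ), ∃ d : δ → ℕ, ∀ q ∈ L,
      q.Holds (Sum.elim v (Sum.elim y₁ (Sum.elim y₂ d)))) : NProg p := by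
  refine ⟨β₁ ⊕ β₂ ⊕ δ, inferInstance, L ++ (L₁.map (Atom.map jn1) ++ L₂.map (Atom.map jn2)),
    o, o', ?_, ?_⟩
  · intro x hx
    have h1 := s₁ (x ∘ jn1) fun q hq => by
      rw [← Atom.holds_map]
      exact hx _ (List.mem_append_right _ (List.mem_append_left _ (List.mem_map_of_mem hq)))
    have h2 := s₂ (x ∘ jn2) fun q hq => by
      rw [← Atom.holds_map]
      exact hx _ (List.mem_append_right _ (List.mem_append_right _ (List.mem_map_of_mem hq)))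
    exact s x (fun q hq => hx q (List.mem_append_left _ hq)) h1 h2
  · intro v
    obtain ⟨y₁, hy₁⟩ := c₁ v
    obtain ⟨y₂, hy₂⟩ := c₂ v
    obtain ⟨d, hd⟩ := c v y₁ y₂
    have e1 : (Sum.elim v (Sum.elim y₁ (Sum.elim y₂ d)) ∘
        (jn1 : γ ⊕ β₁ → γ ⊕ (β₁ ⊕ β₂ ⊕ δ))) = Sum.elim v y₁ := by
      funext g
      rcases g with g | g <;> rfl
    have e2 : (Sum.elim v (Sum.elim y₁ (Sum.elim y₂ d)) ∘
        (jn2 : γ ⊕ β₂ → γ ⊕ (β₁ ⊕ β₂ ⊕ δ))) = Sum.elim v y₂ := by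
      funext g
      rcases g with g | g <;> rfl
    refine ⟨Sum.elim y₁ (Sum.elim y₂ d), ?_⟩
    intro q hq
    rw [List.mem_append, List.mem_append, List.mem_map, List.mem_map] at hq
    rcases hq with hq | ⟨q, hq, rfl⟩ | ⟨q, hq, rfl⟩
    · exact hd q hq
    · rw [Atom.holds_map, e1]
      exact hy₁ q hq
    · rw [Atom.holds_map, e2]
      exact hy₂ q hq

theorem nprog_all {γ : Type} (p : Poly γ) : NProg p := by
  refine Poly.induction (C := NProg) ?_ ?_ ?_ ?_ p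
  · intro i
    refine ⟨Unit, inferInstance, [.cst (Sum.inr ()) 0], Sum.inl i, Sum.inr (), ?_, ?_⟩
    · intro x h
      have h1 : x (Sum.inr ()) = 0 := h _ (List.mem_singleton.2 rfl)
      rw [h1]
      simp only [Nat.cast_zero, sub_zero]
      rfl
    · intro v
      refine ⟨fun _ => 0, ?_⟩
      intro q hq
      rw [List.mem_singleton] at hq
      subst hq
      rfl
  · intro n
    refine ⟨Bool, inferInstance, [.cst (Sum.inr true) n.toNat, .cst (Sum.inr false) (-n).toNat],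
      Sum.inr true, Sum.inr false, ?_, ?_⟩
    · intro x h
      have h1 : x (Sum.inr true) = n.toNat := h (.cst (Sum.inr true) n.toNat) (by simp)
      have h2 : x (Sum.inr false) = (-n).toNat := h (.cst (Sum.inr false) (-n).toNat) (by simp)
      rw [h1, h2, Poly.const_apply]
      exact Int.toNat_sub_toNat_neg n
    · intro v
      refine ⟨fun b => if b then n.toNat else (-n).toNat, ?_⟩
      intro q hq
      simp only [List.mem_cons, List.not_mem_nil, or_false] at hq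
      rcases hq with rfl | rfl
      · simp [Atom.Holds]
      · simp [Atom.Holds]
  · rintro p1 p2 ⟨β₁, _, L₁, o₁, o₁', s₁, c₁⟩ ⟨β₂, _, L₂, o₂, o₂', s₂, c₂⟩
    refine comb (δ := Fin 2) L₁ L₂ [.add (jn1 o₁) (jn2 o₂') (jn3 0), .add (jn1 o₁') (jn2 o₂) (jn3 1)]
      o₁ o₁' o₂ o₂' (jn3 0) (jn3 1) p1 p2 _ s₁ c₁ s₂ c₂ ?_ ?_
    · intro x h h1 h2
      have e1 : x (jn3 0) = x (jn1 o₁) + x (jn2 o₂') :=
        h (.add (jn1 o₁) (jn2 o₂') (jn3 0)) (by simp)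
      have e2 : x (jn3 1) = x (jn1 o₁') + x (jn2 o₂) :=
        h (.add (jn1 o₁') (jn2 o₂) (jn3 1)) (by simp)
      rw [Poly.sub_apply, ← h1, ← h2, e1, e2]
      push_cast; ring
    · intro v y₁ y₂
      refine ⟨![Sum.elim v y₁ o₁ + Sum.elim v y₂ o₂', Sum.elim v y₁ o₁' + Sum.elim v y₂ o₂], ?_⟩
      intro q hq
      have e1 : ∀ (d : Fin 2 → ℕ) g, Sum.elim v (Sum.elim y₁ (Sum.elim y₂ d)) (jn1 g) =
          Sum.elim v y₁ g := by
        intro d g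
        rcases g with g | g <;> rfl
      have e2 : ∀ (d : Fin 2 → ℕ) g, Sum.elim v (Sum.elim y₁ (Sum.elim y₂ d)) (jn2 g) =
          Sum.elim v y₂ g := by
        intro d g
        rcases g with g | g <;> rfl
      simp only [List.mem_cons, List.not_mem_nil, or_false] at hq
      rcases hq with rfl | rfl
      · simp only [Atom.Holds, e1, e2]; rfl
      · simp only [Atom.Holds, e1, e2]; rfl
  · rintro p1 p2 ⟨β₁, _, L₁, o₁, o₁', s₁, c₁⟩ ⟨β₂, _, L₂, o₂, o₂', s₂, c₂⟩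
    refine comb (δ := Fin 10) L₁ L₂ [.mul (jn1 o₁) (jn2 o₂) (jn3 0) (jn3 1),
      .mul (jn1 o₁') (jn2 o₂') (jn3 2) (jn3 3), .mul (jn1 o₁) (jn2 o₂') (jn3 4) (jn3 5),
      .mul (jn1 o₁') (jn2 o₂) (jn3 6) (jn3 7), .add (jn3 1) (jn3 3) (jn3 8),
      .add (jn3 5) (jn3 7) (jn3 9)]
      o₁ o₁' o₂ o₂' (jn3 8) (jn3 9) p1 p2 _ s₁ c₁ s₂ c₂ ?_ ?_
    · intro x h h1 h2
      have e1 := (h (.mul (jn1 o₁) (jn2 o₂) (jn3 0) (jn3 1)) (by simp)).2
      have e2 := (h (.mul (jn1 o₁') (jn2 o₂') (jn3 2) (jn3 3)) (by simp)).2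
      have e3 := (h (.mul (jn1 o₁) (jn2 o₂') (jn3 4) (jn3 5)) (by simp)).2
      have e4 := (h (.mul (jn1 o₁') (jn2 o₂) (jn3 6) (jn3 7)) (by simp)).2
      have e5 : x (jn3 8) = x (jn3 1) + x (jn3 3) := h (.add (jn3 1) (jn3 3) (jn3 8)) (by simp)
      have e6 : x (jn3 9) = x (jn3 5) + x (jn3 7) := h (.add (jn3 5) (jn3 7) (jn3 9)) (by simp)
      rw [Poly.mul_apply, ← h1, ← h2, e5, e6, e1, e2, e3, e4]
      push_cast; ring
    · intro v y₁ y₂
      let a := Sum.elim v y₁ o₁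
      let a' := Sum.elim v y₁ o₁'
      let b := Sum.elim v y₂ o₂
      let b' := Sum.elim v y₂ o₂'
      refine ⟨![a + b, a * b, a' + b', a' * b', a + b', a * b', a' + b, a' * b,
        a * b + a' * b', a * b' + a' * b], ?_⟩
      intro q hq
      have e1 : ∀ (d : Fin 10 → ℕ) g, Sum.elim v (Sum.elim y₁ (Sum.elim y₂ d)) (jn1 g) =
          Sum.elim v y₁ g := by
        intro d g
        rcases g with g | g <;> rfl
      have e2 : ∀ (d : Fin 10 → ℕ) g, Sum.elim v (Sum.elim y₁ (Sum.elim y₂ d)) (jn2 g) =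
          Sum.elim v y₂ g := by
        intro d g
        rcases g with g | g <;> rfl
      simp only [List.mem_cons, List.not_mem_nil, or_false] at hq
      rcases hq with rfl | rfl | rfl | rfl | rfl | rfl
      · simp only [Atom.Holds, e1, e2]; exact ⟨rfl, rfl⟩
      · simp only [Atom.Holds, e1, e2]; exact ⟨rfl, rfl⟩
      · simp only [Atom.Holds, e1, e2]; exact ⟨rfl, rfl⟩
      · simp only [Atom.Holds, e1, e2]; exact ⟨rfl, rfl⟩
      · rfl
      · rfl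

/-- recursively enumerable sets by systems of atoms -/
theorem exists_atoms (S : ℕ → Prop) (hS : Dioph {v : Unit → ℕ | S (v ())}) :
    ∃ (V : Type) (_ : Fintype V) (f : V) (L : List (Atom V)), ∀ n : ℕ,
      S n ↔ ∃ x : V → ℕ, x f = n ∧ ∀ q ∈ L, q.Holds x := by
  obtain ⟨δ, _, p, hp⟩ := finite_dummies hS
  obtain ⟨β, _, L, o, o', sound, compl⟩ := nprog_all p
  refine ⟨(Unit ⊕ δ) ⊕ (β ⊕ Unit), inferInstance, Sum.inl (Sum.inl ()),
    .cst (Sum.inr (Sum.inr ())) 0 :: .add (Sum.map id Sum.inl o') (Sum.inr (Sum.inr ()))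
      (Sum.map id Sum.inl o) :: L.map (Atom.map (Sum.map id Sum.inl)), ?_⟩
  intro n
  constructor
  · intro hn
    obtain ⟨t, ht⟩ := (hp (fun _ => n)).1 hn
    let v : Unit ⊕ δ → ℕ := Sum.elim (fun _ => n) t
    obtain ⟨y, hy⟩ := compl v
    have h6 := sound (Sum.elim v y) hy
    have h7 : Sum.elim v y o = Sum.elim v y o' := by
      have h8 : p (Sum.elim v y ∘ Sum.inl) = 0 := ht
      rw [h8] at h6
      omega
    let X : (Unit ⊕ δ) ⊕ (β ⊕ Unit) → ℕ := Sum.elim v (Sum.elim y fun _ => 0)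
    have hX : X ∘ Sum.map id Sum.inl = Sum.elim v y := by
      funext g
      rcases g with g | g <;> rfl
    refine ⟨X, rfl, ?_⟩
    intro q hq
    rw [List.mem_cons, List.mem_cons, List.mem_map] at hq
    rcases hq with rfl | rfl | ⟨q, hq, rfl⟩
    · rfl
    · change (X ∘ Sum.map id Sum.inl) o = (X ∘ Sum.map id Sum.inl) o' + 0
      rw [hX, h7]; rfl
    · rw [Atom.holds_map, hX]
      exact hy q hq
  · rintro ⟨x, hx, hq⟩
    have h1 : x (Sum.inr (Sum.inr ())) = 0 := hq _ List.mem_cons_self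
    have h2 : x (Sum.map id Sum.inl o) = x (Sum.map id Sum.inl o') + x (Sum.inr (Sum.inr ())) :=
      hq _ (List.mem_cons_of_mem _ List.mem_cons_self)
    have h3 : ∀ q ∈ L, q.Holds (x ∘ Sum.map id Sum.inl) := by
      intro q hq'
      rw [← Atom.holds_map]
      exact hq _ (List.mem_cons_of_mem _ (List.mem_cons_of_mem _ (List.mem_map_of_mem hq')))
    have h4 := sound _ h3
    have h5 : ((x ∘ Sum.map id Sum.inl) o : ℤ) - ((x ∘ Sum.map id Sum.inl) o' : ℕ) = 0 := by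
      simp only [Function.comp]
      omega
    rw [h5] at h4
    refine (hp (fun _ => n)).2 ⟨fun d => x (Sum.inl (Sum.inr d)), ?_⟩
    rw [h4]
    congr 1
    funext g
    rcases g with g | g
    · exact hx.symm
    · rfl

end Pool.Agent.Helper967.LG
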