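import Mathlib

set_option autoImplicit false

/-! The lattice-ordered group of order automorphisms of the real line with finitely many affine
pieces. -/

namespace Pool.Agent.Helper967.LG

/-- order automorphisms of the real line whose graph is covered by finitely many lines -/
structure PL where
  toFun : ℝ → ℝ
  invFun : ℝ → ℝ
  left_inv : ∀ x, invFun (toFun x) = x
  right_inv : ∀ x, toFun (invFun x) = x
  mono : ∀ x y, x < y → toFun x < toFun y
  fin : ∃ A : Finset (ℝ × ℝ), (∀ p ∈ A, 0 < p.1) ∧ ∀ x, ∃ p ∈ A, toFun x = p.1 * x + p.2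

namespace PL

instance : CoeFun PL (fun _ => ℝ → ℝ) := ⟨PL.toFun⟩

theorem ext' {f g : PL} (h : ∀ x, f x = g x) : f = g := by
  have h1 : f.toFun = g.toFun := funext h
  have h2 : f.invFun = g.invFun := by
    funext x
    have h3 : f (g.invFun x) = x := by rw [h, g.right_inv]
    calc f.invFun x = f.invFun (f (g.invFun x)) := by rw [h3]
      _ = g.invFun x := f.left_inv _
  cases f; cases g
  simp only at h1 h2
  subst h1; subst h2
  rfl

theorem strictMono (f : PL) : StrictMono f := fun x y h => f.mono x y h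

theorem inj (f : PL) {x y : ℝ} (h : f x = f y) : x = y := f.strictMono.injective h

theorem lt_iff (f : PL) {x y : ℝ} : f x < f y ↔ x < y := f.strictMono.lt_iff_lt

theorem le_iff (f : PL) {x y : ℝ} : f x ≤ f y ↔ x ≤ y := f.strictMono.le_iff_le

theorem inv_mono (f : PL) (x y : ℝ) (h : x < y) : f.invFun x < f.invFun y := by
  rw [← f.lt_iff, f.right_inv, f.right_inv]; exact h

/-- identity -/
def one : PL := ⟨id, id, fun _ => rfl, fun _ => rfl, fun _ _ h => h,
  ⟨{(1, 0)}, by simp, fun x => ⟨(1, 0), by simp⟩⟩⟩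

/-- composition -/
noncomputable def mul (f g : PL) : PL where
  toFun x := f (g x)
  invFun x := g.invFun (f.invFun x)
  left_inv x := by simp [f.left_inv, g.left_inv]
  right_inv x := by simp [f.right_inv, g.right_inv]
  mono x y h := f.mono _ _ (g.mono _ _ h)
  fin := by
    obtain ⟨A, hA, hf⟩ := f.fin
    obtain ⟨B, hB, hg⟩ := g.fin
    refine ⟨(A ×ˢ B).image fun p => (p.1.1 * p.2.1, p.1.1 * p.2.2 + p.1.2), ?_, ?_⟩
    · intro p hp
      rw [Finset.mem_image] at hp
      obtain ⟨q, hq, rfl⟩ := hp
      rw [Finset.mem_product] at hq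
      exact mul_pos (hA _ hq.1) (hB _ hq.2)
    · intro x
      obtain ⟨q, hq, h1⟩ := hg x
      obtain ⟨p, hp, h2⟩ := hf (g x)
      refine ⟨_, Finset.mem_image_of_mem _ (Finset.mem_product.2 ⟨hp, hq⟩ : (p, q) ∈ _), ?_⟩
      simp only
      rw [h2, h1]; ring

/-- inverse -/
noncomputable def inv (f : PL) : PL where
  toFun := f.invFun
  invFun := f.toFun
  left_inv := f.right_inv
  right_inv := f.left_inv
  mono := f.inv_mono
  fin := by
    obtain ⟨A, hA, hf⟩ := f.fin
    refine ⟨A.image fun p => (p.1⁻¹, - p.1⁻¹ * p.2), ?_, ?_⟩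
    · intro p hp
      rw [Finset.mem_image] at hp
      obtain ⟨q, hq, rfl⟩ := hp
      exact inv_pos.2 (hA _ hq)
    · intro x
      obtain ⟨p, hp, h⟩ := hf (f.invFun x)
      refine ⟨_, Finset.mem_image_of_mem _ hp, ?_⟩
      rw [f.right_inv] at h
      have := (hA p hp).ne'
      simp only
      field_simp
      linarith

/-- join -/
noncomputable def sup (f g : PL) : PL where
  toFun x := max (f x) (g x)
  invFun x := min (f.invFun x) (g.invFun x)
  left_inv x := by
    rcases le_total (f x) (g x) with h | h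
    · rw [max_eq_right h, g.left_inv]
      refine min_eq_right ?_
      rw [← f.le_iff, f.right_inv]; exact h
    · rw [max_eq_left h, f.left_inv]
      refine min_eq_left ?_
      rw [← g.le_iff, g.right_inv]; exact h
  right_inv x := by
    rcases le_total (f.invFun x) (g.invFun x) with h | h
    · rw [min_eq_left h, f.right_inv]
      refine max_eq_left ?_
      rw [← g.le_iff, g.right_inv x] at h; exact h
    · rw [min_eq_right h, g.right_inv]
      refine max_eq_right ?_
      rw [← f.le_iff, f.right_inv x] at h; exact h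
  mono x y h := max_lt_max (f.mono _ _ h) (g.mono _ _ h)
  fin := by
    classical
    obtain ⟨A, hA, hf⟩ := f.fin
    obtain ⟨B, hB, hg⟩ := g.fin
    refine ⟨A ∪ B, ?_, ?_⟩
    · intro p hp
      rcases Finset.mem_union.1 hp with h | h
      · exact hA _ h
      · exact hB _ h
    · intro x
      rcases le_total (f x) (g x) with h | h
      · rw [max_eq_right h]
        obtain ⟨p, hp, h1⟩ := hg x
        exact ⟨p, Finset.mem_union_right _ hp, h1⟩
      · rw [max_eq_left h]
        obtain ⟨p, hp, h1⟩ := hf x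
        exact ⟨p, Finset.mem_union_left _ hp, h1⟩

/-- meet -/
noncomputable def inf (f g : PL) : PL where
  toFun x := min (f x) (g x)
  invFun x := max (f.invFun x) (g.invFun x)
  left_inv x := by
    rcases le_total (f x) (g x) with h | h
    · rw [min_eq_left h, f.left_inv]
      refine max_eq_left ?_
      rw [← g.le_iff, g.right_inv]; exact h
    · rw [min_eq_right h, g.left_inv]
      refine max_eq_right ?_
      rw [← f.le_iff, f.right_inv]; exact h
  right_inv x := by
    rcases le_total (f.invFun x) (g.invFun x) with h | h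
    · rw [max_eq_right h, g.right_inv]
      refine min_eq_right ?_
      rw [← f.le_iff, f.right_inv x] at h; exact h
    · rw [max_eq_left h, f.right_inv]
      refine min_eq_left ?_
      rw [← g.le_iff, g.right_inv x] at h; exact h
  mono x y h := min_lt_min (f.mono _ _ h) (g.mono _ _ h)
  fin := by
    classical
    obtain ⟨A, hA, hf⟩ := f.fin
    obtain ⟨B, hB, hg⟩ := g.fin
    refine ⟨A ∪ B, ?_, ?_⟩
    · intro p hp
      rcases Finset.mem_union.1 hp with h | h
      · exact hA _ h
      · exact hB _ h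
    · intro x
      rcases le_total (f x) (g x) with h | h
      · rw [min_eq_left h]
        obtain ⟨p, hp, h1⟩ := hf x
        exact ⟨p, Finset.mem_union_left _ hp, h1⟩
      · rw [min_eq_right h]
        obtain ⟨p, hp, h1⟩ := hg x
        exact ⟨p, Finset.mem_union_right _ hp, h1⟩

noncomputable instance : Group PL where
  mul := mul
  one := one
  inv := inv
  mul_assoc _ _ _ := ext' fun _ => rfl
  one_mul _ := ext' fun _ => rfl
  mul_one _ := ext' fun _ => rfl
  inv_mul_cancel f := ext' fun x => f.left_inv x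

noncomputable instance : Max PL := ⟨sup⟩
noncomputable instance : Min PL := ⟨inf⟩
instance : LE PL := ⟨fun f g => f.toFun ≤ g.toFun⟩
instance : LT PL := ⟨fun f g => f.toFun < g.toFun⟩

theorem toFun_injective : Function.Injective (fun f : PL => f.toFun) := fun f g h =>
  ext' fun x => congrFun h x

noncomputable instance : Lattice PL :=
  toFun_injective.lattice _ Iff.rfl Iff.rfl (fun _ _ => rfl) (fun _ _ => rfl)

@[simp] theorem one_apply (x : ℝ) : (1 : PL) x = x := rfl
@[simp] theorem mul_apply (f g : PL) (x : ℝ) : (f * g) x = f (g x) := rfl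
@[simp] theorem sup_apply (f g : PL) (x : ℝ) : (f ⊔ g) x = max (f x) (g x) := rfl
@[simp] theorem inf_apply (f g : PL) (x : ℝ) : (f ⊓ g) x = min (f x) (g x) := rfl
@[simp] theorem inv_mul_apply (f : PL) (x : ℝ) : f⁻¹ (f x) = x := f.left_inv x
@[simp] theorem mul_inv_apply (f : PL) (x : ℝ) : f (f⁻¹ x) = x := f.right_inv x
theorem le_def {f g : PL} : f ≤ g ↔ ∀ x, f x ≤ g x := Iff.rfl

instance : MulLeftMono PL := ⟨fun f g h hgh x => (f.le_iff).2 (hgh x)⟩
instance : MulRightMono PL := ⟨fun f g h hgh x => hgh (f x)⟩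

/-- affine maps -/
noncomputable def affine (a b : ℝ) (ha : 0 < a) : PL where
  toFun x := a * x + b
  invFun x := (x - b) / a
  left_inv x := by field_simp; ring
  right_inv x := by field_simp; ring
  mono x y h := by nlinarith
  fin := ⟨{(a, b)}, by simpa using ha, fun x => ⟨(a, b), by simp⟩⟩

/-- an affine map through two points -/
theorem exists_affine (x y x' y' : ℝ) (h1 : x < x' → y < y') (h2 : x' < x → y' < y)
    (h3 : x = x' → y = y') : ∃ f : PL, f x = y ∧ f x' = y' := by
  rcases lt_trichotomy x x' with h | h | h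
  · have hy := h1 h
    have h4 : 0 < (y' - y) / (x' - x) := div_pos (by linarith) (by linarith)
    refine ⟨affine ((y' - y) / (x' - x)) (y - (y' - y) / (x' - x) * x) h4, ?_, ?_⟩
    · change (y' - y) / (x' - x) * x + (y - (y' - y) / (x' - x) * x) = y
      ring
    · change (y' - y) / (x' - x) * x' + (y - (y' - y) / (x' - x) * x) = y'
      have : x' - x ≠ 0 := by linarith
      field_simp
      ring
  · refine ⟨affine 1 (y - x) one_pos, ?_, ?_⟩
    · change 1 * x + (y - x) = y
      ring
    · change 1 * x' + (y - x) = y'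
      rw [← h3 h, ← h]
      ring
  · have hy := h2 h
    have h4 : 0 < (y' - y) / (x' - x) := div_pos_of_neg_of_neg (by linarith) (by linarith)
    refine ⟨affine ((y' - y) / (x' - x)) (y - (y' - y) / (x' - x) * x) h4, ?_, ?_⟩
    · change (y' - y) / (x' - x) * x + (y - (y' - y) / (x' - x) * x) = y
      ring
    · change (y' - y) / (x' - x) * x' + (y - (y' - y) / (x' - x) * x) = y'
      have : x' - x ≠ 0 := by intro h5; linarith
      field_simp
      ring

/-- interpolation of a finite strictly increasing relation -/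
theorem interpolate {ι : Type*} (s : Finset ι) (X Y : ι → ℝ)
    (h1 : ∀ i ∈ s, ∀ j ∈ s, X i < X j → Y i < Y j)
    (h2 : ∀ i ∈ s, ∀ j ∈ s, X i = X j → Y i = Y j) :
    ∃ f : PL, ∀ i ∈ s, f (X i) = Y i := by
  classical
  rcases s.eq_empty_or_nonempty with rfl | hs
  · exact ⟨1, by simp⟩
  have hex : ∀ i j : ι, ∃ f : PL, i ∈ s → j ∈ s → f (X i) = Y i ∧ f (X j) = Y j := by
    intro i j
    by_cases hi : i ∈ s
    · by_cases hj : j ∈ s
      · obtain ⟨f, hf⟩ := exists_affine (X i) (Y i) (X j) (Y j) (h1 i hi j hj) (h1 j hj i hi)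
          (h2 i hi j hj)
        exact ⟨f, fun _ _ => hf⟩
      · exact ⟨1, fun _ h => absurd h hj⟩
    · exact ⟨1, fun h => absurd h hi⟩
  choose F hF using hex
  have evs : ∀ (G : ι → PL) (x : ℝ), (s.sup' hs G) x = s.sup' hs (fun i => G i x) := fun G x =>
    Finset.apply_sup'_eq_sup'_comp hs (fun f : PL => f x) (fun _ _ => rfl)
  have evi : ∀ (G : ι → PL) (x : ℝ), (s.inf' hs G) x = s.inf' hs (fun i => G i x) := fun G x =>
    Finset.apply_inf'_eq_inf'_comp hs (fun f : PL => f x) (fun _ _ => rfl)
  refine ⟨s.sup' hs fun i => s.inf' hs fun j => F i j, ?_⟩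
  intro l hl
  rw [evs]
  simp only [evi]
  apply le_antisymm
  · refine Finset.sup'_le _ _ fun i hi => ?_
    calc s.inf' hs (fun j => F i j (X l)) ≤ F i l (X l) := Finset.inf'_le _ hl
      _ = Y l := (hF i l hi hl).2
  · calc Y l ≤ s.inf' hs (fun j => F l j (X l)) :=
        Finset.le_inf' _ _ fun j hj => ((hF l j hl hj).1).ge
      _ ≤ _ := Finset.le_sup' (f := fun i => s.inf' hs (fun j => F i j (X l))) hl

/-- finiteness of the number of bumps -/
theorem finite_bumps (f : PL) (p : ℕ → ℝ) (h1 : ∀ k, p k < f (p k))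
    (h2 : ∀ k m, (f ^ m) (p k) < p (k + 1)) : False := by
  obtain ⟨A, hA, hf⟩ := f.fin
  let y : ℕ → ℕ → ℝ := fun k m => (f ^ m) (p k)
  have hy : ∀ k m, y k (m + 1) = f (y k m) := by
    intro k m
    change (f ^ (m + 1)) (p k) = f ((f ^ m) (p k))
    rw [pow_succ']; rfl
  have hlt : ∀ k m, y k m < y k (m + 1) := by
    intro k m
    induction m with
    | zero => rw [hy]; change (f ^ 0) (p k) < f ((f ^ 0) (p k)); simpa using h1 k
    | succ m ih => rw [hy k (m + 1), hy k m]; exact (f.lt_iff).2 (by rwa [hy] at ih)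
  have hmono : ∀ k, StrictMono (y k) := fun k => strictMono_nat_of_lt_succ (hlt k)
  have hb : ∀ k, BddAbove (Set.range (y k)) := fun k => ⟨p (k + 1), by
    rintro _ ⟨m, rfl⟩; exact (h2 k m).le⟩
  let s : ℕ → ℝ := fun k => ⨆ m, y k m
  have hs : ∀ k, Filter.Tendsto (y k) Filter.atTop (nhds (s k)) := fun k =>
    tendsto_atTop_ciSup (hmono k).monotone (hb k)
  have hs1 : ∀ k, s k ≤ p (k + 1) := fun k => ciSup_le fun m => (h2 k m).le
  have hs2 : ∀ k, p k < s k := by
    intro k
    have h3 : y k 1 ≤ s k := le_ciSup (hb k) 1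
    have h4 : y k 0 < y k 1 := hlt k 0
    have h5 : y k 0 = p k := by change (f ^ 0) (p k) = _; simp
    linarith
  have hsm : StrictMono s := strictMono_nat_of_lt_succ fun k => (hs1 k).trans_lt (hs2 (k + 1))
  have key : ∀ k, ∃ q ∈ A, s k = q.2 / (1 - q.1) := by
    intro k
    have h3 : ∃ q ∈ A, ∃ᶠ m in Filter.atTop, y k (m + 1) = q.1 * y k m + q.2 := by
      by_contra hcon
      push Not at hcon
      have h4 : ∀ᶠ m in Filter.atTop, ∀ q ∈ A, ¬ y k (m + 1) = q.1 * y k m + q.2 := by
        rw [Filter.eventually_all_finset]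
        intro q hq
        exact hcon q hq
      obtain ⟨m, hm⟩ := h4.exists
      obtain ⟨q, hq, h5⟩ := hf (y k m)
      exact hm q hq (by rw [hy]; exact h5)
    obtain ⟨q, hq, h3⟩ := h3
    have h4 : s k = q.1 * s k + q.2 := by
      by_contra hne
      have h5 : Filter.Tendsto (fun m => y k (m + 1) - (q.1 * y k m + q.2)) Filter.atTop
          (nhds (s k - (q.1 * s k + q.2))) :=
        ((hs k).comp (Filter.tendsto_add_atTop_nat 1)).sub (((hs k).const_mul _).add_const _)
      have h6 := h5.eventually_ne (sub_ne_zero.2 hne : s k - (q.1 * s k + q.2) ≠ 0)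
      obtain ⟨m, hm1, hm2⟩ := (h3.and_eventually h6).exists
      exact hm2 (sub_eq_zero.2 hm1)
    have h5 : q.1 ≠ 1 := by
      intro h6
      obtain ⟨m, hm⟩ := h3.exists
      rw [h6] at h4 hm
      have := hlt k m
      linarith
    refine ⟨q, hq, ?_⟩
    have : 1 - q.1 ≠ 0 := sub_ne_zero.2 (Ne.symm h5)
    field_simp
    linarith
  have hinf : (Set.range s).Infinite := Set.infinite_range_of_injective hsm.injective
  apply hinf
  refine (A.image fun q => q.2 / (1 - q.1)).finite_toSet.subset ?_
  rintro _ ⟨k, rfl⟩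
  obtain ⟨q, hq, h⟩ := key k
  rw [Finset.coe_image]
  exact ⟨q, hq, h.symm⟩

end PL

end Pool.Agent.Helper967.LG
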