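import Mathlib
import Pool.Agent.Helper967.LG1
import Pool.Agent.Helper967.LG2

set_option autoImplicit false

/-! Lattice-ordered group terms, and the reduction of identities to the piecewise linear group. -/

namespace Pool.Agent.Helper967.LG

/-- terms of lattice-ordered groups -/
inductive Tm (V : Type) : Type
  | var : V → Tm V
  | one : Tm V
  | mul : Tm V → Tm V → Tm V
  | inv : Tm V → Tm V
  | sup : Tm V → Tm V → Tm V
  | inf : Tm V → Tm V → Tm V

/-- value of a term -/
def Tm.ev {V : Type} {H : Type*} [Group H] [Lattice H] (f : V → H) : Tm V → H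
  | .var i => f i
  | .one => 1
  | .mul s t => s.ev f * t.ev f
  | .inv s => (s.ev f)⁻¹
  | .sup s t => s.ev f ⊔ t.ev f
  | .inf s t => s.ev f ⊓ t.ev f

section
variable {V : Type} {H : Type*} [Group H] [Lattice H] [MulLeftMono H] [MulRightMono H]

/-- points needed for the evaluation of a term at a point -/
def pts (h : V → H) : Tm V → H → List H
  | .var i, a => [a, h i * a]
  | .one, a => [a]
  | .mul s t, a => pts h t a ++ pts h s (t.ev h * a)
  | .inv s, a => pts h s ((s.ev h)⁻¹ * a)
  | .sup s t, a => pts h s a ++ pts h t a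
  | .inf s t, a => pts h s a ++ pts h t a

open Classical in
/-- rank of an element -/
noncomputable def rk (P : Subgroup H) (S : Finset H) (a : H) : ℝ :=
  ((S.filter fun b => ple P b a).card : ℝ)

theorem rk_mono {P : Subgroup H} (S : Finset H) {a b : H} (h : ple P a b) :
    rk P S a ≤ rk P S b := by
  classical
  unfold rk
  rw [Nat.cast_le]
  refine Finset.card_le_card ?_
  intro c hc
  rw [Finset.mem_filter] at *
  exact ⟨hc.1, ple_trans hc.2 h⟩

theorem rk_lt {P : Subgroup H} (hP : IsCvx P)
    (hpr : ∀ a b : H, 1 ≤ a → 1 ≤ b → a ⊓ b = 1 → a ∈ P ∨ b ∈ P) (S : Finset H) {a b : H}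
    (hb : b ∈ S) (h : ¬ ple P b a) : rk P S a < rk P S b := by
  classical
  have hab : ple P a b := (ple_total hP hpr a b).resolve_right h
  unfold rk
  rw [Nat.cast_lt]
  refine Finset.card_lt_card ?_
  refine ⟨?_, ?_⟩
  · intro c hc
    have hc' := Finset.mem_filter.1 hc
    exact Finset.mem_filter.2 ⟨hc'.1, ple_trans hc'.2 hab⟩
  · intro hsub
    have : b ∈ S.filter fun c => ple P c a := hsub (Finset.mem_filter.2 ⟨hb, ple_refl P b⟩)
    exact h (Finset.mem_filter.1 this).2

theorem ev_rk {P : Subgroup H} (hP : IsCvx P)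
    (hpr : ∀ a b : H, 1 ≤ a → 1 ≤ b → a ⊓ b = 1 → a ∈ P ∨ b ∈ P) (S : Finset H)
    (h : V → H) (f : V → PL)
    (hf : ∀ i a, a ∈ S → h i * a ∈ S → f i (rk P S a) = rk P S (h i * a)) :
    ∀ (t : Tm V) (a : H), (∀ b ∈ pts h t a, b ∈ S) →
      (t.ev f) (rk P S a) = rk P S (t.ev h * a) := by
  intro t
  induction t with
  | var i =>
    intro a hS
    exact hf i a (hS a (by simp [pts])) (hS _ (by simp [pts]))
  | one => intro a _; simp [Tm.ev]
  | mul s t ihs iht =>
    intro a hS
    have h1 := iht a fun b hb => hS b (List.mem_append_left _ hb)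
    have h2 := ihs (t.ev h * a) fun b hb => hS b (List.mem_append_right _ hb)
    change (s.ev f) ((t.ev f) (rk P S a)) = rk P S (s.ev h * t.ev h * a)
    rw [h1, h2, mul_assoc]
  | inv s ih =>
    intro a hS
    have h1 := ih ((s.ev h)⁻¹ * a) hS
    rw [mul_inv_cancel_left] at h1
    change ((s.ev f)⁻¹ : PL) (rk P S a) = rk P S ((s.ev h)⁻¹ * a)
    rw [← h1, PL.inv_mul_apply]
  | sup s t ihs iht =>
    intro a hS
    have h1 := ihs a fun b hb => hS b (List.mem_append_left _ hb)
    have h2 := iht a fun b hb => hS b (List.mem_append_right _ hb)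
    change max ((s.ev f) (rk P S a)) ((t.ev f) (rk P S a)) = rk P S ((s.ev h ⊔ t.ev h) * a)
    rw [h1, h2]
    rcases ple_total hP hpr (s.ev h * a) (t.ev h * a) with h3 | h3
    · rw [max_eq_right (rk_mono S h3)]
      have h4 := ple_sup hP h3
      exact le_antisymm (rk_mono S h4.2) (rk_mono S h4.1)
    · rw [max_eq_left (rk_mono S h3), sup_comm]
      have h4 := ple_sup hP h3
      exact le_antisymm (rk_mono S h4.2) (rk_mono S h4.1)
  | inf s t ihs iht =>
    intro a hS
    have h1 := ihs a fun b hb => hS b (List.mem_append_left _ hb)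
    have h2 := iht a fun b hb => hS b (List.mem_append_right _ hb)
    change min ((s.ev f) (rk P S a)) ((t.ev f) (rk P S a)) = rk P S ((s.ev h ⊓ t.ev h) * a)
    rw [h1, h2]
    rcases ple_total hP hpr (s.ev h * a) (t.ev h * a) with h3 | h3
    · rw [min_eq_left (rk_mono S h3)]
      have h4 := ple_inf hP h3
      exact le_antisymm (rk_mono S h4.2) (rk_mono S h4.1)
    · rw [min_eq_right (rk_mono S h3), inf_comm]
      have h4 := ple_inf hP h3
      exact le_antisymm (rk_mono S h4.2) (rk_mono S h4.1)

/-- an identity which holds in the piecewise linear group holds in all lattice-ordered groups -/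
theorem transfer (t : Tm V) (ht : ∀ f : V → PL, t.ev f = 1) (h : V → H) : t.ev h = 1 := by
  classical
  by_contra hne
  obtain ⟨P, hP, hg, hpr⟩ := exists_prime (t.ev h) hne
  let S : Finset H := (pts h t 1).toFinset ∪ {1, t.ev h}
  have hex : ∀ i, ∃ f : PL, ∀ a ∈ S.filter fun a => h i * a ∈ S,
      f (rk P S a) = rk P S (h i * a) := by
    intro i
    refine PL.interpolate _ _ _ ?_ ?_
    · intro a ha b hb hlt
      rw [Finset.mem_filter] at ha hb
      refine rk_lt hP hpr S hb.2 ?_
      rw [ple_mul_iff]
      intro hba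
      exact absurd (rk_mono S hba) (not_le.2 hlt)
    · intro a ha b hb heq
      rw [Finset.mem_filter] at ha hb
      have h1 : ple P a b := by
        by_contra hcon
        exact absurd (rk_lt hP hpr S ha.1 hcon) (by rw [heq]; exact lt_irrefl _)
      have h2 : ple P b a := by
        by_contra hcon
        exact absurd (rk_lt hP hpr S hb.1 hcon) (by rw [heq]; exact lt_irrefl _)
      exact le_antisymm (rk_mono S (ple_mul _ h1)) (rk_mono S (ple_mul _ h2))
  choose f hf using hex
  have h1 := ev_rk hP hpr S h f (fun i a ha hb => hf i a (Finset.mem_filter.2 ⟨ha, hb⟩)) t 1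
    (fun b hb => Finset.mem_union_left _ (List.mem_toFinset.2 hb))
  rw [ht f, PL.one_apply, mul_one] at h1
  have m1 : (1 : H) ∈ S := Finset.mem_union_right _ (by simp)
  have m2 : t.ev h ∈ S := Finset.mem_union_right _ (by simp)
  apply hg
  refine not_mem_of_ple hP ?_ ?_
  · by_contra hcon
    exact absurd (rk_lt hP hpr S m2 hcon) (by rw [h1]; exact lt_irrefl _)
  · by_contra hcon
    exact absurd (rk_lt hP hpr S m1 hcon) (by rw [h1]; exact lt_irrefl _)

end

end Pool.Agent.Helper967.LG
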