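import Mathlib
import Pool.Agent.Helper967.LG3

set_option autoImplicit false

/-! Levels: counting in the piecewise linear group. -/

namespace Pool.Agent.Helper967.LG

/-- the base configuration -/
structure Base (x z : PL) (r : ℝ) : Prop where
  hx : 1 ≤ x
  hz : 1 ≤ z
  hzx : z ⊓ (x * z * x⁻¹) = 1
  hr : r < z r
  hmax : ∀ y, y < z y → ∃ m : ℕ, y ≤ (z ^ m) r

theorem exists_base {x z : PL} (hx : 1 ≤ x) (hz : 1 ≤ z) (hzx : z ⊓ (x * z * x⁻¹) = 1)
    (hz1 : z ≠ 1) : ∃ r, Base x z r := by
  by_contra hcon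
  have h1 : ∃ r, r < z r := by
    by_contra h
    push Not at h
    exact hz1 (PL.ext' fun y => le_antisymm (h y) (hz y))
  have h2 : ∀ r : {y : ℝ // y < z y}, ∃ r' : {y : ℝ // y < z y}, ∀ m : ℕ, (z ^ m) r.1 < r'.1 := by
    rintro ⟨r, hr⟩
    by_contra h
    push Not at h
    exact hcon ⟨r, hx, hz, hzx, hr, fun y hy => h ⟨y, hy⟩⟩
  choose g hg using h2
  obtain ⟨r0, hr0⟩ := h1
  let p : ℕ → {y : ℝ // y < z y} := fun k => g^[k] ⟨r0, hr0⟩
  refine PL.finite_bumps z (fun k => (p k).1) (fun k => (p k).2) (fun k m => ?_)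
  have : p (k + 1) = g (p k) := Function.iterate_succ_apply' g k _
  rw [this]
  exact hg _ m

/-- the reference points -/
noncomputable def pt (x z : PL) (r : ℝ) (k : ℕ) (m : ℤ) : ℝ := (x ^ k) ((z ^ m) r)

section
variable {x z : PL} {r : ℝ}

theorem orb_strictMono (B : Base x z r) : StrictMono fun m : ℤ => (z ^ m) r := by
  refine strictMono_int_of_lt_succ fun m => ?_
  rw [zpow_add_one]
  exact (z ^ m).strictMono B.hr

theorem pt_strictMono (B : Base x z r) (k : ℕ) : StrictMono (pt x z r k) := fun _ _ h =>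
  (x ^ k).strictMono (orb_strictMono B h)

theorem pt_inj (B : Base x z r) {k : ℕ} {m m' : ℤ} (h : pt x z r k m = pt x z r k m') : m = m' :=
  (pt_strictMono B k).injective h

theorem one_le_apply {f : PL} (h : 1 ≤ f) (y : ℝ) : y ≤ f y := h y

/-- two disjoint elements: if one moves a point, the other fixes it -/
theorem fix_of_orth {f g : PL} (hg : 1 ≤ g) (h : f ⊓ g = 1) {y : ℝ} (hy : g y ≠ y) :
    f y = y := by
  have h1 : min (f y) (g y) = y := by
    have := congrArg (fun k : PL => k y) h
    simpa using this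
  have h2 : y < g y := lt_of_le_of_ne (hg y) (Ne.symm hy)
  rcases min_choice (f y) (g y) with h3 | h3
  · rw [h3] at h1; exact h1
  · rw [h3] at h1; exact absurd h1 h2.ne'

theorem x_jump (B : Base x z r) (m m' : ℤ) : (z ^ m') r < x ((z ^ m) r) := by
  have h1 : (z ^ m) r < z ((z ^ m) r) := by
    have := orb_strictMono B (lt_add_one m)
    simp only at this
    rwa [add_comm, zpow_one_add] at this
  have h2 : z (x ((z ^ m) r)) = x ((z ^ m) r) := by
    refine fix_of_orth (f := z) (g := x * z * x⁻¹) ?_ B.hzx ?_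
    · intro y
      change y ≤ x (z (x⁻¹ y))
      calc y = x (x⁻¹ y) := (x.mul_inv_apply y).symm
        _ ≤ _ := (x.le_iff).2 (B.hz _)
    · change x (z (x⁻¹ (x ((z ^ m) r)))) ≠ _
      rw [PL.inv_mul_apply]
      exact ((x.lt_iff).2 h1).ne'
  have h3 : ∀ j : ℤ, (z ^ j) (x ((z ^ m) r)) = x ((z ^ m) r) := by
    intro j
    induction j using Int.induction_on with
    | zero => simp
    | succ n ih =>
      rw [zpow_add_one]
      change (z ^ (n : ℤ)) (z (x ((z ^ m) r))) = _
      rw [h2, ih]
    | pred n ih =>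
      rw [zpow_sub_one]
      change (z ^ (-(n : ℤ))) (z⁻¹ (x ((z ^ m) r))) = _
      have : z⁻¹ (x ((z ^ m) r)) = x ((z ^ m) r) := by
        conv_lhs => rw [← h2]
        exact z.inv_mul_apply _
      rw [this, ih]
  calc (z ^ m') r < (z ^ (m' + 1)) r := orb_strictMono B (lt_add_one m')
    _ = (z ^ (m' + 1 - m)) ((z ^ m) r) := by
      change _ = ((z ^ (m' + 1 - m)) * (z ^ m)) r
      rw [← zpow_add]; congr 2; ring
    _ ≤ (z ^ (m' + 1 - m)) (x ((z ^ m) r)) := ((z ^ (m' + 1 - m)).le_iff).2 (B.hx _)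
    _ = _ := h3 _

theorem pt_succ (k : ℕ) (m : ℤ) : pt x z r (k + 1) m = x (pt x z r k m) := by
  change (x ^ (k + 1)) _ = x ((x ^ k) _)
  rw [pow_succ']; rfl

theorem pt_jump (B : Base x z r) (k : ℕ) (m m' : ℤ) : pt x z r k m < pt x z r (k + 1) m' := by
  change (x ^ k) _ < (x ^ (k + 1)) _
  rw [pow_succ]
  exact (x ^ k).strictMono (x_jump B m' m)

theorem pt_ge (B : Base x z r) (k : ℕ) (m m' : ℤ) : (z ^ m) r < pt x z r (k + 1) m' := by
  induction k generalizing m' with
  | zero => simpa [pt] using x_jump B m' m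
  | succ k ih => exact (ih 0).trans (pt_jump B _ _ _)

/-- `f` acts as the `c`-th power of the bump at level `k` -/
def Lev (x z : PL) (r : ℝ) (f : PL) (k : ℕ) (c : ℤ) : Prop :=
  ∀ m : ℤ, f (pt x z r k m) = pt x z r k (m + c)

theorem lev_z_zero : Lev x z r z 0 1 := by
  intro m
  simp only [pt, pow_zero, PL.one_apply]
  rw [add_comm, zpow_one_add]; rfl

theorem lev_z_succ (B : Base x z r) (k : ℕ) : Lev x z r z (k + 1) 0 := by
  intro m
  rw [add_zero]
  by_contra hne
  have h1 : pt x z r (k + 1) m < z (pt x z r (k + 1) m) :=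
    lt_of_le_of_ne (B.hz _) (Ne.symm hne)
  obtain ⟨j, hj⟩ := B.hmax _ h1
  have := pt_ge B k j m
  rw [zpow_natCast] at this
  exact absurd hj (not_le.2 this)

theorem Lev.mul {f g : PL} {k : ℕ} {c d : ℤ} (h1 : Lev x z r f k c) (h2 : Lev x z r g k d) :
    Lev x z r (f * g) k (c + d) := by
  intro m
  change f (g _) = _
  rw [h2, h1]; congr 1; ring

theorem lev_one (k : ℕ) : Lev x z r 1 k 0 := by
  intro m; simp

theorem Lev.inv {f : PL} {k : ℕ} {c : ℤ} (h1 : Lev x z r f k c) : Lev x z r f⁻¹ k (-c) := by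
  intro m
  have h2 : f (pt x z r k (m + -c)) = pt x z r k m := by rw [h1]; congr 1; ring
  rw [← h2, PL.inv_mul_apply]

theorem Lev.unique (B : Base x z r) {f : PL} {k : ℕ} {c d : ℤ} (h1 : Lev x z r f k c)
    (h2 : Lev x z r f k d) : c = d := by
  have := (h1 0).symm.trans (h2 0)
  have := pt_inj B this
  omega

theorem Lev.conj {f : PL} {k : ℕ} {c : ℤ} (h1 : Lev x z r f k c) :
    Lev x z r (x * f * x⁻¹) (k + 1) c := by
  intro m
  rw [pt_succ, pt_succ]
  change x (f (x⁻¹ (x _))) = _
  rw [PL.inv_mul_apply, h1]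

theorem Lev.pow {f : PL} {k : ℕ} {c : ℤ} (h1 : Lev x z r f k c) (n : ℕ) :
    Lev x z r (f ^ n) k (n * c) := by
  induction n with
  | zero => simpa using lev_one k
  | succ n ih =>
    rw [pow_succ]
    have := ih.mul h1
    convert this using 1
    push_cast; ring

/-- an element acting by a conjugate of `x`-powers -/
theorem lev_conj_pow (B : Base x z r) {f : PL} {c : ℤ} (h : Lev x z r f 0 c) (n : ℕ) :
    Lev x z r (x ^ n * f * (x ^ n)⁻¹) n c := by
  induction n with
  | zero => simpa using h
  | succ n ih =>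
    have := ih.conj
    rw [pow_succ']
    convert this using 1
    group

theorem lev_of_pos {f g : PL} (hf : 1 ≤ f) (hg : 1 ≤ g) {k : ℕ}
    (h : Lev x z r (f * g) k 0) : Lev x z r f k 0 ∧ Lev x z r g k 0 := by
  have h1 : ∀ m, g (pt x z r k m) = pt x z r k m := by
    intro m
    apply le_antisymm _ (hg _)
    calc g (pt x z r k m) ≤ f (g (pt x z r k m)) := hf _
      _ = _ := by have := h m; rw [add_zero] at this; exact this
  constructor
  · intro m
    have := h m
    change f (g _) = _ at this
    rwa [h1] at this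
  · intro m
    rw [h1, add_zero]

theorem lev_of_orth (B : Base x z r) {f g : PL} (hg : 1 ≤ g) (h : f ⊓ g = 1) {k : ℕ}
    {c : ℤ} (hc : c ≠ 0) (h1 : Lev x z r g k c) : Lev x z r f k 0 := by
  intro m
  rw [add_zero]
  apply fix_of_orth hg h
  rw [h1]
  intro h2
  have := pt_inj B h2
  omega

/-- dichotomy for a disjoint product acting as one bump -/
theorem dichotomy (B : Base x z r) {f g : PL} (hf : 1 ≤ f) (hg : 1 ≤ g) (h : f ⊓ g = 1) {k : ℕ}
    (h1 : Lev x z r (f * g) k 1) :
    (Lev x z r f k 1 ∧ Lev x z r g k 0) ∨ (Lev x z r f k 0 ∧ Lev x z r g k 1) := by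
  have hc : f * g = g * f := by
    apply PL.ext'
    intro y
    change f (g y) = g (f y)
    have h2 : ∀ y, f y = y ∨ g y = y := fun y => by
      by_cases h3 : g y = y
      · exact Or.inr h3
      · exact Or.inl (fix_of_orth hg h h3)
    rcases h2 y with h3 | h3
    · rw [h3]
      rcases h2 (g y) with h4 | h4
      · exact h4
      · have h5 := g.inj h4
        rw [h5, h3]
    · rw [h3]
      rcases h2 (f y) with h4 | h4
      · have h5 := f.inj h4
        rw [h5, h3]
      · exact h4.symm
  have h2 : ∀ m, (f (pt x z r k m) = pt x z r k m ∧ g (pt x z r k m) = pt x z r k (m + 1)) ∨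
      (g (pt x z r k m) = pt x z r k m ∧ f (pt x z r k m) = pt x z r k (m + 1)) := by
    intro m
    by_cases h3 : g (pt x z r k m) = pt x z r k m
    · right
      refine ⟨h3, ?_⟩
      have := h1 m
      change f (g _) = _ at this
      rwa [h3] at this
    · left
      have h4 := fix_of_orth hg h h3
      refine ⟨h4, ?_⟩
      have := h1 m
      rw [hc] at this
      change g (f _) = _ at this
      rwa [h4] at this
  have ne : ∀ m, pt x z r k (m + 1) ≠ pt x z r k m := fun m h3 => by
    have := pt_inj B h3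
    omega
  -- propagate
  have h3 : ∀ m, (g (pt x z r k m) = pt x z r k m ↔
      g (pt x z r k (m + 1)) = pt x z r k (m + 1)) := by
    intro m
    constructor
    · intro h4
      have h5 : f (pt x z r k m) = pt x z r k (m + 1) := by
        rcases h2 m with h6 | h6
        · rw [h6.2] at h4; exact absurd h4 (ne m)
        · exact h6.2
      calc g (pt x z r k (m + 1)) = (g * f) (pt x z r k m) := by rw [← h5]; rfl
        _ = (f * g) (pt x z r k m) := by rw [hc]
        _ = f (g (pt x z r k m)) := rfl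
        _ = _ := by rw [h4, h5]
    · intro h4
      by_contra h5
      have h6 : f (pt x z r k m) = pt x z r k m ∧ g (pt x z r k m) = pt x z r k (m + 1) := by
        rcases h2 m with h6 | h6
        · exact h6
        · exact absurd h6.1 h5
      have h7 : f (pt x z r k (m + 1)) = pt x z r k (m + 1) := by
        calc f (pt x z r k (m + 1)) = (f * g) (pt x z r k m) := by rw [← h6.2]; rfl
          _ = (g * f) (pt x z r k m) := by rw [hc]
          _ = g (f (pt x z r k m)) := rfl
          _ = _ := by rw [h6.1, h6.2]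
      have h8 := h1 (m + 1)
      change f (g _) = _ at h8
      rw [h4, h7] at h8
      exact ne (m + 1) h8.symm
  have h4 : ∀ m, (g (pt x z r k m) = pt x z r k m ↔ g (pt x z r k 0) = pt x z r k 0) := by
    intro m
    induction m using Int.induction_on with
    | zero => rfl
    | succ n ih => rw [← h3]; exact ih
    | pred n ih =>
      rw [← ih]
      have := h3 (-(n : ℤ) - 1)
      rw [sub_add_cancel] at this
      exact this
  by_cases h5 : g (pt x z r k 0) = pt x z r k 0
  · left
    have h6 : ∀ m, g (pt x z r k m) = pt x z r k m := fun m => (h4 m).2 h5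
    refine ⟨fun m => ?_, fun m => by rw [h6, add_zero]⟩
    rcases h2 m with h7 | h7
    · exact absurd ((h6 m).symm.trans h7.2).symm (ne m)
    · exact h7.2
  · right
    have h6 : ∀ m, ¬ g (pt x z r k m) = pt x z r k m := fun m h7 => h5 ((h4 m).1 h7)
    refine ⟨fun m => ?_, fun m => ?_⟩
    · rcases h2 m with h7 | h7
      · rw [add_zero]; exact h7.1
      · exact absurd h7.1 (h6 m)
    · rcases h2 m with h7 | h7
      · exact h7.2
      · exact absurd h7.1 (h6 m)

/-- no element acts by the same nontrivial power at all large levels -/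
theorem no_tail (B : Base x z r) {f : PL} {c : ℤ} (hc : c ≠ 0) (K : ℕ)
    (h : ∀ k, K ≤ k → Lev x z r f k c) : False := by
  have main : ∀ (g : PL) (d : ℤ), 0 < d → (∀ k, K ≤ k → Lev x z r g k d) → False := by
    intro g d hd hg
    refine PL.finite_bumps g (fun k => pt x z r (K + k) 0) ?_ ?_
    · intro k
      rw [hg (K + k) (Nat.le_add_right _ _)]
      exact pt_strictMono B _ (by omega)
    · intro k m
      rw [(hg (K + k) (Nat.le_add_right _ _)).pow m]
      exact pt_jump B _ _ _
  rcases lt_or_gt_of_ne hc with h1 | h1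
  · exact main f⁻¹ (-c) (by omega) fun k hk => (h k hk).inv
  · exact main f c h1 h

end

end Pool.Agent.Helper967.LG
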