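import Mathlib
import Pool.Agent.Helper967.LG4

set_option autoImplicit false

/-! Numbers coded in lattice-ordered groups: soundness. -/

namespace Pool.Agent.Helper967.LG

/-- a coded natural number -/
structure NumBlk {G : Type*} [Group G] [Lattice G] (x z w h V U : G) : Prop where
  w1 : 1 ≤ w
  h1 : 1 ≤ h
  wh : w ⊓ h = 1
  wz : (x * w * x⁻¹) ⊓ z = 1
  weq : x * w * x⁻¹ * z = w * h
  V1 : 1 ≤ V
  U1 : 1 ≤ U
  Uw : U ⊓ w = 1
  Vh : V ⊓ h = 1
  Vz : (x * V * x⁻¹) ⊓ z = 1
  Veq : x * V * x⁻¹ * w = V * U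

/-- a coded equality of sums -/
structure CntEq {G : Type*} [Group G] [Lattice G] (x z X Y v u : G) : Prop where
  vz : (x * v * x⁻¹) ⊓ z = 1
  uz : (x * u * x⁻¹) ⊓ z = 1
  eq : x * (v * u⁻¹) * x⁻¹ * X = v * u⁻¹ * Y

section
variable {x z : PL} {r : ℝ}

theorem lev_of_mul_right (B : Base x z r) {f g : PL} {k : ℕ} {e c : ℤ}
    (h : Lev x z r (f * g) k e) (h1 : Lev x z r g k c) : Lev x z r f k (e - c) := by
  have := h.mul h1.inv
  rw [mul_inv_cancel_right] at this
  rwa [sub_eq_add_neg]

theorem lev_of_mul_left (B : Base x z r) {f g : PL} {k : ℕ} {e c : ℤ}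
    (h : Lev x z r (f * g) k e) (h1 : Lev x z r f k c) : Lev x z r g k (e - c) := by
  have := h1.inv.mul h
  rw [inv_mul_cancel_left] at this
  convert this using 1
  ring

/-- value of a coded number -/
def IsVal (x z : PL) (r : ℝ) (w h V : PL) (n : ℕ) : Prop :=
  (∀ k, Lev x z r w k (if k < n then 1 else 0)) ∧
  (∀ k, Lev x z r h k (if k = n then 1 else 0)) ∧
  (∀ k, Lev x z r V k (if k < n then (k : ℤ) + 1 else 0))

theorem exists_val (B : Base x z r) {w h V U : PL} (N : NumBlk x z w h V U) :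
    ∃ n, IsVal x z r w h V n := by
  classical
  have hw0 : Lev x z r (x * w * x⁻¹) 0 0 := lev_of_orth B B.hz N.wz one_ne_zero lev_z_zero
  have hV0 : Lev x z r (x * V * x⁻¹) 0 0 := lev_of_orth B B.hz N.Vz one_ne_zero lev_z_zero
  have h0 : Lev x z r (w * h) 0 1 := by
    rw [← N.weq]
    have := hw0.mul lev_z_zero
    simpa using this
  have hs : ∀ k c, Lev x z r w k c → Lev x z r (w * h) (k + 1) c := by
    intro k c hc
    rw [← N.weq]
    have := hc.conj.mul (lev_z_succ B k)
    simpa using this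
  -- the first level where `w` is not the bump
  have hex : ∃ n, ¬ Lev x z r w n 1 := by
    by_contra hcon
    push Not at hcon
    exact no_tail B one_ne_zero 0 fun k _ => hcon k
  let n := Nat.find hex
  have hn : ¬ Lev x z r w n 1 := Nat.find_spec hex
  have hlt : ∀ k, k < n → Lev x z r w k 1 := fun k hk => by
    by_contra h1
    exact Nat.find_min hex hk h1
  have hwh : ∀ k, k ≤ n → Lev x z r (w * h) k 1 := by
    intro k hk
    rcases k with _ | k
    · exact h0
    · exact hs k 1 (hlt k (by omega))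
  have hwn : Lev x z r w n 0 ∧ Lev x z r h n 1 :=
    (dichotomy B N.w1 N.h1 N.wh (hwh n le_rfl)).resolve_left fun h1 => hn h1.1
  have hhlt : ∀ k, k < n → Lev x z r h k 0 := by
    intro k hk
    rcases dichotomy B N.w1 N.h1 N.wh (hwh k hk.le) with h1 | h1
    · exact h1.2
    · exact absurd (h1.1.unique B (hlt k hk)) (by norm_num)
  have hgt : ∀ j, Lev x z r w (n + j + 1) 0 ∧ Lev x z r h (n + j + 1) 0 := by
    intro j
    induction j with
    | zero => exact lev_of_pos N.w1 N.h1 (hs n 0 hwn.1)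
    | succ j ih => exact lev_of_pos N.w1 N.h1 (hs _ 0 ih.1)
  have hw : ∀ k, Lev x z r w k (if k < n then 1 else 0) := by
    intro k
    rcases lt_trichotomy k n with h1 | h1 | h1
    · rw [if_pos h1]; exact hlt k h1
    · subst h1; rw [if_neg (lt_irrefl _)]; exact hwn.1
    · rw [if_neg (by omega)]
      obtain ⟨j, rfl⟩ := Nat.exists_eq_add_of_lt h1
      exact (hgt j).1
  have hh : ∀ k, Lev x z r h k (if k = n then 1 else 0) := by
    intro k
    rcases lt_trichotomy k n with h1 | h1 | h1
    · rw [if_neg h1.ne]; exact hhlt k h1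
    · subst h1; rw [if_pos rfl]; exact hwn.2
    · rw [if_neg (by omega)]
      obtain ⟨j, rfl⟩ := Nat.exists_eq_add_of_lt h1
      exact (hgt j).2
  have hV : ∀ k, Lev x z r V k (if k < n then (k : ℤ) + 1 else 0) := by
    intro k
    -- the value of `V * U`
    have hprev : Lev x z r (V * U) k ((if k < n then (k : ℤ) + 1 else if k = n then k else 0)) := by
      induction k with
      | zero =>
        rw [← N.Veq]
        have := hV0.mul (hw 0)
        convert this using 1
        by_cases h1 : 0 < n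
        · simp [h1]
        · rw [if_neg h1, if_neg h1]
          split_ifs <;> simp
      | succ k ih =>
        -- first find `V` at level `k`
        have hVk : Lev x z r V k (if k < n then (k : ℤ) + 1 else 0) := by
          rcases lt_trichotomy k n with h1 | h1 | h1
          · rw [if_pos h1] at ih ⊢
            have hU : Lev x z r U k 0 :=
              lev_of_orth B N.w1 N.Uw one_ne_zero (hlt k h1)
            have := lev_of_mul_right B ih hU
            simpa using this
          · rw [if_neg (by omega)]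
            subst h1
            exact lev_of_orth B N.h1 N.Vh one_ne_zero hwn.2
          · rw [if_neg (by omega), if_neg (by omega)] at ih
            rw [if_neg (by omega)]
            exact (lev_of_pos N.V1 N.U1 ih).1
        rw [← N.Veq]
        have := hVk.conj.mul (hw (k + 1))
        convert this using 1
        rcases lt_trichotomy (k + 1) n with h1 | h1 | h1
        · rw [if_pos h1, if_pos (by omega), if_pos h1]; push_cast; ring
        · rw [if_neg (by omega), if_pos h1, if_pos (by omega), if_neg (by omega)]; push_cast; ring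
        · rw [if_neg (by omega), if_neg (by omega), if_neg (by omega), if_neg (by omega)]; ring
    rcases lt_trichotomy k n with h1 | h1 | h1
    · rw [if_pos h1] at hprev ⊢
      have hU : Lev x z r U k 0 := lev_of_orth B N.w1 N.Uw one_ne_zero (hlt k h1)
      have := lev_of_mul_right B hprev hU
      simpa using this
    · rw [if_neg (by omega)]
      subst h1
      exact lev_of_orth B N.h1 N.Vh one_ne_zero hwn.2
    · rw [if_neg (by omega), if_neg (by omega)] at hprev
      rw [if_neg (by omega)]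
      exact (lev_of_pos N.V1 N.U1 hprev).1
  exact ⟨n, hw, hh, hV⟩

/-- equality of sums -/
theorem sum_eq (B : Base x z r) {X Y v u : PL} (C : CntEq x z X Y v u) {a b : ℕ → ℤ} (K : ℕ)
    (hX : ∀ k, Lev x z r X k (a k)) (hY : ∀ k, Lev x z r Y k (b k))
    (ha : ∀ k, K ≤ k → a k = 0) (hb : ∀ k, K ≤ k → b k = 0) :
    ∑ k ∈ Finset.range K, a k = ∑ k ∈ Finset.range K, b k := by
  have h0 : Lev x z r (x * (v * u⁻¹) * x⁻¹) 0 0 := by
    have h1 : Lev x z r (x * v * x⁻¹) 0 0 := lev_of_orth B B.hz C.vz one_ne_zero lev_z_zero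
    have h2 : Lev x z r (x * u * x⁻¹) 0 0 := lev_of_orth B B.hz C.uz one_ne_zero lev_z_zero
    have h3 := h1.mul h2.inv
    have h4 : x * v * x⁻¹ * (x * u * x⁻¹)⁻¹ = x * (v * u⁻¹) * x⁻¹ := by group
    rw [h4] at h3
    simpa using h3
  have hv : ∀ k, Lev x z r (v * u⁻¹) k (∑ j ∈ Finset.range (k + 1), (a j - b j)) := by
    intro k
    induction k with
    | zero =>
      have h1 := h0.mul (hX 0)
      rw [C.eq] at h1
      have := lev_of_mul_right B h1 (hY 0)
      convert this using 1
      simp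
    | succ k ih =>
      have h1 := ih.conj.mul (hX (k + 1))
      rw [C.eq] at h1
      have := lev_of_mul_right B h1 (hY (k + 1))
      convert this using 1
      rw [Finset.sum_range_succ]; ring
  by_contra hne
  have h1 : ∑ j ∈ Finset.range K, (a j - b j) ≠ 0 := by
    rw [Finset.sum_sub_distrib]; exact sub_ne_zero.2 hne
  refine no_tail B (f := v * u⁻¹) h1 K fun k hk => ?_
  have h2 : ∑ j ∈ Finset.range (k + 1), (a j - b j) = ∑ j ∈ Finset.range K, (a j - b j) := by
    symm
    apply Finset.sum_subset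
    · intro j hj
      rw [Finset.mem_range] at *
      omega
    · intro j _ hj
      rw [Finset.mem_range] at hj
      rw [ha j (by omega), hb j (by omega)]; ring
  rw [← h2]
  exact hv k

theorem sum_ind (n K : ℕ) (h : n ≤ K) :
    ∑ k ∈ Finset.range K, (if k < n then (1 : ℤ) else 0) = n := by
  rw [← Finset.sum_filter]
  have : (Finset.range K).filter (fun k => k < n) = Finset.range n := by
    ext k; simp only [Finset.mem_filter, Finset.mem_range]; omega
  rw [this]; simp

theorem sum_tri (n K : ℕ) (h : n ≤ K) :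
    2 * ∑ k ∈ Finset.range K, (if k < n then (k : ℤ) + 1 else 0) = n * (n + 1) := by
  rw [← Finset.sum_filter]
  have : (Finset.range K).filter (fun k => k < n) = Finset.range n := by
    ext k; simp only [Finset.mem_filter, Finset.mem_range]; omega
  rw [this]
  clear this h
  induction n with
  | zero => simp
  | succ n ih => rw [Finset.sum_range_succ, mul_add, ih]; push_cast; ring

/-- soundness of addition -/
theorem add_sound (B : Base x z r) {w₁ h₁ V₁ w₂ h₂ V₂ w₃ h₃ V₃ v u : PL} {n₁ n₂ n₃ : ℕ}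
    (I₁ : IsVal x z r w₁ h₁ V₁ n₁) (I₂ : IsVal x z r w₂ h₂ V₂ n₂) (I₃ : IsVal x z r w₃ h₃ V₃ n₃)
    (C : CntEq x z w₃ (w₁ * w₂) v u) : n₃ = n₁ + n₂ := by
  have := sum_eq B C (n₁ + n₂ + n₃) I₃.1 (fun k => (I₁.1 k).mul (I₂.1 k))
    (fun k hk => if_neg (by omega))
    (fun k hk => by rw [if_neg (by omega), if_neg (by omega)]; rfl)
  rw [Finset.sum_add_distrib, sum_ind _ _ (by omega), sum_ind _ _ (by omega),
    sum_ind _ _ (by omega)] at this
  exact_mod_cast this

/-- soundness of multiplication -/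
theorem mul_sound (B : Base x z r) {w₁ h₁ V₁ w₂ h₂ V₂ w₃ h₃ V₃ w₄ h₄ V₄ v u : PL}
    {n₁ n₂ n₃ n₄ : ℕ}
    (I₁ : IsVal x z r w₁ h₁ V₁ n₁) (I₂ : IsVal x z r w₂ h₂ V₂ n₂) (I₃ : IsVal x z r w₃ h₃ V₃ n₃)
    (I₄ : IsVal x z r w₄ h₄ V₄ n₄) (h3 : n₃ = n₁ + n₂)
    (C : CntEq x z V₃ (V₁ * (V₂ * w₄)) v u) : n₄ = n₁ * n₂ := by
  have := sum_eq B C (n₁ + n₂ + n₃ + n₄) I₃.2.2
    (fun k => (I₁.2.2 k).mul ((I₂.2.2 k).mul (I₄.1 k)))
    (fun k hk => if_neg (by omega))
    (fun k hk => by rw [if_neg (by omega), if_neg (by omega), if_neg (by omega)]; rfl)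
  rw [Finset.sum_add_distrib, Finset.sum_add_distrib, sum_ind _ _ (by omega)] at this
  have t1 := sum_tri n₁ (n₁ + n₂ + n₃ + n₄) (by omega)
  have t2 := sum_tri n₂ (n₁ + n₂ + n₃ + n₄) (by omega)
  have t3 := sum_tri n₃ (n₁ + n₂ + n₃ + n₄) (by omega)
  have : 2 * (n₄ : ℤ) = 2 * (n₁ * n₂) := by
    rw [h3] at t3
    push_cast at t3
    rw [h3] at t1 t2 this
    linarith
  have : (n₄ : ℤ) = n₁ * n₂ := by linarith
  exact_mod_cast this

/-- soundness of the constants -/
theorem const_sound (B : Base x z r) {w h V : PL} {m n : ℕ}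
    (I : IsVal x z r w h V m) (hh : h = x ^ n * z * (x ^ n)⁻¹) : m = n := by
  have h1 := lev_conj_pow B (lev_z_zero (x := x) (z := z) (r := r)) n
  rw [← hh] at h1
  have h2 := h1.unique B (I.2.1 n)
  by_contra hne
  rw [if_neg (fun h => hne h.symm)] at h2
  exact absurd h2 one_ne_zero

end

end Pool.Agent.Helper967.LG
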