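import Mathlib
import Pool.Agent.Helper967.LG5

set_option autoImplicit false

/-! Numbers coded in lattice-ordered groups: completeness. -/

namespace Pool.Agent.Helper967.LG

variable {G : Type*} [Group G] [Lattice G] [MulLeftMono G] [MulRightMono G]

theorem orth_mul {a b c : G} (ha : 1 ≤ a) (hb : 1 ≤ b) (hc : 1 ≤ c) (h1 : a ⊓ b = 1)
    (h2 : a ⊓ c = 1) : a ⊓ (b * c) = 1 := by
  apply le_antisymm
  · have := inf_mul_le ha hb hc
    rw [h1, h2, one_mul] at this
    exact this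
  · exact le_inf ha (one_le_mul_of hb hc)

theorem orth_pow {a b : G} (ha : 1 ≤ a) (hb : 1 ≤ b) (h : a ⊓ b = 1) (n : ℕ) :
    a ⊓ b ^ n = 1 ∧ 1 ≤ b ^ n := by
  induction n with
  | zero => rw [pow_zero]; exact ⟨inf_eq_right.2 ha, le_refl _⟩
  | succ n ih =>
    rw [pow_succ]
    exact ⟨orth_mul ha ih.2 hb ih.1 h, one_le_mul_of ih.2 hb⟩

theorem orth_comm {a b : G} (h : a ⊓ b = 1) : Commute a b := by
  have key : ∀ a b : G, a ⊓ b = 1 → b ⊔ a = a * b := by
    intro a b h
    have h1 : a⁻¹ ⊔ b⁻¹ = 1 := by rw [← inv_inf, h, inv_one]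
    have h2 : a * (a⁻¹ ⊔ b⁻¹) * b = b ⊔ a := by
      rw [mul_sup, sup_mul]; simp
    rw [← h2, h1, mul_one]
  have h1 := key a b h
  have h2 := key b a (by rwa [inf_comm])
  change a * b = b * a
  rw [← h1, ← h2, sup_comm]

theorem one_le_conj {a : G} (x : G) (ha : 1 ≤ a) : 1 ≤ x * a * x⁻¹ := by
  calc (1 : G) = x * 1 * x⁻¹ := by simp
    _ ≤ _ := mul_le_mul_left (mul_le_mul_right ha x) x⁻¹

theorem conj_inf (x a b : G) : (x * a * x⁻¹) ⊓ (x * b * x⁻¹) = x * (a ⊓ b) * x⁻¹ := by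
  rw [mul_inf, inf_mul]

/-- the element with given levels -/
def Phi (x z : G) : (ℕ → ℤ) → ℕ → G
  | _, 0 => 1
  | f, N + 1 => z ^ (f 0) * (x * Phi x z (fun k => f (k + 1)) N * x⁻¹)

/-- the base configuration of the coding -/
structure Good (x z : G) : Prop where
  hx : 1 ≤ x
  hz : 1 ≤ z
  orth : ∀ k : ℕ, z ⊓ (x ^ (k + 1) * z * (x ^ (k + 1))⁻¹) = 1

section
variable {x z : G}

theorem one_le_zpow_of (hz : 1 ≤ z) {c : ℤ} (hc : 0 ≤ c) : 1 ≤ z ^ c := by
  obtain ⟨n, rfl⟩ := Int.eq_ofNat_of_zero_le hc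
  rw [zpow_natCast]
  exact one_le_pow_of_one_le' hz n

theorem Phi_pos (g : Good x z) (N : ℕ) : ∀ f : ℕ → ℤ, (∀ k, 0 ≤ f k) → 1 ≤ Phi x z f N := by
  induction N with
  | zero => intro f _; exact le_refl _
  | succ N ih =>
    intro f hf
    exact one_le_mul_of (one_le_zpow_of g.hz (hf 0)) (one_le_conj x (ih _ fun k => hf (k + 1)))

theorem orth_z_Phi (g : Good x z) (N : ℕ) : ∀ (f : ℕ → ℤ), (∀ k, 0 ≤ f k) → ∀ j : ℕ,
    z ⊓ (x ^ (j + 1) * Phi x z f N * (x ^ (j + 1))⁻¹) = 1 := by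
  induction N with
  | zero =>
    intro f _ j
    change z ⊓ (x ^ (j + 1) * 1 * (x ^ (j + 1))⁻¹) = 1
    rw [mul_one, mul_inv_cancel]
    exact inf_eq_right.2 g.hz
  | succ N ih =>
    intro f hf j
    have h1 : x ^ (j + 1) * Phi x z f (N + 1) * (x ^ (j + 1))⁻¹ =
        (x ^ (j + 1) * z ^ (f 0) * (x ^ (j + 1))⁻¹) *
          (x ^ (j + 1 + 1) * Phi x z (fun k => f (k + 1)) N * (x ^ (j + 1 + 1))⁻¹) := by
      change x ^ (j + 1) * (z ^ (f 0) * (x * Phi x z (fun k => f (k + 1)) N * x⁻¹)) *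
        (x ^ (j + 1))⁻¹ = _
      rw [pow_succ x (j + 1)]
      group
    rw [h1]
    refine orth_mul g.hz (one_le_conj _ (one_le_zpow_of g.hz (hf 0)))
      (one_le_conj _ (Phi_pos g N _ fun k => hf (k + 1))) ?_ (ih _ (fun k => hf (k + 1)) (j + 1))
    obtain ⟨n, hn⟩ := Int.eq_ofNat_of_zero_le (hf 0)
    rw [hn, zpow_natCast, ← conj_pow]
    exact (orth_pow g.hz (one_le_conj _ g.hz) (g.orth j) n).1

theorem commute_z_Phi (g : Good x z) (N : ℕ) : ∀ (f : ℕ → ℤ) (j : ℕ),
    Commute z (x ^ (j + 1) * Phi x z f N * (x ^ (j + 1))⁻¹) := by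
  induction N with
  | zero =>
    intro f j
    change Commute z (x ^ (j + 1) * 1 * (x ^ (j + 1))⁻¹)
    rw [mul_one, mul_inv_cancel]
    exact Commute.one_right z
  | succ N ih =>
    intro f j
    have h1 : x ^ (j + 1) * Phi x z f (N + 1) * (x ^ (j + 1))⁻¹ =
        (x ^ (j + 1) * z * (x ^ (j + 1))⁻¹) ^ (f 0) *
          (x ^ (j + 1 + 1) * Phi x z (fun k => f (k + 1)) N * (x ^ (j + 1 + 1))⁻¹) := by
      change x ^ (j + 1) * (z ^ (f 0) * (x * Phi x z (fun k => f (k + 1)) N * x⁻¹)) *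
        (x ^ (j + 1))⁻¹ = _
      rw [conj_zpow, pow_succ x (j + 1)]
      group
    rw [h1]
    exact ((orth_comm (g.orth j)).zpow_right _).mul_right (ih _ (j + 1))

theorem Phi_mul (g : Good x z) (N : ℕ) : ∀ f h : ℕ → ℤ,
    Phi x z f N * Phi x z h N = Phi x z (fun k => f k + h k) N := by
  induction N with
  | zero => intro f h; simp [Phi]
  | succ N ih =>
    intro f h
    have hc : Commute (z ^ (h 0)) (x * Phi x z (fun k => f (k + 1)) N * x⁻¹) := by
      have := commute_z_Phi g N (fun k => f (k + 1)) 0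
      simp only [zero_add, pow_one] at this
      exact this.zpow_left _
    change (z ^ (f 0) * (x * Phi x z (fun k => f (k + 1)) N * x⁻¹)) *
      (z ^ (h 0) * (x * Phi x z (fun k => h (k + 1)) N * x⁻¹)) =
      z ^ (f 0 + h 0) * (x * Phi x z (fun k => f (k + 1) + h (k + 1)) N * x⁻¹)
    rw [← ih (fun k => f (k + 1)) (fun k => h (k + 1)), zpow_add]
    calc z ^ f 0 * (x * Phi x z (fun k => f (k + 1)) N * x⁻¹) *
        (z ^ h 0 * (x * Phi x z (fun k => h (k + 1)) N * x⁻¹))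
        = z ^ f 0 * ((x * Phi x z (fun k => f (k + 1)) N * x⁻¹) * z ^ h 0) *
          (x * Phi x z (fun k => h (k + 1)) N * x⁻¹) := by simp only [mul_assoc]
      _ = z ^ f 0 * (z ^ h 0 * (x * Phi x z (fun k => f (k + 1)) N * x⁻¹)) *
          (x * Phi x z (fun k => h (k + 1)) N * x⁻¹) := by rw [hc.eq]
      _ = _ := by group

theorem Phi_zero (N : ℕ) : ∀ f : ℕ → ℤ, (∀ k, f k = 0) → Phi x z f N = 1 := by
  induction N with
  | zero => intro f _; rfl
  | succ N ih =>
    intro f hf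
    change z ^ (f 0) * (x * Phi x z (fun k => f (k + 1)) N * x⁻¹) = 1
    rw [hf 0, ih _ fun k => hf (k + 1)]
    simp

theorem Phi_inv (g : Good x z) (N : ℕ) (f : ℕ → ℤ) :
    (Phi x z f N)⁻¹ = Phi x z (fun k => - f k) N := by
  rw [inv_eq_iff_mul_eq_one, Phi_mul g, Phi_zero]
  intro k; ring

theorem orth_Phi (g : Good x z) (N : ℕ) : ∀ f h : ℕ → ℤ, (∀ k, 0 ≤ f k) → (∀ k, 0 ≤ h k) →
    (∀ k, f k = 0 ∨ h k = 0) → Phi x z f N ⊓ Phi x z h N = 1 := by
  induction N with
  | zero => intro f h _ _ _; simp [Phi]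
  | succ N ih =>
    intro f h hf hh hfh
    have p1 := one_le_zpow_of g.hz (hf 0)
    have p2 := one_le_zpow_of g.hz (hh 0)
    have p3 : 1 ≤ x * Phi x z (fun k => f (k + 1)) N * x⁻¹ :=
      one_le_conj x (Phi_pos g N _ fun k => hf (k + 1))
    have p4 : 1 ≤ x * Phi x z (fun k => h (k + 1)) N * x⁻¹ :=
      one_le_conj x (Phi_pos g N _ fun k => hh (k + 1))
    have o1 : ∀ (e : ℕ → ℤ), (∀ k, 0 ≤ e k) → ∀ c : ℤ, 0 ≤ c →
        (x * Phi x z e N * x⁻¹) ⊓ z ^ c = 1 := by
      intro e he c hc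
      obtain ⟨n, rfl⟩ := Int.eq_ofNat_of_zero_le hc
      rw [zpow_natCast]
      have := orth_z_Phi g N e he 0
      simp only [zero_add, pow_one] at this
      rw [inf_comm] at this
      exact (orth_pow (one_le_conj x (Phi_pos g N _ he)) g.hz this n).1
    change (z ^ (f 0) * (x * Phi x z (fun k => f (k + 1)) N * x⁻¹)) ⊓
      (z ^ (h 0) * (x * Phi x z (fun k => h (k + 1)) N * x⁻¹)) = 1
    have q1 : z ^ (f 0) ⊓ z ^ (h 0) = 1 := by
      rcases hfh 0 with h1 | h1
      · rw [h1, zpow_zero]; exact inf_eq_left.2 p2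
      · rw [h1, zpow_zero]; exact inf_eq_right.2 p1
    have q2 : z ^ (f 0) ⊓ (x * Phi x z (fun k => h (k + 1)) N * x⁻¹) = 1 := by
      rw [inf_comm]; exact o1 _ (fun k => hh (k + 1)) _ (hf 0)
    have q3 : (x * Phi x z (fun k => f (k + 1)) N * x⁻¹) ⊓ z ^ (h 0) = 1 :=
      o1 _ (fun k => hf (k + 1)) _ (hh 0)
    have q4 : (x * Phi x z (fun k => f (k + 1)) N * x⁻¹) ⊓
        (x * Phi x z (fun k => h (k + 1)) N * x⁻¹) = 1 := by
      rw [conj_inf, ih _ _ (fun k => hf (k + 1)) (fun k => hh (k + 1)) (fun k => hfh (k + 1))]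
      simp
    have r1 := orth_mul p1 p2 p4 q1 q2
    have r2 := orth_mul p3 p2 p4 q3 q4
    rw [inf_comm] at r1 r2 ⊢
    exact orth_mul (one_le_mul_of p2 p4) p1 p3 r1 r2

theorem Phi_succ_eq (N : ℕ) : ∀ f : ℕ → ℤ, f N = 0 → Phi x z f (N + 1) = Phi x z f N := by
  induction N with
  | zero => intro f hf; simp [Phi, hf]
  | succ N ih =>
    intro f hf
    change z ^ (f 0) * (x * Phi x z (fun k => f (k + 1)) (N + 1) * x⁻¹) =
      z ^ (f 0) * (x * Phi x z (fun k => f (k + 1)) N * x⁻¹)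
    rw [ih _ hf]

/-- shift of a sequence -/
def shift (f : ℕ → ℤ) : ℕ → ℤ
  | 0 => 0
  | k + 1 => f k

theorem Phi_conj (K : ℕ) (f : ℕ → ℤ) (hf : f K = 0) :
    x * Phi x z f (K + 1) * x⁻¹ = Phi x z (shift f) (K + 1) := by
  have h1 : x * Phi x z f (K + 1) * x⁻¹ = Phi x z (shift f) (K + 1 + 1) := by
    change _ = z ^ (0 : ℤ) * (x * Phi x z (fun k => f k) (K + 1) * x⁻¹)
    rw [zpow_zero, one_mul]
  rw [h1]
  exact Phi_succ_eq (K + 1) _ hf

theorem z_eq_Phi (K : ℕ) : z = Phi x z (fun k => if k = 0 then 1 else 0) (K + 1) := by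
  change z = z ^ (1 : ℤ) * (x * Phi x z (fun k => if k + 1 = 0 then 1 else 0) K * x⁻¹)
  rw [Phi_zero K _ fun k => by simp]
  simp

/-- the three sequences of a number -/
def sw (n : ℕ) : ℕ → ℤ := fun k => if k < n then 1 else 0
def sh (n : ℕ) : ℕ → ℤ := fun k => if k = n then 1 else 0
def sV (n : ℕ) : ℕ → ℤ := fun k => if k < n then (k : ℤ) + 1 else 0
def sU (n : ℕ) : ℕ → ℤ := fun k => if k = n then (n : ℤ) else 0

theorem sw_nonneg (n k : ℕ) : 0 ≤ sw n k := by unfold sw; split_ifs <;> simp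
theorem sh_nonneg (n k : ℕ) : 0 ≤ sh n k := by unfold sh; split_ifs <;> simp
theorem sV_nonneg (n k : ℕ) : 0 ≤ sV n k := by
  unfold sV
  split_ifs
  · positivity
  · exact le_refl _
theorem sU_nonneg (n k : ℕ) : 0 ≤ sU n k := by unfold sU; split_ifs <;> simp

theorem numBlk_compl (g : Good x z) (K n : ℕ) (hn : n ≤ K) :
    NumBlk x z (Phi x z (sw n) (K + 1)) (Phi x z (sh n) (K + 1)) (Phi x z (sV n) (K + 1))
      (Phi x z (sU n) (K + 1)) := by
  have hw0 : sw n K = 0 := by simp [sw]; omega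
  have hV0 : sV n K = 0 := by
    unfold sV; rw [if_neg (by omega)]
  have hz : ∀ f : ℕ → ℤ, (∀ k, 0 ≤ f k) → (x * Phi x z f (K + 1) * x⁻¹) ⊓ z = 1 := by
    intro f hf
    have := orth_z_Phi g (K + 1) f hf 0
    simp only [zero_add, pow_one] at this
    rwa [inf_comm]
  refine ⟨Phi_pos g _ _ (sw_nonneg n), Phi_pos g _ _ (sh_nonneg n), ?_, hz _ (sw_nonneg n), ?_,
    Phi_pos g _ _ (sV_nonneg n), Phi_pos g _ _ (sU_nonneg n), ?_, ?_, hz _ (sV_nonneg n), ?_⟩
  · refine orth_Phi g _ _ _ (sw_nonneg n) (sh_nonneg n) fun k => ?_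
    unfold sw sh
    by_cases h : k = n
    · left; rw [if_neg (by omega)]
    · right; rw [if_neg h]
  · rw [Phi_conj K _ hw0]
    nth_rw 2 [z_eq_Phi (x := x) (z := z) K]
    rw [Phi_mul g, Phi_mul g]
    congr 1
    funext k
    rcases k with _ | k
    · simp only [shift, sw, sh]
      by_cases h : n = 0
      · subst h; simp
      · rw [if_pos trivial, if_pos (by omega), if_neg (by omega)]; rfl
    · simp only [shift, sw, sh]
      rw [if_neg (Nat.succ_ne_zero k)]
      rcases lt_trichotomy (k + 1) n with h | h | h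
      · rw [if_pos (by omega), if_pos h, if_neg (by omega)]
      · rw [if_pos (by omega), if_neg (by omega), if_pos h]; rfl
      · rw [if_neg (by omega), if_neg (by omega), if_neg (by omega)]
  · refine orth_Phi g _ _ _ (sU_nonneg n) (sw_nonneg n) fun k => ?_
    unfold sw sU
    by_cases h : k = n
    · right; rw [if_neg (by omega)]
    · left; rw [if_neg h]
  · refine orth_Phi g _ _ _ (sV_nonneg n) (sh_nonneg n) fun k => ?_
    unfold sV sh
    by_cases h : k = n
    · left; rw [if_neg (by omega)]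
    · right; rw [if_neg h]
  · rw [Phi_conj K _ hV0, Phi_mul g, Phi_mul g]
    congr 1
    funext k
    rcases k with _ | k
    · simp only [shift, sw, sV, sU]
      by_cases h : n = 0
      · subst h; simp
      · rw [if_pos (by omega), if_pos (by omega), if_neg (by omega)]; simp
    · simp only [shift, sw, sV, sU]
      rcases lt_trichotomy (k + 1) n with h | h | h
      · rw [if_pos (by omega), if_pos h, if_pos h, if_neg (by omega)]; push_cast; ring
      · rw [if_pos (by omega), if_neg (by omega), if_neg (by omega), if_pos h, ← h]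
        push_cast; ring
      · rw [if_neg (by omega), if_neg (by omega), if_neg (by omega), if_neg (by omega)]

/-- completeness of the coded equality of sums -/
theorem cntEq_compl (g : Good x z) (K : ℕ) (a b : ℕ → ℤ) (ha : a K = 0)
    (hb : b K = 0) (hab : ∑ k ∈ Finset.range K, a k = ∑ k ∈ Finset.range K, b k) :
    ∃ v u : G, CntEq x z (Phi x z a (K + 1)) (Phi x z b (K + 1)) v u := by
  let e : ℕ → ℤ := fun k => ∑ j ∈ Finset.range (k + 1), (a j - b j)
  have heK : e K = 0 := by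
    change ∑ j ∈ Finset.range (K + 1), (a j - b j) = 0
    rw [Finset.sum_range_succ, Finset.sum_sub_distrib, hab, ha, hb]; ring
  let ep : ℕ → ℤ := fun k => max (e k) 0
  let en : ℕ → ℤ := fun k => max (-(e k)) 0
  have hep : ∀ k, 0 ≤ ep k := fun k => le_max_right _ _
  have hen : ∀ k, 0 ≤ en k := fun k => le_max_right _ _
  have hz : ∀ f : ℕ → ℤ, (∀ k, 0 ≤ f k) → (x * Phi x z f (K + 1) * x⁻¹) ⊓ z = 1 := by
    intro f hf
    have := orth_z_Phi g (K + 1) f hf 0
    simp only [zero_add, pow_one] at this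
    rwa [inf_comm]
  refine ⟨Phi x z ep (K + 1), Phi x z en (K + 1), hz _ hep, hz _ hen, ?_⟩
  have h1 : Phi x z ep (K + 1) * (Phi x z en (K + 1))⁻¹ = Phi x z e (K + 1) := by
    rw [Phi_inv g, Phi_mul g]
    congr 1
    funext k
    simp only [ep, en]
    omega
  rw [h1, Phi_conj K _ heK, Phi_mul g, Phi_mul g]
  congr 1
  funext k
  rcases k with _ | k
  · simp only [shift, e]; simp
  · simp only [shift, e]
    rw [Finset.sum_range_succ _ (k + 1)]; ring

/-- the mark of a number -/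
theorem sh_eq (g : Good x z) (K : ℕ) : ∀ n : ℕ, n ≤ K →
    Phi x z (sh n) (K + 1) = x ^ n * z * (x ^ n)⁻¹ := by
  intro n
  induction n with
  | zero =>
    intro _
    have := z_eq_Phi (x := x) (z := z) K
    simp only [pow_zero, one_mul, inv_one, mul_one]
    exact this.symm
  | succ n ih =>
    intro hn
    have h1 : sh n K = 0 := by unfold sh; rw [if_neg (by omega)]
    have h2 := Phi_conj (x := x) (z := z) K (sh n) h1
    rw [ih (by omega)] at h2
    have h3 : shift (sh n) = sh (n + 1) := by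
      funext k
      rcases k with _ | k
      · simp [shift, sh]
      · simp [shift, sh]
    rw [h3] at h2
    rw [← h2, pow_succ']
    group

end

end Pool.Agent.Helper967.LG
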