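import Mathlib
import Pool.Agent.Helper967.LG3
import Pool.Agent.Helper967.LG6

set_option autoImplicit false

/-! The free lattice-ordered group, realised by functions on assignments in the piecewise linear
group. -/

namespace Pool.Agent.Helper967.LG

/-- the subgroup of term functions -/
def FGsub (V : Type) : Subgroup ((V → PL) → PL) where
  carrier := {F | ∃ t : Tm V, ∀ f, F f = t.ev f}
  one_mem' := ⟨.one, fun _ => rfl⟩
  mul_mem' := by
    rintro F F' ⟨t, ht⟩ ⟨t', ht'⟩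
    exact ⟨.mul t t', fun f => by rw [Pi.mul_apply, ht, ht']; rfl⟩
  inv_mem' := by
    rintro F ⟨t, ht⟩
    exact ⟨.inv t, fun f => by rw [Pi.inv_apply, ht]; rfl⟩

/-- the free lattice-ordered group -/
def FG (V : Type) : Type := FGsub V

noncomputable instance (V : Type) : Group (FG V) := inferInstanceAs (Group (FGsub V))

noncomputable instance (V : Type) : Lattice (FG V) :=
  Subtype.lattice (P := fun F => F ∈ FGsub V)
    (by
      rintro F F' ⟨t, ht⟩ ⟨t', ht'⟩
      exact ⟨.sup t t', fun f => by rw [Pi.sup_apply, ht, ht']; rfl⟩)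
    (by
      rintro F F' ⟨t, ht⟩ ⟨t', ht'⟩
      exact ⟨.inf t t', fun f => by rw [Pi.inf_apply, ht, ht']; rfl⟩)

instance (V : Type) : MulLeftMono (FG V) := ⟨fun F _ _ h f => mul_le_mul_right (h f) (F.1 f)⟩
instance (V : Type) : MulRightMono (FG V) := ⟨fun F _ _ h f => mul_le_mul_left (h f) (F.1 f)⟩

section
variable {V : Type}

/-- evaluation at an assignment -/
noncomputable def at' (f : V → PL) (F : FG V) : PL := F.1 f

theorem at_one (f : V → PL) : at' f (1 : FG V) = 1 := rfl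
theorem at_mul (f : V → PL) (F F' : FG V) : at' f (F * F') = at' f F * at' f F' := rfl
theorem at_inv (f : V → PL) (F : FG V) : at' f F⁻¹ = (at' f F)⁻¹ := rfl
theorem at_sup (f : V → PL) (F F' : FG V) : at' f (F ⊔ F') = at' f F ⊔ at' f F' := rfl
theorem at_inf (f : V → PL) (F F' : FG V) : at' f (F ⊓ F') = at' f F ⊓ at' f F' := rfl
theorem at_le {F F' : FG V} : F ≤ F' ↔ ∀ f, at' f F ≤ at' f F' := Iff.rfl

theorem at_ext {F F' : FG V} (h : ∀ f, at' f F = at' f F') : F = F' :=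
  Subtype.ext (funext h)

/-- evaluation as a homomorphism -/
noncomputable def atHom (f : V → PL) : FG V →* PL where
  toFun := at' f
  map_one' := rfl
  map_mul' _ _ := rfl

/-- generators -/
noncomputable def gen' (i : V) : FG V := ⟨fun f => f i, ⟨.var i, fun _ => rfl⟩⟩

theorem at_gen (f : V → PL) (i : V) : at' f (gen' i) = f i := rfl

theorem at_ev (f : V → PL) (t : Tm V) : at' f (t.ev (H := FG V) gen') = t.ev f := by
  induction t with
  | var i => rfl
  | one => rfl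
  | mul s t ihs iht => change at' f (s.ev gen') * at' f (t.ev gen') = _; rw [ihs, iht]; rfl
  | inv s ih => change (at' f (s.ev gen'))⁻¹ = _; rw [ih]; rfl
  | sup s t ihs iht => change at' f (s.ev gen') ⊔ at' f (t.ev gen') = _; rw [ihs, iht]; rfl
  | inf s t ihs iht => change at' f (s.ev gen') ⊓ at' f (t.ev gen') = _; rw [ihs, iht]; rfl

/-- a term representing an element -/
noncomputable def rep (F : FG V) : Tm V := Classical.choose F.2

theorem rep_spec (F : FG V) (f : V → PL) : at' f F = (rep F).ev f := Classical.choose_spec F.2 f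

theorem rep_ev (F : FG V) : (rep F).ev (H := FG V) gen' = F :=
  at_ext fun f => by rw [at_ev, rep_spec]

theorem ev_congr {H : Type*} [Group H] [Lattice H] [MulLeftMono H] [MulRightMono H]
    (s t : Tm V) (h : ∀ f : V → PL, s.ev f = t.ev f) (g : V → H) : s.ev g = t.ev g := by
  have h1 := transfer (Tm.mul s (Tm.inv t)) (fun f => by
    change s.ev f * (t.ev f)⁻¹ = 1
    rw [h, mul_inv_cancel]) g
  change s.ev g * (t.ev g)⁻¹ = 1 at h1
  exact mul_inv_eq_one.1 h1

/-- the universal property -/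
theorem FG_free {n : ℕ} (H : Type) [Group H] [Lattice H] [MulLeftMono H] [MulRightMono H]
    (f : Fin n → H) :
    ∃ φ : FG (Fin n) →* H, (∀ a b, φ (a ⊔ b) = φ a ⊔ φ b) ∧ (∀ a b, φ (a ⊓ b) = φ a ⊓ φ b) ∧
      (∀ i, φ (gen' i) = f i) ∧
      ∀ ψ : FG (Fin n) →* H, (∀ a b, ψ (a ⊔ b) = ψ a ⊔ ψ b) → (∀ a b, ψ (a ⊓ b) = ψ a ⊓ ψ b) →
        (∀ i, ψ (gen' i) = f i) → ψ = φ := by
  let φ : FG (Fin n) →* H :=
    { toFun := fun F => (rep F).ev f
      map_one' := by
        have := ev_congr (rep (1 : FG (Fin n))) Tm.one (fun g => by rw [← rep_spec]; rfl) f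
        rw [this]; rfl
      map_mul' := fun F F' => by
        have := ev_congr (rep (F * F')) (Tm.mul (rep F) (rep F')) (fun g => by
          rw [← rep_spec, at_mul, rep_spec, rep_spec]; rfl) f
        rw [this]; rfl }
  refine ⟨φ, ?_, ?_, ?_, ?_⟩
  · intro F F'
    have := ev_congr (rep (F ⊔ F')) (Tm.sup (rep F) (rep F')) (fun g => by
      rw [← rep_spec, at_sup, rep_spec, rep_spec]; rfl) f
    change (rep (F ⊔ F')).ev f = _
    rw [this]; rfl
  · intro F F'
    have := ev_congr (rep (F ⊓ F')) (Tm.inf (rep F) (rep F')) (fun g => by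
      rw [← rep_spec, at_inf, rep_spec, rep_spec]; rfl) f
    change (rep (F ⊓ F')).ev f = _
    rw [this]; rfl
  · intro i
    have := ev_congr (rep (gen' i)) (Tm.var i) (fun g => by rw [← rep_spec]; rfl) f
    change (rep (gen' i)).ev f = _
    rw [this]; rfl
  · intro ψ h1 h2 h3
    have key : ∀ t : Tm (Fin n), ψ (t.ev gen') = t.ev f := by
      intro t
      induction t with
      | var i => exact h3 i
      | one => exact map_one ψ
      | mul s t ihs iht => change ψ (s.ev gen' * t.ev gen') = _; rw [map_mul, ihs, iht]; rfl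
      | inv s ih => change ψ (s.ev gen')⁻¹ = _; rw [map_inv, ih]; rfl
      | sup s t ihs iht => change ψ (s.ev gen' ⊔ t.ev gen') = _; rw [h1, ihs, iht]; rfl
      | inf s t ihs iht => change ψ (s.ev gen' ⊓ t.ev gen') = _; rw [h2, ihs, iht]; rfl
    ext F
    change ψ F = (rep F).ev f
    rw [← key, rep_ev]

end

/-- the two words of the base configuration -/
def bx {G : Type*} [Group G] [Lattice G] (f : Fin 3 → G) : G := f 0 ⊔ 1

def bz {G : Type*} [Group G] [Lattice G] (f : Fin 3 → G) : G :=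
  (f 1 ⊓ (f 0 ⊓ (((f 0)⁻¹ * f 2) ⊓ (((f 2)⁻¹ * (f 0)⁻¹ * f 2) ⊓ ((f 2)⁻¹ * (f 1)⁻¹ * f 0))))) ⊔ 1

theorem trap (f : Fin 3 → PL) (k : ℕ) (s : ℝ) (h1 : s < bz f s) :
    bz f ((bx f ^ (k + 1)) s) = (bx f ^ (k + 1)) s := by
  have h2 : s < max (min (f 1 s) (min (f 0 s) (min ((f 0)⁻¹ (f 2 s))
      (min ((f 2)⁻¹ ((f 0)⁻¹ (f 2 s))) ((f 2)⁻¹ ((f 1)⁻¹ (f 0 s))))))) s := h1
  rw [lt_max_iff] at h2
  have h3 := h2.resolve_right (lt_irrefl s)
  rw [lt_min_iff, lt_min_iff, lt_min_iff, lt_min_iff] at h3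
  obtain ⟨-, c2, c3, c4, c5⟩ := h3
  -- translate
  have d3 : f 0 s < f 2 s := by
    rw [← (f 0).lt_iff] at c3; rwa [PL.mul_inv_apply] at c3
  have d4 : f 0 (f 2 s) < f 2 s := by
    rw [← (f 2).lt_iff, PL.mul_inv_apply, ← (f 0).lt_iff, PL.mul_inv_apply] at c4; exact c4
  have d5 : f 1 (f 2 s) < f 0 s := by
    rw [← (f 2).lt_iff, PL.mul_inv_apply, ← (f 1).lt_iff, PL.mul_inv_apply] at c5; exact c5
  have hx : ∀ y, bx f y = max (f 0 y) y := fun y => rfl
  have hk : f 0 s ≤ (bx f ^ (k + 1)) s ∧ (bx f ^ (k + 1)) s ≤ f 2 s := by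
    induction k with
    | zero =>
      rw [zero_add, pow_one, hx, max_eq_left c2.le]
      exact ⟨le_refl _, d3.le⟩
    | succ k ih =>
      have e1 : (bx f ^ (k + 1 + 1)) s = bx f ((bx f ^ (k + 1)) s) := by
        rw [pow_succ' _ (k + 1)]; rfl
      rw [e1, hx]
      refine ⟨ih.1.trans (le_max_right _ _), max_le ?_ ih.2⟩
      exact (((f 0).le_iff).2 ih.2).trans d4.le
  have h4 : f 1 ((bx f ^ (k + 1)) s) ≤ (bx f ^ (k + 1)) s :=
    ((((f 1).le_iff).2 hk.2).trans d5.le).trans hk.1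
  generalize (bx f ^ (k + 1)) s = y at h4
  change max (min (f 1 y) _) y = y
  exact max_eq_right ((min_le_left _ _).trans h4)

theorem good_PL (f : Fin 3 → PL) : Good (bx f) (bz f) := by
  have hz : (1 : PL) ≤ bz f := le_sup_right
  refine ⟨le_sup_right, hz, fun k => ?_⟩
  apply PL.ext'
  intro y
  change min (bz f y) ((bx f ^ (k + 1)) (bz f ((bx f ^ (k + 1))⁻¹ y))) = y
  have h1 : y ≤ bz f y := hz y
  set s := (bx f ^ (k + 1))⁻¹ y with hs
  have h2 : (bx f ^ (k + 1)) s = y := by rw [hs, PL.mul_inv_apply]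
  have h3 : y ≤ (bx f ^ (k + 1)) (bz f s) := by
    conv_lhs => rw [← h2]
    exact ((bx f ^ (k + 1)).le_iff).2 (hz s)
  by_cases h4 : s < bz f s
  · have h5 := trap f k s h4
    rw [h2] at h5
    rw [h5]
    exact min_eq_left h3
  · have h5 : bz f s = s := le_antisymm (not_lt.1 h4) (hz s)
    rw [h5, h2]
    exact min_eq_right h1

theorem good_FG : Good (bx (G := FG (Fin 3)) gen') (bz (G := FG (Fin 3)) gen') := by
  have e1 : ∀ f, at' f (bx (G := FG (Fin 3)) gen') = bx f := fun f => rfl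
  have e2 : ∀ f, at' f (bz (G := FG (Fin 3)) gen') = bz f := fun f => rfl
  have epow : ∀ f (F : FG (Fin 3)) (k : ℕ), at' f (F ^ k) = (at' f F) ^ k := fun f F k =>
    map_pow (atHom f) F k
  refine ⟨le_sup_right, le_sup_right, fun k => ?_⟩
  apply at_ext
  intro f
  rw [at_inf, at_mul, at_mul, at_inv, epow, e1, e2, at_one]
  exact (good_PL f).orth k

theorem bz_ne_one : bz (G := FG (Fin 3)) gen' ≠ 1 := by
  intro h
  let f : Fin 3 → PL := ![PL.affine (1 / 4) 2 (by norm_num), PL.affine (1 / 8) (1 / 2) (by norm_num),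
    PL.affine 1 4 (by norm_num)]
  have h1 : at' f (bz (G := FG (Fin 3)) gen') = 1 := by rw [h]; rfl
  have h2 : bz f 0 = 0 := by
    have : bz f = 1 := h1
    rw [this]; rfl
  have h3 : bz f 0 = max (min (f 1 0) (min (f 0 0) (min ((f 0)⁻¹ (f 2 0))
      (min ((f 2)⁻¹ ((f 0)⁻¹ (f 2 0))) ((f 2)⁻¹ ((f 1)⁻¹ (f 0 0))))))) 0 := rfl
  have e0 : ∀ y, f 0 y = 1 / 4 * y + 2 := fun y => rfl
  have e1 : ∀ y, f 1 y = 1 / 8 * y + 1 / 2 := fun y => rfl
  have e2 : ∀ y, f 2 y = 1 * y + 4 := fun y => rfl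
  have i0 : ∀ y, (f 0)⁻¹ y = (y - 2) / (1 / 4) := fun y => rfl
  have i1 : ∀ y, (f 1)⁻¹ y = (y - 1 / 2) / (1 / 8) := fun y => rfl
  have i2 : ∀ y, (f 2)⁻¹ y = (y - 4) / 1 := fun y => rfl
  rw [h2, e0, e1, e2, i0, i1, i2, i2] at h3
  have h4 : (0 : ℝ) < max (min (1 / 8 * 0 + 1 / 2) (min (1 / 4 * 0 + 2)
      (min ((1 * 0 + 4 - 2) / (1 / 4)) (min (((1 * 0 + 4 - 2) / (1 / 4) - 4) / 1)
      (((1 / 4 * 0 + 2 - 1 / 2) / (1 / 8) - 4) / 1))))) 0 := by
    rw [lt_max_iff]
    left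
    rw [lt_min_iff, lt_min_iff, lt_min_iff, lt_min_iff]
    norm_num
  rw [← h3] at h4
  exact lt_irrefl _ h4

end Pool.Agent.Helper967.LG
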