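import Mathlib
import Pool.Agent.Helper967.LG7
import Pool.Agent.Helper967.LG8

set_option autoImplicit false

/-! Solvability of systems of atoms in lattice-ordered groups. -/

namespace Pool.Agent.Helper967.LG

/-- group variables of a system with number variables `V` -/
abbrev GV (V : Type) : Type := Bool ⊕ (V × Fin 4) ⊕ (V × V × V × Bool) ⊕ (V × V × V × V × Bool)

def vX {V : Type} : GV V := Sum.inl true
def vZ {V : Type} : GV V := Sum.inl false
def vw {V : Type} (v : V) : GV V := Sum.inr (Sum.inl (v, 0))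
def vh {V : Type} (v : V) : GV V := Sum.inr (Sum.inl (v, 1))
def vV {V : Type} (v : V) : GV V := Sum.inr (Sum.inl (v, 2))
def vU {V : Type} (v : V) : GV V := Sum.inr (Sum.inl (v, 3))
def va {V : Type} (a b s : V) (e : Bool) : GV V := Sum.inr (Sum.inr (Sum.inl (a, b, s, e)))
def vm {V : Type} (a b s c : V) (e : Bool) : GV V := Sum.inr (Sum.inr (Sum.inr (a, b, s, c, e)))

/-- the condition of an atom -/
def AtomSol {V : Type} {G : Type*} [Group G] [Lattice G] (g : GV V → G) : Atom V → Prop
  | .cst a n => g (vh a) = g vX ^ n * g vZ * (g vX ^ n)⁻¹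
  | .add a b s => CntEq (g vX) (g vZ) (g (vw s)) (g (vw a) * g (vw b)) (g (va a b s true))
      (g (va a b s false))
  | .mul a b s c => CntEq (g vX) (g vZ) (g (vw s)) (g (vw a) * g (vw b)) (g (va a b s true))
      (g (va a b s false)) ∧
      CntEq (g vX) (g vZ) (g (vV s)) (g (vV a) * (g (vV b) * g (vw c))) (g (vm a b s c true))
        (g (vm a b s c false))

/-- the conditions of a system -/
structure Sol {V : Type} {G : Type*} [Group G] [Lattice G] (L : List (Atom V)) (f : V) (n : ℕ)
    (g : GV V → G) : Prop where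
  x1 : 1 ≤ g vX
  z1 : 1 ≤ g vZ
  zx : g vZ ⊓ (g vX * g vZ * (g vX)⁻¹) = 1
  blk : ∀ v, NumBlk (g vX) (g vZ) (g (vw v)) (g (vh v)) (g (vV v)) (g (vU v))
  atoms : ∀ q ∈ L, AtomSol g q
  prm : AtomSol g (.cst f n)

/-- soundness in the piecewise linear group -/
theorem sol_PL {V : Type} {L : List (Atom V)} {f : V} {n : ℕ} {g : GV V → PL}
    (S : Sol L f n g) (hz : g vZ ≠ 1) : ∃ x : V → ℕ, x f = n ∧ ∀ q ∈ L, q.Holds x := by
  obtain ⟨r, B⟩ := exists_base S.x1 S.z1 S.zx hz
  choose x hx using fun v => exists_val B (S.blk v)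
  refine ⟨x, const_sound B (hx f) S.prm, ?_⟩
  intro q hq
  have h := S.atoms q hq
  cases q with
  | cst a m => exact const_sound B (hx a) h
  | add a b s => exact add_sound B (hx a) (hx b) (hx s) h
  | mul a b s c =>
    have h1 := add_sound B (hx a) (hx b) (hx s) h.1
    exact ⟨h1, mul_sound B (hx a) (hx b) (hx s) (hx c) h1 h.2⟩

/-- passing to the piecewise linear group -/
theorem Sol.at {V W : Type} {L : List (Atom V)} {f : V} {n : ℕ} {g : GV V → FG W}
    (S : Sol L f n g) (e : W → PL) : Sol L f n (fun v => at' e (g v)) := by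
  have hc : ∀ {X Y v u x z : FG W}, CntEq x z X Y v u →
      CntEq (at' e x) (at' e z) (at' e X) (at' e Y) (at' e v) (at' e u) := fun C =>
    ⟨congrArg (at' e) C.vz, congrArg (at' e) C.uz, congrArg (at' e) C.eq⟩
  have hcst : ∀ (a : V) (m : ℕ), AtomSol g (.cst a m) → AtomSol (fun v => at' e (g v)) (.cst a m) := by
    intro a m h
    have h1 : at' e (g (vh a)) = at' e (g vX ^ m * g vZ * (g vX ^ m)⁻¹) := congrArg (at' e) h
    have h2 : ∀ F : FG W, at' e (F ^ m) = (at' e F) ^ m := fun F => map_pow (atHom e) F m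
    change at' e (g (vh a)) = (at' e (g vX)) ^ m * at' e (g vZ) * ((at' e (g vX)) ^ m)⁻¹
    rw [h1, at_mul, at_mul, at_inv, h2]
  refine ⟨S.x1 e, S.z1 e, congrArg (at' e) S.zx, ?_, ?_, hcst f n S.prm⟩
  · intro v
    have N := S.blk v
    exact ⟨N.w1 e, N.h1 e, congrArg (at' e) N.wh, congrArg (at' e) N.wz, congrArg (at' e) N.weq,
      N.V1 e, N.U1 e, congrArg (at' e) N.Uw, congrArg (at' e) N.Vh, congrArg (at' e) N.Vz,
      congrArg (at' e) N.Veq⟩
  · intro q hq
    have h := S.atoms q hq
    cases q with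
    | cst a m => exact hcst a m h
    | add a b s => exact hc h
    | mul a b s c => exact ⟨hc h.1, hc h.2⟩

/-- soundness in the free group -/
theorem sol_FG {V W : Type} {L : List (Atom V)} {f : V} {n : ℕ} {g : GV V → FG W}
    (S : Sol L f n g) (hz : g vZ ≠ 1) : ∃ x : V → ℕ, x f = n ∧ ∀ q ∈ L, q.Holds x := by
  have h1 : ∃ e, at' e (g vZ) ≠ 1 := by
    by_contra h
    push Not at h
    exact hz (at_ext fun e => by rw [h e]; rfl)
  obtain ⟨e, he⟩ := h1
  exact sol_PL (S.at e) he

/-- completeness -/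
theorem sol_compl {V : Type} [Fintype V] {G : Type*} [Group G] [Lattice G] [MulLeftMono G]
    [MulRightMono G] {x z : G} (hg : Good x z) (L : List (Atom V)) (f : V) (n : ℕ) (c : V → ℕ)
    (hf : c f = n) (hc : ∀ q ∈ L, q.Holds c) :
    ∃ g : GV V → G, Sol L f n g ∧ g vZ = z := by
  classical
  let K : ℕ := ∑ v, c v
  have hK : ∀ v, c v ≤ K := fun v => Finset.single_le_sum (f := c) (fun _ _ => Nat.zero_le _)
    (Finset.mem_univ v)
  have hsw : ∀ m, m ≤ K → sw m K = 0 := fun m hm => by unfold sw; rw [if_neg (by omega)]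
  have hsV : ∀ m, m ≤ K → sV m K = 0 := fun m hm => by unfold sV; rw [if_neg (by omega)]
  -- additions
  have hadd : ∀ a b s : V, ∃ v u : G, c s = c a + c b →
      CntEq x z (Phi x z (sw (c s)) (K + 1))
        (Phi x z (sw (c a)) (K + 1) * Phi x z (sw (c b)) (K + 1)) v u := by
    intro a b s
    by_cases h : c s = c a + c b
    · obtain ⟨v, u, C⟩ := cntEq_compl hg K (sw (c s)) (fun k => sw (c a) k + sw (c b) k)
        (hsw _ (hK s)) (by rw [hsw _ (hK a), hsw _ (hK b)]; rfl) (by
          rw [Finset.sum_add_distrib]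
          unfold sw
          rw [sum_ind _ _ (hK s), sum_ind _ _ (hK a), sum_ind _ _ (hK b), h]
          push_cast; ring)
      rw [← Phi_mul hg] at C
      exact ⟨v, u, fun _ => C⟩
    · exact ⟨1, 1, fun h' => absurd h' h⟩
  choose av au hau using hadd
  have hmul : ∀ a b s d : V, ∃ v u : G, c s = c a + c b → c d = c a * c b →
      CntEq x z (Phi x z (sV (c s)) (K + 1))
        (Phi x z (sV (c a)) (K + 1) * (Phi x z (sV (c b)) (K + 1) *
          Phi x z (sw (c d)) (K + 1))) v u := by
    intro a b s d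
    by_cases h : c s = c a + c b
    · by_cases h' : c d = c a * c b
      · obtain ⟨v, u, C⟩ := cntEq_compl hg K (sV (c s))
          (fun k => sV (c a) k + (sV (c b) k + sw (c d) k))
          (hsV _ (hK s)) (by rw [hsV _ (hK a), hsV _ (hK b), hsw _ (hK d)]; rfl) (by
            rw [Finset.sum_add_distrib, Finset.sum_add_distrib]
            have t1 := sum_tri (c s) K (hK s)
            have t2 := sum_tri (c a) K (hK a)
            have t3 := sum_tri (c b) K (hK b)
            have t4 := sum_ind (c d) K (hK d)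
            unfold sV sw
            rw [t4]
            rw [h] at t1 ⊢
            rw [h']
            push_cast at t1 ⊢
            linarith)
        rw [← Phi_mul hg, ← Phi_mul hg] at C
        exact ⟨v, u, fun _ _ => C⟩
      · exact ⟨1, 1, fun _ h'' => absurd h'' h'⟩
    · exact ⟨1, 1, fun h' => absurd h' h⟩
  choose mv mu hmu using hmul
  let g : GV V → G := Sum.elim (fun b => if b then x else z) (Sum.elim
    (fun p => ![Phi x z (sw (c p.1)) (K + 1), Phi x z (sh (c p.1)) (K + 1),
      Phi x z (sV (c p.1)) (K + 1), Phi x z (sU (c p.1)) (K + 1)] p.2)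
    (Sum.elim (fun p => if p.2.2.2 then av p.1 p.2.1 p.2.2.1 else au p.1 p.2.1 p.2.2.1)
      (fun p => if p.2.2.2.2 then mv p.1 p.2.1 p.2.2.1 p.2.2.2.1
        else mu p.1 p.2.1 p.2.2.1 p.2.2.2.1)))
  have ha : ∀ a b s : V, c s = c a + c b → CntEq (g vX) (g vZ) (g (vw s))
      (g (vw a) * g (vw b)) (g (va a b s true)) (g (va a b s false)) := fun a b s h => hau a b s h
  refine ⟨g, ⟨hg.hx, hg.hz, ?_, ?_, ?_, ?_⟩, rfl⟩
  · change z ⊓ (x * z * x⁻¹) = 1
    have := hg.orth 0
    simpa using this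
  · intro v
    exact numBlk_compl hg K (c v) (hK v)
  · intro q hq
    have h := hc q hq
    cases q with
    | cst a m =>
      have h' : c a = m := h
      change Phi x z (sh (c a)) (K + 1) = x ^ m * z * (x ^ m)⁻¹
      rw [sh_eq hg K _ (hK a), h']
    | add a b s => exact ha a b s h
    | mul a b s d => exact ⟨ha a b s h.1, hmu a b s d h.1 h.2⟩
  · change Phi x z (sh (c f)) (K + 1) = x ^ n * z * (x ^ n)⁻¹
    rw [sh_eq hg K _ (hK f), hf]

end Pool.Agent.Helper967.LG
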