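import Mathlib
import Pool.Agent.Helper967.LG9

set_option autoImplicit false

/-! The clauses, and undecidability. -/

namespace Pool.Agent.Helper967.LG

open Pool.Agent.Helper967.Dio

/-- words -/
abbrev Wd : Type := List (ℕ × Bool)

/-- normal forms -/
abbrev NF : Type := (Wd × List Wd) × List (Wd × List Wd)

section
variable {G : Type} [Group G] [Lattice G]

/-- value of a word -/
def wv (x : ℕ → G) (l : Wd) : G := FreeGroup.lift x (FreeGroup.mk l)

theorem wv_nil (x : ℕ → G) : wv x [] = 1 := by simp [wv, FreeGroup.lift_mk]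

theorem wv_append (x : ℕ → G) (l l' : Wd) : wv x (l ++ l') = wv x l * wv x l' := by
  simp [wv, FreeGroup.lift_mk]

theorem wv_true (x : ℕ → G) (i : ℕ) : wv x [(i, true)] = x i := by simp [wv, FreeGroup.lift_mk]

theorem wv_false (x : ℕ → G) (i : ℕ) : wv x [(i, false)] = (x i)⁻¹ := by
  simp [wv, FreeGroup.lift_mk]

theorem wv_rep (x : ℕ → G) (i : ℕ) (b : Bool) (n : ℕ) :
    wv x ((List.range n).map fun _ => (i, b)) = (wv x [(i, b)]) ^ n := by
  induction n with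
  | zero => simp [wv_nil]
  | succ n ih =>
    rw [List.range_succ, List.map_append, wv_append, ih, pow_succ]; rfl

/-- value of a normal form -/
def nfv (x : ℕ → G) (t : NF) : G :=
  t.2.foldr
    (fun q b => q.2.foldr (fun w a => FreeGroup.lift x (FreeGroup.mk w) ⊓ a)
        (FreeGroup.lift x (FreeGroup.mk q.1)) ⊔ b)
    (t.1.2.foldr (fun w a => FreeGroup.lift x (FreeGroup.mk w) ⊓ a)
        (FreeGroup.lift x (FreeGroup.mk t.1.1)))

/-- equation `l = 1` -/
def J1 (l : Wd) : NF := ((l, []), [])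

/-- equation `l' ⊓ l = 1` -/
def J2 (l l' : Wd) : NF := ((l, [l']), [])

theorem nfv_J1 (x : ℕ → G) (l : Wd) : nfv x (J1 l) = wv x l := rfl
theorem nfv_J2 (x : ℕ → G) (l l' : Wd) : nfv x (J2 l l') = wv x l' ⊓ wv x l := rfl

variable {V : Type} (ρ : GV V → ℕ)

/-- positive letter -/
def pl (a : GV V) : Wd := [(ρ a, true)]

/-- negative letter -/
def nl (a : GV V) : Wd := [(ρ a, false)]

theorem wv_pl (x : ℕ → G) (a : GV V) : wv x (pl ρ a) = x (ρ a) := wv_true x _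
theorem wv_nl (x : ℕ → G) (a : GV V) : wv x (nl ρ a) = (x (ρ a))⁻¹ := wv_false x _

/-- equations of a number -/
def blkH (v : V) : List NF :=
  [J2 (pl ρ (vw v)) [], J2 (pl ρ (vh v)) [], J2 (pl ρ (vh v)) (pl ρ (vw v)),
   J2 (pl ρ vZ) (pl ρ vX ++ (pl ρ (vw v) ++ nl ρ vX)),
   J1 (pl ρ vX ++ (pl ρ (vw v) ++ (nl ρ vX ++ (pl ρ vZ ++ (nl ρ (vh v) ++ nl ρ (vw v)))))),
   J2 (pl ρ (vV v)) [], J2 (pl ρ (vU v)) [], J2 (pl ρ (vw v)) (pl ρ (vU v)),
   J2 (pl ρ (vh v)) (pl ρ (vV v)),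
   J2 (pl ρ vZ) (pl ρ vX ++ (pl ρ (vV v) ++ nl ρ vX)),
   J1 (pl ρ vX ++ (pl ρ (vV v) ++ (nl ρ vX ++ (pl ρ (vw v) ++ (nl ρ (vU v) ++ nl ρ (vV v))))))]

/-- equations of an equality of sums -/
def cntH (X Y' : Wd) (v u : GV V) : List NF :=
  [J2 (pl ρ vZ) (pl ρ vX ++ (pl ρ v ++ nl ρ vX)), J2 (pl ρ vZ) (pl ρ vX ++ (pl ρ u ++ nl ρ vX)),
   J1 (pl ρ vX ++ (pl ρ v ++ (nl ρ u ++ (nl ρ vX ++ (X ++ (Y' ++ (pl ρ u ++ nl ρ v)))))))]

/-- equation of a constant -/
def cstH (a : V) (n : ℕ) : NF :=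
  J1 ((List.range n).map (fun _ => (ρ vX, true)) ++ (pl ρ vZ ++
    ((List.range n).map (fun _ => (ρ vX, false)) ++ nl ρ (vh a))))

/-- equations of an atom -/
def atomH : Atom V → List NF
  | .cst a n => [cstH ρ a n]
  | .add a b s => cntH ρ (pl ρ (vw s)) (nl ρ (vw b) ++ nl ρ (vw a)) (va a b s true) (va a b s false)
  | .mul a b s c =>
    cntH ρ (pl ρ (vw s)) (nl ρ (vw b) ++ nl ρ (vw a)) (va a b s true) (va a b s false) ++
    cntH ρ (pl ρ (vV s)) (nl ρ (vw c) ++ (nl ρ (vV b) ++ nl ρ (vV a))) (vm a b s c true)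
      (vm a b s c false)

/-- the fixed equations -/
noncomputable def fixH [Fintype V] (L : List (Atom V)) : List NF :=
  [J2 (pl ρ vX) [], J2 (pl ρ vZ) [], J2 (pl ρ vX ++ (pl ρ vZ ++ nl ρ vX)) (pl ρ vZ)] ++
    ((Finset.univ : Finset V).toList.flatMap (blkH ρ) ++ L.flatMap (atomH ρ))

theorem inf_one_iff [MulLeftMono G] (a : G) : (1 : G) ⊓ a = 1 ↔ 1 ≤ a := inf_eq_left

theorem blkH_iff (x : ℕ → G) (v : V) : (∀ t ∈ blkH ρ v, nfv x t = 1) ↔
    NumBlk (x (ρ vX)) (x (ρ vZ)) (x (ρ (vw v))) (x (ρ (vh v))) (x (ρ (vV v))) (x (ρ (vU v))) := by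
  have e : ∀ a b c d p q : G, a * (b * (c * (d * (p⁻¹ * q⁻¹)))) = 1 ↔ a * b * c * d = q * p := by
    intro a b c d p q
    rw [← mul_inv_rev, ← mul_assoc, ← mul_assoc, ← mul_assoc, mul_inv_eq_one]
  simp only [blkH, List.forall_mem_cons, List.not_mem_nil, IsEmpty.forall_iff, implies_true,
    nfv_J1, nfv_J2, wv_append, wv_nil, wv_pl, wv_nl, e, inf_eq_left, and_true, ← mul_assoc]
  constructor
  · rintro ⟨h1, h2, h3, h4, h5, h6, h7, h8, h9, h10, h11⟩
    refine ⟨h1, h2, h3, h4, ?_, h6, h7, h8, h9, h10, ?_⟩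
    · rwa [mul_inv_eq_one, mul_inv_eq_iff_eq_mul] at h5
    · rwa [mul_inv_eq_one, mul_inv_eq_iff_eq_mul] at h11
  · rintro ⟨h1, h2, h3, h4, h5, h6, h7, h8, h9, h10, h11⟩
    refine ⟨h1, h2, h3, h4, ?_, h6, h7, h8, h9, h10, ?_⟩
    · rwa [mul_inv_eq_one, mul_inv_eq_iff_eq_mul]
    · rwa [mul_inv_eq_one, mul_inv_eq_iff_eq_mul]

theorem cntH_iff (x : ℕ → G) (X Y' : Wd) (Y : G) (hY : wv x Y' = Y⁻¹) (v u : GV V) :
    (∀ t ∈ cntH ρ X Y' v u, nfv x t = 1) ↔
    CntEq (x (ρ vX)) (x (ρ vZ)) (wv x X) Y (x (ρ v)) (x (ρ u)) := by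
  simp only [cntH, List.forall_mem_cons, List.not_mem_nil, IsEmpty.forall_iff, implies_true,
    nfv_J1, nfv_J2, wv_append, wv_nil, wv_pl, wv_nl, hY, and_true]
  have e : x (ρ vX) * (x (ρ v) * ((x (ρ u))⁻¹ * ((x (ρ vX))⁻¹ * (wv x X * (Y⁻¹ * (x (ρ u) *
      (x (ρ v))⁻¹)))))) = (x (ρ vX) * (x (ρ v) * (x (ρ u))⁻¹) * (x (ρ vX))⁻¹ * wv x X) *
      (x (ρ v) * (x (ρ u))⁻¹ * Y)⁻¹ := by
    group
  rw [e, mul_inv_eq_one, ← mul_assoc (x (ρ vX)) (x (ρ v)), ← mul_assoc (x (ρ vX)) (x (ρ u))]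
  constructor
  · rintro ⟨h1, h2, h3⟩
    exact ⟨h1, h2, h3⟩
  · rintro ⟨h1, h2, h3⟩
    exact ⟨h1, h2, h3⟩

theorem cstH_iff (x : ℕ → G) (a : V) (n : ℕ) : nfv x (cstH ρ a n) = 1 ↔
    AtomSol (fun v => x (ρ v)) (.cst a n) := by
  simp only [cstH, nfv_J1, wv_append, wv_rep, wv_pl, wv_nl, wv_true, wv_false, AtomSol]
  rw [← mul_assoc, ← mul_assoc, mul_inv_eq_one, inv_pow]
  exact eq_comm

theorem atomH_iff (x : ℕ → G) (q : Atom V) : (∀ t ∈ atomH ρ q, nfv x t = 1) ↔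
    AtomSol (fun v => x (ρ v)) q := by
  have hY : ∀ a b : V, wv x (nl ρ (vw b) ++ nl ρ (vw a)) = (x (ρ (vw a)) * x (ρ (vw b)))⁻¹ := by
    intro a b
    rw [wv_append, wv_nl, wv_nl, mul_inv_rev]
  have hY2 : ∀ a b c : V, wv x (nl ρ (vw c) ++ (nl ρ (vV b) ++ nl ρ (vV a))) =
      (x (ρ (vV a)) * (x (ρ (vV b)) * x (ρ (vw c))))⁻¹ := by
    intro a b c
    rw [wv_append, wv_append, wv_nl, wv_nl, wv_nl, mul_inv_rev, mul_inv_rev, mul_assoc]
  cases q with
  | cst a n =>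
    simp only [atomH, List.mem_singleton, forall_eq]
    exact cstH_iff ρ x a n
  | add a b s =>
    have := cntH_iff ρ x (pl ρ (vw s)) _ _ (hY a b) (va a b s true) (va a b s false)
    rw [wv_pl] at this
    exact this
  | mul a b s c =>
    have h1 := cntH_iff ρ x (pl ρ (vw s)) _ _ (hY a b) (va a b s true) (va a b s false)
    have h2 := cntH_iff ρ x (pl ρ (vV s)) _ _ (hY2 a b c) (vm a b s c true) (vm a b s c false)
    rw [wv_pl] at h1 h2
    simp only [atomH, List.forall_mem_append]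
    exact and_congr h1 h2

theorem fixH_iff [Fintype V] (x : ℕ → G) (L : List (Atom V)) (f : V) (n : ℕ) :
    (∀ t ∈ fixH ρ L ++ [cstH ρ f n], nfv x t = 1) ↔ Sol L f n (fun v => x (ρ v)) := by
  simp only [fixH, List.forall_mem_append, List.forall_mem_cons, List.not_mem_nil,
    IsEmpty.forall_iff, implies_true, and_true, nfv_J2, wv_append, wv_nil, wv_pl, wv_nl,
    inf_eq_left, ← mul_assoc, cstH_iff]
  constructor
  · rintro ⟨⟨⟨h1, h2, h3⟩, h4, h5⟩, h6⟩
    refine ⟨h1, h2, h3, ?_, ?_, h6⟩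
    · intro v
      rw [← blkH_iff]
      intro t ht
      exact h4 t (List.mem_flatMap.2 ⟨v, by simp, ht⟩)
    · intro q hq
      rw [← atomH_iff]
      intro t ht
      exact h5 t (List.mem_flatMap.2 ⟨q, hq, ht⟩)
  · rintro ⟨h1, h2, h3, h4, h5, h6⟩
    refine ⟨⟨⟨h1, h2, h3⟩, ?_, ?_⟩, h6⟩
    · intro t ht
      obtain ⟨v, -, ht⟩ := List.mem_flatMap.1 ht
      exact (blkH_iff ρ x v).2 (h4 v) t ht
    · intro t ht
      obtain ⟨q, hq, ht⟩ := List.mem_flatMap.1 ht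
      exact (atomH_iff ρ x q).2 (h5 q hq) t ht

end

/-- the clause of a parameter -/
noncomputable def clause {V : Type} [Fintype V] (ρ : GV V → ℕ) (L : List (Atom V)) (f : V)
    (n : ℕ) : List NF × List NF :=
  (fixH ρ L ++ [cstH ρ f n], [J1 (pl ρ vZ)])

theorem primrec_clause {V : Type} [Fintype V] (ρ : GV V → ℕ) (L : List (Atom V)) (f : V) :
    Primrec (clause ρ L f) := by
  have h1 : ∀ b : Bool, Primrec fun n : ℕ => (List.range n).map (fun _ => (ρ (vX (V := V)), b)) :=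
    fun b => Primrec.list_map Primrec.list_range (Primrec₂.const _)
  have h2 : Primrec fun n : ℕ => (List.range n).map (fun _ => (ρ vX, true)) ++ (pl ρ vZ ++
      ((List.range n).map (fun _ => (ρ vX, false)) ++ nl ρ (vh f))) :=
    Primrec.list_append.comp (h1 true) (Primrec.list_append.comp (Primrec.const _)
      (Primrec.list_append.comp (h1 false) (Primrec.const _)))
  have h3 : Primrec fun n : ℕ => cstH ρ f n :=
    Primrec.pair (Primrec.pair h2 (Primrec.const _)) (Primrec.const _)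
  refine Primrec.pair ?_ (Primrec.const _)
  exact Primrec.list_append.comp (Primrec.const _) (Primrec.list_cons.comp h3 (Primrec.const _))

/-- truth of a clause -/
def Tr (G : Type) [Group G] [Lattice G] (c : List NF × List NF) : Prop :=
  ∀ x : ℕ → G, (∀ t ∈ c.1, nfv x t = 1) → ∃ u ∈ c.2, nfv x u = 1

theorem not_computable : ¬ ComputablePred (Tr (FG (Fin 3))) := by
  intro hcomp
  -- an undecidable recursively enumerable set of natural numbers
  obtain ⟨S, hre, hnc⟩ : ∃ S : ℕ → Prop, REPred S ∧ ¬ ComputablePred S := by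
    refine ⟨fun n => ∃ c : Nat.Partrec.Code, Encodable.decode (α := Nat.Partrec.Code) n = some c ∧
      (c.eval 0).Dom, ?_, ?_⟩
    · have h := ComputablePred.halting_problem_re 0
      have h2 : Partrec fun n : ℕ => (Part.ofOption (Encodable.decode (α := Nat.Partrec.Code) n)).bind
          (fun c => Part.assert (c.eval 0).Dom fun _ => Part.some ()) :=
        (Computable.decode.ofOption).bind (Partrec.comp h Computable.snd).to₂
      refine h2.of_eq fun n => ?_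
      ext u
      simp
    · intro hc
      apply ComputablePred.halting_problem 0
      obtain ⟨hd, hcomp⟩ := hc
      have h3 : ComputablePred fun c : Nat.Partrec.Code =>
          ∃ c' : Nat.Partrec.Code, Encodable.decode (α := Nat.Partrec.Code) (Encodable.encode c) =
            some c' ∧ (c'.eval 0).Dom := ⟨fun c => hd _, hcomp.comp Computable.encode⟩
      refine h3.of_eq fun c => ?_
      simp
  obtain ⟨V, hV, f, L, hL⟩ := exists_atoms S (dprm hre)
  classical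
  let ρ : GV V → ℕ := fun v => (Fintype.equivFin (GV V) v : ℕ)
  have hρ : Function.Injective ρ := fun a b h =>
    (Fintype.equivFin (GV V)).injective (Fin.ext h)
  have key : ∀ n, S n ↔ ¬ Tr (FG (Fin 3)) (clause ρ L f n) := by
    intro n
    rw [hL]
    constructor
    · rintro ⟨c, hf, hc⟩ htr
      obtain ⟨g, hg, hz⟩ := sol_compl good_FG L f n c hf hc
      let x : ℕ → FG (Fin 3) := Function.extend ρ g 1
      have hx : ∀ v, x (ρ v) = g v := fun v => hρ.extend_apply _ _ _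
      have h1 : Sol L f n (fun v => x (ρ v)) := by
        have : (fun v => x (ρ v)) = g := funext hx
        rw [this]; exact hg
      obtain ⟨u, hu, h2⟩ := htr x ((fixH_iff ρ x L f n).2 h1)
      rw [show (clause ρ L f n).2 = [J1 (pl ρ vZ)] from rfl, List.mem_singleton] at hu
      rw [hu, nfv_J1, wv_pl, hx, hz] at h2
      exact bz_ne_one h2
    · intro htr
      unfold Tr at htr
      push Not at htr
      obtain ⟨x, h1, h2⟩ := htr
      have h3 := (fixH_iff ρ x L f n).1 h1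
      have h4 : x (ρ vZ) ≠ 1 := by
        have := h2 (J1 (pl ρ vZ)) (List.mem_singleton.2 rfl)
        rwa [nfv_J1, wv_pl] at this
      exact sol_FG h3 h4
  apply hnc
  obtain ⟨hd, hc⟩ := hcomp
  have h5 : ComputablePred fun n => Tr (FG (Fin 3)) (clause ρ L f n) :=
    ⟨fun n => hd _, hc.comp (primrec_clause ρ L f).to_comp⟩
  refine h5.not.of_eq fun n => ?_
  rw [key]

end Pool.Agent.Helper967.LG
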