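import Mathlib
import Pool.Agent.Helper967.LG10

set_option autoImplicit false

/-! Undecidability for every rank at least two: a configuration built from two generators, and
transfer to an arbitrary free lattice-ordered group. -/

namespace Pool.Agent.Helper967.LG

open Pool.Agent.Helper967.Dio

/-- the moving element of the two-generator configuration -/
def cx {G : Type*} [Group G] [Lattice G] (a : G) : G := a ⊔ 1

/-- the bump of the two-generator configuration -/
def cz {G : Type*} [Group G] [Lattice G] (a b : G) : G :=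
  (b ⊓ (a ⊓ ((a⁻¹ * (b⁻¹ * a)) ⊓ ((b⁻¹ * a)⁻¹ * (a⁻¹ * (b⁻¹ * a)))))) ⊔ 1

theorem trap2 (a b : PL) (k : ℕ) (s : ℝ) (h1 : s < cz a b s) :
    cz a b ((cx a ^ (k + 1)) s) = (cx a ^ (k + 1)) s := by
  obtain ⟨t, ht⟩ : ∃ t : PL, t = b⁻¹ * a := ⟨_, rfl⟩
  have hbt : ∀ y, b (t y) = a y := fun y => by
    have : b * t = a := by rw [ht, mul_inv_cancel_left]
    calc b (t y) = (b * t) y := rfl
      _ = a y := by rw [this]
  have h2 : s < max (min (b s) (min (a s) (min (a⁻¹ ((b⁻¹ * a) s))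
      ((b⁻¹ * a)⁻¹ (a⁻¹ ((b⁻¹ * a) s)))))) s := h1
  rw [← ht] at h2
  rw [lt_max_iff] at h2
  have h3 := h2.resolve_right (lt_irrefl s)
  rw [lt_min_iff, lt_min_iff, lt_min_iff] at h3
  obtain ⟨-, c2, c3, c4⟩ := h3
  -- translate
  have d3 : a s < t s := by
    rw [← a.lt_iff] at c3; rwa [PL.mul_inv_apply] at c3
  have d4 : a (t s) < t s := by
    rw [← t.lt_iff, PL.mul_inv_apply, ← a.lt_iff, PL.mul_inv_apply] at c4; exact c4
  have hx : ∀ y, cx a y = max (a y) y := fun y => rfl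
  have hk : a s ≤ (cx a ^ (k + 1)) s ∧ (cx a ^ (k + 1)) s ≤ t s := by
    induction k with
    | zero =>
      rw [zero_add, pow_one, hx, max_eq_left c2.le]
      exact ⟨le_refl _, d3.le⟩
    | succ k ih =>
      have e1 : (cx a ^ (k + 1 + 1)) s = cx a ((cx a ^ (k + 1)) s) := by
        rw [pow_succ' _ (k + 1)]; rfl
      rw [e1, hx]
      refine ⟨ih.1.trans (le_max_right _ _), max_le ?_ ih.2⟩
      exact ((a.le_iff).2 ih.2).trans d4.le
  have h4 : b ((cx a ^ (k + 1)) s) ≤ (cx a ^ (k + 1)) s :=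
    (((b.le_iff).2 hk.2).trans (hbt s).le).trans hk.1
  generalize (cx a ^ (k + 1)) s = y at h4
  change max (min (b y) _) y = y
  exact max_eq_right ((min_le_left _ _).trans h4)

theorem good_PL2 (a b : PL) : Good (cx a) (cz a b) := by
  have hz : (1 : PL) ≤ cz a b := le_sup_right
  refine ⟨le_sup_right, hz, fun k => ?_⟩
  apply PL.ext'
  intro y
  change min (cz a b y) ((cx a ^ (k + 1)) (cz a b ((cx a ^ (k + 1))⁻¹ y))) = y
  have h1 : y ≤ cz a b y := hz y
  set s := (cx a ^ (k + 1))⁻¹ y with hs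
  have h2 : (cx a ^ (k + 1)) s = y := by rw [hs, PL.mul_inv_apply]
  have h3 : y ≤ (cx a ^ (k + 1)) (cz a b s) := by
    conv_lhs => rw [← h2]
    exact ((cx a ^ (k + 1)).le_iff).2 (hz s)
  by_cases h4 : s < cz a b s
  · have h5 := trap2 a b k s h4
    rw [h2] at h5
    rw [h5]
    exact min_eq_left h3
  · have h5 : cz a b s = s := le_antisymm (not_lt.1 h4) (hz s)
    rw [h5, h2]
    exact min_eq_right h1

theorem good_FG2 {V : Type} (i j : V) :
    Good (cx (G := FG V) (gen' i)) (cz (G := FG V) (gen' i) (gen' j)) := by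
  have e1 : ∀ f : V → PL, at' f (cx (G := FG V) (gen' i)) = cx (f i) := fun f => rfl
  have e2 : ∀ f : V → PL, at' f (cz (G := FG V) (gen' i) (gen' j)) = cz (f i) (f j) :=
    fun f => rfl
  have epow : ∀ (f : V → PL) (F : FG V) (k : ℕ), at' f (F ^ k) = (at' f F) ^ k :=
    fun f F k => map_pow (atHom f) F k
  refine ⟨le_sup_right, le_sup_right, fun k => ?_⟩
  apply at_ext
  intro f
  rw [at_inf, at_mul, at_mul, at_inv, epow, e1, e2, at_one]
  exact (good_PL2 (f i) (f j)).orth k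

theorem cz_ne_one {V : Type} (i j : V) (hij : i ≠ j) :
    cz (G := FG V) (gen' i) (gen' j) ≠ 1 := by
  classical
  intro h
  obtain ⟨a, ha⟩ : ∃ a : PL, a = PL.affine (1 / 4) 2 (by norm_num) := ⟨_, rfl⟩
  obtain ⟨b, hb⟩ : ∃ b : PL, b = PL.affine (1 / 8) (1 / 2) (by norm_num) := ⟨_, rfl⟩
  let f : V → PL := Function.update (fun _ => b) i a
  have hfi : f i = a := Function.update_self _ _ _
  have hfj : f j = b := Function.update_of_ne hij.symm _ _
  have h0 : at' f (cz (G := FG V) (gen' i) (gen' j)) = cz (f i) (f j) := rfl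
  have h1 : cz a b = 1 := by
    rw [← hfi, ← hfj, ← h0, h]; rfl
  have h2 : cz a b 0 = 0 := by rw [h1]; rfl
  have h3 : cz a b 0 = max (min (b 0) (min (a 0) (min (a⁻¹ (b⁻¹ (a 0)))
      ((b⁻¹ * a)⁻¹ (a⁻¹ (b⁻¹ (a 0))))))) 0 := rfl
  have hinv : ∀ y, (b⁻¹ * a)⁻¹ y = a⁻¹ (b y) := fun y => by
    rw [mul_inv_rev, inv_inv]; rfl
  have e0 : ∀ y, a y = 1 / 4 * y + 2 := fun y => by rw [ha]; rfl
  have e1 : ∀ y, b y = 1 / 8 * y + 1 / 2 := fun y => by rw [hb]; rfl
  have i0 : ∀ y, a⁻¹ y = (y - 2) / (1 / 4) := fun y => by rw [ha]; rfl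
  have i1 : ∀ y, b⁻¹ y = (y - 1 / 2) / (1 / 8) := fun y => by rw [hb]; rfl
  rw [h2, hinv, i0, i0, i1, e1, e1, e0] at h3
  have h4 : (0 : ℝ) < max (min (1 / 8 * 0 + 1 / 2) (min (1 / 4 * 0 + 2)
      (min (((1 / 4 * 0 + 2 - 1 / 2) / (1 / 8) - 2) / (1 / 4))
        ((1 / 8 * (((1 / 4 * 0 + 2 - 1 / 2) / (1 / 8) - 2) / (1 / 4)) + 1 / 2 - 2) / (1 / 4)))))
      0 := by
    rw [lt_max_iff]
    left
    rw [lt_min_iff, lt_min_iff, lt_min_iff]
    norm_num
  rw [← h3] at h4
  exact lt_irrefl _ h4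

theorem not_computable2 {V : Type} (i j : V) (hij : i ≠ j) : ¬ ComputablePred (Tr (FG V)) := by
  intro hcomp
  -- an undecidable recursively enumerable set of natural numbers
  obtain ⟨S, hre, hnc⟩ : ∃ S : ℕ → Prop, REPred S ∧ ¬ ComputablePred S := by
    refine ⟨fun n => ∃ c : Nat.Partrec.Code, Encodable.decode (α := Nat.Partrec.Code) n = some c ∧
      (c.eval 0).Dom, ?_, ?_⟩
    · have h := ComputablePred.halting_problem_re 0
      have h2 : Partrec fun n : ℕ => (Part.ofOption (Encodable.decode (α := Nat.Partrec.Code) n)).bind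
          (fun c => Part.assert (c.eval 0).Dom fun _ => Part.some ()) :=
        (Computable.decode.ofOption).bind (Partrec.comp h Computable.snd).to₂
      refine h2.of_eq fun n => ?_
      ext u
      simp
    · intro hc
      apply ComputablePred.halting_problem 0
      obtain ⟨hd, hcomp⟩ := hc
      have h3 : ComputablePred fun c : Nat.Partrec.Code =>
          ∃ c' : Nat.Partrec.Code, Encodable.decode (α := Nat.Partrec.Code) (Encodable.encode c) =
            some c' ∧ (c'.eval 0).Dom := ⟨fun c => hd _, hcomp.comp Computable.encode⟩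
      refine h3.of_eq fun c => ?_
      simp
  obtain ⟨W, hW, f, L, hL⟩ := exists_atoms S (dprm hre)
  classical
  let ρ : GV W → ℕ := fun v => (Fintype.equivFin (GV W) v : ℕ)
  have hρ : Function.Injective ρ := fun a b h =>
    (Fintype.equivFin (GV W)).injective (Fin.ext h)
  have key : ∀ n, S n ↔ ¬ Tr (FG V) (clause ρ L f n) := by
    intro n
    rw [hL]
    constructor
    · rintro ⟨c, hf, hc⟩ htr
      obtain ⟨g, hg, hz⟩ := sol_compl (good_FG2 i j) L f n c hf hc
      let x : ℕ → FG V := Function.extend ρ g 1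
      have hx : ∀ v, x (ρ v) = g v := fun v => hρ.extend_apply _ _ _
      have h1 : Sol L f n (fun v => x (ρ v)) := by
        have : (fun v => x (ρ v)) = g := funext hx
        rw [this]; exact hg
      obtain ⟨u, hu, h2⟩ := htr x ((fixH_iff ρ x L f n).2 h1)
      rw [show (clause ρ L f n).2 = [J1 (pl ρ vZ)] from rfl, List.mem_singleton] at hu
      rw [hu, nfv_J1, wv_pl, hx, hz] at h2
      exact cz_ne_one i j hij h2
    · intro htr
      unfold Tr at htr
      push Not at htr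
      obtain ⟨x, h1, h2⟩ := htr
      have h3 := (fixH_iff ρ x L f n).1 h1
      have h4 : x (ρ vZ) ≠ 1 := by
        have := h2 (J1 (pl ρ vZ)) (List.mem_singleton.2 rfl)
        rwa [nfv_J1, wv_pl] at this
      exact sol_FG h3 h4
  apply hnc
  obtain ⟨hd, hc⟩ := hcomp
  have h5 : ComputablePred fun n => Tr (FG V) (clause ρ L f n) :=
    ⟨fun n => hd _, hc.comp (primrec_clause ρ L f).to_comp⟩
  refine h5.not.of_eq fun n => ?_
  rw [key]

section transfer
variable {G H : Type} [Group G] [Lattice G] [Group H] [Lattice H]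

theorem wv_map (φ : G →* H) (x : ℕ → G) (l : Wd) :
    φ (FreeGroup.lift x (FreeGroup.mk l)) =
      FreeGroup.lift (fun i => φ (x i)) (FreeGroup.mk l) := by
  have h : φ.comp (FreeGroup.lift x) = FreeGroup.lift (fun i => φ (x i)) := by
    ext i
    simp
  rw [← h]; rfl

theorem inf_map (φ : G →* H) (h2 : ∀ a b : G, φ (a ⊓ b) = φ a ⊓ φ b) (x : ℕ → G)
    (l : Wd) (ls : List Wd) :
    φ (ls.foldr (fun w a => FreeGroup.lift x (FreeGroup.mk w) ⊓ a)
        (FreeGroup.lift x (FreeGroup.mk l))) =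
      ls.foldr (fun w a => FreeGroup.lift (fun i => φ (x i)) (FreeGroup.mk w) ⊓ a)
        (FreeGroup.lift (fun i => φ (x i)) (FreeGroup.mk l)) := by
  induction ls with
  | nil => exact wv_map φ x l
  | cons w ls ih => rw [List.foldr_cons, List.foldr_cons, h2, ih, wv_map]

theorem nfv_map (φ : G →* H) (h1 : ∀ a b : G, φ (a ⊔ b) = φ a ⊔ φ b)
    (h2 : ∀ a b : G, φ (a ⊓ b) = φ a ⊓ φ b) (x : ℕ → G) (t : NF) :
    φ (nfv x t) = nfv (fun i => φ (x i)) t := by
  obtain ⟨⟨l, ls⟩, qs⟩ := t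
  unfold nfv
  induction qs with
  | nil => exact inf_map φ h2 x l ls
  | cons q qs ih =>
    rw [List.foldr_cons, List.foldr_cons, h1, ih, inf_map φ h2]

/-- truth of clauses passes along an injective homomorphism, from the target to the source -/
theorem Tr.of_inj (φ : G →* H) (h1 : ∀ a b : G, φ (a ⊔ b) = φ a ⊔ φ b)
    (h2 : ∀ a b : G, φ (a ⊓ b) = φ a ⊓ φ b) (hφ : Function.Injective φ)
    {c : List NF × List NF} (h : Tr H c) : Tr G c := by
  have key : ∀ (x : ℕ → G) (t : NF), nfv x t = 1 ↔ nfv (fun i => φ (x i)) t = 1 := by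
    intro x t
    rw [← nfv_map φ h1 h2, map_eq_one_iff φ hφ]
  intro x hx
  obtain ⟨u, hu, h3⟩ := h (fun i => φ (x i)) (fun t ht => (key x t).1 (hx t ht))
  exact ⟨u, hu, (key x u).2 h3⟩

end transfer

/-- undecidability in every free lattice-ordered group of rank at least two -/
theorem not_computable_free (n : ℕ) (hn : 2 ≤ n)
    (G : Type) [Group G] [Lattice G] [MulLeftMono G] [MulRightMono G] (ι : Fin n → G)
    (hfree : ∀ (H : Type) [Group H] [Lattice H] [MulLeftMono H] [MulRightMono H] (f : Fin n → H),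
      ∃ φ : G →* H, (∀ a b : G, φ (a ⊔ b) = φ a ⊔ φ b) ∧ (∀ a b : G, φ (a ⊓ b) = φ a ⊓ φ b) ∧
        (∀ i, φ (ι i) = f i) ∧
        ∀ ψ : G →* H, (∀ a b : G, ψ (a ⊔ b) = ψ a ⊔ ψ b) → (∀ a b : G, ψ (a ⊓ b) = ψ a ⊓ ψ b) →
          (∀ i, ψ (ι i) = f i) → ψ = φ) :
    ¬ ComputablePred (Tr G) := by
  intro hc
  refine not_computable2 (V := Fin n) ⟨0, by omega⟩ ⟨1, by omega⟩ (by simp) ?_
  refine hc.of_eq fun c => ?_
  obtain ⟨φ, p1, p2, p3, -⟩ := hfree (FG (Fin n)) gen'
  obtain ⟨ψ, q1, q2, q3, -⟩ := FG_free G ι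
  have r1 : ψ.comp φ = MonoidHom.id G := by
    obtain ⟨θ, -, -, -, hu⟩ := hfree G ι
    rw [hu (ψ.comp φ) (fun a b => by simp [p1, q1]) (fun a b => by simp [p2, q2])
      (fun i => by simp [p3, q3])]
    exact (hu (MonoidHom.id G) (fun _ _ => rfl) (fun _ _ => rfl) (fun _ => rfl)).symm
  have r2 : φ.comp ψ = MonoidHom.id (FG (Fin n)) := by
    obtain ⟨θ, -, -, -, hu⟩ := FG_free (FG (Fin n)) (gen' (V := Fin n))
    rw [hu (φ.comp ψ) (fun a b => by simp [p1, q1]) (fun a b => by simp [p2, q2])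
      (fun i => by simp [p3, q3])]
    exact (hu (MonoidHom.id _) (fun _ _ => rfl) (fun _ _ => rfl) (fun _ => rfl)).symm
  have s1 : Function.Injective φ := by
    intro a b hab
    have := congrArg ψ hab
    change (ψ.comp φ) a = (ψ.comp φ) b at this
    rwa [r1] at this
  have s2 : Function.Injective ψ := by
    intro a b hab
    have := congrArg φ hab
    change (φ.comp ψ) a = (φ.comp ψ) b at this
    rwa [r2] at this
  exact ⟨fun h => Tr.of_inj ψ q1 q2 s2 h, fun h => Tr.of_inj φ p1 p2 s1 h⟩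

end Pool.Agent.Helper967.LG
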