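import Pool.Agent.Helper967.TR3
set_option autoImplicit false
open Polynomial

/-! J. Robinson's definition of the naturals in a ring of totally real integers, with boxes with
endpoints in the field. -/

namespace Pool.Agent.Helper967.RD

/-- totally negative -/
def Ng {O : Type} [CommRing O] {Φ : Type} (φ : Φ → O →+* ℝ) (x : O) : Prop := ∀ i, φ i x < 0

/-- boxes -/
def Bx {O : Type} [CommRing O] {Φ : Type} (φ : Φ → O →+* ℝ) (p p' q : O) : Set O :=
  {f | Ng φ (p - q*f) ∧ Ng φ (q*f - p')}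

/-- rings of totally real integers with arbitrarily large finite boxes -/
structure TD {O : Type} [CommRing O] [IsDomain O] {Φ : Type} (φ : Φ → O →+* ℝ) : Prop where
  ne : Nonempty Φ
  int : ∀ x : O, IsIntegral ℤ x
  inj : ∀ i, Function.Injective (φ i)
  conj : ∀ (x : O) (i : Φ) (z : ℂ), aeval z (minpoly ℚ ((φ i x : ℝ) : ℂ)) = 0 → ∃ j, z = ((φ j x : ℝ) : ℂ)

namespace TD
variable {O : Type} [CommRing O] [IsDomain O] {Φ : Type} {φ : Φ → O →+* ℝ} (h : TD φ)
include h

/-- the complex embedding -/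
lemma int' (i : Φ) (x : O) : IsIntegral ℤ ((φ i x : ℝ) : ℂ) := by
  have := (h.int x).map (Complex.ofRealHom.comp (φ i)).toIntAlgHom
  exact this

lemma minQ (i : Φ) (x : O) : minpoly ℚ ((φ i x : ℝ) : ℂ) = (minpoly ℤ ((φ i x : ℝ) : ℂ)).map (algebraMap ℤ ℚ) :=
  minpoly.isIntegrallyClosed_eq_field_fractions' ℚ (h.int' i x)

lemma coeff_ne (i : Φ) (x : O) (hx : x ≠ 0) : (minpoly ℤ ((φ i x : ℝ) : ℂ)).coeff 0 ≠ 0 := by
  intro h0
  have h1 : (minpoly ℚ ((φ i x : ℝ) : ℂ)).coeff 0 = 0 := by
    rw [h.minQ, coeff_map, h0, map_zero]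
  rw [minpoly.coeff_zero_eq_zero ((h.int' i x).tower_top)] at h1
  have h2 : φ i x = 0 := by exact_mod_cast h1
  exact hx ((map_eq_zero_iff (φ i) (h.inj i)).mp h2)

lemma root (i : Φ) (x : O) : aeval x (minpoly ℤ ((φ i x : ℝ) : ℂ)) = 0 := by
  have h1 := minpoly.aeval ℤ ((φ i x : ℝ) : ℂ)
  have h2 : aeval ((φ i x : ℝ) : ℂ) (minpoly ℤ ((φ i x : ℝ) : ℂ)) =
      (Complex.ofRealHom.comp (φ i)) (aeval x (minpoly ℤ ((φ i x : ℝ) : ℂ))) := by
    have := aeval_algHom_apply (Complex.ofRealHom.comp (φ i)).toIntAlgHom x (minpoly ℤ ((φ i x : ℝ) : ℂ))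
    exact this
  rw [h2] at h1
  have hinj : Function.Injective (Complex.ofRealHom.comp (φ i)) := by
    intro a b hab
    apply h.inj i
    have : ((φ i a : ℝ) : ℂ) = ((φ i b : ℝ) : ℂ) := hab
    exact_mod_cast this
  exact (map_eq_zero_iff _ hinj).mp h1

lemma dvd (x : O) (hx : x ≠ 0) : ∃ n : ℕ, 0 < n ∧ x ∣ (n : O) := by
  obtain ⟨i⟩ := h.ne
  set p := minpoly ℤ ((φ i x : ℝ) : ℂ) with hp
  have hc := h.coeff_ne i x hx
  rw [← hp] at hc
  have hr := h.root i x
  rw [← hp] at hr
  refine ⟨(p.coeff 0).natAbs, Int.natAbs_pos.mpr hc, ?_⟩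
  have h1 : x ∣ ((p.coeff 0 : ℤ) : O) := by
    rw [← divX_mul_X_add p, map_add, map_mul, aeval_X, aeval_C, eq_intCast] at hr
    refine ⟨- aeval x p.divX, ?_⟩
    linear_combination hr
  rcases Int.natAbs_eq (p.coeff 0) with h2 | h2
  · rw [h2] at h1; simpa using h1
  · rw [h2] at h1
    rw [Int.cast_neg, dvd_neg] at h1
    simpa using h1

lemma small (κ : O) (hκ : ∀ i, |φ i κ| < 1) : κ = 0 := by
  by_contra hne
  obtain ⟨i⟩ := h.ne
  set z : ℂ := ((φ i κ : ℝ) : ℂ) with hz
  have hmonic : (minpoly ℤ z).Monic := minpoly.monic (h.int' i κ)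
  have hc := h.coeff_ne i κ hne
  rw [← hz] at hc
  have hsp : ((minpoly ℤ z).map (Int.castRingHom ℂ)).Splits := IsAlgClosed.splits _
  have h1 := hsp.coeff_zero_eq_prod_roots_of_monic (hmonic.map _)
  have h2 : ‖((minpoly ℤ z).map (Int.castRingHom ℂ)).coeff 0‖ = (Multiset.map (fun a => ‖a‖) ((minpoly ℤ z).map (Int.castRingHom ℂ)).roots).prod := by
    rw [h1, norm_mul, norm_pow, norm_neg, norm_one, one_pow, one_mul]
    exact (map_multiset_prod (normHom : ℂ →*₀ ℝ) _)
  have hroots : ∀ a ∈ ((minpoly ℤ z).map (Int.castRingHom ℂ)).roots, ‖a‖ < 1 := by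
    intro a ha
    have h3 := (mem_roots'.mp ha).2
    rw [IsRoot.def, eval_map] at h3
    have h4 : aeval a (minpoly ℚ z) = 0 := by
      rw [hz, h.minQ, aeval_map_algebraMap]; exact h3
    obtain ⟨j, hj⟩ := h.conj κ i a h4
    rw [hj, Complex.norm_real, Real.norm_eq_abs]
    exact hκ j
  have hcard : ((minpoly ℤ z).map (Int.castRingHom ℂ)).roots ≠ 0 := by
    intro h0
    have h3 : z ∈ ((minpoly ℤ z).map (Int.castRingHom ℂ)).roots := by
      rw [mem_roots (hmonic.map _).ne_zero, IsRoot.def, eval_map]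
      exact minpoly.aeval ℤ z
    rw [h0] at h3
    simp at h3
  have key : ∀ s : Multiset ℂ, s ≠ 0 → (∀ a ∈ s, ‖a‖ < 1) → (Multiset.map (fun a => ‖a‖) s).prod < 1 := by
    intro s
    induction s using Multiset.induction_on with
    | empty => intro h0; exact absurd rfl h0
    | cons a s ih =>
      intro _ hs
      rw [Multiset.map_cons, Multiset.prod_cons]
      have h1 := hs a (Multiset.mem_cons_self a s)
      by_cases hs0 : s = 0
      · subst hs0; simpa using h1
      · have h2 := ih hs0 (fun b hb => hs b (Multiset.mem_cons_of_mem hb))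
        have h3 : 0 ≤ (Multiset.map (fun a => ‖a‖) s).prod := by
          apply Multiset.prod_nonneg
          intro b hb
          obtain ⟨c, _, rfl⟩ := Multiset.mem_map.mp hb
          exact norm_nonneg c
        nlinarith [norm_nonneg a]
  have h5 := key _ hcard hroots
  rw [← h2, coeff_map, eq_intCast, Complex.norm_intCast] at h5
  have h6 : |(minpoly ℤ z).coeff 0| < 1 := by exact_mod_cast h5
  exact hc (Int.abs_lt_one_iff.mp h6)

lemma natCast_inj {a b : ℕ} (hab : (a : O) = b) : a = b := by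
  obtain ⟨i⟩ := h.ne
  have := congrArg (φ i) hab
  simpa using this

end TD

section defs
variable {O : Type} [CommRing O] {Φ : Type} (φ : Φ → O →+* ℝ)

/-- the coded set -/
def InG (p p' q m u b x : O) : Prop :=
  Ng φ (-1 - x) ∧ Ng φ (x - b) ∧ ∃ f, Ng φ (p - q*f) ∧ Ng φ (q*f - p') ∧ ∃ y, x = u + (1 + m*(f+1))*y

/-- the definition of the naturals -/
def NatDef (n : O) : Prop := ∃ p p' q m u b : O, InG φ p p' q m u b n ∧
  ∀ x, InG φ p p' q m u b x → x = 0 ∨ InG φ p p' q m u b (x + -1)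

/-- there are arbitrarily large finite boxes of totally positive elements -/
def Boxes : Prop := ∀ n : ℕ, ∃ p p' q : O, (∀ f ∈ Bx φ p p' q, ∀ i, 0 < φ i f) ∧ (Bx φ p p' q).Finite ∧
  n ≤ (Bx φ p p' q).ncard

end defs

namespace TD
variable {O : Type} [CommRing O] [IsDomain O] {Φ : Type} {φ : Φ → O →+* ℝ} (h : TD φ)
include h

/-- uniqueness in a residue class -/
lemma uniq (m b f x x' y : O) (hm : ∀ i, φ i b ≤ φ i m) (hb : ∀ i, 0 ≤ φ i b) (hx : Ng φ (-1 - x)) (hxb : Ng φ (x - (b+1)))
    (hx' : ∀ i, 0 ≤ φ i x') (hxb' : ∀ i, φ i x' ≤ φ i b)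
    (hf : ∀ i, 0 < φ i f) (hy : x - x' = (1 + m*(f+1)) * y) : x = x' := by
  have hy0 : y = 0 := by
    apply h.small
    intro i
    have h1 := congrArg (φ i) hy
    simp only [map_sub, map_mul, map_add, map_one] at h1
    have e1 := hx i
    have e2 := hx' i
    have e3 := hxb i
    have e4 := hxb' i
    have e0 := hb i
    simp only [map_sub, map_neg, map_one, map_add] at e1 e3
    have e5 := hm i
    have e6 := hf i
    have hA : 1 + φ i m * (φ i f + 1) ≥ 1 + φ i m := by nlinarith
    have hApos : 0 < 1 + φ i m * (φ i f + 1) := by linarith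
    rw [abs_lt]
    constructor
    · by_contra hcon
      push Not at hcon
      have : (1 + φ i m * (φ i f + 1)) * φ i y ≤ (1 + φ i m * (φ i f + 1)) * (-1) :=
        mul_le_mul_of_nonneg_left hcon hApos.le
      linarith
    · by_contra hcon
      push Not at hcon
      have : (1 + φ i m * (φ i f + 1)) * 1 ≤ (1 + φ i m * (φ i f + 1)) * φ i y :=
        mul_le_mul_of_nonneg_left hcon hApos.le
      linarith
  rw [hy0, mul_zero, sub_eq_zero] at hy
  exact hy

theorem natDef_iff (hB : Boxes φ) (n : O) : NatDef φ n ↔ ∃ k : ℕ, n = k := by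
  constructor
  · rintro ⟨p, p', q, m, u, b, hn, hG⟩
    by_contra hcon
    push Not at hcon
    have hall : ∀ k : ℕ, InG φ p p' q m u b (n - k) := by
      intro k
      induction k with
      | zero => simpa using hn
      | succ k ih =>
        rcases hG _ ih with h1 | h1
        · exact absurd (sub_eq_zero.mp h1) (hcon k)
        · push_cast
          have e : n - ((k:O) + 1) = n - k + -1 := by ring
          rw [e]; exact h1
    obtain ⟨i⟩ := h.ne
    obtain ⟨k, hk⟩ := exists_nat_gt (φ i n + 1)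
    have h1 := (hall k).1 i
    simp only [map_sub, map_neg, map_one, map_natCast] at h1
    linarith
  · rintro ⟨k, rfl⟩
    classical
    obtain ⟨p, p', q, hFpos, hF, hFc⟩ := hB (k+1)
    set F := Bx φ p p' q with hFdef
    obtain ⟨T, hT, hTc⟩ := Set.exists_subset_card_eq hFc
    have hTfin : T.Finite := hF.subset hT
    have := hF.fintype
    have hFf : Finite F := hF
    -- the value function
    have hval : ∃ val : F → ℕ, (∀ f, val f ≤ k) ∧ ∀ l ≤ k, ∃ f, val f = l := by
      have := hTfin.fintype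
      have e : T ≃ Fin (k+1) := Fintype.equivFinOfCardEq (by rw [← hTc, Set.ncard_eq_toFinset_card', Set.toFinset_card])
      refine ⟨fun f => if hf : (f:O) ∈ T then ((e ⟨f, hf⟩ : Fin (k+1)) : ℕ) else 0, ?_, ?_⟩
      · intro f
        dsimp only
        split_ifs with hf
        · omega
        · omega
      · intro l hl
        obtain ⟨x, hx⟩ := e.surjective ⟨l, by omega⟩
        refine ⟨⟨x, hT x.2⟩, ?_⟩
        dsimp only
        rw [dif_pos x.2]
        simp [hx]
    obtain ⟨val, hval1, hval2⟩ := hval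
    -- the modulus
    have hN : ∀ x : O, ∃ N : ℕ, 0 < N ∧ (x ≠ 0 → x ∣ (N : O)) := by
      intro x
      by_cases hx : x = 0
      · exact ⟨1, one_pos, fun h0 => absurd hx h0⟩
      · obtain ⟨N, h1, h2⟩ := h.dvd x hx
        exact ⟨N, h1, fun _ => h2⟩
    choose N hN0 hNd using hN
    set mn : ℕ := (k+1) * ∏ x : F × F, N ((x.1 : O) - x.2) with hmn
    have hprod : 0 < ∏ x : F × F, N ((x.1 : O) - x.2) := Finset.prod_pos (fun _ _ => hN0 _)
    have hmnk : k ≤ mn := by
      rw [hmn]; nlinarith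
    have hdvd : ∀ f f' : F, f ≠ f' → ((f:O) - f') ∣ (mn : O) := by
      intro f f' hff
      have h1 : ((f:O) - f') ≠ 0 := by
        intro h0; exact hff (Subtype.ext (sub_eq_zero.mp h0))
      refine (hNd _ h1).trans ?_
      have h2 : N ((f:O) - f') ∣ mn := by
        rw [hmn]
        apply Dvd.dvd.mul_left
        exact Finset.dvd_prod_of_mem (fun x : F × F => N ((x.1 : O) - x.2)) (Finset.mem_univ (f, f'))
      exact_mod_cast (Nat.cast_dvd_cast h2 : ((N ((f:O) - f') : ℕ) : O) ∣ (mn : O))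
    set m : O := (mn : O) with hmdef
    have hcop : Pairwise (Function.onFun IsCoprime (fun f : F => Ideal.span {(1 + m*((f:O)+1))})) := by
      intro f f' hff
      rw [Function.onFun, Ideal.isCoprime_span_singleton_iff]
      exact TR.JRData.isCoprime_aux m f f' (hdvd f f' hff)
    obtain ⟨u, hu⟩ := Ideal.exists_forall_sub_mem_ideal hcop (fun f : F => ((val f : ℕ) : O))
    have hu' : ∀ f : F, ∃ y, ((val f : ℕ) : O) = u + (1 + m*((f:O)+1)) * y := by
      intro f
      obtain ⟨y, hy⟩ := Ideal.mem_span_singleton'.mp (hu f)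
      exact ⟨-y, by linear_combination hy⟩
    have hmem : ∀ l ≤ k, InG φ p p' q m u ((k : O) + 1) ((l : ℕ) : O) := by
      intro l hl
      obtain ⟨f, hf⟩ := hval2 l hl
      obtain ⟨y, hy⟩ := hu' f
      rw [hf] at hy
      refine ⟨fun i => ?_, fun i => ?_, f, f.2.1, f.2.2, y, hy⟩
      · rw [map_sub, map_natCast, map_neg, map_one]
        have : (0:ℝ) ≤ l := by positivity
        linarith
      · rw [map_sub, map_natCast, map_add, map_natCast, map_one]
        have : (l:ℝ) ≤ k := by exact_mod_cast hl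
        linarith
    have hmem' : ∀ x, InG φ p p' q m u ((k : O) + 1) x → ∃ l ≤ k, x = ((l:ℕ) : O) := by
      rintro x ⟨hx, hxb, f, hf, hf', y, hy⟩
      have hfF : f ∈ F := ⟨hf, hf'⟩
      obtain ⟨y', hy'⟩ := hu' ⟨f, hfF⟩
      refine ⟨val ⟨f, hfF⟩, hval1 _, ?_⟩
      apply h.uniq m ((k:ℕ):O) f x _ (y - y') ?_ ?_ hx hxb ?_ ?_ (hFpos f hfF)
      · rw [hy]
        linear_combination -hy'
      · intro i
        rw [hmdef, map_natCast, map_natCast]
        exact_mod_cast hmnk
      · intro i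
        rw [map_natCast]; positivity
      · intro i
        rw [map_natCast]; positivity
      · intro i
        rw [map_natCast, map_natCast]
        exact_mod_cast hval1 ⟨f, hfF⟩
    refine ⟨p, p', q, m, u, (k:O) + 1, hmem k le_rfl, ?_⟩
    intro x hx
    obtain ⟨l, hl, rfl⟩ := hmem' x hx
    rcases Nat.eq_zero_or_pos l with h1 | h1
    · left; rw [h1, Nat.cast_zero]
    · right
      have := hmem (l-1) (by omega)
      rw [Nat.cast_sub h1, Nat.cast_one] at this
      rw [← sub_eq_add_neg]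
      exact this

end TD

end Pool.Agent.Helper967.RD
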