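import Pool.Agent.Helper967.TR3
import Pool.Agent.Helper967.ModelDef
import Pool.Agent.Helper967.TRDefs
set_option autoImplicit false

/-! Undecidability of the theory of rings of totally real integers -/

namespace Pool.Agent.Helper967.TR

open FirstOrder FirstOrder.Language
open Pool.Agent.Helper967.ArithDef Pool.Agent.Helper967.ModelDef

section interp

variable {O : Type} [CommRing O] [IsDomain O] {Φ : Type} {φ : Φ → O →+* ℝ}

/-- the structure -/
noncomputable local instance strO {R : Type} [CommRing R] : Language.ring.Structure R :=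
  (FirstOrder.Ring.compatibleRingOfRing R).toStructure

/-- the one-element family -/
abbrev par (R : Type) : ∀ _ : Unit, Empty → R := fun _ e => e.elim

/-- variables -/
abbrev tv (n : ℕ) : Language.ring.Term (Empty ⊕ ℕ) := Term.var (Sum.inr n)
/-- sum of terms -/
abbrev tA {α : Type} (s t : Language.ring.Term α) : Language.ring.Term α := Term.func (ringFunc.add : Language.ring.Functions 2) ![s, t]
/-- product of terms -/
abbrev tM {α : Type} (s t : Language.ring.Term α) : Language.ring.Term α := Term.func (ringFunc.mul : Language.ring.Functions 2) ![s, t]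
/-- negation -/
abbrev tN {α : Type} (s : Language.ring.Term α) : Language.ring.Term α := Term.func (ringFunc.neg : Language.ring.Functions 1) ![s]
/-- the term `0` -/
abbrev t0 {α : Type} : Language.ring.Term α := Term.func (ringFunc.zero : Language.ring.Functions 0) ![]
/-- the term `1` -/
abbrev t1 {α : Type} : Language.ring.Term α := Term.func (ringFunc.one : Language.ring.Functions 0) ![]

theorem dm_sub {R : O → Prop} (hR : DM (M := fun _ : Unit => O) Language.ring (par O) (fun _ v => R (v 0)))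
    (t : Language.ring.Term (Empty ⊕ ℕ)) :
    DM (M := fun _ : Unit => O) Language.ring (par O) (fun i v => R (t.realize (Sum.elim (par O i) v))) := by
  refine DM.iff (R := fun i v => ∃ a, a = t.realize (Sum.elim (par O i) v) ∧ R a) (fun i v => by simp) ?_
  refine DM.ex (S := fun i a v => a = t.realize (Sum.elim (par O i) v) ∧ R a) (DM.and ?_ hR)
  refine DM.iff ?_ (DM.term (tv 0) (t.relabel (Sum.map id (fun n => n + 1))))
  intro i v
  rw [Term.realize_relabel]
  have : Sum.elim (par O i) v ∘ Sum.map id (fun n => n + 1) = Sum.elim (par O i) (fun n => v (n+1)) := by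
    funext s; rcases s with e | n
    · exact e.elim
    · rfl
  rw [this]
  rfl

variable (h : JRData φ)
include h

theorem dm_nn : DM (M := fun _ : Unit => O) Language.ring (par O) (fun _ v => Nn φ (v 0)) := by
  refine DM.iff (R := fun _ v => ∃ c a b d e : O, c ≠ 0 ∧ c*c*(v 0) = a*a+b*b+(d*d+e*e)) (fun i v => (h.pos (v 0)).symm) ?_
  exact DM.ex (DM.ex (DM.ex (DM.ex (DM.ex (DM.and (DM.not (DM.term (tv 4) t0))
    (DM.term (tM (tM (tv 4) (tv 4)) (tv 5)) (tA (tA (tM (tv 3) (tv 3)) (tM (tv 2) (tv 2)))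
      (tA (tM (tv 1) (tv 1)) (tM (tv 0) (tv 0))))))))))

theorem dm_inG : DM (M := fun _ : Unit => O) Language.ring (par O)
    (fun _ v => InG φ (v 0) (v 1) (v 2) (v 3) (v 4) (v 5)) := by
  unfold InG
  refine DM.and (dm_sub (dm_nn h) (tv 5)) (DM.and ?_ ?_)
  · refine DM.iff (fun i v => ?_) (dm_sub (dm_nn h) (tA (tv 4) (tN (tv 5))))
    show Nn φ (v 4 + -(v 5)) ↔ Nn φ (v 4 - v 5)
    rw [sub_eq_add_neg]
  · refine DM.ex (S := fun _ f v => Nn φ f ∧ f ≠ 0 ∧ Nn φ (v 0 - v 1*f) ∧ ∃ y, v 5 = v 3 + (1 + v 2*(f+1))*y) ?_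
    refine DM.and (dm_nn h) (DM.and (DM.not (DM.term (tv 0) t0)) (DM.and ?_ ?_))
    · refine DM.iff (fun i v => ?_) (dm_sub (dm_nn h) (tA (tv 1) (tN (tM (tv 2) (tv 0)))))
      show Nn φ (v 1 + -(v 2 * v 0)) ↔ Nn φ (v 1 - v 2 * v 0)
      rw [sub_eq_add_neg]
    · exact DM.ex (DM.term (tv 7) (tA (tv 5) (tM (tA t1 (tM (tv 4) (tA (tv 1) t1))) (tv 0))))

theorem dm_natDef : DM (M := fun _ : Unit => O) Language.ring (par O) (fun _ v => NatDef φ (v 0)) := by
  unfold NatDef
  have hG : ∀ a0 a1 a2 a3 a4 a5 : ℕ, DM (M := fun _ : Unit => O) Language.ring (par O)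
      (fun _ v => InG φ (v a0) (v a1) (v a2) (v a3) (v a4) (v a5)) := fun a0 a1 a2 a3 a4 a5 =>
    DM.ren (R := fun _ v => InG φ (v 0) (v 1) (v 2) (v 3) (v 4) (v 5))
      (fun n => match n with | 0 => a0 | 1 => a1 | 2 => a2 | 3 => a3 | 4 => a4 | _ => a5) (dm_inG h)
  refine DM.ex (DM.ex (DM.ex (DM.ex (DM.ex ?_))))
  -- variables: b = 0, u = 1, m = 2, q = 3, p = 4, n = 5
  refine DM.and (dm_sub (dm_nn h) (tv 3)) (DM.and (DM.not (DM.term (tv 3) t0)) (DM.and ?_ (DM.and ?_ (DM.and ?_ (DM.and ?_ ?_)))))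
  · refine DM.iff (fun i v => ?_) (dm_sub (dm_nn h) (tA (tM (tA (tA t1 t1) (tA t1 t1)) (tv 3)) (tN (tv 4))))
    show Nn φ ((1 + 1 + (1 + 1)) * v 3 + -(v 4)) ↔ Nn φ (4 * v 3 - v 4)
    have e : (1 + 1 + (1 + 1) : O) * v 3 + -(v 4) = 4 * v 3 - v 4 := by ring
    rw [e]
  · refine DM.iff (fun i v => ?_) (DM.not (DM.term (tA (tM (tA (tA t1 t1) (tA t1 t1)) (tv 3)) (tN (tv 4))) t0))
    show ¬ ((1 + 1 + (1 + 1)) * v 3 + -(v 4) = 0) ↔ 4 * v 3 - v 4 ≠ 0
    have e : (1 + 1 + (1 + 1) : O) * v 3 + -(v 4) = 4 * v 3 - v 4 := by ring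
    rw [e]
  · refine DM.iff (fun i v => ?_) (dm_sub (dm_nn h) (tA (tv 2) (tN (tv 0))))
    show Nn φ (v 2 + -(v 0)) ↔ Nn φ (v 2 - v 0)
    rw [sub_eq_add_neg]
  · refine DM.iff (R := fun _ v => ∃ z, z = 0 ∧ InG φ (v 4) (v 3) (v 2) (v 1) (v 0) z) (fun i v => by simp) ?_
    exact DM.ex (DM.and (DM.term (tv 0) t0) (hG 5 4 3 2 1 0))
  · refine DM.all (S := fun _ x v => InG φ (v 4) (v 3) (v 2) (v 1) (v 0) x → x ≠ v 5 → InG φ (v 4) (v 3) (v 2) (v 1) (v 0) (x+1)) ?_
    refine DM.imp (hG 5 4 3 2 1 0) (DM.imp (DM.not (DM.term (tv 0) (tv 6))) ?_)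
    refine DM.iff (R := fun _ v => ∃ z, z = v 0 + 1 ∧ InG φ (v 5) (v 4) (v 3) (v 2) (v 1) z) (fun i v => by simp) ?_
    exact DM.ex (DM.and (DM.term (tv 0) (tA (tv 1) t1)) (hG 6 5 4 3 2 0))

/-- the standard copy of the naturals -/
abbrev nu (R : Type) [CommRing R] : ∀ _ : Unit, ℕ → R := fun _ n => (n : R)

theorem interp : Interp (L := Language.ring) (M := fun _ : Unit => O) (par O) (nu O) where
  rng := DM.iff (fun i v => h.natDef_iff (v 0)) (dm_natDef h)
  add := ⟨fun _ v => v 0 + v 1 = v 2, DM.term (tA (tv 0) (tv 1)) (tv 2), fun _ w => by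
    simp only [nu]
    rw [← Nat.cast_add]
    exact ⟨fun hh => h.natCast_inj hh, fun hh => by rw [hh]⟩⟩
  mul := ⟨fun _ v => v 0 * v 1 = v 2, DM.term (tM (tv 0) (tv 1)) (tv 2), fun _ w => by
    simp only [nu]
    rw [← Nat.cast_mul]
    exact ⟨fun hh => h.natCast_inj hh, fun hh => by rw [hh]⟩⟩

omit h

/-- numerals -/
def num : ℕ → Language.ring.Term (Empty ⊕ Fin 1)
  | 0 => t0
  | n + 1 => tA (num n) t1

theorem realize_num {R : Type} [CommRing R] (n : ℕ) (v : Empty ⊕ Fin 1 → R) : (num n).realize v = (n : R) := by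
  induction n with
  | zero => exact Nat.cast_zero.symm
  | succ n ih =>
    have : (num (n + 1)).realize v = (num n).realize v + 1 := rfl
    rw [this, ih]
    push_cast
    rfl

theorem primrec_num : Primrec (fun n => termCode (num n)) := by
  have : (fun n => termCode (num n)) = (fun n => Nat.rec (Nat.pair 1 0)
      (fun _ c => Nat.pair 4 (Nat.pair c (Nat.pair 2 0))) n) := by
    funext n
    induction n with
    | zero => rfl
    | succ n ih =>
      show Nat.pair 4 (Nat.pair (termCode (num n)) (Nat.pair 2 0)) = _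
      rw [ih]
  rw [this]
  refine Primrec.nat_rec₁ _ ?_
  exact Primrec₂.natPair.comp (Primrec.const 4)
    (Primrec₂.natPair.comp Primrec.snd (Primrec.const _))

/-- The sentence `∀ x, x = n → Ψ x`. -/
def sig (Ψ : Language.ring.BoundedFormula Empty 1) (n : ℕ) : Language.ring.Sentence :=
  ((BoundedFormula.equal (Term.var (Sum.inr 0)) (num n)).imp Ψ).all

theorem code_sig (Ψ : Language.ring.BoundedFormula Empty 1) (n : ℕ) : code (sig Ψ n) =
    Nat.pair 3 (Nat.pair 2 (Nat.pair (Nat.pair 1 (Nat.pair (Nat.pair 0 0) (termCode (num n))))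
      (code Ψ))) := rfl

theorem primrec_sig (Ψ : Language.ring.BoundedFormula Empty 1) : Primrec (fun n => code (sig Ψ n)) := by
  simp only [code_sig]
  refine Primrec₂.natPair.comp (Primrec.const _) (Primrec₂.natPair.comp (Primrec.const _)
    (Primrec₂.natPair.comp (Primrec₂.natPair.comp (Primrec.const _)
      (Primrec₂.natPair.comp (Primrec.const _) primrec_num)) (Primrec.const _)))

include h

theorem exists_formula : ∃ Ψ : Language.ring.BoundedFormula Empty 1, ∀ n : ℕ,
    O ⊨ sig Ψ n ↔ Halt n := by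
  obtain ⟨ψ, hψ⟩ := (DN.closed (interp h)).halt
  let g : Empty ⊕ ℕ → Empty ⊕ Fin 1 := fun s => match s with
    | .inl e => e.elim
    | .inr _ => .inr 0
  refine ⟨BoundedFormula.relabel (n := 1) g ψ, fun n => ?_⟩
  unfold sig Sentence.Realize Formula.Realize
  rw [BoundedFormula.realize_all]
  simp only [BoundedFormula.realize_imp]
  refine Iff.trans ?_ (hψ () (fun _ => n))
  have key : ∀ (v0 : Empty → O) (x0 : Fin 0 → O) (a : O),
      (BoundedFormula.relabel (n := 1) g ψ : Language.ring.BoundedFormula Empty 1).Realize v0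
        (Fin.snoc x0 a : Fin 1 → O) ↔ ψ.Realize (Sum.elim (par O ()) (fun _ => a)) := by
    intro v0 x0 a
    rw [BoundedFormula.realize_relabel]
    have h1 : (Sum.elim v0 ((Fin.snoc x0 a : Fin 1 → O) ∘ Fin.castAdd 0) ∘ g) =
        Sum.elim (par O ()) (fun _ => a) := by
      funext s
      rcases s with e | k
      · exact e.elim
      · rfl
    rw [h1]
    unfold Formula.Realize
    exact iff_of_eq (congrArg (BoundedFormula.Realize ψ _) (Subsingleton.elim _ _))
  constructor
  · intro hh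
    refine (key _ _ _).1 (hh (n : O) ?_)
    show _ = _
    rw [realize_num]
    rfl
  · intro hh a ha
    refine (key _ _ _).2 ?_
    have h1 : a = (n : O) := Eq.trans (b := _) ha (realize_num n _)
    rw [h1]
    exact hh

/-- J. Robinson: the theory is undecidable. -/
theorem undecidable : ¬ DecidableTheory O := by
  intro hc
  obtain ⟨Ψ, hΨ⟩ := exists_formula h
  apply halt_not_computable
  unfold DecidableTheory at hc
  obtain ⟨f, hf, hfe⟩ := ComputablePred.computable_iff.1 hc
  refine ComputablePred.computable_iff.2 ⟨fun n => f (code (sig Ψ n)),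
    hf.comp (primrec_sig Ψ).to_comp, ?_⟩
  funext n
  have h1 := congrFun hfe (code (sig Ψ n))
  refine Eq.trans ?_ h1
  apply propext
  rw [← hΨ n]
  constructor
  · intro hh
    exact ⟨sig Ψ n, rfl, hh⟩
  · rintro ⟨ψ, hψ, hh⟩
    rw [← code_injective _ _ hψ]
    exact hh

end interp

end Pool.Agent.Helper967.TR
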