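import Pool.Agent.Helper967.RD1
import Pool.Agent.Helper967.TR4
set_option autoImplicit false

/-! Undecidability of the theory of rings of totally real integers -/

namespace Pool.Agent.Helper967.RD

open FirstOrder FirstOrder.Language
open Pool.Agent.Helper967.ArithDef Pool.Agent.Helper967.ModelDef Pool.Agent.Helper967.TR

section interp

variable {O : Type} [CommRing O] [IsDomain O] {Φ : Type} {φ : Φ → O →+* ℝ}

/-- the structure -/
noncomputable local instance strO {R : Type} [CommRing R] : Language.ring.Structure R :=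
  (FirstOrder.Ring.compatibleRingOfRing R).toStructure

/-- definability of total negativity -/
def OrdDef (φ : Φ → O →+* ℝ) : Prop := DM (M := fun _ : Unit => O) Language.ring (par O) (fun _ v => Ng φ (v 0))

variable (h : TD φ) (hO : OrdDef φ) (hB : Boxes φ)

include hO in
theorem dm_inG : DM (M := fun _ : Unit => O) Language.ring (par O)
    (fun _ v => InG φ (v 0) (v 1) (v 2) (v 3) (v 4) (v 5) (v 6)) := by
  unfold InG
  refine DM.and ?_ (DM.and ?_ ?_)
  · refine DM.iff (fun i v => ?_) (dm_sub hO (tA (tN t1) (tN (tv 6))))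
    show Ng φ (-1 + -(v 6)) ↔ Ng φ (-1 - v 6)
    rw [← sub_eq_add_neg]
  · refine DM.iff (fun i v => ?_) (dm_sub hO (tA (tv 6) (tN (tv 5))))
    show Ng φ (v 6 + -(v 5)) ↔ Ng φ (v 6 - v 5)
    rw [sub_eq_add_neg]
  · refine DM.ex (S := fun _ f v => Ng φ (v 0 - v 2*f) ∧ Ng φ (v 2*f - v 1) ∧ ∃ y, v 6 = v 4 + (1 + v 3*(f+1))*y) ?_
    refine DM.and ?_ (DM.and ?_ ?_)
    · refine DM.iff (fun i v => ?_) (dm_sub hO (tA (tv 1) (tN (tM (tv 3) (tv 0)))))
      show Ng φ (v 1 + -(v 3 * v 0)) ↔ Ng φ (v 1 - v 3 * v 0)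
      rw [sub_eq_add_neg]
    · refine DM.iff (fun i v => ?_) (dm_sub hO (tA (tM (tv 3) (tv 0)) (tN (tv 2))))
      show Ng φ (v 3 * v 0 + -(v 2)) ↔ Ng φ (v 3 * v 0 - v 2)
      rw [sub_eq_add_neg]
    · exact DM.ex (DM.term (tv 8) (tA (tv 6) (tM (tA t1 (tM (tv 5) (tA (tv 1) t1))) (tv 0))))

include hO in
theorem dm_natDef : DM (M := fun _ : Unit => O) Language.ring (par O) (fun _ v => NatDef φ (v 0)) := by
  unfold NatDef
  have hG : ∀ a0 a1 a2 a3 a4 a5 a6 : ℕ, DM (M := fun _ : Unit => O) Language.ring (par O)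
      (fun _ v => InG φ (v a0) (v a1) (v a2) (v a3) (v a4) (v a5) (v a6)) := fun a0 a1 a2 a3 a4 a5 a6 =>
    DM.ren (R := fun _ v => InG φ (v 0) (v 1) (v 2) (v 3) (v 4) (v 5) (v 6))
      (fun n => match n with | 0 => a0 | 1 => a1 | 2 => a2 | 3 => a3 | 4 => a4 | 5 => a5 | _ => a6) (dm_inG hO)
  refine DM.ex (DM.ex (DM.ex (DM.ex (DM.ex (DM.ex ?_)))))
  -- variables: b = 0, u = 1, m = 2, q = 3, p' = 4, p = 5, n = 6
  refine DM.and (hG 5 4 3 2 1 0 6) ?_
  refine DM.all (S := fun _ x v => InG φ (v 5) (v 4) (v 3) (v 2) (v 1) (v 0) x →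
    x = 0 ∨ InG φ (v 5) (v 4) (v 3) (v 2) (v 1) (v 0) (x + -1)) ?_
  refine DM.imp (hG 6 5 4 3 2 1 0) (DM.or (DM.term (tv 0) t0) ?_)
  refine DM.iff (R := fun _ v => ∃ z, z = v 0 + -1 ∧ InG φ (v 6) (v 5) (v 4) (v 3) (v 2) (v 1) z) (fun i v => by simp) ?_
  exact DM.ex (DM.and (DM.term (tv 0) (tA (tv 1) (tN t1))) (hG 7 6 5 4 3 2 0))

include h hO hB in
theorem interp : Interp (L := Language.ring) (M := fun _ : Unit => O) (par O) (nu O) where
  rng := DM.iff (fun i v => h.natDef_iff hB (v 0)) (dm_natDef hO)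
  add := ⟨fun _ v => v 0 + v 1 = v 2, DM.term (tA (tv 0) (tv 1)) (tv 2), fun _ w => by
    simp only [nu]
    rw [← Nat.cast_add]
    exact ⟨fun hh => h.natCast_inj hh, fun hh => by rw [hh]⟩⟩
  mul := ⟨fun _ v => v 0 * v 1 = v 2, DM.term (tM (tv 0) (tv 1)) (tv 2), fun _ w => by
    simp only [nu]
    rw [← Nat.cast_mul]
    exact ⟨fun hh => h.natCast_inj hh, fun hh => by rw [hh]⟩⟩

include h hO hB in
theorem exists_formula : ∃ Ψ : Language.ring.BoundedFormula Empty 1, ∀ n : ℕ,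
    O ⊨ sig Ψ n ↔ Halt n := by
  obtain ⟨ψ, hψ⟩ := (DN.closed (interp h hO hB)).halt
  let g : Empty ⊕ ℕ → Empty ⊕ Fin 1 := fun s => match s with
    | .inl e => e.elim
    | .inr _ => .inr 0
  refine ⟨BoundedFormula.relabel (n := 1) g ψ, fun n => ?_⟩
  unfold sig Sentence.Realize Formula.Realize
  rw [BoundedFormula.realize_all]
  simp only [BoundedFormula.realize_imp]
  refine Iff.trans ?_ (hψ () (fun _ => n))
  have key : ∀ (v0 : Empty → O) (x0 : Fin 0 → O) (a : O),
      (BoundedFormula.relabel (n := 1) g ψ : Language.ring.BoundedFormula Empty 1).Realize v0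
        (Fin.snoc x0 a : Fin 1 → O) ↔ ψ.Realize (Sum.elim (par O ()) (fun _ => a)) := by
    intro v0 x0 a
    rw [BoundedFormula.realize_relabel]
    have h1 : (Sum.elim v0 ((Fin.snoc x0 a : Fin 1 → O) ∘ Fin.castAdd 0) ∘ g) =
        Sum.elim (par O ()) (fun _ => a) := by
      funext s
      rcases s with e | k
      · exact e.elim
      · rfl
    rw [h1]
    unfold Formula.Realize
    exact iff_of_eq (congrArg (BoundedFormula.Realize ψ _) (Subsingleton.elim _ _))
  constructor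
  · intro hh
    refine (key _ _ _).1 (hh (n : O) ?_)
    show _ = _
    rw [realize_num]
    rfl
  · intro hh a ha
    refine (key _ _ _).2 ?_
    have h1 : a = (n : O) := Eq.trans (b := _) ha (realize_num n _)
    rw [h1]
    exact hh

include h hO hB in
/-- J. Robinson: the theory is undecidable. -/
theorem undecidable : ¬ DecidableTheory O := by
  intro hc
  obtain ⟨Ψ, hΨ⟩ := exists_formula h hO hB
  apply halt_not_computable
  unfold DecidableTheory at hc
  obtain ⟨f, hf, hfe⟩ := ComputablePred.computable_iff.1 hc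
  refine ComputablePred.computable_iff.2 ⟨fun n => f (code (sig Ψ n)),
    hf.comp (primrec_sig Ψ).to_comp, ?_⟩
  funext n
  have h1 := congrFun hfe (code (sig Ψ n))
  refine Eq.trans ?_ h1
  apply propext
  rw [← hΨ n]
  constructor
  · intro hh
    exact ⟨sig Ψ n, rfl, hh⟩
  · rintro ⟨ψ, hψ, hh⟩
    rw [← code_injective _ _ hψ]
    exact hh

end interp

end Pool.Agent.Helper967.RD
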