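import Mathlib
set_option autoImplicit false
open MeasureTheory

/-! Arbitrarily large finite boxes. -/

namespace Pool.Agent.Helper967.RD

variable {G : Type} [TopologicalSpace G] [CompactSpace G]

section density

/-- the closure of a ring of functions containing the rational constants is a closed real algebra -/
noncomputable def clo (A : Subring C(G, ℝ)) (hQ : ∀ q : ℚ, ContinuousMap.const G (q : ℝ) ∈ A) :
    Subalgebra ℝ C(G, ℝ) where
  carrier := closure (A : Set C(G, ℝ))
  mul_mem' := fun ha hb => A.topologicalClosure.mul_mem ha hb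
  add_mem' := fun ha hb => A.topologicalClosure.add_mem ha hb
  algebraMap_mem' := by
    intro r
    have h1 : (r : ℝ) ∈ closure (Set.range (Rat.cast : ℚ → ℝ)) := Rat.denseRange_cast r
    have hc : Continuous (fun r : ℝ => algebraMap ℝ C(G, ℝ) r) := continuous_algebraMap ℝ C(G, ℝ)
    have h2 := image_closure_subset_closure_image hc ⟨r, h1, rfl⟩
    refine closure_mono ?_ h2
    rintro _ ⟨_, ⟨q, rfl⟩, rfl⟩
    have : algebraMap ℝ C(G, ℝ) (q : ℝ) = ContinuousMap.const G (q : ℝ) := by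
      ext x; simp
    simp only [this]
    exact hQ q

lemma exists_approx (A : Subring C(G, ℝ)) (hQ : ∀ q : ℚ, ContinuousMap.const G (q : ℝ) ∈ A)
    (f : C(G, ℝ)) (hf : f ∈ clo A hQ) (δ ε : ℝ) (hε : 0 < ε) :
    ∃ l ∈ A, ∀ σ, |l σ - (f σ + δ)| < ε := by
  have h1 : f + algebraMap ℝ C(G, ℝ) δ ∈ clo A hQ := (clo A hQ).add_mem hf ((clo A hQ).algebraMap_mem δ)
  have h2 : f + algebraMap ℝ C(G, ℝ) δ ∈ closure (A : Set C(G, ℝ)) := h1
  rw [Metric.mem_closure_iff] at h2
  obtain ⟨l, hl, hd⟩ := h2 ε hε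
  refine ⟨l, hl, fun σ => ?_⟩
  rw [ContinuousMap.dist_lt_iff hε] at hd
  have := hd σ
  rw [dist_comm, Real.dist_eq] at this
  simpa using this

lemma sup_mem (A : Subring C(G, ℝ)) (hQ : ∀ q : ℚ, ContinuousMap.const G (q : ℝ) ∈ A)
    (X : Finset C(G, ℝ)) (hX : X.Nonempty) (hXA : ∀ x ∈ X, x ∈ A) : X.sup' hX id ∈ clo A hQ := by
  have hcl : IsClosed ((clo A hQ : Subalgebra ℝ C(G, ℝ)) : Set C(G, ℝ)) := isClosed_closure
  refine Finset.sup'_induction hX id (p := fun f => f ∈ clo A hQ) ?_ ?_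
  · intro a ha b hb
    exact ContinuousMap.sup_mem_closed_subalgebra (clo A hQ) hcl ⟨a, ha⟩ ⟨b, hb⟩
  · intro b hb
    exact subset_closure (hXA b hb)

lemma inf_mem (A : Subring C(G, ℝ)) (hQ : ∀ q : ℚ, ContinuousMap.const G (q : ℝ) ∈ A)
    (X : Finset C(G, ℝ)) (hX : X.Nonempty) (hXA : ∀ x ∈ X, x ∈ A) : X.inf' hX id ∈ clo A hQ := by
  have hcl : IsClosed ((clo A hQ : Subalgebra ℝ C(G, ℝ)) : Set C(G, ℝ)) := isClosed_closure
  refine Finset.inf'_induction hX id (p := fun f => f ∈ clo A hQ) ?_ ?_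
  · intro a ha b hb
    exact ContinuousMap.inf_mem_closed_subalgebra (clo A hQ) hcl ⟨a, ha⟩ ⟨b, hb⟩
  · intro b hb
    exact subset_closure (hXA b hb)

end density

variable [MeasurableSpace G] [BorelSpace G] (μ : Measure G) [IsProbabilityMeasure μ]

lemma integrable_cont (f : G → ℝ) (hf : Continuous f) : Integrable f μ :=
  hf.integrable_of_hasCompactSupport (HasCompactSupport.of_compactSpace f)

/-- few elements have a large part in common -/
lemma few_bad {ι : Type} (F : Finset ι) (A : ι → Set G) (hA : ∀ i, MeasurableSet (A i)) (β κ : ℝ) (hβ : 0 ≤ β) (hκ : 0 ≤ κ)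
    (h1 : ∀ i ∈ F, β ≤ μ.real (A i)) (h2 : ∀ i ∈ F, ∀ j ∈ F, i ≠ j → μ.real (A i ∩ A j) ≤ κ) :
    (F.card : ℝ)^2 * (β^2 - κ) ≤ F.card := by
  classical
  have hint : ∀ i : ι, Integrable ((A i).indicator (fun _ => (1:ℝ))) μ := fun i =>
    (integrable_const (1:ℝ)).indicator (hA i)
  -- integral of a square
  have h3 : 0 ≤ ∫ σ, (∑ i ∈ F, ((A i).indicator (fun _ => (1:ℝ)) σ - β))^2 ∂μ :=
    integral_nonneg (fun σ => sq_nonneg _)
  have hprodind : ∀ i j σ, (A i).indicator (fun _ => (1:ℝ)) σ * (A j).indicator (fun _ => (1:ℝ)) σ =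
      (A i ∩ A j).indicator (fun _ => (1:ℝ)) σ := by
    intro i j σ
    by_cases h1 : σ ∈ A i <;> by_cases h2 : σ ∈ A j <;> simp [h1, h2]
  have h4 : ∀ σ, (∑ i ∈ F, ((A i).indicator (fun _ => (1:ℝ)) σ - β))^2 =
      ∑ i ∈ F, ∑ j ∈ F, ((A i ∩ A j).indicator (fun _ => (1:ℝ)) σ - β * (A i).indicator (fun _ => (1:ℝ)) σ
        - β * (A j).indicator (fun _ => (1:ℝ)) σ + β^2) := by
    intro σ
    rw [pow_two, Finset.sum_mul_sum]
    refine Finset.sum_congr rfl (fun i _ => Finset.sum_congr rfl (fun j _ => ?_))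
    rw [← hprodind]; ring
  simp only [h4] at h3
  have hint2 : ∀ i j : ι, Integrable (fun σ => (A i ∩ A j).indicator (fun _ => (1:ℝ)) σ - β * (A i).indicator (fun _ => (1:ℝ)) σ
        - β * (A j).indicator (fun _ => (1:ℝ)) σ + β^2) μ := by
    intro i j
    exact ((((integrable_const (1:ℝ)).indicator ((hA i).inter (hA j))).sub ((hint i).const_mul β)).sub
      ((hint j).const_mul β)).add (integrable_const _)
  rw [integral_finsetSum _ (fun i _ => integrable_finsetSum _ (fun j _ => hint2 i j))] at h3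
  have h5 : ∀ i ∈ F, (∫ σ, ∑ j ∈ F, ((A i ∩ A j).indicator (fun _ => (1:ℝ)) σ - β * (A i).indicator (fun _ => (1:ℝ)) σ
        - β * (A j).indicator (fun _ => (1:ℝ)) σ + β^2) ∂μ) ≤ (F.card : ℝ) * (κ - β^2) + 1 := by
    intro i hi
    rw [integral_finsetSum _ (fun j _ => hint2 i j)]
    have h6 : ∀ j ∈ F, (∫ σ, ((A i ∩ A j).indicator (fun _ => (1:ℝ)) σ - β * (A i).indicator (fun _ => (1:ℝ)) σ
        - β * (A j).indicator (fun _ => (1:ℝ)) σ + β^2) ∂μ) ≤ (κ - β^2) + (if j = i then 1 else 0) := by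
      intro j hj
      have e1 : (∫ σ, ((A i ∩ A j).indicator (fun _ => (1:ℝ)) σ - β * (A i).indicator (fun _ => (1:ℝ)) σ
        - β * (A j).indicator (fun _ => (1:ℝ)) σ + β^2) ∂μ) = μ.real (A i ∩ A j) - β * μ.real (A i) - β * μ.real (A j) + β^2 := by
        have i1 := (integrable_const (μ := μ) (1:ℝ)).indicator ((hA i).inter (hA j))
        have i2 := (hint i).const_mul β
        have i3 := (hint j).const_mul β
        have i12 : Integrable (fun σ => (A i ∩ A j).indicator (fun _ => (1:ℝ)) σ - β * (A i).indicator (fun _ => (1:ℝ)) σ) μ := i1.sub i2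
        have i123 : Integrable (fun σ => (A i ∩ A j).indicator (fun _ => (1:ℝ)) σ - β * (A i).indicator (fun _ => (1:ℝ)) σ
          - β * (A j).indicator (fun _ => (1:ℝ)) σ) μ := i12.sub i3
        rw [integral_add i123 (integrable_const _), integral_sub i12 i3, integral_sub i1 i2,
          integral_const_mul, integral_const_mul, integral_indicator_const _ ((hA i).inter (hA j)),
          integral_indicator_const _ (hA i), integral_indicator_const _ (hA j), integral_const]
        simp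
      rw [e1]
      have h7 := h1 i hi
      have h8 := h1 j hj
      have h9 : β * β ≤ β * μ.real (A i) := mul_le_mul_of_nonneg_left h7 hβ
      have h10 : β * β ≤ β * μ.real (A j) := mul_le_mul_of_nonneg_left h8 hβ
      by_cases hij : j = i
      · rw [if_pos hij]
        have h11 : μ.real (A i ∩ A j) ≤ 1 := measureReal_le_one
        nlinarith
      · rw [if_neg hij]
        have h11 := h2 i hi j hj (Ne.symm hij)
        nlinarith
    refine (Finset.sum_le_sum h6).trans ?_
    rw [Finset.sum_add_distrib, Finset.sum_const, nsmul_eq_mul, Finset.sum_ite_eq' F i, if_pos hi]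
  have h12 := h3.trans (Finset.sum_le_sum h5)
  rw [Finset.sum_const, nsmul_eq_mul] at h12
  nlinarith

end Pool.Agent.Helper967.RD
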