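import Pool.Agent.Helper967.RD3
set_option autoImplicit false
open MeasureTheory

/-! Arbitrarily large finite boxes: the main argument. -/

namespace Pool.Agent.Helper967.RD

variable {G : Type} [TopologicalSpace G] [CompactSpace G] [Nonempty G] [MeasurableSpace G] [BorelSpace G]
  (μ : Measure G) [IsProbabilityMeasure μ]

/-- the box -/
def BoxC (S : Set C(G, ℝ)) (l u : C(G, ℝ)) : Set C(G, ℝ) := {x | x ∈ S ∧ ∀ σ, l σ < x σ ∧ x σ < u σ}

/-- the width of a finite set -/
noncomputable def wid (X : Finset C(G, ℝ)) (hX : X.Nonempty) (σ : G) : ℝ :=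
  (X.sup' hX id) σ - (X.inf' hX id) σ

lemma le_sup (X : Finset C(G, ℝ)) (hX : X.Nonempty) (x : C(G, ℝ)) (hx : x ∈ X) (σ : G) : x σ ≤ (X.sup' hX id) σ := by
  have h1 : x ≤ X.sup' hX id := Finset.le_sup' id hx
  exact h1 σ

lemma inf_le (X : Finset C(G, ℝ)) (hX : X.Nonempty) (x : C(G, ℝ)) (hx : x ∈ X) (σ : G) : (X.inf' hX id) σ ≤ x σ := by
  have h1 : X.inf' hX id ≤ x := Finset.inf'_le id hx
  exact h1 σ

lemma wid_cont (X : Finset C(G, ℝ)) (hX : X.Nonempty) : Continuous (wid X hX) :=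
  (X.sup' hX id).continuous.sub (X.inf' hX id).continuous

lemma sup_mem_val (X : Finset C(G, ℝ)) (hX : X.Nonempty) (σ : G) : ∃ x ∈ X, (X.sup' hX id) σ = x σ := by
  rw [ContinuousMap.sup'_apply]
  obtain ⟨x, hx, h⟩ := Finset.exists_mem_eq_sup' hX (fun i : C(G, ℝ) => (id i) σ)
  exact ⟨x, hx, h⟩

lemma inf_mem_val (X : Finset C(G, ℝ)) (hX : X.Nonempty) (σ : G) : ∃ x ∈ X, (X.inf' hX id) σ = x σ := by
  rw [ContinuousMap.inf'_apply]
  obtain ⟨x, hx, h⟩ := Finset.exists_mem_eq_inf' hX (fun i : C(G, ℝ) => (id i) σ)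
  exact ⟨x, hx, h⟩

lemma cont_log (f : G → ℝ) (hf : Continuous f) (h : ∀ σ, f σ ≠ 0) : Continuous (fun σ => Real.log (f σ)) :=
  hf.log h

theorem large_box (A : Subring C(G, ℝ)) (hQ : ∀ q : ℚ, ContinuousMap.const G (q : ℝ) ∈ A) (S : Set C(G, ℝ))
    (hSA : S ⊆ A) (hSinf : S.Infinite)
    (hS : ∀ x ∈ S, ∀ y ∈ S, x ≠ y → (∀ σ, x σ ≠ y σ) ∧ 0 ≤ ∫ σ, Real.log (x σ - y σ) ∂μ) (n : ℕ) :
    ∃ l ∈ A, ∃ u ∈ A, (BoxC S l u).Finite ∧ n ≤ (BoxC S l u).ncard := by
  classical
  by_contra hcon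
  push Not at hcon
  set N := n + 2 with hN
  have hNpos : (0:ℝ) < N := by positivity
  -- the values
  set V : Set ℝ := {v | ∃ (X : Finset C(G, ℝ)) (hX : X.Nonempty), (X : Set C(G, ℝ)) ⊆ S ∧ X.card = N ∧ v = ∫ σ, Real.log (wid X hX σ) ∂μ} with hV
  have hwpos : ∀ (X : Finset C(G, ℝ)) (hX : X.Nonempty), (X : Set C(G, ℝ)) ⊆ S → X.card = N → ∀ σ, 0 < wid X hX σ := by
    intro X hX hXS hXc σ
    obtain ⟨x, hx, y, hy, hxy⟩ := Finset.one_lt_card.mp (by omega : 1 < X.card)
    have h1 := (hS x (hXS hx) y (hXS hy) hxy).1 σ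
    have h2 := le_sup X hX x hx σ
    have h3 := le_sup X hX y hy σ
    have h4 := inf_le X hX x hx σ
    have h5 := inf_le X hX y hy σ
    unfold wid
    rcases lt_or_gt_of_ne h1 with h6 | h6 <;> linarith
  have hVnonneg : ∀ v ∈ V, 0 ≤ v := by
    rintro v ⟨X, hX, hXS, hXc, rfl⟩
    obtain ⟨x, hx, y, hy, hxy⟩ := Finset.one_lt_card.mp (by omega : 1 < X.card)
    obtain ⟨h1, h2⟩ := hS x (hXS hx) y (hXS hy) hxy
    refine h2.trans (integral_mono ?_ ?_ ?_)
    · exact integrable_cont μ _ (cont_log _ (x.continuous.sub y.continuous) (fun σ => sub_ne_zero.mpr (h1 σ)))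
    · exact integrable_cont μ _ (cont_log _ (wid_cont X hX) (fun σ => (hwpos X hX hXS hXc σ).ne'))
    · intro σ
      show Real.log (x σ - y σ) ≤ Real.log (wid X hX σ)
      rw [← Real.log_abs (x σ - y σ)]
      apply Real.log_le_log (abs_pos.mpr (sub_ne_zero.mpr (h1 σ)))
      have h2 := le_sup X hX x hx σ
      have h3 := le_sup X hX y hy σ
      have h4 := inf_le X hX x hx σ
      have h5 := inf_le X hX y hy σ
      unfold wid
      rw [abs_le]; constructor <;> linarith
  have hVne : V.Nonempty := by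
    obtain ⟨X, hXS, hXc⟩ := hSinf.exists_subset_card_eq N
    have hX : X.Nonempty := Finset.card_pos.mp (by omega)
    exact ⟨_, X, hX, hXS, hXc, rfl⟩
  have hVbdd : BddBelow V := ⟨0, hVnonneg⟩
  set v := sInf V with hv
  have hv0 : 0 ≤ v := le_csInf hVne hVnonneg
  -- constants
  set β : ℝ := 1 / (2 * N) with hβ
  have hβ0 : 0 < β := by positivity
  set Λ : ℝ := (v + 2) / β^2 with hΛ
  have hΛ0 : 0 < Λ := by positivity
  set r : ℝ := Real.exp (-Λ) with hr
  have hr0 : 0 < r := Real.exp_pos _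
  have hr1 : r < 1 := by rw [hr, Real.exp_lt_one_iff]; linarith
  have hlogr : Real.log r = -Λ := Real.log_exp _
  set κ : ℝ := (v + 1) / Λ with hκ
  have hκ0 : 0 ≤ κ := by positivity
  have hκβ : κ < β^2 := by
    rw [hκ, div_lt_iff₀ hΛ0, hΛ]
    rw [mul_div_assoc', mul_comm, mul_div_assoc, div_self (by positivity), mul_one]
    linarith
  set c : ℝ := - Real.log (1 - r) / 2 with hc
  have hc0 : 0 < c := by
    have : Real.log (1 - r) < 0 := Real.log_neg (by linarith) (by linarith)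
    rw [hc]; linarith
  set η : ℝ := min (c/4) (1/2) with hη
  have hη0 : 0 < η := lt_min (by linarith) (by norm_num)
  have hη1 : η ≤ c/4 := min_le_left _ _
  have hη2 : η ≤ 1/2 := min_le_right _ _
  obtain ⟨vX, ⟨X, hX, hXS, hXc, rfl⟩, hvX⟩ := exists_lt_of_csInf_lt hVne (show sInf V < v + η by rw [← hv]; linarith)
  have hwX := hwpos X hX hXS hXc
  -- minimal width
  obtain ⟨w0, hw0, hw0le⟩ : ∃ w0 : ℝ, 0 < w0 ∧ ∀ σ, w0 ≤ wid X hX σ := by
    obtain ⟨σ0, _, hmin⟩ := isCompact_univ.exists_isMinOn (s := (Set.univ : Set G)) Set.univ_nonempty (wid_cont X hX).continuousOn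
    exact ⟨_, hwX σ0, fun σ => hmin (Set.mem_univ σ)⟩
  set ε : ℝ := η * w0 / 2 with hε
  have hε0 : 0 < ε := by positivity
  obtain ⟨l, hl, hlb⟩ := exists_approx A hQ _ (inf_mem A hQ X hX (fun x hx => hSA (hXS hx))) (-(ε/2)) (ε/2) (by linarith)
  obtain ⟨u, hu, hub⟩ := exists_approx A hQ _ (sup_mem A hQ X hX (fun x hx => hSA (hXS hx))) (ε/2) (ε/2) (by linarith)
  have hl1 : ∀ σ, (X.inf' hX id) σ - ε < l σ ∧ l σ < (X.inf' hX id) σ := by
    intro σ
    have := abs_lt.mp (hlb σ)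
    constructor <;> linarith [this.1, this.2]
  have hu1 : ∀ σ, (X.sup' hX id) σ < u σ ∧ u σ < (X.sup' hX id) σ + ε := by
    intro σ
    have := abs_lt.mp (hub σ)
    constructor <;> linarith [this.1, this.2]
  have hXB : (X : Set C(G, ℝ)) ⊆ BoxC S l u := by
    intro x hx
    refine ⟨hXS hx, fun σ => ⟨?_, ?_⟩⟩
    · exact lt_of_lt_of_le (hl1 σ).2 (inf_le X hX x hx σ)
    · exact lt_of_le_of_lt (le_sup X hX x hx σ) (hu1 σ).1
  have hBinf : (BoxC S l u).Infinite := by
    intro hfin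
    have h1 := hcon l hl u hu hfin
    have h2 : X.card ≤ (BoxC S l u).ncard := by
      rw [← Set.ncard_coe_finset]
      exact Set.ncard_le_ncard hXB hfin
    omega
  -- the width of the box
  have hwlo : ∀ σ, 0 < u σ - l σ := by
    intro σ
    have h1 := hwX σ
    unfold wid at h1
    linarith [(hl1 σ).2, (hu1 σ).1]
  have hwup : ∀ σ, Real.log (u σ - l σ) ≤ Real.log (wid X hX σ) + η := by
    intro σ
    have h1 := hwX σ
    have h2 := hw0le σ
    have h3 : u σ - l σ ≤ wid X hX σ * (1 + η) := by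
      have : u σ - l σ ≤ wid X hX σ + 2 * ε := by
        unfold wid; linarith [(hl1 σ).1, (hu1 σ).2]
      have h4 : 2 * ε = η * w0 := by rw [hε]; ring
      nlinarith
    refine (Real.log_le_log (hwlo σ) h3).trans ?_
    rw [Real.log_mul h1.ne' (by positivity)]
    have := Real.log_le_sub_one_of_pos (show 0 < 1 + η by positivity)
    linarith
  have hcw : Continuous (fun σ => Real.log (u σ - l σ)) := cont_log _ (u.continuous.sub l.continuous) (fun σ => (hwlo σ).ne')
  have hiw := integrable_cont μ _ hcw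
  set V' : ℝ := ∫ σ, Real.log (u σ - l σ) ∂μ with hV'
  have hV'le : V' ≤ v + 2 * η := by
    have h1 : V' ≤ ∫ σ, (Real.log (wid X hX σ) + η) ∂μ := by
      apply integral_mono hiw
      · exact (integrable_cont μ _ (cont_log _ (wid_cont X hX) (fun σ => (hwX σ).ne'))).add (integrable_const _)
      · exact hwup
    rw [integral_add (integrable_cont μ _ (cont_log _ (wid_cont X hX) (fun σ => (hwX σ).ne'))) (integrable_const _), integral_const] at h1
    simp at h1
    linarith
  -- the sets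
  set P : C(G, ℝ) → Set G := fun y => {σ | y σ - l σ ≤ r * (u σ - l σ)} with hP
  have hPm : ∀ y, MeasurableSet (P y) := by
    intro y
    apply IsClosed.measurableSet
    exact isClosed_le (y.continuous.sub l.continuous) (continuous_const.mul (u.continuous.sub l.continuous))
  have hpair : ∀ y ∈ BoxC S l u, ∀ z ∈ BoxC S l u, y ≠ z → μ.real (P y ∩ P z) ≤ κ := by
    rintro y ⟨hyS, hy⟩ z ⟨hzS, hz⟩ hyz
    obtain ⟨h1, h2⟩ := hS y hyS z hzS hyz
    have hi := (integrable_const (μ := μ) Λ).indicator ((hPm y).inter (hPm z))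
    have h3 : ∫ σ, Real.log (y σ - z σ) ∂μ ≤ ∫ σ, (Real.log (u σ - l σ) - (P y ∩ P z).indicator (fun _ => Λ) σ) ∂μ := by
      apply integral_mono
      · exact integrable_cont μ _ (cont_log _ (y.continuous.sub z.continuous) (fun σ => sub_ne_zero.mpr (h1 σ)))
      · exact hiw.sub hi
      · intro σ
        show Real.log (y σ - z σ) ≤ Real.log (u σ - l σ) - (P y ∩ P z).indicator (fun _ => Λ) σ
        rw [← Real.log_abs (y σ - z σ)]
        have h0 : 0 < |y σ - z σ| := abs_pos.mpr (sub_ne_zero.mpr (h1 σ))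
        by_cases hσ : σ ∈ P y ∩ P z
        · rw [Set.indicator_of_mem hσ]
          have e1 : y σ - l σ ≤ r * (u σ - l σ) := hσ.1
          have e2 : z σ - l σ ≤ r * (u σ - l σ) := hσ.2
          have h4 : |y σ - z σ| ≤ r * (u σ - l σ) := by
            rw [abs_le]
            constructor <;> linarith [(hy σ).1, (hz σ).1]
          refine (Real.log_le_log h0 h4).trans ?_
          rw [Real.log_mul hr0.ne' (hwlo σ).ne', hlogr]
          linarith
        · rw [Set.indicator_of_notMem hσ, sub_zero]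
          apply Real.log_le_log h0
          rw [abs_le]
          constructor <;> linarith [(hy σ).1, (hz σ).1, (hy σ).2, (hz σ).2]
    rw [integral_sub hiw hi, integral_indicator_const _ ((hPm y).inter (hPm z)), smul_eq_mul, ← hV'] at h3
    rw [hκ, le_div_iff₀ hΛ0]
    linarith
  -- few bad elements
  have hbad : {y ∈ BoxC S l u | β ≤ μ.real (P y)}.Finite := by
    by_contra hinf
    obtain ⟨M, hM⟩ := exists_nat_gt (1 / (β^2 - κ))
    have hM' : 1 < M * (β^2 - κ) := by
      rwa [div_lt_iff₀ (by linarith)] at hM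
    obtain ⟨F, hFS, hFc⟩ := (Set.not_finite.mp hinf).exists_subset_card_eq M
    have h1 := few_bad μ F P hPm β κ hβ0.le hκ0 (fun y hy => (hFS hy).2)
      (fun y hy z hz hyz => hpair y (hFS hy).1 z (hFS hz).1 hyz)
    rw [hFc] at h1
    have hM0 : (0:ℝ) < M := by
      have : 0 < 1 / (β^2 - κ) := by apply one_div_pos.mpr; linarith
      linarith
    nlinarith
  have hgood : (BoxC S l u \ {y ∈ BoxC S l u | β ≤ μ.real (P y)}).Infinite := hBinf.sdiff hbad
  obtain ⟨Y, hYS, hYc⟩ := hgood.exists_subset_card_eq N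
  have hY : Y.Nonempty := Finset.card_pos.mp (by omega)
  have hYS' : (Y : Set C(G, ℝ)) ⊆ S := fun y hy => (hYS hy).1.1
  have hwY := hwpos Y hY hYS' hYc
  have hYV : (∫ σ, Real.log (wid Y hY σ) ∂μ) ∈ V := ⟨Y, hY, hYS', hYc, rfl⟩
  have hYsmall : ∀ y ∈ Y, μ.real (P y) ≤ β := by
    intro y hy
    by_contra h1
    push Not at h1
    exact (hYS hy).2 ⟨(hYS hy).1, h1.le⟩
  set Q : Set G := (⋃ y ∈ Y, P y) with hQdef
  have hQm : MeasurableSet Q := Finset.measurableSet_biUnion Y (fun y _ => hPm y)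
  have hQle : μ.real Q ≤ 1/2 := by
    refine (measureReal_biUnion_finset_le Y P).trans ?_
    refine (Finset.sum_le_sum hYsmall).trans ?_
    rw [Finset.sum_const, nsmul_eq_mul, hYc, hβ]
    field_simp
    exact le_refl _
  have hQc : 1/2 ≤ μ.real Qᶜ := by
    rw [probReal_compl_eq_one_sub hQm]; linarith
  have hlog1r : Real.log (1 - r) = - (2 * c) := by rw [hc]; ring
  have hiQ := (integrable_const (μ := μ) (2 * c)).indicator hQm.compl
  have hfin : ∫ σ, Real.log (wid Y hY σ) ∂μ ≤ ∫ σ, (Real.log (u σ - l σ) - Qᶜ.indicator (fun _ => 2 * c) σ) ∂μ := by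
    apply integral_mono
    · exact integrable_cont μ _ (cont_log _ (wid_cont Y hY) (fun σ => (hwY σ).ne'))
    · exact hiw.sub hiQ
    · intro σ
      show Real.log (wid Y hY σ) ≤ Real.log (u σ - l σ) - Qᶜ.indicator (fun _ => 2 * c) σ
      obtain ⟨y1, hy1, hy1e⟩ := sup_mem_val Y hY σ
      obtain ⟨y2, hy2, hy2e⟩ := inf_mem_val Y hY σ
      have b1 := ((hYS hy1).1.2 σ)
      have b2 := ((hYS hy2).1.2 σ)
      have hw : wid Y hY σ = y1 σ - y2 σ := by unfold wid; rw [hy1e, hy2e]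
      by_cases hσ : σ ∈ Qᶜ
      · rw [Set.indicator_of_mem hσ]
        have hσ2 : σ ∉ P y2 := by
          intro h0
          apply hσ
          rw [hQdef, Set.mem_iUnion₂]
          exact ⟨y2, hy2, h0⟩
        have e2 : r * (u σ - l σ) < y2 σ - l σ := by
          by_contra h0
          push Not at h0
          exact hσ2 h0
        have h4 : wid Y hY σ ≤ (1 - r) * (u σ - l σ) := by
          rw [hw]; nlinarith [b1.2]
        refine (Real.log_le_log (hwY σ) h4).trans ?_
        rw [Real.log_mul (by linarith) (hwlo σ).ne', hlog1r]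
        linarith
      · rw [Set.indicator_of_notMem hσ, sub_zero]
        apply Real.log_le_log (hwY σ)
        rw [hw]; linarith [b1.2, b2.1]
  rw [integral_sub hiw hiQ, integral_indicator_const _ hQm.compl, smul_eq_mul, ← hV'] at hfin
  have h1 : v ≤ ∫ σ, Real.log (wid Y hY σ) ∂μ := csInf_le hVbdd hYV
  nlinarith

end Pool.Agent.Helper967.RD
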