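import Pool.Agent.Helper967.TR6
set_option autoImplicit false
open Polynomial IntermediateField MeasureTheory ProbabilityTheory

namespace Pool.Agent.Helper967.TR

lemma mem_fix_adjoin (T : Set Qtr) (σ : Gal(Qtr/ℚ)) : σ ∈ (IntermediateField.adjoin ℚ T).fixingSubgroup ↔ ∀ t ∈ T, σ t = t := by
  constructor
  · intro h t ht
    exact (IntermediateField.mem_fixingSubgroup_iff _ σ).mp h t (IntermediateField.subset_adjoin ℚ T ht)
  · intro h
    rw [IntermediateField.mem_fixingSubgroup_iff]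
    intro x hx
    induction hx using IntermediateField.adjoin_induction with
    | mem x hx => exact h x hx
    | algebraMap x => exact σ.commutes x
    | add x y _ _ hx hy => rw [map_add, hx, hy]
    | inv x _ hx => rw [map_inv₀, hx]
    | mul x y _ _ hx hy => rw [map_mul, hx, hy]

/-- the field generated by the square roots of the primes -/
noncomputable def Esq : IntermediateField ℚ Qtr := IntermediateField.adjoin ℚ {w | ∃ p : ℕ, p.Prime ∧ w = sq p}

lemma sigma_sq (σ : Gal(Qtr/ℚ)) (p : ℕ) : σ (sq p) = sq p ∨ σ (sq p) = - sq p := by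
  have h1 : σ (sq p) * σ (sq p) = sq p * sq p := by rw [← map_mul, sq_mul, map_natCast]
  exact mul_self_eq_mul_self_iff.mp h1

lemma esq_infinite : ¬ FiniteDimensional ℚ Esq := by
  intro hfd
  have hidx : Module.finrank ℚ Esq = Esq.fixingSubgroup.index := IntermediateField.finrank_eq_fixingSubgroup_index (L := Esq)
  have hfi : Esq.fixingSubgroup.FiniteIndex := ⟨by rw [← hidx]; exact Module.finrank_pos.ne'⟩
  have hfin : Finite (Gal(Qtr/ℚ) ⧸ Esq.fixingSubgroup) := inferInstance
  let c : Nat.Primes → (Gal(Qtr/ℚ) ⧸ Esq.fixingSubgroup → Prop) := fun p =>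
    Quotient.lift (fun σ : Gal(Qtr/ℚ) => σ (sq p) = sq p) (by
      intro σ τ hst
      have h1 : σ⁻¹ * τ ∈ Esq.fixingSubgroup := QuotientGroup.leftRel_apply.mp hst
      have h2 := (mem_fix_adjoin _ _).mp h1 (sq p) ⟨p, p.2, rfl⟩
      have h3 : τ (sq p) = σ (sq p) := by
        have := congrArg σ h2
        rw [← AlgEquiv.mul_apply, mul_inv_cancel_left] at this
        exact this
      simp only [h3])
  obtain ⟨p, q, hpq, hc⟩ := Finite.exists_ne_map_eq_of_infinite c
  have hiff : ∀ σ : Gal(Qtr/ℚ), σ (sq p) = sq p ↔ σ (sq q) = sq q := by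
    intro σ
    have := congrFun hc (QuotientGroup.mk σ)
    exact iff_of_eq this
  have hfix : ∀ σ : Gal(Qtr/ℚ), σ (sq p * sq q) = sq p * sq q := by
    intro σ
    rw [map_mul]
    rcases sigma_sq σ p with h1 | h1
    · rw [h1, (hiff σ).mp h1]
    · rcases sigma_sq σ q with h2 | h2
      · rw [h2, (hiff σ).mpr h2]
      · rw [h1, h2]; ring
  have hbot : sq p * sq q ∈ (⊥ : IntermediateField ℚ Qtr) := by
    have h1 := InfiniteGalois.fixedField_fixingSubgroup (⊥ : IntermediateField ℚ Qtr)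
    rw [← h1, IntermediateField.mem_fixedField_iff]
    intro σ _
    exact hfix σ
  rw [IntermediateField.mem_bot] at hbot
  obtain ⟨a, ha⟩ := hbot
  have h2 : a * a = ((p : ℕ) * (q : ℕ) : ℕ) := by
    apply (algebraMap ℚ Qtr).injective
    rw [map_mul, ha]
    have h3 := sq_mul p
    have h4 := sq_mul q
    push_cast
    rw [← h3, ← h4]; ring
  have h3 : IsSquare (((p : ℕ) * (q : ℕ) : ℕ) : ℚ) := ⟨a, h2.symm⟩
  rw [Rat.isSquare_natCast_iff] at h3
  obtain ⟨b, hb⟩ := h3
  have h4 : (p:ℕ) ∣ b := by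
    have : (p:ℕ) ∣ b * b := by rw [← hb]; exact Dvd.intro _ rfl
    rcases (Nat.Prime.dvd_mul p.2).mp this with h | h <;> exact h
  obtain ⟨d, hd⟩ := h4
  have h5 : (q:ℕ) = p * (d * d) := by
    have hp0 : 0 < (p:ℕ) := p.2.pos
    apply Nat.eq_of_mul_eq_mul_left hp0
    rw [hb, hd]; ring
  have h6 : (p:ℕ) ∣ q := ⟨d*d, h5⟩
  exact hpq (Subtype.ext ((Nat.prime_dvd_prime_iff_eq p.2 q.2).mp h6))

section measure
variable [MeasurableSpace Gal(Qtr/ℚ)] [BorelSpace Gal(Qtr/ℚ)] (μ : Measure Gal(Qtr/ℚ)) [μ.IsMulLeftInvariant]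
  [IsProbabilityMeasure μ]

lemma measurable_fix (L : IntermediateField ℚ Qtr) [FiniteDimensional ℚ L] : MeasurableSet (L.fixingSubgroup : Set Gal(Qtr/ℚ)) :=
  (IntermediateField.fixingSubgroup_isOpen L).measurableSet

lemma meas_fix (L : IntermediateField ℚ Qtr) [FiniteDimensional ℚ L] :
    μ (L.fixingSubgroup : Set Gal(Qtr/ℚ)) = ((Module.finrank ℚ L : ℕ) : ENNReal)⁻¹ := by
  have hidx : Module.finrank ℚ L = L.fixingSubgroup.index := IntermediateField.finrank_eq_fixingSubgroup_index (L := L)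
  have hfi : L.fixingSubgroup.FiniteIndex := ⟨by rw [← hidx]; exact Module.finrank_pos.ne'⟩
  have h1 := L.fixingSubgroup.index_mul_measure (measurable_fix L) μ
  rw [measure_univ] at h1
  rw [hidx]
  exact ENNReal.eq_inv_of_mul_eq_one_left (by rw [mul_comm]; exact h1)

lemma null_of_infinite (E : IntermediateField ℚ Qtr) (hE : ¬ FiniteDimensional ℚ E) :
    μ (E.fixingSubgroup : Set Gal(Qtr/ℚ)) = 0 := by
  have key : ∀ n : ℕ, μ (E.fixingSubgroup : Set Gal(Qtr/ℚ)) ≤ ((n : ℕ) : ENNReal)⁻¹ := by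
    intro n
    have hEa : Algebra.IsAlgebraic ℚ E :=
      Algebra.IsAlgebraic.of_injective ((E.toSubfield.subtype : E →+* Qtr).toRatAlgHom) Subtype.val_injective
    obtain ⟨L', hfd, hL'⟩ := exists_lt_finrank_of_infinite_dimensional hE n
    have hle : IntermediateField.lift (F := E) L' ≤ E := IntermediateField.lift_le (F := E) L'
    have i := (IntermediateField.liftAlgEquiv (E := E) L').toLinearEquiv
    have hfd2 : FiniteDimensional ℚ (IntermediateField.lift (F := E) L') := i.finiteDimensional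
    have hfr : Module.finrank ℚ L' = Module.finrank ℚ (IntermediateField.lift (F := E) L') := i.finrank_eq
    have h1 : (E.fixingSubgroup : Set Gal(Qtr/ℚ)) ⊆ ((IntermediateField.lift (F := E) L').fixingSubgroup : Set Gal(Qtr/ℚ)) :=
      IntermediateField.fixingSubgroup_le hle
    refine (measure_mono h1).trans ?_
    rw [meas_fix μ (IntermediateField.lift (F := E) L')]
    apply ENNReal.inv_le_inv.mpr
    rw [← hfr]
    exact_mod_cast hL'.le
  by_contra hne
  obtain ⟨n, hn⟩ := ENNReal.exists_inv_nat_lt hne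
  exact absurd (key n) (not_le.mpr hn)

/-- the events -/
def ev1 (p : ℕ) : Set Gal(Qtr/ℚ) := {σ | p.Prime ∧ σ (xp p) = xp p}

omit [MeasurableSpace Gal(Qtr/ℚ)] [BorelSpace Gal(Qtr/ℚ)] in
lemma ev1_prime (p : ℕ) (hp : p.Prime) : ev1 p = ((ℚ⟮xp p⟯).fixingSubgroup : Set Gal(Qtr/ℚ)) := by
  ext σ
  rw [SetLike.mem_coe, mem_fix_adjoin]
  simp [ev1, hp]

omit [MeasurableSpace Gal(Qtr/ℚ)] [BorelSpace Gal(Qtr/ℚ)] in
lemma ev1_not_prime (p : ℕ) (hp : ¬ p.Prime) : ev1 p = ∅ := by
  ext σ
  simp [ev1, hp]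

instance fd_xp (p : ℕ) : FiniteDimensional ℚ ℚ⟮xp p⟯ := adjoin.finiteDimensional (Algebra.IsIntegral.isIntegral _)

lemma ev1_measurable (p : ℕ) : MeasurableSet (ev1 p) := by
  by_cases hp : p.Prime
  · rw [ev1_prime p hp]; exact measurable_fix _
  · rw [ev1_not_prime p hp]; exact MeasurableSet.empty

lemma ev1_indep : iIndepSet (fun p => ev1 p) μ := by
  classical
  rw [iIndepSet_iff_meas_biInter ev1_measurable]
  intro S
  by_cases hS : ∀ p ∈ S, p.Prime
  · have h1 : (⋂ i ∈ S, ev1 i) = ((LS S).fixingSubgroup : Set Gal(Qtr/ℚ)) := by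
      ext σ
      unfold LS
      rw [SetLike.mem_coe, mem_fix_adjoin]
      simp only [Set.mem_iInter, Set.forall_mem_image, Finset.mem_coe]
      constructor
      · intro h p hp; exact (h p hp).2
      · intro h p hp; exact ⟨hS p hp, h hp⟩
    rw [h1, meas_fix μ (LS S), finrank_LS S hS]
    push_cast
    rw [ENNReal.prod_inv_distrib]
    · apply Finset.prod_congr rfl
      intro p hp
      rw [ev1_prime p (hS p hp), meas_fix μ]
    · intro p _ q _ _
      right
      exact ENNReal.natCast_ne_top _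
  · push Not at hS
    obtain ⟨p, hp, hpp⟩ := hS
    rw [Finset.prod_eq_zero hp (by rw [ev1_not_prime p hpp, measure_empty])]
    apply measure_mono_null (Set.biInter_subset_of_mem hp)
    rw [ev1_not_prime p hpp, measure_empty]

lemma ev1_sum : ∑' p, μ (ev1 p) = ⊤ := by
  by_contra hne
  have hs : Summable (fun p => (μ (ev1 p)).toReal) := ENNReal.summable_toReal hne
  apply not_summable_one_div_on_primes
  apply Summable.of_nonneg_of_le _ _ hs
  · intro n
    exact Set.indicator_nonneg (fun _ _ => by positivity) _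
  · intro n
    by_cases hn : n.Prime
    · rw [Set.indicator_of_mem (show n ∈ {p | Nat.Prime p} from hn), ev1_prime n hn, meas_fix μ, ENNReal.toReal_inv, ENNReal.toReal_natCast, one_div]
      apply inv_anti₀
      · exact_mod_cast Module.finrank_pos
      · exact_mod_cast finrank_xp_le n hn.ne_zero
    · rw [Set.indicator_of_notMem (show n ∉ {p | Nat.Prime p} from hn)]
      exact ENNReal.toReal_nonneg

/-- almost all `σ` fix infinitely many `x_p` and do not fix all `√p` -/
theorem ae_good : ∀ᵐ σ ∂μ, {p : ℕ | p.Prime ∧ σ (xp p) = xp p}.Infinite ∧ ∃ r : ℕ, r ≠ 0 ∧ σ (sq r) ≠ sq r := by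
  have h1 : ∀ᵐ σ ∂μ, σ ∈ Filter.limsup (fun p => ev1 p) Filter.atTop := by
    have h2 := measure_limsup_eq_one ev1_measurable (ev1_indep μ) (ev1_sum μ)
    rwa [← prob_compl_eq_zero_iff (MeasurableSet.measurableSet_limsup ev1_measurable)] at h2
  have h2 : ∀ᵐ σ ∂μ, σ ∉ (Esq.fixingSubgroup : Set Gal(Qtr/ℚ)) := by
    rw [ae_iff]
    simp only [not_not]
    exact null_of_infinite μ Esq esq_infinite
  filter_upwards [h1, h2] with σ hσ1 hσ2
  constructor
  · rw [Filter.mem_limsup_iff_frequently_mem] at hσ1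
    exact Nat.frequently_atTop_iff_infinite.mp hσ1
  · by_contra hcon
    push Not at hcon
    apply hσ2
    rw [SetLike.mem_coe]
    unfold Esq
    rw [mem_fix_adjoin]
    rintro _ ⟨p, hp, rfl⟩
    exact hcon p hp.ne_zero

end measure

end Pool.Agent.Helper967.TR
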