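import Pool.Agent.Helper967.RD4
import Pool.Agent.Helper967.RD2
import Pool.Agent.Helper967.TR7
set_option autoImplicit false
open MeasureTheory Polynomial IntermediateField

/-! The embeddings of the field of totally real numbers, indexed by its Galois group. -/

namespace Pool.Agent.Helper967.RD

open Pool.Agent.Helper967.TR

/-- a fixed embedding -/
noncomputable def phi0 : AlgebraicClosure ℚ →+* ℂ :=
  (IsAlgClosed.lift (R := ℚ) (S := AlgebraicClosure ℚ) (M := ℂ) : AlgebraicClosure ℚ →ₐ[ℚ] ℂ).toRingHom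

/-- the embedding given by an element of the Galois group -/
noncomputable def es (σ : Gal(Qtr/ℚ)) : Qtr →+* ℝ := (ev phi0).comp (σ : Qtr →+* Qtr)

lemma es_apply (σ : Gal(Qtr/ℚ)) (x : Qtr) : es σ x = ev phi0 (σ x) := rfl

/-- the embeddings separate the conjugates -/
lemma exists_es (x : Qtr) (i : Gal(Qtr/ℚ)) (z : ℂ) (hz : aeval z (minpoly ℚ ((es i x : ℝ) : ℂ)) = 0) :
    ∃ j, z = ((es j x : ℝ) : ℂ) := by
  rw [es_apply, ev_eq] at hz
  have h1 : minpoly ℚ (phi0 ((i x : Qtr) : AlgebraicClosure ℚ)) = minpoly ℚ (i x) := by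
    have := minpoly.algHom_eq ((phi0.comp (algebraMap Qtr (AlgebraicClosure ℚ))).toRatAlgHom)
      (phi0.comp (algebraMap Qtr (AlgebraicClosure ℚ))).injective (i x)
    exact this
  rw [h1] at hz
  have h2 : minpoly ℚ (i x) = minpoly ℚ x := minpoly.algEquiv_eq i x
  rw [h2] at hz
  have hsp : ((minpoly ℚ x).map (algebraMap ℚ Qtr)).Splits := Normal.splits (F := ℚ) (K := Qtr) inferInstance x
  have hx : IsIntegral ℚ x := Algebra.IsIntegral.isIntegral x
  -- the roots in ℂ come from roots in Qtr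
  have h3 := hsp.roots_map (phi0.comp (algebraMap Qtr (AlgebraicClosure ℚ)))
  have h4 : z ∈ (((minpoly ℚ x).map (algebraMap ℚ Qtr)).map (phi0.comp (algebraMap Qtr (AlgebraicClosure ℚ)))).roots := by
    rw [mem_roots]
    · rw [IsRoot.def, Polynomial.map_map, eval_map]
      have e : ((phi0.comp (algebraMap Qtr (AlgebraicClosure ℚ))).comp (algebraMap ℚ Qtr)) = algebraMap ℚ ℂ := Subsingleton.elim _ _
      rw [e]
      exact hz
    · exact Polynomial.map_ne_zero (Polynomial.map_ne_zero (minpoly.ne_zero hx))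
  rw [h3, Multiset.mem_map] at h4
  obtain ⟨y, hy, rfl⟩ := h4
  have hy' : aeval y (minpoly ℚ x) = 0 := by
    have := (mem_roots'.mp hy).2
    rw [IsRoot.def, eval_map] at this
    exact this
  obtain ⟨σ, hσ⟩ := minpoly.exists_algEquiv_of_root' (Algebra.IsAlgebraic.isAlgebraic x) hy'
  refine ⟨σ, ?_⟩
  rw [es_apply, ev_eq, hσ]
  rfl

instance : Nonempty Gal(Qtr/ℚ) := ⟨1⟩

lemma locconst (x : Qtr) {α : Type} (f : Qtr → α) : IsLocallyConstant (fun σ : Gal(Qtr/ℚ) => f (σ x)) := by
  rw [IsLocallyConstant.iff_exists_open]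
  intro σ
  have hfd : FiniteDimensional ℚ ℚ⟮x⟯ := adjoin.finiteDimensional (Algebra.IsIntegral.isIntegral _)
  have hopen := IntermediateField.fixingSubgroup_isOpen (ℚ⟮x⟯)
  refine ⟨(fun τ => σ⁻¹ * τ) ⁻¹' ((ℚ⟮x⟯).fixingSubgroup : Set Gal(Qtr/ℚ)), hopen.preimage (continuous_const_mul σ⁻¹), ?_, ?_⟩
  · show σ⁻¹ * σ ∈ (ℚ⟮x⟯).fixingSubgroup
    rw [inv_mul_cancel]; exact Subgroup.one_mem _
  · intro τ hτ
    have h1 : σ⁻¹ * τ ∈ (ℚ⟮x⟯).fixingSubgroup := hτ
    have h2 := (mem_fix_adjoin _ _).mp h1 x (Set.mem_singleton x)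
    have h3 : τ x = σ x := by
      have := congrArg σ h2
      rw [← AlgEquiv.mul_apply, mul_inv_cancel_left] at this
      exact this
    simp only [h3]

/-- elements as continuous functions -/
noncomputable def fn : Qtr →+* C(Gal(Qtr/ℚ), ℝ) where
  toFun x := ⟨fun σ => es σ x, (locconst x (ev phi0)).continuous⟩
  map_one' := by ext σ; exact map_one (es σ)
  map_mul' x y := by ext σ; exact map_mul (es σ) x y
  map_zero' := by ext σ; exact map_zero (es σ)
  map_add' x y := by ext σ; exact map_add (es σ) x y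

lemma fn_apply (x : Qtr) (σ : Gal(Qtr/ℚ)) : fn x σ = es σ x := rfl

lemma fn_inj : Function.Injective fn := by
  intro x y h
  have := congrArg (fun f : C(Gal(Qtr/ℚ), ℝ) => f 1) h
  exact (es 1).injective this

section measure
variable [MeasurableSpace Gal(Qtr/ℚ)] [BorelSpace Gal(Qtr/ℚ)] (μ : Measure Gal(Qtr/ℚ)) [μ.IsMulLeftInvariant]
  [IsProbabilityMeasure μ]

/-- the mean of the logarithms of the conjugates of a nonzero algebraic integer is nonnegative -/
theorem mean_log_nonneg (z : Qtr) (hz : z ≠ 0) (hzi : IsIntegral ℤ z) : 0 ≤ ∫ σ, Real.log (es σ z) ∂μ := by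
  classical
  have hzQ : IsIntegral ℚ z := Algebra.IsIntegral.isIntegral z
  set T : Finset Qtr := ((minpoly ℚ z).rootSet_finite Qtr).toFinset with hT
  have hTmem : ∀ s, s ∈ T ↔ aeval s (minpoly ℚ z) = 0 := by
    intro s
    rw [hT, Set.Finite.mem_toFinset, mem_rootSet]
    exact ⟨fun h => h.2, fun h => ⟨minpoly.ne_zero hzQ, h⟩⟩
  have hTσ : ∀ (σ : Gal(Qtr/ℚ)) (s : Qtr), s ∈ T → σ s ∈ T := by
    intro σ s hs
    rw [hTmem] at hs ⊢
    have := aeval_algHom_apply (σ : Qtr →ₐ[ℚ] Qtr) s (minpoly ℚ z)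
    rw [hs, map_zero] at this
    exact this
  have hzT : z ∈ T := by rw [hTmem]; exact minpoly.aeval ℚ z
  have hTex : ∀ s ∈ T, ∃ σ : Gal(Qtr/ℚ), σ z = s := by
    intro s hs
    exact minpoly.exists_algEquiv_of_root' (Algebra.IsAlgebraic.isAlgebraic z) ((hTmem s).mp hs)
  set As : Qtr → Set Gal(Qtr/ℚ) := fun s => {σ | σ z = s} with hAs
  have hAm : ∀ s, MeasurableSet (As s) := by
    intro s
    exact ((locconst z (id : Qtr → Qtr)).isOpen_fiber s).measurableSet
  have hAmeas : ∀ s ∈ T, μ.real (As s) = μ.real (As z) := by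
    intro s hs
    obtain ⟨τ, hτ⟩ := hTex s hs
    have h1 := measure_preimage_mul μ τ⁻¹ (As z)
    have h2 : (fun h => τ⁻¹ * h) ⁻¹' (As z) = As s := by
      ext σ
      show (τ⁻¹ * σ) z = z ↔ σ z = s
      rw [← hτ, AlgEquiv.mul_apply]
      constructor
      · intro h
        have := congrArg τ h
        rw [← AlgEquiv.mul_apply, mul_inv_cancel, AlgEquiv.one_apply] at this
        exact this
      · intro h
        rw [h, ← AlgEquiv.mul_apply, inv_mul_cancel, AlgEquiv.one_apply]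
    rw [h2] at h1
    rw [Measure.real, Measure.real, h1]
  have hdec : ∀ σ, Real.log (es σ z) = ∑ s ∈ T, (As s).indicator (fun _ => Real.log (ev phi0 s)) σ := by
    intro σ
    rw [Finset.sum_eq_single (σ z)]
    · rw [Set.indicator_of_mem (show σ ∈ As (σ z) from rfl), es_apply]
    · intro s _ hs
      exact Set.indicator_of_notMem (fun h => hs (show s = σ z from h.symm)) _
    · intro h
      exact absurd (hTσ σ z hzT) h
  simp only [hdec]
  rw [integral_finsetSum _ (fun s _ => (integrable_const _).indicator (hAm s))]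
  have h1 : ∑ s ∈ T, ∫ σ, (As s).indicator (fun _ => Real.log (ev phi0 s)) σ ∂μ = μ.real (As z) * ∑ s ∈ T, Real.log (ev phi0 s) := by
    rw [Finset.mul_sum]
    refine Finset.sum_congr rfl (fun s hs => ?_)
    rw [integral_indicator_const _ (hAm s), smul_eq_mul, hAmeas s hs]
  rw [h1]
  apply mul_nonneg measureReal_nonneg
  have hne : ∀ s ∈ T, s ≠ 0 := by
    intro s hs h0
    obtain ⟨σ, hσ⟩ := hTex s hs
    rw [h0] at hσ
    exact hz ((map_eq_zero σ).mp hσ)
  have hint : ∀ s ∈ T, IsIntegral ℤ s := by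
    intro s hs
    obtain ⟨σ, hσ⟩ := hTex s hs
    rw [← hσ]
    exact hzi.map ((σ : Qtr →+* Qtr).toIntAlgHom)
  rw [← Real.log_prod (fun s hs => by
    intro h0; exact hne s hs ((map_eq_zero (ev phi0)).mp h0)), ← map_prod, ← Real.log_abs]
  apply Real.log_nonneg
  -- the product is a nonzero integer
  set w : Qtr := ∏ s ∈ T, s with hw
  have hwfix : ∀ σ : Gal(Qtr/ℚ), σ w = w := by
    intro σ
    rw [hw, map_prod]
    apply Finset.prod_bij (fun s _ => σ s) (fun s hs => hTσ σ s hs) (fun a _ b _ hab => σ.injective hab)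
    · intro b hb
      refine ⟨σ⁻¹ b, hTσ σ⁻¹ b hb, ?_⟩
      rw [← AlgEquiv.mul_apply, mul_inv_cancel, AlgEquiv.one_apply]
    · intro s _; rfl
  have hbot : w ∈ (⊥ : IntermediateField ℚ Qtr) := by
    have h1 := InfiniteGalois.fixedField_fixingSubgroup (⊥ : IntermediateField ℚ Qtr)
    rw [← h1, IntermediateField.mem_fixedField_iff]
    intro σ _
    exact hwfix σ
  rw [IntermediateField.mem_bot] at hbot
  obtain ⟨a, ha⟩ := hbot
  have hwi : IsIntegral ℤ w := by
    rw [hw]; exact IsIntegral.prod _ hint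
  have hai : IsIntegral ℤ a := by
    rw [← ha] at hwi
    rwa [isIntegral_algebraMap_iff (algebraMap ℚ Qtr).injective] at hwi
  obtain ⟨k, hk⟩ := IsIntegrallyClosed.isIntegral_iff.mp hai
  have hwk : w = (k : Qtr) := by
    rw [← ha, ← hk]; simp
  have hk0 : k ≠ 0 := by
    intro h0
    rw [h0, Int.cast_zero] at hwk
    exact (Finset.prod_ne_zero_iff.mpr hne) hwk
  rw [hwk, map_intCast]
  have : (1:ℤ) ≤ |k| := Int.one_le_abs hk0
  exact_mod_cast this

end measure

end Pool.Agent.Helper967.RD
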