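import Pool.Agent.Helper967.RD5
set_option autoImplicit false
open MeasureTheory Polynomial IntermediateField NumberField

/-! Rings of totally real integers have arbitrarily large finite boxes. -/

namespace Pool.Agent.Helper967.RD

open Pool.Agent.Helper967.TR

/-- the embeddings of the ring of integers -/
noncomputable def evK (K : IntermediateField ℚ Qtr) (σ : Gal(Qtr/ℚ)) : 𝓞 K →+* ℝ :=
  (es σ).comp ((algebraMap K Qtr).comp (algebraMap (𝓞 K) K))

lemma evK_apply (K : IntermediateField ℚ Qtr) (σ : Gal(Qtr/ℚ)) (x : 𝓞 K) : evK K σ x = es σ ((x : K) : Qtr) := rfl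

theorem tdK (K : IntermediateField ℚ Qtr) : TD (evK K) where
  ne := inferInstance
  int x := RingOfIntegers.isIntegral x
  inj i := by
    intro a b hab
    rw [evK_apply, evK_apply] at hab
    exact RingOfIntegers.ext (Subtype.ext ((es i).injective hab))
  conj x i z hz := exists_es _ i z hz

lemma integral_in_K (K : IntermediateField ℚ Qtr) (x : 𝓞 K) : IsIntegral ℤ ((x : K) : Qtr) := by
  have h1 : IsIntegral ℤ (x : K) := RingOfIntegers.isIntegral_coe x
  exact h1.map ((algebraMap K Qtr).toIntAlgHom)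

/-- clearing denominators -/
lemma exists_mul_int (K : IntermediateField ℚ Qtr) (a b : K) : ∃ q : ℕ, 0 < q ∧ ∃ p p' : 𝓞 K, (p : K) = q * a ∧ (p' : K) = q * b := by
  have hKa : Algebra.IsAlgebraic ℚ K :=
    Algebra.IsAlgebraic.of_injective ((K.toSubfield.subtype : K →+* Qtr).toRatAlgHom) Subtype.val_injective
  have key : ∀ a : K, ∃ q : ℕ, 0 < q ∧ IsIntegral ℤ ((q : K) * a) := by
    intro a
    have h1 : IsAlgebraic ℤ a := (IsFractionRing.isAlgebraic_iff ℤ ℚ K).mpr (Algebra.IsAlgebraic.isAlgebraic a)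
    obtain ⟨y, hy, hya⟩ := h1.exists_integral_multiple
    refine ⟨y.natAbs, Int.natAbs_pos.mpr hy, ?_⟩
    rw [zsmul_eq_mul] at hya
    rcases Int.natAbs_eq y with h2 | h2
    · rw [h2, Int.cast_natCast] at hya; exact hya
    · rw [h2] at hya
      have := hya.neg
      rw [Int.cast_neg, Int.cast_natCast, neg_mul, neg_neg] at this
      exact this
  obtain ⟨q1, hq1, h1⟩ := key a
  obtain ⟨q2, hq2, h2⟩ := key b
  have hn : ∀ n : ℕ, IsIntegral ℤ (n : K) := fun n => (isIntegral_algebraMap (x := (n:ℤ)) (A := K) |> fun h => by simpa using h)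
  refine ⟨q1 * q2, Nat.mul_pos hq1 hq2, ⟨((q1 * q2 : ℕ) : K) * a, ?_⟩, ⟨((q1 * q2 : ℕ) : K) * b, ?_⟩, rfl, rfl⟩
  · have : ((q1 * q2 : ℕ) : K) * a = (q2 : K) * ((q1 : K) * a) := by push_cast; ring
    show IsIntegral ℤ (((q1 * q2 : ℕ) : K) * a)
    rw [this]
    exact (hn q2).mul h1
  · have : ((q1 * q2 : ℕ) : K) * b = (q1 : K) * ((q2 : K) * b) := by push_cast; ring
    show IsIntegral ℤ (((q1 * q2 : ℕ) : K) * b)
    rw [this]
    exact (hn q1).mul h2

theorem boxesK (K : IntermediateField ℚ Qtr) : Boxes (evK K) := by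
  classical
  let _ : MeasurableSpace Gal(Qtr/ℚ) := borel _
  have : BorelSpace Gal(Qtr/ℚ) := ⟨rfl⟩
  let μ : Measure Gal(Qtr/ℚ) := Measure.haarMeasure ⊤
  have : IsProbabilityMeasure μ := ⟨Measure.haarMeasure_self⟩
  intro n
  -- the ring of functions and the set
  let A : Subring C(Gal(Qtr/ℚ), ℝ) := (fn.comp (algebraMap K Qtr)).range
  let fO : 𝓞 K → C(Gal(Qtr/ℚ), ℝ) := fun x => fn ((x : K) : Qtr)
  have hfO : Function.Injective fO := by
    intro a b hab
    exact RingOfIntegers.ext (Subtype.ext (fn_inj hab))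
  have hfOapp : ∀ x σ, fO x σ = evK K σ x := fun x σ => rfl
  let S : Set C(Gal(Qtr/ℚ), ℝ) := Set.range fO
  have hQ : ∀ q : ℚ, ContinuousMap.const Gal(Qtr/ℚ) (q : ℝ) ∈ A := by
    intro q
    refine ⟨(q : K), ?_⟩
    ext σ
    show es σ (((q : K)) : Qtr) = (q : ℝ)
    have : (((q : K)) : Qtr) = (q : Qtr) := by simp
    rw [this, map_ratCast]
  have hSA : S ⊆ A := by
    rintro _ ⟨x, rfl⟩
    exact ⟨(x : K), rfl⟩
  have hSinf : S.Infinite := by
    have : Infinite (𝓞 K) := inferInstance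
    exact Set.infinite_range_of_injective hfO
  have hS : ∀ x ∈ S, ∀ y ∈ S, x ≠ y → (∀ σ, x σ ≠ y σ) ∧ 0 ≤ ∫ σ, Real.log (x σ - y σ) ∂μ := by
    rintro _ ⟨x, rfl⟩ _ ⟨y, rfl⟩ hxy
    have hne : x ≠ y := fun h => hxy (by rw [h])
    have hne' : x - y ≠ 0 := sub_ne_zero.mpr hne
    have e : ∀ σ, fO x σ - fO y σ = es σ ((((x - y : 𝓞 K)) : K) : Qtr) := by
      intro σ
      rw [hfOapp, hfOapp, ← evK_apply, map_sub]
    have hz : ((((x - y : 𝓞 K)) : K) : Qtr) ≠ 0 := by
      intro h0
      apply hne'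
      exact RingOfIntegers.ext (Subtype.ext h0)
    constructor
    · intro σ h
      have h1 := e σ
      rw [h, sub_self] at h1
      exact hz ((map_eq_zero (es σ)).mp h1.symm)
    · simp only [e]
      exact mean_log_nonneg μ _ hz (integral_in_K K _)
  obtain ⟨_, ⟨a, rfl⟩, _, ⟨b, rfl⟩, hfin, hcard⟩ := large_box μ A hQ S hSA hSinf hS n
  set l := (fn.comp (algebraMap K Qtr)) a with hl
  set u := (fn.comp (algebraMap K Qtr)) b with hu
  have hlσ : ∀ σ, l σ = es σ (a : Qtr) := fun σ => rfl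
  have huσ : ∀ σ, u σ = es σ (b : Qtr) := fun σ => rfl
  -- the translation
  obtain ⟨t, ht⟩ : ∃ t : ℕ, ∀ σ, - l σ ≤ t := by
    obtain ⟨σ0, _, hmax⟩ := isCompact_univ.exists_isMaxOn (s := (Set.univ : Set Gal(Qtr/ℚ))) Set.univ_nonempty
      (f := fun σ => - l σ) (l.continuous.neg).continuousOn
    obtain ⟨t, ht⟩ := exists_nat_ge (- l σ0)
    exact ⟨t, fun σ => (hmax (Set.mem_univ σ)).trans ht⟩
  obtain ⟨q, hq, p, p', hp, hp'⟩ := exists_mul_int K (a + t) (b + t)
  have hq0 : (0:ℝ) < q := by exact_mod_cast hq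
  have hpσ : ∀ σ, evK K σ p = q * (l σ + t) := by
    intro σ
    rw [evK_apply, hp, hlσ]
    have : (((q : K) * (a + t) : K) : Qtr) = (q : Qtr) * ((a : Qtr) + (t : Qtr)) := by simp
    rw [this, map_mul, map_add, map_natCast, map_natCast]
  have hp'σ : ∀ σ, evK K σ p' = q * (u σ + t) := by
    intro σ
    rw [evK_apply, hp', huσ]
    have : (((q : K) * (b + t) : K) : Qtr) = (q : Qtr) * ((b : Qtr) + (t : Qtr)) := by simp
    rw [this, map_mul, map_add, map_natCast, map_natCast]
  -- the box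
  have hbox : Bx (evK K) p p' (q : 𝓞 K) = (fun x : 𝓞 K => x + (t : 𝓞 K)) '' (fO ⁻¹' (BoxC S l u)) := by
    ext f
    constructor
    · rintro ⟨h1, h2⟩
      refine ⟨f - t, ⟨⟨f - t, rfl⟩, fun σ => ?_⟩, by ring⟩
      have h1' := h1 σ
      have h2' := h2 σ
      rw [map_sub, map_mul, map_natCast, hpσ] at h1'
      rw [map_sub, map_mul, map_natCast, hp'σ] at h2'
      rw [hfOapp, map_sub, map_natCast]
      constructor
      · have : (q:ℝ) * (l σ + t) < q * evK K σ f := by linarith
        have := lt_of_mul_lt_mul_left this hq0.le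
        linarith
      · have : (q:ℝ) * evK K σ f < q * (u σ + t) := by linarith
        have := lt_of_mul_lt_mul_left this hq0.le
        linarith
    · rintro ⟨x, ⟨_, hx⟩, rfl⟩
      constructor
      · intro σ
        have := (hx σ).1
        rw [hfOapp] at this
        rw [map_sub, map_mul, map_natCast, hpσ, map_add, map_natCast]
        have : (q:ℝ) * (l σ + t) < q * (evK K σ x + t) := mul_lt_mul_of_pos_left (by linarith) hq0
        linarith
      · intro σ
        have := (hx σ).2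
        rw [hfOapp] at this
        rw [map_sub, map_mul, map_natCast, hp'σ, map_add, map_natCast]
        have : (q:ℝ) * (evK K σ x + t) < q * (u σ + t) := mul_lt_mul_of_pos_left (by linarith) hq0
        linarith
  refine ⟨p, p', (q : 𝓞 K), ?_, ?_, ?_⟩
  · rintro f ⟨h1, _⟩ σ
    have h1' := h1 σ
    rw [map_sub, map_mul, map_natCast, hpσ] at h1'
    have : (q:ℝ) * (l σ + t) < q * evK K σ f := by linarith
    have := lt_of_mul_lt_mul_left this hq0.le
    linarith [ht σ]
  · rw [hbox]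
    exact (hfin.preimage hfO.injOn).image _
  · rw [hbox, Set.ncard_image_of_injective _ (fun x y hxy => add_right_cancel hxy)]
    have : (fO ⁻¹' (BoxC S l u)).ncard = (BoxC S l u).ncard := by
      rw [← Set.ncard_image_of_injective _ hfO, Set.image_preimage_eq_of_subset]
      exact fun x hx => hx.1
    rw [this]
    exact hcard

end Pool.Agent.Helper967.RD
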