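import Pool.Agent.Helper967.RD6
set_option autoImplicit false
open MeasureTheory Polynomial IntermediateField NumberField

/-! The order is definable by a Pell equation. -/

namespace Pool.Agent.Helper967.RD

open Pool.Agent.Helper967.TR

/-- the algebraic closure of the rationals -/
abbrev Om : Type := AlgebraicClosure ℚ

/-- the map into the algebraic closure -/
noncomputable def toOm (K : IntermediateField ℚ Qtr) : K →+* Om := (algebraMap Qtr Om).comp (algebraMap K Qtr)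

/-- the map of the integers into the algebraic closure -/
noncomputable def zOm (K : IntermediateField ℚ Qtr) : 𝓞 K →+* Om := (toOm K).comp (algebraMap (𝓞 K) K)

/-- the field as a subfield of the algebraic closure -/
noncomputable def KF (K : IntermediateField ℚ Qtr) : Subfield Om := (toOm K).fieldRange

variable (K : IntermediateField ℚ Qtr)

lemma zOm_inj : Function.Injective (zOm K) := by
  intro a b hab
  exact RingOfIntegers.ext ((toOm K).injective hab)

lemma zOm_mem (a : 𝓞 K) : zOm K a ∈ KF K := ⟨(a : K), rfl⟩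

lemma zOm_int (a : 𝓞 K) : IsIntegral ℤ (zOm K a) :=
  (RingOfIntegers.isIntegral a).map ((zOm K).toIntAlgHom)

lemma lift_int (x : Om) (hx : x ∈ KF K) (hi : IsIntegral ℤ x) : ∃ a : 𝓞 K, zOm K a = x := by
  obtain ⟨k, rfl⟩ := hx
  have h1 : IsIntegral ℤ k := by
    have := (isIntegral_algHom_iff ((toOm K).toIntAlgHom) (toOm K).injective (x := k)).mp hi
    exact this
  exact ⟨⟨k, h1⟩, rfl⟩

lemma pell_of (z : 𝓞 K) (δ l l' : Om) (hδ : δ^2 = zOm K z) (hδi : IsIntegral ℤ δ)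
    (h1 : IsIntegral ℤ l) (h2 : IsIntegral ℤ l')
    (h3 : (1 + 4 * zOm K z * l) * (1 + 4 * zOm K z * l') = 1) (h4 : l + l' ∈ KF K)
    (h5 : δ * (l - l') ∈ KF K) (h6 : δ * (l - l') ≠ 0) : ∃ a b : 𝓞 K, a*a - 4*z*(b*b) = 1 ∧ b ≠ 0 := by
  have hz := zOm_int K z
  have i2 : IsIntegral ℤ (2 : Om) := (isIntegral_algebraMap (x := (2:ℤ)) (A := Om) |> fun h => by simpa using h)
  obtain ⟨a, ha⟩ := lift_int K (1 + 2 * zOm K z * (l + l'))
    ((KF K).add_mem (KF K).one_mem ((KF K).mul_mem ((KF K).mul_mem (by exact ofNat_mem (KF K) 2) (zOm_mem K z)) h4))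
    (isIntegral_one.add ((i2.mul hz).mul (h1.add h2)))
  obtain ⟨b, hb⟩ := lift_int K (δ * (l - l')) h5 (hδi.mul (h1.sub h2))
  refine ⟨a, b, ?_, ?_⟩
  · apply zOm_inj K
    rw [map_sub, map_mul, map_mul, map_mul, map_mul, map_one, map_ofNat, ha, hb]
    have e : (1 + 2 * zOm K z * (l + l')) * (1 + 2 * zOm K z * (l + l')) - 4 * zOm K z * (δ * (l - l') * (δ * (l - l'))) =
      (1 + 4 * zOm K z * l) * (1 + 4 * zOm K z * l') + 4 * zOm K z * (l-l')^2 * (zOm K z - δ^2) := by ring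
    rw [e, h3, hδ]; ring
  · intro h0
    apply h6
    rw [← hb, h0, map_zero]

/-- an automorphism moving a square root -/
lemma exists_aut (δ : Om) (d : Om) (hd : d ∈ KF K) (hδ : δ^2 = d) (hδK : δ ∉ KF K) : ∃ c : Om ≃+* Om, (∀ x ∈ KF K, c x = x) ∧ c δ = -δ := by
  have hal : Algebra.IsAlgebraic K Om := by
    have : Algebra.IsAlgebraic ℚ Om := algIsAlg
    have h2 : @IsScalarTower ℚ K Om _ _ _ := by infer_instance
    exact Algebra.IsAlgebraic.tower_top (K := ℚ) (L := K) (A := Om)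
  have hgal : IsGalois K Om := by
    have : Normal K Om := { splits' := fun x => IsAlgClosed.splits _ }
    exact ⟨⟩
  have h1 : δ ∉ (⊥ : IntermediateField K Om) := by
    intro h
    rw [IntermediateField.mem_bot] at h
    obtain ⟨k, hk⟩ := h
    exact hδK ⟨k, hk⟩
  rw [InfiniteGalois.mem_bot_iff_fixed] at h1
  push Not at h1
  obtain ⟨c, hc⟩ := h1
  refine ⟨c.toRingEquiv, ?_, ?_⟩
  · rintro x ⟨k, rfl⟩
    exact c.commutes k
  · have h2 : c δ * c δ = δ * δ := by
      rw [← map_mul, ← pow_two, hδ]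
      obtain ⟨k, rfl⟩ := hd
      exact c.commutes k
    exact (mul_self_eq_mul_self_iff.mp h2).resolve_left hc

/-- elements of the field generated by a square root -/
lemma decomp (θ δ d : Om) (hθ : θ ∈ KF K) (hd : d ∈ KF K) (hδ : δ^2 = d) (x : Om) (hx : x ∈ IntermediateField.adjoin ℚ ({θ, δ} : Set Om)) :
    ∃ α ∈ KF K, ∃ β ∈ KF K, x = α + β * δ := by
  induction hx using IntermediateField.adjoin_induction with
  | mem x hx =>
    rcases hx with rfl | hx
    · exact ⟨x, hθ, 0, (KF K).zero_mem, by ring⟩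
    · rw [Set.mem_singleton_iff] at hx
      subst hx
      exact ⟨0, (KF K).zero_mem, 1, (KF K).one_mem, by ring⟩
  | algebraMap q =>
    refine ⟨algebraMap ℚ Om q, ?_, 0, (KF K).zero_mem, by ring⟩
    rw [eq_ratCast]
    exact SubfieldClass.ratCast_mem (KF K) q
  | add x y _ _ hx hy =>
    obtain ⟨a, ha, b, hb, rfl⟩ := hx
    obtain ⟨a', ha', b', hb', rfl⟩ := hy
    exact ⟨a + a', (KF K).add_mem ha ha', b + b', (KF K).add_mem hb hb', by ring⟩
  | inv x _ hx =>
    obtain ⟨a, ha, b, hb, rfl⟩ := hx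
    by_cases h0 : a + b * δ = 0
    · rw [h0, inv_zero]
      exact ⟨0, (KF K).zero_mem, 0, (KF K).zero_mem, by ring⟩
    · by_cases h1 : a^2 - b^2 * d = 0
      · have h2 : (a + b * δ) * (a - b * δ) = 0 := by
          have : (a + b * δ) * (a - b * δ) = a^2 - b^2 * δ^2 := by ring
          rw [this, hδ, h1]
        have h3 : a - b * δ = 0 := (mul_eq_zero.mp h2).resolve_left h0
        have h4 : a + b * δ = 2 * a := by linear_combination -h3
        rw [h4]
        exact ⟨(2*a)⁻¹, (KF K).inv_mem ((KF K).mul_mem (ofNat_mem (KF K) 2) ha), 0, (KF K).zero_mem, by ring⟩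
      · refine ⟨a / (a^2 - b^2*d), (KF K).div_mem ha ?_, -b / (a^2 - b^2*d), (KF K).div_mem ((KF K).neg_mem hb) ?_, ?_⟩
        · exact (KF K).sub_mem ((KF K).pow_mem ha 2) ((KF K).mul_mem ((KF K).pow_mem hb 2) hd)
        · exact (KF K).sub_mem ((KF K).pow_mem ha 2) ((KF K).mul_mem ((KF K).pow_mem hb 2) hd)
        · rw [div_mul_eq_mul_div, ← add_div, eq_div_iff h1, inv_mul_eq_iff_eq_mul₀ h0]
          rw [← hδ]; ring
  | mul x y _ _ hx hy =>
    obtain ⟨a, ha, b, hb, rfl⟩ := hx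
    obtain ⟨a', ha', b', hb', rfl⟩ := hy
    refine ⟨a * a' + b * b' * d, (KF K).add_mem ((KF K).mul_mem ha ha') ((KF K).mul_mem ((KF K).mul_mem hb hb') hd),
      a * b' + b * a', (KF K).add_mem ((KF K).mul_mem ha hb') ((KF K).mul_mem hb ha'), ?_⟩
    rw [← hδ]; ring

/-- units congruent to one modulo a given nonzero integer -/
lemma unit_pow {M : Type} [Field M] [NumberField M] (u : (𝓞 M)ˣ) (w : 𝓞 M) (hw : w ≠ 0) :
    ∃ k : ℕ, 0 < k ∧ ∃ l l' : 𝓞 M, ((u : 𝓞 M))^k = 1 + w * l ∧ (((u⁻¹ : (𝓞 M)ˣ) : 𝓞 M))^k = 1 + w * l' := by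
  have hI : Ideal.span {w} ≠ (⊥ : Ideal (𝓞 M)) := by
    rw [Ne, Ideal.span_singleton_eq_bot]; exact hw
  have hfin : Finite (𝓞 M ⧸ Ideal.span {w}) := Ideal.finiteQuotientOfFreeOfNeBot _ hI
  have hfin2 : Finite (𝓞 M ⧸ Ideal.span {w})ˣ := inferInstance
  set g : (𝓞 M)ˣ →* (𝓞 M ⧸ Ideal.span {w})ˣ := Units.map (Ideal.Quotient.mk (Ideal.span {w}) : 𝓞 M →* _) with hg
  refine ⟨Nat.card (𝓞 M ⧸ Ideal.span {w})ˣ, Nat.card_pos, ?_⟩
  have key : ∀ v : (𝓞 M)ˣ, ∃ l : 𝓞 M, (v : 𝓞 M)^(Nat.card (𝓞 M ⧸ Ideal.span {w})ˣ) = 1 + w * l := by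
    intro v
    have h1 : (g v)^(Nat.card (𝓞 M ⧸ Ideal.span {w})ˣ) = 1 := pow_card_eq_one'
    rw [← map_pow] at h1
    have h2 := congrArg Units.val h1
    have h3 : Ideal.Quotient.mk (Ideal.span {w}) ((v : 𝓞 M)^(Nat.card (𝓞 M ⧸ Ideal.span {w})ˣ)) = Ideal.Quotient.mk (Ideal.span {w}) 1 := by
      rw [map_one, ← Units.val_pow_eq_pow_val]
      exact h2
    rw [Ideal.Quotient.eq, Ideal.mem_span_singleton'] at h3
    obtain ⟨l, hl⟩ := h3
    exact ⟨l, by linear_combination -hl⟩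
  obtain ⟨l, hl⟩ := key u
  obtain ⟨l', hl'⟩ := key u⁻¹
  exact ⟨l, l', hl, hl'⟩

/-- a unit which is small at all places but one -/
lemma unit_place {M : Type} [Field M] [NumberField M] (w1 w2 : InfinitePlace M) (h : w2 ≠ w1) :
    ∃ u : (𝓞 M)ˣ, w2 ((u : 𝓞 M) : M) < 1 ∧ 1 < w1 ((u : 𝓞 M) : M) := by
  classical
  obtain ⟨u, hu⟩ := NumberField.Units.dirichletUnitTheorem.exists_unit M w1
  have hpos : ∀ w : InfinitePlace M, 0 < w ((u : 𝓞 M) : M) := fun w => Units.pos_at_place u w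
  have h2 := hu w2 h
  refine ⟨u, ?_, ?_⟩
  · by_contra hcon
    push Not at hcon
    exact absurd (Real.log_nonneg hcon) (not_le.mpr h2)
  · have h3 := NumberField.Units.sum_mult_mul_log u
    rw [← Finset.add_sum_erase _ _ (Finset.mem_univ w1)] at h3
    have h4 : ∑ w ∈ Finset.univ.erase w1, (w.mult : ℝ) * Real.log (w ((u : 𝓞 M) : M)) < 0 := by
      apply Finset.sum_neg
      · intro w hw
        apply mul_neg_of_pos_of_neg
        · exact_mod_cast InfinitePlace.mult_pos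
        · exact hu w (Finset.ne_of_mem_erase hw)
      · exact ⟨w2, Finset.mem_erase.mpr ⟨h, Finset.mem_univ _⟩⟩
    have h5 : 0 < (w1.mult : ℝ) * Real.log (w1 ((u : 𝓞 M) : M)) := by
      have h6 : (w1.mult : ℝ) * Real.log (w1 ((algebraMap (𝓞 M) M) u)) = (w1.mult : ℝ) * Real.log (w1 ((u : 𝓞 M) : M)) := rfl
      linarith
    have h6 : (0:ℝ) < w1.mult := by exact_mod_cast InfinitePlace.mult_pos
    have h7 : 0 < Real.log (w1 ((u : 𝓞 M) : M)) := by
      by_contra hcon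
      push Not at hcon
      have := mul_nonpos_of_nonneg_of_nonpos h6.le hcon
      linarith
    by_contra hcon
    push Not at hcon
    have := Real.log_nonpos (hpos w1).le hcon
    linarith

end Pool.Agent.Helper967.RD
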