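import Pool.Agent.Helper967.RD7
set_option autoImplicit false
open MeasureTheory Polynomial IntermediateField NumberField

/-! The order is definable by a Pell equation: the main lemma. -/

namespace Pool.Agent.Helper967.RD

open Pool.Agent.Helper967.TR

/-- the number field generated by two algebraic numbers -/
noncomputable abbrev Mf (θ δ : Om) : IntermediateField ℚ Om := IntermediateField.adjoin ℚ ({θ, δ} : Set Om)

instance nfM (θ δ : Om) : NumberField (Mf θ δ) where
  to_charZero := inferInstance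
  to_finiteDimensional := by
    have : Finite ({θ, δ} : Set Om) := Set.Finite.to_subtype (by simp)
    exact finiteDimensional_adjoin (fun x _ => Algebra.IsIntegral.isIntegral x)

lemma theta_mem (θ δ : Om) : θ ∈ Mf θ δ := subset_adjoin ℚ _ (by simp)
lemma delta_mem (θ δ : Om) : δ ∈ Mf θ δ := subset_adjoin ℚ _ (by simp)

/-- embeddings extending those of the totally real field -/
noncomputable def ex (σ : Gal(Qtr/ℚ)) : Om →+* ℂ := phi0.comp ((σ.liftNormal Om : Gal(Om/ℚ)) : Om →+* Om)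

lemma ex_apply (σ : Gal(Qtr/ℚ)) (x : Qtr) : ex σ (algebraMap Qtr Om x) = ((es σ x : ℝ) : ℂ) := by
  rw [es_apply, ev_eq]
  show phi0 ((σ.liftNormal Om) (algebraMap Qtr Om x)) = _
  rw [AlgEquiv.liftNormal_commutes]
  rfl

/-- two places are different when they are given by embeddings with different real values -/
lemma mk_ne {M : Type} [Field M] (φ ψ : M →+* ℂ) (x : M) (h1 : (φ x).im = 0) (h2 : φ x ≠ ψ x) :
    InfinitePlace.mk ψ ≠ InfinitePlace.mk φ := by
  intro h
  rcases InfinitePlace.mk_eq_iff.mp h.symm with h3 | h3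
  · exact h2 (by rw [h3])
  · apply h2
    rw [← h3, ComplexEmbedding.conjugate_coe_eq]
    exact (Complex.conj_eq_iff_im.mpr h1).symm

variable (K : IntermediateField ℚ Qtr)

lemma pos_pell (hK : K ≠ ⊥) (z : 𝓞 K) (hz : z ≠ 0) (σ : Gal(Qtr/ℚ)) (hσ : 0 < evK K σ z) :
    ∃ a b : 𝓞 K, a*a - 4*z*(b*b) = 1 ∧ b ≠ 0 := by
  -- an irrational element
  obtain ⟨θ0, hθK, hθ⟩ : ∃ θ0 ∈ K, θ0 ∉ (⊥ : IntermediateField ℚ Qtr) := by
    by_contra hcon
    push Not at hcon
    exact hK (le_bot_iff.mp hcon)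
  set θ : Om := algebraMap Qtr Om θ0 with hθdef
  have hθF : θ ∈ KF K := ⟨⟨θ0, hθK⟩, rfl⟩
  obtain ⟨δ, hδ⟩ := IsAlgClosed.exists_pow_nat_eq (zOm K z) (n := 2) (by norm_num)
  have hz0 : zOm K z ≠ 0 := fun h0 => hz ((map_eq_zero_iff _ (zOm_inj K)).mp h0)
  have hδ0 : δ ≠ 0 := by
    intro h0
    rw [h0, zero_pow two_ne_zero] at hδ
    exact hz0 hδ.symm
  have hδi : IsIntegral ℤ δ := by
    apply IsIntegral.of_pow (n := 2) (by norm_num)
    rw [hδ]; exact zOm_int K z
  -- the field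
  set M := Mf θ δ with hM
  set θM : M := ⟨θ, theta_mem θ δ⟩ with hθM
  set δM : M := ⟨δ, delta_mem θ δ⟩ with hδM
  have hMi : ∀ x : M, IsIntegral ℤ (x : Om) → IsIntegral ℤ x := by
    intro x hx
    have := (isIntegral_algHom_iff ((algebraMap M Om).toIntAlgHom) (algebraMap M Om).injective (x := x)).mp hx
    exact this
  have hMi' : ∀ x : 𝓞 M, IsIntegral ℤ ((x : M) : Om) := by
    intro x
    exact (RingOfIntegers.isIntegral_coe x).map ((algebraMap M Om).toIntAlgHom)
  set dM : 𝓞 M := ⟨δM, hMi δM hδi⟩ with hdM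
  set w : 𝓞 M := 4 * dM^2 with hw
  have hwOm : ((w : M) : Om) = 4 * zOm K z := by
    rw [← hδ]
    rfl
  have hw0 : w ≠ 0 := by
    intro h0
    have : ((w : M) : Om) = 0 := by rw [h0]; rfl
    rw [hwOm] at this
    exact hz0 ((mul_eq_zero.mp this).resolve_left (by norm_num))
  have hpowOm : ∀ (v : 𝓞 M) (k : ℕ) (l : 𝓞 M), v^k = 1 + w * l → (((v : M) : Om))^k = 1 + 4 * zOm K z * ((l : M) : Om) := by
    intro v k l h
    have h1 := congrArg (fun x : 𝓞 M => ((x : M) : Om)) h
    rw [← hwOm]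
    exact h1
  have huu : ∀ u : (𝓞 M)ˣ, (((u : 𝓞 M) : M) : Om) * ((((u⁻¹ : (𝓞 M)ˣ) : 𝓞 M) : M) : Om) = 1 := by
    intro u
    have h1 : ((u : 𝓞 M)) * ((u⁻¹ : (𝓞 M)ˣ) : 𝓞 M) = 1 := u.mul_inv
    have h2 := congrArg (fun x : 𝓞 M => ((x : M) : Om)) h1
    exact h2
  by_cases hδK : δ ∈ KF K
  · -- the square case
    have hMK : ∀ x : M, (x : Om) ∈ KF K := by
      intro x
      obtain ⟨α, hα, β, hβ, h⟩ := decomp K θ δ (zOm K z) hθF (zOm_mem K z) hδ x x.2
      rw [h]
      exact (KF K).add_mem hα ((KF K).mul_mem hβ hδK)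
    obtain ⟨τ, hτ⟩ : ∃ τ : Gal(Qtr/ℚ), τ θ0 ≠ θ0 := by
      rw [InfiniteGalois.mem_bot_iff_fixed] at hθ
      push Not at hθ
      exact hθ
    have hne := mk_ne ((ex 1).comp (algebraMap M Om)) ((ex τ).comp (algebraMap M Om)) θM
      (by
        show (ex 1 θ).im = 0
        rw [hθdef, ex_apply]; exact Complex.ofReal_im _)
      (by
        show ex 1 θ ≠ ex τ θ
        rw [hθdef, ex_apply, ex_apply]
        intro h
        have h1 : es 1 θ0 = es τ θ0 := by exact_mod_cast h
        exact hτ ((ev phi0).injective h1).symm)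
    obtain ⟨u, hu1, hu2⟩ := unit_place _ _ hne
    obtain ⟨k, hk, l, l', hl, hl'⟩ := unit_pow u w hw0
    have hl1 := hpowOm _ _ _ hl
    have hl1' := hpowOm _ _ _ hl'
    have huu' := huu u
    set U : Om := (((u : 𝓞 M) : M) : Om) with hU
    set U' : Om := ((((u⁻¹ : (𝓞 M)ˣ) : 𝓞 M) : M) : Om) with hU'
    refine pell_of K z δ ((l : M) : Om) ((l' : M) : Om) hδ hδi (hMi' l) (hMi' l') ?_ ?_ ?_ ?_
    · rw [← hl1, ← hl1', ← mul_pow, huu', one_pow]
    · exact (KF K).add_mem (hMK _) (hMK _)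
    · exact (KF K).mul_mem hδK ((KF K).sub_mem (hMK _) (hMK _))
    · intro h0
      have h1 : ((l : M) : Om) = ((l' : M) : Om) := sub_eq_zero.mp ((mul_eq_zero.mp h0).resolve_left hδ0)
      have h2 : U^k * U^k = 1 := by
        have h3 : U^k = U'^k := by rw [hl1, hl1', h1]
        calc U^k * U^k = U^k * U'^k := by rw [← h3]
          _ = 1 := by rw [← mul_pow, huu', one_pow]
      have h3 : ‖ex 1 U‖^(k+k) = 1 := by
        rw [← norm_pow, ← map_pow, pow_add, h2, map_one, norm_one]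
      have h4 : 1 < ‖ex 1 U‖ := hu2
      have h5 : 1 < ‖ex 1 U‖^(k+k) := one_lt_pow₀ h4 (by omega)
      linarith
  · -- the nonsquare case
    obtain ⟨c, hc, hcδ⟩ := exists_aut K δ (zOm K z) (zOm_mem K z) hδ hδK
    have hreal : (ex σ δ).im = 0 := by
      have h1 : (ex σ δ)^2 = ((evK K σ z : ℝ) : ℂ) := by
        rw [← map_pow, hδ]
        exact ex_apply σ _
      have hre := congrArg Complex.re h1
      have him := congrArg Complex.im h1
      rw [pow_two, Complex.mul_re, Complex.ofReal_re] at hre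
      rw [pow_two, Complex.mul_im, Complex.ofReal_im] at him
      by_contra hne
      have h3 : (ex σ δ).re = 0 := by
        have : (ex σ δ).re * (ex σ δ).im = 0 := by linarith
        exact (mul_eq_zero.mp this).resolve_right hne
      rw [h3] at hre
      have : 0 < (ex σ δ).im * (ex σ δ).im := mul_self_pos.mpr hne
      linarith
    have hne := mk_ne ((ex σ).comp (algebraMap M Om)) (((ex σ).comp (c : Om →+* Om)).comp (algebraMap M Om)) δM
      hreal
      (by
        show ex σ δ ≠ ex σ (c δ)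
        rw [hcδ]
        intro h
        have h1 := (ex σ).injective h
        apply hδ0
        have : (2:Om) * δ = 0 := by linear_combination h1
        exact (mul_eq_zero.mp this).resolve_left two_ne_zero)
    obtain ⟨u, hu1, hu2⟩ := unit_place _ _ hne
    obtain ⟨k, hk, l, l', hl, hl'⟩ := unit_pow u w hw0
    have hl1 := hpowOm _ _ _ hl
    have hl1' := hpowOm _ _ _ hl'
    have huu' := huu u
    set U : Om := (((u : 𝓞 M) : M) : Om) with hU
    set U' : Om := ((((u⁻¹ : (𝓞 M)ˣ) : 𝓞 M) : M) : Om) with hU'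
    set l1 : Om := ((l : M) : Om) with hl1def
    set l2 : Om := ((l' : M) : Om) with hl2def
    set Z := zOm K z with hZ
    have hcZ : c Z = Z := hc _ (zOm_mem K z)
    obtain ⟨α1, hα1, β1, hβ1, h1⟩ := decomp K θ δ Z hθF (zOm_mem K z) hδ l1 (l : M).2
    obtain ⟨α2, hα2, β2, hβ2, h2⟩ := decomp K θ δ Z hθF (zOm_mem K z) hδ l2 (l' : M).2
    have hc1 : c l1 = α1 - β1 * δ := by
      rw [h1, map_add, map_mul, hcδ, hc _ hα1, hc _ hβ1]; ring
    have hc2 : c l2 = α2 - β2 * δ := by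
      rw [h2, map_add, map_mul, hcδ, hc _ hα2, hc _ hβ2]; ring
    have i1 : IsIntegral ℤ l1 := hMi' l
    have i2 : IsIntegral ℤ l2 := hMi' l'
    have j1 : IsIntegral ℤ (c l1) := i1.map ((c : Om →+* Om).toIntAlgHom)
    have j2 : IsIntegral ℤ (c l2) := i2.map ((c : Om →+* Om).toIntAlgHom)
    have iZ : IsIntegral ℤ Z := zOm_int K z
    have i4 : IsIntegral ℤ (4 : Om) := (isIntegral_algebraMap (x := (4:ℤ)) (A := Om) |> fun h => by simpa using h)
    have hm4 : (4 : Om) ∈ KF K := ofNat_mem (KF K) 4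
    have hm2 : (2 : Om) ∈ KF K := ofNat_mem (KF K) 2
    have hmZ : Z ∈ KF K := zOm_mem K z
    have e1 : 1 + 4 * Z * (l1 + c l2 + 4 * Z * l1 * c l2) = (1 + 4 * Z * l1) * (1 + 4 * Z * c l2) := by ring
    have e2 : 1 + 4 * Z * (c l1 + l2 + 4 * Z * c l1 * l2) = (1 + 4 * Z * c l1) * (1 + 4 * Z * l2) := by ring
    have f1 : 1 + 4 * Z * c l1 = c U ^ k := by
      rw [← map_pow, hl1, map_add, map_mul, map_mul, hcZ, map_one, map_ofNat]
    have f2 : 1 + 4 * Z * c l2 = c U' ^ k := by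
      rw [← map_pow, hl1', map_add, map_mul, map_mul, hcZ, map_one, map_ofNat]
    have hcUU : c U * c U' = 1 := by rw [← map_mul, huu', map_one]
    refine pell_of K z δ (l1 + c l2 + 4 * Z * l1 * c l2) (c l1 + l2 + 4 * Z * c l1 * l2) hδ hδi
      ((i1.add j2).add (((i4.mul iZ).mul i1).mul j2)) ((j1.add i2).add (((i4.mul iZ).mul j1).mul i2)) ?_ ?_ ?_ ?_
    · rw [e1, e2, f1, f2, ← hl1, ← hl1']
      have : U ^ k * c U' ^ k * (c U ^ k * U' ^ k) = (U * U')^k * (c U * c U')^k := by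
        rw [mul_pow, mul_pow]; ring
      rw [this, huu', hcUU, one_pow, one_mul]
    · have : l1 + c l2 + 4 * Z * l1 * c l2 + (c l1 + l2 + 4 * Z * c l1 * l2) =
        2 * α1 + 2 * α2 + 4 * Z * (2 * (α1 * α2) - 2 * (β1 * β2 * Z)) := by
        rw [hc1, hc2, h1, h2, ← hδ]; ring
      rw [this]
      exact (KF K).add_mem ((KF K).add_mem ((KF K).mul_mem hm2 hα1) ((KF K).mul_mem hm2 hα2))
        ((KF K).mul_mem ((KF K).mul_mem hm4 hmZ) ((KF K).sub_mem ((KF K).mul_mem hm2 ((KF K).mul_mem hα1 hα2))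
          ((KF K).mul_mem hm2 ((KF K).mul_mem ((KF K).mul_mem hβ1 hβ2) hmZ))))
    · have : δ * (l1 + c l2 + 4 * Z * l1 * c l2 - (c l1 + l2 + 4 * Z * c l1 * l2)) =
        Z * (2 * β1 - 2 * β2 + 4 * Z * (2 * (β1 * α2) - 2 * (α1 * β2))) := by
        rw [hc1, hc2, h1, h2, ← hδ]; ring
      rw [this]
      exact (KF K).mul_mem hmZ ((KF K).add_mem ((KF K).sub_mem ((KF K).mul_mem hm2 hβ1) ((KF K).mul_mem hm2 hβ2))
        ((KF K).mul_mem ((KF K).mul_mem hm4 hmZ) ((KF K).sub_mem ((KF K).mul_mem hm2 ((KF K).mul_mem hβ1 hα2))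
          ((KF K).mul_mem hm2 ((KF K).mul_mem hα1 hβ2)))))
    · intro h0
      have h3 := sub_eq_zero.mp ((mul_eq_zero.mp h0).resolve_left hδ0)
      have h4 : (1 + 4 * Z * l1) * (1 + 4 * Z * c l2) = (1 + 4 * Z * c l1) * (1 + 4 * Z * l2) := by
        rw [← e1, ← e2, h3]
      rw [f1, f2, ← hl1, ← hl1'] at h4
      have h5 : U^(k+k) = c U^(k+k) := by
        have h6 : U^k * U'^k = 1 := by rw [← mul_pow, huu', one_pow]
        have h7 : c U^k * c U'^k = 1 := by rw [← mul_pow, hcUU, one_pow]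
        rw [pow_add, pow_add]
        calc U^k * U^k = U^k * (c U^k * c U'^k) * U^k := by rw [h7, mul_one]
          _ = (U^k * c U'^k) * (U^k * c U^k) := by ring
          _ = (c U^k * U'^k) * (U^k * c U^k) := by rw [h4]
          _ = c U^k * c U^k * (U^k * U'^k) := by ring
          _ = c U^k * c U^k := by rw [h6, mul_one]
      have h6 : ‖ex σ U‖^(k+k) = ‖ex σ (c U)‖^(k+k) := by
        rw [← norm_pow, ← map_pow, h5, map_pow, norm_pow]
      have h7 : 1 < ‖ex σ U‖ := hu2
      have h8 : ‖ex σ (c U)‖ < 1 := hu1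
      have h9 : 1 < ‖ex σ U‖^(k+k) := one_lt_pow₀ h7 (by omega)
      have h10 : ‖ex σ (c U)‖^(k+k) ≤ 1 := pow_le_one₀ (norm_nonneg _) h8.le
      linarith

/-- total negativity is the unsolvability of a Pell equation -/
theorem ng_iff (hK : K ≠ ⊥) (z : 𝓞 K) : Ng (evK K) z ↔ ∀ a b : 𝓞 K, a*a - 4*z*(b*b) = 1 → b = 0 := by
  constructor
  · intro hz a b hab
    by_contra hb
    have hev : ∀ σ, evK K σ a * evK K σ a - 4 * evK K σ z * (evK K σ b * evK K σ b) = 1 := by
      intro σ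
      have := congrArg (evK K σ) hab
      simpa only [map_sub, map_mul, map_ofNat, map_one] using this
    have hbpos : ∀ σ, 0 < evK K σ b * evK K σ b := by
      intro σ
      apply mul_self_pos.mpr
      intro h0
      exact hb ((map_eq_zero_iff _ ((tdK K).inj σ)).mp h0)
    have ha : a = 0 := by
      apply (tdK K).small
      intro σ
      have h1 := hev σ
      have h2 := hbpos σ
      have h3 := hz σ
      have h4 : evK K σ a * evK K σ a < 1 := by nlinarith
      rw [abs_lt]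
      constructor <;> nlinarith
    have h1 : z * (b*b) = 0 := by
      apply (tdK K).small
      intro σ
      have h1 := hev σ
      rw [ha, map_zero] at h1
      rw [map_mul, map_mul]
      rw [abs_lt]
      constructor <;> linarith
    rw [ha] at hab
    have : (0:𝓞 K) = 1 := by linear_combination hab + 4 * h1
    exact zero_ne_one this
  · intro h
    by_contra hcon
    unfold Ng at hcon
    push Not at hcon
    obtain ⟨σ, hσ⟩ := hcon
    by_cases hz : z = 0
    · have := h 1 1 (by rw [hz]; ring)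
      exact one_ne_zero this
    · have hpos : 0 < evK K σ z := lt_of_le_of_ne hσ (fun h0 => hz ((map_eq_zero_iff _ ((tdK K).inj σ)).mp h0.symm))
      obtain ⟨a, b, hab, hb⟩ := pos_pell K hK z hz σ hpos
      exact hb (h a b hab)

end Pool.Agent.Helper967.RD
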