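import Pool.Agent.Helper967.RD8
set_option autoImplicit false
open MeasureTheory Polynomial IntermediateField NumberField

/-! Definability of the order and the final theorem. -/

namespace Pool.Agent.Helper967.RD

open FirstOrder FirstOrder.Language
open Pool.Agent.Helper967.ArithDef Pool.Agent.Helper967.ModelDef Pool.Agent.Helper967.TR

attribute [local instance] RD.strO

variable (K : IntermediateField ℚ Qtr)

theorem ordDef_of_ne (hK : K ≠ ⊥) : OrdDef (evK K) := by
  refine DM.iff (R := fun _ v => ∀ a b : 𝓞 K, a*a + -((1 + 1 + (1 + 1))*(v 0)*(b*b)) = 1 → b = 0) (fun i v => ?_) ?_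
  · rw [ng_iff K hK]
    have e : ∀ a b : 𝓞 K, a*a + -((1 + 1 + (1 + 1))*(v 0)*(b*b)) = a*a - 4*(v 0)*(b*b) := by
      intro a b; ring
    simp only [e]
  · exact DM.all (DM.all (DM.imp (DM.term (tA (tM (tv 1) (tv 1)) (tN (tM (tM (tA (tA t1 t1) (tA t1 t1)) (tv 2)) (tM (tv 0) (tv 0))))) t1)
      (DM.term (tv 0) t0)))

lemma int_of_bot (x : 𝓞 (⊥ : IntermediateField ℚ Qtr)) : ∃ n : ℤ, x = (n : 𝓞 (⊥ : IntermediateField ℚ Qtr)) := by
  have hx := integral_in_K ⊥ x
  have h1 : ((x : (⊥ : IntermediateField ℚ Qtr)) : Qtr) ∈ (⊥ : IntermediateField ℚ Qtr) := (x : (⊥ : IntermediateField ℚ Qtr)).2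
  rw [IntermediateField.mem_bot] at h1
  obtain ⟨a, ha⟩ := h1
  rw [← ha, isIntegral_algebraMap_iff (algebraMap ℚ Qtr).injective] at hx
  obtain ⟨n, hn⟩ := IsIntegrallyClosed.isIntegral_iff.mp hx
  refine ⟨n, RingOfIntegers.ext (Subtype.ext ?_)⟩
  rw [← ha, ← hn]
  simp

theorem ordDef_bot : OrdDef (evK ⊥) := by
  refine DM.iff (R := fun _ v => ¬ ∃ a b c d : 𝓞 (⊥ : IntermediateField ℚ Qtr), v 0 = (a*a + b*b) + (c*c + d*d)) (fun i v => ?_) ?_
  · obtain ⟨n, hn⟩ := int_of_bot (v 0)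
    rw [hn]
    constructor
    · intro h σ
      rw [map_intCast]
      by_contra hcon
      push Not at hcon
      have hn0 : 0 ≤ n := by exact_mod_cast hcon
      obtain ⟨m, rfl⟩ := Int.eq_ofNat_of_zero_le hn0
      obtain ⟨a, b, c, d, habcd⟩ := Nat.sum_four_squares m
      apply h
      refine ⟨a, b, c, d, ?_⟩
      rw [Int.cast_natCast, ← habcd]
      push_cast
      ring
    · rintro h ⟨a, b, c, d, habcd⟩
      have h1 := h 1
      rw [habcd] at h1
      simp only [map_add, map_mul] at h1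
      nlinarith [mul_self_nonneg (evK ⊥ 1 a), mul_self_nonneg (evK ⊥ 1 b), mul_self_nonneg (evK ⊥ 1 c), mul_self_nonneg (evK ⊥ 1 d)]
  · exact DM.not (DM.ex (DM.ex (DM.ex (DM.ex (DM.term (tv 4)
      (tA (tA (tM (tv 3) (tv 3)) (tM (tv 2) (tv 2))) (tA (tM (tv 1) (tv 1)) (tM (tv 0) (tv 0)))))))))

theorem ordDef : OrdDef (evK K) := by
  by_cases hK : K = ⊥
  · subst hK; exact ordDef_bot
  · exact ordDef_of_ne K hK

/-- The theory of every ring of totally real integers is undecidable. -/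
theorem all_undecidable : ¬ DecidableTheory (𝓞 K) := undecidable (tdK K) (ordDef K) (boxesK K)

end Pool.Agent.Helper967.RD
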