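import Pool.Agent.Helper967.JR6
set_option autoImplicit false
open Polynomial NumberField IntermediateField

namespace Pool.Agent.Helper967.TR
open Pool.Agent.Helper967.JR

lemma exists_D0 (r : ℝ) (hr0 : 0 < r) (hr : r < 1) : ∃ D0 : ℕ, ∀ D : ℕ, D0 < D → (2*(D:ℝ))^4 * r^(2*(D-1)) < 1 := by
  have h1 : Filter.Tendsto (fun n : ℕ => (n:ℝ)^4 * (r^2)^n) Filter.atTop (nhds 0) :=
    tendsto_pow_const_mul_const_pow_of_lt_one 4 (sq_nonneg r) (by nlinarith)
  have h2 : ∀ᶠ n : ℕ in Filter.atTop, (n:ℝ)^4 * (r^2)^n < r^2/16 := h1.eventually_lt_const (by positivity)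
  obtain ⟨K, hK⟩ := Filter.eventually_atTop.mp h2
  refine ⟨K, fun D hD => ?_⟩
  obtain ⟨m, rfl⟩ : ∃ m, D = m+1 := ⟨D-1, by omega⟩
  have h3 := hK (m+1) (by omega)
  rw [Nat.add_sub_cancel, pow_mul]
  rw [pow_succ (r^2) m] at h3
  have h4 : (0:ℝ) < r^2 := by positivity
  have h5 : (((m+1 : ℕ):ℝ)^4 * (r^2)^m) * r^2 < (1/16) * r^2 := by linarith
  have h6 := lt_of_mul_lt_mul_right h5 h4.le
  calc (2*((m+1 : ℕ):ℝ))^4 * (r^2)^m = 16 * (((m+1 : ℕ):ℝ)^4 * (r^2)^m) := by ring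
    _ < 16 * (1/16) := by linarith
    _ = 1 := by norm_num

lemma schur_deg (r : ℝ) (hr0 : 0 < r) (hr : r < 1) : ∃ D0 : ℕ, ∀ z : ℂ, IsIntegral ℤ z →
    (∀ w : ℂ, aeval w (minpoly ℚ z) = 0 → w.im = 0 ∧ 0 ≤ w.re ∧ w.re ≤ 4*r) → (minpoly ℚ z).natDegree ≤ D0 := by
  obtain ⟨D0, hD0⟩ := exists_D0 r hr0 hr
  refine ⟨D0, fun z hz hc => ?_⟩
  by_contra hlt
  push Not at hlt
  set D := (minpoly ℚ z).natDegree with hD
  have hzQ : IsIntegral ℚ z := hz.tower_top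
  have : FiniteDimensional ℚ ℚ⟮z⟯ := adjoin.finiteDimensional hzQ
  have : NumberField ℚ⟮z⟯ := NumberField.of_module_finite ℚ _
  have hgen : algebraMap ℚ⟮z⟯ ℂ (AdjoinSimple.gen ℚ z) = z := AdjoinSimple.algebraMap_gen ℚ z
  have hinj : Function.Injective (algebraMap ℚ⟮z⟯ ℂ) := (algebraMap ℚ⟮z⟯ ℂ).injective
  have hzi : IsIntegral ℤ (AdjoinSimple.gen ℚ z) := by
    rw [← isIntegral_algebraMap_iff hinj, hgen]; exact hz
  have hτ : ∀ τ : ℚ⟮z⟯ →+* ℂ, (τ (AdjoinSimple.gen ℚ z)).im = 0 ∧ 0 ≤ (τ (AdjoinSimple.gen ℚ z)).re ∧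
      (τ (AdjoinSimple.gen ℚ z)).re ≤ 4*r := by
    intro τ
    apply hc
    have h1 := (conj_iff (AdjoinSimple.gen ℚ z) (τ (AdjoinSimple.gen ℚ z))).mpr ⟨τ, rfl⟩
    rw [hgen] at h1
    exact h1
  have hfin : Module.finrank ℚ ℚ⟮z⟯ = D := adjoin.finrank hzQ
  set x : 𝓞 ℚ⟮z⟯ := ⟨AdjoinSimple.gen ℚ z, hzi⟩ with hx
  have hxc : (x : ℚ⟮z⟯) = AdjoinSimple.gen ℚ z := rfl
  have htop : Algebra.adjoin ℚ {(x : ℚ⟮z⟯)} = ⊤ := adjoin_gen_top z hzQ
  have hup := norm_deriv_upper (B := ℚ) x htop (((D.factorial * (2^D * r^(D*(D-1)/2)) : ℝ))^2) (by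
    intro n hn v hv
    rw [hfin] at hn
    subst hn
    have h1 := fekete D v r hr0 (by
      intro i
      obtain ⟨τ, hτi⟩ := hv i
      have h2 := hτ τ
      rw [hxc] at hτi
      rw [hτi] at h2
      simpa using h2.2)
    rw [← sq_abs]
    exact pow_le_pow_left₀ (abs_nonneg _) h1 2) (fun τ => (hτ τ).1)
  rw [Module.finrank_self, pow_one] at hup
  set w := aeval x (derivative (minpoly (𝓞 ℚ) x)) with hw
  have hw0 : w ≠ 0 := by
    intro h0
    have hxint : IsIntegral (𝓞 ℚ) x := Algebra.IsIntegral.isIntegral _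
    have h1 : minpoly ℚ (x : ℚ⟮z⟯) = (minpoly (𝓞 ℚ) x).map (algebraMap (𝓞 ℚ) ℚ) :=
      minpoly.isIntegrallyClosed_eq_field_fractions ℚ ℚ⟮z⟯ hxint
    have h2 : (w : ℚ⟮z⟯) = aeval (x : ℚ⟮z⟯) (derivative (minpoly ℚ (x : ℚ⟮z⟯))) := by
      rw [h1, derivative_map, aeval_map_algebraMap, hw]
      exact (aeval_algebraMap_apply ℚ⟮z⟯ x (derivative (minpoly (𝓞 ℚ) x))).symm
    have h3 := (Algebra.IsSeparable.isSeparable ℚ (x : ℚ⟮z⟯)).aeval_derivative_ne_zero (minpoly.aeval ℚ (x : ℚ⟮z⟯))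
    rw [← h2, h0] at h3
    exact h3 (by simp)
  have h1 : (1:ℝ) ≤ ((Algebra.norm ℤ w).natAbs : ℝ) := by
    have h2 : Algebra.norm ℤ w ≠ 0 := Algebra.norm_ne_zero_iff.mpr hw0
    exact_mod_cast Int.natAbs_pos.mpr h2
  have h2 := h1.trans hup
  have h3 := pow_bound D r hr0
  have h4 := hD0 D hlt
  have h5 : ((2*D : ℝ)^4 * r^(2*(D-1)))^D < 1 := pow_lt_one₀ (by positivity) h4 (by omega)
  nlinarith

lemma multiset_bound (s : Multiset ℂ) : (∀ a ∈ s, max 1 ‖a‖ ≤ (4:ℝ)) →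
    (Multiset.map (fun a => max 1 ‖a‖) s).prod ≤ (4:ℝ)^(Multiset.card s) := by
  induction s using Multiset.induction_on with
  | empty => intro _; simp
  | cons a s ih =>
    intro h
    rw [Multiset.map_cons, Multiset.prod_cons, Multiset.card_cons, pow_succ, mul_comm]
    have h1 := ih (fun b hb => h b (Multiset.mem_cons_of_mem hb))
    have h2 := h a (Multiset.mem_cons_self a s)
    have h3 : (0:ℝ) ≤ max 1 ‖a‖ := le_trans zero_le_one (le_max_left _ _)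
    have h4 : (0:ℝ) ≤ 4^(Multiset.card s) := by positivity
    exact mul_le_mul h1 h2 h3 h4

/-- Schur's theorem: only finitely many algebraic integers have all conjugates in `[0,4r]`, `r<1` -/
lemma schur_finite (r : ℝ) (hr0 : 0 < r) (hr : r < 1) : {z : ℂ | IsIntegral ℤ z ∧
    ∀ w : ℂ, aeval w (minpoly ℚ z) = 0 → w.im = 0 ∧ 0 ≤ w.re ∧ w.re ≤ 4*r}.Finite := by
  obtain ⟨D0, hD0⟩ := schur_deg r hr0 hr
  have hfin := Polynomial.finite_mahlerMeasure_le D0 ((4:NNReal)^D0)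
  apply Set.Finite.subset (Set.Finite.biUnion hfin (t := fun p : ℤ[X] => {z : ℂ | p ≠ 0 ∧ aeval z p = 0}) ?_)
  · rintro z ⟨hz, hc⟩
    have hmin : minpoly ℚ z = (minpoly ℤ z).map (algebraMap ℤ ℚ) := minpoly.isIntegrallyClosed_eq_field_fractions' ℚ hz
    have hmonic : (minpoly ℤ z).Monic := minpoly.monic hz
    have hdeg : (minpoly ℤ z).natDegree ≤ D0 := by
      rw [← hmonic.natDegree_map (algebraMap ℤ ℚ), ← hmin]; exact hD0 z hz hc
    rw [Set.mem_iUnion₂]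
    refine ⟨minpoly ℤ z, ⟨hdeg, ?_⟩, hmonic.ne_zero, minpoly.aeval ℤ z⟩
    rw [mahlerMeasure_eq_leadingCoeff_mul_prod_roots]
    have hl : ((minpoly ℤ z).map (Int.castRingHom ℂ)).leadingCoeff = 1 := (hmonic.map _).leadingCoeff
    rw [hl, norm_one, one_mul]
    have hroots : ∀ a ∈ ((minpoly ℤ z).map (Int.castRingHom ℂ)).roots, max 1 ‖a‖ ≤ (4:ℝ) := by
      intro a ha
      have h1 := (mem_roots'.mp ha).2
      rw [IsRoot.def, eval_map] at h1
      have h2 : aeval a (minpoly ℚ z) = 0 := by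
        rw [hmin, aeval_map_algebraMap]; exact h1
      obtain ⟨h3, h4, h5⟩ := hc a h2
      have h6 : a = (a.re : ℂ) := by apply Complex.ext <;> simp [h3]
      rw [h6, Complex.norm_real, Real.norm_eq_abs, abs_of_nonneg h4]
      apply max_le (by norm_num)
      linarith
    have hcard : Multiset.card ((minpoly ℤ z).map (Int.castRingHom ℂ)).roots ≤ D0 := by
      refine (card_roots' _).trans ?_
      rw [hmonic.natDegree_map]; exact hdeg
    have h7 : (Multiset.map (fun a => max 1 ‖a‖) ((minpoly ℤ z).map (Int.castRingHom ℂ)).roots).prod ≤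
        (4:ℝ)^(Multiset.card ((minpoly ℤ z).map (Int.castRingHom ℂ)).roots) :=
      multiset_bound _ hroots
    refine h7.trans ?_
    push_cast
    exact pow_le_pow_right₀ (by norm_num) hcard
  · intro p _
    by_cases hp : p = 0
    · apply Set.Finite.subset Set.finite_empty
      rintro z ⟨h, _⟩
      exact absurd hp h
    · apply Set.Finite.subset (p.rootSet_finite ℂ)
      rintro z ⟨_, h⟩
      rw [mem_rootSet]; exact ⟨hp, h⟩

end Pool.Agent.Helper967.TR
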