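import Pool.Agent.Helper967.TR1
set_option autoImplicit false
open Polynomial

namespace Pool.Agent.Helper967.TR

/-- rings of totally real integers with definable positivity and infinitely many elements with all
conjugates in `(0,4)` -/
structure JRData {O : Type} [CommRing O] [IsDomain O] {Φ : Type} (φ : Φ → O →+* ℝ) : Prop where
  ne : Nonempty Φ
  int : ∀ x : O, IsIntegral ℤ x
  inj : ∀ i, Function.Injective (φ i)
  conj : ∀ (x : O) (i : Φ) (z : ℂ), aeval z (minpoly ℚ ((φ i x : ℝ) : ℂ)) = 0 → ∃ j, z = ((φ j x : ℝ) : ℂ)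
  pos : ∀ x : O, (∀ i, 0 ≤ φ i x) ↔ ∃ c a b d e : O, c ≠ 0 ∧ c*c*x = a*a+b*b+(d*d+e*e)
  inf : {x : O | ∀ i, 0 < φ i x ∧ φ i x < 4}.Infinite

namespace JRData
variable {O : Type} [CommRing O] [IsDomain O] {Φ : Type} {φ : Φ → O →+* ℝ} (h : JRData φ)
include h

/-- the complex embedding -/
lemma int' (i : Φ) (x : O) : IsIntegral ℤ ((φ i x : ℝ) : ℂ) := by
  have := (h.int x).map (Complex.ofRealHom.comp (φ i)).toIntAlgHom
  exact this

lemma minQ (i : Φ) (x : O) : minpoly ℚ ((φ i x : ℝ) : ℂ) = (minpoly ℤ ((φ i x : ℝ) : ℂ)).map (algebraMap ℤ ℚ) :=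
  minpoly.isIntegrallyClosed_eq_field_fractions' ℚ (h.int' i x)

lemma coeff_ne (i : Φ) (x : O) (hx : x ≠ 0) : (minpoly ℤ ((φ i x : ℝ) : ℂ)).coeff 0 ≠ 0 := by
  intro h0
  have h1 : (minpoly ℚ ((φ i x : ℝ) : ℂ)).coeff 0 = 0 := by
    rw [h.minQ, coeff_map, h0, map_zero]
  rw [minpoly.coeff_zero_eq_zero ((h.int' i x).tower_top)] at h1
  have h2 : φ i x = 0 := by exact_mod_cast h1
  exact hx ((map_eq_zero_iff (φ i) (h.inj i)).mp h2)

lemma root (i : Φ) (x : O) : aeval x (minpoly ℤ ((φ i x : ℝ) : ℂ)) = 0 := by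
  have h1 := minpoly.aeval ℤ ((φ i x : ℝ) : ℂ)
  have h2 : aeval ((φ i x : ℝ) : ℂ) (minpoly ℤ ((φ i x : ℝ) : ℂ)) =
      (Complex.ofRealHom.comp (φ i)) (aeval x (minpoly ℤ ((φ i x : ℝ) : ℂ))) := by
    have := aeval_algHom_apply (Complex.ofRealHom.comp (φ i)).toIntAlgHom x (minpoly ℤ ((φ i x : ℝ) : ℂ))
    exact this
  rw [h2] at h1
  have hinj : Function.Injective (Complex.ofRealHom.comp (φ i)) := by
    intro a b hab
    apply h.inj i
    have : ((φ i a : ℝ) : ℂ) = ((φ i b : ℝ) : ℂ) := hab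
    exact_mod_cast this
  exact (map_eq_zero_iff _ hinj).mp h1

lemma dvd (x : O) (hx : x ≠ 0) : ∃ n : ℕ, 0 < n ∧ x ∣ (n : O) := by
  obtain ⟨i⟩ := h.ne
  set p := minpoly ℤ ((φ i x : ℝ) : ℂ) with hp
  have hc := h.coeff_ne i x hx
  rw [← hp] at hc
  have hr := h.root i x
  rw [← hp] at hr
  refine ⟨(p.coeff 0).natAbs, Int.natAbs_pos.mpr hc, ?_⟩
  have h1 : x ∣ ((p.coeff 0 : ℤ) : O) := by
    rw [← divX_mul_X_add p, map_add, map_mul, aeval_X, aeval_C, eq_intCast] at hr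
    refine ⟨- aeval x p.divX, ?_⟩
    linear_combination hr
  rcases Int.natAbs_eq (p.coeff 0) with h2 | h2
  · rw [h2] at h1; simpa using h1
  · rw [h2] at h1
    rw [Int.cast_neg, dvd_neg] at h1
    simpa using h1

lemma small (κ : O) (hκ : ∀ i, |φ i κ| < 1) : κ = 0 := by
  by_contra hne
  obtain ⟨i⟩ := h.ne
  set z : ℂ := ((φ i κ : ℝ) : ℂ) with hz
  have hmonic : (minpoly ℤ z).Monic := minpoly.monic (h.int' i κ)
  have hc := h.coeff_ne i κ hne
  rw [← hz] at hc
  have hsp : ((minpoly ℤ z).map (Int.castRingHom ℂ)).Splits := IsAlgClosed.splits _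
  have h1 := hsp.coeff_zero_eq_prod_roots_of_monic (hmonic.map _)
  have h2 : ‖((minpoly ℤ z).map (Int.castRingHom ℂ)).coeff 0‖ = (Multiset.map (fun a => ‖a‖) ((minpoly ℤ z).map (Int.castRingHom ℂ)).roots).prod := by
    rw [h1, norm_mul, norm_pow, norm_neg, norm_one, one_pow, one_mul]
    exact (map_multiset_prod (normHom : ℂ →*₀ ℝ) _)
  have hroots : ∀ a ∈ ((minpoly ℤ z).map (Int.castRingHom ℂ)).roots, ‖a‖ < 1 := by
    intro a ha
    have h3 := (mem_roots'.mp ha).2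
    rw [IsRoot.def, eval_map] at h3
    have h4 : aeval a (minpoly ℚ z) = 0 := by
      rw [hz, h.minQ, aeval_map_algebraMap]; exact h3
    obtain ⟨j, hj⟩ := h.conj κ i a h4
    rw [hj, Complex.norm_real, Real.norm_eq_abs]
    exact hκ j
  have hcard : ((minpoly ℤ z).map (Int.castRingHom ℂ)).roots ≠ 0 := by
    intro h0
    have h3 : z ∈ ((minpoly ℤ z).map (Int.castRingHom ℂ)).roots := by
      rw [mem_roots (hmonic.map _).ne_zero, IsRoot.def, eval_map]
      exact minpoly.aeval ℤ z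
    rw [h0] at h3
    simp at h3
  have key : ∀ s : Multiset ℂ, s ≠ 0 → (∀ a ∈ s, ‖a‖ < 1) → (Multiset.map (fun a => ‖a‖) s).prod < 1 := by
    intro s
    induction s using Multiset.induction_on with
    | empty => intro h0; exact absurd rfl h0
    | cons a s ih =>
      intro _ hs
      rw [Multiset.map_cons, Multiset.prod_cons]
      have h1 := hs a (Multiset.mem_cons_self a s)
      by_cases hs0 : s = 0
      · subst hs0; simpa using h1
      · have h2 := ih hs0 (fun b hb => hs b (Multiset.mem_cons_of_mem hb))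
        have h3 : 0 ≤ (Multiset.map (fun a => ‖a‖) s).prod := by
          apply Multiset.prod_nonneg
          intro b hb
          obtain ⟨c, _, rfl⟩ := Multiset.mem_map.mp hb
          exact norm_nonneg c
        nlinarith [norm_nonneg a]
  have h5 := key _ hcard hroots
  rw [← h2, coeff_map, eq_intCast, Complex.norm_intCast] at h5
  have h6 : |(minpoly ℤ z).coeff 0| < 1 := by exact_mod_cast h5
  exact hc (Int.abs_lt_one_iff.mp h6)

lemma finite_vals (x : O) : (Set.range (fun i => φ i x)).Finite := by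
  obtain ⟨i0⟩ := h.ne
  set p := minpoly ℤ ((φ i0 x : ℝ) : ℂ) with hp
  have hmonic : p.Monic := minpoly.monic (h.int' i0 x)
  apply Set.Finite.subset (p.rootSet_finite ℝ)
  rintro _ ⟨i, rfl⟩
  rw [mem_rootSet]
  refine ⟨hmonic.ne_zero, ?_⟩
  have h1 : aeval (φ i x) p = (φ i) (aeval x p) := by
    have := aeval_algHom_apply (φ i).toIntAlgHom x p
    exact this
  simp only
  rw [h1, h.root i0 x, map_zero]

lemma pos_of (x : O) (hx : ∀ i, 0 ≤ φ i x) (hx0 : x ≠ 0) (i : Φ) : 0 < φ i x :=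
  lt_of_le_of_ne (hx i) (fun h0 => hx0 ((map_eq_zero_iff (φ i) (h.inj i)).mp h0.symm))

/-- the finite sets -/
lemma finite_F (p q : O) (hq : ∀ i, 0 < φ i q) (hp : ∀ i, φ i p < 4 * φ i q) :
    {f : O | (∀ i, 0 < φ i f) ∧ ∀ i, φ i q * φ i f ≤ φ i p}.Finite := by
  -- a uniform bound below 4
  have hfin : (Set.range (fun i => φ i p / φ i q)).Finite := by
    apply Set.Finite.subset (Set.Finite.image2 (fun a b : ℝ => a / b) (h.finite_vals p) (h.finite_vals q))
    rintro _ ⟨i, rfl⟩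
    exact Set.mem_image2_of_mem ⟨i, rfl⟩ ⟨i, rfl⟩
  obtain ⟨i0⟩ := h.ne
  obtain ⟨M, hM, hMmax⟩ := Set.exists_max_image _ id hfin ⟨_, ⟨i0, rfl⟩⟩
  have hM4 : M < 4 := by
    obtain ⟨i, rfl⟩ := hM
    simp only
    rw [div_lt_iff₀ (hq i)]; exact hp i
  set r := max (M/4) (1/2) with hr
  have hr0 : 0 < r := lt_of_lt_of_le (by norm_num) (le_max_right _ _)
  have hr1 : r < 1 := max_lt (by linarith) (by norm_num)
  have hS := schur_finite r hr0 hr1
  apply Set.Finite.of_finite_image (f := fun f : O => ((φ i0 f : ℝ) : ℂ))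
  · apply hS.subset
    rintro _ ⟨f, ⟨hf1, hf2⟩, rfl⟩
    refine ⟨h.int' i0 f, ?_⟩
    intro w hw
    obtain ⟨j, rfl⟩ := h.conj f i0 w hw
    refine ⟨Complex.ofReal_im _, ?_, ?_⟩
    · rw [Complex.ofReal_re]; exact (hf1 j).le
    · rw [Complex.ofReal_re]
      have h1 : φ j f ≤ φ j p / φ j q := by
        rw [le_div_iff₀ (hq j)]; linarith [hf2 j]
      have h2 : φ j p / φ j q ≤ M := hMmax _ ⟨j, rfl⟩
      have h3 : M/4 ≤ r := le_max_left _ _
      linarith
  · intro a _ b _ hab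
    apply h.inj i0
    have : ((φ i0 a : ℝ) : ℂ) = ((φ i0 b : ℝ) : ℂ) := hab
    exact_mod_cast this

end JRData

end Pool.Agent.Helper967.TR
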