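import Pool.Agent.Helper967.TR2
set_option autoImplicit false
open Polynomial

namespace Pool.Agent.Helper967.TR

section defs
variable {O : Type} [CommRing O] {Φ : Type} (φ : Φ → O →+* ℝ)

/-- totally nonnegative -/
def Nn (x : O) : Prop := ∀ i, 0 ≤ φ i x

/-- the coded set -/
def InG (p q m u b x : O) : Prop :=
  Nn φ x ∧ Nn φ (b - x) ∧ ∃ f, Nn φ f ∧ f ≠ 0 ∧ Nn φ (p - q*f) ∧ ∃ y, x = u + (1 + m*(f+1))*y

/-- the definition of the naturals -/
def NatDef (n : O) : Prop := ∃ p q m u b : O, Nn φ q ∧ q ≠ 0 ∧ Nn φ (4*q - p) ∧ 4*q - p ≠ 0 ∧ Nn φ (m - b) ∧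
  InG φ p q m u b 0 ∧ ∀ x, InG φ p q m u b x → x ≠ n → InG φ p q m u b (x+1)

end defs

namespace JRData
variable {O : Type} [CommRing O] [IsDomain O] {Φ : Type} {φ : Φ → O →+* ℝ} (h : JRData φ)
include h

lemma natCast_inj {a b : ℕ} (hab : (a : O) = b) : a = b := by
  obtain ⟨i⟩ := h.ne
  have := congrArg (φ i) hab
  simpa using this

/-- uniqueness in a residue class -/
lemma uniq (m b f x x' y : O) (hm : ∀ i, φ i b ≤ φ i m) (hx : Nn φ x) (hxb : Nn φ (b - x)) (hx' : Nn φ x') (hxb' : Nn φ (b - x'))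
    (hf : Nn φ f) (hy : x - x' = (1 + m*(f+1)) * y) : x = x' := by
  have hy0 : y = 0 := by
    apply h.small
    intro i
    have h1 := congrArg (φ i) hy
    simp only [map_sub, map_mul, map_add, map_one] at h1
    have e1 := hx i
    have e2 := hx' i
    have e3 := hxb i
    have e4 := hxb' i
    rw [map_sub] at e3 e4
    have e5 := hm i
    have e6 := hf i
    have hA : 1 + φ i m * (φ i f + 1) ≥ 1 + φ i m := by nlinarith
    have hApos : 0 < 1 + φ i m * (φ i f + 1) := by linarith
    rw [abs_lt]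
    constructor
    · by_contra hcon
      push Not at hcon
      have : (1 + φ i m * (φ i f + 1)) * φ i y ≤ (1 + φ i m * (φ i f + 1)) * (-1) :=
        mul_le_mul_of_nonneg_left hcon hApos.le
      linarith
    · by_contra hcon
      push Not at hcon
      have : (1 + φ i m * (φ i f + 1)) * 1 ≤ (1 + φ i m * (φ i f + 1)) * φ i y :=
        mul_le_mul_of_nonneg_left hcon hApos.le
      linarith
  rw [hy0, mul_zero, sub_eq_zero] at hy
  exact hy

lemma finite_G (p q m u b : O) (hq : Nn φ q) (hq0 : q ≠ 0) (hp : Nn φ (4*q - p)) (hp0 : 4*q - p ≠ 0) (hm : Nn φ (m - b)) :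
    {x | InG φ p q m u b x}.Finite := by
  have hq' := h.pos_of q hq hq0
  have hp' : ∀ i, φ i p < 4 * φ i q := by
    intro i
    have := h.pos_of (4*q - p) hp hp0 i
    rw [map_sub, map_mul, map_ofNat] at this
    linarith
  have hF := h.finite_F p q hq' hp'
  apply Set.Finite.subset (Set.Finite.biUnion hF (t := fun f => {x : O | Nn φ x ∧ Nn φ (b - x) ∧ ∃ y, x = u + (1 + m*(f+1))*y}) ?_)
  · rintro x ⟨hx, hxb, f, hf, hf0, hpf, y, hy⟩
    rw [Set.mem_iUnion₂]
    refine ⟨f, ⟨h.pos_of f hf hf0, ?_⟩, hx, hxb, y, hy⟩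
    intro i
    have := hpf i
    rw [map_sub, map_mul] at this
    linarith
  · rintro f ⟨hf, _⟩
    apply Set.Subsingleton.finite
    rintro x ⟨hx, hxb, y, hy⟩ x' ⟨hx', hxb', y', hy'⟩
    apply h.uniq m b f x x' (y - y') (fun i => by have := hm i; rw [map_sub] at this; linarith) hx hxb hx' hxb' (fun i => (hf i).le)
    rw [hy, hy']; ring

omit [IsDomain O] h in
lemma isCoprime_aux (m f f' : O) (hd : f - f' ∣ m) : IsCoprime (1 + m*(f+1)) (1 + m*(f'+1)) := by
  obtain ⟨e, he⟩ := hd
  have h1 : IsCoprime (1 + m*(f+1)) m := ⟨1, -(f+1), by ring⟩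
  have h2 : IsCoprime (1 + m*(f+1)) (m*m) := h1.mul_right h1
  have h3 : m*m = e * ((1 + m*(f+1)) - (1 + m*(f'+1))) := by
    have : (1 + m*(f+1)) - (1 + m*(f'+1)) = m * (f - f') := by ring
    rw [this]
    conv_lhs => rw [he]
    conv_rhs => rw [he]
    ring
  rw [h3] at h2
  have h4 := h2.of_mul_right_right
  obtain ⟨s, t, hst⟩ := h4
  exact ⟨s + t, -t, by linear_combination hst⟩

theorem natDef_iff (n : O) : NatDef φ n ↔ ∃ k : ℕ, n = k := by
  constructor
  · rintro ⟨p, q, m, u, b, hq, hq0, hp, hp0, hm, hG0, hG⟩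
    by_contra hn
    push Not at hn
    have hall : ∀ k : ℕ, InG φ p q m u b (k : O) := by
      intro k
      induction k with
      | zero => simpa using hG0
      | succ k ih =>
        have := hG _ ih (hn k).symm
        simpa using this
    have hfin := h.finite_G p q m u b hq hq0 hp hp0 hm
    have hinf : (Set.range (fun k : ℕ => (k : O))).Infinite :=
      Set.infinite_range_of_injective (fun a b hab => h.natCast_inj hab)
    apply hinf
    apply hfin.subset
    rintro _ ⟨k, rfl⟩
    exact hall k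
  · rintro ⟨k, rfl⟩
    classical
    obtain ⟨T, hT, hTc⟩ := h.inf.exists_subset_card_eq (k+1)
    -- a common bound
    have hbound : ∃ j : ℕ, 0 < j ∧ ∀ x ∈ T, ∀ i, φ i x * j ≤ 4*j - 1 := by
      have hone : ∀ x ∈ T, ∃ j : ℕ, 0 < j ∧ ∀ j' : ℕ, j ≤ j' → ∀ i, φ i x * j' ≤ 4*j' - 1 := by
        intro x hx
        have hx4 := hT hx
        obtain ⟨i0⟩ := h.ne
        obtain ⟨M, hM, hMmax⟩ := Set.exists_max_image _ id (h.finite_vals x) ⟨_, ⟨i0, rfl⟩⟩
        have hM4 : M < 4 := by
          obtain ⟨i, rfl⟩ := hM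
          exact (hx4 i).2
        obtain ⟨j, hj⟩ := exists_nat_gt (1/(4-M))
        have hj0 : 0 < j := by
          have : (0:ℝ) < j := lt_trans (by apply one_div_pos.mpr; linarith) hj
          exact_mod_cast this
        refine ⟨j, hj0, ?_⟩
        intro j' hj' i
        have h1 : φ i x ≤ M := hMmax _ ⟨i, rfl⟩
        have h2 : (j:ℝ) ≤ j' := by exact_mod_cast hj'
        rw [div_lt_iff₀ (by linarith)] at hj
        have h3 : (0:ℝ) < j' := by
          have : 0 < j' := by omega
          exact_mod_cast this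
        nlinarith
      choose! J hJ0 hJ using hone
      refine ⟨1 + ∑ x ∈ T, J x, by omega, ?_⟩
      intro x hx i
      apply hJ x hx
      have := Finset.single_le_sum (f := J) (fun _ _ => Nat.zero_le _) hx
      omega
    obtain ⟨j, hj0, hj⟩ := hbound
    have hj0R : (0:ℝ) < j := by exact_mod_cast hj0
    set q : O := (j : O) with hqdef
    set p : O := 4 * (j : O) - 1 with hpdef
    have hφq : ∀ i, φ i q = j := fun i => by rw [hqdef, map_natCast]
    have hφp : ∀ i, φ i p = 4*j - 1 := fun i => by rw [hpdef, map_sub, map_mul, map_natCast, map_ofNat, map_one]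
    have hF := h.finite_F p q (fun i => by rw [hφq]; exact hj0R) (fun i => by rw [hφq, hφp]; linarith)
    set F := {f : O | (∀ i, 0 < φ i f) ∧ ∀ i, φ i q * φ i f ≤ φ i p} with hFdef
    have hTF : ∀ x ∈ T, x ∈ F := by
      intro x hx
      refine ⟨fun i => (hT hx i).1, fun i => ?_⟩
      rw [hφq, hφp]
      have := hj x hx i
      linarith
    have := hF.fintype
    have hFf : Finite F := hF
    -- the value function
    have hval : ∃ val : F → ℕ, (∀ f, val f ≤ k) ∧ ∀ l ≤ k, ∃ f, val f = l := by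
      have e : T ≃ Fin (k+1) := T.equivFinOfCardEq hTc
      refine ⟨fun f => if hf : (f:O) ∈ T then ((e ⟨f, hf⟩ : Fin (k+1)) : ℕ) else 0, ?_, ?_⟩
      · intro f
        dsimp only
        split_ifs with hf
        · omega
        · omega
      · intro l hl
        obtain ⟨x, hx⟩ := e.surjective ⟨l, by omega⟩
        refine ⟨⟨x, hTF x x.2⟩, ?_⟩
        dsimp only
        rw [dif_pos x.2]
        simp [hx]
    obtain ⟨val, hval1, hval2⟩ := hval
    -- the modulus
    have hN : ∀ x : O, ∃ N : ℕ, 0 < N ∧ (x ≠ 0 → x ∣ (N : O)) := by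
      intro x
      by_cases hx : x = 0
      · exact ⟨1, one_pos, fun h0 => absurd hx h0⟩
      · obtain ⟨N, h1, h2⟩ := h.dvd x hx
        exact ⟨N, h1, fun _ => h2⟩
    choose N hN0 hNd using hN
    set mn : ℕ := (k+1) * ∏ x : F × F, N ((x.1 : O) - x.2) with hmn
    have hprod : 0 < ∏ x : F × F, N ((x.1 : O) - x.2) := Finset.prod_pos (fun _ _ => hN0 _)
    have hmnk : k ≤ mn := by
      rw [hmn]; nlinarith
    have hdvd : ∀ f f' : F, f ≠ f' → ((f:O) - f') ∣ (mn : O) := by
      intro f f' hff
      have h1 : ((f:O) - f') ≠ 0 := by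
        intro h0; exact hff (Subtype.ext (sub_eq_zero.mp h0))
      refine (hNd _ h1).trans ?_
      have h2 : N ((f:O) - f') ∣ mn := by
        rw [hmn]
        apply Dvd.dvd.mul_left
        exact Finset.dvd_prod_of_mem (fun x : F × F => N ((x.1 : O) - x.2)) (Finset.mem_univ (f, f'))
      exact_mod_cast (Nat.cast_dvd_cast h2 : ((N ((f:O) - f') : ℕ) : O) ∣ (mn : O))
    set m : O := (mn : O) with hmdef
    have hcop : Pairwise (Function.onFun IsCoprime (fun f : F => Ideal.span {(1 + m*((f:O)+1))})) := by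
      intro f f' hff
      rw [Function.onFun, Ideal.isCoprime_span_singleton_iff]
      exact isCoprime_aux m f f' (hdvd f f' hff)
    obtain ⟨u, hu⟩ := Ideal.exists_forall_sub_mem_ideal hcop (fun f : F => ((val f : ℕ) : O))
    have hu' : ∀ f : F, ∃ y, ((val f : ℕ) : O) = u + (1 + m*((f:O)+1)) * y := by
      intro f
      obtain ⟨y, hy⟩ := Ideal.mem_span_singleton'.mp (hu f)
      exact ⟨-y, by linear_combination hy⟩
    have hmem : ∀ l ≤ k, InG φ p q m u ((k : ℕ) : O) ((l : ℕ) : O) := by
      intro l hl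
      obtain ⟨f, hf⟩ := hval2 l hl
      obtain ⟨y, hy⟩ := hu' f
      rw [hf] at hy
      refine ⟨fun i => by rw [map_natCast]; positivity, fun i => ?_, f, fun i => (f.2.1 i).le, ?_, ?_, y, hy⟩
      · rw [map_sub, map_natCast, map_natCast]
        have : (l:ℝ) ≤ k := by exact_mod_cast hl
        linarith
      · intro h0
        obtain ⟨i⟩ := h.ne
        have := f.2.1 i
        rw [h0, map_zero] at this
        exact lt_irrefl _ this
      · intro i
        have := f.2.2 i
        rw [map_sub, map_mul]; linarith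
    have hmem' : ∀ x, InG φ p q m u ((k : ℕ) : O) x → ∃ l ≤ k, x = ((l:ℕ) : O) := by
      rintro x ⟨hx, hxb, f, hf, hf0, hpf, y, hy⟩
      have hfF : f ∈ F := by
        refine ⟨h.pos_of f hf hf0, fun i => ?_⟩
        have := hpf i
        rw [map_sub, map_mul] at this
        linarith
      obtain ⟨y', hy'⟩ := hu' ⟨f, hfF⟩
      refine ⟨val ⟨f, hfF⟩, hval1 _, ?_⟩
      apply h.uniq m ((k:ℕ):O) f x _ (y - y') ?_ hx hxb ?_ ?_ hf
      · rw [hy]
        linear_combination -hy'
      · intro i
        rw [hmdef, map_natCast, map_natCast]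
        exact_mod_cast hmnk
      · intro i
        rw [map_natCast]; positivity
      · intro i
        rw [map_sub, map_natCast, map_natCast]
        have : ((val ⟨f, hfF⟩ : ℕ) : ℝ) ≤ k := by exact_mod_cast hval1 ⟨f, hfF⟩
        linarith
    refine ⟨p, q, m, u, ((k:ℕ):O), ?_, ?_, ?_, ?_, ?_, ?_, ?_⟩
    · intro i; rw [hφq]; exact hj0R.le
    · intro h0
      obtain ⟨i⟩ := h.ne
      have := hφq i
      rw [h0, map_zero] at this
      linarith
    · intro i
      rw [map_sub, map_mul, map_ofNat, hφq, hφp]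
      linarith
    · rw [hpdef]
      intro h0
      have h1 : (4 * (j:O) - (4 * (j:O) - 1)) = 1 := by ring
      rw [hqdef, h1] at h0
      exact one_ne_zero h0
    · intro i
      rw [hmdef, map_sub, map_natCast, map_natCast]
      have : (k:ℝ) ≤ mn := by exact_mod_cast hmnk
      linarith
    · have := hmem 0 (Nat.zero_le _)
      simpa using this
    · intro x hx hxk
      obtain ⟨l, hl, rfl⟩ := hmem' x hx
      have hlk : l < k := by
        rcases Nat.lt_or_ge l k with h1 | h1
        · exact h1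
        · exfalso; apply hxk
          have : l = k := by omega
          rw [this]
      have := hmem (l+1) (by omega)
      simpa using this

end JRData

end Pool.Agent.Helper967.TR
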