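import Pool.Agent.Helper967.TR4
set_option autoImplicit false
open Polynomial IntermediateField

namespace Pool.Agent.Helper967.TR

instance algIsAlg : Algebra.IsAlgebraic ℚ (AlgebraicClosure ℚ) := AlgebraicClosure.isAlgebraic ℚ

/-- the real embedding of `ℚ^tr` given by an embedding of the algebraic closure -/
noncomputable def ev (φ : AlgebraicClosure ℚ →+* ℂ) : Qtr →+* ℝ where
  toFun x := (φ x).re
  map_one' := by simp
  map_mul' := by
    intro a b
    have ha := a.2 φ
    have hb := b.2 φ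
    show (φ ((a * b : Qtr) : AlgebraicClosure ℚ)).re = _
    rw [show ((a * b : Qtr) : AlgebraicClosure ℚ) = (a : AlgebraicClosure ℚ) * b from rfl, map_mul, Complex.mul_re, ha, hb]
    ring
  map_zero' := by simp
  map_add' := by
    intro a b
    show (φ ((a + b : Qtr) : AlgebraicClosure ℚ)).re = _
    rw [show ((a + b : Qtr) : AlgebraicClosure ℚ) = (a : AlgebraicClosure ℚ) + b from rfl, map_add, Complex.add_re]

lemma ev_eq (φ : AlgebraicClosure ℚ →+* ℂ) (x : Qtr) : ((ev φ x : ℝ) : ℂ) = φ x := by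
  apply Complex.ext
  · rfl
  · rw [Complex.ofReal_im]; exact (x.2 φ).symm

/-- square roots of totally nonnegative elements -/
lemma exists_sqrt (x : Qtr) (hx : ∀ φ, 0 ≤ ev φ x) : ∃ y : Qtr, y * y = x := by
  obtain ⟨y, hy⟩ := IsAlgClosed.exists_pow_nat_eq (x : AlgebraicClosure ℚ) (n := 2) (by norm_num)
  have hyr : y ∈ Qtr := by
    intro φ
    have h1 : (φ y)^2 = ((ev φ x : ℝ) : ℂ) := by rw [ev_eq, ← map_pow, hy]
    have h2 := hx φ
    have hre := congrArg Complex.re h1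
    have him := congrArg Complex.im h1
    rw [pow_two, Complex.mul_re, Complex.ofReal_re] at hre
    rw [pow_two, Complex.mul_im, Complex.ofReal_im] at him
    by_contra hne
    have h3 : (φ y).re = 0 := by
      have : (φ y).re * (φ y).im = 0 := by linarith
      exact (mul_eq_zero.mp this).resolve_right hne
    rw [h3] at hre
    have : 0 < (φ y).im * (φ y).im := mul_self_pos.mpr hne
    linarith
  refine ⟨⟨y, hyr⟩, ?_⟩
  apply Subtype.ext
  show y * y = x
  rw [← pow_two, hy]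

instance normalAlg : Normal ℚ (AlgebraicClosure ℚ) where
  splits' _ := IsAlgClosed.splits _

lemma normalQtr' : @Normal ℚ Qtr _ _ Qtr.algebra' := by
  rw [IntermediateField.normal_iff_forall_map_le]
  rintro σ _ ⟨x, hx, rfl⟩ φ
  exact hx (φ.comp (σ : AlgebraicClosure ℚ →+* AlgebraicClosure ℚ))

instance normalQtr : Normal ℚ Qtr := normalQtr'

instance : IsGalois ℚ Qtr := ⟨⟩

/-- a primitive `n`-th root of unity -/
lemma exists_zeta (n : ℕ) (hn : n ≠ 0) : ∃ ζ : AlgebraicClosure ℚ, IsPrimitiveRoot ζ n := by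
  have hn' : NeZero (n : AlgebraicClosure ℚ) := ⟨by exact_mod_cast hn⟩
  obtain ⟨ζ, hζ⟩ := IsAlgClosed.exists_root (cyclotomic n (AlgebraicClosure ℚ)) (by
    rw [degree_cyclotomic]
    exact_mod_cast (Nat.totient_pos.mpr (Nat.pos_of_ne_zero hn)).ne')
  exact ⟨ζ, isRoot_cyclotomic_iff.mp hζ⟩

/-- a primitive `n`-th root of unity in the algebraic closure -/
noncomputable def zeta (n : ℕ) : AlgebraicClosure ℚ := if hn : n ≠ 0 then (exists_zeta n hn).choose else 1

lemma zeta_spec (n : ℕ) (hn : n ≠ 0) : IsPrimitiveRoot (zeta n) n := by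
  unfold zeta
  rw [dif_pos hn]
  exact (exists_zeta n hn).choose_spec

lemma zeta_pow (n : ℕ) (hn : n ≠ 0) : zeta n ^ n = 1 := (zeta_spec n hn).pow_eq_one

lemma phi_zeta (φ : AlgebraicClosure ℚ →+* ℂ) (ζ : AlgebraicClosure ℚ) (n : ℕ) (hn : n ≠ 0) (hζ : ζ ^ n = 1) :
    (φ ζ)⁻¹ = starRingEnd ℂ (φ ζ) ∧ (φ ζ).re^2 + (φ ζ).im^2 = 1 := by
  have h1 : (φ ζ)^n = 1 := by rw [← map_pow, hζ, map_one]
  have h2 : ‖φ ζ‖ = 1 := Complex.norm_eq_one_of_pow_eq_one h1 hn
  have h3 : Complex.normSq (φ ζ) = 1 := by rw [Complex.normSq_eq_norm_sq, h2]; norm_num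
  constructor
  · rw [Complex.inv_def, h3]; simp
  · rw [Complex.normSq_apply] at h3; nlinarith

lemma mem_Qtr_zeta (n : ℕ) (hn : n ≠ 0) : 2 + zeta n + (zeta n)⁻¹ ∈ Qtr := by
  intro φ
  have h1 := (phi_zeta φ (zeta n) n hn (zeta_pow n hn)).1
  rw [map_add, map_add, map_inv₀, h1, map_ofNat]
  simp

/-- the elements `2 + ζ_n + ζ_n⁻¹` -/
noncomputable def xp (n : ℕ) : Qtr := if hn : n ≠ 0 then ⟨2 + zeta n + (zeta n)⁻¹, mem_Qtr_zeta n hn⟩ else 0

lemma xp_coe (n : ℕ) (hn : n ≠ 0) : ((xp n : Qtr) : AlgebraicClosure ℚ) = 2 + zeta n + (zeta n)⁻¹ := by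
  unfold xp; rw [dif_pos hn]

lemma xp_ev (n : ℕ) (hn : n ≠ 0) (φ : AlgebraicClosure ℚ →+* ℂ) : ev φ (xp n) = 2 + 2 * (φ (zeta n)).re := by
  have h1 := (phi_zeta φ (zeta n) n hn (zeta_pow n hn)).1
  have h2 : ((ev φ (xp n) : ℝ) : ℂ) = ((2 + 2 * (φ (zeta n)).re : ℝ) : ℂ) := by
    rw [ev_eq, xp_coe n hn, map_add, map_add, map_inv₀, h1, map_ofNat]
    apply Complex.ext
    · simp; ring
    · simp
  exact_mod_cast h2

lemma xp_bounds (n : ℕ) (hn : n.Prime) (hn2 : n ≠ 2) (φ : AlgebraicClosure ℚ →+* ℂ) : 0 < ev φ (xp n) ∧ ev φ (xp n) < 4 := by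
  have hn0 := hn.ne_zero
  rw [xp_ev n hn0]
  have h1 := (phi_zeta φ (zeta n) n hn0 (zeta_pow n hn0)).2
  have hne1 : (φ (zeta n)).re ≠ 1 := by
    intro h
    have him : (φ (zeta n)).im = 0 := by rw [h] at h1; nlinarith
    have : φ (zeta n) = φ 1 := by rw [map_one]; apply Complex.ext <;> simp [h, him]
    have h2 := φ.injective this
    have h3 := (zeta_spec n hn0).ne_one hn.one_lt
    exact h3 h2
  have hnem1 : (φ (zeta n)).re ≠ -1 := by
    intro h
    have him : (φ (zeta n)).im = 0 := by rw [h] at h1; nlinarith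
    have : φ (zeta n) = φ (-1) := by rw [map_neg, map_one]; apply Complex.ext <;> simp [h, him]
    have h2 := φ.injective this
    have h3 := zeta_pow n hn0
    rw [h2, (hn.odd_of_ne_two hn2).neg_one_pow] at h3
    norm_num at h3
  have hle : (φ (zeta n)).re ≤ 1 := by nlinarith [sq_nonneg (φ (zeta n)).im]
  have hge : -1 ≤ (φ (zeta n)).re := by nlinarith [sq_nonneg (φ (zeta n)).im]
  have hlt : (φ (zeta n)).re < 1 := lt_of_le_of_ne hle hne1
  have hgt : -1 < (φ (zeta n)).re := lt_of_le_of_ne hge (Ne.symm hnem1)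
  constructor <;> linarith

lemma xp_integral (n : ℕ) (hn : n ≠ 0) : IsIntegral ℤ (xp n) := by
  have h1 : IsIntegral ℤ (zeta n) := (zeta_spec n hn).isIntegral (Nat.pos_of_ne_zero hn)
  have h2 : IsIntegral ℤ (zeta n)⁻¹ := (zeta_spec n hn).inv.isIntegral (Nat.pos_of_ne_zero hn)
  have h3 : IsIntegral ℤ (algebraMap Qtr (AlgebraicClosure ℚ) (xp n)) := by
    show IsIntegral ℤ ((xp n : Qtr) : AlgebraicClosure ℚ)
    rw [xp_coe n hn]
    exact ((isIntegral_algebraMap (x := (2:ℤ)) (A := AlgebraicClosure ℚ)).add h1).add h2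
  rwa [isIntegral_algebraMap_iff (algebraMap Qtr (AlgebraicClosure ℚ)).injective] at h3

lemma xp_inj (p q : ℕ) (hp : p ≠ 0) (hq : q ≠ 0) (h : xp p = xp q) : p = q := by
  have h1 : 2 + zeta p + (zeta p)⁻¹ = 2 + zeta q + (zeta q)⁻¹ := by
    rw [← xp_coe p hp, ← xp_coe q hq, h]
  have hp0 : zeta p ≠ 0 := (zeta_spec p hp).ne_zero hp
  have hq0 : zeta q ≠ 0 := (zeta_spec q hq).ne_zero hq
  have h2 : (zeta p - zeta q) * (zeta p * zeta q - 1) = 0 := by
    field_simp at h1
    linear_combination h1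
  rcases mul_eq_zero.mp h2 with h3 | h3
  · rw [sub_eq_zero] at h3
    have := zeta_spec p hp
    rw [h3] at this
    exact this.unique (zeta_spec q hq)
  · rw [sub_eq_zero] at h3
    have h4 : zeta p = (zeta q)⁻¹ := eq_inv_of_mul_eq_one_left h3
    have := zeta_spec p hp
    rw [h4] at this
    exact this.unique (zeta_spec q hq).inv

/-- square roots of primes -/
lemma exists_sqrt_nat (n : ℕ) : ∃ w : Qtr, w * w = (n : Qtr) :=
  exists_sqrt _ (fun φ => by rw [map_natCast]; positivity)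

/-- `√n` -/
noncomputable def sq (n : ℕ) : Qtr := (exists_sqrt_nat n).choose

lemma sq_mul (n : ℕ) : sq n * sq n = (n : Qtr) := (exists_sqrt_nat n).choose_spec

/-- the embeddings of the fixed ring -/
noncomputable def evf (σ : Gal(Qtr/ℚ)) (φ : AlgebraicClosure ℚ →+* ℂ) : fixedRing σ →+* ℝ := (ev φ).comp (fixedRing σ).subtype

lemma evf_apply (σ : Gal(Qtr/ℚ)) (φ : AlgebraicClosure ℚ →+* ℂ) (x : fixedRing σ) : evf σ φ x = ev φ (x : Qtr) := rfl

/-- the fixed ring satisfies the hypotheses of J. Robinson's theorem -/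
theorem jrdata (σ : Gal(Qtr/ℚ)) (hinf : {p : ℕ | p.Prime ∧ σ (xp p) = xp p}.Infinite) (r : ℕ) (hr : r ≠ 0)
    (hsr : σ (sq r) ≠ sq r) : JRData (evf σ) where
  ne := ⟨(IsAlgClosed.lift (R := ℚ) (S := AlgebraicClosure ℚ) (M := ℂ) : AlgebraicClosure ℚ →ₐ[ℚ] ℂ).toRingHom⟩
  int := by
    rintro ⟨x, hx, hx'⟩
    rw [← isIntegral_algebraMap_iff (A := fixedRing σ) (B := Qtr) (R := ℤ) (x := ⟨x, hx, hx'⟩) Subtype.val_injective]
    exact hx
  inj := by
    intro i a b hab
    rw [evf_apply, evf_apply] at hab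
    exact Subtype.ext ((ev i).injective hab)
  conj := by
    intro x i z hz
    rw [evf_apply, ev_eq] at hz
    have h1 : minpoly ℚ (i ((x : Qtr) : AlgebraicClosure ℚ)) = minpoly ℚ ((x : Qtr) : AlgebraicClosure ℚ) :=
      minpoly.algHom_eq (i.toRatAlgHom) i.injective _
    rw [h1] at hz
    have h2 := Algebra.IsAlgebraic.range_eval_eq_rootSet_minpoly (F := ℚ) (K := AlgebraicClosure ℚ) ℂ ((x : Qtr) : AlgebraicClosure ℚ)
    have h3 : z ∈ (minpoly ℚ ((x : Qtr) : AlgebraicClosure ℚ)).rootSet ℂ := by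
      rw [mem_rootSet]
      exact ⟨minpoly.ne_zero (Algebra.IsIntegral.isIntegral _), hz⟩
    rw [← h2] at h3
    obtain ⟨ψ, hψ⟩ := h3
    refine ⟨ψ.toRingHom, ?_⟩
    rw [evf_apply, ev_eq]
    exact hψ.symm
  pos := by
    intro x
    constructor
    · intro hx
      obtain ⟨y, hy⟩ := exists_sqrt (x : Qtr) hx
      have hyi : IsIntegral ℤ y := by
        apply IsIntegral.of_pow (n := 2) (by norm_num)
        rw [pow_two, hy]; exact x.2.1
      have hσy : σ y = y ∨ σ y = -y := by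
        have h1 : σ y * σ y = y * y := by rw [← map_mul, hy]; exact x.2.2
        exact mul_self_eq_mul_self_iff.mp h1
      rcases hσy with hσy | hσy
      · refine ⟨1, ⟨y, hyi, hσy⟩, 0, 0, 0, one_ne_zero, ?_⟩
        apply Subtype.ext
        show 1 * 1 * (x : Qtr) = y * y + 0 * 0 + (0 * 0 + 0 * 0)
        rw [hy]; ring
      · have hsi : IsIntegral ℤ (sq r) := by
          apply IsIntegral.of_pow (n := 2) (by norm_num)
          rw [pow_two, sq_mul]
          exact isIntegral_algebraMap (x := (r:ℤ)) (A := Qtr) |> fun h => by simpa using h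
        have hσs : σ (sq r) = - sq r := by
          have h1 : σ (sq r) * σ (sq r) = sq r * sq r := by rw [← map_mul, sq_mul, map_natCast]
          exact (mul_self_eq_mul_self_iff.mp h1).resolve_left hsr
        have hσys : σ (y * sq r) = y * sq r := by rw [map_mul, hσy, hσs]; ring
        obtain ⟨a, b, c, d, habcd⟩ := Nat.sum_four_squares r
        have hmem : ∀ k : ℕ, (k : Qtr) * (y * sq r) ∈ fixedRing σ := by
          intro k
          refine ⟨?_, ?_⟩
          · exact (isIntegral_algebraMap (x := (k:ℤ)) (A := Qtr) |> fun h => by simpa using h : IsIntegral ℤ (k : Qtr)).mul (hyi.mul hsi)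
          · rw [map_mul, map_natCast, hσys]
        refine ⟨(r : fixedRing σ), ⟨_, hmem a⟩, ⟨_, hmem b⟩, ⟨_, hmem c⟩, ⟨_, hmem d⟩, by exact_mod_cast hr, ?_⟩
        apply Subtype.ext
        show ((r : fixedRing σ) : Qtr) * ((r : fixedRing σ) : Qtr) * (x : Qtr) = ((a : Qtr) * (y * sq r)) * ((a : Qtr) * (y * sq r)) +
          ((b : Qtr) * (y * sq r)) * ((b : Qtr) * (y * sq r)) + (((c : Qtr) * (y * sq r)) * ((c : Qtr) * (y * sq r)) +
          ((d : Qtr) * (y * sq r)) * ((d : Qtr) * (y * sq r)))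
        have h1 : ((r : fixedRing σ) : Qtr) = (r : Qtr) := by simp
        have h2 : (r : Qtr) = (a:Qtr)^2 + b^2 + c^2 + d^2 := by exact_mod_cast habcd.symm
        have h3 := sq_mul r
        rw [h1, ← hy]
        have h4 : ((a : Qtr) * (y * sq r)) * ((a : Qtr) * (y * sq r)) +
          ((b : Qtr) * (y * sq r)) * ((b : Qtr) * (y * sq r)) + (((c : Qtr) * (y * sq r)) * ((c : Qtr) * (y * sq r)) +
          ((d : Qtr) * (y * sq r)) * ((d : Qtr) * (y * sq r))) = ((a:Qtr)^2 + b^2 + c^2 + d^2) * (y * y) * (sq r * sq r) := by ring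
        rw [h4, h3, ← h2]; ring
    · rintro ⟨c, a, b, d, e, hc, h⟩ i
      have h1 := congrArg (evf σ i) h
      simp only [map_mul, map_add] at h1
      have h2 : evf σ i c ≠ 0 := by
        intro h0
        apply hc
        rw [evf_apply] at h0
        exact Subtype.ext ((map_eq_zero (ev i)).mp h0)
      have h3 : 0 < evf σ i c * evf σ i c := mul_self_pos.mpr h2
      by_contra hneg
      push Not at hneg
      have h4 : evf σ i c * evf σ i c * evf σ i x < 0 := mul_neg_of_pos_of_neg h3 hneg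
      rw [h1] at h4
      nlinarith [mul_self_nonneg (evf σ i a), mul_self_nonneg (evf σ i b), mul_self_nonneg (evf σ i d), mul_self_nonneg (evf σ i e)]
  inf := by
    have h1 : ({p : ℕ | p.Prime ∧ σ (xp p) = xp p} \ {2}).Infinite := hinf.sdiff (Set.finite_singleton 2)
    have hmem : ∀ p ∈ ({p : ℕ | p.Prime ∧ σ (xp p) = xp p} \ {2}), xp p ∈ fixedRing σ := by
      rintro p ⟨⟨hp, hσ⟩, _⟩
      exact ⟨xp_integral p hp.ne_zero, hσ⟩
    have h2 : (Set.range (fun p : ({p : ℕ | p.Prime ∧ σ (xp p) = xp p} \ {2} : Set ℕ) =>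
        (⟨xp p, hmem p p.2⟩ : fixedRing σ))).Infinite := by
      have := h1.to_subtype
      apply Set.infinite_range_of_injective
      intro p q hpq
      apply Subtype.ext
      apply xp_inj _ _ p.2.1.1.ne_zero q.2.1.1.ne_zero
      exact congrArg (fun z : fixedRing σ => (z : Qtr)) hpq
    apply h2.mono
    rintro _ ⟨p, rfl⟩ i
    exact xp_bounds p p.2.1.1 (fun h => p.2.2 h) i

end Pool.Agent.Helper967.TR
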