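import Pool.Agent.Helper967.TR5
set_option autoImplicit false
open Polynomial IntermediateField

namespace Pool.Agent.Helper967.TR

lemma finrank_zeta (n : ℕ) (hn : n ≠ 0) (ζ : AlgebraicClosure ℚ) (hζ : IsPrimitiveRoot ζ n) :
    Module.finrank ℚ ℚ⟮ζ⟯ = n.totient := by
  have hint : IsIntegral ℚ ζ := Algebra.IsIntegral.isIntegral _
  rw [adjoin.finrank hint]
  have h1 := cyclotomic_eq_minpoly_rat hζ (Nat.pos_of_ne_zero hn)
  rw [← h1, natDegree_cyclotomic]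

lemma zeta_mem (p N : ℕ) (hN : N ≠ 0) (hpN : p ∣ N) : zeta p ∈ ℚ⟮zeta N⟯ := by
  have hp : p ≠ 0 := by rintro rfl; exact hN (Nat.eq_zero_of_zero_dvd hpN)
  have h1 : (zeta p)^N = 1 := by
    obtain ⟨m, rfl⟩ := hpN
    rw [pow_mul, zeta_pow p hp, one_pow]
  have : NeZero N := ⟨hN⟩
  obtain ⟨i, _, hi⟩ := (zeta_spec N hN).eq_pow_of_pow_eq_one h1
  rw [← hi]
  exact pow_mem (mem_adjoin_simple_self ℚ (zeta N)) i

lemma xp_mem (p N : ℕ) (hN : N ≠ 0) (hpN : p ∣ N) : ((xp p : Qtr) : AlgebraicClosure ℚ) ∈ ℚ⟮zeta N⟯ := by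
  have hp : p ≠ 0 := by rintro rfl; exact hN (Nat.eq_zero_of_zero_dvd hpN)
  have h1 := zeta_mem p N hN hpN
  rw [xp_coe p hp]
  refine add_mem (add_mem ?_ h1) (inv_mem h1)
  have := ℚ⟮zeta N⟯.algebraMap_mem (2 : ℚ)
  rwa [map_ofNat] at this

lemma disj (N q : ℕ) (hN : N ≠ 0) (hq : q ≠ 0) (hc : N.Coprime q) : (ℚ⟮zeta N⟯).LinearDisjoint ℚ⟮zeta q⟯ := by
  have hiN : IsIntegral ℚ (zeta N) := Algebra.IsIntegral.isIntegral _
  have hiq : IsIntegral ℚ (zeta q) := Algebra.IsIntegral.isIntegral _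
  have f1 : FiniteDimensional ℚ ℚ⟮zeta N⟯ := adjoin.finiteDimensional hiN
  have f2 : FiniteDimensional ℚ ℚ⟮zeta q⟯ := adjoin.finiteDimensional hiq
  apply LinearDisjoint.of_finrank_sup
  have hprim : IsPrimitiveRoot (zeta N * zeta q) (N * q) := by
    have h1 := (zeta_spec N hN)
    have h2 := (zeta_spec q hq)
    rw [IsPrimitiveRoot.iff_orderOf] at h1 h2 ⊢
    rw [(Commute.all (zeta N) (zeta q)).orderOf_mul_eq_mul_orderOf_of_coprime (by rw [h1, h2]; exact hc), h1, h2]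
  have h3 := finrank_zeta (N*q) (Nat.mul_ne_zero hN hq) _ hprim
  have hle : ℚ⟮zeta N * zeta q⟯ ≤ ℚ⟮zeta N⟯ ⊔ ℚ⟮zeta q⟯ := by
    rw [adjoin_simple_le_iff]
    exact mul_mem ((le_sup_left : ℚ⟮zeta N⟯ ≤ _) (mem_adjoin_simple_self ℚ (zeta N)))
      ((le_sup_right : ℚ⟮zeta q⟯ ≤ _) (mem_adjoin_simple_self ℚ (zeta q)))
  have f3 : FiniteDimensional ℚ ↥(ℚ⟮zeta N⟯ ⊔ ℚ⟮zeta q⟯) := inferInstance
  have h4 : Module.finrank ℚ ℚ⟮zeta N * zeta q⟯ ≤ Module.finrank ℚ ↥(ℚ⟮zeta N⟯ ⊔ ℚ⟮zeta q⟯) := finrank_le_of_le_right hle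
  have h5 : Module.finrank ℚ ↥(ℚ⟮zeta N⟯ ⊔ ℚ⟮zeta q⟯) ≤ Module.finrank ℚ ℚ⟮zeta N⟯ * Module.finrank ℚ ℚ⟮zeta q⟯ := finrank_sup_le _ _
  rw [h3, Nat.totient_mul hc] at h4
  rw [finrank_zeta N hN _ (zeta_spec N hN), finrank_zeta q hq _ (zeta_spec q hq)] at *
  exact le_antisymm h5 h4


/-- the inclusion -/
noncomputable def valQ : Qtr →ₐ[ℚ] AlgebraicClosure ℚ := (Qtr.toSubfield.subtype : Qtr →+* AlgebraicClosure ℚ).toRatAlgHom

/-- the field generated by the `x_p`, `p ∈ S` -/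
noncomputable def LS (S : Finset ℕ) : IntermediateField ℚ Qtr := IntermediateField.adjoin ℚ (xp '' (S : Set ℕ))

lemma LS_insert (q : ℕ) (S : Finset ℕ) : LS (insert q S) = LS S ⊔ ℚ⟮xp q⟯ := by
  unfold LS
  rw [Finset.coe_insert, Set.image_insert_eq, Set.insert_eq, Set.union_comm, IntermediateField.adjoin_union]

lemma LS_map_le (S : Finset ℕ) (hS : ∀ p ∈ S, p.Prime) : (LS S).map valQ ≤ ℚ⟮zeta (∏ p ∈ S, p)⟯ := by
  unfold LS
  rw [IntermediateField.adjoin_map, IntermediateField.adjoin_le_iff]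
  rintro _ ⟨_, ⟨p, hp, rfl⟩, rfl⟩
  have hN : ∏ p ∈ S, p ≠ 0 := Finset.prod_ne_zero_iff.mpr (fun p hp => (hS p hp).ne_zero)
  exact xp_mem p _ hN (Finset.dvd_prod_of_mem (fun p => p) hp)

lemma finrank_map (L : IntermediateField ℚ Qtr) : Module.finrank ℚ (L.map valQ) = Module.finrank ℚ L :=
  (LinearEquiv.finrank_eq (IntermediateField.equivMap L valQ).toLinearEquiv).symm

instance fdLS (S : Finset ℕ) : FiniteDimensional ℚ (LS S) := by
  unfold LS
  apply IntermediateField.finiteDimensional_adjoin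
  intro x _
  exact Algebra.IsIntegral.isIntegral x

lemma finrank_LS (S : Finset ℕ) : (∀ p ∈ S, p.Prime) → Module.finrank ℚ (LS S) = ∏ p ∈ S, Module.finrank ℚ ℚ⟮xp p⟯ := by
  classical
  induction S using Finset.induction_on with
  | empty =>
    intro _
    rw [Finset.prod_empty]
    unfold LS
    rw [Finset.coe_empty, Set.image_empty, IntermediateField.adjoin_empty]
    exact IntermediateField.finrank_bot
  | insert q S hq ih =>
    intro hS
    have hSp : ∀ p ∈ S, p.Prime := fun p hp => hS p (Finset.mem_insert_of_mem hp)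
    have hqp : q.Prime := hS q (Finset.mem_insert_self q S)
    rw [Finset.prod_insert hq, ← ih hSp, LS_insert, ← finrank_map, IntermediateField.map_sup, mul_comm,
      ← finrank_map (LS S), ← finrank_map ℚ⟮xp q⟯]
    have hN : ∏ p ∈ S, p ≠ 0 := Finset.prod_ne_zero_iff.mpr (fun p hp => (hSp p hp).ne_zero)
    have hcop : (∏ p ∈ S, p).Coprime q := by
      apply Nat.Coprime.prod_left
      intro p hp
      exact (Nat.coprime_primes (hSp p hp) hqp).mpr (fun h => hq (h ▸ hp))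
    have hle : (ℚ⟮xp q⟯).map valQ ≤ ℚ⟮zeta q⟯ := by
      rw [IntermediateField.adjoin_map, IntermediateField.adjoin_le_iff]
      rintro _ ⟨_, rfl, rfl⟩
      exact xp_mem q q hqp.ne_zero dvd_rfl
    exact ((disj _ q hN hqp.ne_zero hcop).of_le (LS_map_le S hSp) hle).finrank_sup

lemma finrank_xp_le (p : ℕ) (hp : p ≠ 0) : Module.finrank ℚ ℚ⟮xp p⟯ ≤ p := by
  have hle : (ℚ⟮xp p⟯).map valQ ≤ ℚ⟮zeta p⟯ := by
    rw [IntermediateField.adjoin_map, IntermediateField.adjoin_le_iff]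
    rintro _ ⟨_, rfl, rfl⟩
    exact xp_mem p p hp dvd_rfl
  have hiN : IsIntegral ℚ (zeta p) := Algebra.IsIntegral.isIntegral _
  have f1 : FiniteDimensional ℚ ℚ⟮zeta p⟯ := adjoin.finiteDimensional hiN
  have h1 := finrank_le_of_le_right (K := ℚ) hle
  rw [finrank_map, finrank_zeta p hp _ (zeta_spec p hp)] at h1
  exact h1.trans (Nat.totient_le p)

end Pool.Agent.Helper967.TR
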